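import Pool.Agent.EN.ExEvent
import Pool.Agent.NTA.RunX

/-!
EN (every n): the event theorem for runs of interior leaves with exactly n letters, both directions, no hypothesis.
-/

set_option autoImplicit false

namespace HexObs

namespace EN

open Finset TS SDN NTW NTA

open scoped ENNReal

namespace EX

/-- words with an initial zigzag, exactly n letters -/
lemma gf_zzX {E : Set (List Bool)} {B : ℝ≥0∞} {n : ℕ} (h : ∀ n', gf {s | s ∈ E ∧ s.length = n'} ≤ B) :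
    gf {t | t.length = n ∧ ∃ q, ∃ s ∈ E, t = DirA.Qz q ++ s} ≤ ENNReal.ofReal DirA.CD * B := by
  have h1 : {t | t.length = n ∧ ∃ q, ∃ s ∈ E, t = DirA.Qz q ++ s} =
      ⋃ q : ℕ, {t | t.length = n ∧ ∃ s ∈ E, t = DirA.Qz q ++ s} := by
    ext t
    simp only [Set.mem_ofPred_eq, Set.mem_iUnion, exists_and_left]
  rw [h1]
  refine (ENNReal.tsum_iUnion_le_tsum wE _).trans ?_
  have h2 : ∀ q : ℕ, gf {t | t.length = n ∧ ∃ s ∈ E, t = DirA.Qz q ++ s} ≤ ENNReal.ofReal (xc ^ q) * B := by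
    intro q
    have h3 : gf ({DirA.Qz q} : Set (List Bool)) = ENNReal.ofReal (xc ^ q) := by
      have := gf_finset {DirA.Qz q}
      rw [Finset.coe_singleton, Finset.sum_singleton, DirA.Qz_length] at this
      exact this
    rw [← h3]
    refine (gf_le_mul (R := {s | s ∈ E ∧ s.length = n - q}) fun t ht => ?_).trans (mul_le_mul_right (h _) _)
    obtain ⟨hn, s, hs, h4⟩ := ht
    refine ⟨DirA.Qz q, rfl, s, ⟨hs, ?_⟩, h4⟩
    rw [h4, List.length_append, DirA.Qz_length] at hn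
    omega
  refine (ENNReal.tsum_le_tsum h2).trans ?_
  rw [ENNReal.tsum_mul_right]
  exact mul_le_mul_left (le_of_eq DirA.tsum_xc) _

open RD in
/-- the reduction of the direction true to the direction false -/
theorem true_sub {kc K N : ℕ} {R : Set (List (List Bool))} : {t | t ∈ SAL N ∧ t ∈ ERL true kc K R} ⊆
    {t | ∃ q, ∃ s ∈ {t | t ∈ SAL N ∧ t ∈ ERM kc (K + 3) R}, t = DirA.Qz q ++ s} := by
  classical
  rintro t ⟨⟨ht, htl⟩, hW, m, u, e, hL, l, d, hl, hd, hm, hR⟩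
  have hRR : (4 : ℤ) < RR (kc + 5) := by
    unfold RR
    have h1 : (2 : ℤ) ^ 5 ≤ 2 ^ (kc + 5) := pow_le_pow_right₀ (by norm_num) (by omega)
    norm_num at h1
    omega
  have hbig := hL.big 0 (by omega)
  have hmon : ∀ j, j ≤ m → e j ≤ t.length := fun j hj => (hL.monoA hj le_rfl).trans hL.le
  have hex : ∃ q, q ≤ t.length ∧ DirA.vert (dx up t q) := by
    by_contra hc
    push Not at hc
    have h1 : ∀ i, i < t.length → ¬ DirA.vert (dx up t i) := fun i hi => hc i hi.le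
    have h2 := DirA.zz_lvl h1 (e 0) (hmon 0 (by omega))
    have h3 := DirA.zz_lvl h1 (e 1) (hmon 1 (by omega))
    simp only [zero_add, add_zero] at hbig
    rw [h2, h3] at hbig
    unfold Tight.sg at hbig
    split_ifs at hbig <;> omega
  obtain ⟨hq, hv⟩ := Nat.find_spec hex
  have hmin : ∀ i, i < Nat.find hex → ¬ DirA.vert (dx up t i) := fun i hi h => Nat.find_min hex hi ⟨by omega, h⟩
  set q := Nat.find hex
  have hWd := drop_WL hW hq hv
  obtain ⟨σ, hσ, h1, h2, h3⟩ := drop_dir hq hv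
  refine ⟨q, t.drop q, ?_, by rw [← DirA.take_eq hq hmin hv, List.take_append_drop]⟩
  refine ⟨⟨hWd.1, by rw [List.length_drop]; omega⟩, hWd, ?_⟩
  -- the folds
  obtain ⟨m', rfl⟩ : ∃ m', m = m' + 1 := ⟨m - 1, by omega⟩
  obtain ⟨c, e', hc, hH, he⟩ := hyst_tail (q := q) hRR (fun i hi => by
    have b1 := DirA.zz_lvl hmin i hi
    have b2 := DirA.zz_lvl hmin q le_rfl
    show |lvl true (vx oo up t i) - lvl true (vx oo up t q)| ≤ 2
    rw [b1, b2, abs_le]
    split_ifs <;> constructor <;> omega) hL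
  obtain ⟨u', hH'⟩ := hyst_sgn (f := fun i => lvl false (vx oo up (t.drop q) i)) (c := lvl true (vx oo up t q)) hσ
    (fun i _ => h1 i) hH
  rw [← List.length_drop] at hH'
  refine ⟨m' + 1 - c, u', e', hH', l - c, d, by omega, hd, by omega, ?_⟩
  have h4 : lws (t.drop q) e' (l - c) d = lws t e l d := by
    unfold lws
    apply List.map_congr_left
    intro i hi
    rw [List.mem_range] at hi
    have e1 := he (l - c + i) (by omega) (by omega)
    have e2 := he (l - c + i + 1) (by omega) (by omega)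
    rw [show l - c + i + c = l + i by omega] at e1
    rw [show l - c + i + 1 + c = l + i + 1 by omega] at e2
    have e3 : e' (l - c + i) < e' (l - c + i + 1) := hH.lt (l - c + i) (by omega)
    rw [e1, e2, lw_dropQ (by omega)]
  rw [h4]
  exact hR

/-- **the event theorem for runs of interior leaves, both directions, exactly n letters** -/
theorem eventRXL_of {Dm : ℕ → ℝ≥0∞ → (List Bool → ℝ≥0∞) → Prop} (hE : EventRX Dm) : ∃ (C : ℝ) (k0 : ℕ), 1 ≤ C ∧
    ∀ (dir : Bool) (kc J lam lam' n : ℕ) (R : Set (List (List Bool))) (δ : ℝ), k0 ≤ kc → 6 ≤ J → 0 < δ →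
    QL (kc + J + 11) lam' → SmRX Dm kc R δ →
    gf {t | t.length = n ∧ t ∈ SAL lam ∧ t ∈ ERL dir kc (kc + J) R} ≤
      ENNReal.ofReal (C ^ J * δ * Ub (kc + J)) * (bl (lam + lam' + 40) (kc + J + 11)) ^ 2 := by
  obtain ⟨C0, k0, hC0, h0⟩ := hE
  have hCD := DirA.CD_ge
  have hCp : 0 < C0 := by linarith
  have hCD0 : 0 < DirA.CD := by linarith
  obtain ⟨C, hC⟩ : ∃ C, C = 8 * DirA.CD * C0 ^ 4 := ⟨_, rfl⟩
  have hC1 : 1 ≤ C := by
    rw [hC]
    have : 1 ≤ C0 ^ 4 := one_le_pow₀ hC0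
    nlinarith
  refine ⟨C, k0, hC1, fun dir kc J lam lam' n R δ hk hJ hδ hQ hS => ?_⟩
  have h1 := fun n => h0 kc (J + 3) lam lam' n R δ hk (by omega) hδ
    (by rwa [show kc + (J + 3) + 8 = kc + J + 11 by omega]) hS
  rw [show kc + (J + 3) + 8 = kc + J + 11 by omega] at h1
  have hU : Ub (kc + (J + 3)) ≤ 8 * Ub (kc + J) := by
    have a1 := Ub_succ (kc + J)
    have a2 := Ub_succ (kc + J + 1)
    have a3 := Ub_succ (kc + J + 2)
    rw [show kc + (J + 3) = kc + J + 2 + 1 by omega]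
    linarith
  have hUp := Ub_pos (kc + J)
  have hM : ∀ n : ℕ, gf {t | t.length = n ∧ t ∈ SAL lam ∧ t ∈ ERM kc (kc + (J + 3)) R} ≤
      gf {t | t.length = n ∧ t ∈ SAL lam ∧ t ∈ ER kc (J + 3) R} :=
    fun n => gf_mono fun t ht => ⟨ht.1, ht.2.1, RD.erm_sub ht.2.2⟩
  have hfin : ENNReal.ofReal DirA.CD * (ENNReal.ofReal (C0 ^ (J + 3) * δ * Ub (kc + (J + 3))) *
      (bl (lam + lam' + 40) (kc + J + 11)) ^ 2) ≤
      ENNReal.ofReal (C ^ J * δ * Ub (kc + J)) * (bl (lam + lam' + 40) (kc + J + 11)) ^ 2 := by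
    rw [← mul_assoc, ← ENNReal.ofReal_mul hCD0.le]
    refine mul_le_mul_left (ENNReal.ofReal_le_ofReal ?_) _
    have e1 : C0 ^ (J + 3) ≤ (C0 ^ 4) ^ J := by
      rw [← pow_mul]
      exact pow_le_pow_right₀ hC0 (by omega)
    have e2 : DirA.CD * 8 ≤ (8 * DirA.CD) ^ J := by
      calc DirA.CD * 8 = (8 * DirA.CD) ^ 1 := by ring
        _ ≤ (8 * DirA.CD) ^ J := pow_le_pow_right₀ (by linarith) (by omega)
    have e3 : C ^ J = (8 * DirA.CD) ^ J * (C0 ^ 4) ^ J := by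
      rw [hC, mul_pow]
    rw [e3]
    calc DirA.CD * (C0 ^ (J + 3) * δ * Ub (kc + (J + 3))) ≤ DirA.CD * (C0 ^ (J + 3) * δ * (8 * Ub (kc + J))) := by gcongr
      _ = (DirA.CD * 8) * C0 ^ (J + 3) * δ * Ub (kc + J) := by ring
      _ ≤ (8 * DirA.CD) ^ J * (C0 ^ 4) ^ J * δ * Ub (kc + J) := by gcongr
  cases dir
  · have hsub : {t | t.length = n ∧ t ∈ SAL lam ∧ t ∈ ERL false kc (kc + J) R} ⊆
        {t | t.length = n ∧ t ∈ SAL lam ∧ t ∈ ERM kc (kc + (J + 3)) R} := by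
      rintro t ⟨t0, t1, t2, m, u, e, hL, l, d, a1, a2, a3, a4⟩
      refine ⟨t0, t1, ⟨t2.1, fun i hi dir => (t2.2 i hi dir).trans (pow_le_pow_right₀ (by norm_num) (by omega))⟩, m, u, e, hL,
        l, d, by omega, a2, a3, a4⟩
    refine ((gf_mono hsub).trans ((hM n).trans (h1 n))).trans (le_trans ?_ hfin)
    have : (1 : ℝ≥0∞) ≤ ENNReal.ofReal DirA.CD := by
      rw [← ENNReal.ofReal_one]
      exact ENNReal.ofReal_le_ofReal hCD
    calc _ = 1 * (ENNReal.ofReal (C0 ^ (J + 3) * δ * Ub (kc + (J + 3))) * (bl (lam + lam' + 40) (kc + J + 11)) ^ 2) := by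
          rw [one_mul]
      _ ≤ _ := mul_le_mul_left this _
  · refine le_trans ?_ hfin
    have hs2 : {t | t.length = n ∧ t ∈ SAL lam ∧ t ∈ ERL true kc (kc + J) R} ⊆ {t | t.length = n ∧
        ∃ q, ∃ s ∈ {t | t ∈ SAL lam ∧ t ∈ ERM kc (kc + J + 3) R}, t = DirA.Qz q ++ s} :=
      fun t ht => ⟨ht.1, true_sub ⟨ht.2.1, ht.2.2⟩⟩
    refine (gf_mono hs2).trans (gf_zzX (E := {t | t ∈ SAL lam ∧ t ∈ ERM kc (kc + J + 3) R}) (n := n) fun n' => ?_)
    rw [show kc + J + 3 = kc + (J + 3) by omega]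
    refine (gf_mono fun t ht => ?_).trans ((hM n').trans (h1 n'))
    exact (⟨ht.2, ht.1.1, ht.1.2⟩ : t.length = n' ∧ t ∈ SAL lam ∧ t ∈ ERM kc (kc + (J + 3)) R)


/-- the event theorem for runs, exactly n letters -/
theorem runXn_of {Dm : ℕ → ℝ≥0∞ → (List Bool → ℝ≥0∞) → Prop} (hE : EventRX Dm) : ∃ (C : ℝ) (k0 : ℕ), 1 ≤ C ∧
    ∀ (dir : Bool) (kc J n : ℕ) (R : Set (List (List Bool))) (δ : ℝ), k0 ≤ kc → 6 ≤ J → 0 < δ → SmRX Dm kc R δ →
    gf {t | t.length = n ∧ t ∈ ERL dir kc (kc + J) R} ≤ ENNReal.ofReal (C ^ J * δ * Ub (kc + J)) * Xb (kc + J) ^ 2 := by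
  obtain ⟨C0, k0, hC0, h0⟩ := eventRXL_of hE
  obtain ⟨D, hD, hDX⟩ := Xb_pow
  have hC0' : 0 ≤ C0 := by linarith
  have hD0 : 0 ≤ D := by linarith
  refine ⟨C0 * D ^ 22, k0, ?_, fun dir kc J n R δ hk hJ hδ hS => ?_⟩
  · have : 1 ≤ D ^ 22 := one_le_pow₀ hD
    nlinarith
  · have hUp := Ub_pos (kc + J)
    obtain ⟨lam', hQ⟩ := QL_exists (kc + J + 11)
    have h1 : gf {t | t.length = n ∧ t ∈ ERL dir kc (kc + J) R} ≤
        ENNReal.ofReal (C0 ^ J * δ * Ub (kc + J)) * (Xb (kc + J + 11)) ^ 2 := by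
      refine (gf_mono fun t ht => ?_).trans ((h0 dir kc J n lam' n R δ hk hJ hδ hQ hS).trans ?_)
      · exact ⟨ht.1, ⟨ht.2.1.1, ht.1.le⟩, ht.2⟩
      · exact mul_le_mul_right (pow_le_pow_left' (bl_le_Xb _ _) 2) _
    refine h1.trans ?_
    calc ENNReal.ofReal (C0 ^ J * δ * Ub (kc + J)) * (Xb (kc + J + 11)) ^ 2
        ≤ ENNReal.ofReal (C0 ^ J * δ * Ub (kc + J)) * (ENNReal.ofReal (D ^ 11) * Xb (kc + J)) ^ 2 := by
          exact mul_le_mul_right (pow_le_pow_left' (hDX (kc + J) 11) 2) _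
      _ = ENNReal.ofReal (C0 ^ J * D ^ 22 * δ * Ub (kc + J)) * Xb (kc + J) ^ 2 := by
          rw [mul_pow, ← ENNReal.ofReal_pow (by positivity), ← mul_assoc, ← ENNReal.ofReal_mul (by positivity)]
          congr 2
          ring
      _ ≤ _ := by
          refine mul_le_mul_left (ENNReal.ofReal_le_ofReal ?_) _
          have e1 : D ^ 22 ≤ (D ^ 22) ^ J := by
            calc D ^ 22 = (D ^ 22) ^ 1 := by rw [pow_one]
              _ ≤ (D ^ 22) ^ J := pow_le_pow_right₀ (one_le_pow₀ hD) (by omega)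
          rw [mul_pow]
          gcongr

end EX

/-- the event theorem for runs, exactly n letters, its hypotheses plugged in -/
theorem eventRXJ (hA : SsA) : EventRX DmJ := EX.eventRX_of dmP geoRun rep_two hA ss3P ssDP

/-- **the event theorem for runs of interior leaves, both directions, exactly n letters** -/
theorem runXn : ∃ (C : ℝ) (k0 : ℕ), 1 ≤ C ∧
    ∀ (dir : Bool) (kc J n : ℕ) (R : Set (List (List Bool))) (δ : ℝ), k0 ≤ kc → 6 ≤ J → 0 < δ → SmRX DmJ kc R δ →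
    gf {t | t.length = n ∧ t ∈ ERL dir kc (kc + J) R} ≤ ENNReal.ofReal (C ^ J * δ * Ub (kc + J)) * Xb (kc + J) ^ 2 := by
  obtain ⟨Ci, δi, hI⟩ := inp_exists
  exact EX.runXn_of (eventRXJ (ssA hI))

end EN

end HexObs
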