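import Pool.Agent.EN.Defs
import Pool.Agent.NTA.RunSum

/-!
EN: composition of classes of runs. A run is a left part, a middle part and a right part; the norms multiply.
-/

set_option autoImplicit false

namespace HexObs

namespace EN

open Finset TS SDN NTW NTA

open scoped ENNReal

/-- the runs a ++ b -/
def AppR (R1 R2 : Set (List (List Bool))) : Set (List (List Bool)) :=
  {gs | ∃ a ∈ R1, ∃ b ∈ R2, a ≠ [] ∧ b ≠ [] ∧ gs = a ++ b}

/-- the runs with one leaf -/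
def One (S : Set (List Bool)) : Set (List (List Bool)) := {gs | ∃ g ∈ S, gs = [g]}

/-- all leaves of the run have a height at least D -/
def InH (D : ℕ) (R : Set (List (List Bool))) : Prop := ∀ gs ∈ R, ∀ g ∈ gs, g ∈ HB D

/-- a leaf class of small exact norm -/
structure SmDX (Dm : ℕ → ℝ≥0∞ → (List Bool → ℝ≥0∞) → Prop) (kc : ℕ) (S : Set (List Bool)) (δ : ℝ) : Prop where
  near : ∀ (x : ℝ≥0∞) (F : ℕ → List Bool → ℝ≥0∞), GH (2 ^ (kc + 4)) F → Dm kc x (tot F) →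
    xT (2 ^ (kc + 4)) kc (fun t => ⨆ N, vG (2 ^ (kc + 4)) S F N t) ≤ ENNReal.ofReal δ * x
  free : ∀ (y x : ℝ≥0∞) (P F : ℕ → List Bool → ℝ≥0∞), GH (2 ^ (kc + 4)) P → (∀ c, Flp (2 ^ (kc + 4)) (P c)) →
    GH (2 ^ (kc + 4)) F → Dm kc y (tot P) → Dm kc x (tot F) → ∀ N : ℕ,
    Rec8.sw S (fun g => ∑ c ∈ range (N + 1), P c (rev g) * sh F (N - c) g) ≤ ENNReal.ofReal (δ * Ub kc) * (y * x)

lemma inH_one {D : ℕ} {S : Set (List Bool)} (hS : S ⊆ HB D) : InH D (One S) := by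
  rintro gs ⟨g, hg, rfl⟩ g' hg'
  rw [List.mem_singleton] at hg'
  rw [hg']
  exact hS hg

lemma inH_app {D : ℕ} {R1 R2 : Set (List (List Bool))} (h1 : InH D R1) (h2 : InH D R2) : InH D (AppR R1 R2) := by
  rintro gs ⟨a, ha, b, hb, -, -, rfl⟩ g hg
  rcases List.mem_append.1 hg with h | h
  · exact h1 a ha g h
  · exact h2 b hb g h

lemma last_mem {D : ℕ} {R : Set (List (List Bool))} (hR : InH D R) {g : List Bool} {ms : List (List Bool)}
    (h : (g :: ms) ∈ R) : (g :: ms).getLastD [] ∈ HB D := by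
  refine hR _ h _ ?_
  rw [List.getLastD_eq_getLast?, List.getLast?_eq_getLast_of_ne_nil (List.cons_ne_nil _ _), Option.getD_some]
  exact List.getLast_mem _

lemma sh_mono {F G : ℕ → List Bool → ℝ≥0∞} {g : List Bool} (h : ∀ n, F n g ≤ G n g) (N : ℕ) : sh F N g ≤ sh G N g := by
  unfold sh
  split_ifs
  · exact h _
  · exact le_rfl

lemma sh_le {F : ℕ → List Bool → ℝ≥0∞} {g : List Bool} {c : ℝ≥0∞} (h : ∀ n, F n g ≤ c) (N : ℕ) : sh F N g ≤ c := by
  unfold sh
  split_ifs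
  · exact h _
  · exact zero_le

lemma last_app' {g h : List Bool} {ms rs : List (List Bool)} :
    (g :: (ms ++ h :: rs)).getLastD [] = (h :: rs).getLastD [] := by
  rw [← List.cons_append, List.getLastD_eq_getLast?, List.getLastD_eq_getLast?,
    List.getLast?_append_of_ne_nil _ (List.cons_ne_nil _ _)]

/-! ### the sum over the second part -/

open Classical in
/-- the sum over the second part behind the leaf u -/
lemma part2 {D : ℕ} {R2 : Set (List (List Bool))} (h2 : InH D R2) (F : ℕ → List Bool → ℝ≥0∞) (M : ℕ) {u : List Bool}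
    (hu : u ∈ HB D) :
    (∑' rs : List (List Bool), if rs ∈ R2 ∧ rs ≠ [] ∧ (u :: rs).IsChain LFold ∧ ll rs ≤ M then
      SDN.wl rs * F (M - ll rs) (rs.getLastD []) else 0) ≤ vG D (HB D) (runG R2 F) M u := by
  refine (CCh.tsum_list _ ?_).trans ?_
  · rw [if_neg]
    rintro ⟨-, h, -⟩
    exact h rfl
  unfold vG vA
  rw [Rec8.sw_ind]
  refine ENNReal.tsum_le_tsum fun h => ?_
  by_cases hh : h ∈ {g' | g' ∈ HB D ∧ RT D LFold u g'}
  · rw [if_pos hh]
    unfold sh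
    by_cases hl : h.length + 1 ≤ M
    · rw [if_pos hl]
      unfold runG
      rw [← ENNReal.tsum_mul_left]
      refine ENNReal.tsum_le_tsum fun rs => ?_
      by_cases h3 : (h :: rs) ∈ R2 ∧ (h :: rs) ≠ [] ∧ (u :: h :: rs).IsChain LFold ∧ ll (h :: rs) ≤ M
      · obtain ⟨a1, -, a3, a4⟩ := h3
        rw [if_pos ⟨a1, List.cons_ne_nil _ _, a3, a4⟩]
        rw [ll_cons] at a4 ⊢
        rw [if_pos ⟨a1, (List.isChain_cons_cons.1 a3).2, by omega⟩, NTm.wl_cons, mul_assoc,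
          show M - (h.length + 1 + ll rs) = M - (h.length + 1) - ll rs by omega]
      · rw [if_neg h3]
        exact zero_le
    · rw [if_neg hl, mul_zero]
      refine le_of_eq (ENNReal.tsum_eq_zero.2 fun rs => ?_)
      rw [if_neg]
      rintro ⟨-, -, -, h4⟩
      rw [ll_cons] at h4
      omega
  · rw [if_neg hh]
    refine le_of_eq (ENNReal.tsum_eq_zero.2 fun rs => ?_)
    rw [if_neg]
    rintro ⟨a1, -, a3, -⟩
    exact hh ⟨h2 _ a1 h List.mem_cons_self, RT_of hu (List.isChain_cons_cons.1 a3).1⟩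

/-- **the sum over the runs a ++ b, graded** -/
theorem runG_app {D : ℕ} {R1 R2 : Set (List (List Bool))} (h1 : InH D R1) (h2 : InH D R2)
    (F : ℕ → List Bool → ℝ≥0∞) (N : ℕ) (g : List Bool) :
    runG (AppR R1 R2) F N g ≤ runG R1 (vG D (HB D) (runG R2 F)) N g := by
  classical
  unfold runG
  refine (NTA.RF.tsum_app (H := fun ms rs => if ((g :: ms) ∈ R1 ∧ (g :: ms).IsChain LFold ∧ ll ms ≤ N) ∧
    (rs ∈ R2 ∧ rs ≠ [] ∧ ((g :: ms).getLastD [] :: rs).IsChain LFold ∧ ll rs ≤ N - ll ms) then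
    SDN.wl ms * (SDN.wl rs * F (N - ll ms - ll rs) (rs.getLastD [])) else 0) ?_).trans ?_
  · intro gs
    by_cases h : (g :: gs) ∈ AppR R1 R2 ∧ (g :: gs).IsChain LFold ∧ ll gs ≤ N
    · right
      obtain ⟨⟨a, ha, b, hb, ha0, hb0, hab⟩, hc, hl⟩ := h
      obtain ⟨x, a', rfl⟩ := List.exists_cons_of_ne_nil ha0
      obtain ⟨z, b', rfl⟩ := List.exists_cons_of_ne_nil hb0
      rw [List.cons_append, List.cons.injEq] at hab
      obtain ⟨rfl, rfl⟩ := hab
      obtain ⟨c1, c2⟩ := NTA.RF.chain_split hc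
      refine ⟨a', z :: b', rfl, ?_⟩
      have hl' := hl
      rw [ll_append] at hl'
      have hcond : (g :: (a' ++ z :: b')) ∈ AppR R1 R2 :=
        ⟨g :: a', ha, z :: b', hb, List.cons_ne_nil _ _, List.cons_ne_nil _ _, rfl⟩
      rw [if_pos ⟨hcond, hc, hl⟩, if_pos ⟨⟨ha, c1, by omega⟩, hb, List.cons_ne_nil _ _, c2, by omega⟩,
        NTA.RF.wl_append, mul_assoc, last_app', ll_append, Nat.sub_sub]
    · left
      rw [if_neg h]
  · refine ENNReal.tsum_le_tsum fun ms => ?_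
    by_cases h : (g :: ms) ∈ R1 ∧ (g :: ms).IsChain LFold ∧ ll ms ≤ N
    · rw [if_pos h]
      refine le_trans (le_of_eq ?_) (mul_le_mul_right (part2 h2 F (N - ll ms) (last_mem h1 h.1)) _)
      rw [← ENNReal.tsum_mul_left]
      refine tsum_congr fun rs => ?_
      by_cases h3 : rs ∈ R2 ∧ rs ≠ [] ∧ ((g :: ms).getLastD [] :: rs).IsChain LFold ∧ ll rs ≤ N - ll ms
      · rw [if_pos ⟨h, h3⟩, if_pos h3]
      · rw [if_neg fun h4 => h3 h4.2, if_neg h3, mul_zero]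
    · rw [if_neg h]
      refine le_of_eq (ENNReal.tsum_eq_zero.2 fun rs => ?_)
      rw [if_neg fun h4 => h h4.1]

lemma runG_monoF {R : Set (List (List Bool))} {F G : ℕ → List Bool → ℝ≥0∞} (h : ∀ n t, F n t ≤ G n t) (N : ℕ)
    (g : List Bool) : runG R F N g ≤ runG R G N g := by
  classical
  unfold runG
  refine ENNReal.tsum_le_tsum fun ms => ?_
  split_ifs
  · exact mul_le_mul_right (h _ _) _
  · exact le_rfl

lemma runG_le_runF {R : Set (List (List Bool))} {F : ℕ → List Bool → ℝ≥0∞} {Φ : List Bool → ℝ≥0∞}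
    (h : ∀ n t, F n t ≤ Φ t) (N : ℕ) (g : List Bool) : runG R F N g ≤ runF R Φ g := by
  classical
  unfold runG runF
  refine ENNReal.tsum_le_tsum fun ms => ?_
  by_cases h1 : (g :: ms) ∈ R ∧ (g :: ms).IsChain LFold
  · rw [if_pos h1]
    split_ifs
    · exact mul_le_mul_right (h _ _) _
    · exact zero_le
  · rw [if_neg h1, if_neg fun h2 => h1 ⟨h2.1, h2.2.1⟩]

lemma runG_mono {R R' : Set (List (List Bool))} (h : R' ⊆ R) (F : ℕ → List Bool → ℝ≥0∞) (N : ℕ) (g : List Bool) :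
    runG R' F N g ≤ runG R F N g := by
  classical
  unfold runG
  refine ENNReal.tsum_le_tsum fun ms => ?_
  by_cases h1 : (g :: ms) ∈ R' ∧ (g :: ms).IsChain LFold ∧ ll ms ≤ N
  · rw [if_pos h1, if_pos ⟨h h1.1, h1.2⟩]
  · rw [if_neg h1]
    exact zero_le

lemma vG_mono {D : ℕ} {A : Set (List Bool)} {F G : ℕ → List Bool → ℝ≥0∞} (h : ∀ n, ∀ g, F n g ≤ G n g) (N : ℕ)
    (t : List Bool) : vG D A F N t ≤ vG D A G N t := by
  unfold vG
  exact vA_monoF (fun g => sh_mono (fun n => h n g) N) t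

/-! ### composition -/

variable {Dm : ℕ → ℝ≥0∞ → (List Bool → ℝ≥0∞) → Prop} {kc : ℕ} {R R1 R2 G : Set (List (List Bool))} {δ d1 d2 : ℝ}

/-- a smaller class -/
lemma SmRX.anti (hS : SmRX Dm kc R δ) (h : R1 ⊆ R) : SmRX Dm kc R1 δ :=
  ⟨fun x F hF hx => (xT_mono fun t => iSup_mono fun N => vG_mono (fun n g => runG_mono h F n g) N t).trans
      (hS.near x F hF hx),
    fun y x P F hP hf hF hy hx N => (Rec8.sw_mono' fun g _ => Finset.sum_le_sum fun c _ =>
      mul_le_mul_right (sh_mono (fun n => runG_mono h F n g) _) _).trans (hS.free y x P F hP hf hF hy hx N)⟩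

lemma SmRX.le (hS : SmRX Dm kc R δ) {δ' : ℝ} (h : δ ≤ δ') : SmRX Dm kc R δ' := by
  have hU := (Ub_pos kc).le
  exact ⟨fun x F hF hx => (hS.near x F hF hx).trans (mul_le_mul_left (ENNReal.ofReal_le_ofReal h) _),
    fun y x P F hP hf hF hy hx N => (hS.free y x P F hP hf hF hy hx N).trans
      (mul_le_mul_left (ENNReal.ofReal_le_ofReal (mul_le_mul_of_nonneg_right h hU)) _)⟩

/-- **exact left part, ordinary right part** -/
theorem smRX_right (hDm : DmP Dm) (h1 : InH (2 ^ (kc + 4)) G) (h2 : InH (2 ^ (kc + 4)) R2) (hd1 : 0 ≤ d1) (hd2 : 0 ≤ d2)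
    (hG : SmRX Dm kc G d1) (hR : SmR Dm kc R2 d2) : SmRX Dm kc (AppR G R2) (d1 * d2) := by
  have hU := (Ub_pos kc).le
  have hD : 1 ≤ 2 ^ (kc + 4) := Nat.one_le_two_pow
  -- the second functional
  have key : ∀ (x : ℝ≥0∞) (F : ℕ → List Bool → ℝ≥0∞), Dm kc x (tot F) →
      ∃ x2 : ℝ≥0∞, x2 ≤ ENNReal.ofReal d2 * x ∧
        Dm kc x2 (tot (vG (2 ^ (kc + 4)) (HB (2 ^ (kc + 4))) (runG R2 F))) := by
    intro x F hx
    have e1 : tot (vG (2 ^ (kc + 4)) (HB (2 ^ (kc + 4))) (runG R2 F)) =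
        vA (2 ^ (kc + 4)) (HB (2 ^ (kc + 4))) (runF R2 (tot F)) := by
      funext t
      rw [tot_vG]
      congr 1
      funext g
      exact tot_runG R2 F g
    rw [e1]
    exact ⟨_, hR.near x _ hx, hDm.dm kc _ (NTm.herD_vA hD _ _)⟩
  refine ⟨fun x F hF hx => ?_, fun y x P F hP hf hF hy hx N => ?_⟩
  · obtain ⟨x2, hx2, hd⟩ := key x F hx
    refine (xT_mono fun t => iSup_mono fun N => vG_mono (fun n g => runG_app h1 h2 F n g) N t).trans ?_
    refine (hG.near x2 _ (herD_vG hD _ _) hd).trans ((mul_le_mul_right hx2 _).trans (le_of_eq ?_))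
    rw [← mul_assoc, ← ENNReal.ofReal_mul hd1]
  · obtain ⟨x2, hx2, hd⟩ := key x F hx
    refine (Rec8.sw_mono' fun g _ => Finset.sum_le_sum fun c _ =>
      mul_le_mul_right (sh_mono (fun n => runG_app h1 h2 F n g) _) _).trans ?_
    refine (hG.free y x2 P _ hP hf (herD_vG hD _ _) hy hd N).trans
      ((mul_le_mul_right (mul_le_mul_right hx2 _) _).trans (le_of_eq ?_))
    rw [mul_left_comm y, ← mul_assoc, ← ENNReal.ofReal_mul (mul_nonneg hd1 hU)]
    congr 2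
    ring

/-- **ordinary left part, exact right part** -/
theorem smRX_left (hDm : DmP Dm) (h1 : InH (2 ^ (kc + 4)) R1) (h2 : InH (2 ^ (kc + 4)) G) (hd1 : 0 ≤ d1) (hd2 : 0 ≤ d2)
    (hR : SmR Dm kc R1 d1) (hG : SmRX Dm kc G d2) : SmRX Dm kc (AppR R1 G) (d1 * d2) := by
  have hU := (Ub_pos kc).le
  have hD : 1 ≤ 2 ^ (kc + 4) := Nat.one_le_two_pow
  have key : ∀ (x : ℝ≥0∞) (F : ℕ → List Bool → ℝ≥0∞), GH (2 ^ (kc + 4)) F → Dm kc x (tot F) →
      ∃ (x1 : ℝ≥0∞) (F1 : List Bool → ℝ≥0∞), x1 ≤ ENNReal.ofReal d2 * x ∧ Dm kc x1 F1 ∧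
        ∀ N g, runG (AppR R1 G) F N g ≤ runF R1 F1 g := by
    intro x F hF hx
    refine ⟨_, fun t => ⨆ N, vG (2 ^ (kc + 4)) (HB (2 ^ (kc + 4))) (runG G F) N t, hG.near x F hF hx,
      hDm.dm kc _ (herD_iSup (herD_vG hD _ _)), fun N g => ?_⟩
    exact (runG_app h1 h2 F N g).trans (runG_le_runF
      (fun n t => le_iSup (fun N => vG (2 ^ (kc + 4)) (HB (2 ^ (kc + 4))) (runG G F) N t) n) N g)
  refine ⟨fun x F hF hx => ?_, fun y x P F hP hf hF hy hx N => ?_⟩
  · obtain ⟨x1, F1, hx1, hd, hle⟩ := key x F hF hx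
    refine (xT_mono fun t => iSup_le fun N => ?_).trans ((hR.near x1 F1 hd).trans
      ((mul_le_mul_right hx1 _).trans (le_of_eq ?_)))
    · unfold vG
      exact vA_monoF (fun g => sh_le (fun n => hle n g) N) t
    · rw [← mul_assoc, ← ENNReal.ofReal_mul hd1]
  · obtain ⟨x1, F1, hx1, hd, hle⟩ := key x F hF hx
    have h3 : Rec8.sw (HB (2 ^ (kc + 4))) (fun g => ∑ c ∈ range (N + 1), P c (rev g) *
        sh (runG (AppR R1 G) F) (N - c) g) ≤ Rec8.sw (HB (2 ^ (kc + 4))) (fun g => tot P (rev g) * runF R1 F1 g) := by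
      refine Rec8.sw_mono' fun g _ => ?_
      refine (Finset.sum_le_sum fun c _ => mul_le_mul_right (sh_le (fun n => hle n g) (N - c)) _).trans ?_
      rw [← Finset.sum_mul]
      exact mul_le_mul_left (ENNReal.sum_le_tsum _) _
    refine h3.trans ((hR.free y x1 _ _ hy (flp_tot hf) hd).trans
      ((mul_le_mul_right (mul_le_mul_right hx1 _) _).trans (le_of_eq ?_)))
    rw [mul_left_comm y, ← mul_assoc, ← ENNReal.ofReal_mul (mul_nonneg hd1 hU)]
    congr 2
    ring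

end EN

end HexObs
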