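import Pool.Agent.EN.ExRest

/-!
EN, E2 (free part): the two sided sum over the leaves of a window class with an exact total number of letters.
-/

set_option autoImplicit false

namespace HexObs

namespace EN

open Finset TS SDN SDN.T2 NTW

open scoped ENNReal

open TG in
/-- **the two sided exact sum over the leaves of a window class** -/
theorem free_x (hA : SsA) : ∃ K : ℝ, 1 ≤ K ∧ ∀ (k e j N : ℕ) (A : ℝ) (y x : ℝ≥0∞) (P F : ℕ → List Bool → ℝ≥0∞)
    (W : Set (List Bool)), (∀ c, Hered (P c)) → DomJ k y (tot P) → (∀ c, Hered (F c)) → DomJ k x (tot F) → j + 1 ≤ e →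
    e ≤ k → W ⊆ BrR (2 ^ (k + 4)) N → EZX (2 ^ (k + 4)) N e W A → Win e j W → ∀ L : ℕ,
    Rec8.sw W (fun g => ∑ c ∈ range (L + 1), P c (rev g) * sh F (L - c) g) ≤
      ENNReal.ofReal (K * (4 ^ (k - j) * A)) * (y * x) := by
  classical
  obtain ⟨K0, hK0, hrest⟩ := rest_x hA
  obtain ⟨K1, hK1, hend⟩ := endsJ hA
  refine ⟨K1 * K0, one_le_mul_of_one_le_of_one_le hK1 hK0,
    fun k e j N A y x P F W hP hPd hF hFd hj he hWN hW hwin L => ?_⟩
  unfold sh
  obtain ⟨B, hB⟩ : ∃ B, B = ENNReal.ofReal (K0 * 2 ^ (k - j)) * ENNReal.ofReal A * x := ⟨_, rfl⟩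
  obtain ⟨G, hG⟩ : ∃ G : List Bool → ℝ≥0∞, G = fun g => if g ∈ W then ∑ c ∈ range (L + 1), P c (rev g) *
      (if g.length + 1 ≤ L - c then F (L - c - (g.length + 1)) g else 0) else 0 := ⟨_, rfl⟩
  have hGg : ∀ g, G g = if g ∈ W then ∑ c ∈ range (L + 1), P c (rev g) *
      (if g.length + 1 ≤ L - c then F (L - c - (g.length + 1)) g else 0) else 0 := fun g => by rw [hG]
  have e1 : Rec8.sw W (fun g => ∑ c ∈ range (L + 1), P c (rev g) *
      (if g.length + 1 ≤ L - c then F (L - c - (g.length + 1)) g else 0)) = Rec8.sw (BrR (2 ^ (k + 4)) N) G := by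
    rw [Rec8.sw_ind, Rec8.sw_ind]
    refine tsum_congr fun g => ?_
    rw [hGg]
    by_cases h1 : g ∈ W
    · rw [if_pos h1, if_pos h1, if_pos (hWN h1)]
    · rw [if_neg h1, if_neg h1, mul_zero]
      simp
  rw [e1]
  have hp : 2 ^ (j + 1) ≤ 2 ^ (k + 4) := Nat.pow_le_pow_right (by norm_num) (by omega)
  -- the rest behind the head X and the piece P1
  have hr : ∀ (n r : ℕ) (X P1 : List Bool), mu j n r ≠ 0 → X ∈ Brd n → P1 ∈ Irr r →
      Rec8.sw {Z | Z ∈ BU ∧ X ++ (P1 ++ Z) ∈ BrR (2 ^ (k + 4)) N} (fun Z => G (X ++ (P1 ++ Z))) ≤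
        tot P (rev P1 ++ rev X) * B := by
    intro n r X P1 hmu hX hP1
    obtain ⟨hn1, hn2⟩ := mu_ne hmu
    have s1 : Rec8.sw {Z | Z ∈ BU ∧ X ++ (P1 ++ Z) ∈ BrR (2 ^ (k + 4)) N} (fun Z => G (X ++ (P1 ++ Z))) ≤
        Rec8.sw {Z | Z ∈ BU ∧ X ++ (P1 ++ Z) ∈ W} (fun Z => G (X ++ (P1 ++ Z))) := by
      rw [Rec8.sw_ind, Rec8.sw_ind]
      refine ENNReal.tsum_le_tsum fun Z => ?_
      by_cases hZ : Z ∈ {Z | Z ∈ BU ∧ X ++ (P1 ++ Z) ∈ BrR (2 ^ (k + 4)) N}
      · rw [if_pos hZ]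
        by_cases h2 : X ++ (P1 ++ Z) ∈ W
        · rw [if_pos (show Z ∈ {Z | Z ∈ BU ∧ X ++ (P1 ++ Z) ∈ W} from ⟨hZ.1, h2⟩)]
        · rw [hGg, if_neg h2, mul_zero]
          exact zero_le
      · rw [if_neg hZ]
        exact zero_le
    refine s1.trans ?_
    by_cases hemp : ∃ Z, Z ∈ BU ∧ X ++ (P1 ++ Z) ∈ W
    swap
    · have : {Z | Z ∈ BU ∧ X ++ (P1 ++ Z) ∈ W} = (∅ : Set (List Bool)) := by
        rw [Set.eq_empty_iff_forall_notMem]
        intro Z hZ
        exact hemp ⟨Z, hZ⟩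
      rw [this]
      unfold Rec8.sw
      rw [tsum_empty]
      exact zero_le
    obtain ⟨Z0, hZ0, hZW⟩ := hemp
    have hnr : n + r ≤ 2 ^ e := hwin.hd n r X P1 Z0 hX hP1 hZ0 hZW hn1 hn2
    -- every value of the left grade
    have s2 : Rec8.sw {Z | Z ∈ BU ∧ X ++ (P1 ++ Z) ∈ W} (fun Z => G (X ++ (P1 ++ Z))) ≤
        Rec8.sw {Z | Z ∈ BU ∧ X ++ (P1 ++ Z) ∈ W} (fun Z => ∑ c ∈ range (L + 1), P c (rev P1 ++ rev X) *
          (if X.length + P1.length + 1 ≤ L - c then (if Z.length ≤ L - c - (X.length + P1.length + 1) then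
            F (L - c - (X.length + P1.length + 1) - Z.length) (P1 ++ Z) else 0) else 0)) := by
      refine Rec8.sw_mono' fun Z hZ => ?_
      obtain ⟨⟨z, hz⟩, hZ2⟩ := hZ
      rw [hGg, if_pos hZ2]
      refine Finset.sum_le_sum fun c hc => ?_
      have hlen : (X ++ (P1 ++ Z)).length = X.length + P1.length + Z.length := by
        rw [List.length_append, List.length_append, add_assoc]
      refine mul_le_mul' ?_ ?_
      · rw [rev_append, rev_append, List.append_assoc]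
        exact hP c (rev Z) ⟨z, Brd_rev hz⟩ _
      · rw [hlen]
        by_cases h3 : X.length + P1.length + Z.length + 1 ≤ L - c
        · rw [if_pos h3, if_pos (by omega), if_pos (by omega),
            show L - c - (X.length + P1.length + Z.length + 1) = L - c - (X.length + P1.length + 1) - Z.length by omega]
          exact hF _ X ⟨n, hX⟩ _
        · rw [if_neg h3]
          exact zero_le
    refine s2.trans ?_
    rw [Rec8.sw_sum]
    have s3 : ∀ c ∈ range (L + 1), Rec8.sw {Z | Z ∈ BU ∧ X ++ (P1 ++ Z) ∈ W} (fun Z => P c (rev P1 ++ rev X) *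
        (if X.length + P1.length + 1 ≤ L - c then (if Z.length ≤ L - c - (X.length + P1.length + 1) then
          F (L - c - (X.length + P1.length + 1) - Z.length) (P1 ++ Z) else 0) else 0)) ≤
        P c (rev P1 ++ rev X) * B := by
      intro c _
      rw [Rec8.sw_mul_left]
      refine mul_le_mul_right ?_ _
      by_cases h4 : X.length + P1.length + 1 ≤ L - c
      · simp only [if_pos h4]
        rw [hB]
        exact hrest k e j N n r A x F X P1 W hF hFd hj he hWN hW hwin hX hP1 hnr _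
      · simp only [if_neg h4]
        rw [Rec8.sw_zero]
        exact zero_le
    refine (Finset.sum_le_sum s3).trans ?_
    rw [← Finset.sum_mul]
    exact mul_le_mul_left (ENNReal.sum_le_tsum _) _
  -- the level near the head
  have s4 : Rec8.sw (BrR (2 ^ (k + 4)) N) G ≤ ∑' n : ℕ, ∑' r : ℕ, mu j n r * Rec8.sw (Brd n) (fun X =>
      Rec8.sw (Irr r) (fun P1 => tot P (rev P1 ++ rev X) * B)) := by
    refine (inR (j := j) (D := 2 ^ (k + 4)) (N := N) hp _).trans ?_
    refine ENNReal.tsum_le_tsum fun n => ENNReal.tsum_le_tsum fun r => ?_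
    by_cases hmu : mu j n r = 0
    · rw [hmu, zero_mul, zero_mul]
    exact mul_le_mul_right (Rec8.sw_mono' fun X hX => Rec8.sw_mono' fun P1 hP1 => hr n r X P1 hmu hX hP1) _
  refine s4.trans ?_
  have s5 : ∀ n r : ℕ, Rec8.sw (Brd n) (fun X => Rec8.sw (Irr r) (fun P1 => tot P (rev P1 ++ rev X) * B)) =
      Rec8.sw (Irr r) (fun P1 => Rec8.sw (Brd n) (fun M => tot P (P1 ++ M))) * B := by
    intro n r
    rw [Rec8.sw_comm, ← Rec8.sw_mul_right, ← DO.sw_rev (Irr r) (fun t ht => Irr_rev ht)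
      (fun P1 => Rec8.sw (Brd n) (fun M => tot P (P1 ++ M)) * B)]
    refine Rec8.sw_congr fun P1 _ => ?_
    rw [← Rec8.sw_mul_right, ← DO.sw_rev (Brd n) (fun t ht => Brd_rev ht) (fun M => tot P (rev P1 ++ M) * B)]
  have s6 := hend k j y (tot P) hPd (by omega)
  rw [ENNReal.tsum_comm]
  calc ∑' r : ℕ, ∑' n : ℕ, mu j n r * Rec8.sw (Brd n) (fun X => Rec8.sw (Irr r) (fun P1 => tot P (rev P1 ++ rev X) * B))
      = (∑' r : ℕ, ∑' n : ℕ, mu j n r * Rec8.sw (Irr r) (fun P1 => Rec8.sw (Brd n) (fun M => tot P (P1 ++ M)))) * B := by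
        rw [← ENNReal.tsum_mul_right]
        refine tsum_congr fun r => ?_
        rw [← ENNReal.tsum_mul_right]
        refine tsum_congr fun n => ?_
        rw [s5, mul_assoc]
    _ ≤ (ENNReal.ofReal (K1 * 2 ^ (k - j)) * y) * B := mul_le_mul_left s6 _
    _ = ENNReal.ofReal (K1 * K0 * (4 ^ (k - j) * A)) * (y * x) := by
        rw [hB]
        have e5 : K1 * K0 * (4 ^ (k - j) * A) = (K1 * 2 ^ (k - j)) * ((K0 * 2 ^ (k - j)) * A) := by
          have : (4 : ℝ) ^ (k - j) = 2 ^ (k - j) * 2 ^ (k - j) := by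
            rw [← mul_pow]
            norm_num
          rw [this]
          ring
        rw [e5, ENNReal.ofReal_mul (p := K1 * 2 ^ (k - j)) (by positivity),
          ENNReal.ofReal_mul (p := K0 * 2 ^ (k - j)) (by positivity)]
        ring

end EN

end HexObs
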