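import Pool.Agent.EN.ExNear
import Pool.Agent.EN.ExFree
import Pool.Agent.EN.Comp

/-!
EN, E2: the exact norm of a window class of leaves.
-/

set_option autoImplicit false

namespace HexObs

namespace EN

open Finset TS SDN SDN.T2 NTW

open scoped ENNReal

/-- **E2: the exact norm of a window class** whose free middle part has a weight of at most A for every number of
letters. -/
theorem ex_norm : ∃ K : ℝ, 1 ≤ K ∧ ∀ (k N e j : ℕ) (A : ℝ) (W : Set (List Bool)), j + 1 ≤ e → e ≤ k → 0 ≤ A →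
    W ⊆ BrR (2 ^ (k + 4)) N → EZX (2 ^ (k + 4)) N e W A → Win e j W →
    SmDX DmJ k W (K * (4 ^ (k - j) * (A / Ub k))) := by
  obtain ⟨C, δ, h⟩ := inp_exists
  have hA := ssA h
  obtain ⟨K1, hK1, h1⟩ := near_x h hA
  obtain ⟨K2, hK2, h2⟩ := free_x hA
  refine ⟨K1 + K2, by linarith, fun k N e j A W hj he hA0 hWN hW hwin => ?_⟩
  have hU := Ub_pos k
  have ha : 0 ≤ 4 ^ (k - j) * (A / Ub k) := by positivity
  refine ⟨fun x F hF hFd => ?_, fun y x P F hP _ hF hPd hFd L => ?_⟩
  · refine (h1 k e j N A x F W (fun c => (hF c).her) hFd.2 hj he hA0 hWN hW hwin).trans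
      (mul_le_mul_left (ENNReal.ofReal_le_ofReal ?_) _)
    exact mul_le_mul_of_nonneg_right (by linarith) ha
  · refine (h2 k e j N A y x P F W (fun c => (hP c).her) hPd.2 (fun c => (hF c).her) hFd.2 hj he hWN hW hwin L).trans
      (mul_le_mul_left (ENNReal.ofReal_le_ofReal ?_) _)
    have e1 : (K1 + K2) * (4 ^ (k - j) * (A / Ub k)) * Ub k = (K1 + K2) * (4 ^ (k - j) * A) := by
      field_simp
    rw [e1]
    exact mul_le_mul_of_nonneg_right (by linarith) (by positivity)

end EN

end HexObs
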