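import Pool.Agent.PW.Index
import Pool.Agent.PW.RenI
import Pool.Agent.NTA.TailDefs

/-!
EN: numbers of the free middle part of a leaf. For a scale m with a proportion of long bridges (C1) and the indices
a1, 3 / 5 of the number of bridges by the letters:

* `num_up`: the bridges with exactly b letters, b at least y m k: at most C / y Ub k / m k;
* `num_short`: the bridges with less than y m k letters: at most C y ^ a1 Ub k.
-/

set_option autoImplicit false

namespace HexObs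

namespace EN

open Finset TS SDN BrL NTA

open scoped ENNReal

/-- cumulative weight of the bridges -/
noncomputable def VV (n : ℕ) : ℝ := ∑ j ∈ range n, ub j

lemma VV_mono {a b : ℕ} (h : a ≤ b) : VV a ≤ VV b :=
  Finset.sum_le_sum_of_subset_of_nonneg (Finset.range_mono h) fun i _ _ => PWIdx.ub_nonneg i

lemma VV_nonneg (a : ℕ) : 0 ≤ VV a := Finset.sum_nonneg fun i _ => PWIdx.ub_nonneg i

/-- the first index not below a quarter of the typical length -/
lemma VV_le_Ub {m : ℕ → ℝ} (hm : ∀ k, 0 < m k) (h : C1 m) : ∃ c C : ℝ, 0 < c ∧ c ≤ 1 ∧ 0 < C ∧ ∀ k : ℕ,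
    ∃ X : ℕ, 1 ≤ X ∧ c * m k ≤ X ∧ VV X ≤ C * Ub k := by
  obtain ⟨c, c', hc, hc', h1⟩ := h
  refine ⟨min (c / 2) 1, 2 / c', lt_min (by positivity) one_pos, min_le_right _ _, by positivity, fun k => ?_⟩
  have hk := hm k
  obtain ⟨x, hx⟩ : ∃ x : ℕ, x + 1 = ⌈c * m k / 2⌉₊ := by
    have : 0 < ⌈c * m k / 2⌉₊ := Nat.ceil_pos.2 (by positivity)
    exact ⟨⌈c * m k / 2⌉₊ - 1, by omega⟩
  have hx1 : c * m k / 2 ≤ ((x + 1 : ℕ) : ℝ) := by
    rw [hx]
    exact Nat.le_ceil _
  have hx2 : 2 * (x : ℝ) < c * m k := by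
    have h2 := Nat.ceil_lt_add_one (show 0 ≤ c * m k / 2 by positivity)
    rw [← hx] at h2
    push_cast at h2
    linarith
  have hU : 0 < Ub k := Ub_pos k
  have hN : ¬ T2.Tail (2 ^ k) (c * m k) (c' / 2) := by
    intro h3
    have h4 := (h1 k).trans h3
    have h5 := (ENNReal.ofReal_le_ofReal_iff (by positivity)).1 h4
    have h6 : c' * Ub k ≤ c' / 2 * Ub k := h5
    nlinarith
  have h7 := PWIdx.up_of_not_tail (by positivity) hN hx2
  refine ⟨x + 1, by omega, ?_, ?_⟩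
  · refine le_trans ?_ hx1
    calc min (c / 2) 1 * m k ≤ c / 2 * m k := mul_le_mul_of_nonneg_right (min_le_left _ _) hk.le
      _ = _ := by ring
  · have e : VV (x + 1) = NUX.UU ub x := rfl
    rw [e]
    refine h7.trans (le_of_eq ?_)
    have e2 : UU (2 ^ k) = Ub k := rfl
    rw [e2]
    field_simp

/-- the bridges with exactly b letters -/
lemma tsum_len (b : ℕ) : ∑' h : ℕ, gf {Z | Z ∈ Brd h ∧ Z.length = b} = gf (BLs b) := by
  have e : BLs b = ⋃ h : ℕ, {Z | Z ∈ Brd h ∧ Z.length = b} := by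
    ext t
    rw [Set.mem_iUnion]
    constructor
    · rintro ⟨⟨h, h1⟩, h2⟩
      exact ⟨h, h1, h2⟩
    · rintro ⟨h, h1, h2⟩
      exact ⟨⟨h, h1⟩, h2⟩
  rw [e]
  exact (K1.gf_iUnion (fun h => {Z | Z ∈ Brd h ∧ Z.length = b}) fun i j t hi hj => Brd_height hi.1 hj.1).symm

/-- the short bridges -/
lemma tsum_short {x : ℝ} {n : ℕ} (h : x ≤ 2 * n) (hn : 1 ≤ n) :
    ∑' h : ℕ, gf {Z | Z ∈ Brd h ∧ (Z.length : ℝ) < x} ≤ ENNReal.ofReal (VV n) := by
  rw [← K1.gf_iUnion (fun h => {Z | Z ∈ Brd h ∧ (Z.length : ℝ) < x}) fun i j t hi hj => Brd_height hi.1 hj.1]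
  obtain ⟨p, rfl⟩ : ∃ p, n = p + 1 := ⟨n - 1, by omega⟩
  have e : VV (p + 1) = NUX.UU ub p := rfl
  rw [e, UU_eq, ENNReal.ofReal_toReal (SB_ne_top _)]
  refine gf_mono ?_
  intro t ht
  rw [Set.mem_iUnion] at ht
  obtain ⟨i, h1, h2⟩ := ht
  refine ⟨⟨i, h1⟩, ?_⟩
  obtain ⟨q, hq⟩ := even_length h1
  have h3 : (t.length : ℝ) < ((2 * (p + 1) : ℕ) : ℝ) := by
    push_cast
    push_cast at h
    linarith
  have h4 : t.length < 2 * (p + 1) := by exact_mod_cast h3
  omega

/-- **the bridges with exactly b letters, b at least y m k** -/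
theorem num_up {m : ℕ → ℝ} {a1 : ℝ} (hm : ∀ k, 0 < m k) (hC : C1 m) (h1 : 1 / 2 < a1) (h2 : a1 ≤ 3 / 5)
    (hI : IndB2 a1) : ∃ C : ℝ, 0 < C ∧ ∀ (k b : ℕ) (y : ℝ), 0 < y → y ≤ 1 → y * m k ≤ b →
      ∑' h : ℕ, gf {Z | Z ∈ Brd h ∧ Z.length = b} ≤ ENNReal.ofReal (C / y * (Ub k / m k)) := by
  obtain ⟨c, C, hc, hc1, hCp, hV⟩ := VV_le_Ub hm hC
  obtain ⟨_, C', _, hC', hub⟩ := ub_two h1 h2 hI
  obtain ⟨_, CI, _, hCI, hind⟩ := hI
  refine ⟨C' * (2 * C + CI * 2 * C / c), by positivity, fun k b y hy hy1 hb => ?_⟩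
  have hk := hm k
  have hU : 0 < Ub k := Ub_pos k
  obtain ⟨X, hX1, hX, hVX⟩ := hV k
  rw [tsum_len]
  rcases Nat.even_or_odd b with he | ho
  swap
  · have : BLs b = (∅ : Set (List Bool)) := by
      rw [Set.eq_empty_iff_forall_notMem]
      rintro t ⟨⟨h, h3⟩, h4⟩
      have h5 := even_length h3
      rw [h4] at h5
      exact (Nat.not_even_iff_odd.2 ho) h5
    rw [this]
    have : gf (∅ : Set (List Bool)) = 0 := by
      unfold gf
      simp
    rw [this]
    exact zero_le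
  obtain ⟨n, hn⟩ := he
  have hn2 : b = 2 * n := by omega
  have hbR : (b : ℝ) = 2 * n := by exact_mod_cast hn2
  have hn0 : 0 < (n : ℝ) := by
    have : 0 < y * m k := by positivity
    linarith
  have hn1 : 1 ≤ n := by exact_mod_cast hn0
  have e : gf (BLs b) = ENNReal.ofReal (ub n) := by
    rw [hn2]
    unfold ub
    rw [ENNReal.ofReal_toReal (BLs_ne_top _)]
  rw [e]
  refine ENNReal.ofReal_le_ofReal ((hub n hn1).2.trans ?_)
  have hX0 : 0 < (X : ℝ) := by exact_mod_cast hX1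
  have key : VV n / n ≤ (2 * C + CI * 2 * C / c) / y * (Ub k / m k) := by
    rcases Nat.lt_or_ge n X with hnX | hnX
    · have h3 : VV n ≤ C * Ub k := (VV_mono hnX.le).trans hVX
      have h4 : VV n / n ≤ C * Ub k / (y * m k / 2) := by
        refine div_le_div₀ (by positivity) h3 (by positivity) ?_
        linarith
      refine h4.trans ?_
      have e1 : C * Ub k / (y * m k / 2) = 2 * C / y * (Ub k / m k) := by
        field_simp
      rw [e1]
      refine mul_le_mul_of_nonneg_right ?_ (by positivity)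
      refine div_le_div_of_nonneg_right ?_ hy.le
      have : 0 ≤ CI * 2 * C / c := by positivity
      linarith
    · -- the upper index
      obtain ⟨q, hq⟩ : ∃ q : ℕ, q = n / X + 1 := ⟨_, rfl⟩
      have hq1 : 1 ≤ q := by rw [hq]; exact Nat.le_add_left 1 _
      have hqX : n ≤ q * X := by
        rw [hq]
        have := Nat.lt_div_mul_add (a := n) (b := X) (by omega)
        nlinarith
      have hqX' : (q : ℝ) * X ≤ 2 * n := by
        have h3 : n / X * X ≤ n := Nat.div_mul_le_self n X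
        have h4 : q * X ≤ 2 * n := by
          rw [hq]
          nlinarith
        exact_mod_cast h4
      have hqR : (1 : ℝ) ≤ q := by exact_mod_cast hq1
      have h3 : VV n ≤ CI * (q : ℝ) ^ (3 / 5 : ℝ) * VV X := (VV_mono hqX).trans (hind q X hq1 hX1).2
      have h4 : (q : ℝ) ^ (3 / 5 : ℝ) ≤ q := by
        calc (q : ℝ) ^ (3 / 5 : ℝ) ≤ (q : ℝ) ^ (1 : ℝ) := Real.rpow_le_rpow_of_exponent_le hqR (by norm_num)
          _ = q := Real.rpow_one _
      have h5 : VV n ≤ CI * q * (C * Ub k) :=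
        h3.trans (mul_le_mul (mul_le_mul_of_nonneg_left h4 hCI.le) hVX (VV_nonneg X) (by positivity))
      have h6 : VV n / n ≤ CI * 2 * C * Ub k / X := by
        rw [div_le_div_iff₀ hn0 hX0]
        calc VV n * X ≤ CI * q * (C * Ub k) * X := mul_le_mul_of_nonneg_right h5 hX0.le
          _ = CI * (C * Ub k) * (q * X) := by ring
          _ ≤ CI * (C * Ub k) * (2 * n) := mul_le_mul_of_nonneg_left hqX' (by positivity)
          _ = _ := by ring
      refine h6.trans ?_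
      have h7 : CI * 2 * C * Ub k / X ≤ CI * 2 * C * Ub k / (c * m k) :=
        div_le_div_of_nonneg_left (by positivity) (by positivity) hX
      refine h7.trans ?_
      have e1 : CI * 2 * C * Ub k / (c * m k) = CI * 2 * C / c * (Ub k / m k) := by
        field_simp
      rw [e1]
      refine mul_le_mul_of_nonneg_right ?_ (by positivity)
      rw [le_div_iff₀ hy]
      have h8 : 0 ≤ CI * 2 * C / c := by positivity
      nlinarith
  calc C' * ((∑ j ∈ range n, ub j) / n) ≤ C' * ((2 * C + CI * 2 * C / c) / y * (Ub k / m k)) :=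
        mul_le_mul_of_nonneg_left key hC'.le
    _ = _ := by ring

/-- **the bridges with less than y m k letters** -/
theorem num_short {m : ℕ → ℝ} {a1 : ℝ} (hm : ∀ k, 0 < m k) (hC : C1 m) (h1 : 0 < a1) (hI : IndB2 a1) :
    ∃ C : ℝ, 0 < C ∧ ∀ (k : ℕ) (y : ℝ), 0 < y → y ≤ 1 → 1 ≤ y * m k →
      ∑' h : ℕ, gf {Z | Z ∈ Brd h ∧ (Z.length : ℝ) < y * m k} ≤ ENNReal.ofReal (C * y ^ a1 * Ub k) := by
  obtain ⟨c, C, hc, hc1, hCp, hV⟩ := VV_le_Ub hm hC
  obtain ⟨cI, CI, hcI, hCI, hind⟩ := hI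
  obtain ⟨A, hA⟩ : ∃ A : ℝ, A = CI * (2 / c + 1) * C * (c / 2)⁻¹ ^ a1 + C / cI * (4 / c) ^ a1 := ⟨_, rfl⟩
  have hA1 : 0 < CI * (2 / c + 1) * C * (c / 2)⁻¹ ^ a1 := by positivity
  have hA2 : 0 < C / cI * (4 / c) ^ a1 := by positivity
  refine ⟨A, by rw [hA]; positivity, fun k y hy hy1 hym => ?_⟩
  have hk := hm k
  have hU : 0 < Ub k := Ub_pos k
  obtain ⟨X, hX1, hX, hVX⟩ := hV k
  have hX0 : 0 < (X : ℝ) := by exact_mod_cast hX1
  obtain ⟨n, hn⟩ : ∃ n : ℕ, n = ⌈y * m k / 2⌉₊ := ⟨_, rfl⟩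
  have hn1 : 1 ≤ n := by
    rw [hn]
    exact Nat.ceil_pos.2 (by positivity)
  have hn0 : (0 : ℝ) < n := by exact_mod_cast hn1
  have hn2 : y * m k / 2 ≤ n := by
    rw [hn]
    exact Nat.le_ceil _
  have hn3 : (n : ℝ) ≤ 2 * (y * m k) := by
    have := (Nat.ceil_lt_add_one (show 0 ≤ y * m k / 2 by positivity)).le
    rw [← hn] at this
    linarith
  refine (tsum_short (n := n) (by linarith) hn1).trans (ENNReal.ofReal_le_ofReal ?_)
  have hya : 0 < y ^ a1 := Real.rpow_pos_of_pos hy _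
  rcases Nat.lt_or_ge n X with hnX | hnX
  · -- the lower index
    obtain ⟨b, hb⟩ : ∃ b : ℕ, b = X / n := ⟨_, rfl⟩
    have hb1 : 1 ≤ b := by
      rw [hb]
      exact (Nat.one_le_div_iff (by omega)).2 hnX.le
    have hbn : b * n ≤ X := by
      rw [hb]
      exact Nat.div_mul_le_self X n
    have hbX : (X : ℝ) ≤ 2 * (b * n) := by
      have h3 : X < b * n + n := by
        rw [hb]
        exact Nat.lt_div_mul_add (by omega)
      have h4 : X ≤ 2 * (b * n) := by nlinarith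
      exact_mod_cast h4
    have hbR : (1 : ℝ) ≤ b := by exact_mod_cast hb1
    have h5 : cI * (b : ℝ) ^ a1 * VV n ≤ C * Ub k :=
      ((hind b n hb1 hn1).1.trans (VV_mono hbn)).trans hVX
    have h6 : c / (4 * y) ≤ b := by
      rw [div_le_iff₀ (by positivity)]
      have h7 : c * m k ≤ 2 * (b * (2 * (y * m k))) := by
        refine hX.trans (hbX.trans ?_)
        have := mul_le_mul_of_nonneg_left hn3 (show (0 : ℝ) ≤ b by linarith)
        linarith
      have h8 : c * m k ≤ (b * (4 * y)) * m k := by linarith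
      exact le_of_mul_le_mul_right h8 hk
    have h7 : (c / (4 * y)) ^ a1 ≤ (b : ℝ) ^ a1 := Real.rpow_le_rpow (by positivity) h6 h1.le
    have h8 : (c / (4 * y)) ^ a1 * ((4 / c) ^ a1 * y ^ a1) = 1 := by
      rw [← Real.mul_rpow (by positivity) hy.le, ← Real.mul_rpow (by positivity) (by positivity)]
      have : c / (4 * y) * (4 / c * y) = 1 := by field_simp
      rw [this, Real.one_rpow]
    have h9 : VV n ≤ C / cI * (4 / c) ^ a1 * y ^ a1 * Ub k := by
      have h10 : cI * (c / (4 * y)) ^ a1 * VV n ≤ C * Ub k :=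
        (mul_le_mul_of_nonneg_right (mul_le_mul_of_nonneg_left h7 hcI.le) (VV_nonneg n)).trans h5
      have h11 := mul_le_mul_of_nonneg_left h10 (show 0 ≤ cI⁻¹ * ((4 / c) ^ a1 * y ^ a1) by positivity)
      have e1 : cI⁻¹ * ((4 / c) ^ a1 * y ^ a1) * (cI * (c / (4 * y)) ^ a1 * VV n) = VV n := by
        calc _ = cI⁻¹ * cI * ((c / (4 * y)) ^ a1 * ((4 / c) ^ a1 * y ^ a1)) * VV n := by ring
          _ = _ := by rw [h8, inv_mul_cancel₀ hcI.ne']; ring
      rw [e1] at h11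
      refine h11.trans (le_of_eq ?_)
      field_simp
    refine h9.trans ?_
    rw [hA]
    refine mul_le_mul_of_nonneg_right (mul_le_mul_of_nonneg_right ?_ hya.le) hU.le
    linarith
  · -- y is bounded below
    have hyc : c / 2 ≤ y := by
      have h3 : c * m k ≤ 2 * (y * m k) := (hX.trans (by exact_mod_cast hnX)).trans hn3
      have h4 : c / 2 * m k ≤ y * m k := by linarith
      exact le_of_mul_le_mul_right h4 hk
    obtain ⟨q, hq⟩ : ∃ q : ℕ, q = n / X + 1 := ⟨_, rfl⟩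
    have hq1 : 1 ≤ q := by rw [hq]; exact Nat.le_add_left 1 _
    have hqX : n ≤ q * X := by
      rw [hq]
      have := Nat.lt_div_mul_add (a := n) (b := X) (by omega)
      nlinarith
    have hqR : (1 : ℝ) ≤ q := by exact_mod_cast hq1
    have hqc : (q : ℝ) ≤ 2 / c + 1 := by
      have h3 : ((n / X : ℕ) : ℝ) ≤ (n : ℝ) / X := Nat.cast_div_le
      have h4 : (n : ℝ) / X ≤ 2 / c := by
        rw [div_le_div_iff₀ hX0 hc]
        have h5 : (n : ℝ) ≤ 2 * m k := by nlinarith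
        nlinarith
      rw [hq]
      push_cast
      linarith
    have h3 : VV n ≤ CI * (q : ℝ) ^ (3 / 5 : ℝ) * VV X := (VV_mono hqX).trans (hind q X hq1 hX1).2
    have h4 : (q : ℝ) ^ (3 / 5 : ℝ) ≤ q := by
      calc (q : ℝ) ^ (3 / 5 : ℝ) ≤ (q : ℝ) ^ (1 : ℝ) := Real.rpow_le_rpow_of_exponent_le hqR (by norm_num)
        _ = q := Real.rpow_one _
    have h5 : VV n ≤ CI * (2 / c + 1) * (C * Ub k) :=
      h3.trans (mul_le_mul (mul_le_mul_of_nonneg_left (h4.trans hqc) hCI.le) hVX (VV_nonneg X) (by positivity))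
    have h6 : 1 ≤ (c / 2)⁻¹ ^ a1 * y ^ a1 := by
      rw [← Real.mul_rpow (by positivity) hy.le]
      refine Real.one_le_rpow ?_ h1.le
      rw [inv_mul_eq_div, one_le_div (by positivity)]
      exact hyc
    calc VV n ≤ CI * (2 / c + 1) * (C * Ub k) * 1 := by rw [mul_one]; exact h5
      _ ≤ CI * (2 / c + 1) * (C * Ub k) * ((c / 2)⁻¹ ^ a1 * y ^ a1) := mul_le_mul_of_nonneg_left h6 (by positivity)
      _ = CI * (2 / c + 1) * C * (c / 2)⁻¹ ^ a1 * y ^ a1 * Ub k := by ring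
      _ ≤ _ := by
        rw [hA]
        refine mul_le_mul_of_nonneg_right (mul_le_mul_of_nonneg_right ?_ hya.le) hU.le
        linarith

end EN

end HexObs
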