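import Pool.Agent.EN.GB
import Pool.Agent.EN.ExNorm
import Pool.Agent.EN.NumUb

/-!
EN, the exact norm of the good leaves of the depth D and the final statement good_bad.
-/

set_option autoImplicit false

namespace HexObs

namespace EN

open Finset TS SDN NTW NTA

open scoped ENNReal

open LQ

lemma win_good {D N e j : ℕ} {x : ℝ} : Win e j {g | g ∈ BrR D N ∧ g ∈ Good e j x} where
  hd := fun n r X P Z hX hP hZ hg h1 h2 => hg.2.1.1 n r X P Z hX hP hZ rfl h1 h2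
  tl := fun m r Z P M hZ hP hM hg h1 h2 => hg.2.1.2 m r Z P M hZ hP hM rfl h1 h2

lemma ezx_good {D N e j : ℕ} {x A : ℝ} (h : ∀ b : ℕ, x ≤ b → ∑' n : ℕ, gf {Z | Z ∈ Brd n ∧ Z.length = b} ≤
    ENNReal.ofReal A) : EZX D N e {g | g ∈ BrR D N ∧ g ∈ Good e j x} A := by
  intro M hM P1 hP1 P2 hP2 Q hQ h1 h2 b
  have hMP := BU_app hM (IU_BU hP1)
  have hPQ := BU_app (IU_BU hP2) hQ
  by_cases hb : x ≤ (b : ℝ)
  · refine le_trans (ENNReal.tsum_le_tsum fun n => gf_mono ?_) (h b hb)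
    exact fun Z hZ => ⟨hZ.1, hZ.2.1⟩
  · refine sum_none fun Z hZ => ?_
    rintro ⟨h3, ⟨-, -, h4⟩, -⟩
    refine hb ?_
    rw [← h3]
    refine h4 (M ++ P1) Z (P2 ++ Q) hMP hZ hPQ (by rw [List.append_assoc]) ?_ ?_
    · rw [hgt_app hM (IU_BU hP1)]
      exact h1
    · rw [hgt_app (IU_BU hP2) hQ]
      exact h2

lemma smDX_le {Dm : ℕ → ℝ≥0∞ → (List Bool → ℝ≥0∞) → Prop} {kc : ℕ} {S : Set (List Bool)} {δ δ' : ℝ} (h : δ ≤ δ')
    (hS : SmDX Dm kc S δ) : SmDX Dm kc S δ' := by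
  refine ⟨fun x F h1 h2 => (hS.near x F h1 h2).trans ?_, fun y x P F h1 h2 h3 h4 h5 N => (hS.free y x P F h1 h2 h3 h4 h5 N).trans ?_⟩
  · exact mul_le_mul_left (ENNReal.ofReal_le_ofReal h) _
  · refine mul_le_mul_left (ENNReal.ofReal_le_ofReal ?_) _
    exact mul_le_mul_of_nonneg_right h (Ub_pos kc).le

/-- **good and bad leaves of the depth D** -/
theorem good_bad_of {m : ℕ → ℝ} {a1 C1 C2 : ℝ} (ha : 1 / 2 ≤ a1) (hC1 : 0 < C1) (hC2 : 0 < C2)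
    (hm : ∀ k, 0 < m k)
    (hu : ∀ (k b : ℕ) (y : ℝ), 0 < y → y ≤ 1 → y * m k ≤ b →
      ∑' h : ℕ, gf {Z | Z ∈ Brd h ∧ Z.length = b} ≤ ENNReal.ofReal (C2 / y * (Ub k / m k)))
    (hs : ∀ (k : ℕ) (y : ℝ), 0 < y → y ≤ 1 → 1 ≤ y * m k →
      ∑' h : ℕ, gf {Z | Z ∈ Brd h ∧ (Z.length : ℝ) < y * m k} ≤ ENNReal.ofReal (C1 * y ^ a1 * Ub k)) :
    ∃ (C B : ℝ) (s1 s2 c2 : ℕ), 1 ≤ C ∧ 1 ≤ B ∧ 1 ≤ s1 ∧ s1 ≤ s2 ∧ ∀ k N D : ℕ, 1 ≤ D → s2 * D + 4 ≤ k →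
      SmD DmJ k (BrR (2 ^ (k + 4)) N \ Good (k - (s1 * D + 3)) (k - (s2 * D + 4)) (m k / 2 ^ (c2 * D)))
        (C * (1 + UU N / Ub k) ^ 2 / 2 ^ D) ∧
      SmDX DmJ k {g | g ∈ BrR (2 ^ (k + 4)) N ∧ g ∈ Good (k - (s1 * D + 3)) (k - (s2 * D + 4)) (m k / 2 ^ (c2 * D))}
        (C * B ^ D / m k) := by
  obtain ⟨C, s1, s2, c2, hC, hs1, hs12, hb⟩ := bad_norm ha hC1 hm hs
  obtain ⟨K, hK, hx⟩ := ex_norm
  refine ⟨C + K * 256 * C2, 4 ^ s2 * 2 ^ c2, s1, s2, c2, by nlinarith [mul_pos (by linarith : 0 < K) hC2], ?_, hs1, hs12,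
    fun k N D hD hk => ⟨?_, ?_⟩⟩
  · exact one_le_mul_of_one_le_of_one_le (one_le_pow₀ (by norm_num)) (one_le_pow₀ (by norm_num))
  · refine LQ.SmD_le ?_ (hb k N D hD hk)
    have h1 : 0 ≤ K * 256 * C2 := by positivity
    apply div_le_div_of_nonneg_right _ (by positivity)
    apply mul_le_mul_of_nonneg_right _ (by positivity)
    linarith
  · have hU := Ub_pos k
    have hmk := hm k
    obtain ⟨y, hy⟩ : ∃ y : ℝ, y = 1 / 2 ^ (c2 * D) := ⟨_, rfl⟩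
    have hy0 : 0 < y := by rw [hy]; positivity
    have hy1 : y ≤ 1 := by
      rw [hy, div_le_one (by positivity)]
      exact one_le_pow₀ (by norm_num)
    have e1 : m k / 2 ^ (c2 * D) = y * m k := by rw [hy]; ring
    have h1 := hx k N (k - (s1 * D + 3)) (k - (s2 * D + 4)) (C2 / y * (Ub k / m k))
      {g | g ∈ BrR (2 ^ (k + 4)) N ∧ g ∈ Good (k - (s1 * D + 3)) (k - (s2 * D + 4)) (m k / 2 ^ (c2 * D))}
      (by have : s1 * D ≤ s2 * D := Nat.mul_le_mul_right _ hs12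
          omega) (by omega) (by positivity) (fun g hg => hg.1)
      (ezx_good fun b hb => hu k b y hy0 hy1 (e1 ▸ hb)) win_good
    refine smDX_le ?_ h1
    have e2 : k - (k - (s2 * D + 4)) = s2 * D + 4 := by omega
    rw [e2]
    have e3 : K * (4 ^ (s2 * D + 4) * (C2 / y * (Ub k / m k) / Ub k)) = K * 256 * C2 * (4 ^ s2 * 2 ^ c2) ^ D / m k := by
      rw [hy, pow_add, mul_pow, ← pow_mul, ← pow_mul]
      norm_num
      field_simp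
    rw [e3]
    apply div_le_div_of_nonneg_right _ hmk.le
    apply mul_le_mul_of_nonneg_right _ (by positivity)
    linarith

/-- good and bad leaves of the depth D, from the proportion of long bridges and the indices of the number of bridges -/
theorem good_bad {m : ℕ → ℝ} {a1 : ℝ} (hm : ∀ k, 0 < m k) (hC : C1 m) (h1 : 1 / 2 < a1) (h2 : a1 ≤ 3 / 5)
    (hI : BrL.IndB2 a1) :
    ∃ (C B : ℝ) (s1 s2 c2 : ℕ), 1 ≤ C ∧ 1 ≤ B ∧ 1 ≤ s1 ∧ s1 ≤ s2 ∧ ∀ k N D : ℕ, 1 ≤ D → s2 * D + 4 ≤ k →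
      SmD DmJ k (BrR (2 ^ (k + 4)) N \ Good (k - (s1 * D + 3)) (k - (s2 * D + 4)) (m k / 2 ^ (c2 * D)))
        (C * (1 + UU N / Ub k) ^ 2 / 2 ^ D) ∧
      SmDX DmJ k {g | g ∈ BrR (2 ^ (k + 4)) N ∧ g ∈ Good (k - (s1 * D + 3)) (k - (s2 * D + 4)) (m k / 2 ^ (c2 * D))}
        (C * B ^ D / m k) := by
  obtain ⟨C2, hC2, hu⟩ := num_up hm hC h1 h2 hI
  obtain ⟨C1', hC1', hs⟩ := num_short hm hC (by linarith) hI
  exact good_bad_of h1.le hC1' hC2 hm hu hs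

end EN

end HexObs
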