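import Pool.Agent.EN.ExStep
import Pool.Agent.EN.GBGood

/-!
EN: the exact norm of the leaves of the block kc + 7 at every scale, from the zig-zags of the recursion.
-/

set_option autoImplicit false

namespace HexObs

namespace EN

open Finset TS SDN NTW NTA

open scoped ENNReal

/-- exponential growth is below double exponential growth -/
lemma exp_dexp (M : ℝ) (c : ℕ) : ∃ i1 : ℕ, ∀ i ≥ i1, M ^ i ≤ 4 ^ (2 ^ (i - c)) ∧ c ≤ i := by
  obtain ⟨p, hp⟩ : ∃ p : ℕ, |M| ≤ 4 ^ p := by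
    obtain ⟨p, hp⟩ := pow_unbounded_of_one_lt |M| (show (1 : ℝ) < 4 by norm_num)
    exact ⟨p, hp.le⟩
  have ht : Filter.Tendsto (fun n : ℕ => (n : ℝ) ^ 1 / 2 ^ n) Filter.atTop (nhds 0) :=
    tendsto_pow_const_div_const_pow_of_one_lt 1 (by norm_num)
  have h1 : (0 : ℝ) < 1 / (p * 2 ^ c + 1) := by positivity
  obtain ⟨i0, hi0⟩ := Filter.eventually_atTop.1 (ht.eventually (gt_mem_nhds h1))
  refine ⟨max i0 c, fun i hi => ⟨?_, (le_max_right _ _).trans hi⟩⟩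
  have h2 := hi0 i ((le_max_left _ _).trans hi)
  rw [pow_one] at h2
  have h3 : (i : ℝ) * (p * 2 ^ c + 1) ≤ 2 ^ i := by
    rw [div_lt_div_iff₀ (by positivity) (by positivity)] at h2
    linarith
  have h4 : p * i * 2 ^ c ≤ 2 ^ i := by
    have : ((p * i * 2 ^ c : ℕ) : ℝ) ≤ ((2 ^ i : ℕ) : ℝ) := by
      push_cast
      have : (0 : ℝ) ≤ i := Nat.cast_nonneg i
      nlinarith
    exact_mod_cast this
  have h5 : p * i ≤ 2 ^ (i - c) := by
    have e1 : 2 ^ i = 2 ^ (i - c) * 2 ^ c := by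
      rw [← pow_add]
      congr 1
      have := (le_max_right i0 c).trans hi
      omega
    rw [e1] at h4
    exact Nat.le_of_mul_le_mul_right h4 (by positivity)
  calc M ^ i ≤ |M| ^ i := (le_abs_self _).trans (le_of_eq (abs_pow M i))
    _ ≤ (4 ^ p) ^ i := pow_le_pow_left₀ (abs_nonneg M) hp i
    _ = 4 ^ (p * i) := by rw [← pow_mul]
    _ ≤ 4 ^ (2 ^ (i - c)) := pow_le_pow_right₀ (by norm_num) h5

lemma mup_pow {m : ℕ → ℝ} {Cm : ℝ} (hC : 1 ≤ Cm) (h : ∀ k, m (k + 1) ≤ Cm * m k) (k i : ℕ) : m (k + i) ≤ Cm ^ i * m k := by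
  induction i with
  | zero => simp
  | succ i ih =>
    calc m (k + (i + 1)) ≤ Cm * m (k + i) := h (k + i)
      _ ≤ Cm * (Cm ^ i * m k) := mul_le_mul_of_nonneg_left ih (by linarith)
      _ = _ := by ring

lemma geo_tail (n : ℕ) : ∑ i ∈ range n, (1 / 8 : ℝ) * (1 / 2) ^ i ≤ 1 / 4 := by
  rw [← Finset.mul_sum, geom_sum_eq (by norm_num)]
  have : (0 : ℝ) ≤ (1 / 2) ^ n := by positivity
  have e : ((1 / 2 : ℝ) ^ n - 1) / (1 / 2 - 1) = 2 - 2 * (1 / 2) ^ n := by ring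
  rw [e]
  linarith

/-- **one step of the recursion, all scales above a finite one** -/
theorem ex_step {m : ℕ → ℝ} {a1 : ℝ} (hm : ∀ k, 0 < m k) (hup : MUp m) (hC : C1 m) (h1 : 1 / 2 < a1) (h2 : a1 ≤ 3 / 5)
    (hI : BrL.IndB2 a1) : ∃ (C0 : ℝ) (k0 : ℕ), 1 ≤ C0 ∧ ∀ (kc : ℕ) (A : ℝ), k0 ≤ kc → 0 ≤ A →
      (∀ j ≤ kc, SmDX DmJ j (Bk j) (A / m j)) → SmDX DmJ kc (Bk kc) ((C0 + A / 2) / m kc) := by
  obtain ⟨Ci, δi, hInp⟩ := inp_exists
  obtain ⟨Cm, hCm, hmu⟩ := hup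
  obtain ⟨Kf, s, hKf, hs5, hfar⟩ := far_norm
  obtain ⟨Kn, hKn, hnear⟩ := near_norm
  obtain ⟨Cg, B, s1, s2, c2, hCg, hB, -, -, hgb⟩ := good_bad hm hC h1 h2 hI
  obtain ⟨Kc, sc, hKc, hc⟩ := cleanD_of hInp (ssA hInp) (ssThree hInp) (ssBoth hInp)
  -- the index beyond which the parts l are far
  obtain ⟨i1, hi1⟩ : ∃ i1 : ℕ, ∀ i ≥ i1, (8 * Kf * (4 * Cm)) ^ i ≤ 4 ^ (2 ^ (i - (5 + s))) ∧ 5 + s ≤ i :=
    exp_dexp _ _
  -- the depth
  obtain ⟨D, hD1, hD⟩ : ∃ D : ℕ, 1 ≤ D ∧ 4 * (i1 * (Kn * 2 ^ i1 * (Cg * 257 ^ 2) * Cm ^ i1)) ≤ 2 ^ D := by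
    obtain ⟨D, hD⟩ := pow_unbounded_of_one_lt (4 * (i1 * (Kn * 2 ^ i1 * (Cg * 257 ^ 2) * Cm ^ i1)))
      (show (1 : ℝ) < 2 by norm_num)
    refine ⟨D + 1, by omega, hD.le.trans ?_⟩
    exact pow_le_pow_right₀ (by norm_num) (by omega)
  obtain ⟨k1, hk1⟩ := exp_dexp Cm (3 + sc)
  have hm0 := hm 0
  obtain ⟨C0, hC0⟩ : ∃ C0 : ℝ, C0 = 1 + Kc * 8 ^ 8 * m 0 + i1 * (Kn * 2 ^ i1 * (Cg * B ^ D)) := ⟨_, rfl⟩
  have hC01 : 1 ≤ C0 := by
    rw [hC0]
    have e1 : 0 ≤ Kc * 8 ^ 8 * m 0 := by positivity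
    have e2 : 0 ≤ i1 * (Kn * 2 ^ i1 * (Cg * B ^ D)) := by positivity
    linarith
  refine ⟨C0, k1 + s2 * D + 8 + sc, hC01, fun kc A hkc hA hE => ?_⟩
  have hmk := hm kc
  -- clean leaves
  have hclean : SmDX DmJ kc (NTm.GU 3 kc (2 ^ (kc + 8))) (Kc * 8 ^ 8 * m 0 / m kc) := by
    obtain ⟨n, hn⟩ : ∃ n, n = 2 ^ (kc - (3 + sc)) := ⟨_, rfl⟩
    have h5 : n * 2 ^ (3 + sc) ≤ 2 ^ kc := by
      rw [hn, ← pow_add]
      exact Nat.pow_le_pow_right (by norm_num) (by omega)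
    have h6 := hc kc 8 n 3 (by omega) h5 (by omega) (by norm_num)
    refine smDX_up ?_ (smDX_of_smD h6)
    have h7 : m kc ≤ Cm ^ kc * m 0 := by
      have := mup_pow hCm hmu 0 kc
      rwa [Nat.zero_add] at this
    have h8 : Cm ^ kc ≤ 4 ^ n := by
      rw [hn]
      exact (hk1 kc (by omega)).1
    have h9 : m kc ≤ 4 ^ n * m 0 := h7.trans (mul_le_mul_of_nonneg_right h8 hm0.le)
    rw [div_le_div_iff₀ (by positivity) hmk]
    calc Kc * 8 ^ 8 * m kc ≤ Kc * 8 ^ 8 * (4 ^ n * m 0) := mul_le_mul_of_nonneg_left h9 (by positivity)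
      _ = _ := by ring
  -- good and bad tall parts
  obtain ⟨hbad, hgood⟩ := hgb kc (2 ^ (kc + 8)) D hD1 (by omega)
  obtain ⟨G, hG⟩ : ∃ G, G = Good (kc - (s1 * D + 3)) (kc - (s2 * D + 4)) (m kc / 2 ^ (c2 * D)) := ⟨_, rfl⟩
  rw [← hG] at hbad hgood
  have hR : (1 + UU (2 ^ (kc + 8)) / Ub kc) ^ 2 ≤ 257 ^ 2 := by
    have hU := Ub_pos kc
    have h3 : UU (2 ^ (kc + 8)) / Ub kc ≤ 256 := by
      rw [div_le_iff₀ hU]
      exact LQ.UU8 kc
    have h4 : 0 ≤ UU (2 ^ (kc + 8)) / Ub kc := div_nonneg (Num2Aux.UU_pos _).le hU.le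
    exact pow_le_pow_left₀ (by linarith) (by linarith) 2
  have hbad' : SmD DmJ kc (Ak kc \ G) (Cg * 257 ^ 2 / 2 ^ D) := by
    refine LQ.SmD_le ?_ hbad
    apply div_le_div_of_nonneg_right _ (by positivity)
    exact mul_le_mul_of_nonneg_left hR (by linarith)
  -- the classes
  obtain ⟨Cl, hCl⟩ : ∃ Cl : ℕ → Set (List Bool), Cl = fun i => if i < i1 then
      Zg (2 ^ (kc + 4)) (Ak kc) (Bk (kc - i)) (Ak kc) else
      {g | g ∈ Zg (2 ^ (kc + 4)) (NTm.GU (kc - i + 5) kc (2 ^ (kc + 8))) (Bk (kc - i)) (Ak kc) ∨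
        g ∈ Zg (2 ^ (kc + 4)) (Ak kc) (Bk (kc - i)) (NTm.GU (kc - i + 5) kc (2 ^ (kc + 8)))} := ⟨_, rfl⟩
  obtain ⟨dd, hdd⟩ : ∃ dd : ℕ → ℝ, dd = fun i => (if i < i1 then
      Kn * 2 ^ i1 * (Cg * B ^ D) + Kn * 2 ^ i1 * (Cg * 257 ^ 2) * Cm ^ i1 / 2 ^ D * A else 0) / m kc +
      (1 / 8 : ℝ) * (1 / 2) ^ i * A / m kc := ⟨_, rfl⟩
  have hdd0 : ∀ i < kc + 1, 0 ≤ dd i := by
    intro i _
    rw [hdd]
    simp only
    split_ifs <;> positivity
  have hA1 : ∀ i ≤ kc, A / m (kc - i) ≤ A * Cm ^ i / m kc := by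
    intro i hi
    have h3 : m kc ≤ Cm ^ i * m (kc - i) := by
      have := mup_pow hCm hmu (kc - i) i
      rwa [Nat.sub_add_cancel hi] at this
    rw [div_le_div_iff₀ (hm _) hmk]
    calc A * m kc ≤ A * (Cm ^ i * m (kc - i)) := mul_le_mul_of_nonneg_left h3 hA
      _ = _ := by ring
  have hcls : ∀ i < kc + 1, SmDX DmJ kc (Cl i) (dd i) := by
    intro i hi
    have hik : kc - i ≤ kc := Nat.sub_le _ _
    have hii : kc - (kc - i) = i := by omega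
    have hEi : SmDX DmJ (kc - i) (Bk (kc - i)) (A * Cm ^ i / m kc) := smDX_up (hA1 i (by omega)) (hE _ hik)
    have hCm0 : (0 : ℝ) ≤ A * Cm ^ i / m kc := by positivity
    rw [hCl, hdd]
    simp only
    by_cases hlt : i < i1
    · rw [if_pos hlt, if_pos hlt]
      have h3 := hnear kc (kc - i) G (Cg * B ^ D / m kc) (Cg * 257 ^ 2 / 2 ^ D) (A * Cm ^ i / m kc) hik (by positivity)
        (by positivity) hCm0 hgood hbad' hEi
      rw [hii] at h3
      refine smDX_up ?_ h3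
      have e1 : (2 : ℝ) ^ i ≤ 2 ^ i1 := pow_le_pow_right₀ (by norm_num) hlt.le
      have e2 : Cm ^ i ≤ Cm ^ i1 := pow_le_pow_right₀ hCm hlt.le
      have e3 : (0 : ℝ) ≤ (1 / 8 : ℝ) * (1 / 2) ^ i * A / m kc := by positivity
      have e4 : Kn * 2 ^ i * (Cg * B ^ D / m kc + Cg * 257 ^ 2 / 2 ^ D * (A * Cm ^ i / m kc)) ≤
          Kn * 2 ^ i1 * (Cg * B ^ D / m kc + Cg * 257 ^ 2 / 2 ^ D * (A * Cm ^ i1 / m kc)) := by
        have e5 : A * Cm ^ i / m kc ≤ A * Cm ^ i1 / m kc :=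
          div_le_div_of_nonneg_right (mul_le_mul_of_nonneg_left e2 hA) hmk.le
        have e6 : Cg * 257 ^ 2 / 2 ^ D * (A * Cm ^ i / m kc) ≤ Cg * 257 ^ 2 / 2 ^ D * (A * Cm ^ i1 / m kc) :=
          mul_le_mul_of_nonneg_left e5 (by positivity)
        have e7 : (0 : ℝ) ≤ Cg * B ^ D / m kc + Cg * 257 ^ 2 / 2 ^ D * (A * Cm ^ i / m kc) := by positivity
        exact mul_le_mul (mul_le_mul_of_nonneg_left e1 (by linarith)) (by linarith) e7 (by positivity)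
      refine e4.trans ?_
      have e8 : Kn * 2 ^ i1 * (Cg * B ^ D / m kc + Cg * 257 ^ 2 / 2 ^ D * (A * Cm ^ i1 / m kc)) =
          (Kn * 2 ^ i1 * (Cg * B ^ D) + Kn * 2 ^ i1 * (Cg * 257 ^ 2) * Cm ^ i1 / 2 ^ D * A) / m kc := by ring
      rw [e8]
      linarith
    · rw [if_neg hlt, if_neg hlt]
      obtain ⟨h4, h5⟩ := hi1 i (by omega)
      have h3 := hfar kc (kc - i) (A * Cm ^ i / m kc) (by omega) hCm0 hEi
      have e0 : kc - (kc - i + 5 + s) = i - (5 + s) := by omega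
      rw [hii, e0] at h3
      refine smDX_up ?_ h3
      have h4p : (0 : ℝ) < 4 ^ 2 ^ (i - (5 + s)) := by positivity
      have e1 : Kf * 2 ^ i * Cm ^ i * (8 * 2 ^ i) ≤ 4 ^ (2 ^ (i - (5 + s))) := by
        refine le_trans ?_ h4
        have e2 : (8 * Kf * (4 * Cm)) ^ i = (8 * Kf) ^ i * (2 ^ i * Cm ^ i * 2 ^ i) := by
          rw [mul_pow, mul_pow 4, show (4 : ℝ) = 2 * 2 by norm_num, mul_pow 2 2]
          ring
        have e3 : 8 * Kf ≤ (8 * Kf) ^ i := by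
          have : (8 * Kf) ^ 1 ≤ (8 * Kf) ^ i := pow_le_pow_right₀ (by linarith) (by omega)
          rwa [pow_one] at this
        rw [e2]
        calc Kf * 2 ^ i * Cm ^ i * (8 * 2 ^ i) = (8 * Kf) * (2 ^ i * Cm ^ i * 2 ^ i) := by ring
          _ ≤ _ := mul_le_mul_of_nonneg_right e3 (by positivity)
      have e4 : Kf * 2 ^ i / 4 ^ 2 ^ (i - (5 + s)) * (A * Cm ^ i / m kc) =
          (Kf * 2 ^ i * Cm ^ i / 4 ^ 2 ^ (i - (5 + s))) * (A / m kc) := by ring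
      have e5 : Kf * 2 ^ i * Cm ^ i / 4 ^ 2 ^ (i - (5 + s)) ≤ (1 / 8 : ℝ) * (1 / 2) ^ i := by
        rw [div_le_iff₀ h4p, one_div_pow]
        have : Kf * 2 ^ i * Cm ^ i = (1 / 8 : ℝ) * (1 / 2 ^ i) * (Kf * 2 ^ i * Cm ^ i * (8 * 2 ^ i)) := by
          field_simp
        rw [this]
        exact mul_le_mul_of_nonneg_left e1 (by positivity)
      rw [e4, zero_div, zero_add]
      calc (Kf * 2 ^ i * Cm ^ i / 4 ^ 2 ^ (i - (5 + s))) * (A / m kc) ≤ ((1 / 8 : ℝ) * (1 / 2) ^ i) * (A / m kc) :=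
            mul_le_mul_of_nonneg_right e5 (by positivity)
        _ = _ := by ring
  have hsum := smDX_sum (kc + 1) Cl dd hdd0 hcls
  have hall := smDX_union (by positivity) (Finset.sum_nonneg fun i hi => hdd0 i (Finset.mem_range.1 hi)) hclean hsum
  refine smDX_up ?_ (smDX_mono ?_ hall)
  · -- the numbers
    have e1 : ∑ i ∈ range (kc + 1), dd i ≤ (i1 * (Kn * 2 ^ i1 * (Cg * B ^ D) + Kn * 2 ^ i1 * (Cg * 257 ^ 2) * Cm ^ i1 / 2 ^ D * A)) /
        m kc + A / 4 / m kc := by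
      rw [hdd, Finset.sum_add_distrib, ← Finset.sum_div, ← Finset.sum_div, ← Finset.sum_mul]
      obtain ⟨W, hW⟩ : ∃ W : ℝ, W = Kn * 2 ^ i1 * (Cg * B ^ D) + Kn * 2 ^ i1 * (Cg * 257 ^ 2) * Cm ^ i1 / 2 ^ D * A := ⟨_, rfl⟩
      have hW0 : 0 ≤ W := by rw [hW]; positivity
      rw [← hW]
      have e2 : ∑ i ∈ range (kc + 1), (if i < i1 then W else 0) ≤ i1 * W := by
        rw [← Finset.sum_filter, Finset.sum_const, nsmul_eq_mul]
        apply mul_le_mul_of_nonneg_right _ hW0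
        have : ((range (kc + 1)).filter (· < i1)).card ≤ (range i1).card := by
          apply Finset.card_le_card
          intro i hi
          rw [Finset.mem_filter] at hi
          exact Finset.mem_range.2 hi.2
        rw [Finset.card_range] at this
        exact_mod_cast this
      have e3 := geo_tail (kc + 1)
      refine add_le_add (div_le_div_of_nonneg_right e2 hmk.le) (div_le_div_of_nonneg_right ?_ hmk.le)
      calc (∑ i ∈ range (kc + 1), (1 / 8 : ℝ) * (1 / 2) ^ i) * A ≤ 1 / 4 * A := mul_le_mul_of_nonneg_right e3 hA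
        _ = _ := by ring
    have e4 : (i1 : ℝ) * (Kn * 2 ^ i1 * (Cg * 257 ^ 2) * Cm ^ i1 / 2 ^ D * A) ≤ A / 4 := by
      have hp : (0 : ℝ) < 2 ^ D := by positivity
      have e5 : (i1 : ℝ) * (Kn * 2 ^ i1 * (Cg * 257 ^ 2) * Cm ^ i1 / 2 ^ D * A) =
          (i1 * (Kn * 2 ^ i1 * (Cg * 257 ^ 2) * Cm ^ i1)) / 2 ^ D * A := by ring
      rw [e5]
      have e6 : (i1 * (Kn * 2 ^ i1 * (Cg * 257 ^ 2) * Cm ^ i1)) / 2 ^ D ≤ 1 / 4 := by
        rw [div_le_iff₀ hp]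
        linarith
      calc _ ≤ 1 / 4 * A := mul_le_mul_of_nonneg_right e6 hA
        _ = _ := by ring
    calc Kc * 8 ^ 8 * m 0 / m kc + ∑ i ∈ range (kc + 1), dd i
        ≤ Kc * 8 ^ 8 * m 0 / m kc + ((i1 * (Kn * 2 ^ i1 * (Cg * B ^ D) + Kn * 2 ^ i1 * (Cg * 257 ^ 2) * Cm ^ i1 / 2 ^ D * A)) /
          m kc + A / 4 / m kc) := by linarith
      _ = (Kc * 8 ^ 8 * m 0 + (i1 * (Kn * 2 ^ i1 * (Cg * B ^ D)) + i1 * (Kn * 2 ^ i1 * (Cg * 257 ^ 2) * Cm ^ i1 / 2 ^ D * A)) +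
          A / 4) / m kc := by ring
      _ ≤ (C0 + A / 2) / m kc := by
        apply div_le_div_of_nonneg_right _ hmk.le
        rw [hC0]
        linarith
  · -- the cover
    intro g hg
    rcases cover kc hg with h3 | ⟨j, hj, h3, h4⟩
    · exact Or.inl h3
    · right
      refine ⟨kc - j, by omega, ?_⟩
      have hjj : kc - (kc - j) = j := by omega
      rw [hCl]
      simp only
      rw [hjj]
      split_ifs
      · exact h3
      · exact h4

/-- **the exact norm of one leaf at every scale** -/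
theorem ex_all {m : ℕ → ℝ} {a1 : ℝ} (hm : ∀ k, 0 < m k) (hup : MUp m) (hC : C1 m) (h1 : 1 / 2 < a1) (h2 : a1 ≤ 3 / 5)
    (hI : BrL.IndB2 a1) : ∃ C : ℝ, 1 ≤ C ∧ ∀ kc : ℕ, SmDX DmJ kc (Bk kc) (C / m kc) := by
  obtain ⟨C0, k0, hC0, hst⟩ := ex_step hm hup hC h1 h2 hI
  obtain ⟨Ka, hKa, ha⟩ := LQ.SmD_all
  obtain ⟨M0, hM0, hM⟩ : ∃ M0 : ℝ, 0 ≤ M0 ∧ ∀ k < k0, m k ≤ M0 := by
    refine ⟨∑ k ∈ range k0, m k, Finset.sum_nonneg fun k _ => (hm k).le, fun k hk => ?_⟩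
    exact Finset.single_le_sum (f := m) (fun i _ => (hm i).le) (Finset.mem_range.2 hk)
  have hap : ∀ k, SmDX DmJ k (Bk k) Ka := fun k => smDX_mono (Bk_Ak k) (smDX_of_smD (ha k))
  obtain ⟨C, hCd⟩ : ∃ C : ℝ, C = 2 * C0 + 1 + Ka * M0 := ⟨_, rfl⟩
  have hKM : 0 ≤ Ka * M0 := by positivity
  refine ⟨C, by linarith, fun kc => ?_⟩
  induction kc using Nat.strong_induction_on with
  | _ kc ih =>
    have hmk := hm kc
    rcases Nat.lt_or_ge kc k0 with h3 | h3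
    · refine smDX_up ?_ (hap kc)
      rw [le_div_iff₀ hmk, hCd]
      have := mul_le_mul_of_nonneg_left (hM kc h3) (by linarith : (0 : ℝ) ≤ Ka)
      linarith
    · obtain ⟨A0, hA0⟩ : ∃ A0 : ℝ, A0 = Ka * m kc := ⟨_, rfl⟩
      have hA00 : 0 ≤ A0 := by rw [hA0]; positivity
      have hit : ∀ n : ℕ, SmDX DmJ kc (Bk kc) ((C + A0 / 2 ^ n) / m kc) := by
        intro n
        induction n with
        | zero =>
          refine smDX_up ?_ (hap kc)
          rw [le_div_iff₀ hmk, ← hA0, pow_zero, div_one]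
          linarith
        | succ n ihn =>
          have hp : 0 ≤ A0 / 2 ^ n := by positivity
          have h4 := hst kc (C + A0 / 2 ^ n) h3 (by linarith) (fun j hj => by
            rcases Nat.lt_or_ge j kc with h5 | h5
            · refine smDX_up ?_ (ih j h5)
              exact div_le_div_of_nonneg_right (by linarith) (hm j).le
            · have : j = kc := by omega
              rw [this]
              exact ihn)
          refine smDX_up (div_le_div_of_nonneg_right ?_ hmk.le) h4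
          have e1 : (C + A0 / 2 ^ n) / 2 = C / 2 + A0 / 2 ^ (n + 1) := by
            rw [pow_succ]
            ring
          rw [e1]
          linarith
      obtain ⟨n, hn⟩ : ∃ n : ℕ, A0 / 2 ^ n ≤ 1 := by
        obtain ⟨n, hn⟩ := pow_unbounded_of_one_lt A0 (show (1 : ℝ) < 2 by norm_num)
        refine ⟨n, ?_⟩
        rw [div_le_one (by positivity)]
        exact hn.le
      have hp : 0 ≤ A0 / 2 ^ n := by positivity
      have h4 := hst kc (C + A0 / 2 ^ n) h3 (by linarith) (fun j hj => by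
        rcases Nat.lt_or_ge j kc with h5 | h5
        · refine smDX_up ?_ (ih j h5)
          exact div_le_div_of_nonneg_right (by linarith) (hm j).le
        · have : j = kc := by omega
          rw [this]
          exact hit n)
      refine smDX_up (div_le_div_of_nonneg_right ?_ hmk.le) h4
      linarith

end EN

end HexObs
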