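import Pool.Agent.EN.ExtX
import Pool.Agent.NTA.TbM

/-!
EN / NTA: the tails of the lengths of the infixes for the mean length of the bridges.
-/

set_option autoImplicit false

namespace HexObs

namespace NTA

open Finset TS SDN NTW

open scoped ENNReal

/-- **the tail of the lengths of the infixes of the words of the box, no hypothesis** -/
theorem ti_M : ∃ C : ℝ, 1 ≤ C ∧ ∀ Q : ℕ, ∃ A : ℝ, 1 ≤ A ∧ ∀ (K l : ℕ) (lam : ℝ), l ≤ K → 1 ≤ lam →
      gf {t | t ∈ WL K ∧ ∃ u z, Bx (l + 2) t u z ∧ lam * PW.mZ (2 ^ l) ≤ (z : ℝ) - u} ≤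
        ENNReal.ofReal (A / lam ^ Q * C ^ (K - l)) * (ENNReal.ofReal (Ub K) * Xb K ^ 2) :=
  ti_WL mlow_M mup_M mpow_M longN_M tb_M

/-- the tail of the lengths of the infixes of the bridges of the box, no hypothesis -/
theorem ti_BL : ∃ C : ℝ, 1 ≤ C ∧ ∀ Q : ℕ, ∃ A : ℝ, 1 ≤ A ∧ ∀ (K l : ℕ) (lam : ℝ), l ≤ K → 1 ≤ lam →
      gf {t | t ∈ BL K ∧ ∃ u z, Bx (l + 2) t u z ∧ lam * PW.mZ (2 ^ l) ≤ (z : ℝ) - u} ≤
        ENNReal.ofReal (A / lam ^ Q * C ^ (K - l)) * ENNReal.ofReal (Ub K) :=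
  ti_ens mlow_M mup_M mpow_M longN_M tb_M ens_BL

end NTA

namespace EN

open Finset TS SDN NTW NTA

open scoped ENNReal

/-- **tail of the time spent in the boxes, exactly n letters, for the mean length** -/
theorem ext_M {J0 : ℕ} (hGB : GBm (fun k => PW.mZ (2 ^ k)) J0) : EXT (fun k => PW.mZ (2 ^ k)) :=
  ext_x mlow_M mup_M mpow_M longN_M tb_M hGB

end EN

end HexObs
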