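import Pool.Agent.NTW.EventJ
import Pool.Agent.NTW.JoinL
import Pool.Agent.NTW.EndF
import Pool.Agent.NTW.KernU

/-!
EN (outer mark, EX1S): the end functional with heights up to N at a smaller scale j (N is not bounded by 2 ^ (j + 2)).
-/

set_option autoImplicit false

namespace HexObs

namespace EN

open Finset TS SDN SDN.CN NTm NTW

open scoped ENNReal

/-- the norm of the free ends of a height in (2^j, N], every N -/
theorem zNl_long : ∃ K : ℝ, 1 ≤ K ∧ ∀ j N L lam lam' : ℕ, 5 ≤ j → 2 ^ j < N → j ≤ L → N ≤ 2 ^ (L + 2) → QL L lam' →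
    zNl lam j N ≤ ENNReal.ofReal (K * (Ub L / Ub (j - 4))) * bl (lam + lam' + 22) (L + 2) := by
  obtain ⟨Ci, δi, hI⟩ := inp_exists
  obtain ⟨K1, hK1, hE⟩ := EFl_le
  obtain ⟨K2, hK2, hN⟩ := nextD_of hI (ssA hI) ss3P
  obtain ⟨K3, hK3, hfin⟩ := dmP.fin
  obtain ⟨KU, hKU, hU⟩ := geo_Ub (η := 0) kap0_pos
  have hK10 : 0 < K1 := by linarith
  have hK20 : 0 < K2 := by linarith
  have hK30 : 0 < K3 := by linarith
  have hKU0 : 0 < KU := by linarith
  have h123 : 1 ≤ K1 * K2 * K3 * KU := one_le_mul_of_one_le_of_one_le (one_le_mul_of_one_le_of_one_le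
    (one_le_mul_of_one_le_of_one_le hK1 hK2) hK3) hKU
  refine ⟨4 * (K1 * K2 * K3 * KU), by linarith, fun j N L lam lam' hj hjN hjL hNL hQ => ?_⟩
  obtain ⟨k, hk⟩ : ∃ k, k = j - 4 := ⟨_, rfl⟩
  have hjk : j = k + 4 := by omega
  have hUk := Ub_pos k
  obtain ⟨B, hB⟩ : ∃ B, B = bl (lam + lam' + 22) (L + 2) := ⟨_, rfl⟩
  obtain ⟨Ψ, hΨ⟩ : ∃ Ψ : ℕ → List Bool → ℝ≥0∞, Ψ = fun i t => 1 + ENl (2 ^ i) (2 ^ (i + 2)) (lam + 10) t := ⟨_, rfl⟩
  -- pointwise
  have hpt : ∀ t, EFl (2 ^ j) N lam t ≤ ENNReal.ofReal K1 * ∑ i ∈ Icc j L, vA (2 ^ j) (BrR (2 ^ i) (2 ^ (i + 2))) (Ψ i) t := by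
    intro t
    refine (hE (2 ^ j) N lam Nat.one_le_two_pow hjN.le t).trans (mul_le_mul_right ?_ _)
    classical
    obtain ⟨A, hA⟩ : ∃ A : ℕ → Set (List Bool), A = fun i => {g' | g' ∈ BrR (2 ^ i) (2 ^ (i + 2)) ∧
      RT (2 ^ j) LFold t g'} := ⟨_, rfl⟩
    obtain ⟨A0, hA0⟩ : ∃ A0, A0 = {g | g ∈ BrR (2 ^ j) N ∧ RT (2 ^ j) LFold t g} := ⟨_, rfl⟩
    have hv : ∀ i, vA (2 ^ j) (BrR (2 ^ i) (2 ^ (i + 2))) (Ψ i) t = Rec8.sw (A i) (Ψ i) := fun i => by
      rw [hA]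
      rfl
    simp only [hv]
    rw [← hA0]
    simp only [Rec8.sw_ind]
    rw [← Summable.tsum_finsetSum (fun _ _ => ENNReal.summable)]
    refine ENNReal.tsum_le_tsum fun g => ?_
    by_cases hg : g ∈ A0
    · rw [if_pos hg]
      rw [hA0] at hg
      obtain ⟨⟨h, a1, a2, a3⟩, a4⟩ := hg
      -- the window of g
      obtain ⟨i, i1, i2, i3, i4⟩ : ∃ i, j ≤ i ∧ i ≤ L ∧ 2 ^ i ≤ h ∧ h ≤ 2 ^ (i + 2) := by
        rcases Nat.lt_or_ge h (2 ^ L) with hL | hL
        · have hh : h ≠ 0 := by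
            have : 1 ≤ 2 ^ j := Nat.one_le_two_pow
            omega
          refine ⟨Nat.log 2 h, (Nat.le_log_iff_pow_le (by norm_num) hh).2 a1, ?_, Nat.pow_log_le_self 2 hh, ?_⟩
          · have := (Nat.log_lt_iff_lt_pow (by norm_num) hh).2 hL
            omega
          · have h1 := Nat.lt_pow_succ_log_self (b := 2) (by norm_num) h
            exact h1.le.trans (Nat.pow_le_pow_right (by norm_num) (by omega))
        · exact ⟨L, hjL, le_rfl, hL, a2.trans hNL⟩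
      refine le_trans ?_ (Finset.single_le_sum (f := fun i => if g ∈ A i then wE g * Ψ i g else 0)
        (fun _ _ => zero_le) (Finset.mem_Icc.2 ⟨i1, i2⟩))
      have hgA : g ∈ A i := by
        rw [hA]
        exact ⟨⟨h, i3, i4, a3⟩, a4⟩
      rw [if_pos hgA]
      refine mul_le_mul_right ?_ _
      rw [hΨ]
      refine add_le_add le_rfl (GLl_le_ENl ?_ ⟨h, i3, a3⟩)
      rw [hgt_eq a3]
      omega
    · rw [if_neg hg]
      exact zero_le
  have hone : ∀ i ∈ Icc j L, xT (2 ^ j) (j - 4) (vA (2 ^ j) (BrR (2 ^ i) (2 ^ (i + 2))) (Ψ i)) ≤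
      ENNReal.ofReal (K2 * K3 * (4 * Ub i / Ub k)) * B := by
    intro i hi
    rw [Finset.mem_Icc] at hi
    have h1 := hfin i (2 ^ (i + 2)) (lam + 10) lam' (by omega) (Nat.pow_lt_pow_right (by norm_num) (by omega)) le_rfl
      (fun a ha => hQ a (by omega))
    have h2 := (dmP.dom _ _ _ h1)
    have h3 := hN (2 ^ j) (j - 4) (i - 4) (2 ^ i) (2 ^ (i + 2)) _ _ h2 (by rw [show j - 4 + 4 = j by omega])
      (Nat.pow_le_pow_right (by norm_num) hi.1) (by rw [show i - 4 + 4 = i by omega])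
      (Nat.pow_le_pow_right (by norm_num) (by omega))
    rw [hΨ]
    refine h3.trans ?_
    have h4 : bl (lam + 10 + lam' + 12) (i + 2) ≤ B := by
      rw [hB, show lam + 10 + lam' + 12 = lam + lam' + 22 by omega]
      exact bl_mono _ (by omega)
    have h5 : UU (2 ^ (i + 2)) ≤ 4 * Ub i := by
      have := UU_ratio_up i 2
      norm_num at this
      exact this
    have h6 : 0 < UU (2 ^ (i + 2)) := Num2Aux.UU_pos _
    calc ENNReal.ofReal (K2 * (UU (2 ^ (i + 2)) / Ub (j - 4))) * (ENNReal.ofReal K3 * bl (lam + 10 + lam' + 12) (i + 2))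
        ≤ ENNReal.ofReal (K2 * (UU (2 ^ (i + 2)) / Ub (j - 4))) * (ENNReal.ofReal K3 * B) := by gcongr
      _ = ENNReal.ofReal (K2 * (UU (2 ^ (i + 2)) / Ub (j - 4)) * K3) * B := by
          rw [← mul_assoc, ← ENNReal.ofReal_mul (by rw [← hk]; positivity)]
      _ ≤ ENNReal.ofReal (K2 * K3 * (4 * Ub i / Ub k)) * B := by
          refine mul_le_mul_left (ENNReal.ofReal_le_ofReal ?_) _
          rw [← hk]
          calc K2 * (UU (2 ^ (i + 2)) / Ub k) * K3 = K2 * K3 * (UU (2 ^ (i + 2)) / Ub k) := by ring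
            _ ≤ K2 * K3 * (4 * Ub i / Ub k) := by gcongr
  have hsum : ∑ i ∈ Icc j L, Ub i ≤ KU * Ub L := by
    calc ∑ i ∈ Icc j L, Ub i ≤ ∑ i ∈ range (L + 1), Ub i := by
          refine Finset.sum_le_sum_of_subset_of_nonneg ?_ fun i _ _ => (Ub_pos i).le
          intro x hx
          rw [Finset.mem_Icc] at hx
          rw [Finset.mem_range]
          omega
      _ ≤ KU * Ub L := by
          refine le_trans (Finset.sum_le_sum fun i _ => ?_) (hU L)
          rw [zero_mul, Real.rpow_zero, one_mul]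
  unfold zNl
  refine (xT_mono hpt).trans ?_
  have hsm : xT (2 ^ j) (j - 4) (fun t => ENNReal.ofReal K1 * ∑ i ∈ Icc j L, vA (2 ^ j) (BrR (2 ^ i) (2 ^ (i + 2))) (Ψ i) t) ≤
      ENNReal.ofReal K1 * ∑ i ∈ Icc j L, xT (2 ^ j) (j - 4) (vA (2 ^ j) (BrR (2 ^ i) (2 ^ (i + 2))) (Ψ i)) := by
    refine (Ch.xT_smul _ _ _ _).trans (mul_le_mul_right (NTW.xT_sum _ _ _ (fun i => vA (2 ^ j) (BrR (2 ^ i) (2 ^ (i + 2))) (Ψ i))) _)
  refine hsm.trans ((mul_le_mul_right (Finset.sum_le_sum hone) _).trans ?_)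
  rw [← Finset.sum_mul, ← mul_assoc, ← ENNReal.ofReal_sum_of_nonneg (fun i _ => by have := Ub_pos i; positivity),
    ← ENNReal.ofReal_mul hK10.le, ← hB]
  refine mul_le_mul_left (ENNReal.ofReal_le_ofReal ?_) _
  rw [← hk]
  have e1 : ∑ i ∈ Icc j L, K2 * K3 * (4 * Ub i / Ub k) = K2 * K3 * (4 / Ub k) * ∑ i ∈ Icc j L, Ub i := by
    rw [Finset.mul_sum]
    exact Finset.sum_congr rfl fun i _ => by ring
  rw [e1]
  calc K1 * (K2 * K3 * (4 / Ub k) * ∑ i ∈ Icc j L, Ub i) ≤ K1 * (K2 * K3 * (4 / Ub k) * (KU * Ub L)) := by gcongr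
    _ = 4 * (K1 * K2 * K3 * KU) * (Ub L / Ub k) := by ring

/-- **the end functional with heights up to N at a smaller scale** -/
theorem fin_long : ∃ K : ℝ, 1 ≤ K ∧ ∀ j N L lam lam' : ℕ, 5 ≤ j → 2 ^ j < N → j ≤ L → N ≤ 2 ^ (L + 2) → QL L lam' →
    DmJ (j - 4) (ENNReal.ofReal (K * (Ub L / Ub (j - 4))) * bl (lam + lam' + 22) (L + 2))
      (fun t => 1 + ENl (2 ^ j) N lam t) := by
  obtain ⟨K1, hK1, h1⟩ := zNl_long
  obtain ⟨K2, hK2, h2⟩ := domJ_end
  refine ⟨K1 + K2, by linarith, fun j N L lam lam' hj hjN hjL hNL hQ => ?_⟩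
  have hUk := Ub_pos (j - 4)
  have hUL := Ub_pos L
  have hr : 1 ≤ Ub L / Ub (j - 4) := by
    rw [le_div_iff₀ hUk, one_mul]
    exact Ub_mono (by omega)
  refine ⟨?_, ?_⟩
  · rw [show j - 4 + 4 = j by omega]
    exact herD_one Nat.one_le_two_pow N lam
  have e1 := h1 j N L lam lam' hj hjN hjL hNL hQ
  have e2 := h2 j (2 ^ (j + 1)) lam lam' hj (Nat.pow_lt_pow_right (by norm_num) (by omega))
    (Nat.pow_le_pow_right (by norm_num) (by omega)) (fun a ha => hQ a (by omega))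
  have e3 : DomJ (j - 4) (zNl lam j N) (EFl (2 ^ j) N lam) := by
    have := DomJ_self (k := j - 4) (Hered_EFl (2 ^ j) N lam)
    rwa [show j - 4 + 4 = j by omega] at this
  have e4 := (e2.add e3).le (Ψ := fun t => 1 + ENl (2 ^ j) N lam t)
    (fun s hs t => add_le_add le_rfl (Hered_ENl _ _ _ s hs t)) (fun t => ?_)
  · refine e4.mono ?_
    have h6 : bl (lam + lam' + 12) (j + 2) ≤ bl (lam + lam' + 22) (L + 2) :=
      (bl_mono_lam (by omega) _).trans (bl_mono _ (by omega))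
    calc ENNReal.ofReal K2 * bl (lam + lam' + 12) (j + 2) + zNl lam j N
        ≤ ENNReal.ofReal (K2 * (Ub L / Ub (j - 4))) * bl (lam + lam' + 22) (L + 2) +
          ENNReal.ofReal (K1 * (Ub L / Ub (j - 4))) * bl (lam + lam' + 22) (L + 2) := by
          refine add_le_add (mul_le_mul' (ENNReal.ofReal_le_ofReal ?_) h6) e1
          nlinarith
      _ = _ := by
          rw [← add_mul, ← ENNReal.ofReal_add (by positivity) (by positivity)]
          congr 2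
          ring
  · rw [add_assoc]
    refine add_le_add le_rfl ?_
    unfold ENl EFl
    refine (gf_mono ?_).trans (gf_union_le {W | W ∈ SSt (2 ^ (j + 1)) ∧ RT (2 ^ j) LFold t W ∧ t.length + W.length ≤ lam}
      {W | W ∈ SSt N ∧ W ∉ SSt (2 ^ j) ∧ RT (2 ^ j) LFold t W ∧ W.length ≤ lam})
    rintro W ⟨a1, a2, a3⟩
    by_cases h : W ∈ SSt (2 ^ (j + 1))
    · exact Or.inl ⟨h, a2, a3⟩
    · refine Or.inr ⟨a1, fun h' => h (SSt_mo (Nat.pow_le_pow_right (by norm_num) (by omega)) h'), a2, by omega⟩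

end EN

end HexObs
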