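import Pool.Agent.EN.OutGeo
import Pool.Agent.EN.OutEvent

/-!
EN (outer mark, EX1S): a walk with a run of interior leaves and a large range has a tall leaf in the run, or the first or
the last piece of the monotone chain through the run is tall.
-/

set_option autoImplicit false

namespace HexObs

namespace EN

open Finset TS SDN NTW NTA

open scoped ENNReal

namespace OG

lemma getLastD_get {gs : List (List Bool)} {r : ℕ} (h : gs.length = r) (hr : 0 < r) :
    gs.getLastD [] = gs[r - 1]'(by omega) := by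
  have hne : gs ≠ [] := by
    rintro rfl
    rw [List.length_nil] at h
    omega
  rw [List.getLastD_eq_getLast?, List.getLast?_eq_getLast_of_ne_nil hne, Option.getD_some, List.getLast_eq_getElem]
  congr 1
  rw [h]

lemma headD_get {gs : List (List Bool)} (h : 0 < gs.length) : gs.headD [] = gs[0] := by
  cases gs with
  | nil => simp at h
  | cons a gs => rfl

/-- the length of a piece -/
lemma pos_length {t g : List Bool} {u q r : ℕ} {E : ℕ → ℕ} (hF : FoldG t r u E) (hq : q < r) (h : PosL t u E q g) :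
    g.length ≤ t.length := by
  obtain ⟨s, -, -, h3, -⟩ := h
  have h4 : E (q + 1) ≤ t.length := (GeoA.FoldG_mono hF (show q + 1 ≤ r by omega) le_rfl).trans hF.le
  omega

/-- the height of a piece -/
lemma pos_hgt {t g : List Bool} {u q H : ℕ} {E : ℕ → ℕ} (hb : ∃ k : ℕ, 1 ≤ k ∧ g ∈ Brd k) (h : PosL t u E q g)
    (hR : 3 * 2 ^ H + 8 ≤ RG t u E q) : 2 ^ H ≤ hgt g := by
  obtain ⟨k, hk, hB⟩ := hb
  have h1 := EX.leaf_hgt hB hk h
  unfold RG at hR
  rw [abs_le] at h1
  rw [hgt_eq hB]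
  have h2 : (2 : ℤ) ^ H ≤ k := by omega
  exact_mod_cast h2

end OG

open OG in
/-- **the outer mark** -/
theorem out_geo {kc J n H m1 : ℕ} {R : Set (List (List Bool))} {t : List Bool} (hm1 : ∀ ms ∈ R, ms.length ≤ m1)
    (hn : t.length ≤ n) (ht : t ∈ ERM kc (kc + J) R)
    (hr : ∃ i j, i ≤ t.length ∧ j ≤ t.length ∧ 6 * ((m1 : ℤ) + 2) * 2 ^ H ≤ lev t i - lev t j) :
    t ∈ ERM kc (kc + J) {ms | ms ∈ R ∧ ∃ g ∈ ms, 2 ^ H ≤ hgt g ∧ g.length ≤ n} ∨
      t ∈ ERS kc J R {g | 2 ^ H ≤ hgt g ∧ g.length ≤ n} := by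
  obtain ⟨htW, m, u, e, hL, l, d', hl, hd, hldm, hms⟩ := ht
  obtain ⟨d, rfl⟩ : ∃ d, d' = d + 1 := ⟨d' - 1, by omega⟩
  obtain ⟨e', hF, he⟩ := RD.fd_of_lf (show 1 ≤ kc + 5 by omega) (by omega) hL
  obtain ⟨r, u', p, E, g1, g2, gE, g3, gp, gr, g4, g5, g6, g7, g8⟩ :=
    geoRun (kc + 5) m u t e' (by omega) htW.1 hF l d (by omega)
  have hp1 : 1 ≤ p := by
    by_contra hc
    have := gp (by omega)
    omega
  have hr1 : p + d + 1 < r := by
    by_contra hc
    have := gr (by omega)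
    omega
  have hm : d + 1 ≤ m1 := by
    have h1 := hm1 _ hms
    unfold lws at h1
    rw [List.length_map, List.length_range] at h1
    exact h1
  have hEe : ∀ i, i ≤ d + 1 → E (p + i) = e (l + i) := by
    intro i hi
    rw [gE i hi, he (l + i) (by omega) (by omega)]
  -- the run in a representation
  have hrun : ∀ gs, RepG t r u' E gs → (gs.drop p).take (d + 1) = lws t e l (d + 1) := by
    intro gs hR
    have hlen := hR.len
    apply List.ext_getElem
    · rw [List.length_take, List.length_drop]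
      unfold lws
      rw [List.length_map, List.length_range]
      omega
    · intro i hi hi'
      have hi2 : i < d + 1 := by
        rw [List.length_take, List.length_drop] at hi
        omega
      rw [List.getElem_take, List.getElem_drop, hR.mid (p + i) (by omega) (by omega) (by omega), hEe i (by omega),
        add_assoc p i 1, hEe (i + 1) (by omega)]
      unfold lws
      rw [List.getElem_map, List.getElem_range, ← add_assoc]
  by_cases hex : ∃ gs, RepG t r u' E gs ∧ ∀ g ∈ gs, g ∈ BrR (2 ^ (kc + 4)) (2 ^ (kc + J + 2))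
  swap
  · -- no representation
    right
    refine ⟨htW, r, u', p, d, E, g1, g2, fun gs hR hB => absurd ⟨gs, hR, hB⟩ hex, g4, g5, g6, g7, g8⟩
  obtain ⟨gs0, hR0, hB0⟩ := hex
  -- the first piece
  have hhead : ∀ gs, RepG t r u' E gs → (3 * 2 ^ H + 8 ≤ RG t u' E 0 ∨ (H ≤ kc + 4 ∧ ∀ g ∈ gs, g ∈ BrR (2 ^ (kc + 4))
      (2 ^ (kc + J + 2)))) → gs.headD [] ∈ {g | 2 ^ H ≤ hgt g ∧ g.length ≤ n} := by
    intro gs hR hc
    have hlen := hR.len
    have hl0 : 0 < gs.length := by omega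
    rw [headD_get hl0]
    refine ⟨?_, (pos_length g2 (by omega) (hR.pos 0 hl0)).trans hn⟩
    rcases hc with hc | ⟨hc, hc'⟩
    · exact pos_hgt (hR.brd _ (List.getElem_mem hl0)) (hR.pos 0 hl0) hc
    · obtain ⟨h, a1, a2, a3⟩ := hc' _ (List.getElem_mem hl0)
      rw [hgt_eq a3]
      exact (Nat.pow_le_pow_right (by norm_num) hc).trans a1
  rcases Nat.lt_or_ge (kc + 4) H with hH | hH
  swap
  · right
    exact ⟨htW, r, u', p, d, E, g1, g2, fun gs hR hB => ⟨by rw [hrun gs hR]; exact hms,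
      Or.inl ⟨hp1, hhead gs hR (Or.inr ⟨hH, hB⟩)⟩⟩, g4, g5, g6, g7, g8⟩
  by_cases h0 : 3 * 2 ^ H + 8 ≤ RG t u' E 0
  · right
    exact ⟨htW, r, u', p, d, E, g1, g2, fun gs hR _ => ⟨by rw [hrun gs hR]; exact hms,
      Or.inl ⟨hp1, hhead gs hR (Or.inl h0)⟩⟩, g4, g5, g6, g7, g8⟩
  by_cases h1 : 3 * 2 ^ H + 8 ≤ RG t u' E (r - 1)
  · right
    refine ⟨htW, r, u', p, d, E, g1, g2, fun gs hR _ => ⟨by rw [hrun gs hR]; exact hms, Or.inr ⟨hr1, ?_⟩⟩, g4, g5, g6,
      g7, g8⟩
    have hlen := hR.len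
    have hl0 : r - 1 < gs.length := by omega
    rw [getLastD_get hlen (by omega)]
    exact ⟨pos_hgt (hR.brd _ (List.getElem_mem hl0)) (hR.pos (r - 1) hl0) h1,
      (pos_length g2 (by omega) (hR.pos (r - 1) hl0)).trans hn⟩
  -- a tall leaf in the run
  left
  have htall : ∃ q, p ≤ q ∧ q < p + (d + 1) ∧ 3 * 2 ^ H + 8 ≤ RG t u' E q := by
    by_contra hc
    push Not at hc
    obtain ⟨i, j, hi, hj, hij⟩ := hr
    have hpow : (2 : ℤ) ^ 2 ≤ 2 ^ H := pow_le_pow_right₀ (by norm_num) (by omega)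
    have hX0 : (0 : ℤ) ≤ 3 * 2 ^ H + 7 := by positivity
    have h2 := range_le (X := 3 * 2 ^ H + 7) g2 hp1 hr1 g5 g6
      (fun i hi => by
        have := g7 i hi
        rwa [if_neg (by omega)] at this)
      (fun i hi hi' => by
        have := g8 i hi hi'
        rwa [if_neg (by omega)] at this) hX0 (by omega) (by omega)
      (fun q q1 q2 => by
        have := hc q q1 q2
        omega) hi hj
    have h3 : ((d + 1 : ℕ) : ℤ) ≤ m1 := by exact_mod_cast hm
    have h4 : ((d + 1 : ℕ) : ℤ) * (3 * 2 ^ H + 7) ≤ m1 * (3 * 2 ^ H + 7) := mul_le_mul_of_nonneg_right h3 hX0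
    have h5 : (0 : ℤ) ≤ m1 := by omega
    nlinarith
  obtain ⟨q, q1, q2, q3⟩ := htall
  refine ⟨htW, m, u, e, hL, l, d + 1, hl, hd, hldm, hms, ?_⟩
  have hlen := hR0.len
  have hql : q < gs0.length := by omega
  refine ⟨gs0[q], ?_, pos_hgt (hR0.brd _ (List.getElem_mem hql)) (hR0.pos q hql) q3,
    (pos_length g2 (by omega) (hR0.pos q hql)).trans hn⟩
  rw [← hrun gs0 hR0]
  rw [List.mem_iff_getElem]
  refine ⟨q - p, by rw [List.length_take, List.length_drop]; omega, ?_⟩
  rw [List.getElem_take, List.getElem_drop]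
  congr 1
  omega

end EN

end HexObs
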