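import Pool.Agent.EN.FactsM
import Pool.Agent.EN.OutGeo2

/-!
EN: the facts about the walks with exactly n letters, for the mean length of the bridges, no hypothesis.
-/

set_option autoImplicit false

namespace HexObs

namespace EN

open Finset TS SDN NTW NTA

open scoped ENNReal

theorem outGeoP : OutGeoP := fun _ _ _ _ _ _ _ hm hn ht hr => out_geo hm hn ht hr

theorem exsX : ExsX := exsX_of outGeoP

/-- **the exact spatial tail, no hypothesis** -/
theorem espw_M : ESPw (fun k => PW.mZ (2 ^ k)) := espw_G outGeoP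

/-- **the pointwise upper bound, no hypothesis** -/
theorem allX_M : AllX (fun k => PW.mZ (2 ^ k)) := allX_G outGeoP

/-- **the facts about the walks with exactly n letters, no hypothesis** -/
theorem factsX_M : FactsX (fun k => PW.mZ (2 ^ k)) := factsX_G outGeoP

/-- **the Hoelder modulus of every exponent below 3 / 4, from the exact order of the mean length** -/
theorem holdX_M (hlo : ∃ c : ℝ, 0 < c ∧ ∀ k : ℕ, c * 2 ^ (4 / 3 * (k : ℝ)) ≤ PW.mZ (2 ^ k))
    (hup : ∃ C : ℝ, 0 < C ∧ ∀ k : ℕ, PW.mZ (2 ^ k) ≤ C * 2 ^ (4 / 3 * (k : ℝ))) {a : ℝ} (ha : 0 < a) (ha2 : a < 3 / 4) :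
    HoldX (fun k => PW.mZ (2 ^ k)) a := holdX_G43 outGeoP hlo hup ha ha2

end EN

end HexObs
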