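import Pool.Agent.PW.RenF

/-!
EN, lateral position: a renewal process with indices in (1/2, 1): a long last step in front of a short end.
-/

set_option autoImplicit false

namespace HexObs

namespace EN

open Finset

namespace LN

open PWR

variable {f u : ℕ → ℝ} {a b c C C' : ℝ}

/-- facts -/
lemma C_pos (h : NUX.Ren f u) (hi : Ind u a b c C) : 0 < C := by
  have h1 := hi.up 1 1 le_rfl le_rfl
  have h2 := W_pos h (le_refl 1)
  simp only [Nat.cast_one, Real.one_rpow, mul_one] at h1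
  by_contra hcon
  push Not at hcon
  have : C * W u 1 ≤ 0 := mul_nonpos_of_nonpos_of_nonneg hcon (by linarith)
  linarith

/-- the square over x is almost increasing -/
lemma sq_mono (h : NUX.Ren f u) (hi : Ind u a b c C) (ha : 1 / 2 < a) : ∃ K : ℝ, 0 < K ∧ ∀ x y : ℕ, 1 ≤ x → x ≤ y →
    W u x ^ 2 / x ≤ K * (W u y ^ 2 / y) := by
  have hc := hi.c0
  obtain ⟨e, he⟩ : ∃ e : ℝ, e = c * (2 : ℝ) ^ (-a) := ⟨_, rfl⟩
  have he0 : 0 < e := by rw [he]; positivity
  refine ⟨1 / e ^ 2, by positivity, fun x y hx hxy => ?_⟩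
  have hx0 : (0 : ℝ) < x := by exact_mod_cast hx
  have hy0 : (0 : ℝ) < y := by exact_mod_cast (by omega : 0 < y)
  have h1 := (hi.real h hx hxy).1
  rw [← he] at h1
  have hWx : 0 < W u x := lt_of_lt_of_le one_pos (W_pos h hx)
  have hq : 1 ≤ (y : ℝ) / x := by
    rw [le_div_iff₀ hx0, one_mul]
    exact_mod_cast hxy
  have h2 : (e * ((y : ℝ) / x) ^ a * W u x) ^ 2 ≤ W u y ^ 2 := pow_le_pow_left₀ (by positivity) h1 2
  have h3 : (y : ℝ) / x ≤ (((y : ℝ) / x) ^ a) ^ 2 := by
    rw [← Real.rpow_natCast, ← Real.rpow_mul (by positivity)]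
    calc (y : ℝ) / x = ((y : ℝ) / x) ^ (1 : ℝ) := (Real.rpow_one _).symm
      _ ≤ _ := Real.rpow_le_rpow_of_exponent_le hq (by push_cast; linarith)
  have h4 : e ^ 2 * ((y : ℝ) / x) * W u x ^ 2 ≤ W u y ^ 2 := by
    refine le_trans ?_ h2
    calc e ^ 2 * ((y : ℝ) / x) * W u x ^ 2 ≤ e ^ 2 * (((y : ℝ) / x) ^ a) ^ 2 * W u x ^ 2 := by gcongr
      _ = _ := by ring
  rw [one_div_mul_eq_div, div_le_iff₀ hx0, div_div, div_mul_eq_mul_div, le_div_iff₀ (by positivity)]
  calc W u x ^ 2 * (y * e ^ 2) = (e ^ 2 * ((y : ℝ) / x) * W u x ^ 2) * x := by field_simp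
    _ ≤ W u y ^ 2 * x := mul_le_mul_of_nonneg_right h4 hx0.le

/-- the mean is almost decreasing -/
lemma mean_anti (h : NUX.Ren f u) (hi : Ind u a b c C) : ∃ K : ℝ, 0 < K ∧ ∀ x y : ℕ, 1 ≤ x → x ≤ y →
    W u y / y ≤ K * (W u x / x) := by
  have hC := C_pos h hi
  refine ⟨C * 2 ^ b, by positivity, fun x y hx hxy => ?_⟩
  have hx0 : (0 : ℝ) < x := by exact_mod_cast hx
  have hy0 : (0 : ℝ) < y := by exact_mod_cast (by omega : 0 < y)
  have h1 := (hi.real h hx hxy).2
  have hWx : 0 < W u x := lt_of_lt_of_le one_pos (W_pos h hx)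
  have hq : 1 ≤ (y : ℝ) / x := by
    rw [le_div_iff₀ hx0, one_mul]
    exact_mod_cast hxy
  have h3 : ((y : ℝ) / x) ^ b ≤ (y : ℝ) / x := by
    calc ((y : ℝ) / x) ^ b ≤ ((y : ℝ) / x) ^ (1 : ℝ) := Real.rpow_le_rpow_of_exponent_le hq hi.b1.le
      _ = _ := Real.rpow_one _
  rw [div_le_iff₀ hy0]
  calc W u y ≤ C * 2 ^ b * ((y : ℝ) / x) ^ b * W u x := h1
    _ ≤ C * 2 ^ b * ((y : ℝ) / x) * W u x := by gcongr
    _ = _ := by field_simp

/-- **the convolution of the start with the whole** -/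
lemma conv_le (h : NUX.Ren f u) (hi : Ind u a b c C) (ha : 1 / 2 < a) (hC' : 0 < C')
    (hu : ∀ n : ℕ, 1 ≤ n → u n ≤ C' * (W u n / n)) : ∃ K : ℝ, 0 < K ∧ ∀ v x : ℕ, 1 ≤ v →
      ∑ j ∈ range v, (if j ≤ x then u j * u (x - j) else 0) ≤ K * (W u v ^ 2 / v) := by
  obtain ⟨K0, hK0, h0⟩ := sq_mono h hi ha
  obtain ⟨K1, hK1, h1⟩ := mean_anti h hi
  have hC := C_pos h hi
  have hun := NUX.u_nonneg h
  refine ⟨C' * K1 + K0 + 6 * C * C' * K1 * K0, by positivity, fun v x hv => ?_⟩
  have hv0 : (0 : ℝ) < v := by exact_mod_cast hv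
  have hWv : 0 < W u v := lt_of_lt_of_le one_pos (W_pos h hv)
  have hQ : 0 ≤ W u v ^ 2 / v := by positivity
  rcases Nat.lt_or_ge x (2 * v) with hx | hx
  · have hsub : ∑ j ∈ range v, (if j ≤ x then u j * u (x - j) else 0) ≤ ∑ j ∈ range (x + 1), u j * u (x - j) := by
      rw [← Finset.sum_filter]
      refine Finset.sum_le_sum_of_subset_of_nonneg ?_ fun j _ _ => mul_nonneg (hun _) (hun _)
      intro j hj
      rw [Finset.mem_filter] at hj
      rw [Finset.mem_range]
      omega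
    refine hsub.trans ?_
    rcases Nat.eq_zero_or_pos x with hx0 | hx0
    · subst hx0
      have e : ∑ j ∈ range (0 + 1), u j * u (0 - j) = 1 := by simp [h.u0]
      rw [e]
      have h2 := h0 1 v le_rfl hv
      have h3 : W u 1 = 1 := by
        unfold W
        simp [h.u0]
      rw [h3] at h2
      norm_num at h2
      have h4 : 0 ≤ C' * K1 * (W u v ^ 2 / v) := by positivity
      have h5 : 0 ≤ 6 * C * C' * K1 * K0 * (W u v ^ 2 / v) := by positivity
      linarith
    · obtain ⟨z, hz⟩ : ∃ z, z = (x + 1) / 2 := ⟨_, rfl⟩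
      have hz1 : 1 ≤ z := by omega
      have hzv : z ≤ v := by omega
      have hz0 : (0 : ℝ) < z := by exact_mod_cast hz1
      have hWz : 0 < W u z := lt_of_lt_of_le one_pos (W_pos h hz1)
      have hS : ∀ i : ℕ, z ≤ i → u i ≤ C' * (K1 * (W u z / z)) := fun i hi' =>
        (hu i (by omega)).trans (mul_le_mul_of_nonneg_left (h1 z i hz1 hi') hC'.le)
      have hD : 0 ≤ C' * (K1 * (W u z / z)) := by positivity
      have hT : ∀ j ∈ range (x + 1), u j * u (x - j) ≤ C' * (K1 * (W u z / z)) * u j + C' * (K1 * (W u z / z)) * u (x - j) := by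
        intro j hj
        rw [Finset.mem_range] at hj
        rcases Nat.lt_or_ge j z with hjz | hjz
        · have h2 := hS (x - j) (by omega)
          have h3 := mul_le_mul_of_nonneg_left h2 (hun j)
          have h4 := mul_nonneg hD (hun (x - j))
          linarith
        · have h2 := hS j hjz
          have h3 := mul_le_mul_of_nonneg_right h2 (hun (x - j))
          have h4 := mul_nonneg hD (hun j)
          linarith
      have hr : ∑ j ∈ range (x + 1), u (x - j) = ∑ j ∈ range (x + 1), u j := by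
        have := Finset.sum_range_reflect u (x + 1)
        simpa using this
      have hW3 : W u (x + 1) ≤ 3 * C * W u z := by
        refine (W_mono h (show x + 1 ≤ 3 * z by omega)).trans ((hi.up 3 z (by norm_num) hz1).trans ?_)
        have h3 : ((3 : ℕ) : ℝ) ^ b ≤ 3 := by
          calc ((3 : ℕ) : ℝ) ^ b ≤ ((3 : ℕ) : ℝ) ^ (1 : ℝ) := Real.rpow_le_rpow_of_exponent_le (by norm_num) hi.b1.le
            _ = 3 := by rw [Real.rpow_one]; norm_num
        calc C * ((3 : ℕ) : ℝ) ^ b * W u z ≤ C * 3 * W u z := by gcongr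
          _ = _ := by ring
      calc ∑ j ∈ range (x + 1), u j * u (x - j) ≤ ∑ j ∈ range (x + 1), (C' * (K1 * (W u z / z)) * u j +
            C' * (K1 * (W u z / z)) * u (x - j)) := Finset.sum_le_sum hT
        _ = 2 * (C' * (K1 * (W u z / z))) * W u (x + 1) := by
            rw [Finset.sum_add_distrib, ← Finset.mul_sum, ← Finset.mul_sum, hr]
            unfold W
            ring
        _ ≤ 2 * (C' * (K1 * (W u z / z))) * (3 * C * W u z) := mul_le_mul_of_nonneg_left hW3 (by positivity)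
        _ = 6 * C * C' * K1 * (W u z ^ 2 / z) := by ring
        _ ≤ 6 * C * C' * K1 * (K0 * (W u v ^ 2 / v)) := mul_le_mul_of_nonneg_left (h0 z v hz1 hzv) (by positivity)
        _ ≤ _ := by
            have h4 : 0 ≤ C' * K1 * (W u v ^ 2 / v) := by positivity
            have h5 : 0 ≤ K0 * (W u v ^ 2 / v) := by positivity
            linarith
  · have hT : ∀ j ∈ range v, (if j ≤ x then u j * u (x - j) else 0) ≤ C' * (K1 * (W u v / v)) * u j := by
      intro j hj
      rw [Finset.mem_range] at hj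
      rw [if_pos (by omega)]
      have h2 : u (x - j) ≤ C' * (K1 * (W u v / v)) :=
        (hu _ (by omega)).trans (mul_le_mul_of_nonneg_left (h1 v _ hv (by omega)) hC'.le)
      have h3 := mul_le_mul_of_nonneg_left h2 (hun j)
      linarith
    calc ∑ j ∈ range v, (if j ≤ x then u j * u (x - j) else 0) ≤ ∑ j ∈ range v, C' * (K1 * (W u v / v)) * u j :=
          Finset.sum_le_sum hT
      _ = C' * K1 * (W u v ^ 2 / v) := by
          rw [← Finset.mul_sum]
          unfold W
          ring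
      _ ≤ _ := by
          have h4 : 0 ≤ K0 * (W u v ^ 2 / v) := by positivity
          have h5 : 0 ≤ 6 * C * C' * K1 * K0 * (W u v ^ 2 / v) := by positivity
          linarith

/-- **a long step over the middle, then a short end** -/
theorem short_num (h : NUX.Ren f u) (hi : Ind u a b c C) (ha : 1 / 2 < a) (hC' : 0 < C')
    (hu : ∀ n : ℕ, 1 ≤ n → u n ≤ C' * (W u n / n)) : ∃ K : ℝ, 0 < K ∧ ∀ v n : ℕ, 1 ≤ v → 4 * v ≤ n →
      ∑ j ∈ range v, ∑ q ∈ range (n / 2 + 1), u q * f (n - q - j) * u j ≤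
        K * ((v : ℝ) / n) ^ (2 * a - 1) * (W u n / n) := by
  obtain ⟨K, hK, hconv⟩ := conv_le h hi ha hC' hu
  obtain ⟨B, hB, hF⟩ := Fb_two h hi
  have hC := C_pos h hi
  have hun := NUX.u_nonneg h
  have hc := hi.c0
  obtain ⟨e, he⟩ : ∃ e : ℝ, e = c * (2 : ℝ) ^ (-a) := ⟨_, rfl⟩
  have he0 : 0 < e := by rw [he]; positivity
  refine ⟨16 * C * K / e ^ 2, by positivity, fun v n hv hvn => ?_⟩
  have hv0 : (0 : ℝ) < v := by exact_mod_cast hv
  have hn0 : (0 : ℝ) < n := by exact_mod_cast (by omega : 0 < n)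
  have hWv : 0 < W u v := lt_of_lt_of_le one_pos (W_pos h hv)
  have hWn : 0 < W u n := lt_of_lt_of_le one_pos (W_pos h (by omega))
  -- swap
  have h1 : ∀ j ∈ range v, ∑ q ∈ range (n / 2 + 1), u q * f (n - q - j) * u j ≤
      ∑ p ∈ Ioc (n / 4) n, f p * (if j ≤ n - p then u j * u (n - p - j) else 0) := by
    intro j hj
    rw [Finset.mem_range] at hj
    have e1 : ∑ q ∈ range (n / 2 + 1), u q * f (n - q - j) * u j =
        ∑ p ∈ (range (n / 2 + 1)).image (fun q => n - q - j), f p * (if j ≤ n - p then u j * u (n - p - j) else 0) := by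
      rw [Finset.sum_image]
      · refine Finset.sum_congr rfl fun q hq => ?_
        rw [Finset.mem_range] at hq
        rw [if_pos (by omega), show n - (n - q - j) - j = q by omega]
        ring
      · intro q hq q' hq' hqq
        rw [Finset.mem_coe, Finset.mem_range] at hq hq'
        simp only at hqq
        omega
    rw [e1]
    refine Finset.sum_le_sum_of_subset_of_nonneg ?_ fun p _ _ => ?_
    · intro p hp
      rw [Finset.mem_image] at hp
      obtain ⟨q, hq, rfl⟩ := hp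
      rw [Finset.mem_range] at hq
      rw [Finset.mem_Ioc]
      omega
    · refine mul_nonneg (h.fnn p) ?_
      split_ifs
      · exact mul_nonneg (hun _) (hun _)
      · exact le_rfl
  have h2 : ∑ j ∈ range v, ∑ q ∈ range (n / 2 + 1), u q * f (n - q - j) * u j ≤
      NUX.Fb f (n / 4) * (K * (W u v ^ 2 / v)) := by
    refine (Finset.sum_le_sum h1).trans ?_
    rw [Finset.sum_comm]
    calc ∑ p ∈ Ioc (n / 4) n, ∑ j ∈ range v, f p * (if j ≤ n - p then u j * u (n - p - j) else 0)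
        ≤ ∑ p ∈ Ioc (n / 4) n, f p * (K * (W u v ^ 2 / v)) := by
          refine Finset.sum_le_sum fun p _ => ?_
          rw [← Finset.mul_sum]
          exact mul_le_mul_of_nonneg_left (hconv v (n - p) hv) (h.fnn p)
      _ = (NUX.Fb f (n / 4) - NUX.Fb f n) * (K * (W u v ^ 2 / v)) := by
          rw [← Finset.sum_mul, Fb_diff f (show n / 4 ≤ n from Nat.div_le_self _ _)]
      _ ≤ _ := by
          refine mul_le_mul_of_nonneg_right ?_ (by positivity)
          have := NUX.Fb_nonneg h n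
          linarith
  have hn4 : 1 ≤ n / 4 := by omega
  have hW4 : 0 < W u (n / 4) := lt_of_lt_of_le one_pos (W_pos h hn4)
  have h3 : NUX.Fb f (n / 4) ≤ 16 * C / W u n := by
    refine (hF _ hn4).1.trans ?_
    have h4 : W u n ≤ C * 8 * W u (n / 4) := by
      refine (W_mono h (show n ≤ 8 * (n / 4) by omega)).trans ((hi.up 8 (n / 4) (by norm_num) hn4).trans ?_)
      have h3 : ((8 : ℕ) : ℝ) ^ b ≤ 8 := by
        calc ((8 : ℕ) : ℝ) ^ b ≤ ((8 : ℕ) : ℝ) ^ (1 : ℝ) := Real.rpow_le_rpow_of_exponent_le (by norm_num) hi.b1.le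
          _ = 8 := by rw [Real.rpow_one]; norm_num
      gcongr
    rw [div_le_div_iff₀ hW4 hWn]
    linarith
  have h4 : W u v ^ 2 / v ≤ 1 / e ^ 2 * ((v : ℝ) / n) ^ (2 * a - 1) * (W u n ^ 2 / n) := by
    have h5 := (hi.real h hv (show v ≤ n by omega)).1
    rw [← he] at h5
    have h6 : (e * ((n : ℝ) / v) ^ a * W u v) ^ 2 ≤ W u n ^ 2 := pow_le_pow_left₀ (by positivity) h5 2
    have h7 : ((v : ℝ) / n) ^ (2 * a - 1) * (((n : ℝ) / v) ^ a) ^ 2 = n / v := by
      have e1 : ((v : ℝ) / n) ^ (2 * a - 1) = (((n : ℝ) / v) ^ (2 * a - 1))⁻¹ := by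
        rw [← Real.inv_rpow (by positivity), inv_div]
      have e2 : (((n : ℝ) / v) ^ a) ^ 2 = ((n : ℝ) / v) ^ (2 * a) := by
        rw [← Real.rpow_natCast, ← Real.rpow_mul (by positivity)]
        congr 1
        push_cast
        ring
      have hpos : 0 < (n : ℝ) / v := by positivity
      rw [e1, e2, show 2 * a = (2 * a - 1) + 1 by ring, Real.rpow_add hpos, Real.rpow_one]
      have : ((n : ℝ) / v) ^ (2 * a - 1) ≠ 0 := by positivity
      have e3 : 2 * a - 1 + 1 - 1 = 2 * a - 1 := by ring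
      rw [e3]
      field_simp
    have h8 : 0 < ((v : ℝ) / n) ^ (2 * a - 1) := by positivity
    have h9 : (n : ℝ) / v * (e ^ 2 * W u v ^ 2) ≤ ((v : ℝ) / n) ^ (2 * a - 1) * W u n ^ 2 := by
      calc (n : ℝ) / v * (e ^ 2 * W u v ^ 2) = (((v : ℝ) / n) ^ (2 * a - 1) * (((n : ℝ) / v) ^ a) ^ 2) * (e ^ 2 * W u v ^ 2) := by
            rw [h7]
        _ = ((v : ℝ) / n) ^ (2 * a - 1) * (e * ((n : ℝ) / v) ^ a * W u v) ^ 2 := by ring
        _ ≤ _ := mul_le_mul_of_nonneg_left h6 h8.le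
    calc W u v ^ 2 / v = 1 / e ^ 2 * ((n : ℝ) / v * (e ^ 2 * W u v ^ 2)) / n := by field_simp
      _ ≤ 1 / e ^ 2 * (((v : ℝ) / n) ^ (2 * a - 1) * W u n ^ 2) / n := by gcongr
      _ = _ := by ring
  refine h2.trans ?_
  calc NUX.Fb f (n / 4) * (K * (W u v ^ 2 / v))
      ≤ 16 * C / W u n * (K * (1 / e ^ 2 * ((v : ℝ) / n) ^ (2 * a - 1) * (W u n ^ 2 / n))) := by
        refine mul_le_mul h3 (mul_le_mul_of_nonneg_left h4 hK.le) (by positivity) (by positivity)
    _ = _ := by
        field_simp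

end LN

end EN

end HexObs
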