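import Pool.Agent.EN.LatB
import Pool.Agent.EN.LatN
import Pool.Agent.EN.NumUb
import Pool.Agent.PW.RenI
import Pool.Agent.PHW8.Lev8

/-!
EN, lateral position: weights of the blocks and of the initial parts.
-/

set_option autoImplicit false

namespace HexObs

namespace EN

open Finset TS Rec8 BrL

open scoped ENNReal

namespace LB

open JumpVaux (gf_biUnion_le gf_empty)

/-! ### products with a dependent factor -/

lemma gf_dep {P A : Set (List Bool)} {Q : List Bool → Set (List Bool)} {c : ℝ≥0∞}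
    (h : ∀ t ∈ P, ∃ a ∈ A, ∃ u ∈ Q a, t = a ++ u) (hc : ∀ a ∈ A, gf (Q a) ≤ c) : gf P ≤ gf A * c := by
  classical
  have h1 : gf P ≤ ∑' x : List Bool × List Bool, (if x.1 ∈ A ∧ x.2 ∈ Q x.1 then wE x.1 * wE x.2 else 0) := by
    rw [← Rec8.sw_one P]
    refine sw_cover P _ _ (fun x : List Bool × List Bool => x.1 ++ x.2) fun t ht => ?_
    obtain ⟨a, ha, u, hu, rfl⟩ := h t ht
    refine ⟨(a, u), rfl, ?_⟩
    simp only
    rw [if_pos ⟨ha, hu⟩, wE_append, mul_one]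
  refine h1.trans ?_
  rw [ENNReal.tsum_prod']
  have h2 : ∀ a : List Bool, ∑' u : List Bool, (if a ∈ A ∧ u ∈ Q a then wE a * wE u else 0) ≤
      (if a ∈ A then wE a * c else 0) := by
    intro a
    by_cases ha : a ∈ A
    · rw [if_pos ha]
      have h3 : ∀ u, (if a ∈ A ∧ u ∈ Q a then wE a * wE u else 0) = wE a * (if u ∈ Q a then wE u * 1 else 0) := by
        intro u
        by_cases hu : u ∈ Q a
        · simp [ha, hu]
        · simp [hu]
      simp_rw [h3]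
      rw [ENNReal.tsum_mul_left, ← Rec8.sw_ind (Q a) (fun _ => 1), Rec8.sw_one]
      exact mul_le_mul_right (hc a ha) _
    · simp [ha]
  refine (ENNReal.tsum_le_tsum h2).trans ?_
  rw [← Rec8.sw_ind A (fun _ => c), ← Rec8.sw_one A, ← Rec8.sw_mul_right A c (fun _ => 1)]
  simp only [one_mul]
  exact le_rfl

lemma gf_dep' {P A : Set (List Bool)} {Q : List Bool → Set (List Bool)} {c : ℝ≥0∞}
    (h : ∀ t ∈ P, ∃ u ∈ A, ∃ a ∈ Q u, t = a ++ u) (hc : ∀ a ∈ A, gf (Q a) ≤ c) : gf P ≤ gf A * c := by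
  classical
  have h1 : gf P ≤ ∑' x : List Bool × List Bool, (if x.1 ∈ A ∧ x.2 ∈ Q x.1 then wE x.1 * wE x.2 else 0) := by
    rw [← Rec8.sw_one P]
    refine sw_cover P _ _ (fun x : List Bool × List Bool => x.2 ++ x.1) fun t ht => ?_
    obtain ⟨a, ha, u, hu, rfl⟩ := h t ht
    refine ⟨(a, u), rfl, ?_⟩
    simp only
    rw [if_pos ⟨ha, hu⟩, wE_append, mul_one, mul_comm]
  refine h1.trans ?_
  rw [ENNReal.tsum_prod']
  have h2 : ∀ a : List Bool, ∑' u : List Bool, (if a ∈ A ∧ u ∈ Q a then wE a * wE u else 0) ≤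
      (if a ∈ A then wE a * c else 0) := by
    intro a
    by_cases ha : a ∈ A
    · rw [if_pos ha]
      have h3 : ∀ u, (if a ∈ A ∧ u ∈ Q a then wE a * wE u else 0) = wE a * (if u ∈ Q a then wE u * 1 else 0) := by
        intro u
        by_cases hu : u ∈ Q a
        · simp [ha, hu]
        · simp [hu]
      simp_rw [h3]
      rw [ENNReal.tsum_mul_left, ← Rec8.sw_ind (Q a) (fun _ => 1), Rec8.sw_one]
      exact mul_le_mul_right (hc a ha) _
    · simp [ha]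
  refine (ENNReal.tsum_le_tsum h2).trans ?_
  rw [← Rec8.sw_ind A (fun _ => c), ← Rec8.sw_one A, ← Rec8.sw_mul_right A c (fun _ => 1)]
  simp only [one_mul]
  exact le_rfl

/-! ### the last pieces -/

/-- pieces of a height of at least q -/
def Tp (q : ℕ) : Set (List Bool) := {P | ∃ r, q ≤ r ∧ P ∈ Irr r}

lemma gf_Tp (q : ℕ) : gf (Tp q) = ENNReal.ofReal (KK' q) := by
  have h1 : Tp q = ⋃ i : ℕ, Irr (i + q) := by
    ext P
    rw [Set.mem_iUnion]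
    constructor
    · rintro ⟨r, h1, h2⟩
      exact ⟨r - q, by rwa [Nat.sub_add_cancel h1]⟩
    · rintro ⟨i, hi⟩
      exact ⟨i + q, by omega, hi⟩
  have h2 : ∀ r, gf (Irr r) = ENNReal.ofReal (kk r) := fun r => kap'_eq r
  rw [h1, K1.gf_iUnion (fun i => Irr (i + q)) fun i j t hi hj => by
    have := Brd_height hi.1 hj.1
    omega]
  simp_rw [h2]
  rw [← ENNReal.ofReal_tsum_of_nonneg (f := fun i => kk (i + q)) (fun r => kk_nonneg _)
    ((summable_nat_add_iff q).2 summable_kk)]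
  congr 1
  have h3 := summable_kk.sum_add_tsum_nat_add q
  rw [tsum_kk] at h3
  unfold KK'
  linarith

/-- pieces with more than 2 n letters -/
def Lp (n : ℕ) : Set (List Bool) := {P | P ∈ IU ∧ 2 * n < P.length}

lemma gf_Lp (n : ℕ) : gf (Lp n) = ENNReal.ofReal (NUX.Fb fb n) := by
  have h1 : Lp n = ⋃ i : ℕ, ILs (2 * (i + (n + 1))) := by
    ext P
    rw [Set.mem_iUnion]
    constructor
    · rintro ⟨⟨r, h1⟩, h2⟩
      obtain ⟨p, hp⟩ := even_length h1.1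
      exact ⟨p - (n + 1), ⟨r, h1⟩, by omega⟩
    · rintro ⟨i, h1, h2⟩
      exact ⟨h1, by omega⟩
  have h2 : ∀ p, gf (ILs (2 * p)) = ENNReal.ofReal (fb p) := by
    intro p
    unfold fb
    rw [ENNReal.ofReal_toReal (ILs_ne_top _)]
  have hs : Summable fb := hasSum_fb.summable
  rw [h1, K1.gf_iUnion (fun i => ILs (2 * (i + (n + 1)))) (by
    rintro i j t ⟨_, hi⟩ ⟨_, hj⟩
    omega)]
  simp_rw [h2]
  rw [← ENNReal.ofReal_tsum_of_nonneg (f := fun i => fb (i + (n + 1))) (fun r => ren.fnn _)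
    ((summable_nat_add_iff (n + 1)).2 hs)]
  congr 1
  have h3 := hs.sum_add_tsum_nat_add (n + 1)
  rw [hasSum_fb.tsum_eq] at h3
  unfold NUX.Fb
  linarith

lemma gf_Brd' (y : ℕ) : gf (Brd y) = ENNReal.ofReal (uu y) := by rw [gf_Brd, BT_eq_uu]

/-- the piece that jumps over the level H, the bridge in front of it in a given family -/
lemma jump (N H : ℕ) (S : ℕ → Set (List Bool)) : gf {B | ∃ (y r : ℕ) (X P : List Bool), X ∈ S y ∧ P ∈ Irr r ∧ y ≤ N ∧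
    H + 1 ≤ y + r ∧ B = X ++ P} ≤ ∑ y ∈ range (N + 1), gf (S y) * ENNReal.ofReal (KK' (H + 1 - y)) := by
  have h1 : {B | ∃ (y r : ℕ) (X P : List Bool), X ∈ S y ∧ P ∈ Irr r ∧ y ≤ N ∧ H + 1 ≤ y + r ∧ B = X ++ P} ⊆
      ⋃ y ∈ range (N + 1), {B | ∃ X ∈ S y, ∃ P ∈ Tp (H + 1 - y), B = X ++ P} := by
    rintro B ⟨y, r, X, P, h1, h2, h3, h4, h5⟩
    simp only [Set.mem_iUnion, Finset.mem_range]
    exact ⟨y, by omega, X, h1, P, ⟨r, by omega, h2⟩, h5⟩
  refine (gf_mono h1).trans ((gf_biUnion_le _ _).trans (Finset.sum_le_sum fun y _ => ?_))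
  rw [← gf_Tp]
  exact gf_le_mul fun t ht => ht

lemma jump_uu {N H : ℕ} (h : N ≤ H) : ∑ y ∈ range (N + 1), gf (Brd y) * ENNReal.ofReal (KK' (H + 1 - y)) ≤
    ENNReal.ofReal (UU N / UU (H - N)) := by
  simp_rw [gf_Brd', ← ENNReal.ofReal_mul (uu_pos _).le]
  rw [← ENNReal.ofReal_sum_of_nonneg fun y _ => mul_nonneg (uu_pos y).le (KK_nonneg _)]
  exact ENNReal.ofReal_le_ofReal (no_cut h)

theorem gf_Bk (N : ℕ) : gf (Bk N) ≤ 1 := by
  refine (jump N N Brd).trans ?_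
  simp_rw [gf_Brd', ← ENNReal.ofReal_mul (uu_pos _).le]
  rw [← ENNReal.ofReal_sum_of_nonneg fun y _ => mul_nonneg (uu_pos y).le (KK_nonneg _), KK_renewal, ENNReal.ofReal_one]

theorem gf_Sd (b : ℕ) : gf (Sd b) ≤ 1 := by
  have h1 : Sd b ⊆ ⋃ j ∈ range (b / 2 + 1), {T | ∃ X ∈ BLs (2 * j), ∃ P ∈ Lp (b / 2 - j), T = X ++ P} := by
    rintro T ⟨y, r, X, P, hX, hP, h1, h2, h3⟩
    obtain ⟨j, hj⟩ := even_length hX
    obtain ⟨p, hp⟩ := even_length hP.1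
    simp only [Set.mem_iUnion, Finset.mem_range]
    exact ⟨j, by omega, X, ⟨⟨y, hX⟩, by omega⟩, P, ⟨⟨r, hP⟩, by omega⟩, h3⟩
  have h2 : ∀ j ∈ range (b / 2 + 1), gf {T | ∃ X ∈ BLs (2 * j), ∃ P ∈ Lp (b / 2 - j), T = X ++ P} ≤
      ENNReal.ofReal (ub j * NUX.Fb fb (b / 2 - j)) := by
    intro j _
    refine (gf_le_mul fun t ht => ht).trans (le_of_eq ?_)
    rw [gf_Lp, ENNReal.ofReal_mul (NUX.u_nonneg ren j)]
    unfold ub
    rw [ENNReal.ofReal_toReal (BLs_ne_top _)]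
  refine (gf_mono h1).trans ((gf_biUnion_le _ _).trans ((Finset.sum_le_sum h2).trans ?_))
  rw [← ENNReal.ofReal_sum_of_nonneg fun j _ => mul_nonneg (NUX.u_nonneg ren j) (NUX.Fb_nonneg ren _), NUX.id1 ren,
    ENNReal.ofReal_one]

/-! ### long blocks -/

lemma gf_low (H : ℕ) : gf {V | ∃ v, v ≤ H ∧ V ∈ Brd v} = ENNReal.ofReal (UU H) := by
  rw [← Ex.gf_levels]
  congr 1
  ext V
  simp only [Set.mem_iUnion, Finset.mem_range, exists_prop]
  constructor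
  · rintro ⟨v, h1, h2⟩
    exact ⟨v, by omega, h2⟩
  · rintro ⟨v, h1, h2⟩
    exact ⟨v, by omega, h2⟩

lemma gf_TL (N : ℕ) (L : ℝ) : gf {Z | ∃ z, z ≤ N ∧ Z ∈ Brd z ∧ L ≤ (Z.length : ℝ)} ≤ NTm.TL N L := by
  have h1 : {Z | ∃ z, z ≤ N ∧ Z ∈ Brd z ∧ L ≤ (Z.length : ℝ)} ⊆ ⋃ z ∈ range (N + 1), {Z | Z ∈ Brd z ∧ L ≤ (Z.length : ℝ)} := by
    rintro Z ⟨z, h1, h2⟩
    simp only [Set.mem_iUnion, Finset.mem_range]
    exact ⟨z, by omega, h2⟩
  exact (gf_mono h1).trans (gf_biUnion_le _ _)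

/-- prefix free low words with many letters -/
lemma pf_long {A : Set (List Bool)} (H L : ℕ) (hA : ∀ B ∈ A, L < B.length ∧ ∃ h, h ≤ H ∧ B ∈ Brd h)
    (hpf : ∀ B ∈ A, ∀ V ∈ BU, ∀ B' ∈ A, ∀ V' ∈ BU, B ++ V = B' ++ V' → B = B') :
    gf A ≤ NTm.TL (2 * H) L / ENNReal.ofReal (UU H) := by
  have hU : ENNReal.ofReal (UU H) ≠ 0 := by simpa using Num2Aux.UU_pos H
  rw [ENNReal.le_div_iff_mul_le (Or.inl hU) (Or.inl ENNReal.ofReal_ne_top), ← gf_low H]
  refine (mul_le_gf (P := {Z | ∃ z, z ≤ 2 * H ∧ Z ∈ Brd z ∧ (L : ℝ) ≤ (Z.length : ℝ)}) ?_ ?_).trans (gf_TL _ _)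
  · rintro B hB V ⟨v, hv, hV⟩
    obtain ⟨h1, h, h2, h3⟩ := hA B hB
    refine ⟨h + v, by omega, Brd_append h3 hV, ?_⟩
    rw [List.length_append]
    push_cast
    have h4 : (L : ℝ) ≤ B.length := by exact_mod_cast h1.le
    have h5 : (0 : ℝ) ≤ V.length := Nat.cast_nonneg _
    linarith
  · rintro B hB V ⟨v, -, hV⟩ B' hB' V' ⟨v', -, hV'⟩ h
    exact hpf B hB V ⟨v, hV⟩ B' hB' V' ⟨v', hV'⟩ h

/-- bound for the weight of the long blocks -/
noncomputable def la (N H L : ℕ) : ℝ≥0∞ := ENNReal.ofReal (UU N / UU (H - N)) + NTm.TL (2 * H) L / ENNReal.ofReal (UU H)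

/-- bound for the weight of the initial parts with a low bridge in front of the last piece -/
noncomputable def ta (N H b : ℕ) : ℝ≥0∞ := la N H b + NTm.TL (2 * N) b / ENNReal.ofReal (UU N)

theorem Bk_long {N H : ℕ} (h : N ≤ H) (L : ℕ) : gf {B | B ∈ Bk N ∧ L < B.length} ≤ la N H L := by
  have h1 : {B | B ∈ Bk N ∧ L < B.length} ⊆ {B | ∃ (y r : ℕ) (X P : List Bool), X ∈ Brd y ∧ P ∈ Irr r ∧ y ≤ N ∧
      H + 1 ≤ y + r ∧ B = X ++ P} ∪ {B | B ∈ Bk N ∧ L < B.length ∧ ∃ h, h ≤ H ∧ B ∈ Brd h} := by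
    rintro B ⟨hB, hL⟩
    have hB' := hB
    obtain ⟨y, r, X, P, hX, hP, a1, a2, a3⟩ := hB
    rcases Nat.lt_or_ge H (y + r) with h2 | h2
    · exact Or.inl ⟨y, r, X, P, hX, hP, a1, h2, a3⟩
    · exact Or.inr ⟨hB', hL, y + r, h2, by rw [a3]; exact Brd_append hX hP.1⟩
  refine (gf_mono h1).trans ((gf_union_le _ _).trans (add_le_add ((jump N H Brd).trans (jump_uu h)) ?_))
  refine pf_long H L (fun B hB => ⟨hB.2.1, hB.2.2⟩) fun B hB V hV B' hB' V' hV' => Bk_pf hB.1 hB'.1 hV hV'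

theorem gf_Sn {N H : ℕ} (h : N ≤ H) (b : ℕ) : gf (Sn N b) ≤ ta N H b := by
  have h1 : Sn N b ⊆ {B | B ∈ Bk N ∧ b < B.length} ∪ {T | T ∈ Sd b ∧ b < T.length ∧ ∃ h, h ≤ N ∧ T ∈ Brd h} := by
    intro T hT
    have hT' := Sn_Sd hT
    obtain ⟨y, r, X, P, hX, hP, a1, a2, a3, a4⟩ := hT
    have hl : b < T.length := by
      rw [a4, List.length_append]
      exact a3
    rcases Nat.lt_or_ge N (y + r) with h2 | h2
    · exact Or.inl ⟨⟨y, r, X, P, hX, hP, a1, h2, a4⟩, hl⟩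
    · exact Or.inr ⟨hT', hl, y + r, h2, by rw [a4]; exact Brd_append hX hP.1⟩
  refine (gf_mono h1).trans ((gf_union_le _ _).trans (add_le_add (Bk_long h b) ?_))
  refine pf_long N b (fun B hB => ⟨hB.2.1, hB.2.2⟩) fun B hB V hV B' hB' V' hV' => Sd_pf hB.1 hB'.1 hV hV'

/-! ### few blocks -/

lemma Sd_cons {N b : ℕ} {B T : List Bool} (hB : B ∈ Bk N) (hl : B.length ≤ b) (hT : T ∈ Sd (b - B.length)) :
    B ++ T ∈ Sd b := by
  obtain ⟨x, hx⟩ := Bk_BU hB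
  obtain ⟨y, r, X, P, hX, hP, a1, a2, rfl⟩ := hT
  refine ⟨x + y, r, B ++ X, P, Brd_append hx hX, hP, ?_, ?_, (List.append_assoc _ _ _).symm⟩
  · rw [List.length_append]
    omega
  · rw [List.length_append]
    omega

lemma Few_Sd {N : ℕ} : ∀ (M b : ℕ) (T : List Bool), T ∈ Few N M b → T ∈ Sd b := by
  intro M
  induction M with
  | zero => exact fun b T hT => hT.elim
  | succ M ih =>
    intro b T hT
    rcases hT with hT | ⟨B, hB, hl, T', hT', rfl⟩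
    · exact Sn_Sd hT
    · exact Sd_cons hB hl (ih _ _ hT')

lemma Many_Sd {N : ℕ} : ∀ (M b : ℕ) (T : List Bool), T ∈ Many N M b → T ∈ Sd b := by
  intro M
  induction M with
  | zero => exact fun b T hT => hT
  | succ M ih =>
    rintro b T ⟨B, hB, hl, T', hT', rfl⟩
    exact Sd_cons hB hl (ih _ _ hT')

/-- **few blocks** -/
theorem gf_Few {N L b0 : ℕ} {τ l : ℝ≥0∞} (hl : gf {B | B ∈ Bk N ∧ L < B.length} ≤ l) (hτ : ∀ b, b0 ≤ b → gf (Sn N b) ≤ τ) :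
    ∀ M b : ℕ, b0 + M * L ≤ b → gf (Few N M b) ≤ M * (τ + l) := by
  intro M
  induction M with
  | zero =>
    intro b _
    have : Few N 0 b = (∅ : Set (List Bool)) := rfl
    rw [this, gf_empty]
    exact zero_le
  | succ M ih =>
    intro b hb
    have hb' : b0 + M * L + L ≤ b := by
      rw [add_mul, one_mul] at hb
      omega
    have h1 : Few N (M + 1) b ⊆ Sn N b ∪ ({T | ∃ B ∈ {B | B ∈ Bk N ∧ L < B.length}, ∃ T' ∈ {T' | T' ∈ Sd (b - B.length)},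
        T = B ++ T'} ∪ {T | ∃ B ∈ {B | B ∈ Bk N ∧ B.length ≤ L}, ∃ T' ∈ Few N M (b - B.length), T = B ++ T'}) := by
      intro T hT
      rcases hT with hT | ⟨B, hB, hl, T', hT', hE⟩
      · exact Or.inl hT
      · rcases Nat.lt_or_ge L B.length with h2 | h2
        · exact Or.inr (Or.inl ⟨B, ⟨hB, h2⟩, T', Few_Sd _ _ _ hT', hE⟩)
        · exact Or.inr (Or.inr ⟨B, ⟨hB, h2⟩, T', hT', hE⟩)
    refine (gf_mono h1).trans ((gf_union_le _ _).trans ((add_le_add (hτ b (by omega)) (gf_union_le _ _)).trans ?_))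
    have h2 : gf {T | ∃ B ∈ {B | B ∈ Bk N ∧ L < B.length}, ∃ T' ∈ {T' | T' ∈ Sd (b - B.length)}, T = B ++ T'} ≤ l := by
      refine (gf_dep (Q := fun B => {T' | T' ∈ Sd (b - B.length)}) (c := 1) (fun t ht => ht) fun B _ => gf_Sd _).trans ?_
      rw [mul_one]
      exact hl
    have h3 : gf {T | ∃ B ∈ {B | B ∈ Bk N ∧ B.length ≤ L}, ∃ T' ∈ Few N M (b - B.length), T = B ++ T'} ≤ M * (τ + l) := by
      refine (gf_dep (Q := fun B => Few N M (b - B.length)) (c := M * (τ + l)) (fun t ht => ht) fun B hB => ?_).trans ?_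
      · exact ih _ (by have := hB.2; omega)
      · calc gf {B | B ∈ Bk N ∧ B.length ≤ L} * (M * (τ + l)) ≤ 1 * (M * (τ + l)) :=
              mul_le_mul_left ((gf_mono fun B hB => hB.1).trans (gf_Bk N)) _
          _ = _ := one_mul _
    calc τ + (gf {T | ∃ B ∈ {B | B ∈ Bk N ∧ L < B.length}, ∃ T' ∈ {T' | T' ∈ Sd (b - B.length)}, T = B ++ T'} +
          gf {T | ∃ B ∈ {B | B ∈ Bk N ∧ B.length ≤ L}, ∃ T' ∈ Few N M (b - B.length), T = B ++ T'})
        ≤ τ + (l + M * (τ + l)) := add_le_add le_rfl (add_le_add h2 h3)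
      _ = _ := by push_cast; ring

/-! ### narrow blocks -/

theorem narrow : ∃ C : ℝ, 0 < C ∧ ∀ (N s r : ℕ), s ≤ N → gf {B | B ∈ Bk N ∧ |latE B| ≤ (r : ℤ)} ≤
    ENNReal.ofReal (UU s / UU (N - s)) + ENNReal.ofReal (C * ((2 * r + 1 : ℕ) : ℝ) / (s + 1)) := by
  obtain ⟨C, hC, hE⟩ := anti_end
  refine ⟨C, hC, fun N s r hs => ?_⟩
  have h1 : {B | B ∈ Bk N ∧ |latE B| ≤ (r : ℤ)} ⊆ {B | ∃ (y r : ℕ) (X P : List Bool), X ∈ Brd y ∧ P ∈ Irr r ∧ y ≤ s ∧
      N + 1 ≤ y + r ∧ B = X ++ P} ∪ ⋃ y ∈ (range (N + 1)).filter (fun y => s < y), {B | ∃ P ∈ Tp (N + 1 - y),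
        ∃ X ∈ {X | X ∈ Brd y ∧ |latE X + latE P| ≤ (r : ℤ)}, B = X ++ P} := by
    rintro B ⟨⟨y, q, X, P, hX, hP, a1, a2, rfl⟩, hB⟩
    rcases Nat.lt_or_ge s y with h2 | h2
    · right
      simp only [Set.mem_iUnion, Finset.mem_filter, Finset.mem_range]
      refine ⟨y, ⟨by omega, h2⟩, P, ⟨q, by omega, hP⟩, X, ⟨hX, ?_⟩, rfl⟩
      rwa [latE_cat (BU_dx ⟨y, hX⟩)] at hB
    · exact Or.inl ⟨y, q, X, P, hX, hP, h2, a2, rfl⟩
  refine (gf_mono h1).trans ((gf_union_le _ _).trans (add_le_add ((jump s N Brd).trans (jump_uu hs)) ?_))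
  have h2 : ∀ y ∈ (range (N + 1)).filter (fun y => s < y), gf {B | ∃ P ∈ Tp (N + 1 - y),
      ∃ X ∈ {X | X ∈ Brd y ∧ |latE X + latE P| ≤ (r : ℤ)}, B = X ++ P} ≤
        ENNReal.ofReal (C * ((2 * r + 1 : ℕ) : ℝ) / (s + 1) * (uu y * KK' (N + 1 - y))) := by
    intro y hy
    rw [Finset.mem_filter] at hy
    refine (gf_dep' (Q := fun P => {X | X ∈ Brd y ∧ |latE X + latE P| ≤ (r : ℤ)})
      (c := ENNReal.ofReal (((2 * r + 1 : ℕ) : ℝ) * (C * (uu y / (s + 1))))) (fun t ht => ht) fun P _ => ?_).trans ?_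
    · have h3 : {X | X ∈ Brd y ∧ |latE X + latE P| ≤ (r : ℤ)} ⊆ ⋃ x ∈ Finset.Icc (-(r : ℤ) - latE P) (r - latE P),
          {X | X ∈ Brd y ∧ latE X = x} := by
        rintro X ⟨hX, h4⟩
        simp only [Set.mem_iUnion, Finset.mem_Icc]
        rw [abs_le] at h4
        exact ⟨latE X, ⟨by omega, by omega⟩, hX, rfl⟩
      have h4 : ∀ x ∈ Finset.Icc (-(r : ℤ) - latE P) (r - latE P), gf {X | X ∈ Brd y ∧ latE X = x} ≤
          ENNReal.ofReal (C * (uu y / (s + 1))) := by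
        intro x _
        refine (hE y (by omega) x).trans (ENNReal.ofReal_le_ofReal (mul_le_mul_of_nonneg_left ?_ hC.le))
        refine div_le_div_of_nonneg_left (uu_pos y).le (by positivity) ?_
        exact_mod_cast (by omega : s + 1 ≤ y)
      refine (gf_mono h3).trans ((gf_biUnion_le _ _).trans ((Finset.sum_le_card_nsmul _ _ _ h4).trans (le_of_eq ?_)))
      rw [Int.card_Icc, nsmul_eq_mul, show (r - latE P + 1 - (-(r : ℤ) - latE P)).toNat = 2 * r + 1 by omega,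
        ENNReal.ofReal_mul (p := ((2 * r + 1 : ℕ) : ℝ)) (Nat.cast_nonneg _), ENNReal.ofReal_natCast]
    · rw [gf_Tp, ← ENNReal.ofReal_mul (KK_nonneg _)]
      refine ENNReal.ofReal_le_ofReal (le_of_eq ?_)
      ring
  refine (gf_biUnion_le _ _).trans ((Finset.sum_le_sum h2).trans ?_)
  rw [← ENNReal.ofReal_sum_of_nonneg fun y _ => mul_nonneg (by positivity) (mul_nonneg (uu_pos y).le (KK_nonneg _))]
  refine ENNReal.ofReal_le_ofReal ?_
  rw [← Finset.mul_sum]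
  have h3 : ∑ y ∈ (range (N + 1)).filter (fun y => s < y), uu y * KK' (N + 1 - y) ≤ 1 := by
    rw [← KK_renewal N]
    exact Finset.sum_le_sum_of_subset_of_nonneg (Finset.filter_subset _ _) fun y _ _ =>
      mul_nonneg (uu_pos y).le (KK_nonneg _)
  calc C * ((2 * r + 1 : ℕ) : ℝ) / (s + 1) * ∑ y ∈ (range (N + 1)).filter (fun y => s < y), uu y * KK' (N + 1 - y)
      ≤ C * ((2 * r + 1 : ℕ) : ℝ) / (s + 1) * 1 := mul_le_mul_of_nonneg_left h3 (by positivity)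
    _ = _ := mul_one _

/-! ### short end -/

/-- the last part has less than 2 v letters -/
theorem gf_Short (n v : ℕ) : gf {V | V.length = 2 * n ∧ ∃ T ∈ Sd n, ∃ U ∈ BU, U.length < 2 * v ∧ V = T ++ U} ≤
    ENNReal.ofReal (∑ j ∈ range v, ∑ q ∈ range (n / 2 + 1), ub q * fb (n - q - j) * ub j) := by
  have h1 : {V | V.length = 2 * n ∧ ∃ T ∈ Sd n, ∃ U ∈ BU, U.length < 2 * v ∧ V = T ++ U} ⊆
      ⋃ j ∈ range v, ⋃ q ∈ range (n / 2 + 1), {V | ∃ X ∈ BLs (2 * q), ∃ W ∈ {W | ∃ P ∈ ILs (2 * (n - q - j)),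
        ∃ U ∈ BLs (2 * j), W = P ++ U}, V = X ++ W} := by
    rintro V ⟨hV, T, ⟨y, r, X, P, hX, hP, a1, a2, rfl⟩, U, hU, hUl, rfl⟩
    obtain ⟨q, hq⟩ := even_length hX
    obtain ⟨p, hp⟩ := even_length hP.1
    obtain ⟨z, hz⟩ := hU
    obtain ⟨j, hj⟩ := even_length hz
    rw [List.length_append, List.length_append] at hV
    simp only [Set.mem_iUnion, Finset.mem_range]
    refine ⟨j, by omega, q, by omega, X, ⟨⟨y, hX⟩, by omega⟩, P ++ U, ⟨P, ⟨⟨r, hP⟩, by omega⟩, U, ⟨⟨z, hz⟩, by omega⟩, rfl⟩,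
      List.append_assoc _ _ _⟩
  have e1 : ∀ j, gf (BLs (2 * j)) = ENNReal.ofReal (ub j) := by
    intro j
    unfold ub
    rw [ENNReal.ofReal_toReal (BLs_ne_top _)]
  have e2 : ∀ j, gf (ILs (2 * j)) = ENNReal.ofReal (fb j) := by
    intro j
    unfold fb
    rw [ENNReal.ofReal_toReal (ILs_ne_top _)]
  have hun := NUX.u_nonneg ren
  have hfn := ren.fnn
  refine (gf_mono h1).trans ((gf_biUnion_le _ _).trans ?_)
  rw [ENNReal.ofReal_sum_of_nonneg fun j _ => Finset.sum_nonneg fun q _ => mul_nonneg (mul_nonneg (hun _) (hfn _)) (hun _)]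
  refine Finset.sum_le_sum fun j _ => (gf_biUnion_le _ _).trans ?_
  rw [ENNReal.ofReal_sum_of_nonneg fun q _ => mul_nonneg (mul_nonneg (hun _) (hfn _)) (hun _)]
  refine Finset.sum_le_sum fun q _ => ?_
  refine (gf_le_mul fun t ht => ht).trans ?_
  rw [mul_assoc, ENNReal.ofReal_mul (hun _), ENNReal.ofReal_mul (hfn _), ← e1, ← e2, ← e1]
  exact mul_le_mul_right (gf_le_mul fun t ht => ht) _

end LB

end EN

end HexObs
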