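import Pool.Agent.NTA.LQWord
import Pool.Agent.NTA.SpWin
import Pool.Agent.NT.TallV
import Pool.Agent.NTW.ModuA

/-!
EN: the tall and short leaves have a superpolynomially small norm at every scale below their height.
-/

set_option autoImplicit false

namespace HexObs

namespace EN

open Finset TS SDN NTW NTA

open scoped ENNReal

/-- the free middle part of a tall short leaf is tall and short -/
lemma ez_tall {D N e H : ℕ} {lam : ℝ} {A : ℝ} (he : e + 2 ≤ H)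
    (h : gf {Z | ∃ T, 2 ^ (H - 1) ≤ T ∧ Z ∈ Brd T ∧ (Z.length : ℝ) < lam} ≤ ENNReal.ofReal A) :
    EZ D N e {g | g ∈ BrR D N ∧ 2 ^ H ≤ hgt g ∧ (g.length : ℝ) < lam} A := by
  classical
  intro M hM P1 hP1 P2 hP2 Q hQ h1 h2
  refine le_trans ?_ h
  have hMP := NTA.LQ.BU_app hM (IU_BU hP1)
  have hPQ := NTA.LQ.BU_app (IU_BU hP2) hQ
  have key : ∀ n : ℕ, ∀ Z, Z ∈ Brd n ∧ M ++ (P1 ++ (Z ++ (P2 ++ Q))) ∈ {g | g ∈ BrR D N ∧ 2 ^ H ≤ hgt g ∧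
      (g.length : ℝ) < lam} ∧ M ++ (P1 ++ (Z ++ (P2 ++ Q))) ∈ BrR D N →
      2 ^ (H - 1) ≤ n ∧ Z ∈ Brd n ∧ (Z.length : ℝ) < lam := by
    rintro n Z ⟨hZ, ⟨-, h3, h4⟩, -⟩
    have h5 : M ++ (P1 ++ (Z ++ (P2 ++ Q))) ∈ Brd (hgt M + (hgt P1 + (n + (hgt P2 + hgt Q)))) :=
      Brd_append (NTA.LQ.hgt_mem hM) (Brd_append (NTA.LQ.hgt_mem (IU_BU hP1)) (Brd_append hZ
        (Brd_append (NTA.LQ.hgt_mem (IU_BU hP2)) (NTA.LQ.hgt_mem hQ))))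
    rw [hgt_eq h5] at h3
    have e1 : 2 ^ H = 2 ^ (H - 1) + 2 ^ (H - 1) := by
      rw [← two_mul, ← pow_succ']
      congr 1
      omega
    have e2 : 2 ^ (e + 1) ≤ 2 ^ (H - 1) := Nat.pow_le_pow_right (by norm_num) (by omega)
    rw [pow_succ] at e2
    refine ⟨by omega, hZ, lt_of_le_of_lt ?_ h4⟩
    have h6 : Z.length ≤ (M ++ (P1 ++ (Z ++ (P2 ++ Q)))).length := by
      simp only [List.length_append]
      omega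
    exact_mod_cast h6
  have h3 : ∀ n : ℕ, gf {Z | Z ∈ Brd n ∧ M ++ (P1 ++ (Z ++ (P2 ++ Q))) ∈ {g | g ∈ BrR D N ∧ 2 ^ H ≤ hgt g ∧
      (g.length : ℝ) < lam} ∧ M ++ (P1 ++ (Z ++ (P2 ++ Q))) ∈ BrR D N} ≤
      ∑' Z : List Bool, (if 2 ^ (H - 1) ≤ n ∧ Z ∈ Brd n ∧ (Z.length : ℝ) < lam then wE Z else 0) := by
    intro n
    rw [show gf {Z | Z ∈ Brd n ∧ M ++ (P1 ++ (Z ++ (P2 ++ Q))) ∈ {g | g ∈ BrR D N ∧ 2 ^ H ≤ hgt g ∧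
      (g.length : ℝ) < lam} ∧ M ++ (P1 ++ (Z ++ (P2 ++ Q))) ∈ BrR D N} = ∑' Z : List Bool, ({Z | Z ∈ Brd n ∧
      M ++ (P1 ++ (Z ++ (P2 ++ Q))) ∈ {g | g ∈ BrR D N ∧ 2 ^ H ≤ hgt g ∧ (g.length : ℝ) < lam} ∧
      M ++ (P1 ++ (Z ++ (P2 ++ Q))) ∈ BrR D N}).indicator wE Z from _root_.tsum_subtype _ _]
    refine ENNReal.tsum_le_tsum fun Z => ?_
    by_cases hZ : Z ∈ {Z | Z ∈ Brd n ∧ M ++ (P1 ++ (Z ++ (P2 ++ Q))) ∈ {g | g ∈ BrR D N ∧ 2 ^ H ≤ hgt g ∧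
      (g.length : ℝ) < lam} ∧ M ++ (P1 ++ (Z ++ (P2 ++ Q))) ∈ BrR D N}
    · rw [Set.indicator_of_mem hZ, if_pos (key n Z hZ)]
    · rw [Set.indicator_of_notMem hZ]
      exact zero_le
  refine (ENNReal.tsum_le_tsum h3).trans ?_
  rw [ENNReal.tsum_comm]
  rw [show gf {Z | ∃ T, 2 ^ (H - 1) ≤ T ∧ Z ∈ Brd T ∧ (Z.length : ℝ) < lam} = ∑' Z : List Bool,
    ({Z | ∃ T, 2 ^ (H - 1) ≤ T ∧ Z ∈ Brd T ∧ (Z.length : ℝ) < lam}).indicator wE Z from _root_.tsum_subtype _ _]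
  refine ENNReal.tsum_le_tsum fun Z => ?_
  by_cases hZ : ∃ T, 2 ^ (H - 1) ≤ T ∧ Z ∈ Brd T ∧ (Z.length : ℝ) < lam
  · obtain ⟨T, hT1, hT2, hT3⟩ := hZ
    rw [Set.indicator_of_mem (show Z ∈ {Z | ∃ T, 2 ^ (H - 1) ≤ T ∧ Z ∈ Brd T ∧ (Z.length : ℝ) < lam} from
      ⟨T, hT1, hT2, hT3⟩), tsum_eq_single T]
    · rw [if_pos ⟨hT1, hT2, hT3⟩]
    · intro n hn
      rw [if_neg]
      rintro ⟨-, h5, -⟩
      exact hn (Brd_height h5 hT2)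
  · refine le_trans (le_of_eq (ENNReal.tsum_eq_zero.2 fun n => ?_)) zero_le
    rw [if_neg]
    rintro ⟨h4, h5, h6⟩
    exact hZ ⟨n, h4, h5, h6⟩

/-- an exponential of an exponential -/
lemma exp_exp (a : ℕ) : ∃ C : ℝ, 1 ≤ C ∧ ∀ i : ℕ, (2 : ℝ) ^ (a * (i + 1)) / 2 ^ (2 ^ i) ≤ C := by
  obtain ⟨i0, h0⟩ : ∃ i0 : ℕ, ∀ i, i0 ≤ i → a * (i + 1) ≤ 2 ^ i := by
    have h1 : Filter.Tendsto (fun n : ℕ => (n : ℝ) ^ 1 / 2 ^ n) Filter.atTop (nhds 0) :=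
      tendsto_pow_const_div_const_pow_of_one_lt 1 one_lt_two
    obtain ⟨i0, hi0⟩ := Filter.eventually_atTop.1 (h1.eventually (gt_mem_nhds (show (0 : ℝ) < 1 / (2 * a + 1) by positivity)))
    refine ⟨max i0 1, fun i hi => ?_⟩
    have h2 := hi0 i ((le_max_left _ _).trans hi)
    have h3 : 1 ≤ i := (le_max_right _ _).trans hi
    have h3' : (1 : ℝ) ≤ i := by exact_mod_cast h3
    rw [pow_one, div_lt_div_iff₀ (by positivity) (by positivity)] at h2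
    have h4 : ((a * (i + 1) : ℕ) : ℝ) ≤ ((2 ^ i : ℕ) : ℝ) := by
      push_cast
      have h5 : (0 : ℝ) ≤ a := Nat.cast_nonneg a
      nlinarith
    exact_mod_cast h4
  refine ⟨2 ^ (a * (i0 + 1)), one_le_pow₀ (by norm_num), fun i => ?_⟩
  rw [div_le_iff₀ (by positivity)]
  rcases le_total i0 i with h | h
  · have h1 := h0 i h
    calc (2 : ℝ) ^ (a * (i + 1)) ≤ 2 ^ (2 ^ i) := pow_le_pow_right₀ (by norm_num) h1
      _ = 1 * 2 ^ (2 ^ i) := (one_mul _).symm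
      _ ≤ 2 ^ (a * (i0 + 1)) * 2 ^ (2 ^ i) := by
          gcongr
          exact one_le_pow₀ (by norm_num)
  · have h1 : a * (i + 1) ≤ a * (i0 + 1) := Nat.mul_le_mul_left _ (by omega)
    calc (2 : ℝ) ^ (a * (i + 1)) ≤ 2 ^ (a * (i0 + 1)) := pow_le_pow_right₀ (by norm_num) h1
      _ = 2 ^ (a * (i0 + 1)) * 1 := (mul_one _).symm
      _ ≤ 2 ^ (a * (i0 + 1)) * 2 ^ (2 ^ i) := by
          gcongr
          exact one_le_pow₀ (by norm_num)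

/-- **tall and short leaves** -/
theorem smD_tall : ∃ (d : ℝ) (s k0 : ℕ), 0 < d ∧ ∀ Q : ℕ, ∃ (C : ℝ) (D : ℕ), 1 ≤ C ∧ 1 ≤ D ∧
    ∀ (L i k1 H J c3 : ℕ) (lam : ℝ), k0 ≤ L → NTm.AS lam (d * Ub L) → L + s + i + 1 ≤ H → k1 ≤ H + c3 →
      D * (i + 1) ≤ k1 → D * (i + 1) ≤ H →
      SmD DmJ k1 {g | g ∈ BrR (2 ^ (k1 + 4)) (2 ^ (k1 + J)) ∧ 2 ^ H ≤ hgt g ∧ (g.length : ℝ) < lam}
        (C * 4 ^ (J + c3) * 2 ^ (L - k1) * (1 / 2) ^ (Q * i)) := by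
  obtain ⟨d, s, k0, hd, htall⟩ := NTm.tallV
  obtain ⟨K, c, hK, hc, hwin⟩ := sp_win
  refine ⟨d, s, k0, hd, fun Q => ?_⟩
  obtain ⟨D0, hD0⟩ := exists_nat_ge ((Q : ℝ) / c)
  rw [div_le_iff₀ hc] at hD0
  obtain ⟨D1, hD1⟩ : ∃ D1 : ℕ, D1 = D0 + 3 := ⟨_, rfl⟩
  obtain ⟨Ce, hCe, hexp⟩ := exp_exp (2 * D1 + Q)
  have hK0 : 0 < K := by linarith
  refine ⟨K * 4 * 4 ^ 2 * (1 + Ce), D1 + 2, ?_, by omega, ?_⟩
  · have : 1 ≤ K * 4 * 4 ^ 2 := by linarith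
    nlinarith
  intro L i k1 H J c3 lam hL hAS hH hk1 hDk hDH
  obtain ⟨e, he⟩ : ∃ e, e = min k1 (H - 2) := ⟨_, rfl⟩
  obtain ⟨R, hR⟩ : ∃ R, R = D1 * (i + 1) := ⟨_, rfl⟩
  have hRD : R + 2 ≤ (D1 + 2) * (i + 1) := by
    rw [hR]
    nlinarith
  have hRe : R ≤ e := by
    rw [he]
    refine le_min (by omega) (by omega)
  have hR3 : 3 ≤ R := by
    rw [hR, hD1]
    nlinarith
  have hek : e ≤ k1 := by rw [he]; exact min_le_left _ _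
  have heH : e + 2 ≤ H := by
    have h1 : e ≤ H - 2 := by rw [he]; exact min_le_right _ _
    have h2 : 2 ≤ H := by
      have : R + 2 ≤ H := hRD.trans hDH
      omega
    omega
  have hke : k1 - e ≤ c3 + 2 := by
    rw [he]
    rcases le_total k1 (H - 2) with h | h
    · rw [min_eq_left h]
      omega
    · rw [min_eq_right h]
      omega
  obtain ⟨A, hA⟩ : ∃ A : ℝ, A = Ub L / 2 ^ (2 ^ i) := ⟨_, rfl⟩
  have hUL := Ub_pos L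
  have hUk := Ub_pos k1
  have hA0 : 0 ≤ A := by
    rw [hA]
    positivity
  have hgf : gf {Z | ∃ T, 2 ^ (H - 1) ≤ T ∧ Z ∈ Brd T ∧ (Z.length : ℝ) < lam} ≤ ENNReal.ofReal A := by
    rw [hA]
    refine (gf_mono ?_).trans (htall L lam hL hAS (2 ^ i) Nat.one_le_two_pow)
    rintro Z ⟨T, h1, h2, h3⟩
    refine ⟨T, le_trans ?_ h1, h2, h3⟩
    rw [← pow_add]
    exact Nat.pow_le_pow_right (by norm_num) (by omega)
  have h1 := hwin k1 (2 ^ (k1 + J)) e (e - R) A _ (by omega) hek hA0 (fun g hg => hg.1)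
    (ez_tall (D := 2 ^ (k1 + 4)) (N := 2 ^ (k1 + J)) heH hgf)
  refine SmD_le ?_ h1
  -- the numbers
  have hUN : UU (2 ^ (k1 + J)) ≤ 2 ^ J * Ub k1 := UU_ratio_up k1 J
  have hUN0 : 0 < UU (2 ^ (k1 + J)) := Num2Aux.UU_pos _
  have h2J : (1 : ℝ) ≤ 2 ^ J := one_le_pow₀ (by norm_num)
  have hρ : 1 + UU (2 ^ (k1 + J)) / Ub k1 ≤ 2 * 2 ^ J := by
    have : UU (2 ^ (k1 + J)) / Ub k1 ≤ 2 ^ J := by
      rw [div_le_iff₀ hUk]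
      exact hUN
    linarith
  have hρ0 : 0 ≤ 1 + UU (2 ^ (k1 + J)) / Ub k1 := by positivity
  have hρ2 : (1 + UU (2 ^ (k1 + J)) / Ub k1) ^ 2 ≤ 4 * 4 ^ J := by
    calc (1 + UU (2 ^ (k1 + J)) / Ub k1) ^ 2 ≤ (2 * 2 ^ J) ^ 2 := pow_le_pow_left₀ hρ0 hρ 2
      _ = 4 * 4 ^ J := by
          rw [mul_pow, ← pow_mul, mul_comm J 2, pow_mul]
          norm_num
  have h4e : (4 : ℝ) ^ (k1 - e) ≤ 4 ^ 2 * 4 ^ c3 := by
    rw [← pow_add]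
    exact pow_le_pow_right₀ (by norm_num) (by omega)
  have hLk : Ub L / Ub k1 ≤ 2 ^ (L - k1) := by
    rw [div_le_iff₀ hUk]
    rcases le_total L k1 with h | h
    · rw [Nat.sub_eq_zero_of_le h, pow_zero, one_mul]
      exact Ub_mono h
    · have h2 : UU (2 ^ (k1 + (L - k1))) ≤ 2 ^ (L - k1) * Ub k1 := UU_ratio_up k1 (L - k1)
      rw [Nat.add_sub_cancel' h] at h2
      exact h2
  have h2L : (1 : ℝ) ≤ 2 ^ (L - k1) := one_le_pow₀ (by norm_num)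
  have hq : ((1 / 2 : ℝ)) ^ (Q * i) = ((2 : ℝ) ^ (Q * i))⁻¹ := by rw [one_div, inv_pow]
  have hq0 : (0 : ℝ) < (1 / 2) ^ (Q * i) := by positivity
  have t1 : (2 : ℝ) ^ (-(c * ((e : ℝ) - ((e - R : ℕ) : ℝ)))) ≤ (1 / 2) ^ (Q * i) := by
    rw [Nat.cast_sub hRe, hq, ← Real.rpow_natCast, ← Real.rpow_neg (by norm_num)]
    apply Real.rpow_le_rpow_of_exponent_le (by norm_num)
    rw [hR, hD1]
    push_cast
    have hi : (0 : ℝ) ≤ i := Nat.cast_nonneg i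
    have hQ : (0 : ℝ) ≤ Q := Nat.cast_nonneg Q
    have h3 : (Q : ℝ) ≤ c * D0 := by linarith
    have h5 : (Q : ℝ) * i ≤ c * D0 * i := mul_le_mul_of_nonneg_right h3 hi
    nlinarith
  have t2 : (4 : ℝ) ^ (k1 - (e - R)) * (A / Ub k1) ≤ 4 ^ 2 * 4 ^ c3 * (Ce * 2 ^ (L - k1) * (1 / 2) ^ (Q * i)) := by
    have e1 : k1 - (e - R) = (k1 - e) + R := by omega
    rw [e1, pow_add]
    have e2 : A / Ub k1 ≤ 2 ^ (L - k1) / 2 ^ (2 ^ i) := by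
      rw [hA, div_div, mul_comm, ← div_div]
      exact div_le_div_of_nonneg_right hLk (by positivity)
    have e3 : (4 : ℝ) ^ R * (2 ^ (L - k1) / 2 ^ (2 ^ i)) ≤ Ce * 2 ^ (L - k1) * (1 / 2) ^ (Q * i) := by
      have e4 := hexp i
      have e5 : (4 : ℝ) ^ R * 2 ^ (Q * i) ≤ (2 : ℝ) ^ ((2 * D1 + Q) * (i + 1)) := by
        rw [show (4 : ℝ) = 2 ^ 2 by norm_num, ← pow_mul, ← pow_add]
        refine pow_le_pow_right₀ (by norm_num) ?_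
        rw [hR]
        nlinarith
      rw [div_le_iff₀ (by positivity)] at e4
      rw [hq, ← mul_div_assoc, ← div_eq_mul_inv, div_le_div_iff₀ (by positivity) (by positivity)]
      calc (4 : ℝ) ^ R * 2 ^ (L - k1) * 2 ^ (Q * i) = (4 ^ R * 2 ^ (Q * i)) * 2 ^ (L - k1) := by ring
        _ ≤ (Ce * 2 ^ (2 ^ i)) * 2 ^ (L - k1) := mul_le_mul_of_nonneg_right (e5.trans e4) (by positivity)
        _ = _ := by ring
    calc (4 : ℝ) ^ (k1 - e) * 4 ^ R * (A / Ub k1) ≤ (4 ^ 2 * 4 ^ c3) * 4 ^ R * (2 ^ (L - k1) / 2 ^ (2 ^ i)) := by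
          gcongr
      _ = (4 ^ 2 * 4 ^ c3) * (4 ^ R * (2 ^ (L - k1) / 2 ^ (2 ^ i))) := by ring
      _ ≤ _ := by gcongr
  have t3 : (4 : ℝ) ^ (k1 - e) * (2 : ℝ) ^ (-(c * ((e : ℝ) - ((e - R : ℕ) : ℝ)))) ≤
      4 ^ 2 * 4 ^ c3 * (2 ^ (L - k1) * (1 / 2) ^ (Q * i)) := by
    calc (4 : ℝ) ^ (k1 - e) * (2 : ℝ) ^ (-(c * ((e : ℝ) - ((e - R : ℕ) : ℝ)))) ≤ 4 ^ 2 * 4 ^ c3 * (1 / 2) ^ (Q * i) := by
          gcongr
      _ = 4 ^ 2 * 4 ^ c3 * (1 * (1 / 2) ^ (Q * i)) := by rw [one_mul]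
      _ ≤ _ := by gcongr
  calc K * (1 + UU (2 ^ (k1 + J)) / Ub k1) ^ 2 * (4 ^ (k1 - e) * (2 : ℝ) ^ (-(c * ((e : ℝ) - ((e - R : ℕ) : ℝ)))) +
        4 ^ (k1 - (e - R)) * (A / Ub k1))
      ≤ K * (4 * 4 ^ J) * (4 ^ 2 * 4 ^ c3 * (2 ^ (L - k1) * (1 / 2) ^ (Q * i)) +
        4 ^ 2 * 4 ^ c3 * (Ce * 2 ^ (L - k1) * (1 / 2) ^ (Q * i))) := by
        gcongr
    _ = K * 4 * 4 ^ 2 * (1 + Ce) * 4 ^ (J + c3) * 2 ^ (L - k1) * (1 / 2) ^ (Q * i) := by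
        rw [pow_add 4 J c3]
        ring

end EN

end HexObs
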