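import Pool.Agent.EN.EmoDefs
import Pool.Agent.EN.TallN
import Pool.Agent.NTA.Crude
import Pool.Agent.NTA.LongQ
import Pool.Agent.NTW.ShortE

/-!
EN (every number of letters): the norm of the short leaves is smaller than every power of the ratio.
-/

set_option autoImplicit false

namespace HexObs

namespace EN

open Finset TS SDN NTW NTA

open scoped ENNReal

namespace ShM

lemma AS_mono {x x' d d' : ℝ} (hx : x' ≤ x) (hd : d ≤ d') (h : NTm.AS x d) : NTm.AS x' d' := by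
  intro N
  refine le_trans (Finset.sum_le_sum fun j _ => ?_) ((h N).trans (ENNReal.ofReal_le_ofReal hd))
  exact gf_mono fun Z hZ => ⟨hZ.1, lt_of_lt_of_le hZ.2 hx⟩

/-- every class of leaves of the box -/
theorem SmD_box : ∃ K : ℝ, 1 ≤ K ∧ ∀ k J : ℕ, SmD DmJ k (BrR (2 ^ (k + 4)) (2 ^ (k + J))) (K * 2 ^ J) := by
  obtain ⟨C, δ, h⟩ := inp_exists
  obtain ⟨K1, hK1, h1⟩ := nextD_of h (ssA h) (ssThree h)
  obtain ⟨K2, hK2, h2⟩ := DmJ_pair (ssA h) (ssBoth h)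
  refine ⟨16 * (K1 + K2), by linarith, fun k J => ?_⟩
  have hU := Ub_pos k
  have hN : UU (2 ^ (k + (J + 4))) ≤ 2 ^ (J + 4) * Ub k := Sc.Ub_shift k (J + 4)
  have hk : 2 ^ (k + 4) ≤ 2 ^ (k + (J + 4)) := Nat.pow_le_pow_right (by norm_num) (by omega)
  have hsub : BrR (2 ^ (k + 4)) (2 ^ (k + J)) ⊆ BrR (2 ^ (k + 4)) (2 ^ (k + (J + 4))) := by
    rintro g ⟨j, j1, j2, j3⟩
    exact ⟨j, j1, j2.trans (Nat.pow_le_pow_right (by norm_num) (by omega)), j3⟩
  refine QF.SmD_mono hsub ?_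
  have e16 : (2 : ℝ) ^ (J + 4) = 16 * 2 ^ J := by
    rw [pow_add]
    norm_num
    ring
  refine ⟨fun x Φ hΦ => ?_, fun y x Ψ Φ hΨ hF hΦ => ?_⟩
  · refine (h1 (2 ^ (k + 4)) k k (2 ^ (k + 4)) (2 ^ (k + (J + 4))) x Φ hΦ.dom le_rfl le_rfl le_rfl hk).trans ?_
    refine mul_le_mul_left (ENNReal.ofReal_le_ofReal ?_) _
    have h3 : UU (2 ^ (k + (J + 4))) / Ub k ≤ 2 ^ (J + 4) := by
      rw [div_le_iff₀ hU]
      exact hN
    have h4 : K1 * (UU (2 ^ (k + (J + 4))) / Ub k) ≤ K1 * 2 ^ (J + 4) := mul_le_mul_of_nonneg_left h3 (by linarith)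
    refine h4.trans ?_
    rw [e16]
    have h5 : (0 : ℝ) ≤ 2 ^ J := by positivity
    nlinarith only [h5, hK1, hK2]
  · refine (h2 k x y Ψ Φ hΨ hΦ (2 ^ (k + (J + 4)))).trans (mul_le_mul_left (ENNReal.ofReal_le_ofReal ?_) _)
    have h3 : K2 * UU (2 ^ (k + (J + 4))) ≤ K2 * (2 ^ (J + 4) * Ub k) := mul_le_mul_of_nonneg_left hN (by linarith)
    refine h3.trans ?_
    rw [e16]
    have h5 : (0 : ℝ) ≤ 2 ^ J * Ub k := by positivity
    nlinarith only [h5, hK1, hK2]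

/-- a linear function against an exponential -/
lemma lin_pow (a : ℕ) : ∃ i0 : ℕ, ∀ i, i0 ≤ i → a * (i + 1) ≤ 2 ^ i := by
  have h1 : Filter.Tendsto (fun n : ℕ => (n : ℝ) ^ 1 / 2 ^ n) Filter.atTop (nhds 0) :=
    tendsto_pow_const_div_const_pow_of_one_lt 1 one_lt_two
  obtain ⟨i0, hi0⟩ := Filter.eventually_atTop.1 (h1.eventually (gt_mem_nhds (show (0 : ℝ) < 1 / (2 * a + 1) by positivity)))
  refine ⟨max i0 1, fun i hi => ?_⟩
  have h2 := hi0 i ((le_max_left _ _).trans hi)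
  have h3 : 1 ≤ i := (le_max_right _ _).trans hi
  have h3' : (1 : ℝ) ≤ i := by exact_mod_cast h3
  rw [pow_one, div_lt_div_iff₀ (by positivity) (by positivity)] at h2
  have h4 : ((a * (i + 1) : ℕ) : ℝ) ≤ ((2 ^ i : ℕ) : ℝ) := by
    push_cast
    have h5 : (0 : ℝ) ≤ a := Nat.cast_nonneg a
    nlinarith only [h2, h3', h5]
  exact_mod_cast h4

end ShM

open ShM in
/-- **the norm of the short leaves is smaller than every power** -/
theorem shortM {m : ℕ → ℝ} (hm : MLow m) (hg : MG m) (hs : MAS m) : ShortM m := by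
  obtain ⟨Ci, δi, hI⟩ := inp_exists
  obtain ⟨d1, C1, hd1, hC1, hq4⟩ := short_q4 hI (ssA hI)
  obtain ⟨d2, s2, k2, hd2, htall⟩ := NTm.tallV
  obtain ⟨K4, hK4, hcr⟩ := crude
  obtain ⟨K5, hK5, hall⟩ := SmD_box
  obtain ⟨C3, hC3, hg3⟩ := hg
  obtain ⟨c, C', hc, hC', hAS⟩ := hs
  have hg4 : ∀ k j : ℕ, m (k + j) ≤ C3 * 4 ^ j * m k := fun k j => by
    refine (hg3 k j).trans (mul_le_mul_of_nonneg_right ?_ (hm.pos k).le)
    refine mul_le_mul_of_nonneg_left ?_ (by linarith)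
    have e1 : (4 : ℝ) ^ j = (2 : ℝ) ^ (2 * (j : ℝ)) := by
      rw [Real.rpow_mul (by norm_num), Real.rpow_natCast]
      norm_num
    rw [e1]
    refine Real.rpow_le_rpow_of_exponent_le (by norm_num) ?_
    have : (0 : ℝ) ≤ j := Nat.cast_nonneg j
    linarith
  obtain ⟨d, hd⟩ : ∃ d, d = min d1 d2 := ⟨_, rfl⟩
  have hd0 : 0 < d := by rw [hd]; exact lt_min hd1 hd2
  have hdd1 : d ≤ d1 := by rw [hd]; exact min_le_left _ _
  have hdd2 : d ≤ d2 := by rw [hd]; exact min_le_right _ _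
  obtain ⟨J1, hJ1⟩ := NTW.Ub_small (ε := d / C') (by positivity)
  -- c4
  have hm0 := hm.pos 0
  obtain ⟨c4, hc4⟩ : ∃ c4 : ℕ, C3 * m 0 ≤ 2 ^ c4 := by
    obtain ⟨n, hn⟩ := pow_unbounded_of_one_lt (C3 * m 0) one_lt_two
    exact ⟨n, hn.le⟩
  obtain ⟨K0', hK0'⟩ : ∃ K0' : ℕ, C3 * 4 ^ J1 / c ≤ 2 ^ K0' := by
    obtain ⟨n, hn⟩ := pow_unbounded_of_one_lt (C3 * 4 ^ J1 / c) one_lt_two
    exact ⟨n, hn.le⟩
  obtain ⟨K0, hK0⟩ : ∃ K0, K0 = K0' + c4 + 2 * (J1 + s2 + k2 + 1) := ⟨_, rfl⟩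
  -- the weight of the short bridges
  have hAS' : ∀ (kc a : ℕ) (y : ℝ), a + J1 ≤ kc → y * (C3 * 4 ^ (a + J1)) ≤ c →
      NTm.AS (y * m kc) (d * Ub (kc - a)) := by
    intro kc a y h1 h2
    refine AS_mono ?_ ?_ (hAS (kc - a - J1))
    · rcases le_or_gt y 0 with hy | hy
      · have := (hm.pos kc).le
        have := (hm.pos (kc - a - J1)).le
        nlinarith
      have e1 := hg4 (kc - a - J1) (a + J1)
      rw [show kc - a - J1 + (a + J1) = kc by omega] at e1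
      calc y * m kc ≤ y * (C3 * 4 ^ (a + J1) * m (kc - a - J1)) := by gcongr
        _ = y * (C3 * 4 ^ (a + J1)) * m (kc - a - J1) := by ring
        _ ≤ c * m (kc - a - J1) := mul_le_mul_of_nonneg_right h2 (hm.pos _).le
    · have e2 := hJ1 (kc - a) (by omega)
      calc C' * Ub (kc - a - J1) ≤ C' * (d / C' * Ub (kc - a)) := by gcongr
        _ = d * Ub (kc - a) := by field_simp
  intro Q
  obtain ⟨C7, hC7⟩ : ∃ C7, C7 = C1 * (Q + 1) + 1 := ⟨_, rfl⟩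
  obtain ⟨i1, hi1⟩ := lin_pow (C1 * (Q + 1) * (K0 + 2))
  obtain ⟨Ce, hCe, hexp⟩ := exp_exp ((5 * C7 + Q + 1) * (2 + 2 * s2 + K0))
  obtain ⟨b0, hb0⟩ : ∃ b0, b0 = K0 + 2 * (i1 + s2 + 1) := ⟨_, rfl⟩
  refine ⟨K5 * 2 ^ (Q * b0) + C1 + K4 * Ce, ?_, ?_⟩
  · have h1 : (1 : ℝ) ≤ 2 ^ (Q * b0) := one_le_pow₀ (by norm_num)
    have h2 : (0 : ℝ) ≤ C1 := Nat.cast_nonneg C1
    have h3 : 0 ≤ K4 * Ce := by positivity
    nlinarith only [h1, h2, h3, hK5]
  intro kc J y hy0 hy1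
  obtain ⟨A, hA⟩ : ∃ A : ℝ, A = K5 * 2 ^ (Q * b0) + C1 + K4 * Ce := ⟨_, rfl⟩
  rw [← hA]
  have hC1r : (0 : ℝ) ≤ C1 := Nat.cast_nonneg C1
  have hA1 : K5 * 2 ^ (Q * b0) ≤ A := by
    rw [hA]
    have h3 : 0 ≤ K4 * Ce := by positivity
    linarith
  have hA2 : (C1 : ℝ) ≤ A := by
    rw [hA]
    have h3 : 0 ≤ K4 * Ce := by positivity
    have h4 : 0 ≤ K5 * 2 ^ (Q * b0) := by positivity
    linarith
  have hA3 : K4 * Ce ≤ A := by
    rw [hA]
    have h4 : 0 ≤ K5 * 2 ^ (Q * b0) := by positivity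
    linarith
  have hA0 : 0 ≤ A := hC1r.trans hA2
  obtain ⟨b, hb2, hb1⟩ := exists_nat_pow_near_of_lt_one (x := y) (y := 1 / 2) hy0 hy1 (by norm_num) (by norm_num)
  have hyQ : ((1 / 2 : ℝ)) ^ (Q * (b + 1)) ≤ y ^ Q := by
    rw [mul_comm, pow_mul]
    exact pow_le_pow_left₀ (by positivity) hb2.le Q
  have h2J : (2 : ℝ) ^ J ≤ 4 ^ J := pow_le_pow_left₀ (by norm_num) (by norm_num) J
  have h4J : (1 : ℝ) ≤ 4 ^ J := one_le_pow₀ (by norm_num)
  rcases Nat.lt_or_ge b b0 with hb | hb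
  · -- the ratio is bounded below
    refine SmD_le ?_ (QF.SmD_mono (fun g hg => hg.1) (hall kc J))
    have e1 : ((1 / 2 : ℝ)) ^ (Q * b0) ≤ y ^ Q := by
      refine le_trans ?_ hyQ
      exact pow_le_pow_of_le_one (by norm_num) (by norm_num) (Nat.mul_le_mul_left _ (by omega))
    have e2 : K5 ≤ A * y ^ Q := by
      calc K5 = K5 * 2 ^ (Q * b0) * (1 / 2) ^ (Q * b0) := by
            rw [mul_assoc, ← mul_pow]
            norm_num
        _ ≤ A * y ^ Q := by gcongr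
    calc K5 * 2 ^ J ≤ (A * y ^ Q) * 4 ^ J := by gcongr
      _ = A * 4 ^ J * y ^ Q := by ring
  -- the numbers
  have hbK : K0 ≤ b := by omega
  obtain ⟨a, ha⟩ : ∃ a, a = (b - K0) / 2 := ⟨_, rfl⟩
  have ha1 : 2 * a ≤ b - K0 := by omega
  have ha2 : b ≤ 2 * a + K0 + 1 := by omega
  have ha3 : i1 + s2 + 1 ≤ a := by omega
  rcases le_or_gt (y * m kc) (2 ^ kc) with hsmall | hbig
  · -- no leaf
    have hemp : NTm.SL kc J (y * m kc) = ∅ := by
      rw [Set.eq_empty_iff_forall_notMem]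
      rintro g ⟨⟨j, j1, -, j3⟩, g2⟩
      have h1 := P2_aux.brd_len j3
      have h2 : (j : ℝ) ≤ g.length := by exact_mod_cast h1
      have h3 : ((2 ^ (kc + 4) : ℕ) : ℝ) ≤ j := by exact_mod_cast j1
      have h4 : (2 : ℝ) ^ kc ≤ ((2 ^ (kc + 4) : ℕ) : ℝ) := by
        push_cast
        exact pow_le_pow_right₀ (by norm_num) (by omega)
      linarith
    have h0 : gf (∅ : Set (List Bool)) ≤ ENNReal.ofReal 0 := by simp [gf]
    rw [hemp]
    refine SmD_le ?_ (hcr kc ∅ 0 le_rfl (Set.empty_subset _) h0)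
    rw [mul_zero]
    positivity
  have hkb : b ≤ kc + c4 := by
    have e1 := hg4 0 kc
    rw [Nat.zero_add] at e1
    have e2 : (2 : ℝ) ^ kc < (1 / 2) ^ b * (2 ^ c4 * 4 ^ kc) := by
      calc (2 : ℝ) ^ kc < y * m kc := hbig
        _ ≤ (1 / 2) ^ b * (C3 * 4 ^ kc * m 0) := by
            refine mul_le_mul hb1 e1 (hm.pos _).le (by positivity)
        _ = (1 / 2) ^ b * ((C3 * m 0) * 4 ^ kc) := by ring
        _ ≤ _ := by gcongr
    have e3 : (2 : ℝ) ^ b < 2 ^ (kc + c4) := by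
      have e4 : (4 : ℝ) ^ kc = 2 ^ kc * 2 ^ kc := by
        rw [← mul_pow]
        norm_num
      rw [e4, one_div_pow] at e2
      have hp : (0 : ℝ) < 2 ^ b := by positivity
      have hk : (0 : ℝ) < 2 ^ kc := by positivity
      have e5 : 1 / (2 : ℝ) ^ b * (2 ^ c4 * (2 ^ kc * 2 ^ kc)) = (2 ^ (kc + c4) * 2 ^ kc) / 2 ^ b := by
        rw [pow_add]
        ring
      rw [e5, lt_div_iff₀ hp, mul_comm] at e2
      exact lt_of_mul_lt_mul_right e2 hk.le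
    exact ((pow_lt_pow_iff_right₀ one_lt_two).1 e3).le
  have hakc : 2 * a + 2 * (J1 + s2 + k2 + 1) ≤ kc := by omega
  have hyc : y * (C3 * 4 ^ (a + J1)) ≤ c := by
    have e1 : (4 : ℝ) ^ a ≤ 2 ^ (b - K0) := by
      rw [show (4 : ℝ) = 2 ^ 2 by norm_num, ← pow_mul]
      exact pow_le_pow_right₀ (by norm_num) ha1
    have e2 : (2 : ℝ) ^ K0' ≤ 2 ^ K0 := pow_le_pow_right₀ (by norm_num) (by omega)
    rw [div_le_iff₀ hc] at hK0'
    calc y * (C3 * 4 ^ (a + J1)) ≤ (1 / 2) ^ b * (C3 * 4 ^ (a + J1)) := by gcongr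
      _ = (1 / 2) ^ b * (4 ^ a * (C3 * 4 ^ J1)) := by
          rw [pow_add]
          ring
      _ ≤ (1 / 2) ^ b * (2 ^ (b - K0) * (2 ^ K0 * c)) := by
          refine mul_le_mul_of_nonneg_left ?_ (by positivity)
          refine mul_le_mul e1 ?_ (by positivity) (by positivity)
          exact hK0'.trans (mul_le_mul_of_nonneg_right e2 hc.le)
      _ = (1 / 2) ^ b * 2 ^ (b - K0 + K0) * c := by
          rw [pow_add]
          ring
      _ = c := by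
          rw [Nat.sub_add_cancel hbK, ← mul_pow]
          norm_num
  have hASy := hAS' kc a y (by omega) hyc
  have hUa := Ub_pos (kc - a)
  rcases Nat.lt_or_ge kc (C1 * (Q * (b + 1) + 1) + a) with hkc | hkc
  · -- the deep range
    obtain ⟨H, hH⟩ : ∃ H : ℕ, H = 2 ^ (a - s2) := ⟨_, rfl⟩
    have hHk : H * 2 ^ (kc - a + s2) = 2 ^ kc := by
      rw [hH, ← pow_add]
      congr 1
      omega
    have htb := htall (kc - a) (y * m kc) (by omega) (AS_mono le_rfl (by gcongr) hASy) H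
      (by rw [hH]; exact Nat.one_le_two_pow)
    have hgf : gf (NTm.SL kc J (y * m kc)) ≤ ENNReal.ofReal (Ub kc / 2 ^ H) := by
      refine (gf_mono ?_).trans (htb.trans (ENNReal.ofReal_le_ofReal ?_))
      · rintro g ⟨⟨j, j1, -, j3⟩, g2⟩
        refine ⟨j, ?_, j3, g2⟩
        rw [hHk]
        exact le_trans (Nat.pow_le_pow_right (by norm_num) (by omega)) j1
      · exact div_le_div_of_nonneg_right (Ub_mono (by omega)) (by positivity)
    refine SmD_le ?_ (hcr kc _ _ (by have := Ub_pos kc; positivity) (fun g hg => BrR_HB hg.1) hgf)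
    have e1 : Ub kc ≤ 2 ^ (kc + 1) := NTA.LQ.Ub_le kc
    obtain ⟨i, hi⟩ : ∃ i, i = a - s2 := ⟨_, rfl⟩
    have hbi : b + 1 ≤ (2 + 2 * s2 + K0) * (i + 1) := by
      have : (2 + 2 * s2 + K0) * (i + 1) = (2 * i + 2 + 2 * s2 + K0) + (2 * s2 + K0) * i := by ring
      have : b + 1 ≤ 2 * i + 2 + 2 * s2 + K0 := by omega
      omega
    have hkcb : kc ≤ C7 * (b + 1) := by
      rw [hC7]
      have e2 : (C1 * (Q + 1) + 1) * (b + 1) = C1 * (Q * (b + 1) + 1) + b + 1 + C1 * b := by ring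
      omega
    have hexp' := hexp i
    rw [← hi] at hH
    have e3 : K4 * 16 ^ kc * (Ub kc / 2 ^ H) ≤ K4 * (2 ^ ((5 * C7 + 1) * (b + 1)) / 2 ^ H) := by
      rw [mul_assoc]
      refine mul_le_mul_of_nonneg_left ?_ (by linarith)
      rw [← mul_div_assoc]
      refine div_le_div_of_nonneg_right ?_ (by positivity)
      calc (16 : ℝ) ^ kc * Ub kc ≤ 16 ^ kc * 2 ^ (kc + 1) := by gcongr
        _ = 2 ^ (5 * kc + 1) := by
            rw [show (16 : ℝ) = 2 ^ 4 by norm_num, ← pow_mul, ← pow_add]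
            congr 1
            ring
        _ ≤ 2 ^ ((5 * C7 + 1) * (b + 1)) := by
            refine pow_le_pow_right₀ (by norm_num) ?_
            have e4 : (5 * C7 + 1) * (b + 1) = 5 * (C7 * (b + 1)) + (b + 1) := by ring
            omega
    refine e3.trans ?_
    have e5 : (2 : ℝ) ^ ((5 * C7 + 1) * (b + 1)) / 2 ^ H ≤ Ce * y ^ Q := by
      have e6 : (2 : ℝ) ^ ((5 * C7 + 1) * (b + 1)) * 2 ^ (Q * (b + 1)) ≤ Ce * 2 ^ H := by
        rw [← pow_add]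
        rw [div_le_iff₀ (by positivity), ← hH] at hexp'
        refine le_trans (pow_le_pow_right₀ (by norm_num) ?_) hexp'
        calc (5 * C7 + 1) * (b + 1) + Q * (b + 1) = (5 * C7 + Q + 1) * (b + 1) := by ring
          _ ≤ (5 * C7 + Q + 1) * ((2 + 2 * s2 + K0) * (i + 1)) := Nat.mul_le_mul_left _ hbi
          _ = _ := by ring
      rw [div_le_iff₀ (by positivity)]
      calc (2 : ℝ) ^ ((5 * C7 + 1) * (b + 1)) =
          2 ^ ((5 * C7 + 1) * (b + 1)) * 2 ^ (Q * (b + 1)) * (1 / 2) ^ (Q * (b + 1)) := by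
            rw [mul_assoc, ← mul_pow]
            norm_num
        _ ≤ (Ce * 2 ^ H) * y ^ Q := by gcongr
        _ = _ := by ring
    calc K4 * (2 ^ ((5 * C7 + 1) * (b + 1)) / 2 ^ H) ≤ K4 * (Ce * y ^ Q) := by gcongr
      _ = (K4 * Ce) * 1 * y ^ Q := by ring
      _ ≤ A * 4 ^ J * y ^ Q := by gcongr
  · -- the main range
    have hlin : C1 * (Q * (b + 1) + 1) ≤ 2 ^ a := by
      refine le_trans ?_ (hi1 a (by omega))
      have e1 : b + 1 ≤ (K0 + 2) * (a + 1) := by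
        have : (K0 + 2) * (a + 1) = 2 * a + K0 + 2 + K0 * a := by ring
        omega
      calc C1 * (Q * (b + 1) + 1) ≤ C1 * ((Q + 1) * (b + 1)) := by
            refine Nat.mul_le_mul_left _ ?_
            have : (Q + 1) * (b + 1) = Q * (b + 1) + 1 + b := by ring
            omega
        _ ≤ C1 * ((Q + 1) * ((K0 + 2) * (a + 1))) := by gcongr
        _ = _ := by ring
    refine SmD_le ?_ (hq4 kc J a (Q * (b + 1)) (y * m kc) hlin hkc (AS_mono le_rfl (by gcongr) hASy))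
    gcongr

end EN

end HexObs
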