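import Pool.Agent.NTW.FactFA
import Pool.Agent.NTW.TailF
import Pool.Agent.NTA.TailEns
import Pool.Agent.NTA.Quan
import Pool.Agent.EN.TallN

/-!
EN: the words with less than m (k + 1) letters leave the boxes of the scales k + i with superpolynomially small weight.
-/

set_option autoImplicit false

namespace HexObs

namespace EN

open Finset TS SDN NTW NTA

open scoped ENNReal

/-- the short bridges of all heights, lower index a1 -/
def NumShort (m : ℕ → ℝ) (a1 : ℝ) : Prop := ∃ C : ℝ, 0 < C ∧ ∀ (k : ℕ) (y : ℝ), 0 < y → y ≤ 1 → 1 ≤ y * m k →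
  ∑' h : ℕ, gf {Z | Z ∈ Brd h ∧ (Z.length : ℝ) < y * m k} ≤ ENNReal.ofReal (C * y ^ a1 * Ub k)

/-- the bridges with at most m (k + 1) letters have a small part of the weight of the scale k + c -/
def ASm (m : ℕ → ℝ) : Prop := ∀ d : ℝ, 0 < d → ∃ c0 : ℕ, ∀ c, c0 ≤ c → ∀ k : ℕ, NTm.AS (m (k + 1) + 1) (d * Ub (k + c))

theorem asm_of {m : ℕ → ℝ} {a1 : ℝ} (ha : 0 < a1) (hm : MLow m) (hN : NumShort m a1) : ASm m := by
  obtain ⟨C, hC, hn⟩ := hN
  intro d hd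
  have hm0 := hm.pos 0
  obtain ⟨y0, hy0, hy1, hyC⟩ : ∃ y0 : ℝ, 0 < y0 ∧ y0 ≤ 1 ∧ C * y0 ^ a1 ≤ d := by
    refine ⟨min 1 ((d / C) ^ (1 / a1)), lt_min one_pos (by positivity), min_le_left _ _, ?_⟩
    have h1 : (min 1 ((d / C) ^ (1 / a1))) ^ a1 ≤ ((d / C) ^ (1 / a1)) ^ a1 :=
      Real.rpow_le_rpow (by positivity) (min_le_right _ _) ha.le
    rw [← Real.rpow_mul (by positivity), one_div, inv_mul_cancel₀ ha.ne', Real.rpow_one] at h1
    calc C * (min 1 ((d / C) ^ (1 / a1))) ^ a1 ≤ C * (d / C) := by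
          gcongr
          rw [one_div]
          exact h1
      _ = d := by field_simp
  obtain ⟨c1, hc1⟩ := exists_pow_lt_of_lt_one (show 0 < y0 / (1 + 1 / m 0) by positivity)
    (show (1 / 2 : ℝ) < 1 by norm_num)
  refine ⟨c1 + 1, fun c hc k N => ?_⟩
  obtain ⟨y, hy⟩ : ∃ y, y = (m (k + 1) + 1) / m (k + c) := ⟨_, rfl⟩
  have hmk := hm.pos (k + c)
  have hmk1 := hm.pos (k + 1)
  have e1 : y * m (k + c) = m (k + 1) + 1 := by
    rw [hy]
    field_simp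
  have hyp : 0 < y := by
    rw [hy]
    positivity
  have e2 : y ≤ y0 := by
    have h1 := hm.low (k + 1) (c - 1)
    rw [show k + 1 + (c - 1) = k + c by omega] at h1
    have h2 : (2 : ℝ) ^ c1 ≤ 2 ^ (5 / 4 * (((c - 1 : ℕ)) : ℝ)) := by
      rw [← Real.rpow_natCast]
      apply Real.rpow_le_rpow_of_exponent_le (by norm_num)
      have h3 : (c1 : ℝ) ≤ ((c - 1 : ℕ) : ℝ) := by exact_mod_cast (show c1 ≤ c - 1 by omega)
      have h4 : (0 : ℝ) ≤ c1 := Nat.cast_nonneg _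
      linarith
    have h3 : m 0 ≤ m (k + 1) := hm.mono (Nat.zero_le _)
    rw [hy, div_le_iff₀ hmk]
    have h4 : m (k + 1) + 1 ≤ (1 + 1 / m 0) * m (k + 1) := by
      have h5 : 1 ≤ 1 / m 0 * m (k + 1) := by
        rw [div_mul_eq_mul_div, one_mul, le_div_iff₀ hm0, one_mul]
        exact h3
      linarith
    have h5 : (1 + 1 / m 0) ≤ y0 * 2 ^ c1 := by
      have h6 : (0 : ℝ) < 1 + 1 / m 0 := by positivity
      rw [lt_div_iff₀ h6, one_div, inv_pow] at hc1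
      have h7 : (0 : ℝ) < 2 ^ c1 := by positivity
      calc (1 + 1 / m 0) = ((2 : ℝ) ^ c1)⁻¹ * (1 + 1 / m 0) * 2 ^ c1 := by field_simp
        _ ≤ y0 * 2 ^ c1 := by gcongr
    calc m (k + 1) + 1 ≤ (1 + 1 / m 0) * m (k + 1) := h4
      _ ≤ (y0 * 2 ^ c1) * m (k + 1) := by gcongr
      _ = y0 * (2 ^ c1 * m (k + 1)) := by ring
      _ ≤ y0 * (2 ^ (5 / 4 * (((c - 1 : ℕ)) : ℝ)) * m (k + 1)) := by gcongr
      _ ≤ y0 * m (k + c) := by gcongr
  have h2 := hn (k + c) y hyp (e2.trans hy1) (by rw [e1]; linarith)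
  rw [e1] at h2
  refine (ENNReal.sum_le_tsum _).trans (h2.trans (ENNReal.ofReal_le_ofReal ?_))
  have hU := Ub_pos (k + c)
  calc C * y ^ a1 * Ub (k + c) ≤ C * y0 ^ a1 * Ub (k + c) := by gcongr
    _ ≤ d * Ub (k + c) := by gcongr

/-- leaving a box in terms of the levels -/
theorem far_red : ∃ CD : ℝ, 1 ≤ CD ∧ ∀ (lam K : ℕ), 1 ≤ K → gf {t | t ∈ SAL lam ∧ t ∉ WL K} ≤
    ENNReal.ofReal CD * gf {t | t ∈ SAL lam ∧ ∃ n, n ≤ t.length ∧ (2 : ℝ) ^ K ≤ |((lev t n : ℤ) : ℝ)|} := by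
  obtain ⟨CD, hCD, hdir⟩ := dirRed
  refine ⟨1 + CD, by linarith, fun lam K hK => ?_⟩
  have hp : (2 : ℝ) ≤ 2 ^ K := by
    calc (2 : ℝ) = 2 ^ 1 := by norm_num
      _ ≤ 2 ^ K := pow_le_pow_right₀ (by norm_num) hK
  have a3 := hdir lam {t | ∃ n, n ≤ t.length ∧ 3 * (2 : ℝ) ^ K ≤ |((lvl true (vx oo up t n) : ℤ) : ℝ)|}
    {t | ∃ n, n ≤ t.length ∧ (2 : ℝ) ^ K ≤ |((lev t n : ℤ) : ℝ)|} (by
    rintro q t sg _ hq hsg h1 h2 ⟨n, hn, hn3⟩
    have c2 : lvl true (vx oo up t 0) = 0 := by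
      show ip oo (hd true) = 0
      decide
    have c3 := h1 0 (Nat.zero_le _)
    rw [c2, zero_sub, abs_neg] at c3
    have c3' : |((lvl true (vx oo up t q) : ℤ) : ℝ)| ≤ 2 := by exact_mod_cast c3
    rcases Nat.lt_or_ge n q with hiq | hiq
    · exfalso
      have c4 := h1 n hiq.le
      have c4' : |((lvl true (vx oo up t n) : ℤ) : ℝ) - ((lvl true (vx oo up t q) : ℤ) : ℝ)| ≤ 2 := by exact_mod_cast c4
      have c5 : |((lvl true (vx oo up t n) : ℤ) : ℝ)| ≤ 4 := by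
        calc |((lvl true (vx oo up t n) : ℤ) : ℝ)| = |(((lvl true (vx oo up t n) : ℤ) : ℝ) -
              ((lvl true (vx oo up t q) : ℤ) : ℝ)) + ((lvl true (vx oo up t q) : ℤ) : ℝ)| := by ring_nf
          _ ≤ _ := abs_add_le _ _
          _ ≤ 2 + 2 := add_le_add c4' c3'
          _ = 4 := by norm_num
      linarith
    · obtain ⟨n', rfl⟩ := Nat.exists_eq_add_of_le hiq
      have c4 := h2 n' hn
      refine ⟨n', by rw [List.length_drop]; omega, ?_⟩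
      have c5 : |lvl true (vx oo up t (q + n')) - lvl true (vx oo up t q)| = |lev (t.drop q) n'| := by
        rw [c4, abs_mul]
        rcases hsg with rfl | rfl
        · rw [abs_one, one_mul]
          rfl
        · rw [abs_neg, abs_one, one_mul]
          rfl
      have c6 : |((lvl true (vx oo up t (q + n')) : ℤ) : ℝ) - ((lvl true (vx oo up t q) : ℤ) : ℝ)| =
          |((lev (t.drop q) n' : ℤ) : ℝ)| := by
        have := congrArg (fun z : ℤ => (z : ℝ)) c5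
        simpa [Int.cast_abs] using this
      rw [← c6]
      have c7 : |((lvl true (vx oo up t (q + n')) : ℤ) : ℝ)| ≤
          |((lvl true (vx oo up t (q + n')) : ℤ) : ℝ) - ((lvl true (vx oo up t q) : ℤ) : ℝ)| +
            |((lvl true (vx oo up t q) : ℤ) : ℝ)| := by
        calc |((lvl true (vx oo up t (q + n')) : ℤ) : ℝ)| = |(((lvl true (vx oo up t (q + n')) : ℤ) : ℝ) -
              ((lvl true (vx oo up t q) : ℤ) : ℝ)) + ((lvl true (vx oo up t q) : ℤ) : ℝ)| := by ring_nf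
          _ ≤ _ := abs_add_le _ _
      linarith)
  have hsub : {t | t ∈ SAL lam ∧ t ∉ WL K} ⊆
      {t | t ∈ SAL lam ∧ ∃ n, n ≤ t.length ∧ (2 : ℝ) ^ K ≤ |((lev t n : ℤ) : ℝ)|} ∪
      {t | t ∈ SAL lam ∧ t ∈ {t | ∃ n, n ≤ t.length ∧
        3 * (2 : ℝ) ^ K ≤ |((lvl true (vx oo up t n) : ℤ) : ℝ)|}} := by
    rintro t ⟨ht, hw⟩
    have hw' : ∃ n, n ≤ t.length ∧ ∃ dir, 2 ^ K < |row dir (vx oo up t n)| := by
      by_contra hc
      push Not at hc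
      exact hw ⟨ht.1, hc⟩
    obtain ⟨n, hn, dir, hd⟩ := hw'
    have hlv : 3 * (2 : ℤ) ^ K ≤ |lvl dir (vx oo up t n)| := by
      unfold row at hd
      rcases lt_abs.1 hd with h | h
      · have : 3 * (2 : ℤ) ^ K ≤ lvl dir (vx oo up t n) := by omega
        exact this.trans (le_abs_self _)
      · have : 3 * (2 : ℤ) ^ K ≤ -lvl dir (vx oo up t n) := by omega
        exact this.trans (neg_le_abs _)
    have hlv' : 3 * (2 : ℝ) ^ K ≤ |((lvl dir (vx oo up t n) : ℤ) : ℝ)| := by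
      have c1 : ((3 * (2 : ℤ) ^ K : ℤ) : ℝ) ≤ ((|lvl dir (vx oo up t n)| : ℤ) : ℝ) := by exact_mod_cast hlv
      rw [Int.cast_abs] at c1
      push_cast at c1
      exact c1
    cases dir with
    | false =>
      left
      refine ⟨ht, n, hn, ?_⟩
      have : lvl false (vx oo up t n) = lev t n := rfl
      rw [this] at hlv'
      linarith
    | true =>
      right
      exact ⟨ht, n, hn, hlv'⟩
  refine (gf_mono hsub).trans ((gf_union_le _ _).trans ?_)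
  rw [ENNReal.ofReal_add (by norm_num) (by linarith), add_mul, ENNReal.ofReal_one, one_mul]
  exact add_le_add le_rfl a3

open TA in
/-- **the cumulative tail of the range, direction false** -/
theorem sp_lev {m : ℕ → ℝ} (hA : ASm m) : ∃ (K : ℝ) (q0 : ℕ), 1 ≤ K ∧ ∀ (k lam : ℕ), (lam : ℝ) ≤ m (k + 1) → ∀ i : ℕ,
    gf {t | t ∈ SAL lam ∧ ∃ n, n ≤ t.length ∧ (2 : ℝ) ^ i * 2 ^ k ≤ |((lev t n : ℤ) : ℝ)|} ≤
      ENNReal.ofReal (K / 2 ^ (2 ^ (i - q0)) * Ub k) * Xb k ^ 2 := by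
  obtain ⟨Ci, δi, hI⟩ := inp_exists
  obtain ⟨K, d, s, k1, hK, hd, hs, hchain⟩ := chain_tail hI (ssA hI) ss3P ssDP (shortN (ssA hI)) finJ coverTwoR
  obtain ⟨Ke, hKe, hext⟩ := ext_of (ssA hI) ssDP coverTwoR pivotEx
  obtain ⟨c0, hc0⟩ := hA d hd
  obtain ⟨D, hD, hDX⟩ := Xb_pow
  obtain ⟨j0, hj0⟩ : ∃ j0, j0 = max c0 k1 := ⟨_, rfl⟩
  have hj1 : c0 ≤ j0 := by rw [hj0]; exact le_max_left _ _
  have hj2 : k1 ≤ j0 := by rw [hj0]; exact le_max_right _ _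
  obtain ⟨q0, hq0⟩ : ∃ q0, q0 = j0 + s + 3 := ⟨_, rfl⟩
  have hD0 : 0 < D := by linarith
  have hDp : 1 ≤ D ^ (2 * (j0 + 6)) := one_le_pow₀ hD
  have hK0 : 0 < K := by linarith
  have hKe0 : 0 < Ke := by linarith
  refine ⟨(Ke * 2 ^ (j0 + 5) + K * 2 ^ j0) * 2 * D ^ (2 * (j0 + 6)), q0, ?_, fun k lam hlam i => ?_⟩
  · have h1 : (1 : ℝ) ≤ 2 ^ j0 := one_le_pow₀ (by norm_num)
    have h2 : 1 ≤ K * 2 ^ j0 := one_le_mul_of_one_le_of_one_le hK h1
    have h3 : 0 < Ke * 2 ^ (j0 + 5) := by positivity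
    nlinarith
  have hU := Ub_pos k
  obtain ⟨kc, hkc⟩ : ∃ kc, kc = k + j0 := ⟨_, rfl⟩
  have hAS : NTm.AS ((lam : ℝ) + 1) (d * Ub kc) := by
    rw [hkc]
    exact NTm.AS_mono (by linarith) le_rfl (hc0 j0 hj1 k)
  obtain ⟨lam', hQ⟩ := QL_exists (kc + 5)
  have hX : Xb (kc + 6) ≤ ENNReal.ofReal (D ^ (j0 + 6)) * Xb k := by
    rw [hkc, add_assoc]
    exact hDX k (j0 + 6)
  have hbl : ∀ c j : ℕ, j ≤ kc + 6 → (bl c j) ^ 2 ≤ ENNReal.ofReal (D ^ (2 * (j0 + 6))) * Xb k ^ 2 := by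
    intro c j hj
    have h1 : bl c j ≤ ENNReal.ofReal (D ^ (j0 + 6)) * Xb k := (bl_le_Xb _ _).trans ((Xb_mono hj).trans hX)
    refine (pow_le_pow_left' h1 2).trans (le_of_eq ?_)
    rw [mul_pow, ← ENNReal.ofReal_pow (by positivity), ← pow_mul, mul_comm (j0 + 6) 2]
  have hch : ∀ V : ℕ, gf {t | t ∈ SAL lam ∧ ∃ (m u : ℕ) (e : ℕ → ℕ), Fd (kc + 5) t m u e ∧
      ∀ gs, RepG t m u e gs → V ≤ nV (kc + s) gs} ≤
      ENNReal.ofReal (K * 2 ^ j0 * Ub k / 2 ^ V) * (ENNReal.ofReal (D ^ (2 * (j0 + 6))) * Xb k ^ 2) := by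
    intro V
    refine (hchain kc lam lam' V (by omega) (QL_anti (by omega) hQ) hAS).trans
      (mul_le_mul' (ENNReal.ofReal_le_ofReal ?_) (hbl _ (kc + 6) le_rfl))
    have e1 : Ub kc ≤ 2 ^ j0 * Ub k := by
      rw [hkc]
      exact UU_ratio_up k j0
    apply div_le_div_of_nonneg_right _ (by positivity)
    calc K * Ub kc ≤ K * (2 ^ j0 * Ub k) := by gcongr
      _ = _ := by ring
  rcases Nat.lt_or_ge i q0 with hi | hi
  · -- all words
    have hsub : {t | t ∈ SAL lam ∧ ∃ n, n ≤ t.length ∧ (2 : ℝ) ^ i * 2 ^ k ≤ |((lev t n : ℤ) : ℝ)|} ⊆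
        {t | t ∈ SAL lam ∧ ∀ i i', i ≤ t.length → i' ≤ t.length → lev t i - lev t i' ≤ 3 * 2 ^ (kc + 5)} ∪
        {t | t ∈ SAL lam ∧ ∃ (m u : ℕ) (e : ℕ → ℕ), Fd (kc + 5) t m u e ∧ ∀ gs, RepG t m u e gs → 0 ≤ nV (kc + s) gs} := by
      rintro t ⟨ht, -⟩
      rcases fd_exists (b := kc + 5) (by omega) ht.1 with h1 | ⟨m, u, e, h1⟩
      · left
        refine ⟨ht, fun i i' a1 a2 => ?_⟩
        have := h1 i i' a1 a2
        unfold RR at this
        omega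
      · right
        exact ⟨ht, m, u, e, h1, fun _ _ => Nat.zero_le _⟩
    refine (gf_mono hsub).trans ((gf_union_le _ _).trans ?_)
    have a1 := (hext (kc + 5) lam lam' hQ).trans (mul_le_mul' le_rfl (hbl _ (kc + 5) (by omega)))
    refine (add_le_add a1 (hch 0)).trans ?_
    have e1 : Ub (kc + 5) ≤ 2 ^ (j0 + 5) * Ub k := by
      rw [hkc, add_assoc]
      exact UU_ratio_up k (j0 + 5)
    have hU5 := Ub_pos (kc + 5)
    rw [← add_mul, ← ENNReal.ofReal_add (by positivity) (by positivity), ← mul_assoc, ← ENNReal.ofReal_mul (by positivity)]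
    refine mul_le_mul_left (ENNReal.ofReal_le_ofReal ?_) _
    rw [Nat.sub_eq_zero_of_le hi.le]
    simp only [pow_zero, pow_one, div_one]
    have e4 : (0 : ℝ) ≤ D ^ (2 * (j0 + 6)) := by positivity
    calc (Ke * Ub (kc + 5) + K * 2 ^ j0 * Ub k) * D ^ (2 * (j0 + 6)) ≤
          (Ke * (2 ^ (j0 + 5) * Ub k) + K * 2 ^ j0 * Ub k) * D ^ (2 * (j0 + 6)) := by gcongr
      _ = (Ke * 2 ^ (j0 + 5) + K * 2 ^ j0) * 2 * D ^ (2 * (j0 + 6)) / 2 * Ub k := by ring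
      _ ≤ _ := le_rfl
  · -- far levels
    obtain ⟨V, hV⟩ : ∃ V, V = 2 ^ (i - q0) - 1 := ⟨_, rfl⟩
    have hV1 : V + 1 = 2 ^ (i - q0) := by
      have : 1 ≤ 2 ^ (i - q0) := Nat.one_le_two_pow
      omega
    have hsub : {t | t ∈ SAL lam ∧ ∃ n, n ≤ t.length ∧ (2 : ℝ) ^ i * 2 ^ k ≤ |((lev t n : ℤ) : ℝ)|} ⊆
        {t | t ∈ SAL lam ∧ ∃ (m u : ℕ) (e : ℕ → ℕ), Fd (kc + 5) t m u e ∧ ∀ gs, RepG t m u e gs → V ≤ nV (kc + s) gs} := by
      rintro t ⟨ht, n, hn, hlev⟩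
      have hlev' : (2 : ℤ) ^ (i + k) ≤ |lev t n| := by
        have : ((2 : ℝ)) ^ (i + k) ≤ |((lev t n : ℤ) : ℝ)| := by
          rw [pow_add]
          exact hlev
        exact_mod_cast this
      rcases fd_exists (b := kc + 5) (by omega) ht.1 with h1 | ⟨m, u, e, h1⟩
      · exfalso
        have b1 := h1 n 0 hn (Nat.zero_le _)
        have b2 := h1 0 n (Nat.zero_le _) hn
        rw [lev_zero] at b1 b2
        have b3 : |lev t n| < RR (kc + 5) := by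
          rw [abs_lt]
          constructor <;> linarith
        have b4 : (2 : ℤ) ^ (kc + 7) ≤ 2 ^ (i + k) := pow_le_pow_right₀ (by norm_num) (by omega)
        have b5 : (2 : ℤ) ^ (kc + 7) = 4 * 2 ^ (kc + 5) := by ring
        have b6 : (0 : ℤ) < 2 ^ (kc + 5) := by positivity
        unfold RR at b3
        linarith
      · refine ⟨ht, m, u, e, h1, fun gs hR => ?_⟩
        have b1 := lev_le hs h1 hR hn
        have b2 : (2 : ℤ) ^ (i + k) ≤ 8 * 2 ^ (kc + s) * ((nV (kc + s) gs : ℤ) + 1) := by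
          refine hlev'.trans (b1.trans ?_)
          have : (0 : ℤ) ≤ 2 ^ (kc + s) * ((nV (kc + s) gs : ℤ) + 1) := by positivity
          linarith
        have b3 : (2 : ℤ) ^ (i + k) = 8 * 2 ^ (kc + s) * 2 ^ (i - q0) := by
          have : (8 : ℤ) = 2 ^ 3 := by norm_num
          rw [this, ← pow_add, ← pow_add]
          congr 1
          omega
        rw [b3] at b2
        have b4 : (2 : ℤ) ^ (i - q0) ≤ (nV (kc + s) gs : ℤ) + 1 := le_of_mul_le_mul_left b2 (by positivity)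
        have b5 : 2 ^ (i - q0) ≤ nV (kc + s) gs + 1 := by exact_mod_cast b4
        omega
    refine (gf_mono hsub).trans ((hch V).trans ?_)
    rw [← mul_assoc, ← ENNReal.ofReal_mul (by positivity)]
    refine mul_le_mul_left (ENNReal.ofReal_le_ofReal ?_) _
    have e5 : (2 : ℝ) ^ (2 ^ (i - q0)) = 2 * 2 ^ V := by
      rw [← hV1, pow_succ']
    rw [e5]
    have e6 : (0 : ℝ) ≤ Ke * 2 ^ (j0 + 5) := by positivity
    have e7 : (0 : ℝ) < 2 ^ V := by positivity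
    have e8 : (0 : ℝ) ≤ D ^ (2 * (j0 + 6)) := by positivity
    calc K * 2 ^ j0 * Ub k / 2 ^ V * D ^ (2 * (j0 + 6)) = (0 + K * 2 ^ j0) * 2 * D ^ (2 * (j0 + 6)) / (2 * 2 ^ V) * Ub k := by
          field_simp
          ring
      _ ≤ _ := by gcongr

/-- **the cumulative spatial tail** -/
theorem sp_tail {m : ℕ → ℝ} (hA : ASm m) (Q : ℕ) : ∃ A : ℝ, 1 ≤ A ∧ ∀ (k i lam : ℕ), (lam : ℝ) ≤ m (k + 1) →
    1 ≤ k + i → gf {t | t ∈ SAL lam ∧ t ∉ WL (k + i)} ≤ ENNReal.ofReal (A * (1 / 2) ^ (Q * i) * Ub k) * Xb k ^ 2 := by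
  obtain ⟨K, q0, hK, hlev⟩ := sp_lev hA
  obtain ⟨CD, hCD, hred⟩ := far_red
  obtain ⟨Ce, hCe, hexp⟩ := exp_exp Q
  have hK0 : 0 < K := by linarith
  have hCD0 : 0 < CD := by linarith
  refine ⟨CD * K * (2 ^ (Q * q0) * Ce), ?_, fun k i lam hlam hki => ?_⟩
  · exact one_le_mul_of_one_le_of_one_le (one_le_mul_of_one_le_of_one_le hCD hK)
      (one_le_mul_of_one_le_of_one_le (one_le_pow₀ (by norm_num)) hCe)
  have hU := Ub_pos k
  have h1 := hlev k lam hlam i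
  have h2 := hred lam (k + i) hki
  have h3 : gf {t | t ∈ SAL lam ∧ t ∉ WL (k + i)} ≤
      ENNReal.ofReal CD * (ENNReal.ofReal (K / 2 ^ (2 ^ (i - q0)) * Ub k) * Xb k ^ 2) := by
    refine h2.trans (mul_le_mul_right ?_ _)
    refine le_trans (le_of_eq ?_) h1
    rw [pow_add, mul_comm ((2 : ℝ) ^ k)]
  refine h3.trans ?_
  rw [← mul_assoc, ← ENNReal.ofReal_mul hCD0.le]
  refine mul_le_mul_left (ENNReal.ofReal_le_ofReal ?_) _
  have e1 : 1 / (2 : ℝ) ^ (2 ^ (i - q0)) ≤ 2 ^ (Q * q0) * Ce * (1 / 2) ^ (Q * i) := by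
    have e2 := hexp (i - q0)
    have e3 : (2 : ℝ) ^ (Q * i) ≤ 2 ^ (Q * q0) * 2 ^ (Q * (i - q0 + 1)) := by
      rw [← pow_add, ← mul_add]
      exact pow_le_pow_right₀ (by norm_num) (Nat.mul_le_mul_left _ (by omega))
    rw [div_le_iff₀ (by positivity)] at e2
    rw [one_div_pow, mul_one_div, div_le_div_iff₀ (by positivity) (by positivity), one_mul]
    calc (2 : ℝ) ^ (Q * i) ≤ 2 ^ (Q * q0) * 2 ^ (Q * (i - q0 + 1)) := e3
      _ ≤ 2 ^ (Q * q0) * (Ce * 2 ^ (2 ^ (i - q0))) := by gcongr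
      _ = _ := by ring
  calc CD * (K / 2 ^ (2 ^ (i - q0)) * Ub k) = CD * K * Ub k * (1 / (2 : ℝ) ^ (2 ^ (i - q0))) := by ring
    _ ≤ CD * K * Ub k * (2 ^ (Q * q0) * Ce * (1 / 2) ^ (Q * i)) := by gcongr
    _ = _ := by ring

end EN

end HexObs
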