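import Pool.Agent.EN.Emo
import Pool.Agent.EN.ShortM
import Pool.Agent.EN.SpTail
import Pool.Agent.EN.ExtM

/-!
EN (every number of letters): the modulus at exactly n letters for the mean length of the bridges.
-/

set_option autoImplicit false

namespace HexObs

namespace EN

open Finset TS SDN NTW NTA

open scoped ENNReal

/-- the growth of the mean length -/
theorem mg_M : MG (fun k => PW.mZ (2 ^ k)) := by
  obtain ⟨a, C, ha, hC, h⟩ := PW.mZ_growth_32
  refine ⟨C, hC, fun k j => ?_⟩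
  have h1 := h (2 ^ k) (2 ^ (k + j)) Nat.one_le_two_pow (Nat.pow_le_pow_right (by norm_num) (by omega))
  have e1 : ((2 ^ (k + j) : ℕ) : ℝ) / ((2 ^ k : ℕ) : ℝ) = 2 ^ (j : ℝ) := by
    push_cast
    rw [pow_add, Real.rpow_natCast]
    field_simp
  rw [e1, ← Real.rpow_mul (by norm_num)] at h1
  have h2 : (2 : ℝ) ^ ((j : ℝ) * a) ≤ (2 : ℝ) ^ (3 / 2 * (j : ℝ)) := by
    apply Real.rpow_le_rpow_of_exponent_le (by norm_num)
    have : (0 : ℝ) ≤ j := Nat.cast_nonneg _
    nlinarith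
  have h3 := PW.mZ_nonneg (2 ^ k)
  have h4 : 0 ≤ C := by linarith
  refine h1.trans ?_
  show C * 2 ^ ((j : ℝ) * a) * PW.mZ (2 ^ k) ≤ C * 2 ^ (3 / 2 * (j : ℝ)) * PW.mZ (2 ^ k)
  gcongr

/-- the short bridges -/
theorem mas_of {m : ℕ → ℝ} (hm : MLow m) (h : ASm m) : MAS m := by
  obtain ⟨c0, h⟩ := h 1 one_pos
  refine ⟨1, 2 ^ c0, one_pos, by positivity, fun k => ?_⟩
  have h1 := h c0 le_rfl k
  refine ShM.AS_mono ?_ ?_ h1
  · have := m_mono hm (Nat.le_succ k)
    linarith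
  · rw [one_mul]
    exact UU_ratio_up k c0

/-- the norm of the short leaves, the mean length -/
theorem shortM_M (hA : ASm (fun k => PW.mZ (2 ^ k))) : ShortM (fun k => PW.mZ (2 ^ k)) :=
  shortM mlow_M mg_M (mas_of mlow_M hA)

/-- **the modulus at exactly n letters, the mean length** -/
theorem emow_M {J0 : ℕ} (hGB : GBm (fun k => PW.mZ (2 ^ k)) J0) (hA : ASm (fun k => PW.mZ (2 ^ k))) :
    EMOw (fun k => PW.mZ (2 ^ k)) :=
  emow_of mlow_M mup_M (ext_M hGB) (shortM_M hA) (markX hGB)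

end EN

end HexObs
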