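import Pool.Agent.EN.Seq
import Pool.Agent.NTA.RunFill

/-!
EN: the exact norm of the runs with enough leaves. A family of pairs (Gd i, Bd i) of leaf classes, Gd i of finite exact
norm, Bd i of small norm, gives the exact norm E; a run with J0 + 1 leaves more than its marks has this norm.
-/

set_option autoImplicit false

namespace HexObs

namespace EN

open Finset TS SDN NTW NTA

open scoped ENNReal

variable {Dm : ℕ → ℝ≥0∞ → (List Bool → ℝ≥0∞) → Prop} {kc : ℕ} {R : Set (List (List Bool))} {A S : Set (List Bool)}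
  {δ q E d : ℝ} {J0 : ℕ}

/-- good and bad leaves of the class A: the exact norm of one good leaf with J0 bad leaves is at most E -/
def GB (Dm : ℕ → ℝ≥0∞ → (List Bool → ℝ≥0∞) → Prop) (kc : ℕ) (A : Set (List Bool)) (J0 : ℕ) (E : ℝ) : Prop :=
  ∃ (I : ℕ) (Gd Bd : ℕ → Set (List Bool)) (G b : ℕ → ℝ), (∀ i ≤ I, 0 ≤ G i) ∧ (∀ i ≤ I, 0 ≤ b i) ∧
    (∀ i ≤ I, Gd i ⊆ A) ∧ (∀ i ≤ I, Bd i ⊆ A) ∧ (∀ i ≤ I, ∀ g ∈ A, g ∈ Gd i ∨ g ∈ Bd i) ∧
    (∀ i ≤ I, SmDX Dm kc (Gd i) (G i)) ∧ (∀ i ≤ I, SmD Dm kc (Bd i) (b i)) ∧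
    G 0 + ∑ i ∈ range I, G (i + 1) * b i ^ J0 + b I ^ (J0 + 1) ≤ E

lemma smD_anti {X Y : Set (List Bool)} (h : X ⊆ Y) (hY : SmD Dm kc Y δ) : SmD Dm kc X δ := by
  refine ⟨fun x Φ hΦ => (xT_mono fun t => ?_).trans (hY.near x Φ hΦ),
    fun y x Ψ Φ hΨ hf hΦ => (Rec8.sw_mono h fun _ _ => le_rfl).trans (hY.free y x Ψ Φ hΨ hf hΦ)⟩
  unfold vA
  exact Rec8.sw_mono (fun g hg => ⟨h hg.1, hg.2⟩) fun _ _ => le_rfl

/-- the box has a finite norm -/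
theorem smD_box : ∃ K : ℝ, 1 ≤ K ∧ ∀ kc mu : ℕ, SmD DmJ kc (BrR (2 ^ (kc + 4)) (2 ^ (kc + mu + 2))) (K * 2 ^ mu) := by
  obtain ⟨C, δ0, hI⟩ := inp_exists
  obtain ⟨K, hK, h⟩ := EX.allG dmP (ssA hI) ss3P ssDP
  refine ⟨K * 4, by linarith, fun kc mu => ?_⟩
  have e1 : K * 2 ^ (mu + 2) = K * 4 * 2 ^ mu := by ring
  rw [← e1]
  have h0 : HerD (2 ^ (kc + 4)) (fun _ => (0 : ℝ≥0∞)) := ⟨fun _ _ _ => le_rfl, fun _ _ _ _ => le_rfl⟩
  exact ⟨fun x Φ hΦ => (h kc mu _ _ (dmP.dm kc _ h0)).near x Φ hΦ, fun y x Ψ Φ hΨ _ hΦ => (h kc mu Ψ y hΨ).free x Φ hΦ⟩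

lemma inH_box {kc N : ℕ} : BrR (2 ^ (kc + 4)) N ⊆ HB (2 ^ (kc + 4)) := by
  rintro g ⟨h, h1, -, h2⟩
  exact ⟨h, h1, h2⟩

lemma Mk.toA {t s : ℕ} {gs : List (List Bool)} (h : Mk S A A s t gs) : Mk S A A s 0 gs := by
  induction h with
  | nil => exact Mk.nil
  | s h1 _ ih => exact Mk.s h1 ih
  | b h1 _ ih => exact Mk.a h1 ih
  | a h1 _ ih => exact Mk.a h1 ih

lemma MkX.toA {G : Set (List Bool)} {t s : ℕ} {gs : List (List Bool)} (h : MkX G S A A s t gs) :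
    MkX G S A A s 0 gs := by
  induction h with
  | g h1 h2 => exact MkX.g h1 h2.toA
  | s h1 _ ih => exact MkX.s h1 ih
  | b h1 _ ih => exact MkX.a h1 ih
  | a h1 _ ih => exact MkX.a h1 ih

/-- finite unions -/
lemma smRX_sum {Rf : ℕ → Set (List (List Bool))} {df : ℕ → ℝ} (I : ℕ) (h0 : ∀ i < I, 0 ≤ df i)
    (h : ∀ i < I, SmRX Dm kc (Rf i) (df i)) : SmRX Dm kc {gs | ∃ i < I, gs ∈ Rf i} (∑ i ∈ range I, df i) := by
  induction I with
  | zero =>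
    refine smRX_of_smR (smR_empty fun g ms h1 => ?_)
    obtain ⟨i, hi, -⟩ := h1
    omega
  | succ I ih =>
    rw [Finset.sum_range_succ]
    refine SmRX.anti (smRX_union (Finset.sum_nonneg fun i hi => h0 i (by
      rw [Finset.mem_range] at hi
      omega)) (h0 I (by omega)) (ih (fun i hi => h0 i (by omega)) fun i hi => h i (by omega)) (h I (by omega))) ?_
    rintro gs ⟨i, hi, h1⟩
    rcases Nat.lt_succ_iff_lt_or_eq.1 hi with h2 | h2
    · exact Or.inl ⟨i, h2, h1⟩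
    · rw [h2] at h1
      exact Or.inr h1

open Classical in
/-- **the exact norm of the runs of n leaves, s of them in S, and J0 + 1 more** -/
theorem smRX_marks (hDm : DmP Dm) (hAH : A ⊆ HB (2 ^ (kc + 4))) (hδ : 0 ≤ δ) (hq : 1 ≤ q) (hGB : GB Dm kc A J0 E)
    (hA : SmD Dm kc A q) (hS : SmD Dm kc S δ) (n s : ℕ) :
    SmRX Dm kc {gs | gs.length = n ∧ s + (J0 + 1) ≤ n ∧ (∀ g ∈ gs, g ∈ A) ∧
      s ≤ (gs.filter (fun g => decide (g ∈ S))).length} ((4 * q) ^ n * (δ ^ s * E)) := by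
  obtain ⟨I, Gd, Bd, G, b, hG0, hb0, hGA, hBA, hcov, hG, hB, hE⟩ := hGB
  have hS' : SmD Dm kc (S ∩ A) δ := smD_anti Set.inter_subset_left hS
  have hSH : S ∩ A ⊆ HB (2 ^ (kc + 4)) := Set.inter_subset_right.trans hAH
  have hGH : ∀ i ≤ I, Gd i ⊆ HB (2 ^ (kc + 4)) := fun i hi => (hGA i hi).trans hAH
  have hBH : ∀ i ≤ I, Bd i ⊆ HB (2 ^ (kc + 4)) := fun i hi => (hBA i hi).trans hAH
  have hq0 : 0 ≤ q := by linarith
  -- the three kinds
  have p0 : SmRX Dm kc {gs | gs.length = n ∧ MkX (Gd 0) (S ∩ A) A A s 0 gs} ((4 * q) ^ n * (G 0 * (δ ^ s * q ^ 0))) :=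
    smRX_Mk hDm (hGH 0 (Nat.zero_le _)) hSH hAH hAH (hG0 0 (Nat.zero_le _)) hδ hq0 hq (hG 0 (Nat.zero_le _)) hS' hA hA n s 0
  have p1 : SmRX Dm kc {gs | ∃ i < I, gs ∈ {gs | gs.length = n ∧ MkX (Gd (i + 1)) (S ∩ A) (Bd i) A s J0 gs}}
      (∑ i ∈ range I, (4 * q) ^ n * (G (i + 1) * (δ ^ s * b i ^ J0))) :=
    smRX_sum (Rf := fun i => {gs | gs.length = n ∧ MkX (Gd (i + 1)) (S ∩ A) (Bd i) A s J0 gs})
      (df := fun i => (4 * q) ^ n * (G (i + 1) * (δ ^ s * b i ^ J0))) I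
      (fun i hi => by
        have := hG0 (i + 1) (by omega)
        have := hb0 i (by omega)
        positivity) (fun i hi => smRX_Mk hDm (hGH (i + 1) (by omega)) hSH (hBH i (by omega)) hAH (hG0 (i + 1) (by omega)) hδ
        (hb0 i (by omega)) hq (hG (i + 1) (by omega)) hS' (hB i (by omega)) hA n s J0)
  have p2 : SmRX Dm kc {gs | gs.length = n ∧ Mk (S ∩ A) (Bd I) A s (J0 + 1) gs}
      ((3 * q) ^ n * (δ ^ s * b I ^ (J0 + 1))) :=
    smRX_of_smR (smR_Mk hDm hSH (hBH I le_rfl) hAH hδ (hb0 I le_rfl) hq hS' (hB I le_rfl) hA n s (J0 + 1))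
  have n0 : 0 ≤ (4 * q) ^ n * (G 0 * (δ ^ s * q ^ 0)) := by
    have := hG0 0 (Nat.zero_le _)
    positivity
  have n1 : 0 ≤ ∑ i ∈ range I, (4 * q) ^ n * (G (i + 1) * (δ ^ s * b i ^ J0)) := Finset.sum_nonneg fun i hi => by
    rw [Finset.mem_range] at hi
    have := hG0 (i + 1) (by omega)
    have := hb0 i (by omega)
    positivity
  have n2 : 0 ≤ (3 * q) ^ n * (δ ^ s * b I ^ (J0 + 1)) := by
    have := hb0 I le_rfl
    positivity
  refine SmRX.le (SmRX.anti (smRX_union (add_nonneg n0 n1) n2 (smRX_union n0 n1 p0 p1) p2) ?_) ?_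
  · rintro gs ⟨h1, h2, h3, h4⟩
    have h5 : (gs.filter (fun g => @decide (g ∈ S ∩ A) (Classical.propDecidable _))) =
        gs.filter (fun g => decide (g ∈ S)) := by
      refine List.filter_congr fun g hg => ?_
      have h6 : g ∈ S ∩ A ↔ g ∈ S := ⟨fun h => h.1, fun h => ⟨h, h3 g hg⟩⟩
      simp only [h6]
    have h6 : Mk (S ∩ A) A A s (J0 + 1) gs := mk_start gs s (J0 + 1) h3 (by rw [h5]; exact h4) (by omega)
    rcases mk_first (Gd := Gd) (Bd := Bd) (I := I) (fun g hg => hcov 0 (Nat.zero_le _) g hg)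
      (fun i hi g hg => hcov (i + 1) (by omega) g (hBA i (by omega) hg)) h6 with h7 | h7 | ⟨i, hi, h7⟩
    · exact Or.inr ⟨h1, h7⟩
    · exact Or.inl (Or.inl ⟨h1, h7.toA⟩)
    · exact Or.inl (Or.inr ⟨i, hi, h1, h7⟩)
  · have e1 : (3 * q) ^ n ≤ (4 * q) ^ n := pow_le_pow_left₀ (by positivity) (by linarith) n
    have e2 : 0 ≤ δ ^ s * b I ^ (J0 + 1) := by
      have := hb0 I le_rfl
      positivity
    have e3 : ∑ i ∈ range I, (4 * q) ^ n * (G (i + 1) * (δ ^ s * b i ^ J0)) =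
        (4 * q) ^ n * (δ ^ s * ∑ i ∈ range I, G (i + 1) * b i ^ J0) := by
      rw [Finset.mul_sum, Finset.mul_sum]
      exact Finset.sum_congr rfl fun i _ => by ring
    rw [e3, pow_zero, mul_one]
    calc (4 * q) ^ n * (G 0 * δ ^ s) + (4 * q) ^ n * (δ ^ s * ∑ i ∈ range I, G (i + 1) * b i ^ J0) +
          (3 * q) ^ n * (δ ^ s * b I ^ (J0 + 1))
        ≤ (4 * q) ^ n * (G 0 * δ ^ s) + (4 * q) ^ n * (δ ^ s * ∑ i ∈ range I, G (i + 1) * b i ^ J0) +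
          (4 * q) ^ n * (δ ^ s * b I ^ (J0 + 1)) := by gcongr
      _ = (4 * q) ^ n * (δ ^ s * (G 0 + ∑ i ∈ range I, G (i + 1) * b i ^ J0 + b I ^ (J0 + 1))) := by ring
      _ ≤ (4 * q) ^ n * (δ ^ s * E) := by gcongr

lemma GB.nonneg (h : GB Dm kc A J0 E) : 0 ≤ E := by
  obtain ⟨I, Gd, Bd, G, b, hG0, hb0, -, -, -, -, -, hE⟩ := h
  refine le_trans ?_ hE
  have h1 := hG0 0 (Nat.zero_le _)
  have h2 := hb0 I le_rfl
  have h3 : 0 ≤ ∑ i ∈ range I, G (i + 1) * b i ^ J0 := Finset.sum_nonneg fun i hi => by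
    rw [Finset.mem_range] at hi
    have := hG0 (i + 1) (by omega)
    have := hb0 i (by omega)
    positivity
  positivity

open Classical in
/-- at most m1 leaves -/
theorem smRX_marks_le (hDm : DmP Dm) (hAH : A ⊆ HB (2 ^ (kc + 4))) (hδ : 0 ≤ δ) (hq : 1 ≤ q) (hGB : GB Dm kc A J0 E)
    (hA : SmD Dm kc A q) (hS : SmD Dm kc S δ) (m1 s : ℕ) :
    SmRX Dm kc {gs | gs.length ≤ m1 ∧ s + (J0 + 1) ≤ gs.length ∧ (∀ g ∈ gs, g ∈ A) ∧
      s ≤ (gs.filter (fun g => decide (g ∈ S))).length} ((4 * q) ^ (m1 + 1) * (δ ^ s * E)) := by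
  have hE := hGB.nonneg
  have hq0 : 0 ≤ q := by linarith
  refine SmRX.le (SmRX.anti (smRX_sum (Rf := fun n => {gs | gs.length = n ∧ s + (J0 + 1) ≤ n ∧ (∀ g ∈ gs, g ∈ A) ∧
      s ≤ (gs.filter (fun g => decide (g ∈ S))).length}) (df := fun n => (4 * q) ^ n * (δ ^ s * E)) (m1 + 1)
      (fun i _ => by positivity) (fun i _ => smRX_marks hDm hAH hδ hq hGB hA hS i s)) ?_) ?_
  · rintro gs ⟨h1, h2, h3, h4⟩
    exact ⟨gs.length, by omega, rfl, h2, h3, h4⟩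
  · rw [← Finset.sum_mul]
    exact mul_le_mul_of_nonneg_right (RFl.sum_geo (by linarith) (m1 + 1)) (by positivity)

/-- **the fill runs, exact** -/
theorem smRX_fill (hDm : DmP Dm) {mu : ℕ} (hδ : 0 ≤ δ) (hq : 1 ≤ q)
    (hGB : GB Dm kc (BrR (2 ^ (kc + 4)) (2 ^ (kc + mu + 2))) J0 E)
    (hA : SmD Dm kc (BrR (2 ^ (kc + 4)) (2 ^ (kc + mu + 2))) q) (hS : SmD Dm kc S δ) (m1 J s : ℕ)
    (hJ : s + (J0 + 1) ≤ J) : SmRX Dm kc (RFill kc mu m1 J S) ((4 * q) ^ (m1 + 1) * (δ ^ s * E)) := by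
  classical
  refine SmRX.anti (smRX_marks_le hDm inH_box hδ hq hGB hA hS m1 s) ?_
  rintro gs ⟨h1, h2, h3⟩
  have h4 : (gs.tail.filter (fun g => decide (g ∈ S))).length ≤ gs.tail.length := List.length_filter_le _ _
  have h5 : gs.tail.length ≤ gs.length := by
    rw [List.length_tail]
    omega
  have h6 : (gs.tail.filter (fun g => decide (g ∈ S))).length ≤ (gs.filter (fun g => decide (g ∈ S))).length :=
    ((List.tail_sublist gs).filter _).length_le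
  exact ⟨h1, by omega, h2, by omega⟩

/-- **a class of runs and then J0 + 1 leaves** -/
theorem smRX_after (hDm : DmP Dm) (hAH : A ⊆ HB (2 ^ (kc + 4))) (hq : 1 ≤ q) (hd : 0 ≤ d) (hGB : GB Dm kc A J0 E)
    (hA : SmD Dm kc A q) (hRH : InH (2 ^ (kc + 4)) R) (hR : SmR Dm kc R d) :
    SmRX Dm kc {gs | ∃ a ∈ R, ∃ b : List (List Bool), a ≠ [] ∧ b.length = J0 + 1 ∧ (∀ g ∈ b, g ∈ A) ∧ gs = a ++ b}
      (d * ((4 * q) ^ (J0 + 1) * E)) := by
  classical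
  have hE := hGB.nonneg
  have h1 := smRX_marks hDm hAH (zero_le_one (α := ℝ)) hq hGB hA (δ := 1) (S := ∅)
    (⟨fun x Φ _ => by
        refine xT_le fun b I _ _ => ?_
        have e : (fun M => vA (2 ^ (kc + 4)) (∅ : Set (List Bool)) Φ (I ++ M)) = fun _ => 0 := by
          funext M
          unfold vA
          rw [Rec8.sw_ind]
          simp
        rw [e, Rec8.sw_zero]
        exact zero_le, fun y x Ψ Φ _ _ _ => by
        rw [Rec8.sw_ind]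
        simp⟩) (J0 + 1) 0
  rw [pow_zero, one_mul] at h1
  refine SmRX.anti (smRX_left hDm hRH ?_ hd (by positivity) hR h1) ?_
  · rintro gs ⟨-, -, h2, -⟩ g hg
    exact hAH (h2 g hg)
  · rintro gs ⟨a, ha, b, ha0, hb, hbA, rfl⟩
    refine ⟨a, ha, b, ⟨hb, by omega, hbA, Nat.zero_le _⟩, ha0, ?_, rfl⟩
    rintro rfl
    simp at hb

/-- **J0 + 1 leaves and then a class of runs** -/
theorem smRX_before (hDm : DmP Dm) (hAH : A ⊆ HB (2 ^ (kc + 4))) (hq : 1 ≤ q) (hd : 0 ≤ d) (hGB : GB Dm kc A J0 E)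
    (hA : SmD Dm kc A q) (hRH : InH (2 ^ (kc + 4)) R) (hR : SmR Dm kc R d) :
    SmRX Dm kc {gs | ∃ a ∈ R, ∃ b : List (List Bool), a ≠ [] ∧ b.length = J0 + 1 ∧ (∀ g ∈ b, g ∈ A) ∧ gs = b ++ a}
      ((4 * q) ^ (J0 + 1) * E * d) := by
  classical
  have hE := hGB.nonneg
  have h1 := smRX_marks hDm hAH (zero_le_one (α := ℝ)) hq hGB hA (δ := 1) (S := ∅)
    (⟨fun x Φ _ => by
        refine xT_le fun b I _ _ => ?_
        have e : (fun M => vA (2 ^ (kc + 4)) (∅ : Set (List Bool)) Φ (I ++ M)) = fun _ => 0 := by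
          funext M
          unfold vA
          rw [Rec8.sw_ind]
          simp
        rw [e, Rec8.sw_zero]
        exact zero_le, fun y x Ψ Φ _ _ _ => by
        rw [Rec8.sw_ind]
        simp⟩) (J0 + 1) 0
  rw [pow_zero, one_mul] at h1
  refine SmRX.anti (smRX_right hDm ?_ hRH (by positivity) hd h1 hR) ?_
  · rintro gs ⟨-, -, h2, -⟩ g hg
    exact hAH (h2 g hg)
  · rintro gs ⟨a, ha, b, ha0, hb, hbA, rfl⟩
    refine ⟨b, ⟨hb, by omega, hbA, Nat.zero_le _⟩, a, ha, ?_, ha0, rfl⟩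
    rintro rfl
    simp at hb

end EN

end HexObs
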