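import Pool.Agent.EN.DirX
import Pool.Agent.EN.Marks
import Pool.Agent.EN.ExDir
import Pool.Agent.NTA.TailDefs

/-!
EN (every number of letters): the literal statements for the modulus at exactly n letters.
-/

set_option autoImplicit false

namespace HexObs

namespace EN

open Finset TS SDN NTW NTA

open scoped ENNReal

/-- M moves of size at least R, alternately up and down, in the times 0, ..., N -/
def Alt (f : ℕ → ℤ) (N M : ℕ) (R : ℤ) : Prop := ∃ (τ : ℕ → ℕ) (s : ℤ), (s = 1 ∨ s = -1) ∧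
  (∀ j, j < M → τ j ≤ τ (j + 1)) ∧ (∀ j, j ≤ M → τ j ≤ N) ∧ ∀ j, j < M → R ≤ s * (-1) ^ j * (f (τ (j + 1)) - f (τ j))

/-- growth of the sequence, exponent 3 / 2 -/
def MG (m : ℕ → ℝ) : Prop := ∃ C : ℝ, 1 ≤ C ∧ ∀ k j : ℕ, m (k + j) ≤ C * (2 : ℝ) ^ (3 / 2 * (j : ℝ)) * m k

/-- the weight of the bridges with at most c m k letters is at most C Ub k -/
def MAS (m : ℕ → ℝ) : Prop := ∃ c C : ℝ, 0 < c ∧ 0 < C ∧ ∀ k, NTm.AS (c * m k) (C * Ub k)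

/-- the norm of the short leaves is smaller than every power -/
def ShortM (m : ℕ → ℝ) : Prop := ∀ Q : ℕ, ∃ A : ℝ, 1 ≤ A ∧ ∀ (kc J : ℕ) (y : ℝ), 0 < y → y ≤ 1 →
  SmD DmJ kc (NTm.SL kc J (y * m kc)) (A * 4 ^ J * y ^ Q)

/-- good and bad leaves, uniform in the box -/
def GBm (m : ℕ → ℝ) (J0 : ℕ) : Prop := ∃ (C : ℝ) (k0 : ℕ), 1 ≤ C ∧ ∀ k mu : ℕ, k0 ≤ k →
  GB DmJ k (BrR (2 ^ (k + 4)) (2 ^ (k + mu + 2))) J0 (C ^ (mu + 1) / m k)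

/-- tail of the time spent in the boxes, exactly n letters -/
def EXT (m : ℕ → ℝ) : Prop := ∃ C : ℝ, 1 ≤ C ∧ ∀ Q : ℕ, ∃ A : ℝ, 1 ≤ A ∧ ∀ (n K l : ℕ) (lam : ℝ), l ≤ K → 1 ≤ lam →
  gf {t | t.length = n ∧ t ∈ WL K ∧ ∃ x z, Bx (l + 2) t x z ∧ lam * m l ≤ (z : ℝ) - x} ≤
    ENNReal.ofReal (A / lam ^ Q * C ^ (K - l)) * (ENNReal.ofReal (Ub K / m K) * Xb K ^ 2)

/-- the runs of J0 + 2 leaves of the box, one of them in S -/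
def RS (J0 kc mu : ℕ) (S : Set (List Bool)) : Set (List (List Bool)) :=
  {gs | gs.length = J0 + 2 ∧ (∀ g ∈ gs, g ∈ BrR (2 ^ (kc + 4)) (2 ^ (kc + mu + 2))) ∧ ∃ g ∈ gs, g ∈ S}

/-- the exact norm of the runs with a leaf in S -/
def MarkX (m : ℕ → ℝ) (J0 : ℕ) : Prop := ∃ (C : ℝ) (k0 : ℕ), 1 ≤ C ∧ ∀ (kc mu : ℕ) (S : Set (List Bool)) (δ : ℝ),
  k0 ≤ kc → 0 ≤ δ → SmD DmJ kc S δ → SmRX DmJ kc (RS J0 kc mu S) (C ^ (mu + 1) * δ / m kc)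

/-- the event theorem at exactly n letters, leaves at the ends allowed, direction false -/
def EvX : Prop := ∃ (C : ℝ) (k0 : ℕ), 1 ≤ C ∧ ∀ (kc J n : ℕ) (R : Set (List (List Bool))) (δ : ℝ), k0 ≤ kc → 6 ≤ J →
  0 < δ → SmRX DmJ kc R δ →
  gf {t | t.length = n ∧ t ∈ ER kc J R} ≤ ENNReal.ofReal (C ^ J * δ * Ub (kc + J)) * Xb (kc + J) ^ 2

end EN

end HexObs
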