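import Pool.Agent.NTA.TailDefs
import Pool.Agent.NTS.ExDefs
import Pool.Agent.SDN.CoarseW

/-!
EN (every number of letters): the Hoelder modulus, the modulus and the spatial tail of the uniform n-step walks, for every n,
from the exact modulus (EMOw), the exact spatial tail (ESPw) and the pointwise upper bound (AllX).
-/

set_option autoImplicit false

namespace HexObs

namespace EN

open Finset TS SDN NTW NTA

open scoped ENNReal

/-- displacement at least 2 ^ s in at most x steps -/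
def DE (s : ℕ) (x : ℝ) : Set (List Bool) := {t | ∃ (dir : Bool) (i j : ℕ), i ≤ j ∧ j ≤ t.length ∧ (j : ℝ) - i ≤ x ∧
  2 ^ s ≤ |lvl dir (vx oo up t j) - lvl dir (vx oo up t i)|}

/-- the exact modulus: displacement at least 2 ^ s in at most dl * m s steps, outside of a small set -/
def EMOw (m : ℕ → ℝ) : Prop := ∃ C : ℝ, 1 ≤ C ∧ ∀ (Q i : ℕ) (η : ℝ), 0 < η → ∃ (J1 k0 : ℕ) (A : ℝ), 0 < A ∧
  ∀ k n : ℕ, k0 ≤ k → m k ≤ n → (n : ℝ) < m (k + 1) → ∃ B : Set (List Bool),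
  gf B ≤ ENNReal.ofReal η * nuX m k ∧ ∀ (s : ℕ) (dl : ℝ), s + J1 ≤ k → 0 < dl → dl ≤ 1 →
  gf {t | t ∈ WL (k + i) ∧ t.length = n ∧ t ∉ B ∧ t ∈ DE s (dl * m s)} ≤
    ENNReal.ofReal (A * dl ^ Q * C ^ (k - s)) * nuX m k

/-- the exact spatial tail -/
def ESPw (m : ℕ → ℝ) : Prop := ∀ Q : ℕ, ∃ (A : ℝ) (i0 k0 : ℕ), 0 < A ∧ ∀ k i n : ℕ, k0 ≤ k → i0 ≤ i → m k ≤ n →
  (n : ℝ) < m (k + 1) → gf {t | t ∈ WL (k + i) ∧ t ∉ WL (k + i - 1) ∧ t.length = n} ≤
    ENNReal.ofReal (A / 2 ^ (Q * i)) * nuX m k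

/-- the pointwise upper bound -/
def AllX (m : ℕ → ℝ) : Prop := ∃ (C : ℝ) (k0 : ℕ), 0 < C ∧ ∀ k n : ℕ, k0 ≤ k → m k ≤ n → n < m (k + 1) →
  gf (SawN n) ≤ ENNReal.ofReal C * nuX m k

/-! ### 1. The levels -/

lemma dx_dirs (t : List Bool) (i : ℕ) : dx up t i ∈ dirs := by
  induction i with
  | zero =>
    rw [show dx up t 0 = up from rfl]
    decide
  | succ i ih =>
    rw [dx_succ, mem_dirs, nrm_turn]
    exact mem_dirs.1 ih

lemma lvl_add (dir : Bool) (v w : Pt) : lvl dir (v + w) = lvl dir v + lvl dir w := by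
  cases dir <;> simp only [lvl, ip, hd, up, Prod.fst_add, Prod.snd_add] <;> ring

lemma abs_lvl_dirs (dir : Bool) : ∀ d ∈ dirs, |lvl dir d| ≤ 2 := by
  cases dir <;> decide

lemma lvl_lip (dir : Bool) (t : List Bool) (i : ℕ) : |lvl dir (vx oo up t i)| ≤ 2 * i := by
  induction i with
  | zero =>
    rw [show vx oo up t 0 = oo from rfl]
    cases dir <;> simp [lvl, ip, hd, oo]
  | succ i ih =>
    rw [vx_succ, lvl_add]
    have h1 := abs_lvl_dirs dir _ (dx_dirs t i)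
    rw [abs_le] at h1 ih ⊢
    push_cast
    constructor <;> linarith [h1.1, h1.2, ih.1, ih.2]

lemma exists_WL {t : List Bool} (ht : t ∈ SA) : ∃ K : ℕ, t ∈ WL K := by
  obtain ⟨K, hK⟩ : ∃ K : ℕ, 2 * t.length ≤ 2 ^ K := ⟨2 * t.length, Nat.lt_two_pow_self.le⟩
  refine ⟨K, ht, fun i hi dir => ?_⟩
  have h1 := lvl_lip dir t i
  have h2 : (2 : ℤ) * i ≤ 2 ^ K := by
    have : 2 * i ≤ 2 ^ K := le_trans (by omega) hK
    exact_mod_cast this
  unfold row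
  rw [abs_le] at h1 ⊢
  generalize (2 : ℤ) ^ K = X at *
  constructor <;> omega

/-! ### 2. The spatial tail -/

/-- out of the box of the scale k + i -/
theorem tail_out {m : ℕ → ℝ} (hS : ESPw m) (Q : ℕ) : ∃ (A : ℝ) (i0 k0 : ℕ), 0 < A ∧ ∀ k i n : ℕ, k0 ≤ k → i0 ≤ i →
    m k ≤ n → (n : ℝ) < m (k + 1) →
    gf {t | t ∈ SA ∧ t.length = n ∧ t ∉ WL (k + i)} ≤ ENNReal.ofReal (A / 2 ^ (Q * i)) * nuX m k := by
  obtain ⟨A, i0, k0, hA, h⟩ := hS (Q + 1)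
  refine ⟨2 * A, i0, k0, by positivity, fun k i n hk hi h1 h2 => ?_⟩
  have hsub : {t | t ∈ SA ∧ t.length = n ∧ t ∉ WL (k + i)} ⊆
      ⋃ j : ℕ, {t | t ∈ WL (k + (i + 1 + j)) ∧ t ∉ WL (k + (i + 1 + j) - 1) ∧ t.length = n} := by
    rintro t ⟨ht, hn, ho⟩
    have hex := exists_WL ht
    classical
    have h3 := Nat.find_spec hex
    have h4 : k + i < Nat.find hex := by
      by_contra hc
      exact ho (WL_mono (by omega) h3)
    have h5 : t ∉ WL (Nat.find hex - 1) := Nat.find_min hex (by omega)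
    rw [Set.mem_iUnion]
    refine ⟨Nat.find hex - k - i - 1, ?_, ?_, hn⟩
    · rw [show k + (i + 1 + (Nat.find hex - k - i - 1)) = Nat.find hex by omega]
      exact h3
    · rw [show k + (i + 1 + (Nat.find hex - k - i - 1)) - 1 = Nat.find hex - 1 by omega]
      exact h5
  refine (gf_mono hsub).trans ((Crw.gf_iUnion_le _).trans ?_)
  have h3 : ∀ j : ℕ, gf {t | t ∈ WL (k + (i + 1 + j)) ∧ t ∉ WL (k + (i + 1 + j) - 1) ∧ t.length = n} ≤
      ENNReal.ofReal (A / 2 ^ (Q * i) * (1 / 2) ^ j) * nuX m k := by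
    intro j
    refine (h k (i + 1 + j) n hk (by omega) h1 h2).trans (mul_le_mul_left (ENNReal.ofReal_le_ofReal ?_) _)
    have h4 : (2 : ℝ) ^ (Q * i) * 2 ^ j ≤ 2 ^ ((Q + 1) * (i + 1 + j)) := by
      rw [← pow_add]
      exact pow_le_pow_right₀ (by norm_num) (by nlinarith [Nat.zero_le (Q * j), Nat.zero_le (Q * i)])
    calc A / 2 ^ ((Q + 1) * (i + 1 + j)) ≤ A / (2 ^ (Q * i) * 2 ^ j) := by gcongr
      _ = A / 2 ^ (Q * i) * (1 / 2) ^ j := by
        rw [one_div, inv_pow]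
        field_simp
  refine (ENNReal.tsum_le_tsum h3).trans ?_
  rw [ENNReal.tsum_mul_right]
  refine mul_le_mul_left ?_ _
  rw [← ENNReal.ofReal_tsum_of_nonneg (fun j => by positivity)
    ((summable_geometric_of_lt_one (by norm_num) (by norm_num)).mul_left _)]
  refine ENNReal.ofReal_le_ofReal (le_of_eq ?_)
  rw [tsum_mul_left, tsum_geometric_two]
  ring

lemma abs_lvl_WL {K : ℕ} {t : List Bool} (ht : t ∈ WL K) {i : ℕ} (hi : i ≤ t.length) (dir : Bool) :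
    |lvl dir (vx oo up t i)| ≤ 3 * 2 ^ K + 2 := by
  have h1 := ht.2 i hi dir
  rw [abs_le] at h1 ⊢
  unfold row at h1
  constructor <;> omega

/-- a large level: out of the box -/
lemma out_of_lvl {k i : ℕ} (hi : 3 ≤ i) {t : List Bool} {j : ℕ} (hj : j ≤ t.length) {dir : Bool}
    (h : (2 : ℝ) ^ i * 2 ^ k ≤ |((lvl dir (vx oo up t j) : ℤ) : ℝ)|) : t ∉ WL (k + (i - 3)) := by
  intro ht
  have h1 := abs_lvl_WL ht hj dir
  have h2 : (2 : ℤ) ^ i * 2 ^ k ≤ |lvl dir (vx oo up t j)| := by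
    rw [← Int.cast_abs] at h
    exact_mod_cast h
  have h3 : (2 : ℤ) ^ i * 2 ^ k = 8 * 2 ^ (k + (i - 3)) := by
    rw [show (8 : ℤ) = 2 ^ 3 by norm_num, ← pow_add, ← pow_add]
    congr 1
    omega
  have h4 : (1 : ℤ) ≤ 2 ^ (k + (i - 3)) := one_le_pow₀ (by norm_num)
  rw [h3] at h2
  linarith

/-- the tail of the displacement, any power -/
theorem tail_x {m : ℕ → ℝ} (hS : ESPw m) (hP : AllX m) (Q : ℕ) : ∃ (K : ℝ) (k0 : ℕ), 0 < K ∧ ∀ k n i : ℕ, k0 ≤ k →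
    m k ≤ n → n < m (k + 1) → gf {t | t ∈ SawN n ∧ ∃ (dir : Bool) (j : ℕ), j ≤ n ∧
      (2 : ℝ) ^ i * 2 ^ k ≤ |((lvl dir (vx oo up t j) : ℤ) : ℝ)|} ≤ ENNReal.ofReal (K / 2 ^ (Q * i)) * nuX m k := by
  obtain ⟨A, i0, k0, hA, h⟩ := tail_out hS Q
  obtain ⟨C, k1, hC, h0⟩ := hP
  refine ⟨2 ^ ((3 + i0) * Q) * (A + C), max k0 k1, by positivity, fun k n i hk hn1 hn2 => ?_⟩
  rcases Nat.lt_or_ge i (3 + i0) with hi | hi
  · refine (gf_mono fun t ht => ht.1).trans ((h0 k n (le_trans (le_max_right _ _) hk) hn1 hn2).trans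
      (mul_le_mul_left (ENNReal.ofReal_le_ofReal ?_) _))
    rw [le_div_iff₀ (by positivity)]
    have h1 : (2 : ℝ) ^ (Q * i) ≤ 2 ^ ((3 + i0) * Q) := pow_le_pow_right₀ (by norm_num) (by nlinarith)
    calc C * 2 ^ (Q * i) ≤ (A + C) * 2 ^ ((3 + i0) * Q) := by
          gcongr
          linarith
      _ = _ := by ring
  · have hsub : {t | t ∈ SawN n ∧ ∃ (dir : Bool) (j : ℕ), j ≤ n ∧
        (2 : ℝ) ^ i * 2 ^ k ≤ |((lvl dir (vx oo up t j) : ℤ) : ℝ)|} ⊆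
        {t | t ∈ SA ∧ t.length = n ∧ t ∉ WL (k + (i - 3))} := by
      rintro t ⟨ht, dir, j, hj, hx⟩
      exact ⟨ht.2, ht.1, out_of_lvl (by omega) (by rw [ht.1]; exact hj) hx⟩
    refine (gf_mono hsub).trans ((h k (i - 3) n (le_trans (le_max_left _ _) hk) (by omega) hn1 hn2).trans ?_)
    refine mul_le_mul_left (ENNReal.ofReal_le_ofReal ?_) _
    have h1 : (2 : ℝ) ^ (Q * i) = 2 ^ (3 * Q) * 2 ^ (Q * (i - 3)) := by
      rw [← pow_add]
      congr 1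
      obtain ⟨r, rfl⟩ := Nat.exists_eq_add_of_le (show 3 ≤ i by omega)
      rw [Nat.add_sub_cancel_left]
      ring
    have h3 : (0 : ℝ) < 2 ^ (3 * Q) := by positivity
    have h4 : (0 : ℝ) < 2 ^ (Q * (i - 3)) := by positivity
    have h5 : (2 : ℝ) ^ (3 * Q) ≤ 2 ^ ((3 + i0) * Q) := pow_le_pow_right₀ (by norm_num) (by nlinarith)
    rw [h1, ← mul_div_mul_left A _ h3.ne']
    gcongr
    linarith

/-- the tail of the end point, the power of the record -/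
theorem tail_fact {m : ℕ → ℝ} (hS : ESPw m) (hP : AllX m) : ∃ (K : ℝ) (k0 : ℕ), 0 < K ∧ ∀ k n i : ℕ, k0 ≤ k →
    m k ≤ n → n < m (k + 1) →
    gf {t | t ∈ SawN n ∧ ∃ dir : Bool, (2 : ℝ) ^ i * 2 ^ k ≤ |((lvl dir (vx oo up t n) : ℤ) : ℝ)|} ≤
      ENNReal.ofReal (K / 32 ^ i) * nuX m k := by
  obtain ⟨K, k0, hK, h⟩ := tail_x hS hP 5
  refine ⟨K, k0, hK, fun k n i hk h1 h2 => ?_⟩
  have h3 := h k n i hk h1 h2
  rw [show (2 : ℝ) ^ (5 * i) = 32 ^ i by rw [pow_mul]; norm_num] at h3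
  refine (gf_mono ?_).trans h3
  rintro t ⟨ht, dir, hx⟩
  exact ⟨ht, dir, n, le_rfl, hx⟩

/-! ### 3. The Hoelder modulus -/

/-- the numbers: from the Hoelder event to the event of the scale s -/
lemma time_of {M a c K x τ n mk ms : ℝ} {k s i0 : ℕ} (hM : 0 < M) (ha : 0 < a) (hn : 0 < n) (hτ : 0 < τ)
    (hx : M * 2 ^ k * (τ / n) ^ a ≤ x) (hxs : x ≤ 2 ^ (s + i0 + 4)) (hs : s ≤ k) (hnk : n ≤ mk)
    (hmk : mk ≤ K * 2 ^ (c * ((k + 1 - s : ℕ) : ℝ)) * ms) :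
    τ ≤ K * 2 ^ c * 2 ^ ((i0 + 4 : ℕ) / a : ℝ) * M ^ (-(1 / a)) * ((2 : ℝ) ^ (-(1 / a - c))) ^ (k - s) * ms := by
  have h1 : (τ / n) ^ a ≤ 2 ^ (s + i0 + 4) / (M * 2 ^ k) := by
    rw [le_div_iff₀ (by positivity)]
    calc (τ / n) ^ a * (M * 2 ^ k) = M * 2 ^ k * (τ / n) ^ a := by ring
      _ ≤ _ := hx.trans hxs
  have h2 : (2 : ℝ) ^ (s + i0 + 4) / (M * 2 ^ k) = 2 ^ (((i0 + 4 : ℕ) : ℝ) - ((k - s : ℕ) : ℝ)) * M⁻¹ := by
    rw [Real.rpow_sub (by norm_num), Real.rpow_natCast, Real.rpow_natCast]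
    have h3 : (2 : ℝ) ^ k = 2 ^ s * 2 ^ (k - s) := by
      rw [← pow_add]
      congr 1
      omega
    rw [h3, show s + i0 + 4 = s + (i0 + 4) by ring, pow_add 2 s]
    field_simp
  have h3 : τ / n ≤ (2 ^ (((i0 + 4 : ℕ) : ℝ) - ((k - s : ℕ) : ℝ)) * M⁻¹) ^ (1 / a) := by
    rw [← h2]
    have h4 : 0 ≤ τ / n := by positivity
    calc τ / n = ((τ / n) ^ a) ^ (1 / a) := by
          rw [← Real.rpow_mul h4, mul_one_div_cancel ha.ne', Real.rpow_one]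
      _ ≤ _ := Real.rpow_le_rpow (by positivity) h1 (by positivity)
  have h4 : (2 ^ (((i0 + 4 : ℕ) : ℝ) - ((k - s : ℕ) : ℝ)) * M⁻¹) ^ (1 / a) =
      2 ^ ((i0 + 4 : ℕ) / a : ℝ) * (2 : ℝ) ^ (-(((k - s : ℕ) : ℝ) / a)) * M ^ (-(1 / a)) := by
    rw [Real.mul_rpow (by positivity) (by positivity), ← Real.rpow_mul (by norm_num), Real.rpow_neg hM.le,
      Real.inv_rpow hM.le, ← Real.rpow_add (by norm_num)]
    congr 2
    ring
  rw [h4, div_le_iff₀ hn] at h3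
  refine h3.trans ?_
  have h5 : n ≤ K * 2 ^ (c * ((k + 1 - s : ℕ) : ℝ)) * ms := hnk.trans hmk
  have h6 : (2 : ℝ) ^ (c * ((k + 1 - s : ℕ) : ℝ)) = 2 ^ c * 2 ^ (c * ((k - s : ℕ) : ℝ)) := by
    rw [← Real.rpow_add (by norm_num), show k + 1 - s = (k - s) + 1 by omega]
    congr 1
    push_cast
    ring
  have h7 : ((2 : ℝ) ^ (-(1 / a - c))) ^ (k - s) = 2 ^ (-(((k - s : ℕ) : ℝ) / a)) * 2 ^ (c * ((k - s : ℕ) : ℝ)) := by
    rw [← Real.rpow_natCast, ← Real.rpow_mul (by norm_num), ← Real.rpow_add (by norm_num)]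
    congr 1
    ring
  calc 2 ^ ((i0 + 4 : ℕ) / a : ℝ) * (2 : ℝ) ^ (-(((k - s : ℕ) : ℝ) / a)) * M ^ (-(1 / a)) * n
      ≤ 2 ^ ((i0 + 4 : ℕ) / a : ℝ) * (2 : ℝ) ^ (-(((k - s : ℕ) : ℝ) / a)) * M ^ (-(1 / a)) *
        (K * 2 ^ (c * ((k + 1 - s : ℕ) : ℝ)) * ms) := by gcongr
    _ = _ := by
      rw [h6, h7]
      ring

/-- **the Hoelder modulus at exact n** -/
theorem holdX_of {m : ℕ → ℝ} (hm : MLow m) (hE : EMOw m) (hS : ESPw m) {a c K : ℝ} (hK : 0 < K)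
    (hg : ∀ k j : ℕ, m (k + j) ≤ K * 2 ^ (c * (j : ℝ)) * m k) (ha : 0 < a) (hac : a * c < 1) : HoldX m a := by
  intro e he
  -- the box
  obtain ⟨A1, i1, k1, hA1, h1⟩ := tail_out hS 1
  obtain ⟨i0, hi0⟩ : ∃ i0 : ℕ, A1 / 2 ^ (1 * (i1 + i0)) ≤ e / 4 := by
    obtain ⟨n, hn⟩ := exists_pow_lt_of_lt_one (show 0 < e / 4 / A1 by positivity) (show (1 / 2 : ℝ) < 1 by norm_num)
    refine ⟨n, ?_⟩
    rw [one_mul, div_eq_mul_inv, ← inv_pow, ← one_div]
    calc A1 * (1 / 2) ^ (i1 + n) ≤ A1 * (1 / 2) ^ n := by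
          gcongr A1 * ?_
          exact pow_le_pow_of_le_one (by norm_num) (by norm_num) (by omega)
      _ ≤ A1 * (e / 4 / A1) := by gcongr
      _ = e / 4 := by field_simp
  -- the exponents
  obtain ⟨C, hC, hE⟩ := hE
  obtain ⟨θ, hθ⟩ : ∃ θ : ℝ, θ = (2 : ℝ) ^ (-(1 / a - c)) := ⟨_, rfl⟩
  have hb : 0 < 1 / a - c := by
    rw [sub_pos, lt_div_iff₀ ha]
    linarith [mul_comm a c]
  have hθ0 : 0 < θ := by rw [hθ]; positivity
  have hθ1 : θ < 1 := by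
    rw [hθ]
    exact Real.rpow_lt_one_of_one_lt_of_neg (by norm_num) (by linarith)
  obtain ⟨Q0, hQ0⟩ := exists_pow_lt_of_lt_one (show 0 < 1 / (2 * C) by positivity) hθ1
  obtain ⟨Q, hQ⟩ : ∃ Q : ℕ, Q = Q0 + 1 := ⟨_, rfl⟩
  have hQC : θ ^ Q * C ≤ 1 / 2 := by
    have : θ ^ Q ≤ 1 / (2 * C) := by
      refine le_trans ?_ hQ0.le
      exact pow_le_pow_of_le_one hθ0.le hθ1.le (by omega)
    calc θ ^ Q * C ≤ 1 / (2 * C) * C := by gcongr
      _ = 1 / 2 := by field_simp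
  obtain ⟨J1, k2, A, hA, hE⟩ := hE Q (i1 + i0) (e / 4) (by positivity)
  obtain ⟨D, hD⟩ : ∃ D : ℝ, D = K * 2 ^ c * 2 ^ ((i1 + i0 + J1 + 4 : ℕ) / a : ℝ) := ⟨_, rfl⟩
  have hD0 : 0 < D := by rw [hD]; positivity
  -- the constant B and M
  obtain ⟨B, hB⟩ : ∃ B : ℝ, B = min 1 (e / (4 * A)) := ⟨_, rfl⟩
  have hB0 : 0 < B := by rw [hB]; positivity
  have hB1 : B ≤ 1 := by rw [hB]; exact min_le_left _ _
  have hB2 : 2 * (A * B ^ Q) ≤ e / 2 := by
    have h2 : B ^ Q ≤ B := by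
      calc B ^ Q ≤ B ^ 1 := pow_le_pow_of_le_one hB0.le hB1 (by omega)
        _ = B := pow_one B
    have h3 : B ≤ e / (4 * A) := by rw [hB]; exact min_le_right _ _
    calc 2 * (A * B ^ Q) ≤ 2 * (A * (e / (4 * A))) := by
          have := h2.trans h3
          gcongr
      _ = e / 2 := by
        field_simp
        ring
  obtain ⟨M, hM⟩ : ∃ M : ℝ, M = (D / B) ^ a := ⟨_, rfl⟩
  have hM0 : 0 < M := by rw [hM]; positivity
  have hDM : D * M ^ (-(1 / a)) = B := by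
    rw [hM, ← Real.rpow_mul (by positivity), show a * -(1 / a) = -1 by field_simp, Real.rpow_neg_one]
    field_simp
  refine ⟨M, max (max k1 k2) J1, hM0, fun k n hk hn1 hn2 => ?_⟩
  have hk1 : k1 ≤ k := le_trans (le_trans (le_max_left _ _) (le_max_left _ _)) hk
  have hk2 : k2 ≤ k := le_trans (le_trans (le_max_right _ _) (le_max_left _ _)) hk
  have hkJ : J1 ≤ k := le_trans (le_max_right _ _) hk
  obtain ⟨G, hG, hE⟩ := hE k n hk2 hn1 hn2
  have hn0 : (0 : ℝ) < n := (hm.pos k).trans_le hn1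
  obtain ⟨F, hF⟩ : ∃ F : ℕ → Set (List Bool), F = fun s => {t | t ∈ WL (k + (i1 + i0)) ∧ t.length = n ∧ t ∉ G ∧
      t ∈ DE s ((B * θ ^ (k - s)) * m s)} := ⟨_, rfl⟩
  have hsub : {t | t ∈ SawN n ∧ ∃ (dir : Bool) (i j : ℕ), i < j ∧ j ≤ n ∧
      M * 2 ^ k * (((j : ℝ) - i) / n) ^ a ≤ |((lvl dir (vx oo up t j) - lvl dir (vx oo up t i) : ℤ) : ℝ)|} ⊆
      ({t | t ∈ SA ∧ t.length = n ∧ t ∉ WL (k + (i1 + i0))} ∪ G) ∪ ⋃ s ∈ range (k - J1 + 1), F s := by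
    rintro t ⟨ht, dir, i, j, hij, hj, hx⟩
    by_cases hW : t ∈ WL (k + (i1 + i0))
    swap
    · exact Or.inl (Or.inl ⟨ht.2, ht.1, hW⟩)
    by_cases htG : t ∈ G
    · exact Or.inl (Or.inr htG)
    right
    obtain ⟨y, hy⟩ : ∃ y : ℤ, y = |lvl dir (vx oo up t j) - lvl dir (vx oo up t i)| := ⟨_, rfl⟩
    have hyR : |((lvl dir (vx oo up t j) - lvl dir (vx oo up t i) : ℤ) : ℝ)| = y := by
      rw [hy, Int.cast_abs]
    rw [hyR] at hx
    have hτ : (0 : ℝ) < (j : ℝ) - i := by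
      have : (i : ℝ) < j := by exact_mod_cast hij
      linarith
    have hy0 : 0 < y := by
      have : (0 : ℝ) < y := lt_of_lt_of_le (by positivity) hx
      exact_mod_cast this
    obtain ⟨z, hz⟩ : ∃ z : ℕ, y = z := ⟨y.toNat, by omega⟩
    have hz0 : z ≠ 0 := by omega
    obtain ⟨s, hs⟩ : ∃ s : ℕ, s = min (Nat.log 2 z) (k - J1) := ⟨_, rfl⟩
    have hsk : s ≤ k - J1 := by rw [hs]; exact min_le_right _ _
    have hs1 : 2 ^ s ≤ z := by
      refine (pow_le_pow_right₀ (by norm_num) (by rw [hs]; exact min_le_left _ _)).trans (Nat.pow_log_le_self 2 hz0)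
    have hs2 : z ≤ 2 ^ (s + (i1 + i0 + J1) + 4) := by
      rcases le_total (Nat.log 2 z) (k - J1) with h2 | h2
      · have h3 : s = Nat.log 2 z := by rw [hs]; exact min_eq_left h2
        have h4 := Nat.lt_pow_succ_log_self (b := 2) (by norm_num) z
        rw [← h3] at h4
        exact h4.le.trans (pow_le_pow_right₀ (by norm_num) (by omega))
      · have h3 : s = k - J1 := by rw [hs]; exact min_eq_right h2
        have h4 := Crs.lvl_diff (dir := dir) hW (i := j) (j := i) (by rw [ht.1]; exact hj) (by rw [ht.1]; omega)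
        rw [← hy, hz] at h4
        have h5 : (z : ℤ) ≤ 2 ^ (s + (i1 + i0 + J1) + 4) := by
          refine h4.trans ?_
          have h6 : (2 : ℤ) ^ (s + (i1 + i0 + J1) + 4) = 8 * 2 ^ (k + (i1 + i0) + 1) := by
            rw [h3, show (8 : ℤ) = 2 ^ 3 by norm_num, ← pow_add]
            congr 1
            omega
          have h7 : (1 : ℤ) ≤ 2 ^ (k + (i1 + i0) + 1) := one_le_pow₀ (by norm_num)
          rw [h6]
          linarith
        exact_mod_cast h5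
    have hsR : (y : ℝ) ≤ 2 ^ (s + (i1 + i0 + J1) + 4) := by
      rw [hz]
      exact_mod_cast hs2
    have h2 := time_of (s := s) (i0 := i1 + i0 + J1) (c := c) (K := K) (ms := m s) (mk := m (k + 1)) hM0 ha hn0 hτ hx hsR
      (by omega) hn2.le (by
        have := hg s (k + 1 - s)
        rwa [show s + (k + 1 - s) = k + 1 by omega] at this)
    rw [← hD, hDM, ← hθ] at h2
    rw [Set.mem_iUnion₂]
    refine ⟨s, mem_range.2 (by omega), ?_⟩
    rw [hF]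
    refine ⟨hW, ht.1, htG, dir, i, j, hij.le, by rw [ht.1]; exact hj, h2, ?_⟩
    rw [← hy, hz]
    exact_mod_cast hs1
  refine (gf_mono hsub).trans ((gf_union_le _ _).trans ?_)
  have h2 : gf ({t | t ∈ SA ∧ t.length = n ∧ t ∉ WL (k + (i1 + i0))} ∪ G) ≤
      ENNReal.ofReal (e / 4) * nuX m k + ENNReal.ofReal (e / 4) * nuX m k := by
    refine (gf_union_le _ _).trans (add_le_add ?_ hG)
    exact (h1 k (i1 + i0) n hk1 (by omega) hn1 hn2).trans (mul_le_mul_left (ENNReal.ofReal_le_ofReal hi0) _)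
  have h3 : gf (⋃ s ∈ range (k - J1 + 1), F s) ≤ ENNReal.ofReal (e / 2) * nuX m k := by
    refine (ENNReal.tsum_biUnion_le (fun t => wE t) (range (k - J1 + 1)) F).trans ?_
    have h4 : ∀ s ∈ range (k - J1 + 1), gf (F s) ≤ ENNReal.ofReal (A * B ^ Q * (1 / 2) ^ (k - s)) * nuX m k := by
      intro s hs
      have hs := mem_range.1 hs
      rw [hF]
      have hθk : θ ^ (k - s) ≤ 1 := pow_le_one₀ hθ0.le hθ1.le
      refine (hE s (B * θ ^ (k - s)) (by omega) (by positivity) (by nlinarith [pow_pos hθ0 (k - s)])).trans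
        (mul_le_mul_left (ENNReal.ofReal_le_ofReal ?_) _)
      rw [mul_pow, ← pow_mul, mul_comm (k - s) Q, pow_mul]
      calc A * (B ^ Q * (θ ^ Q) ^ (k - s)) * C ^ (k - s) = A * B ^ Q * ((θ ^ Q) ^ (k - s) * C ^ (k - s)) := by ring
        _ = A * B ^ Q * (θ ^ Q * C) ^ (k - s) := by rw [mul_pow (θ ^ Q) C]
        _ ≤ A * B ^ Q * (1 / 2) ^ (k - s) := by gcongr
    refine (Finset.sum_le_sum h4).trans ?_
    rw [← Finset.sum_mul, ← ENNReal.ofReal_sum_of_nonneg (fun s _ => by positivity), ← Finset.mul_sum]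
    refine mul_le_mul_left (ENNReal.ofReal_le_ofReal ?_) _
    have h5 : ∑ s ∈ range (k - J1 + 1), (1 / 2 : ℝ) ^ (k - s) ≤ 2 := by
      have h6 := Finset.sum_range_reflect (fun s => (1 / 2 : ℝ) ^ s) (k + 1)
      have h7 : ∑ s ∈ range (k + 1), (1 / 2 : ℝ) ^ (k - s) = ∑ s ∈ range (k + 1), (1 / 2 : ℝ) ^ s := by
        rw [← h6]
        exact Finset.sum_congr rfl fun s _ => by rw [Nat.add_sub_cancel]
      have h8 := Summable.sum_le_tsum (f := fun J : ℕ => (1 / 2 : ℝ) ^ J) (range (k + 1)) (fun J _ => by positivity)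
        (summable_geometric_of_lt_one (by norm_num) (by norm_num))
      rw [tsum_geometric_two] at h8
      refine le_trans ?_ (h7.le.trans h8)
      exact Finset.sum_le_sum_of_subset_of_nonneg (Finset.range_mono (by omega)) fun s _ _ => by positivity
    calc A * B ^ Q * ∑ s ∈ range (k - J1 + 1), (1 / 2 : ℝ) ^ (k - s) ≤ A * B ^ Q * 2 := by gcongr
      _ = 2 * (A * B ^ Q) := by ring
      _ ≤ e / 2 := hB2
  refine (add_le_add h2 h3).trans (le_of_eq ?_)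
  rw [← add_mul, ← ENNReal.ofReal_add (by positivity) (by positivity), ← add_mul,
    ← ENNReal.ofReal_add (by positivity) (by positivity)]
  congr 2
  ring

/-- the modulus of continuity from the Hoelder modulus, every n -/
theorem modu_of_hold {m : ℕ → ℝ} (hm : MLow m) {a : ℝ} (ha : 0 < a) (h : HoldX m a) :
    ∀ r e : ℝ, 0 < r → 0 < e → ∃ (ρ : ℝ) (k0 : ℕ), 0 < ρ ∧ ∀ k n : ℕ, k0 ≤ k → m k ≤ n → n < m (k + 1) →
      gf {t | t ∈ SawN n ∧ ∃ (dir : Bool) (i j : ℕ), i ≤ j ∧ j ≤ n ∧ (j : ℝ) - i ≤ ρ * m k ∧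
        r * 2 ^ k ≤ |((lvl dir (vx oo up t j) - lvl dir (vx oo up t i) : ℤ) : ℝ)|} ≤ ENNReal.ofReal e * nuX m k := by
  intro r e hr he
  obtain ⟨M, k0, hM, h1⟩ := h e he
  refine ⟨(r / M) ^ (1 / a), k0, by positivity, fun k n hk hn1 hn2 => (gf_mono ?_).trans (h1 k n hk hn1 hn2)⟩
  rintro t ⟨ht, dir, i, j, hij, hj, hτ, hx⟩
  have hr2 : 0 < r * 2 ^ k := by positivity
  have hij' : i < j := by
    rcases Nat.eq_or_lt_of_le hij with rfl | h2
    · simp only [sub_self, Int.cast_zero, abs_zero] at hx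
      linarith
    · exact h2
  have hn0 : (0 : ℝ) < n := (hm.pos k).trans_le hn1
  have hτ0 : (0 : ℝ) ≤ ((j : ℝ) - i) / n := by
    have : (i : ℝ) < j := by exact_mod_cast hij'
    exact div_nonneg (by linarith) hn0.le
  refine ⟨ht, dir, i, j, hij', hj, le_trans ?_ hx⟩
  have h2 : (((j : ℝ) - i) / n) ^ a ≤ r / M := by
    have h3 : ((j : ℝ) - i) / n ≤ (r / M) ^ (1 / a) := by
      rw [div_le_iff₀ hn0]
      refine hτ.trans ?_
      gcongr
    calc (((j : ℝ) - i) / n) ^ a ≤ ((r / M) ^ (1 / a)) ^ a := Real.rpow_le_rpow hτ0 h3 ha.le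
      _ = r / M := by
        rw [← Real.rpow_mul (by positivity), one_div_mul_cancel ha.ne', Real.rpow_one]
  calc M * 2 ^ k * (((j : ℝ) - i) / n) ^ a ≤ M * 2 ^ k * (r / M) := by gcongr
    _ = r * 2 ^ k := by field_simp

end EN

end HexObs
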