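import Pool.Agent.NTA.StepA
import Pool.Agent.NTA.RunX
import Pool.Agent.PHW.Mirror

/-!
EN (every number of letters): the three directions. The third direction is the direction true of the mirror word. One step of
the descent for any two of the three directions.
-/

set_option autoImplicit false

namespace HexObs

namespace EN

open Finset TS SDN NTW NTA

open scoped ENNReal

/-- the mirror word -/
def mw (t : List Bool) : List Bool := t.map not

lemma mw_mw (t : List Bool) : mw (mw t) = t := map_not_not t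

lemma mw_length (t : List Bool) : (mw t).length = t.length := List.length_map _

/-- the three level functions -/
def lv3 (d : Fin 3) (v : Pt) : ℤ :=
  if d = 0 then lvl false v else if d = 1 then lvl true v else -(lvl false v + lvl true v)

lemma lv3_zero (v : Pt) : lv3 0 v = lvl false v := rfl

lemma lv3_one (v : Pt) : lv3 1 v = lvl true v := rfl

lemma lv3_two (v : Pt) : lv3 2 v = -(lvl false v + lvl true v) := rfl

/-- the sum of the three level functions is zero -/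
lemma lv3_sum (v : Pt) : lv3 0 v + lv3 1 v + lv3 2 v = 0 := by
  rw [lv3_zero, lv3_one, lv3_two]
  ring

/-- a displacement in one direction is at least half as large in a second one -/
lemma lv3_two_large {v w : Pt} {d : Fin 3} {R : ℤ} (h : 2 * R ≤ |lv3 d v - lv3 d w|) :
    ∃ d', d' ≠ d ∧ R ≤ |lv3 d' v - lv3 d' w| := by
  have h1 := lv3_sum v
  have h2 := lv3_sum w
  have key : ∀ x y z : ℤ, x + y + z = 0 → 2 * R ≤ |x| → R ≤ |y| ∨ R ≤ |z| := by
    intro x y z h3 h4
    by_contra hc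
    push Not at hc
    obtain ⟨h5, h6⟩ := hc
    have h7 : |x| ≤ |y| + |z| := by
      have : x = -(y + z) := by omega
      rw [this, abs_neg]
      exact abs_add_le _ _
    omega
  have hd : d = 0 ∨ d = 1 ∨ d = 2 := by
    fin_cases d
    · exact Or.inl rfl
    · exact Or.inr (Or.inl rfl)
    · exact Or.inr (Or.inr rfl)
  rcases hd with rfl | rfl | rfl
  · rcases key _ (lv3 1 v - lv3 1 w) (lv3 2 v - lv3 2 w) (by omega) h with h3 | h3
    · exact ⟨1, by decide, h3⟩
    · exact ⟨2, by decide, h3⟩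
  · rcases key _ (lv3 0 v - lv3 0 w) (lv3 2 v - lv3 2 w) (by omega) h with h3 | h3
    · exact ⟨0, by decide, h3⟩
    · exact ⟨2, by decide, h3⟩
  · rcases key _ (lv3 0 v - lv3 0 w) (lv3 1 v - lv3 1 w) (by omega) h with h3 | h3
    · exact ⟨0, by decide, h3⟩
    · exact ⟨1, by decide, h3⟩

/-- two sets of at least two directions have a common direction -/
lemma two_two {A B : Finset (Fin 3)} (hA : 2 ≤ A.card) (hB : 2 ≤ B.card) : ∃ d, d ∈ A ∧ d ∈ B := by
  by_contra hc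
  push Not at hc
  have h1 : Disjoint A B := Finset.disjoint_left.2 hc
  have h2 := Finset.card_union_of_disjoint h1
  have h3 : (A ∪ B).card ≤ 3 := (Finset.card_le_univ _).trans (by simp)
  omega

/-- the word and the direction for the level function number d -/
def wd (d : Fin 3) (t : List Bool) : List Bool := if d = 2 then mw t else t

@[inherit_doc wd]
def dr (d : Fin 3) : Bool := decide (d ≠ 0)

lemma wd_length (d : Fin 3) (t : List Bool) : (wd d t).length = t.length := by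
  unfold wd
  split_ifs
  · exact mw_length t
  · rfl

lemma lvl_mw (t : List Bool) {i : ℕ} (hi : i ≤ t.length + 1) :
    lvl false (vx oo up (mw t) i) = lvl false (vx oo up t i) ∧
    lvl true (vx oo up (mw t) i) = -(lvl false (vx oo up t i) + lvl true (vx oo up t i)) := by
  unfold mw
  rw [vx_not t hi]
  simp only [lvl, hd, ip, up]
  constructor
  · simp
    try ring
  · simp
    try ring

lemma lvl_wd (d : Fin 3) (t : List Bool) {i : ℕ} (hi : i ≤ t.length + 1) :
    lvl (dr d) (vx oo up (wd d t) i) = lv3 d (vx oo up t i) := by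
  have hd : d = 0 ∨ d = 1 ∨ d = 2 := by
    fin_cases d
    · exact Or.inl rfl
    · exact Or.inr (Or.inl rfl)
    · exact Or.inr (Or.inr rfl)
  rcases hd with rfl | rfl | rfl
  · rfl
  · rfl
  · exact (lvl_mw t hi).2

lemma mw_SA {t : List Bool} (ht : t ∈ SA) : mw t ∈ SA := by
  refine ⟨fun _ _ _ => Set.mem_univ _, fun i k hik hk heq => ?_⟩
  rw [mw_length] at hk
  refine ht.2 i k hik hk ?_
  unfold mw at heq
  rw [vx_not t (by omega), vx_not t (by omega), Prod.mk.injEq] at heq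
  obtain ⟨h1, h2⟩ := heq
  exact Prod.ext (by omega) (by omega)

lemma wd_SA (d : Fin 3) {t : List Bool} (ht : t ∈ SA) : wd d t ∈ SA := by
  unfold wd
  split_ifs
  · exact mw_SA ht
  · exact ht

lemma mw_WL {K : ℕ} {t : List Bool} (ht : t ∈ WL K) : mw t ∈ WL (K + 2) := by
  refine ⟨mw_SA ht.1, fun i hi dir => ?_⟩
  rw [mw_length] at hi
  have h0 := ht.2 i hi false
  have h1 := ht.2 i hi true
  have e := lvl_mw t (show i ≤ t.length + 1 by omega)
  unfold row at h0 h1 ⊢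
  rw [abs_le] at h0 h1 ⊢
  have hp : (1 : ℤ) ≤ 2 ^ K := by exact_mod_cast Nat.one_le_two_pow
  have h2 : (2 : ℤ) ^ (K + 2) = 4 * 2 ^ K := by rw [pow_add]; ring
  rw [h2]
  cases dir
  · rw [e.1]
    omega
  · rw [e.2]
    omega

lemma wd_WL (d : Fin 3) {K : ℕ} {t : List Bool} (ht : t ∈ WL K) : wd d t ∈ WL (K + 2) := by
  unfold wd
  split_ifs
  · exact mw_WL ht
  · exact ⟨ht.1, fun i hi dir => (ht.2 i hi dir).trans (pow_le_pow_right₀ (by norm_num) (by omega))⟩

/-- the mirror does not change the weights -/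
lemma gf_mw_le {P Q : Set (List Bool)} (h : ∀ t ∈ P, mw t ∈ Q) : gf P ≤ gf Q := by
  have hinj : Function.Injective mw := fun a b hab => by
    have := congrArg mw hab
    rwa [mw_mw, mw_mw] at this
  have h1 := gf_le_of_inj mw h hinj.injOn 1 (fun t _ => by rw [one_mul]; exact (wE_map_not t).ge)
  rwa [one_mul] at h1

/-- t has, in the direction number d at the scale kc + 5, a run of interior leaves in R -/
def HR (d : Fin 3) (kc : ℕ) (R : Set (List (List Bool))) (t : List Bool) : Prop := HasRun (dr d) kc R (wd d t)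

/-- the reduction of the three directions to the two directions of HasRun; p is any property of the number of letters -/
theorem gf_HR (d : Fin 3) (kc K : ℕ) (R : Set (List (List Bool))) (p : ℕ → Prop) :
    gf {t | p t.length ∧ t ∈ WL K ∧ HR d kc R t} ≤ gf {t | p t.length ∧ t ∈ WL (K + 2) ∧ HasRun (dr d) kc R t} := by
  by_cases hd : d = 2
  · refine gf_mw_le ?_
    rintro t ⟨h1, h2, h3⟩
    unfold HR wd at h3
    rw [if_pos hd] at h3
    exact ⟨by rwa [mw_length], mw_WL h2, h3⟩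
  · refine gf_mono ?_
    rintro t ⟨h1, h2, h3⟩
    have h4 := wd_WL d h2
    unfold HR at h3
    unfold wd at h3 h4
    rw [if_neg hd] at h3 h4
    exact ⟨h1, h4, h3⟩

/-- the event theorem for runs of interior leaves, three directions -/
theorem runX3 : ∃ (C : ℝ) (k0 : ℕ), 1 ≤ C ∧
    ∀ (d : Fin 3) (kc J : ℕ) (R : Set (List (List Bool))) (δ : ℝ), k0 ≤ kc → 6 ≤ J → 0 < δ → SmR DmJ kc R δ →
    gf {t | t ∈ WL (kc + J) ∧ HR d kc R t} ≤ ENNReal.ofReal (C ^ J * δ * Ub (kc + J)) * Xb (kc + J) ^ 2 := by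
  obtain ⟨C, k0, hC, h⟩ := runX
  obtain ⟨D, hD, hDX⟩ := Xb_pow
  have hC0 : 0 ≤ C := by linarith
  have hD0 : 0 ≤ D := by linarith
  have hE : 1 ≤ C ^ 2 * 4 * D ^ 4 := by
    have h1 : 1 ≤ C ^ 2 := one_le_pow₀ hC
    have h2 : 1 ≤ D ^ 4 := one_le_pow₀ hD
    nlinarith
  refine ⟨C * (C ^ 2 * 4 * D ^ 4), k0, by nlinarith, fun d kc J R δ hk hJ hδ hS => ?_⟩
  have h1 := h (dr d) kc (J + 2) R δ hk (by omega) hδ hS
  have h2 := gf_HR d kc (kc + J) R (fun _ => True)
  have hU := Ub_pos (kc + J)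
  have h3 : gf {t | t ∈ WL (kc + J) ∧ HR d kc R t} ≤ gf (ERL (dr d) kc (kc + (J + 2)) R) := by
    refine ((gf_mono ?_).trans h2).trans (gf_mono ?_)
    · rintro t ⟨h3, h4⟩
      exact ⟨trivial, h3, h4⟩
    · rintro t ⟨-, h3, h4⟩
      exact ⟨h3, h4⟩
  have hUb : Ub (kc + (J + 2)) ≤ 4 * Ub (kc + J) := by
    have := Sc.Ub_shift (kc + J) 2
    rw [show kc + (J + 2) = kc + J + 2 by ring]
    have h4 : ((2 : ℝ) ^ 2) = 4 := by norm_num
    rwa [h4] at this
  refine (h3.trans h1).trans ?_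
  calc ENNReal.ofReal (C ^ (J + 2) * δ * Ub (kc + (J + 2))) * Xb (kc + (J + 2)) ^ 2
      ≤ ENNReal.ofReal (C ^ (J + 2) * δ * (4 * Ub (kc + J))) * (ENNReal.ofReal (D ^ 2) * Xb (kc + J)) ^ 2 := by
        refine mul_le_mul' (ENNReal.ofReal_le_ofReal ?_) (pow_le_pow_left' ?_ 2)
        · exact mul_le_mul_of_nonneg_left hUb (by positivity)
        · have := hDX (kc + J) 2
          rwa [show kc + J + 2 = kc + (J + 2) by ring] at this
    _ = ENNReal.ofReal (C ^ J * (C ^ 2 * 4 * D ^ 4) * δ * Ub (kc + J)) * Xb (kc + J) ^ 2 := by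
        rw [mul_pow, ← ENNReal.ofReal_pow (by positivity), ← mul_assoc, ← ENNReal.ofReal_mul (by positivity)]
        congr 2
        ring
    _ ≤ _ := by
        refine mul_le_mul_left (ENNReal.ofReal_le_ofReal ?_) _
        have e1 : C ^ 2 * 4 * D ^ 4 ≤ (C ^ 2 * 4 * D ^ 4) ^ J := by
          calc C ^ 2 * 4 * D ^ 4 = (C ^ 2 * 4 * D ^ 4) ^ 1 := by rw [pow_one]
            _ ≤ (C ^ 2 * 4 * D ^ 4) ^ J := pow_le_pow_right₀ hE (by omega)
        rw [mul_pow]
        gcongr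

/-! ### One step of the descent -/

/-- one step for two functions -/
theorem step_two {F G : ℕ → ℤ} {b μ K N x y : ℕ} {h S1 : ℝ} (hb : 5 ≤ b) (hxy : x ≤ y)
    (hF : ∀ i j, x ≤ i → i ≤ y → x ≤ j → j ≤ y → F i - F j ≤ 3 * 2 ^ (b + μ))
    (hG : ∀ i j, x ≤ i → i ≤ y → x ≤ j → j ≤ y → G i - G j ≤ 3 * 2 ^ (b + μ)) (hh : 0 ≤ h) (hS1p : 0 ≤ S1)
    (hS1 : ∀ x' y', x ≤ x' → x' ≤ y' → y' ≤ y →
      (∀ i j, x' ≤ i → i ≤ y' → x' ≤ j → j ≤ y' → F i - F j < 2 * RR b) →
      (∀ i j, x' ≤ i → i ≤ y' → x' ≤ j → j ≤ y' → G i - G j < 2 * RR b) → (y' : ℝ) - x' ≤ S1)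
    (h0 : Part F x y (RR b) K N h) (h1 : Part G x y (RR b) K N h) :
    (y : ℝ) - x ≤ 2 * K * h + N ^ 2 * (2 ^ (μ + 5) * (S1 + 1)) := by
  obtain ⟨k0, c0, T0, hk0, hT0, h00, h0n, hm0, hl0, hn0, hs0⟩ := h0
  obtain ⟨k1, c1, T1, hk1, hT1, h10, h1n, hm1, hl1, hn1, hs1⟩ := h1
  have hB : (0 : ℝ) ≤ 2 ^ (μ + 5) * (S1 + 1) := by positivity
  have hpw : (32 : ℤ) ≤ 2 ^ b := by
    calc (32 : ℤ) = 2 ^ 5 := by norm_num
      _ ≤ 2 ^ b := by exact_mod_cast Nat.pow_le_pow_right (by norm_num) hb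
  have hmu : (1 : ℤ) ≤ 2 ^ μ := by exact_mod_cast Nat.one_le_two_pow
  have hV : ∀ z : ℤ, z ≤ 3 * 2 ^ (b + μ) → z ≤ ((2 ^ (μ + 2) : ℕ) : ℤ) * RR b := by
    intro z h1
    rw [pow_add] at h1
    have h3 : ((2 ^ (μ + 2) : ℕ) : ℤ) * RR b = 12 * (2 ^ b * 2 ^ μ) - 8 * 2 ^ μ := by
      unfold RR
      push_cast
      ring
    rw [h3]
    have h4 : 8 * (2 : ℤ) ^ μ ≤ 6 * (2 ^ b * 2 ^ μ) := by nlinarith
    omega
  have key := T2.two_partitions (n := y - x) h00 h0n h10 h1n hm0 hm1 (S0 := T0) (S1 := T1)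
    (l := h) (B := 2 ^ (μ + 5) * (S1 + 1)) hh hB hn0 hn1 (by
      intro p hp q hq hpk hqk hxy'
      obtain ⟨s0, hs0', hq0⟩ := hs0 p hpk
      obtain ⟨s1, hs1', hq1⟩ := hs1 q hqk
      obtain ⟨x', hx⟩ : ∃ x', x' = max (c0 p) (c1 q) := ⟨_, rfl⟩
      obtain ⟨y', hy⟩ : ∃ y', y' = min (c0 (p + 1)) (c1 (q + 1)) := ⟨_, rfl⟩
      rw [← hx, ← hy] at hxy' ⊢
      have hx0 : c0 p ≤ x' := by rw [hx]; exact le_max_left _ _
      have hx1 : c1 q ≤ x' := by rw [hx]; exact le_max_right _ _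
      have hy0 : y' ≤ c0 (p + 1) := by rw [hy]; exact min_le_left _ _
      have hy1 : y' ≤ c1 (q + 1) := by rw [hy]; exact min_le_right _ _
      have hyn' : y' ≤ y - x := hy0.trans (hl0 _ (by omega))
      have hR : 1 ≤ RR b := by unfold RR; omega
      have h := T2.bimono_cut (f0 := fun i => F (x + i)) (f1 := fun i => G (x + i))
        (R := RR b) hR (V := 2 ^ (μ + 2)) (x := x') (y := y') hxy' hs0' hs1'
        (fun i j hi hij hj => hq0 i j (hx0.trans hi) hij (hj.trans hy0))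
        (fun i j hi hij hj => hq1 i j (hx1.trans hi) hij (hj.trans hy1))
        (fun i j _ hi _ hj => hV _ (hF (x + i) (x + j) (by omega) (by omega) (by omega) (by omega)))
        (fun i j _ hi _ hj => hV _ (hG (x + i) (x + j) (by omega) (by omega) (by omega) (by omega))) (S := S1) (by
          intro x'' y'' hx' hxy'' hy' hf0 hf1
          have h2 := hS1 (x + x'') (x + y'') (by omega) (by omega) (by omega) (by
            intro i j hi hi' hj hj'
            have := hf0 (i - x) (j - x) (by omega) (by omega) (by omega) (by omega)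
            simpa only [show x + (i - x) = i by omega, show x + (j - x) = j by omega] using this) (by
            intro i j hi hi' hj hj'
            have := hf1 (i - x) (j - x) (by omega) (by omega) (by omega) (by omega)
            simpa only [show x + (i - x) = i by omega, show x + (j - x) = j by omega] using this)
          push_cast at h2
          linarith)
      refine h.trans ?_
      have h6 : (1 : ℝ) ≤ 2 ^ μ := one_le_pow₀ (by norm_num)
      have h7 : (0 : ℝ) ≤ S1 + 1 := by positivity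
      have h8 : (2 * ((2 ^ (μ + 2) : ℕ) : ℝ) + 1) ≤ 2 ^ (μ + 5) := by
        push_cast
        rw [pow_add, pow_add]
        nlinarith
      exact mul_le_mul_of_nonneg_right h8 h7)
  rw [Nat.cast_sub hxy] at key
  refine key.trans ?_
  have hk : (k0 : ℝ) + k1 ≤ 2 * K := by
    have : k0 + k1 ≤ 2 * K := by omega
    exact_mod_cast this
  have hc0 : (T0.card : ℝ) ≤ N := by exact_mod_cast hT0
  have hc1 : (T1.card : ℝ) ≤ N := by exact_mod_cast hT1
  apply add_le_add
  · exact mul_le_mul_of_nonneg_right hk hh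
  · rw [sq]
    apply mul_le_mul_of_nonneg_right _ hB
    exact mul_le_mul hc0 hc1 (by positivity) (by positivity)

/-- the box in three directions -/
lemma Bx_three {q x y : ℕ} {t : List Bool} (h : Bx q t x y) (d : Fin 3) {i j : ℕ} (hi : x ≤ i) (hi' : i ≤ y) (hj : x ≤ j)
    (hj' : j ≤ y) : lv3 d (vx oo up t i) - lv3 d (vx oo up t j) ≤ 3 * 2 ^ (q + 1) := by
  have h0 := h.2.2 false i j hi hi' hj hj'
  have h1 := h.2.2 true i j hi hi' hj hj'
  have h0' := h.2.2 false j i hj hj' hi hi'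
  have h1' := h.2.2 true j i hj hj' hi hi'
  have hp : (1 : ℤ) ≤ 2 ^ q := by exact_mod_cast Nat.one_le_two_pow
  rw [pow_succ]
  have hd : d = 0 ∨ d = 1 ∨ d = 2 := by
    fin_cases d
    · exact Or.inl rfl
    · exact Or.inr (Or.inl rfl)
    · exact Or.inr (Or.inr rfl)
  rcases hd with rfl | rfl | rfl
  · rw [lv3_zero, lv3_zero]
    omega
  · rw [lv3_one, lv3_one]
    omega
  · rw [lv3_two, lv3_two]
    omega

lemma Bx_wd {q x y : ℕ} {t : List Bool} (h : Bx q t x y) (d : Fin 3) : Bx (q + 1) (wd d t) x y := by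
  refine ⟨h.1, by rw [wd_length]; exact h.2.1, fun dir i j hi hi' hj hj' => ?_⟩
  have hy := h.2.1
  unfold wd
  split_ifs with hd
  · cases dir
    · rw [(lvl_mw t (show i ≤ t.length + 1 by omega)).1, (lvl_mw t (show j ≤ t.length + 1 by omega)).1]
      exact Bx_three h 0 hi hi' hj hj'
    · rw [(lvl_mw t (show i ≤ t.length + 1 by omega)).2, (lvl_mw t (show j ≤ t.length + 1 by omega)).2]
      exact Bx_three h 2 hi hi' hj hj'
  · have h1 := h.2.2 dir i j hi hi' hj hj'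
    have hp : (1 : ℤ) ≤ 2 ^ q := by exact_mod_cast Nat.one_le_two_pow
    rw [pow_succ]
    omega

lemma Part_congr {f g : ℕ → ℤ} {x y : ℕ} {R : ℤ} {K N : ℕ} {h : ℝ} (hfg : ∀ i, x ≤ i → i ≤ y → f i = g i)
    (hxy : x ≤ y) (hP : Part f x y R K N h) : Part g x y R K N h := by
  obtain ⟨k, c, T, h1, h2, h3, h4, h5, h6, h7, h8⟩ := hP
  refine ⟨k, c, T, h1, h2, h3, h4, h5, h6, h7, fun p hp => ?_⟩
  obtain ⟨s, hs, h9⟩ := h8 p hp
  refine ⟨s, hs, fun i j hi hij hj => ?_⟩
  have h10 := h6 (p + 1) (by omega)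
  rw [← hfg (x + i) (by omega) (by omega), ← hfg (x + j) (by omega) (by omega)]
  exact h9 i j hi hij hj

/-- two of the three directions bound the third one -/
lemma Bx_of_two {p q : Fin 3} (hpq : p ≠ q) {b x y : ℕ} {t : List Bool} (hb : 1 ≤ b) (hxy : x ≤ y) (hy : y ≤ t.length)
    (hp : ∀ i j, x ≤ i → i ≤ y → x ≤ j → j ≤ y → lv3 p (vx oo up t i) - lv3 p (vx oo up t j) < 2 * RR b)
    (hq : ∀ i j, x ≤ i → i ≤ y → x ≤ j → j ≤ y → lv3 q (vx oo up t i) - lv3 q (vx oo up t j) < 2 * RR b) :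
    Bx (b + 2) t x y := by
  have hpw : (2 : ℤ) ≤ 2 ^ b := by
    calc (2 : ℤ) = 2 ^ 1 := by norm_num
      _ ≤ 2 ^ b := by exact_mod_cast Nat.pow_le_pow_right (by norm_num) hb
  have hpow : (2 : ℤ) ^ (b + 2) = 4 * 2 ^ b := by rw [pow_add]; ring
  have key : ∀ (d : Fin 3) i j, x ≤ i → i ≤ y → x ≤ j → j ≤ y →
      lv3 d (vx oo up t i) - lv3 d (vx oo up t j) ≤ 3 * 2 ^ (b + 2) := by
    intro d i j hi hi' hj hj'
    have a1 := hp i j hi hi' hj hj'
    have a2 := hp j i hj hj' hi hi'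
    have a3 := hq i j hi hi' hj hj'
    have a4 := hq j i hj hj' hi hi'
    have s1 := lv3_sum (vx oo up t i)
    have s2 := lv3_sum (vx oo up t j)
    unfold RR at a1 a2 a3 a4
    rw [hpow]
    revert a1 a2 a3 a4 s1 s2
    have h3 : ∀ e : Fin 3, e = 0 ∨ e = 1 ∨ e = 2 := by decide
    rcases h3 p with rfl | rfl | rfl <;> rcases h3 q with rfl | rfl | rfl <;> rcases h3 d with rfl | rfl | rfl <;>
      first | exact absurd rfl hpq | (intro a1 a2 a3 a4 s1 s2; omega)
  refine ⟨hxy, hy, fun dir i j hi hi' hj hj' => ?_⟩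
  cases dir
  · exact key 0 i j hi hi' hj hj'
  · exact key 1 i j hi hi' hj hj'

/-- **one step of the descent, any two of the three directions** -/
theorem step_pair : ∃ Cc : ℕ, 1 ≤ Cc ∧ ∀ (p q : Fin 3), p ≠ q → ∀ (kc w0 μ n m0 J0 x y : ℕ) (h S1 : ℝ) (t : List Bool),
    t ∈ SA → w0 ≤ kc → 6 ≤ m0 → Cc * 2 ^ w0 * 4 ^ μ ≤ n → 0 ≤ h → 0 ≤ S1 →
    (∀ d, d = p ∨ d = q → ¬ HR d kc (CS (2 ^ (kc + 4)) (2 ^ (kc + 5 + μ)) (kc + 2) (2 ^ (kc - w0)) n m0) t) →
    (∀ d, d = p ∨ d = q → ¬ HR d kc (RFill kc (μ + 3) m0 (J0 + 1) (LongL kc (μ + 3) h)) t) →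
    (∀ x' y', Bx (kc + 7) t x' y' → (y' : ℝ) - x' ≤ S1) → Bx (kc + 4 + μ) t x y →
    (y : ℝ) - x ≤ 2 * (m0 + 5) * (h + 1) + (J0 + 6) ^ 2 * (2 ^ (μ + 5) * (S1 + 1)) := by
  obtain ⟨Cc, hCc, hrp⟩ := run_or_part
  refine ⟨Cc, hCc, fun p q hpq kc w0 μ n m0 J0 x y h S1 t ht hw0 hm0 hn hh hS1 hc hf hS hbx => ?_⟩
  rcases Nat.lt_or_ge x y with hxy | hxy
  · have hy := hbx.2.1
    have hP : ∀ d, d = p ∨ d = q →
        Part (fun i => lv3 d (vx oo up t i)) x y (RR (kc + 5)) (m0 + 5) (J0 + 6) (h + 1) := by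
      intro d hd
      have hb := Bx_wd hbx d
      rw [show kc + 4 + μ + 1 = kc + 5 + μ by ring] at hb
      rcases hrp (dr d) kc w0 μ n m0 J0 x y h (wd d t) (wd_SA d ht) hw0 hb hxy hm0 hn with h1 | h1 | h1
      · exact absurd h1 (hc d hd)
      · exact absurd h1 (hf d hd)
      · exact Part_congr (fun i _ hi => lvl_wd d t (by omega)) hxy.le h1
    have hB : ∀ (d : Fin 3) i j, x ≤ i → i ≤ y → x ≤ j → j ≤ y →
        lv3 d (vx oo up t i) - lv3 d (vx oo up t j) ≤ 3 * 2 ^ (kc + 5 + μ) := by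
      intro d i j hi hi' hj hj'
      have := Bx_three hbx d hi hi' hj hj'
      rwa [show kc + 4 + μ + 1 = kc + 5 + μ by ring] at this
    have := step_two (b := kc + 5) (by omega) hxy.le (hB p) (hB q) (by linarith : 0 ≤ h + 1) hS1
      (fun x' y' _ hxy' hy' h1 h2 => hS x' y' (Bx_of_two hpq (by omega) hxy' (hy'.trans hy) h1 h2))
      (hP p (Or.inl rfl)) (hP q (Or.inr rfl))
    push_cast at this
    exact this
  · have h1 : (y : ℝ) ≤ x := by exact_mod_cast hxy
    have h2 : (0 : ℝ) ≤ 2 * (m0 + 5) * (h + 1) := by positivity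
    have h3 : (0 : ℝ) ≤ (J0 + 6) ^ 2 * (2 ^ (μ + 5) * (S1 + 1)) := by positivity
    linarith

end EN

end HexObs
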