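import Pool.Agent.NTW.Dir
import Pool.Agent.EN.Third

/-!
EN (every number of letters): reduction of the three height directions to the direction false, for the words with exactly n
letters.
-/

set_option autoImplicit false

namespace HexObs

namespace EN

open Finset TS SDN NTW NTA NTW.DirA

open scoped ENNReal

/-- words with an initial word w q of q letters -/
lemma gf_pre (n : ℕ) (c : ℝ≥0∞) (F : Set (List Bool)) (hF : ∀ n', n' ≤ n → gf {s | s.length = n' ∧ s ∈ F} ≤ c)
    (w : ℕ → List Bool) (hw : ∀ q, (w q).length = q) :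
    gf {t | t.length = n ∧ ∃ q, ∃ s ∈ F, t = w q ++ s} ≤ ENNReal.ofReal CD * c := by
  have h1 : {t | t.length = n ∧ ∃ q, ∃ s ∈ F, t = w q ++ s} =
      ⋃ q : ℕ, {t | ∃ s ∈ {s | s.length + q = n ∧ s ∈ F}, t = w q ++ s} := by
    ext t
    simp only [Set.mem_ofPred_eq, Set.mem_iUnion]
    constructor
    · rintro ⟨h1, q, s, h2, h3⟩
      refine ⟨q, s, ⟨?_, h2⟩, h3⟩
      rw [h3, List.length_append, hw] at h1
      omega
    · rintro ⟨q, s, ⟨h1, h2⟩, h3⟩
      refine ⟨?_, q, s, h2, h3⟩
      rw [h3, List.length_append, hw]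
      omega
  rw [h1]
  refine (ENNReal.tsum_iUnion_le_tsum wE _).trans ?_
  have h2 : ∀ q : ℕ, gf {t | ∃ s ∈ {s | s.length + q = n ∧ s ∈ F}, t = w q ++ s} ≤ ENNReal.ofReal (xc ^ q) * c := by
    intro q
    have h3 : gf ({w q} : Set (List Bool)) = ENNReal.ofReal (xc ^ q) := by
      have := gf_finset {w q}
      rw [Finset.coe_singleton, Finset.sum_singleton, hw] at this
      exact this
    have h4 : gf {s | s.length + q = n ∧ s ∈ F} ≤ c := by
      rcases Nat.lt_or_ge n q with h | h
      · have : {s : List Bool | s.length + q = n ∧ s ∈ F} ⊆ ∅ := by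
          rintro s ⟨h5, -⟩
          omega
        refine (gf_mono this).trans ?_
        have h5 : gf (∅ : Set (List Bool)) = 0 := by
          unfold gf
          simp
        rw [h5]
        exact zero_le
      · refine (gf_mono ?_).trans (hF (n - q) (by omega))
        rintro s ⟨h5, h6⟩
        exact ⟨by omega, h6⟩
    refine le_trans ?_ (mul_le_mul_right h4 _)
    rw [← h3]
    refine gf_le_mul fun t ht => ?_
    obtain ⟨s, hs, h4⟩ := ht
    exact ⟨w q, rfl, s, hs, h4⟩
  refine (ENNReal.tsum_le_tsum h2).trans ?_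
  rw [ENNReal.tsum_mul_right]
  exact mul_le_mul_left (le_of_eq tsum_xc) _

/-- the box of the part behind a vertical step, in its own frame -/
lemma drop_WL {K q : ℕ} {t : List Bool} (ht : t ∈ WL K) (hq : q ≤ t.length) (hv : vert (dx up t q)) (hr : t.drop q ∈ SA) :
    t.drop q ∈ WL (K + 3) := by
  obtain ⟨s, hs⟩ : ∃ s, s = t.take q := ⟨_, rfl⟩
  obtain ⟨r, hr'⟩ : ∃ r, r = t.drop q := ⟨_, rfl⟩
  have hts : t = s ++ r := by
    rw [hs, hr', List.take_append_drop]
  have hl : s.length = q := by
    rw [hs, List.length_take]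
    omega
  have h1 : ∀ j, vx oo up t (q + j) = vx (vx oo up t q) (dx up t q) r j := by
    intro j
    rw [hts, ← hl]
    unfold vx dx
    rw [vs_shift]
    apply vs_congr
    intro k _
    exact tf_append_right k
  obtain ⟨u, σ, hσ, hu, hip0, hip1⟩ : ∃ (u : Pt) (σ : ℤ), (σ = 1 ∨ σ = -1) ∧ mulE u up = dx up t q ∧
      (∀ p, lvl false p = σ * lvl true (mulE u p)) ∧
      (∀ p, lvl true p = -(σ * (lvl false (mulE u p) + lvl true (mulE u p)))) := by
    rcases hv with h | h
    · refine ⟨(-1, 1), 1, Or.inl rfl, ?_, ?_, ?_⟩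
      · rw [h]
        decide
      · intro p
        simp only [lvl, hd, mulE, ip, up]
        simp
        try ring
      · intro p
        simp only [lvl, hd, mulE, ip, up]
        simp
        try ring
    · refine ⟨(1, -1), -1, Or.inr rfl, ?_, ?_, ?_⟩
      · rw [h]
        decide
      · intro p
        simp only [lvl, hd, mulE, ip, up]
        simp
        try ring
      · intro p
        simp only [lvl, hd, mulE, ip, up]
        simp
        try ring
  have h2 : ∀ j, vx oo up t (q + j) = vx oo up t q + mulE u (vx oo up r j) := by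
    intro j
    rw [h1, ← hu, vx_mulE u oo]
    congr 2
    exact sub_zero _
  have h3 : ∀ j dir, lvl dir (mulE u (vx oo up r j)) = lvl dir (vx oo up t (q + j)) - lvl dir (vx oo up t q) := by
    intro j dir
    rw [h2, lvl_add]
    ring
  rw [← hr'] at hr ⊢
  refine ⟨hr, fun j hj dir => ?_⟩
  have hj' : q + j ≤ t.length := by
    rw [hr', List.length_drop] at hj
    omega
  have a0 := ht.2 (q + j) hj' false
  have a1 := ht.2 (q + j) hj' true
  have b0 := ht.2 q hq false
  have b1 := ht.2 q hq true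
  have c0 := hip0 (vx oo up r j)
  have c1 := hip1 (vx oo up r j)
  rw [h3, h3] at c1
  rw [h3] at c0
  unfold row at a0 a1 b0 b1 ⊢
  rw [abs_le] at a0 a1 b0 b1 ⊢
  have hp : (1 : ℤ) ≤ 2 ^ K := by exact_mod_cast Nat.one_le_two_pow
  have hp3 : (2 : ℤ) ^ (K + 3) = 8 * 2 ^ K := by rw [pow_add]; ring
  rw [hp3]
  rcases hσ with rfl | rfl
  · cases dir
    · rw [c0]
      omega
    · rw [c1]
      omega
  · cases dir
    · rw [c0]
      omega
    · rw [c1]
      omega

lemma nil_WL (K : ℕ) : ([] : List Bool) ∈ WL K := by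
  refine ⟨⟨fun _ _ _ => Set.mem_univ _, fun i k hik hk => ?_⟩, fun i hi dir => ?_⟩
  · rw [List.length_nil] at hk
    omega
  · have h0 : i = 0 := by
      rw [List.length_nil] at hi
      omega
    rw [h0]
    have : row dir (vx oo up [] 0) = 0 := by
      cases dir <;> decide
    rw [this, abs_zero]
    positivity

/-- **the reduction of the direction true to the direction false, exactly n letters** -/
theorem dirRedX (n : ℕ) (c : ℝ≥0∞) (E F : Set (List Bool))
    (hF : ∀ n', n' ≤ n → gf {s | s ∈ SA ∧ s.length = n' ∧ s ∈ F} ≤ c)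
    (h : ∀ (q : ℕ) (t : List Bool) (sg : ℤ), t ∈ SA → q ≤ t.length → (sg = 1 ∨ sg = -1) →
      (∀ i, i ≤ q → |lvl true (vx oo up t i) - lvl true (vx oo up t q)| ≤ 2) →
      (∀ i, q + i ≤ t.length →
        lvl true (vx oo up t (q + i)) - lvl true (vx oo up t q) = sg * lvl false (vx oo up (t.drop q) i)) →
      (∀ K, t ∈ WL K → t.drop q ∈ WL (K + 3)) → t ∈ E → t.drop q ∈ F) :
    gf {t | t ∈ SA ∧ t.length = n ∧ t ∈ E} ≤ ENNReal.ofReal (2 * CD) * c := by
  classical
  obtain ⟨F', hF'⟩ : ∃ F', F' = {t | t ∈ SA ∧ t ∈ F} := ⟨_, rfl⟩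
  have hF2 : ∀ n', n' ≤ n → gf {s | s.length = n' ∧ s ∈ F'} ≤ c := by
    intro n' hn'
    refine (gf_mono ?_).trans (hF n' hn')
    rintro s ⟨h1, h2⟩
    rw [hF'] at h2
    exact ⟨h2.1, h1, h2.2⟩
  have hsub : {t | t ∈ SA ∧ t.length = n ∧ t ∈ E} ⊆ {t | t.length = n ∧ ∃ q, ∃ s ∈ F', t = Qz q ++ s} ∪
      {t | t.length = n ∧ ∃ q, ∃ s ∈ F', t = Pz q ++ s} := by
    rintro t ⟨ht, htl, hE⟩
    by_cases hex : ∃ q, q ≤ t.length ∧ vert (dx up t q)
    · left
      obtain ⟨hq, hv⟩ := Nat.find_spec hex
      have hmin : ∀ i, i < Nat.find hex → ¬ vert (dx up t i) := fun i hi h => Nat.find_min hex hi ⟨by omega, h⟩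
      set q := Nat.find hex
      obtain ⟨σ, hσ, hlv, hin⟩ := lvl_drop hq hv
      have hSA : t.drop q ∈ SA := by
        refine ⟨fun _ _ _ => Set.mem_univ _, ?_⟩
        intro i k hik hk heq
        rw [List.length_drop] at hk
        exact ht.inj (q + i) (q + k) (by omega) (by omega) (hin i k heq)
      refine ⟨htl, q, t.drop q, ?_, by rw [← take_eq hq hmin hv, List.take_append_drop]⟩
      rw [hF']
      refine ⟨hSA, h q t σ ht hq hσ ?_ ?_ (fun K hK => drop_WL hK hq hv hSA) hE⟩
      · intro i hi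
        rw [zz_lvl hmin i hi, zz_lvl hmin q le_rfl, abs_le]
        split_ifs <;> constructor <;> omega
      · intro i _
        rw [hlv i]
        show _ = σ * lev (t.drop q) i
        ring
    · right
      push Not at hex
      have hall : ∀ i, i < t.length + 1 → ¬ vert (dx up t i) := fun i hi => hex i (by omega)
      refine ⟨htl, t.length, [], ?_, by rw [List.append_nil]; exact all_eq hall⟩
      rw [hF']
      refine ⟨(nil_WL 0).1, ?_⟩
      have h1 := h t.length t 1 ht le_rfl (Or.inl rfl) ?_ ?_ ?_ hE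
      · rw [List.drop_length] at h1
        exact h1
      · intro i hi
        rw [zz_lvl hall i (by omega), zz_lvl hall t.length (by omega), abs_le]
        split_ifs <;> constructor <;> omega
      · intro i hi
        have h0 : i = 0 := by omega
        rw [h0, add_zero, sub_self]
        show (0 : ℤ) = 1 * lvl false oo
        decide
      · intro K _
        rw [List.drop_length]
        exact nil_WL _
  refine (gf_mono hsub).trans ((gf_union_le _ _).trans ((add_le_add (gf_pre n c F' hF2 Qz Qz_length)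
    (gf_pre n c F' hF2 Pz Pz_length)).trans (le_of_eq ?_)))
  rw [← two_mul, ← mul_assoc, ENNReal.ofReal_mul (by norm_num), show ENNReal.ofReal 2 = 2 by norm_num]

/-- **the reduction of the three directions to the direction false, exactly n letters** -/
theorem dir3X (d : Fin 3) (n : ℕ) (c : ℝ≥0∞) (E F : Set (List Bool))
    (hF : ∀ n', n' ≤ n → gf {s | s ∈ SA ∧ s.length = n' ∧ s ∈ F} ≤ c)
    (h : ∀ (q : ℕ) (t : List Bool) (sg : ℤ), t ∈ SA → q ≤ t.length → (sg = 1 ∨ sg = -1) →
      (∀ i, i ≤ q → |lv3 d (vx oo up t i) - lv3 d (vx oo up t q)| ≤ 2) →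
      (∀ i, q + i ≤ t.length →
        lv3 d (vx oo up t (q + i)) - lv3 d (vx oo up t q) = sg * lvl false (vx oo up ((wd d t).drop q) i)) →
      (∀ K, t ∈ WL K → (wd d t).drop q ∈ WL (K + 5)) → t ∈ E → (wd d t).drop q ∈ F) :
    gf {t | t ∈ SA ∧ t.length = n ∧ t ∈ E} ≤ ENNReal.ofReal (2 * CD) * c := by
  have hCD := CD_ge
  have hWm : ∀ {K K' : ℕ} {t : List Bool}, K ≤ K' → t ∈ WL K → t ∈ WL K' := fun hK ht =>
    ⟨ht.1, fun i hi dir => (ht.2 i hi dir).trans (pow_le_pow_right₀ (by norm_num) hK)⟩
  have hd : d = 0 ∨ d = 1 ∨ d = 2 := by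
    fin_cases d
    · exact Or.inl rfl
    · exact Or.inr (Or.inl rfl)
    · exact Or.inr (Or.inr rfl)
  rcases hd with rfl | rfl | rfl
  · have h1 : gf {t | t ∈ SA ∧ t.length = n ∧ t ∈ E} ≤ c := by
      refine (gf_mono ?_).trans (hF n le_rfl)
      rintro t ⟨h1, h2, h3⟩
      refine ⟨h1, h2, ?_⟩
      have h4 := h 0 t 1 h1 (Nat.zero_le _) (Or.inl rfl) ?_ ?_ ?_ h3
      · simpa [wd] using h4
      · intro i hi
        have : i = 0 := by omega
        rw [this, sub_self, abs_zero]
        norm_num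
      · intro i _
        show lvl false (vx oo up t (0 + i)) - lvl false oo = 1 * lvl false (vx oo up (t.drop 0) i)
        rw [List.drop_zero, zero_add, one_mul, show lvl false oo = 0 by decide, sub_zero]
      · intro K hK
        show (t.drop 0) ∈ _
        rw [List.drop_zero]
        exact hWm (by omega) hK
    calc gf {t | t ∈ SA ∧ t.length = n ∧ t ∈ E} ≤ 1 * c := by rw [one_mul]; exact h1
      _ ≤ ENNReal.ofReal (2 * CD) * c := by
          refine mul_le_mul_left ?_ _
          rw [← ENNReal.ofReal_one]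
          exact ENNReal.ofReal_le_ofReal (by linarith)
  · refine dirRedX n c E F hF fun q t sg ht hq hsg h1 h2 h3 hE => ?_
    exact h q t sg ht hq hsg h1 h2 (fun K hK => hWm (by omega) (h3 K hK)) hE
  · refine (gf_mw_le (Q := {t | t ∈ SA ∧ t.length = n ∧ t ∈ {t | mw t ∈ E}}) ?_).trans
      (dirRedX n c {t | mw t ∈ E} F hF fun q t sg ht hq hsg h1 h2 h3 hE => ?_)
    · rintro t ⟨h1, h2, h3⟩
      refine ⟨mw_SA h1, by rw [mw_length]; exact h2, ?_⟩
      show mw (mw t) ∈ E
      rw [mw_mw]
      exact h3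
    · have hl := mw_length t
      have e : ∀ i, i ≤ t.length + 1 → lv3 2 (vx oo up (mw t) i) = lvl true (vx oo up t i) := by
        intro i hi
        have := lvl_wd 2 (mw t) (i := i) (by rw [hl]; exact hi)
        rw [← this]
        show lvl true (vx oo up (mw (mw t)) i) = _
        rw [mw_mw]
      have e2 : wd 2 (mw t) = t := by
        show mw (mw t) = t
        exact mw_mw t
      have h4 := h q (mw t) sg (mw_SA ht) (by rw [hl]; exact hq) hsg ?_ ?_ ?_ hE
      · rwa [e2] at h4
      · intro i hi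
        rw [e i (by omega), e q (by omega)]
        exact h1 i hi
      · intro i hi
        rw [hl] at hi
        rw [e (q + i) (by omega), e q (by omega), e2]
        exact h2 i hi
      · intro K hK
        rw [e2]
        have h5 := mw_WL hK
        rw [mw_mw] at h5
        have h6 := h3 (K + 2) h5
        rwa [show K + 2 + 3 = K + 5 by ring] at h6

end EN

end HexObs
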