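import Pool.Agent.EN.OutEvent
import Pool.Agent.EN.DirX

/-!
EN (every n, outer mark EX1S): the walks with exactly n letters, a run in a class of small exact norm and a large range, three
directions.
-/

set_option autoImplicit false

namespace HexObs

namespace EN

open Finset TS SDN NTW NTA

open scoped ENNReal

/-- the tall and short leaves -/
def TallS (H n : ℕ) : Set (List Bool) := {g | 2 ^ H ≤ hgt g ∧ g.length ≤ n}

/-- the runs of R with a tall and short leaf -/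
def RTall (R : Set (List (List Bool))) (H n : ℕ) : Set (List (List Bool)) :=
  {ms | ms ∈ R ∧ ∃ g ∈ ms, 2 ^ H ≤ hgt g ∧ g.length ≤ n}

/-- the geometry of a large range -/
def OutGeoP : Prop := ∀ (kc J n H m1 : ℕ) (R : Set (List (List Bool))) (t : List Bool), (∀ ms ∈ R, ms.length ≤ m1) →
  t.length ≤ n → t ∈ ERM kc (kc + J) R →
  (∃ i j, i ≤ t.length ∧ j ≤ t.length ∧ 6 * ((m1 : ℤ) + 2) * 2 ^ H ≤ lev t i - lev t j) →
  t ∈ ERM kc (kc + J) {ms | ms ∈ R ∧ ∃ g ∈ ms, 2 ^ H ≤ hgt g ∧ g.length ≤ n} ∨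
    t ∈ ERS kc J R {g | 2 ^ H ≤ hgt g ∧ g.length ≤ n}

namespace OS

/-- the event theorem for runs in the form ERM, exactly n letters -/
theorem runXm : ∃ (C : ℝ) (k0 : ℕ), 1 ≤ C ∧
    ∀ (kc J n : ℕ) (R : Set (List (List Bool))) (δ : ℝ), k0 ≤ kc → 6 ≤ J → 0 < δ → SmRX DmJ kc R δ →
    gf {t | t.length = n ∧ t ∈ ERM kc (kc + J) R} ≤ ENNReal.ofReal (C ^ J * δ * Ub (kc + J)) * Xb (kc + J) ^ 2 := by
  obtain ⟨Ci, δi, hI⟩ := inp_exists
  obtain ⟨C0, k0, hC0, h0⟩ := eventRXJ (ssA hI)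
  obtain ⟨D, hD, hDX⟩ := Xb_pow
  have hC0' : 0 ≤ C0 := by linarith
  have hD0 : 0 ≤ D := by linarith
  refine ⟨C0 * D ^ 16, k0, ?_, fun kc J n R δ hk hJ hδ hS => ?_⟩
  · have : 1 ≤ D ^ 16 := one_le_pow₀ hD
    nlinarith
  · have hUp := Ub_pos (kc + J)
    obtain ⟨lam', hQ⟩ := QL_exists (kc + J + 8)
    have h1 : gf {t | t.length = n ∧ t ∈ ERM kc (kc + J) R} ≤
        ENNReal.ofReal (C0 ^ J * δ * Ub (kc + J)) * (Xb (kc + J + 8)) ^ 2 := by
      refine (gf_mono fun t ht => ?_).trans ((h0 kc J n lam' n R δ hk hJ hδ hQ hS).trans ?_)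
      · exact ⟨ht.1, ⟨ht.2.1.1, ht.1.le⟩, RD.erm_sub ht.2⟩
      · exact mul_le_mul_right (pow_le_pow_left' (bl_le_Xb _ _) 2) _
    refine h1.trans ?_
    calc ENNReal.ofReal (C0 ^ J * δ * Ub (kc + J)) * (Xb (kc + J + 8)) ^ 2
        ≤ ENNReal.ofReal (C0 ^ J * δ * Ub (kc + J)) * (ENNReal.ofReal (D ^ 8) * Xb (kc + J)) ^ 2 := by
          exact mul_le_mul_right (pow_le_pow_left' (hDX (kc + J) 8) 2) _
      _ = ENNReal.ofReal (C0 ^ J * D ^ 16 * δ * Ub (kc + J)) * Xb (kc + J) ^ 2 := by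
          rw [mul_pow, ← ENNReal.ofReal_pow (by positivity), ← mul_assoc, ← ENNReal.ofReal_mul (by positivity)]
          congr 2
          ring
      _ ≤ _ := by
          refine mul_le_mul_left (ENNReal.ofReal_le_ofReal ?_) _
          have e1 : D ^ 16 ≤ (D ^ 16) ^ J := by
            calc D ^ 16 = (D ^ 16) ^ 1 := by rw [pow_one]
              _ ≤ (D ^ 16) ^ J := pow_le_pow_right₀ (one_le_pow₀ hD) (by omega)
          rw [mul_pow]
          gcongr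

/-- the run of the part behind q -/
lemma run_tail {d : Fin 3} {kc K q : ℕ} {R : Set (List (List Bool))} {t : List Bool} {sg : ℤ} (hH : HR d kc R t)
    (hq : q ≤ t.length) (hsg : sg = 1 ∨ sg = -1)
    (h1 : ∀ i, i ≤ q → |lv3 d (vx oo up t i) - lv3 d (vx oo up t q)| ≤ 2)
    (h2 : ∀ i, q + i ≤ t.length →
      lv3 d (vx oo up t (q + i)) - lv3 d (vx oo up t q) = sg * lvl false (vx oo up ((wd d t).drop q) i))
    (hW : (wd d t).drop q ∈ WL K) : (wd d t).drop q ∈ ERM kc K R := by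
  obtain ⟨m, u, e, hL, l, dd, hl, hd, hm, hR⟩ := hH
  have hlen : (wd d t).length = t.length := wd_length d t
  have hRR : (4 : ℤ) < RR (kc + 5) := by
    unfold RR
    have h1 : (2 : ℤ) ^ 5 ≤ 2 ^ (kc + 5) := pow_le_pow_right₀ (by norm_num) (by omega)
    norm_num at h1
    omega
  obtain ⟨m', rfl⟩ : ∃ m', m = m' + 1 := ⟨m - 1, by omega⟩
  have hlv : ∀ i, i ≤ t.length → lvl (dr d) (vx oo up (wd d t) i) = lv3 d (vx oo up t i) := fun i hi =>
    lvl_wd d t (by omega)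
  obtain ⟨c, e', hc, hH, he⟩ := RD.hyst_tail (q := q) hRR (fun i hi => by
    show |lvl (dr d) (vx oo up (wd d t) i) - lvl (dr d) (vx oo up (wd d t) q)| ≤ 2
    rw [hlv i (by omega), hlv q hq]
    exact h1 i hi) hL
  obtain ⟨u', hH'⟩ := RD.hyst_sgn (f := fun i => lvl false (vx oo up ((wd d t).drop q) i))
    (c := lv3 d (vx oo up t q)) hsg (fun i hi => by
      rw [hlen] at hi
      show lvl (dr d) (vx oo up (wd d t) (q + i)) = lv3 d (vx oo up t q) + sg * lvl false (vx oo up ((wd d t).drop q) i)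
      rw [hlv (q + i) (by omega), ← h2 i (by omega)]
      ring) hH
  rw [← List.length_drop] at hH'
  refine ⟨hW, m' + 1 - c, u', e', hH', l - c, dd, by omega, hd, by omega, ?_⟩
  have h4 : lws ((wd d t).drop q) e' (l - c) dd = lws (wd d t) e l dd := by
    unfold lws
    apply List.map_congr_left
    intro i hi
    rw [List.mem_range] at hi
    have e1 := he (l - c + i) (by omega) (by omega)
    have e2 := he (l - c + i + 1) (by omega) (by omega)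
    rw [show l - c + i + c = l + i by omega] at e1
    rw [show l - c + i + 1 + c = l + i + 1 by omega] at e2
    have e3 : e' (l - c + i) < e' (l - c + i + 1) := hH.lt (l - c + i) (by omega)
    rw [e1, e2, RD.lw_dropQ (by omega)]
  rw [h4]
  exact hR

end OS

open OS in
/-- **runs of small exact norm and a large range, three directions** -/
theorem exs_of (hG : OutGeoP) : ∃ (C : ℝ) (k0 : ℕ), 1 ≤ C ∧
    ∀ (d : Fin 3) (kc J n H m1 : ℕ) (R : Set (List (List Bool))) (δ δ' ε : ℝ), k0 ≤ kc → 6 ≤ J → 0 < δ → 0 < δ' →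
      0 < ε → (∀ ms ∈ R, ms.length ≤ m1) → SmRX DmJ kc R δ →
      SmRX DmJ kc {ms | ms ∈ R ∧ ∃ g ∈ ms, 2 ^ H ≤ hgt g ∧ g.length ≤ n} δ' →
      (∀ k1, kc ≤ k1 → k1 ≤ kc + J + 5 →
        SmD DmJ k1 {g | g ∈ BrR (2 ^ (k1 + 4)) (2 ^ (kc + J + 7)) ∧ 2 ^ H ≤ hgt g ∧ g.length ≤ n} ε) →
      gf {t | t.length = n ∧ t ∈ WL (kc + J) ∧ HR d kc R t ∧
        ∃ i j, i ≤ n ∧ j ≤ n ∧ 6 * ((m1 : ℤ) + 3) * 2 ^ H ≤ lv3 d (vx oo up t i) - lv3 d (vx oo up t j)} ≤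
        ENNReal.ofReal (C ^ J * (δ * ε + δ') * Ub (kc + J)) * Xb (kc + J) ^ 2 := by
  obtain ⟨C1, k1, hC1, h1⟩ := runXm
  obtain ⟨C2, k2, hC2, h2⟩ := eventS
  obtain ⟨D, hD, hDX⟩ := Xb_pow
  have hCD := DirA.CD_ge
  obtain ⟨C0, hC0⟩ : ∃ C0, C0 = max C1 C2 := ⟨_, rfl⟩
  have hC01 : 1 ≤ C0 := by rw [hC0]; exact hC1.trans (le_max_left _ _)
  have hC0p : 0 ≤ C0 := by linarith
  have hC1p : 0 ≤ C1 := by linarith
  have hC2p : 0 ≤ C2 := by linarith
  have hD0 : 0 ≤ D := by linarith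
  obtain ⟨A, hA⟩ : ∃ A, A = 2 * DirA.CD * (C0 ^ 5 * 32 * D ^ 10) := ⟨_, rfl⟩
  have hA1 : 1 ≤ A := by
    rw [hA]
    have e1 : 1 ≤ C0 ^ 5 := one_le_pow₀ hC01
    have e2 : 1 ≤ D ^ 10 := one_le_pow₀ hD
    have e3 : 1 ≤ C0 ^ 5 * 32 * D ^ 10 := by nlinarith
    nlinarith
  refine ⟨C0 * A, max k1 k2, by nlinarith, ?_⟩
  intro d kc J n H m1 R δ δ' ε hk hJ hδ hδ' hε hm hS hS' hSS
  have hk1 : k1 ≤ kc := (le_max_left _ _).trans hk
  have hk2 : k2 ≤ kc := (le_max_right _ _).trans hk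
  have hU := Ub_pos (kc + J)
  have hU5 := Ub_pos (kc + (J + 5))
  obtain ⟨c, hc⟩ : ∃ c, c = ENNReal.ofReal (C0 ^ (J + 5) * (δ * ε + δ') * Ub (kc + (J + 5))) * Xb (kc + (J + 5)) ^ 2 :=
    ⟨_, rfl⟩
  have hmain := dir3X d n c
    {t | t ∈ WL (kc + J) ∧ HR d kc R t ∧ t.length = n ∧
      ∃ i j, i ≤ n ∧ j ≤ n ∧ 6 * ((m1 : ℤ) + 3) * 2 ^ H ≤ lv3 d (vx oo up t i) - lv3 d (vx oo up t j)}
    {s | s ∈ ERM kc (kc + (J + 5)) R ∧ ∃ i j, i ≤ s.length ∧ j ≤ s.length ∧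
      6 * ((m1 : ℤ) + 2) * 2 ^ H ≤ lev s i - lev s j} ?_ ?_
  · have hsub : {t | t.length = n ∧ t ∈ WL (kc + J) ∧ HR d kc R t ∧
        ∃ i j, i ≤ n ∧ j ≤ n ∧ 6 * ((m1 : ℤ) + 3) * 2 ^ H ≤ lv3 d (vx oo up t i) - lv3 d (vx oo up t j)} ⊆
        {t | t ∈ SA ∧ t.length = n ∧ t ∈ {t | t ∈ WL (kc + J) ∧ HR d kc R t ∧ t.length = n ∧
          ∃ i j, i ≤ n ∧ j ≤ n ∧ 6 * ((m1 : ℤ) + 3) * 2 ^ H ≤ lv3 d (vx oo up t i) - lv3 d (vx oo up t j)}} :=
      fun t ht => ⟨ht.2.1.1, ht.1, ht.2.1, ht.2.2.1, ht.1, ht.2.2.2⟩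
    refine (gf_mono hsub).trans (hmain.trans ?_)
    rw [hc]
    have hUb : Ub (kc + (J + 5)) ≤ 32 * Ub (kc + J) := by
      have := Sc.Ub_shift (kc + J) 5
      rw [show kc + (J + 5) = kc + J + 5 by ring]
      have h4 : ((2 : ℝ) ^ 5) = 32 := by norm_num
      rwa [h4] at this
    calc ENNReal.ofReal (2 * DirA.CD) * (ENNReal.ofReal (C0 ^ (J + 5) * (δ * ε + δ') * Ub (kc + (J + 5))) *
          Xb (kc + (J + 5)) ^ 2)
        ≤ ENNReal.ofReal (2 * DirA.CD) * (ENNReal.ofReal (C0 ^ (J + 5) * (δ * ε + δ') * (32 * Ub (kc + J))) *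
          (ENNReal.ofReal (D ^ 5) * Xb (kc + J)) ^ 2) := by
          refine mul_le_mul_right (mul_le_mul' (ENNReal.ofReal_le_ofReal ?_) (pow_le_pow_left' ?_ 2)) _
          · exact mul_le_mul_of_nonneg_left hUb (by positivity)
          · have := hDX (kc + J) 5
            rwa [show kc + J + 5 = kc + (J + 5) by ring] at this
      _ = ENNReal.ofReal (C0 ^ J * A * (δ * ε + δ') * Ub (kc + J)) * Xb (kc + J) ^ 2 := by
          rw [mul_pow, ← ENNReal.ofReal_pow (by positivity), ← mul_assoc, ← mul_assoc, ← ENNReal.ofReal_mul (by positivity),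
            ← ENNReal.ofReal_mul (by positivity), hA]
          congr 2
          ring
      _ ≤ _ := by
          refine mul_le_mul_left (ENNReal.ofReal_le_ofReal ?_) _
          have e1 : A ≤ A ^ J := by
            calc A = A ^ 1 := by rw [pow_one]
              _ ≤ A ^ J := pow_le_pow_right₀ hA1 (by omega)
          rw [mul_pow]
          gcongr
  · intro n' hn'
    have hset : ∀ k1, kc ≤ k1 → k1 ≤ kc + (J + 5) →
        SmD DmJ k1 ({g | 2 ^ H ≤ hgt g ∧ g.length ≤ n} ∩ BrR (2 ^ (k1 + 4)) (2 ^ (kc + (J + 5) + 2))) ε := by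
      intro k1 hk1 hk1'
      have h3 := hSS k1 hk1 (by omega)
      have e1 : {g | 2 ^ H ≤ hgt g ∧ g.length ≤ n} ∩ BrR (2 ^ (k1 + 4)) (2 ^ (kc + (J + 5) + 2)) =
          {g | g ∈ BrR (2 ^ (k1 + 4)) (2 ^ (kc + J + 7)) ∧ 2 ^ H ≤ hgt g ∧ g.length ≤ n} := by
        rw [show kc + (J + 5) + 2 = kc + J + 7 by ring]
        ext g
        exact ⟨fun h => ⟨h.2, h.1⟩, fun h => ⟨h.2, h.1⟩⟩
      rw [e1]
      exact h3
    have hsub : {s | s ∈ SA ∧ s.length = n' ∧ s ∈ {s | s ∈ ERM kc (kc + (J + 5)) R ∧ ∃ i j, i ≤ s.length ∧ j ≤ s.length ∧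
        6 * ((m1 : ℤ) + 2) * 2 ^ H ≤ lev s i - lev s j}} ⊆
        {t | t.length = n' ∧ t ∈ ERM kc (kc + (J + 5)) {ms | ms ∈ R ∧ ∃ g ∈ ms, 2 ^ H ≤ hgt g ∧ g.length ≤ n}} ∪
        {t | t.length = n' ∧ t ∈ ERS kc (J + 5) R {g | 2 ^ H ≤ hgt g ∧ g.length ≤ n}} := by
      rintro s ⟨-, s2, s3, s4⟩
      rcases hG kc (J + 5) n H m1 R s hm (by omega) s3 s4 with h3 | h3
      · exact Or.inl ⟨s2, h3⟩
      · exact Or.inr ⟨s2, h3⟩
    refine (gf_mono hsub).trans ((gf_union_le _ _).trans ((add_le_add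
      (h1 kc (J + 5) n' _ δ' hk1 (by omega) hδ' hS')
      (h2 kc (J + 5) n' R _ δ ε hk2 (by omega) hδ hε hS hset)).trans ?_))
    rw [hc, ← add_mul, ← ENNReal.ofReal_add (by positivity) (by positivity)]
    refine mul_le_mul_left (ENNReal.ofReal_le_ofReal ?_) _
    have e1 : C1 ^ (J + 5) ≤ C0 ^ (J + 5) := pow_le_pow_left₀ hC1p (by rw [hC0]; exact le_max_left _ _) _
    have e2 : C2 ^ (J + 5) ≤ C0 ^ (J + 5) := pow_le_pow_left₀ hC2p (by rw [hC0]; exact le_max_right _ _) _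
    calc C1 ^ (J + 5) * δ' * Ub (kc + (J + 5)) + C2 ^ (J + 5) * (δ * ε) * Ub (kc + (J + 5))
        ≤ C0 ^ (J + 5) * δ' * Ub (kc + (J + 5)) + C0 ^ (J + 5) * (δ * ε) * Ub (kc + (J + 5)) := by gcongr
      _ = _ := by ring
  · rintro q t sg ht hq hsg g1 g2 g3 ⟨hW, hH, hn, i, j, hi, hj, hij⟩
    have hW' := g3 (kc + J) hW
    rw [show kc + J + 5 = kc + (J + 5) by ring] at hW'
    refine ⟨run_tail hH hq hsg g1 g2 hW', ?_⟩
    have hlen : ((wd d t).drop q).length = t.length - q := by rw [List.length_drop, wd_length]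
    have hp : ∀ x, x ≤ n → ∃ y, y ≤ t.length - q ∧
        |lv3 d (vx oo up t x) - (lv3 d (vx oo up t q) + sg * lev ((wd d t).drop q) y)| ≤ 2 := by
      intro x hx
      rcases le_total x q with hc | hc
      · refine ⟨0, Nat.zero_le _, ?_⟩
        have e0 : lev ((wd d t).drop q) 0 = 0 := by
          show lvl false oo = 0
          decide
        rw [e0, mul_zero, add_zero]
        exact g1 x hc
      · refine ⟨x - q, by omega, ?_⟩
        have e1 := g2 (x - q) (by omega)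
        rw [show q + (x - q) = x by omega] at e1
        have e2 : lvl false (vx oo up ((wd d t).drop q) (x - q)) = lev ((wd d t).drop q) (x - q) := rfl
        rw [e2] at e1
        rw [← e1, show lv3 d (vx oo up t x) - (lv3 d (vx oo up t q) + (lv3 d (vx oo up t x) - lv3 d (vx oo up t q))) = 0 by
          ring]
        norm_num
    obtain ⟨i', hi', hi2⟩ := hp i hi
    obtain ⟨j', hj', hj2⟩ := hp j hj
    have hpw : (1 : ℤ) ≤ 2 ^ H := one_le_pow₀ (by norm_num)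
    rw [abs_le] at hi2 hj2
    have h6 : 6 * ((m1 : ℤ) + 3) * 2 ^ H = 6 * ((m1 : ℤ) + 2) * 2 ^ H + 6 * 2 ^ H := by ring
    rcases hsg with rfl | rfl
    · refine ⟨i', j', by rw [hlen]; exact hi', by rw [hlen]; exact hj', ?_⟩
      linarith [hi2.1, hi2.2, hj2.1, hj2.2]
    · refine ⟨j', i', by rw [hlen]; exact hj', by rw [hlen]; exact hi', ?_⟩
      linarith [hi2.1, hi2.2, hj2.1, hj2.2]

end EN

end HexObs
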