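import Pool.Agent.EN.GBM
import Pool.Agent.EN.Esp
import Pool.Agent.EN.NumUb
import Pool.Agent.EN.OutExS
import Pool.Agent.EN.EmoM

/-!
EN: the instance m k = mZ (2 ^ k) of the exact spatial tail, the pointwise upper bound and the exact modulus.
-/

set_option autoImplicit false

namespace HexObs

namespace EN

open Finset TS SDN NTW NTA

open scoped ENNReal

/-- the light bridges with few letters -/
theorem asm_M : ASm (fun k => PW.mZ (2 ^ k)) := by
  obtain ⟨a1, h1, h2, hI⟩ := indB2_M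
  exact asm_of (by linarith) mlow_M (num_short mlow_M.pos c1_M (by linarith) hI)

/-- **the exact modulus, no hypothesis** -/
theorem emo_M : EMOw (fun k => PW.mZ (2 ^ k)) := by
  obtain ⟨J00, h⟩ := gbm_M
  exact emow_M (h J00 le_rfl) asm_M

theorem exsX_of (hG : OutGeoP) : ExsX := by
  obtain ⟨C, k0, hC, h⟩ := exs_of hG
  refine ⟨C, k0, hC, fun d kc J n H m1 R δ δ' ε h1 h2 h3 h4 h5 h6 h7 h8 h9 =>
    h d kc J n H m1 R δ δ' ε h1 h2 h3 h4 h5 h6 h7 h8 fun k1 g1 g2 => smD_anti ?_ (h9 k1 g1 (by omega))⟩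
  rintro g ⟨g3, g4⟩
  exact ⟨brR_mono (Nat.pow_le_pow_right (by norm_num) (by omega)) g3, g4⟩

/-- **the exact spatial tail** -/
theorem espw_G (hG : OutGeoP) : ESPw (fun k => PW.mZ (2 ^ k)) :=
  espw_of mlow_M mup_M asm_M gbu_M (exsX_of hG) (extX_of extM)

/-- **the pointwise upper bound** -/
theorem allX_G (hG : OutGeoP) : AllX (fun k => PW.mZ (2 ^ k)) :=
  allX_of mlow_M mup_M asm_M gbu_M (exsX_of hG) (extX_of extM)

end EN

end HexObs
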