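import Pool.Agent.EN.Marks
import Pool.Agent.NTA.RunCrd

/-!
EN: the exact norm of the crowded runs: a prefix of a crowded run is a crowded run, the last J0 + 1 leaves are free.
-/

set_option autoImplicit false

namespace HexObs

namespace EN

open Finset TS SDN NTW NTA

open scoped ENNReal

lemma caps_take (q w : ℕ) (j : ℕ) : ∀ (X S : ℤ) (gs : List (List Bool)),
    caps q w X S (gs.take (2 * j)) <+: caps q w X S gs := by
  induction j with
  | zero =>
    intro X S gs
    rw [Nat.mul_zero, List.take_zero]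
    simp [caps]
  | succ j ih =>
    intro X S gs
    rcases gs with _ | ⟨g, _ | ⟨g', gs⟩⟩
    · simp
    · rw [show 2 * (j + 1) = 2 * j + 1 + 1 by ring, List.take_succ_cons]
      simp
    · rw [show 2 * (j + 1) = 2 * j + 1 + 1 by ring, List.take_succ_cons, List.take_succ_cons]
      unfold caps
      exact List.prefix_cons_inj _ |>.2 (ih _ _ _)

/-- a prefix of a crowded run -/
lemma CS_take {D N q w n M m : ℕ} (hm : m ≤ M) {gs : List (List Bool)} (h : gs ∈ CS D N q w n M) :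
    gs.take m ∈ CS D N q w n m := by
  obtain ⟨h1, h2, h3, h4, h5⟩ := h
  have e : ((gs.take m).drop 1).take (2 * ((m - 4) / 2)) =
      ((gs.drop 1).take (2 * ((M - 4) / 2))).take (2 * ((m - 4) / 2)) := by
    rw [List.drop_take, List.take_take, List.take_take]
    congr 1
    omega
  have hp := caps_take q w ((m - 4) / 2) 0 0 ((gs.drop 1).take (2 * ((M - 4) / 2)))
  rw [← e] at hp
  have hs : (caps q w 0 0 (((gs.take m).drop 1).take (2 * ((m - 4) / 2)))).toFinset ⊆
      (caps q w 0 0 ((gs.drop 1).take (2 * ((M - 4) / 2)))).toFinset := fun x hx =>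
    List.mem_toFinset.2 (hp.subset (List.mem_toFinset.1 hx))
  refine ⟨?_, h2.take m, fun u hu => h3 u (List.mem_of_mem_take hu), fun x hx y hy => h4 x (hs hx) y (hs hy),
    (Finset.card_le_card hs).trans h5⟩
  rw [List.length_take]
  omega

/-- **the crowded runs, exact** -/
theorem smRX_crowd (mu : ℕ) : ∃ (k0 w0 Q : ℕ) (C0 : ℝ), w0 ≤ k0 ∧ 2 ≤ Q ∧ 0 < C0 ∧ ∀ kc m n J0 : ℕ, ∀ q E : ℝ,
    k0 ≤ kc → 4 ≤ m → 2 * Q * (n + 1) ≤ m → 1 ≤ q → GB DmJ kc (BrR (2 ^ (kc + 4)) (2 ^ (kc + 5 + mu))) J0 E →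
    SmD DmJ kc (BrR (2 ^ (kc + 4)) (2 ^ (kc + 5 + mu))) q →
    SmRX DmJ kc (CS (2 ^ (kc + 4)) (2 ^ (kc + 5 + mu)) (kc + 2) (2 ^ (kc - w0)) n (m + (J0 + 1)))
      (C0 / 4 ^ m * ((4 * q) ^ (J0 + 1) * E)) := by
  obtain ⟨k0, w0, Q, C0, hw, hQ, hC0, h⟩ := smR_crowd mu
  refine ⟨k0, w0, Q, C0, hw, hQ, hC0, fun kc m n J0 q E hk hm hn hq hGB hA => ?_⟩
  refine SmRX.anti (smRX_after dmP inH_box hq (by positivity) hGB hA ?_ (h kc m n hk hm hn)) ?_
  · intro gs hgs g hg
    exact inH_box (hgs.2.2.1 g hg)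
  · intro gs hgs
    have hl := hgs.1
    have h1 := CS_take (m := m) (by omega) hgs
    refine ⟨gs.take m, h1, gs.drop m, ?_, ?_, fun g hg => hgs.2.2.1 g (List.mem_of_mem_drop hg),
      (List.take_append_drop m gs).symm⟩
    · intro h0
      have := h1.1
      rw [h0, List.length_nil] at this
      omega
    · rw [List.length_drop]
      omega

end EN

end HexObs
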