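import Pool.Agent.EN.ExRest

/-!
EN: the two sided sum over the leaves of a window class with an arbitrary relation between the continuations on the left,
the leaf and the continuations on the right; the relation leaves little weight for the free middle part.
-/

set_option autoImplicit false

namespace HexObs

namespace EN

open Finset TS SDN SDN.T2 NTW

open scoped ENNReal

open KJ SH DW DO TG SE

/-- the free middle part of a leaf of W in the relation C has a small weight -/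
def EZJ {ι ι' : Type} (D N e : ℕ) (W : Set (List Bool)) (C : ι → ι' → List Bool → Prop) (A : ℝ) : Prop :=
  ∀ M ∈ BU, ∀ P1 ∈ IU, ∀ P2 ∈ IU, ∀ Q ∈ BU, hgt M + hgt P1 ≤ 2 ^ e → hgt P2 + hgt Q ≤ 2 ^ e → ∀ (a : ι) (b : ι'),
  ∑' h : ℕ, gf {Z | Z ∈ Brd h ∧ C a b (M ++ (P1 ++ (Z ++ (P2 ++ Q)))) ∧ M ++ (P1 ++ (Z ++ (P2 ++ Q))) ∈ W ∧
    M ++ (P1 ++ (Z ++ (P2 ++ Q))) ∈ BrR D N} ≤ ENNReal.ofReal A

open Classical in
/-- the sum over the middle parts -/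
lemma mid_j {ι ι' : Type} {D N e n r r' m : ℕ} {A : ℝ} {W : Set (List Bool)} {C : ι → ι' → List Bool → Prop}
    (hWN : W ⊆ BrR D N) (hW : EZJ D N e W C A)
    {X P P' M : List Bool} (hX : X ∈ Brd n) (hP : P ∈ Irr r) (hP' : P' ∈ Irr r') (hM : M ∈ Brd m)
    (h1 : n + r ≤ 2 ^ e) (h2 : m + r' ≤ 2 ^ e) (a : ι) (f : ι' → ℝ≥0∞) :
    Rec8.sw {Z | (∃ h, h ≤ N ∧ Z ∈ Brd h) ∧ X ++ (P ++ (Z ++ (P' ++ M))) ∈ W}
      (fun Z => ∑' b, if C a b (X ++ (P ++ (Z ++ (P' ++ M)))) then f b else 0) ≤ ENNReal.ofReal A * ∑' b, f b := by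
  rw [sw_tsum, ← ENNReal.tsum_mul_left]
  refine ENNReal.tsum_le_tsum fun b => ?_
  have e1 := hW X ⟨n, hX⟩ P ⟨r, hP⟩ P' ⟨r', hP'⟩ M ⟨m, hM⟩ (by rw [hgt_eq hX, hgt_eq hP.1]; omega)
    (by rw [hgt_eq hP'.1, hgt_eq hM]; omega) a b
  have e2 : Rec8.sw {Z | (∃ h, h ≤ N ∧ Z ∈ Brd h) ∧ X ++ (P ++ (Z ++ (P' ++ M))) ∈ W}
      (fun Z => if C a b (X ++ (P ++ (Z ++ (P' ++ M)))) then f b else 0) =
      gf {Z | Z ∈ {Z | ∃ h, h ≤ N ∧ Z ∈ Brd h} ∧ (C a b (X ++ (P ++ (Z ++ (P' ++ M)))) ∧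
        X ++ (P ++ (Z ++ (P' ++ M))) ∈ W)} * f b := by
    rw [← Rec8.sw_one, ← Rec8.sw_mul_right, Rec8.sw_ind, Rec8.sw_ind]
    refine tsum_congr fun Z => ?_
    by_cases h3 : Z ∈ {Z | (∃ h, h ≤ N ∧ Z ∈ Brd h) ∧ X ++ (P ++ (Z ++ (P' ++ M))) ∈ W}
    · by_cases h4 : C a b (X ++ (P ++ (Z ++ (P' ++ M))))
      · rw [if_pos h3, if_pos h4, if_pos (show Z ∈ {Z | Z ∈ {Z | ∃ h, h ≤ N ∧ Z ∈ Brd h} ∧
          (C a b (X ++ (P ++ (Z ++ (P' ++ M)))) ∧ X ++ (P ++ (Z ++ (P' ++ M))) ∈ W)} from ⟨h3.1, h4, h3.2⟩), one_mul]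
      · rw [if_pos h3, if_neg h4, if_neg (show Z ∉ {Z | Z ∈ {Z | ∃ h, h ≤ N ∧ Z ∈ Brd h} ∧
          (C a b (X ++ (P ++ (Z ++ (P' ++ M)))) ∧ X ++ (P ++ (Z ++ (P' ++ M))) ∈ W)} from fun h => h4 h.2.1), mul_zero]
    · rw [if_neg h3, if_neg (show Z ∉ {Z | Z ∈ {Z | ∃ h, h ≤ N ∧ Z ∈ Brd h} ∧
          (C a b (X ++ (P ++ (Z ++ (P' ++ M)))) ∧ X ++ (P ++ (Z ++ (P' ++ M))) ∈ W)} from fun h => h3 ⟨h.1, h.2.2⟩)]
  rw [e2]
  refine mul_le_mul_left (le_trans ?_ e1) _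
  refine (NTA.SP.gf_heights _ _ ?_).trans (ENNReal.tsum_le_tsum fun z => gf_mono ?_)
  · rintro Z ⟨z, -, hZ⟩
    exact ⟨z, hZ⟩
  · rintro Z ⟨h3, h4, h5⟩
    exact ⟨h3, h4, h5, hWN h5⟩

open Classical in
/-- **the rest of a leaf of W behind the head X and the piece P** -/
theorem rest_j (hA : SsA) : ∃ K : ℝ, 1 ≤ K ∧ ∀ {ι ι' : Type} (k e j N n r : ℕ) (A : ℝ) (x : ℝ≥0∞)
    (F : ι' → List Bool → ℝ≥0∞) (X P : List Bool) (W : Set (List Bool)) (C : ι → ι' → List Bool → Prop),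
    (∀ b, Hered (F b)) → DomJ k x (fun t => ∑' b, F b t) → j + 1 ≤ e → e ≤ k →
    W ⊆ BrR (2 ^ (k + 4)) N → EZJ (2 ^ (k + 4)) N e W C A → Win e j W → X ∈ Brd n → P ∈ Irr r → n + r ≤ 2 ^ e →
    ∀ a : ι, Rec8.sw {Z | Z ∈ BU ∧ X ++ (P ++ Z) ∈ W}
      (fun Z => ∑' b, if C a b (X ++ (P ++ Z)) then F b (P ++ Z) else 0) ≤
      ENNReal.ofReal (K * 2 ^ (k - j)) * ENNReal.ofReal A * x := by
  obtain ⟨K2, hK2, hend⟩ := endsJ hA
  refine ⟨K2, hK2, fun {ι ι'} k e j N n r A x F X P W C hF hΦ hj he hWN hW hw hX hP hnr a => ?_⟩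
  have hp4 : 2 ^ (k + 4) = 16 * 2 ^ k := by ring
  have hp0 : 1 ≤ 2 ^ k := Nat.one_le_two_pow
  have hpe : 2 ^ e ≤ 2 ^ k := Nat.pow_le_pow_right (by norm_num) he
  have hpj : 2 ^ (j + 1) ≤ 2 ^ e := Nat.pow_le_pow_right (by norm_num) hj
  have hPb : P ∈ Brd r := hP.1
  -- the function of the rest
  obtain ⟨G, hG⟩ : ∃ G : List Bool → ℝ≥0∞, G = fun Z => if X ++ (P ++ Z) ∈ W then
    (∑' b, if C a b (X ++ (P ++ Z)) then F b (P ++ Z) else 0) else 0 := ⟨_, rfl⟩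
  have hGv : ∀ Z, G Z = if X ++ (P ++ Z) ∈ W then
    (∑' b, if C a b (X ++ (P ++ Z)) then F b (P ++ Z) else 0) else 0 := fun Z => by rw [hG]
  have s0 : Rec8.sw {Z | Z ∈ BU ∧ X ++ (P ++ Z) ∈ W}
      (fun Z => ∑' b, if C a b (X ++ (P ++ Z)) then F b (P ++ Z) else 0) ≤
      Rec8.sw {Z | Z ∈ BU ∧ ∃ Y ∈ Brd n, Y ++ (P ++ Z) ∈ BrR (2 ^ (k + 4)) N} G := by
    rw [Rec8.sw_ind, Rec8.sw_ind]
    refine ENNReal.tsum_le_tsum fun Z => ?_
    by_cases hZ : Z ∈ {Z | Z ∈ BU ∧ X ++ (P ++ Z) ∈ W}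
    · rw [if_pos hZ, if_pos (show Z ∈ {Z | Z ∈ BU ∧ ∃ Y ∈ Brd n, Y ++ (P ++ Z) ∈ BrR (2 ^ (k + 4)) N} from
        ⟨hZ.1, X, hX, hWN hZ.2⟩), hGv, if_pos hZ.2]
    · rw [if_neg hZ]
      exact zero_le
  refine s0.trans ?_
  refine (outR (k := j) (by omega) hP G).trans ?_
  have hz : ∑' m : ℕ, mu j m r * Rec8.sw {M | M ∈ Brd m ∧ ∃ Y ∈ Brd n, Y ++ (P ++ M) ∈ BrR (2 ^ (k + 4)) N} G = 0 := by
    rw [ENNReal.tsum_eq_zero]
    intro m
    rcases Nat.lt_or_ge m (2 ^ (j + 1)) with hm | hm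
    · have e : {M : List Bool | M ∈ Brd m ∧ ∃ Y ∈ Brd n, Y ++ (P ++ M) ∈ BrR (2 ^ (k + 4)) N} = ∅ := by
        rw [Set.eq_empty_iff_forall_notMem]
        rintro M ⟨hM, Y, hY, H, h1, -, h3⟩
        have := Brd_height h3 (Brd_append hY (Brd_append hP.1 hM))
        omega
      rw [e]
      unfold Rec8.sw
      rw [tsum_empty, mul_zero]
    · rw [mu_eq_zero hm, zero_mul]
  rw [hz, zero_add]
  -- the pieces near the tail
  have hT : ∀ m r' : ℕ, mu j m r' * Rec8.sw {Z | ∃ h, h ≤ N ∧ Z ∈ Brd h} (fun Z => Rec8.sw (Irr r') (fun P' =>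
      Rec8.sw {M | M ∈ Brd m ∧ ∃ Y ∈ Brd n, Y ++ (P ++ (Z ++ (P' ++ M))) ∈ BrR (2 ^ (k + 4)) N}
        (fun M => G (Z ++ (P' ++ M))))) ≤
      ENNReal.ofReal A * (mu j m r' * Rec8.sw (Irr r') (fun P' => Rec8.sw (Brd m) (fun M => ∑' b, F b (P' ++ M)))) := by
    intro m r'
    by_cases hmu : mu j m r' = 0
    · rw [hmu, zero_mul]
      exact zero_le
    obtain ⟨hm1, hm2⟩ := mu_ne hmu
    rw [mul_left_comm]
    refine mul_le_mul_right ?_ _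
    calc Rec8.sw {Z | ∃ h, h ≤ N ∧ Z ∈ Brd h} (fun Z => Rec8.sw (Irr r') (fun P' =>
          Rec8.sw {M | M ∈ Brd m ∧ ∃ Y ∈ Brd n, Y ++ (P ++ (Z ++ (P' ++ M))) ∈ BrR (2 ^ (k + 4)) N}
            (fun M => G (Z ++ (P' ++ M)))))
        ≤ Rec8.sw {Z | ∃ h, h ≤ N ∧ Z ∈ Brd h} (fun Z => Rec8.sw (Irr r') (fun P' =>
          Rec8.sw (Brd m) (fun M => G (Z ++ (P' ++ M))))) :=
          Rec8.sw_mono' fun Z _ => Rec8.sw_mono' fun P' _ => Rec8.sw_mono (fun t ht => ht.1) fun M _ => le_rfl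
      _ = Rec8.sw (Irr r') (fun P' => Rec8.sw (Brd m) (fun M => Rec8.sw {Z | ∃ h, h ≤ N ∧ Z ∈ Brd h} (fun Z =>
          G (Z ++ (P' ++ M))))) := by
          rw [Rec8.sw_comm]
          exact Rec8.sw_congr fun P' _ => Rec8.sw_comm _ _ _
      _ ≤ Rec8.sw (Irr r') (fun P' => Rec8.sw (Brd m) (fun M => ENNReal.ofReal A * ∑' b, F b (P' ++ M))) := by
          refine Rec8.sw_mono' fun P' hP' => Rec8.sw_mono' fun M hM => ?_
          by_cases hmr : m + r' ≤ 2 ^ e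
          · have hmid := mid_j hWN hW hX hP hP' hM hnr hmr a (fun b => F b (P' ++ M))
            refine le_trans ?_ hmid
            rw [Rec8.sw_ind, Rec8.sw_ind]
            refine ENNReal.tsum_le_tsum fun Z => ?_
            by_cases hZ : Z ∈ {Z | ∃ h, h ≤ N ∧ Z ∈ Brd h}
            · rw [if_pos hZ, hGv]
              by_cases h1 : X ++ (P ++ (Z ++ (P' ++ M))) ∈ W
              · rw [if_pos h1, if_pos (show Z ∈ {Z | (∃ h, h ≤ N ∧ Z ∈ Brd h) ∧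
                  X ++ (P ++ (Z ++ (P' ++ M))) ∈ W} from ⟨hZ, h1⟩)]
                refine mul_le_mul_right (ENNReal.tsum_le_tsum fun b => ?_) _
                split_ifs
                · obtain ⟨z, -, hZ1⟩ := hZ
                  rw [← List.append_assoc P Z]
                  exact hF _ _ ⟨_, Brd_append hPb hZ1⟩ _
                · exact le_rfl
              · rw [if_neg h1, mul_zero]
                exact zero_le
            · rw [if_neg hZ]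
              exact zero_le
          · have h0 : ∀ Z ∈ {Z | ∃ h, h ≤ N ∧ Z ∈ Brd h}, G (Z ++ (P' ++ M)) = 0 := by
              rintro Z ⟨z, -, hZ1⟩
              rw [hGv, if_neg]
              intro h1
              refine hmr (hw.tl m r' (X ++ (P ++ Z)) P' M ⟨_, Brd_append hX (Brd_append hPb hZ1)⟩ hP' hM ?_ hm1 hm2)
              rw [List.append_assoc, List.append_assoc]
              exact h1
            rw [Rec8.sw_congr h0, Rec8.sw_zero]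
            exact zero_le
      _ = _ := by
          rw [← Rec8.sw_mul_left]
          exact Rec8.sw_congr fun P' _ => Rec8.sw_mul_left _ _ _
  refine (ENNReal.tsum_le_tsum fun m => ENNReal.tsum_le_tsum fun r' => hT m r').trans ?_
  simp only [ENNReal.tsum_mul_left]
  have hE' : ∑' m : ℕ, ∑' r' : ℕ, mu j m r' * Rec8.sw (Irr r') (fun P' => Rec8.sw (Brd m) (fun M =>
      ∑' b, F b (P' ++ M))) ≤ ENNReal.ofReal (K2 * 2 ^ (k - j)) * x := by
    rw [ENNReal.tsum_comm]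
    exact hend k j x (fun t => ∑' b, F b t) hΦ (by omega)
  calc ENNReal.ofReal A * ∑' m : ℕ, ∑' r' : ℕ, mu j m r' * Rec8.sw (Irr r') (fun P' => Rec8.sw (Brd m) (fun M =>
        ∑' b, F b (P' ++ M))) ≤ ENNReal.ofReal A * (ENNReal.ofReal (K2 * 2 ^ (k - j)) * x) := mul_le_mul_right hE' _
    _ = _ := by ring

open Classical in
/-- **the two sided sum over the leaves of a window class, arbitrary relation** -/
theorem free_j (hA : SsA) : ∃ K : ℝ, 1 ≤ K ∧ ∀ {ι ι' : Type} (k e j N : ℕ) (A : ℝ) (y x : ℝ≥0∞)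
    (P : ι → List Bool → ℝ≥0∞) (F : ι' → List Bool → ℝ≥0∞) (W : Set (List Bool)) (C : ι → ι' → List Bool → Prop),
    (∀ a, Hered (P a)) → DomJ k y (fun t => ∑' a, P a t) → (∀ b, Hered (F b)) → DomJ k x (fun t => ∑' b, F b t) →
    j + 1 ≤ e → e ≤ k → W ⊆ BrR (2 ^ (k + 4)) N → EZJ (2 ^ (k + 4)) N e W C A → Win e j W →
    Rec8.sw W (fun g => ∑' (a : ι) (b : ι'), if C a b g then P a (rev g) * F b g else 0) ≤
      ENNReal.ofReal (K * (4 ^ (k - j) * A)) * (y * x) := by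
  obtain ⟨K0, hK0, hrest⟩ := rest_j hA
  obtain ⟨K1, hK1, hend⟩ := endsJ hA
  refine ⟨K1 * K0, one_le_mul_of_one_le_of_one_le hK1 hK0,
    fun {ι ι'} k e j N A y x P F W C hP hPd hF hFd hj he hWN hW hwin => ?_⟩
  obtain ⟨B, hB⟩ : ∃ B, B = ENNReal.ofReal (K0 * 2 ^ (k - j)) * ENNReal.ofReal A * x := ⟨_, rfl⟩
  obtain ⟨G, hG⟩ : ∃ G : List Bool → ℝ≥0∞, G = fun g => if g ∈ W then
      ∑' (a : ι), P a (rev g) * ∑' (b : ι'), (if C a b g then F b g else 0) else 0 := ⟨_, rfl⟩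
  have hGg : ∀ g, G g = if g ∈ W then
      ∑' (a : ι), P a (rev g) * ∑' (b : ι'), (if C a b g then F b g else 0) else 0 := fun g => by rw [hG]
  have e1 : Rec8.sw W (fun g => ∑' (a : ι) (b : ι'), if C a b g then P a (rev g) * F b g else 0) =
      Rec8.sw (BrR (2 ^ (k + 4)) N) G := by
    rw [Rec8.sw_ind, Rec8.sw_ind]
    refine tsum_congr fun g => ?_
    rw [hGg]
    by_cases h1 : g ∈ W
    · rw [if_pos h1, if_pos h1, if_pos (hWN h1)]
      congr 1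
      refine tsum_congr fun a => ?_
      rw [← ENNReal.tsum_mul_left]
      refine tsum_congr fun b => ?_
      rw [mul_ite, mul_zero]
    · rw [if_neg h1, if_neg h1, mul_zero]
      simp
  rw [e1]
  have hp : 2 ^ (j + 1) ≤ 2 ^ (k + 4) := Nat.pow_le_pow_right (by norm_num) (by omega)
  -- the rest behind the head X and the piece P1
  have hr : ∀ (n r : ℕ) (X P1 : List Bool), mu j n r ≠ 0 → X ∈ Brd n → P1 ∈ Irr r →
      Rec8.sw {Z | Z ∈ BU ∧ X ++ (P1 ++ Z) ∈ BrR (2 ^ (k + 4)) N} (fun Z => G (X ++ (P1 ++ Z))) ≤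
        (∑' a, P a (rev P1 ++ rev X)) * B := by
    intro n r X P1 hmu hX hP1
    obtain ⟨hn1, hn2⟩ := mu_ne hmu
    have s1 : Rec8.sw {Z | Z ∈ BU ∧ X ++ (P1 ++ Z) ∈ BrR (2 ^ (k + 4)) N} (fun Z => G (X ++ (P1 ++ Z))) ≤
        Rec8.sw {Z | Z ∈ BU ∧ X ++ (P1 ++ Z) ∈ W} (fun Z => G (X ++ (P1 ++ Z))) := by
      rw [Rec8.sw_ind, Rec8.sw_ind]
      refine ENNReal.tsum_le_tsum fun Z => ?_
      by_cases hZ : Z ∈ {Z | Z ∈ BU ∧ X ++ (P1 ++ Z) ∈ BrR (2 ^ (k + 4)) N}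
      · rw [if_pos hZ]
        by_cases h2 : X ++ (P1 ++ Z) ∈ W
        · rw [if_pos (show Z ∈ {Z | Z ∈ BU ∧ X ++ (P1 ++ Z) ∈ W} from ⟨hZ.1, h2⟩)]
        · rw [hGg, if_neg h2, mul_zero]
          exact zero_le
      · rw [if_neg hZ]
        exact zero_le
    refine s1.trans ?_
    by_cases hemp : ∃ Z, Z ∈ BU ∧ X ++ (P1 ++ Z) ∈ W
    swap
    · have : {Z | Z ∈ BU ∧ X ++ (P1 ++ Z) ∈ W} = (∅ : Set (List Bool)) := by
        rw [Set.eq_empty_iff_forall_notMem]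
        intro Z hZ
        exact hemp ⟨Z, hZ⟩
      rw [this]
      unfold Rec8.sw
      rw [tsum_empty]
      exact zero_le
    obtain ⟨Z0, hZ0, hZW⟩ := hemp
    have hnr : n + r ≤ 2 ^ e := hwin.hd n r X P1 Z0 hX hP1 hZ0 hZW hn1 hn2
    -- every left continuation
    have s2 : Rec8.sw {Z | Z ∈ BU ∧ X ++ (P1 ++ Z) ∈ W} (fun Z => G (X ++ (P1 ++ Z))) ≤
        Rec8.sw {Z | Z ∈ BU ∧ X ++ (P1 ++ Z) ∈ W} (fun Z => ∑' a, P a (rev P1 ++ rev X) *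
          (∑' b, if C a b (X ++ (P1 ++ Z)) then F b (P1 ++ Z) else 0)) := by
      refine Rec8.sw_mono' fun Z hZ => ?_
      obtain ⟨⟨z, hz⟩, hZ2⟩ := hZ
      rw [hGg, if_pos hZ2]
      refine ENNReal.tsum_le_tsum fun a => ?_
      refine mul_le_mul' ?_ (ENNReal.tsum_le_tsum fun b => ?_)
      · rw [rev_append, rev_append, List.append_assoc]
        exact hP a (rev Z) ⟨z, Brd_rev hz⟩ _
      · split_ifs
        · exact hF _ X ⟨n, hX⟩ _
        · exact le_rfl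
    refine s2.trans ?_
    rw [sw_tsum, ← ENNReal.tsum_mul_right]
    refine ENNReal.tsum_le_tsum fun a => ?_
    rw [Rec8.sw_mul_left]
    refine mul_le_mul_right ?_ _
    rw [hB]
    exact hrest k e j N n r A x F X P1 W C hF hFd hj he hWN hW hwin hX hP1 hnr a
  -- the level near the head
  have s4 : Rec8.sw (BrR (2 ^ (k + 4)) N) G ≤ ∑' n : ℕ, ∑' r : ℕ, mu j n r * Rec8.sw (Brd n) (fun X =>
      Rec8.sw (Irr r) (fun P1 => (∑' a, P a (rev P1 ++ rev X)) * B)) := by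
    refine (inR (j := j) (D := 2 ^ (k + 4)) (N := N) hp _).trans ?_
    refine ENNReal.tsum_le_tsum fun n => ENNReal.tsum_le_tsum fun r => ?_
    by_cases hmu : mu j n r = 0
    · rw [hmu, zero_mul, zero_mul]
    exact mul_le_mul_right (Rec8.sw_mono' fun X hX => Rec8.sw_mono' fun P1 hP1 => hr n r X P1 hmu hX hP1) _
  refine s4.trans ?_
  have s5 : ∀ n r : ℕ, Rec8.sw (Brd n) (fun X => Rec8.sw (Irr r) (fun P1 => (∑' a, P a (rev P1 ++ rev X)) * B)) =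
      Rec8.sw (Irr r) (fun P1 => Rec8.sw (Brd n) (fun M => ∑' a, P a (P1 ++ M))) * B := by
    intro n r
    rw [Rec8.sw_comm, ← Rec8.sw_mul_right, ← DO.sw_rev (Irr r) (fun t ht => Irr_rev ht)
      (fun P1 => Rec8.sw (Brd n) (fun M => ∑' a, P a (P1 ++ M)) * B)]
    refine Rec8.sw_congr fun P1 _ => ?_
    rw [← Rec8.sw_mul_right, ← DO.sw_rev (Brd n) (fun t ht => Brd_rev ht) (fun M => (∑' a, P a (rev P1 ++ M)) * B)]
  have s6 := hend k j y (fun t => ∑' a, P a t) hPd (by omega)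
  rw [ENNReal.tsum_comm]
  calc ∑' r : ℕ, ∑' n : ℕ, mu j n r * Rec8.sw (Brd n) (fun X => Rec8.sw (Irr r) (fun P1 =>
        (∑' a, P a (rev P1 ++ rev X)) * B))
      = (∑' r : ℕ, ∑' n : ℕ, mu j n r * Rec8.sw (Irr r) (fun P1 => Rec8.sw (Brd n) (fun M =>
          ∑' a, P a (P1 ++ M)))) * B := by
        rw [← ENNReal.tsum_mul_right]
        refine tsum_congr fun r => ?_
        rw [← ENNReal.tsum_mul_right]
        refine tsum_congr fun n => ?_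
        rw [s5, mul_assoc]
    _ ≤ (ENNReal.ofReal (K1 * 2 ^ (k - j)) * y) * B := mul_le_mul_left s6 _
    _ = ENNReal.ofReal (K1 * K0 * (4 ^ (k - j) * A)) * (y * x) := by
        rw [hB]
        have e5 : K1 * K0 * (4 ^ (k - j) * A) = (K1 * 2 ^ (k - j)) * ((K0 * 2 ^ (k - j)) * A) := by
          have : (4 : ℝ) ^ (k - j) = 2 ^ (k - j) * 2 ^ (k - j) := by
            rw [← mul_pow]
            norm_num
          rw [this]
          ring
        rw [e5, ENNReal.ofReal_mul (p := K1 * 2 ^ (k - j)) (by positivity),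
          ENNReal.ofReal_mul (p := K0 * 2 ^ (k - j)) (by positivity)]
        ring

end EN

end HexObs
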