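import Pool.Agent.EN.GBAll
import Pool.Agent.EN.ExtM
import Pool.Agent.EN.Esp
import Pool.Agent.NTA.C1Z
import Pool.Agent.NTA.IndB

/-!
EN: GBm, GBU and EXT for the mean length of the bridges, without hypothesis.
-/

set_option autoImplicit false

namespace HexObs

namespace EN

open Finset TS SDN NTW NTA

open scoped ENNReal

/-- **C1 for the mean length** -/
theorem c1_M : C1 (fun k => PW.mZ (2 ^ k)) := c1_mZ mlow_M mup_M tb_M

/-- the exponent of the bridges with at most n letters, above 1 / 2 -/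
theorem indB2_M : ∃ a1 : ℝ, 1 / 2 < a1 ∧ a1 ≤ 3 / 5 ∧ BrL.IndB2 a1 := indB2_half tb_M c1_M

theorem goodBad_M : GoodBad (fun k => PW.mZ (2 ^ k)) := by
  obtain ⟨a1, h1, h2, hI⟩ := indB2_M
  exact goodBad_of (fun k => PW.mZ_pos Nat.one_le_two_pow) c1_M h1 h2 hI

/-- **the exact norm of one good leaf among bad ones, for the mean length** -/
theorem gbm_M : ∃ J00 : ℕ, ∀ J0 : ℕ, J00 ≤ J0 → GBm (fun k => PW.mZ (2 ^ k)) J0 := by
  obtain ⟨a1, h1, h2, hI⟩ := indB2_M
  exact gbm_of (fun k => PW.mZ_pos Nat.one_le_two_pow) mup_M c1_M h1 h2 hI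

theorem gbu_M : GBU (fun k => PW.mZ (2 ^ k)) := by
  obtain ⟨J00, h⟩ := gbm_M
  exact gbu_of (h J00 le_rfl)

/-- **tail of the time spent in the boxes, exactly n letters, for the mean length, no hypothesis** -/
theorem extM : EXT (fun k => PW.mZ (2 ^ k)) := by
  obtain ⟨J00, h⟩ := gbm_M
  exact ext_M (h J00 le_rfl)

end EN

end HexObs

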