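import Pool.Agent.EN.Comp

/-!
EN: runs of marked leaves. Labels: S (norm δ), B (norm b), A (all leaves, norm q), and one leaf in the exact class G.
-/

set_option autoImplicit false

namespace HexObs

namespace EN

open Finset TS SDN NTW NTA

open scoped ENNReal

variable {Dm : ℕ → ℝ≥0∞ → (List Bool → ℝ≥0∞) → Prop} {kc : ℕ} {R R1 R2 : Set (List (List Bool))} {δ d1 d2 : ℝ}

/-! ### one leaf -/

lemma runF_one {S : Set (List Bool)} (Φ : List Bool → ℝ≥0∞) (g : List Bool) :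
    runF (One S) Φ g = S.indicator Φ g := by
  classical
  unfold runF
  rw [tsum_eq_single []]
  · by_cases hg : g ∈ S
    · rw [if_pos ⟨⟨g, hg, rfl⟩, List.isChain_singleton g⟩, Set.indicator_of_mem hg, NTm.wl_nil, one_mul]
      rfl
    · rw [Set.indicator_of_notMem hg, if_neg]
      rintro ⟨⟨g', hg', h⟩, -⟩
      rw [List.cons.injEq] at h
      exact hg (h.1 ▸ hg')
  · intro ms hms
    rw [if_neg]
    rintro ⟨⟨g', hg', h⟩, -⟩
    rw [List.cons.injEq] at h
    exact hms h.2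

lemma runG_one {S : Set (List Bool)} (F : ℕ → List Bool → ℝ≥0∞) (N : ℕ) (g : List Bool) :
    runG (One S) F N g = S.indicator (F N) g := by
  classical
  unfold runG
  rw [tsum_eq_single []]
  · by_cases hg : g ∈ S
    · rw [if_pos ⟨⟨g, hg, rfl⟩, List.isChain_singleton g, Nat.zero_le _⟩, Set.indicator_of_mem hg, NTm.wl_nil, one_mul]
      rfl
    · rw [Set.indicator_of_notMem hg, if_neg]
      rintro ⟨⟨g', hg', h⟩, -⟩
      rw [List.cons.injEq] at h
      exact hg (h.1 ▸ hg')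
  · intro ms hms
    rw [if_neg]
    rintro ⟨⟨g', hg', h⟩, -⟩
    rw [List.cons.injEq] at h
    exact hms h.2

lemma sw_indic {A S : Set (List Bool)} {Φ : List Bool → ℝ≥0∞} :
    Rec8.sw A (S.indicator Φ) ≤ Rec8.sw {g | g ∈ S ∧ g ∈ A} Φ := by
  rw [Rec8.sw_ind, Rec8.sw_ind]
  refine ENNReal.tsum_le_tsum fun g => ?_
  by_cases hg : g ∈ A
  · rw [if_pos hg]
    by_cases hS : g ∈ S
    · rw [if_pos (show g ∈ {g | g ∈ S ∧ g ∈ A} from ⟨hS, hg⟩), Set.indicator_of_mem hS]
    · rw [Set.indicator_of_notMem hS, mul_zero]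
      exact zero_le
  · rw [if_neg hg]
    exact zero_le

lemma vA_indic {D : ℕ} {S : Set (List Bool)} {Φ : List Bool → ℝ≥0∞} (t : List Bool) :
    vA D (HB D) (S.indicator Φ) t ≤ vA D S Φ t := by
  unfold vA
  refine sw_indic.trans (Rec8.sw_mono (fun g hg => ⟨hg.1, hg.2.2⟩) fun _ _ => le_rfl)

theorem smR_one {S : Set (List Bool)} (hS : SmD Dm kc S δ) : SmR Dm kc (One S) δ := by
  refine ⟨fun x Φ hΦ => (xT_mono fun t => ?_).trans (hS.near x Φ hΦ), fun y x Ψ Φ hΨ hf hΦ => ?_⟩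
  · have e : (runF (One S) Φ) = S.indicator Φ := funext fun g => runF_one Φ g
    rw [e]
    exact vA_indic t
  · refine le_trans ?_ (hS.free y x Ψ Φ hΨ hf hΦ)
    have e : (fun g => Ψ (rev g) * runF (One S) Φ g) = S.indicator (fun g => Ψ (rev g) * Φ g) := by
      funext g
      rw [runF_one]
      by_cases hg : g ∈ S
      · rw [Set.indicator_of_mem hg, Set.indicator_of_mem hg]
      · rw [Set.indicator_of_notMem hg, Set.indicator_of_notMem hg, mul_zero]
    rw [e]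
    exact sw_indic.trans (Rec8.sw_mono (fun g hg => hg.1) fun _ _ => le_rfl)

lemma sh_indic {S : Set (List Bool)} (F : ℕ → List Bool → ℝ≥0∞) (N : ℕ) (g : List Bool) :
    sh (runG (One S) F) N g = S.indicator (sh F N) g := by
  unfold sh
  by_cases hg : g ∈ S
  · rw [Set.indicator_of_mem hg]
    split_ifs
    · rw [runG_one, Set.indicator_of_mem hg]
    · rfl
  · rw [Set.indicator_of_notMem hg]
    split_ifs
    · rw [runG_one, Set.indicator_of_notMem hg]
    · rfl

/-- **from a leaf class to the runs with one leaf, exact** -/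
theorem smRX_one {S : Set (List Bool)} (hS : SmDX Dm kc S δ) : SmRX Dm kc (One S) δ := by
  refine ⟨fun x F hF hx => (xT_mono fun t => iSup_mono fun N => ?_).trans (hS.near x F hF hx),
    fun y x P F hP hf hF hy hx N => ?_⟩
  · unfold vG
    have e : sh (runG (One S) F) N = S.indicator (sh F N) := funext fun g => sh_indic F N g
    rw [e]
    exact vA_indic t
  · refine le_trans ?_ (hS.free y x P F hP hf hF hy hx N)
    have e : (fun g => ∑ c ∈ range (N + 1), P c (rev g) * sh (runG (One S) F) (N - c) g) =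
        S.indicator (fun g => ∑ c ∈ range (N + 1), P c (rev g) * sh F (N - c) g) := by
      funext g
      by_cases hg : g ∈ S
      · rw [Set.indicator_of_mem hg]
        refine Finset.sum_congr rfl fun c _ => ?_
        rw [sh_indic, Set.indicator_of_mem hg]
      · rw [Set.indicator_of_notMem hg]
        refine Finset.sum_eq_zero fun c _ => ?_
        rw [sh_indic, Set.indicator_of_notMem hg, mul_zero]
    rw [e]
    exact sw_indic.trans (Rec8.sw_mono (fun g hg => hg.1) fun _ _ => le_rfl)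

/-! ### ordinary composition -/

/-- **the sum over the runs a ++ b** -/
theorem runF_app {D : ℕ} (h1 : InH D R1) (h2 : InH D R2) (Φ : List Bool → ℝ≥0∞) (g : List Bool) :
    runF (AppR R1 R2) Φ g ≤ runF R1 (vA D (HB D) (runF R2 Φ)) g := by
  obtain ⟨F, hF⟩ : ∃ F : ℕ → List Bool → ℝ≥0∞, F = fun c t => if c = 0 then Φ t else 0 := ⟨_, rfl⟩
  have e1 : tot F = Φ := by
    funext t
    unfold tot
    rw [hF, tsum_eq_single 0]
    · simp
    · intro c hc
      simp [hc]
  have e2 : tot (vG D (HB D) (runG R2 F)) = vA D (HB D) (runF R2 Φ) := by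
    funext t
    rw [tot_vG]
    congr 1
    funext g
    rw [tot_runG, e1]
  rw [← e1, ← tot_runG, e1, ← e2, ← tot_runG]
  exact ENNReal.tsum_le_tsum fun N => runG_app h1 h2 F N g

theorem smR_app (hDm : DmP Dm) (h1 : InH (2 ^ (kc + 4)) R1) (h2 : InH (2 ^ (kc + 4)) R2) (hd1 : 0 ≤ d1) (hd2 : 0 ≤ d2)
    (hR1 : SmR Dm kc R1 d1) (hR2 : SmR Dm kc R2 d2) : SmR Dm kc (AppR R1 R2) (d1 * d2) := by
  have hU := (Ub_pos kc).le
  have hD : 1 ≤ 2 ^ (kc + 4) := Nat.one_le_two_pow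
  refine ⟨fun x Φ hΦ => ?_, fun y x Ψ Φ hΨ hf hΦ => ?_⟩
  · refine (xT_mono fun t => vA_monoF (runF_app h1 h2 Φ) t).trans ?_
    refine (hR1.near _ _ (hDm.dm kc _ (NTm.herD_vA hD _ _))).trans
      ((mul_le_mul_right (hR2.near x Φ hΦ) _).trans (le_of_eq ?_))
    rw [← mul_assoc, ← ENNReal.ofReal_mul hd1]
  · refine (Rec8.sw_mono' fun g _ => mul_le_mul_right (runF_app h1 h2 Φ g) _).trans ?_
    refine (hR1.free y _ _ _ hΨ hf (hDm.dm kc _ (NTm.herD_vA hD _ _))).trans
      ((mul_le_mul_right (mul_le_mul_right (hR2.near x Φ hΦ) _) _).trans (le_of_eq ?_))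
    rw [mul_left_comm y, ← mul_assoc, ← ENNReal.ofReal_mul (mul_nonneg hd1 hU)]
    congr 2
    ring

/-! ### unions -/

lemma runF_union (Φ : List Bool → ℝ≥0∞) (g : List Bool) : runF (R1 ∪ R2) Φ g ≤ runF R1 Φ g + runF R2 Φ g := by
  classical
  unfold runF
  rw [← ENNReal.tsum_add]
  refine ENNReal.tsum_le_tsum fun ms => ?_
  by_cases h : (g :: ms) ∈ R1 ∪ R2 ∧ (g :: ms).IsChain LFold
  · rw [if_pos h]
    rcases h.1 with h1 | h1
    · rw [if_pos (⟨h1, h.2⟩ : (g :: ms) ∈ R1 ∧ _)]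
      exact le_self_add
    · rw [if_pos (⟨h1, h.2⟩ : (g :: ms) ∈ R2 ∧ _)]
      exact le_add_self
  · rw [if_neg h]
    exact zero_le

lemma runG_union (F : ℕ → List Bool → ℝ≥0∞) (N : ℕ) (g : List Bool) :
    runG (R1 ∪ R2) F N g ≤ runG R1 F N g + runG R2 F N g := by
  classical
  unfold runG
  rw [← ENNReal.tsum_add]
  refine ENNReal.tsum_le_tsum fun ms => ?_
  by_cases h : (g :: ms) ∈ R1 ∪ R2 ∧ (g :: ms).IsChain LFold ∧ ll ms ≤ N
  · rw [if_pos h]
    rcases h.1 with h1 | h1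
    · rw [if_pos (⟨h1, h.2⟩ : (g :: ms) ∈ R1 ∧ _)]
      exact le_self_add
    · rw [if_pos (⟨h1, h.2⟩ : (g :: ms) ∈ R2 ∧ _)]
      exact le_add_self
  · rw [if_neg h]
    exact zero_le

lemma sh_add (F G : ℕ → List Bool → ℝ≥0∞) (N : ℕ) (g : List Bool) :
    sh (fun n t => F n t + G n t) N g = sh F N g + sh G N g := by
  unfold sh
  split_ifs
  · rfl
  · rw [add_zero]

lemma vG_add {D : ℕ} {A : Set (List Bool)} (F G : ℕ → List Bool → ℝ≥0∞) (N : ℕ) (t : List Bool) :
    vG D A (fun n t => F n t + G n t) N t = vG D A F N t + vG D A G N t := by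
  unfold vG vA
  have e : sh (fun n t => F n t + G n t) N = fun g => sh F N g + sh G N g := funext fun g => sh_add F G N g
  rw [e, Rec8.sw_add]

theorem smR_union (hd1 : 0 ≤ d1) (hd2 : 0 ≤ d2) (h1 : SmR Dm kc R1 d1) (h2 : SmR Dm kc R2 d2) :
    SmR Dm kc (R1 ∪ R2) (d1 + d2) := by
  have hU := (Ub_pos kc).le
  refine ⟨fun x Φ hΦ => ?_, fun y x Ψ Φ hΨ hf hΦ => ?_⟩
  · refine (xT_mono (Ψ := fun t => vA (2 ^ (kc + 4)) (HB (2 ^ (kc + 4))) (runF R1 Φ) t +
      vA (2 ^ (kc + 4)) (HB (2 ^ (kc + 4))) (runF R2 Φ) t) fun t => ?_).trans ?_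
    · refine (vA_monoF (runF_union Φ) t).trans (le_of_eq ?_)
      unfold vA
      rw [Rec8.sw_add]
    · refine (xT_add _ _ _ _).trans ((add_le_add (h1.near x Φ hΦ) (h2.near x Φ hΦ)).trans (le_of_eq ?_))
      rw [← add_mul, ← ENNReal.ofReal_add hd1 hd2]
  · refine (Rec8.sw_mono' fun g _ => mul_le_mul_right (runF_union Φ g) _).trans ?_
    have e : (fun g => Ψ (rev g) * (runF R1 Φ g + runF R2 Φ g)) = fun g => Ψ (rev g) * runF R1 Φ g +
        Ψ (rev g) * runF R2 Φ g := funext fun g => mul_add _ _ _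
    rw [e, Rec8.sw_add]
    refine (add_le_add (h1.free y x Ψ Φ hΨ hf hΦ) (h2.free y x Ψ Φ hΨ hf hΦ)).trans (le_of_eq ?_)
    rw [← add_mul, ← ENNReal.ofReal_add (mul_nonneg hd1 hU) (mul_nonneg hd2 hU), ← add_mul]

theorem smRX_union (hd1 : 0 ≤ d1) (hd2 : 0 ≤ d2) (h1 : SmRX Dm kc R1 d1) (h2 : SmRX Dm kc R2 d2) :
    SmRX Dm kc (R1 ∪ R2) (d1 + d2) := by
  have hU := (Ub_pos kc).le
  refine ⟨fun x F hF hx => ?_, fun y x P F hP hf hF hy hx N => ?_⟩
  · refine (xT_mono (Ψ := fun t => (⨆ N, vG (2 ^ (kc + 4)) (HB (2 ^ (kc + 4))) (runG R1 F) N t) +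
      ⨆ N, vG (2 ^ (kc + 4)) (HB (2 ^ (kc + 4))) (runG R2 F) N t) fun t => iSup_le fun N => ?_).trans ?_
    · refine (vG_mono (G := fun n g => runG R1 F n g + runG R2 F n g) (fun n g => runG_union F n g) N t).trans ?_
      rw [vG_add]
      exact add_le_add (le_iSup (fun N => vG (2 ^ (kc + 4)) (HB (2 ^ (kc + 4))) (runG R1 F) N t) N)
        (le_iSup (fun N => vG (2 ^ (kc + 4)) (HB (2 ^ (kc + 4))) (runG R2 F) N t) N)
    · refine (xT_add _ _ _ _).trans ((add_le_add (h1.near x F hF hx) (h2.near x F hF hx)).trans (le_of_eq ?_))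
      rw [← add_mul, ← ENNReal.ofReal_add hd1 hd2]
  · refine (Rec8.sw_mono' (Ψ := fun g => (∑ c ∈ range (N + 1), P c (rev g) * sh (runG R1 F) (N - c) g) +
      ∑ c ∈ range (N + 1), P c (rev g) * sh (runG R2 F) (N - c) g) fun g _ => ?_).trans ?_
    · rw [← Finset.sum_add_distrib]
      refine Finset.sum_le_sum fun c _ => ?_
      rw [← mul_add, ← sh_add]
      exact mul_le_mul_right (sh_mono (fun n => runG_union F n g) _) _
    · rw [Rec8.sw_add]
      refine (add_le_add (h1.free y x P F hP hf hF hy hx N) (h2.free y x P F hP hf hF hy hx N)).trans (le_of_eq ?_)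
      rw [← add_mul, ← ENNReal.ofReal_add (mul_nonneg hd1 hU) (mul_nonneg hd2 hU), ← add_mul]

/-- an ordinary class is an exact class -/
theorem smRX_of_smR (h : SmR Dm kc R δ) : SmRX Dm kc R δ := by
  refine ⟨fun x F hF hx => (xT_mono fun t => iSup_le fun N => ?_).trans (h.near x _ hx),
    fun y x P F hP hf hF hy hx N => le_trans (Rec8.sw_mono' fun g _ => ?_) (h.free y x _ _ hy (flp_tot hf) hx)⟩
  · unfold vG
    exact vA_monoF (fun g => sh_le (fun n => runG_le_runF (fun n t => le_tot F n t) n g) N) t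
  · refine (Finset.sum_le_sum fun c _ => mul_le_mul_right
      (sh_le (fun n => runG_le_runF (fun n t => le_tot F n t) n g) (N - c)) _).trans ?_
    rw [← Finset.sum_mul]
    exact mul_le_mul_left (ENNReal.sum_le_tsum _) _

/-- a class without runs -/
lemma smR_empty (h : ∀ g ms, (g :: ms) ∉ R) : SmR Dm kc R δ := by
  have e : ∀ Φ g, runF R Φ g = 0 := by
    classical
    intro Φ g
    unfold runF
    refine ENNReal.tsum_eq_zero.2 fun ms => ?_
    rw [if_neg fun h1 => h g ms h1.1]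
  refine ⟨fun x Φ _ => ?_, fun y x Ψ Φ _ _ _ => ?_⟩
  · refine xT_le fun b I _ _ => ?_
    have e1 : (fun M => vA (2 ^ (kc + 4)) (HB (2 ^ (kc + 4))) (runF R Φ) (I ++ M)) = fun _ => 0 := by
      funext M
      have e2 : runF R Φ = fun _ => 0 := funext fun g => e Φ g
      rw [e2]
      unfold vA
      rw [Rec8.sw_zero]
    rw [e1, Rec8.sw_zero]
    exact zero_le
  · have e1 : (fun g => Ψ (rev g) * runF R Φ g) = fun _ => 0 := by
      funext g
      rw [e, mul_zero]
    rw [e1, Rec8.sw_zero]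
    exact zero_le

lemma smR_anti (h : R1 ⊆ R) (hS : SmR Dm kc R δ) : SmR Dm kc R1 δ := SmR_mono h hS

lemma SmR.up (hS : SmR Dm kc R δ) {δ' : ℝ} (h : δ ≤ δ') : SmR Dm kc R δ' := by
  have hU := (Ub_pos kc).le
  exact ⟨fun x Φ hΦ => (hS.near x Φ hΦ).trans (mul_le_mul_left (ENNReal.ofReal_le_ofReal h) _),
    fun y x Ψ Φ hΨ hf hΦ => (hS.free y x Ψ Φ hΨ hf hΦ).trans
      (mul_le_mul_left (ENNReal.ofReal_le_ofReal (mul_le_mul_of_nonneg_right h hU)) _)⟩

/-! ### marked runs -/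

/-- s leaves marked S, r leaves marked B, the others in A -/
inductive Mk (S B A : Set (List Bool)) : ℕ → ℕ → List (List Bool) → Prop
  | nil : Mk S B A 0 0 []
  | s {s r : ℕ} {g : List Bool} {gs : List (List Bool)} : g ∈ S → Mk S B A s r gs → Mk S B A (s + 1) r (g :: gs)
  | b {s r : ℕ} {g : List Bool} {gs : List (List Bool)} : g ∈ B → Mk S B A s r gs → Mk S B A s (r + 1) (g :: gs)
  | a {s r : ℕ} {g : List Bool} {gs : List (List Bool)} : g ∈ A → Mk S B A s r gs → Mk S B A s r (g :: gs)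

/-- and one leaf in G -/
inductive MkX (G S B A : Set (List Bool)) : ℕ → ℕ → List (List Bool) → Prop
  | g {s r : ℕ} {g : List Bool} {gs : List (List Bool)} : g ∈ G → Mk S B A s r gs → MkX G S B A s r (g :: gs)
  | s {s r : ℕ} {g : List Bool} {gs : List (List Bool)} : g ∈ S → MkX G S B A s r gs → MkX G S B A (s + 1) r (g :: gs)
  | b {s r : ℕ} {g : List Bool} {gs : List (List Bool)} : g ∈ B → MkX G S B A s r gs → MkX G S B A s (r + 1) (g :: gs)
  | a {s r : ℕ} {g : List Bool} {gs : List (List Bool)} : g ∈ A → MkX G S B A s r gs → MkX G S B A s r (g :: gs)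

lemma MkX.ne {G S B A : Set (List Bool)} {s r : ℕ} {gs : List (List Bool)} (h : MkX G S B A s r gs) : gs ≠ [] := by
  cases h <;> exact List.cons_ne_nil _ _

lemma Mk.inB {S B A X : Set (List Bool)} {s : ℕ} {gs : List (List Bool)} (h : Mk S B A s 0 gs) : Mk S X A s 0 gs := by
  generalize hr : 0 = r at h
  induction h with
  | nil => exact Mk.nil
  | s h1 _ ih => exact Mk.s h1 (ih hr)
  | b h1 _ _ => omega
  | a h1 _ ih => exact Mk.a h1 (ih hr)

/-- one of the marked leaves in G, or all in B' -/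
lemma Mk.split {S B A G B' : Set (List Bool)} (hc : ∀ g ∈ B, g ∈ G ∨ g ∈ B') {s r : ℕ} {gs : List (List Bool)}
    (h : Mk S B A s r gs) : Mk S B' A s r gs ∨ ∃ r', r = r' + 1 ∧ MkX G S B A s r' gs := by
  induction h with
  | nil => exact Or.inl Mk.nil
  | s h1 _ ih =>
    rcases ih with h3 | ⟨r', h3, h4⟩
    · exact Or.inl (Mk.s h1 h3)
    · exact Or.inr ⟨r', h3, MkX.s h1 h4⟩
  | b h1 h2 ih =>
    rename_i s r g gs
    rcases hc g h1 with h5 | h5
    · exact Or.inr ⟨r, rfl, MkX.g h5 h2⟩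
    · rcases ih with h3 | ⟨r', h3, h4⟩
      · exact Or.inl (Mk.b h5 h3)
      · refine Or.inr ⟨r, rfl, ?_⟩
        rw [h3]
        exact MkX.b h1 h4
  | a h1 _ ih =>
    rcases ih with h3 | ⟨r', h3, h4⟩
    · exact Or.inl (Mk.a h1 h3)
    · exact Or.inr ⟨r', h3, MkX.a h1 h4⟩

open Classical in
/-- a run with s leaves in S and t more leaves -/
lemma mk_start {S A : Set (List Bool)} (gs : List (List Bool)) : ∀ s t : ℕ, (∀ g ∈ gs, g ∈ A) →
    s ≤ (gs.filter (fun g => decide (g ∈ S))).length → s + t ≤ gs.length → Mk S A A s t gs := by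
  induction gs with
  | nil =>
    intro s t _ _ h2
    rw [List.length_nil] at h2
    obtain rfl : s = 0 := by omega
    obtain rfl : t = 0 := by omega
    exact Mk.nil
  | cons g gs ih =>
    intro s t hA h1 h2
    rw [List.length_cons] at h2
    have hA' : ∀ g ∈ gs, g ∈ A := fun g' hg' => hA g' (List.mem_cons_of_mem _ hg')
    have hgA : g ∈ A := hA g List.mem_cons_self
    have hfl : (gs.filter (fun g => decide (g ∈ S))).length ≤ gs.length := List.length_filter_le _ _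
    by_cases hS : g ∈ S
    · rw [List.filter_cons_of_pos (by simpa using hS), List.length_cons] at h1
      rcases Nat.eq_zero_or_pos s with h0 | h0
      · rcases Nat.eq_zero_or_pos t with h3 | h3
        · subst h0
          subst h3
          exact Mk.a hgA (ih 0 0 hA' (Nat.zero_le _) (by omega))
        · obtain ⟨t', rfl⟩ : ∃ t', t = t' + 1 := ⟨t - 1, by omega⟩
          subst h0
          exact Mk.b hgA (ih 0 t' hA' (Nat.zero_le _) (by omega))
      · obtain ⟨s', rfl⟩ : ∃ s', s = s' + 1 := ⟨s - 1, by omega⟩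
        exact Mk.s hS (ih s' t hA' (by omega) (by omega))
    · rw [List.filter_cons_of_neg (by simpa using hS)] at h1
      rcases Nat.eq_zero_or_pos t with h3 | h3
      · subst h3
        exact Mk.a hgA (ih s 0 hA' h1 (by omega))
      · obtain ⟨t', rfl⟩ : ∃ t', t = t' + 1 := ⟨t - 1, by omega⟩
        exact Mk.b hgA (ih s t' hA' h1 (by omega))

/-- the first index with a leaf in G -/
lemma mk_first {S A : Set (List Bool)} {Gd Bd : ℕ → Set (List Bool)} {I : ℕ}
    (hc0 : ∀ g ∈ A, g ∈ Gd 0 ∨ g ∈ Bd 0) (hc : ∀ i < I, ∀ g ∈ Bd i, g ∈ Gd (i + 1) ∨ g ∈ Bd (i + 1)) {s t : ℕ}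
    {gs : List (List Bool)} (h : Mk S A A s (t + 1) gs) :
    Mk S (Bd I) A s (t + 1) gs ∨ MkX (Gd 0) S A A s t gs ∨ ∃ i < I, MkX (Gd (i + 1)) S (Bd i) A s t gs := by
  induction I with
  | zero =>
    rcases h.split hc0 with h1 | ⟨r', h1, h2⟩
    · exact Or.inl h1
    · obtain rfl : t = r' := by omega
      exact Or.inr (Or.inl h2)
  | succ I ih =>
    rcases ih (fun i hi => hc i (by omega)) with h1 | h1 | ⟨i, hi, h1⟩
    · rcases h1.split (hc I (by omega)) with h3 | ⟨r', h3, h4⟩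
      · exact Or.inl h3
      · obtain rfl : t = r' := by omega
        exact Or.inr (Or.inr ⟨I, by omega, h4⟩)
    · exact Or.inr (Or.inl h1)
    · exact Or.inr (Or.inr ⟨i, by omega, h1⟩)

/-! ### the norms of the marked runs -/

section norms

variable {G S B A : Set (List Bool)} {b q a : ℝ}

lemma inH_Mk {D : ℕ} (hS : S ⊆ HB D) (hB : B ⊆ HB D) (hA : A ⊆ HB D) {s r : ℕ} {gs : List (List Bool)}
    (h : Mk S B A s r gs) : ∀ g ∈ gs, g ∈ HB D := by
  induction h with
  | nil => exact fun g hg => absurd hg List.not_mem_nil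
  | s h1 _ ih =>
    intro g' hg'
    rcases List.mem_cons.1 hg' with h | h
    · rw [h]; exact hS h1
    · exact ih g' h
  | b h1 _ ih =>
    intro g' hg'
    rcases List.mem_cons.1 hg' with h | h
    · rw [h]; exact hB h1
    · exact ih g' h
  | a h1 _ ih =>
    intro g' hg'
    rcases List.mem_cons.1 hg' with h | h
    · rw [h]; exact hA h1
    · exact ih g' h

lemma inH_MkX {D : ℕ} (hG : G ⊆ HB D) (hS : S ⊆ HB D) (hB : B ⊆ HB D) (hA : A ⊆ HB D) {s r : ℕ}
    {gs : List (List Bool)} (h : MkX G S B A s r gs) : ∀ g ∈ gs, g ∈ HB D := by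
  induction h with
  | g h1 h2 =>
    intro g' hg'
    rcases List.mem_cons.1 hg' with h | h
    · rw [h]; exact hG h1
    · exact inH_Mk hS hB hA h2 g' h
  | s h1 _ ih =>
    intro g' hg'
    rcases List.mem_cons.1 hg' with h | h
    · rw [h]; exact hS h1
    · exact ih g' h
  | b h1 _ ih =>
    intro g' hg'
    rcases List.mem_cons.1 hg' with h | h
    · rw [h]; exact hB h1
    · exact ih g' h
  | a h1 _ ih =>
    intro g' hg'
    rcases List.mem_cons.1 hg' with h | h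
    · rw [h]; exact hA h1
    · exact ih g' h

/-- one more leaf in front, ordinary -/
lemma smR_cons (hDm : DmP Dm) {X : Set (List Bool)} (hX : X ⊆ HB (2 ^ (kc + 4))) (hR : InH (2 ^ (kc + 4)) R) {x d : ℝ}
    (hx : 0 ≤ x) (hd : 0 ≤ d) (h1 : SmD Dm kc X x) (h2 : SmR Dm kc R d) (h0 : [] ∈ R → 1 ≤ d ∧ R ⊆ {[]}) :
    SmR Dm kc {gs | ∃ g ∈ X, ∃ ms ∈ R, gs = g :: ms} (x * d) := by
  by_cases h3 : [] ∈ R
  · obtain ⟨h4, h5⟩ := h0 h3
    refine SmR.up (smR_anti ?_ (smR_one h1)) (by nlinarith)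
    rintro gs ⟨g, hg, ms, hms, rfl⟩
    have h6 : ms = [] := h5 hms
    rw [h6]
    exact ⟨g, hg, rfl⟩
  · refine smR_anti ?_ (smR_app hDm (inH_one hX) hR hx hd (smR_one h1) h2)
    rintro gs ⟨g, hg, ms, hms, rfl⟩
    exact ⟨[g], ⟨g, hg, rfl⟩, ms, hms, List.cons_ne_nil _ _, fun h => h3 (h ▸ hms), rfl⟩

/-- one exact leaf in front -/
lemma smRX_cons (hDm : DmP Dm) {X : Set (List Bool)} (hX : X ⊆ HB (2 ^ (kc + 4))) (hR : InH (2 ^ (kc + 4)) R) {x d : ℝ}
    (hx : 0 ≤ x) (hd : 0 ≤ d) (h1 : SmDX Dm kc X x) (h2 : SmR Dm kc R d) (h0 : [] ∈ R → 1 ≤ d ∧ R ⊆ {[]}) :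
    SmRX Dm kc {gs | ∃ g ∈ X, ∃ ms ∈ R, gs = g :: ms} (x * d) := by
  by_cases h3 : [] ∈ R
  · obtain ⟨h4, h5⟩ := h0 h3
    refine SmRX.le (SmRX.anti (smRX_one h1) ?_) (by nlinarith)
    rintro gs ⟨g, hg, ms, hms, rfl⟩
    have h6 : ms = [] := h5 hms
    rw [h6]
    exact ⟨g, hg, rfl⟩
  · refine SmRX.anti (smRX_right hDm (inH_one hX) hR hx hd (smRX_one h1) h2) ?_
    rintro gs ⟨g, hg, ms, hms, rfl⟩
    exact ⟨[g], ⟨g, hg, rfl⟩, ms, hms, List.cons_ne_nil _ _, fun h => h3 (h ▸ hms), rfl⟩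

/-- one more leaf in front of an exact class -/
lemma smRX_cons' (hDm : DmP Dm) {X : Set (List Bool)} (hX : X ⊆ HB (2 ^ (kc + 4))) (hR : InH (2 ^ (kc + 4)) R)
    {x d : ℝ} (hx : 0 ≤ x) (hd : 0 ≤ d) (h1 : SmD Dm kc X x) (h2 : SmRX Dm kc R d) (h0 : [] ∉ R) :
    SmRX Dm kc {gs | ∃ g ∈ X, ∃ ms ∈ R, gs = g :: ms} (x * d) := by
  refine SmRX.anti (smRX_left hDm (inH_one hX) hR hx hd (smR_one h1) h2) ?_
  rintro gs ⟨g, hg, ms, hms, rfl⟩
  exact ⟨[g], ⟨g, hg, rfl⟩, ms, hms, List.cons_ne_nil _ _, fun h => h0 (h ▸ hms), rfl⟩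

/-- **the norm of the marked runs of n leaves** -/
theorem smR_Mk (hDm : DmP Dm) (hSH : S ⊆ HB (2 ^ (kc + 4))) (hBH : B ⊆ HB (2 ^ (kc + 4))) (hAH : A ⊆ HB (2 ^ (kc + 4)))
    (hδ : 0 ≤ δ) (hb : 0 ≤ b) (hq : 1 ≤ q) (hS : SmD Dm kc S δ) (hB : SmD Dm kc B b) (hA : SmD Dm kc A q) (n : ℕ) :
    ∀ s r : ℕ, SmR Dm kc {gs | gs.length = n ∧ Mk S B A s r gs} ((3 * q) ^ n * (δ ^ s * b ^ r)) := by
  have hq0 : 0 ≤ q := by linarith
  induction n with
  | zero =>
    intro s r
    refine smR_empty fun g ms h => ?_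
    have := h.1
    rw [List.length_cons] at this
    omega
  | succ n ih =>
    intro s r
    have hin : ∀ s r : ℕ, InH (2 ^ (kc + 4)) {gs | gs.length = n ∧ Mk S B A s r gs} := fun s r gs hgs =>
      inH_Mk hSH hBH hAH hgs.2
    have hnil : ∀ s r : ℕ, [] ∈ {gs | gs.length = n ∧ Mk S B A s r gs} →
        1 ≤ (3 * q) ^ n * (δ ^ s * b ^ r) ∧ {gs | gs.length = n ∧ Mk S B A s r gs} ⊆ {[]} := by
      rintro s r ⟨h1, h2⟩
      rw [List.length_nil] at h1
      cases h2
      subst h1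
      refine ⟨by norm_num, fun gs hgs => ?_⟩
      exact List.length_eq_zero_iff.1 hgs.1
    have hpos : ∀ s r : ℕ, 0 ≤ (3 * q) ^ n * (δ ^ s * b ^ r) := fun s r => by positivity
    -- first leaf in S
    have p1 : SmR Dm kc {gs | ∃ s', s = s' + 1 ∧ ∃ g ∈ S, ∃ ms ∈ {gs | gs.length = n ∧ Mk S B A s' r gs}, gs = g :: ms}
        ((3 * q) ^ n * (δ ^ s * b ^ r)) := by
      cases s with
      | zero =>
        refine smR_empty fun g ms h => ?_
        obtain ⟨s', h1, -⟩ := h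
        omega
      | succ s' =>
        refine SmR.up (smR_anti ?_ (smR_cons hDm hSH (hin s' r) hδ (hpos s' r) hS (ih s' r) (hnil s' r)))
          (le_of_eq (by ring))
        rintro gs ⟨s'', h1, h2⟩
        obtain rfl : s' = s'' := by omega
        exact h2
    have p2 : SmR Dm kc {gs | ∃ r', r = r' + 1 ∧ ∃ g ∈ B, ∃ ms ∈ {gs | gs.length = n ∧ Mk S B A s r' gs}, gs = g :: ms}
        ((3 * q) ^ n * (δ ^ s * b ^ r)) := by
      cases r with
      | zero =>
        refine smR_empty fun g ms h => ?_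
        obtain ⟨s', h1, -⟩ := h
        omega
      | succ r' =>
        refine SmR.up (smR_anti ?_ (smR_cons hDm hBH (hin s r') hb (hpos s r') hB (ih s r') (hnil s r')))
          (le_of_eq (by ring))
        rintro gs ⟨s'', h1, h2⟩
        obtain rfl : r' = s'' := by omega
        exact h2
    have p3 := smR_cons hDm hAH (hin s r) hq0 (hpos s r) hA (ih s r) (hnil s r)
    refine SmR.up (smR_anti ?_ (smR_union (add_nonneg (hpos s r) (hpos s r)) (mul_nonneg hq0 (hpos s r))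
      (smR_union (hpos s r) (hpos s r) p1 p2) p3)) ?_
    · rintro gs ⟨h1, h2⟩
      cases h2 with
      | nil => simp at h1
      | s h3 h4 => exact Or.inl (Or.inl ⟨_, rfl, _, h3, _, ⟨by simpa using h1, h4⟩, rfl⟩)
      | b h3 h4 => exact Or.inl (Or.inr ⟨_, rfl, _, h3, _, ⟨by simpa using h1, h4⟩, rfl⟩)
      | a h3 h4 => exact Or.inr ⟨_, h3, _, ⟨by simpa using h1, h4⟩, rfl⟩
    · have h5 := hpos s r
      rw [pow_succ]
      nlinarith

/-- **the exact norm of the marked runs of n leaves with one leaf in G** -/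
theorem smRX_Mk (hDm : DmP Dm) (hGH : G ⊆ HB (2 ^ (kc + 4))) (hSH : S ⊆ HB (2 ^ (kc + 4))) (hBH : B ⊆ HB (2 ^ (kc + 4)))
    (hAH : A ⊆ HB (2 ^ (kc + 4))) (ha : 0 ≤ a) (hδ : 0 ≤ δ) (hb : 0 ≤ b) (hq : 1 ≤ q) (hG : SmDX Dm kc G a)
    (hS : SmD Dm kc S δ) (hB : SmD Dm kc B b) (hA : SmD Dm kc A q) (n : ℕ) :
    ∀ s r : ℕ, SmRX Dm kc {gs | gs.length = n ∧ MkX G S B A s r gs} ((4 * q) ^ n * (a * (δ ^ s * b ^ r))) := by
  have hq0 : 0 ≤ q := by linarith
  induction n with
  | zero =>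
    intro s r
    refine smRX_of_smR (smR_empty fun g ms h => ?_)
    have := h.1
    rw [List.length_cons] at this
    omega
  | succ n ih =>
    intro s r
    have hin : ∀ s r : ℕ, InH (2 ^ (kc + 4)) {gs | gs.length = n ∧ MkX G S B A s r gs} := fun s r gs hgs =>
      inH_MkX hGH hSH hBH hAH hgs.2
    have hnil : ∀ s r : ℕ, [] ∉ {gs | gs.length = n ∧ MkX G S B A s r gs} := by
      rintro s r ⟨-, h2⟩
      exact h2.ne rfl
    have hpos : ∀ s r : ℕ, 0 ≤ (4 * q) ^ n * (a * (δ ^ s * b ^ r)) := fun s r => by positivity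
    -- the exact leaf is the first
    have p0 : SmRX Dm kc {gs | ∃ g ∈ G, ∃ ms ∈ {gs | gs.length = n ∧ Mk S B A s r gs}, gs = g :: ms}
        ((4 * q) ^ n * (a * (δ ^ s * b ^ r))) := by
      refine SmRX.le (smRX_cons hDm hGH (fun gs hgs => inH_Mk hSH hBH hAH hgs.2) ha
        (show 0 ≤ (3 * q) ^ n * (δ ^ s * b ^ r) by positivity) hG (smR_Mk hDm hSH hBH hAH hδ hb hq hS hB hA n s r) ?_) ?_
      · rintro ⟨h1, h2⟩
        rw [List.length_nil] at h1
        cases h2
        subst h1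
        refine ⟨by norm_num, fun gs hgs => ?_⟩
        exact List.length_eq_zero_iff.1 hgs.1
      · have h1 : (3 * q) ^ n ≤ (4 * q) ^ n := pow_le_pow_left₀ (by positivity) (by linarith) n
        have h2 : 0 ≤ a * (δ ^ s * b ^ r) := by positivity
        nlinarith
    have p1 : SmRX Dm kc {gs | ∃ s', s = s' + 1 ∧ ∃ g ∈ S, ∃ ms ∈ {gs | gs.length = n ∧ MkX G S B A s' r gs},
        gs = g :: ms} ((4 * q) ^ n * (a * (δ ^ s * b ^ r))) := by
      cases s with
      | zero =>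
        refine smRX_of_smR (smR_empty fun g ms h => ?_)
        obtain ⟨s', h1, -⟩ := h
        omega
      | succ s' =>
        refine SmRX.le (SmRX.anti (smRX_cons' hDm hSH (hin s' r) hδ (hpos s' r) hS (ih s' r) (hnil s' r)) ?_)
          (le_of_eq (by ring))
        rintro gs ⟨s'', h1, h2⟩
        obtain rfl : s' = s'' := by omega
        exact h2
    have p2 : SmRX Dm kc {gs | ∃ r', r = r' + 1 ∧ ∃ g ∈ B, ∃ ms ∈ {gs | gs.length = n ∧ MkX G S B A s r' gs},
        gs = g :: ms} ((4 * q) ^ n * (a * (δ ^ s * b ^ r))) := by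
      cases r with
      | zero =>
        refine smRX_of_smR (smR_empty fun g ms h => ?_)
        obtain ⟨s', h1, -⟩ := h
        omega
      | succ r' =>
        refine SmRX.le (SmRX.anti (smRX_cons' hDm hBH (hin s r') hb (hpos s r') hB (ih s r') (hnil s r')) ?_)
          (le_of_eq (by ring))
        rintro gs ⟨s'', h1, h2⟩
        obtain rfl : r' = s'' := by omega
        exact h2
    have p3 := smRX_cons' hDm hAH (hin s r) hq0 (hpos s r) hA (ih s r) (hnil s r)
    refine SmRX.le (SmRX.anti (smRX_union (add_nonneg (hpos s r) (add_nonneg (hpos s r) (hpos s r)))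
      (mul_nonneg hq0 (hpos s r))
      (smRX_union (hpos s r) (add_nonneg (hpos s r) (hpos s r)) p0 (smRX_union (hpos s r) (hpos s r) p1 p2)) p3) ?_) ?_
    · rintro gs ⟨h1, h2⟩
      cases h2 with
      | g h3 h4 => exact Or.inl (Or.inl ⟨_, h3, _, ⟨by simpa using h1, h4⟩, rfl⟩)
      | s h3 h4 => exact Or.inl (Or.inr (Or.inl ⟨_, rfl, _, h3, _, ⟨by simpa using h1, h4⟩, rfl⟩))
      | b h3 h4 => exact Or.inl (Or.inr (Or.inr ⟨_, rfl, _, h3, _, ⟨by simpa using h1, h4⟩, rfl⟩))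
      | a h3 h4 => exact Or.inr ⟨_, h3, _, ⟨by simpa using h1, h4⟩, rfl⟩
    · have h5 := hpos s r
      rw [pow_succ]
      nlinarith

end norms

end EN

end HexObs
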