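import Pool.Agent.EN.EmoDefs

/-!
EN (every number of letters): alternating moves and the numbers of the folds of a word.
-/

set_option autoImplicit false

namespace HexObs

namespace EN

open Finset TS SDN NTW NTA

/-! ### 1. Alternating moves -/

/-- the sign of a move -/
lemma sgn_cases {s : ℤ} (hs : s = 1 ∨ s = -1) (j : ℕ) : s * (-1) ^ j = 1 ∨ s * (-1) ^ j = -1 := by
  rcases hs with rfl | rfl <;> rcases neg_one_pow_eq_or ℤ j with h | h <;> rw [h] <;> simp

lemma alt_mono {f : ℕ → ℤ} {N N' M M' : ℕ} {R R' : ℤ} (hA : Alt f N M R) (hN : N ≤ N') (hM : M' ≤ M) (hR : R' ≤ R) :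
    Alt f N' M' R' := by
  obtain ⟨τ, s, hs, h1, h2, h3⟩ := hA
  exact ⟨τ, s, hs, fun j hj => h1 j (by omega), fun j hj => (h2 j (by omega)).trans hN, fun j hj => hR.trans (h3 j (by omega))⟩

lemma alt_affine {f : ℕ → ℤ} {N M : ℕ} {R : ℤ} (hA : Alt f N M R) (c : ℤ) {σ : ℤ} (hσ : σ = 1 ∨ σ = -1) :
    Alt (fun i => c + σ * f i) N M R := by
  obtain ⟨τ, s, hs, h1, h2, h3⟩ := hA
  refine ⟨τ, s * σ, ?_, h1, h2, fun j hj => ?_⟩
  · rcases hs with rfl | rfl <;> rcases hσ with rfl | rfl <;> simp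
  · have h4 := h3 j hj
    have h5 : σ * σ = 1 := by rcases hσ with rfl | rfl <;> rfl
    calc R ≤ s * (-1) ^ j * (f (τ (j + 1)) - f (τ j)) := h4
      _ = σ * σ * (s * (-1) ^ j * (f (τ (j + 1)) - f (τ j))) := by rw [h5, one_mul]
      _ = s * σ * (-1) ^ j * (c + σ * f (τ (j + 1)) - (c + σ * f (τ j))) := by ring

/-- only the values at the times up to N matter -/
lemma alt_congr {f g : ℕ → ℤ} {N M : ℕ} {R : ℤ} (hA : Alt f N M R) (h : ∀ i, i ≤ N → f i = g i) : Alt g N M R := by
  obtain ⟨τ, s, hs, h1, h2, h3⟩ := hA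
  refine ⟨τ, s, hs, h1, h2, fun j hj => ?_⟩
  rw [← h _ (h2 (j + 1) (by omega)), ← h _ (h2 j (by omega))]
  exact h3 j hj

/-- without the first q times -/
theorem alt_drop {f : ℕ → ℤ} {q N M : ℕ} {R : ℤ} (_hq : q ≤ N) (h : ∀ i, i ≤ q → |f i - f q| ≤ 2) (hA : Alt f N M R) :
    Alt (fun i => f (q + i)) (N - q) M (R - 4) := by
  obtain ⟨τ, s, hs, h1, h2, h3⟩ := hA
  refine ⟨fun j => τ j - q, s, hs, fun j hj => Nat.sub_le_sub_right (h1 j hj) q, fun j hj => Nat.sub_le_sub_right (h2 j hj) q,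
    fun j hj => ?_⟩
  have key : ∀ x, |f (q + (x - q)) - f x| ≤ 2 := by
    intro x
    rcases Nat.lt_or_ge x q with hx | hx
    · rw [Nat.sub_eq_zero_of_le hx.le, Nat.add_zero, abs_sub_comm]
      exact h x hx.le
    · rw [Nat.add_sub_cancel' hx, sub_self, abs_zero]
      norm_num
  have h4 := key (τ j)
  have h5 := key (τ (j + 1))
  have h6 := h3 j hj
  rw [abs_le] at h4 h5
  show R - 4 ≤ s * (-1) ^ j * (f (q + (τ (j + 1) - q)) - f (q + (τ j - q)))
  rcases sgn_cases hs j with h7 | h7 <;> rw [h7] at h6 ⊢ <;> linarith [h4.1, h4.2, h5.1, h5.2]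

/-! ### 2. Many moves: many folds -/

/-- two consecutive moves are not in one cell -/
lemma no_two {f : ℕ → ℤ} {τ : ℕ → ℕ} {s R : ℤ} (hs : s = 1 ∨ s = -1) {M : ℕ}
    (h3 : ∀ j, j < M → R ≤ s * (-1) ^ j * (f (τ (j + 1)) - f (τ j))) (h1 : ∀ j, j < M → τ j ≤ τ (j + 1)) {j : ℕ}
    (hj : j + 2 ≤ M) {σ : ℤ} (hσ : σ = 1 ∨ σ = -1)
    (hc : ∀ i i', τ j ≤ i → i ≤ i' → i' ≤ τ (j + 2) → σ * f i - σ * f i' < R) : False := by
  have a1 := h3 j (by omega)
  have a2 := h3 (j + 1) (by omega)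
  have b1 := h1 j (by omega)
  have b2 := h1 (j + 1) (by omega)
  have c1 := hc (τ j) (τ (j + 1)) le_rfl b1 b2
  have c2 := hc (τ (j + 1)) (τ (j + 1 + 1)) b1 b2 le_rfl
  rw [pow_succ] at a2
  rcases sgn_cases hs j with h7 | h7
  · rw [h7] at a1
    rw [← mul_assoc, h7] at a2
    rcases hσ with rfl | rfl <;> linarith
  · rw [h7] at a1
    rw [← mul_assoc, h7] at a2
    rcases hσ with rfl | rfl <;> linarith

/-- the cells between m + 1 cuts: an interval without cuts is in one cell -/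
lemma cell_of {m x y : ℕ} {e : ℕ → ℕ} (h : ∀ i, i ≤ m → ¬ (x < e i ∧ e i < y)) :
    y ≤ e 0 ∨ e m ≤ x ∨ ∃ i, i < m ∧ e i ≤ x ∧ y ≤ e (i + 1) := by
  by_contra hc
  push Not at hc
  obtain ⟨h1, h2, h3⟩ := hc
  have key : ∀ i, i ≤ m → e i ≤ x := by
    intro i
    induction i with
    | zero =>
      intro h0
      have := h 0 h0
      omega
    | succ i ih =>
      intro hi
      have h4 := ih (by omega)
      have h5 := h3 i (by omega) h4
      have h6 := h (i + 1) hi
      omega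
  have := key m le_rfl
  omega

/-- **many moves: many folds** -/
theorem alt_count {b m u : ℕ} {t : List Bool} {e : ℕ → ℕ} (h : Fd b t m u e) {M : ℕ} {R : ℤ} (hR : RR b ≤ R)
    (hA : Alt (lev t) t.length M R) : M ≤ 2 * m + 3 := by
  obtain ⟨_, hG, _, hsm, hst, hfin⟩ := h
  obtain ⟨τ, s, hs, h1, h2, h3⟩ := hA
  have hex : ∀ j, j + 2 ≤ M → ∃ i, i ≤ m ∧ τ j < e i ∧ e i < τ (j + 2) := by
    intro j hj
    by_contra hc
    have hc' : ∀ i, i ≤ m → ¬ (τ j < e i ∧ e i < τ (j + 2)) := fun i hi hh => hc ⟨i, hi, hh.1, hh.2⟩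
    rcases cell_of hc' with h4 | h4 | ⟨i, hi, h4, h5⟩
    · refine no_two hs h3 h1 hj (Or.inl rfl) fun x y hx hxy hy => ?_
      have := hst x y (by omega) (by omega)
      linarith
    · refine no_two hs h3 h1 hj (Or.inl rfl) fun x y hx hxy hy => ?_
      have h6 := h2 (j + 2) hj
      have := hfin x y (by omega) (by omega) (by omega) (by omega)
      linarith
    · rcases Nat.even_or_odd (u + i) with h6 | h6
      · refine no_two hs h3 h1 hj (Or.inr rfl) fun x y hx hxy hy => ?_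
        have h7 := hsm i hi x y (by omega) hxy (by omega)
        rw [Tight.sg_even h6, Tight.sg_even h6] at h7
        linarith
      · refine no_two hs h3 h1 hj (Or.inl rfl) fun x y hx hxy hy => ?_
        have h7 := hsm i hi x y (by omega) hxy (by omega)
        rw [Tight.sg_odd (Nat.not_even_iff_odd.2 h6), Tight.sg_odd (Nat.not_even_iff_odd.2 h6)] at h7
        linarith
  have hmono : ∀ i j, i ≤ j → j ≤ M → τ i ≤ τ j := by
    intro i j hij
    induction j, hij using Nat.le_induction with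
    | base => intro _; exact le_rfl
    | succ j hj ih => intro hjM; exact (ih (by omega)).trans (h1 j (by omega))
  have hch : ∀ j : ℕ, ∃ i : ℕ, j < M / 2 → (i ≤ m ∧ τ (2 * j) < e i ∧ e i < τ (2 * j + 2)) := by
    intro j
    by_cases hj : j < M / 2
    · obtain ⟨i, hi⟩ := hex (2 * j) (by omega)
      exact ⟨i, fun _ => hi⟩
    · exact ⟨0, fun h => absurd h hj⟩
  choose g hg using hch
  have hcard : (range (M / 2)).card ≤ (range (m + 1)).card := by
    refine Finset.card_le_card_of_injOn g (fun j hj => ?_) ?_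
    · have hj' : j < M / 2 := mem_range.1 (Finset.mem_coe.1 hj)
      have := (hg j hj').1
      exact Finset.mem_coe.2 (mem_range.2 (by omega))
    · intro j hj j' hj' hgg
      have hj1 : j < M / 2 := mem_range.1 (Finset.mem_coe.1 hj)
      have hj2 : j' < M / 2 := mem_range.1 (Finset.mem_coe.1 hj')
      obtain ⟨_, a1, a2⟩ := hg j hj1
      obtain ⟨_, b1, b2⟩ := hg j' hj2
      rw [hgg] at a1 a2
      by_contra hne
      rcases Nat.lt_or_gt_of_ne hne with hlt | hlt
      · have := hmono (2 * j + 2) (2 * j') (by omega) (by omega)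
        omega
      · have := hmono (2 * j' + 2) (2 * j) (by omega) (by omega)
        omega
  rw [card_range, card_range] at hcard
  omega

/-! ### 3. Few moves: few cells -/

lemma sg_pow (k : ℕ) (x : ℤ) : Tight.sg k x = (-1) ^ (k + 1) * x := by
  rcases Nat.even_or_odd k with h | h
  · rw [Tight.sg_even h, Odd.neg_one_pow (Even.add_one h)]
    ring
  · rw [Tight.sg_odd (Nat.not_even_iff_odd.2 h), Even.neg_one_pow (Odd.add_one h)]
    ring

/-- the folds are alternating moves -/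
lemma alt_of_lf {dir : Bool} {b m u : ℕ} {t : List Bool} {e : ℕ → ℕ} (hF : Lf dir b t m u e) :
    Alt (fun i => lvl dir (vx oo up t i)) t.length m (RR b) := by
  refine ⟨e, (-1) ^ (u + 1), neg_one_pow_eq_or ℤ (u + 1), fun j hj => ?_, fun j hj => lf_le hF hj, fun j hj => ?_⟩
  · exact lf_mono hF (Nat.le_succ j) (by omega)
  · have h1 := hF.big j hj
    rw [sg_pow, sg_pow] at h1
    refine h1.trans (le_of_eq ?_)
    rw [← pow_add, show u + j + 1 = u + 1 + j by omega]
    ring

/-- **few moves: few cells** -/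
theorem part_of_not_alt_dir {t : List Bool} {b M : ℕ} {dir : Bool}
    (hA : ¬ Alt (fun i => lvl dir (vx oo up t i)) t.length M (RR b)) :
    Part (fun i => lvl dir (vx oo up t i)) 0 t.length (RR b) (M + 1) (M + 1) 0 := by
  obtain ⟨m, u, e, hF⟩ := lf_exists dir b t
  have hm : m < M := by
    by_contra hc
    exact hA (alt_mono (alt_of_lf hF) le_rfl (by omega) le_rfl)
  refine ⟨m + 2, T2.cpt t.length m e, range (m + 2), by omega, by rw [card_range]; omega, T2.cpt_zero _ _ _,
    by rw [T2.cpt_end, Nat.sub_zero], fun p hp => cpt_mono hF hp, fun p hp => ?_, fun p hp hp' => ?_, fun p hp => ?_⟩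
  · rw [Nat.sub_zero]
    rcases Nat.eq_zero_or_pos p with rfl | h0
    · rw [T2.cpt_zero]
      exact Nat.zero_le _
    · obtain ⟨i, rfl⟩ : ∃ i, p = i + 1 := ⟨p - 1, by omega⟩
      by_cases h1 : i ≤ m
      · rw [T2.cpt_mid _ _ _ h1]
        exact lf_le hF h1
      · have h2 : i = m + 1 := by omega
        rw [h2, T2.cpt_end]
  · exact absurd (mem_range.2 hp) hp'
  · obtain ⟨s, hs, h⟩ := lf_piece hF hp
    refine ⟨s, hs, fun i j hi hij hj => ?_⟩
    simp only [Nat.zero_add]
    exact h i j hi hij hj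

/-- a partition only depends on the values -/
lemma part_congr {f g : ℕ → ℤ} {y : ℕ} {R : ℤ} {K N K' N' : ℕ} {h : ℝ} (hP : Part f 0 y R K N h) (hK : K ≤ K') (hN : N ≤ N')
    (hfg : ∀ i, i ≤ y → f i = g i) : Part g 0 y R K' N' h := by
  obtain ⟨k, c, S, h1, h2, h3, h4, h5, h6, h7, h8⟩ := hP
  refine ⟨k, c, S, h1.trans hK, h2.trans hN, h3, h4, h5, h6, h7, fun p hp => ?_⟩
  obtain ⟨s, hs, h9⟩ := h8 p hp
  refine ⟨s, hs, fun i j hi hij hj => ?_⟩
  have h10 := h6 (p + 1) (by omega)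
  rw [← hfg (0 + i) (by omega), ← hfg (0 + j) (by omega)]
  exact h9 i j hi hij hj

/-- **few moves in one of the three directions: few cells** -/
theorem part_of_not_alt {t : List Bool} {b M : ℕ} {d : Fin 3}
    (hA : ¬ Alt (fun i => lv3 d (vx oo up t i)) t.length M (RR b)) :
    Part (fun i => lv3 d (vx oo up t i)) 0 t.length (RR b) (M + 2) (M + 2) 0 := by
  have hlen := wd_length d t
  have h1 : ¬ Alt (fun i => lvl (dr d) (vx oo up (wd d t) i)) (wd d t).length M (RR b) := by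
    intro h2
    refine hA ?_
    rw [hlen] at h2
    exact alt_congr h2 fun i hi => lvl_wd d t (by omega)
  have h2 := part_of_not_alt_dir h1
  rw [hlen] at h2
  exact part_congr h2 (by omega) (by omega) fun i hi => lvl_wd d t (by omega)

end EN

end HexObs
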