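import Pool.Agent.EN.EmoDir
import Pool.Agent.EN.Count

/-!
EN (every number of letters): the mass of the displacement event, three directions.
-/

set_option autoImplicit false

namespace HexObs

namespace EN

open Finset TS SDN NTW NTA NTW.DirA

open scoped ENNReal

lemma altCount3 : AltCount 3 := by
  intro b m u M t e _ h hA
  have := alt_count h le_rfl hA
  omega

lemma partOf (M : ℕ) : PartOf M (M + 2) := fun _ _ _ _ _ hA => part_of_not_alt hA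

theorem cleanJ : CleanD DmJ := by
  obtain ⟨Ci, δi, hI⟩ := inp_exists
  exact cleanD hI (ssA hI) ss3P ssDP

/-- Ub and Xb, five scales up -/
lemma ux_five : ∃ D : ℝ, 1 ≤ D ∧ ∀ (K : ℕ) (y : ℝ), 0 ≤ y →
    ENNReal.ofReal (y * Ub (K + 5)) * Xb (K + 5) ^ 2 ≤ ENNReal.ofReal (D * (y * Ub K)) * Xb K ^ 2 := by
  obtain ⟨D, hD, hX⟩ := Xb_pow
  have hD0 : 0 ≤ D := by linarith
  refine ⟨32 * D ^ 10, ?_, fun K y hy => ?_⟩
  · have : (1 : ℝ) ≤ D ^ 10 := one_le_pow₀ hD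
    linarith
  have hU := Ub_pos K
  have h2 : Ub (K + 5) ≤ 2 ^ 5 * Ub K := UU_ratio_up K 5
  calc ENNReal.ofReal (y * Ub (K + 5)) * Xb (K + 5) ^ 2
      ≤ ENNReal.ofReal (y * (2 ^ 5 * Ub K)) * (ENNReal.ofReal (D ^ 5) * Xb K) ^ 2 := by
        refine mul_le_mul' (ENNReal.ofReal_le_ofReal ?_) (pow_le_pow_left' (hX K 5) 2)
        gcongr
    _ = ENNReal.ofReal (32 * D ^ 10 * (y * Ub K)) * Xb K ^ 2 := by
        rw [mul_pow, ← ENNReal.ofReal_pow (by positivity), ← mul_assoc, ← ENNReal.ofReal_mul (by positivity)]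
        congr 2
        rw [← pow_mul]
        ring

/-- **the mass of the walks with many moves in a direction** -/
theorem n3_mass {m : ℕ → ℝ} {J0 M : ℕ} (hm : ∀ k, 0 < m k) (hM : MarkX m J0) (hJM : 3 * (J0 + 2) < M) :
    ∃ (D : ℝ) (k0 : ℕ), 1 ≤ D ∧ ∀ (d : Fin 3) (K kc n : ℕ), k0 ≤ kc → kc + 1 ≤ K →
    gf {t | t ∈ SA ∧ t.length = n ∧ t ∈ N3 d K kc M} ≤
      ENNReal.ofReal (D ^ (K + 1 - kc) / m kc * Ub K) * Xb K ^ 2 := by
  obtain ⟨D, k0, hD, h⟩ := mn_mass hm hM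
  obtain ⟨D1, hD1, hu⟩ := ux_five
  have hD0 : 0 < D := by linarith
  have hD10 : 0 < D1 := by linarith
  have hCD := CD_ge
  have hCD0 : 0 < CD := by linarith
  refine ⟨D ^ 5 * D1 * (2 * CD), k0, ?_, fun d K kc n hk hK => ?_⟩
  · refine one_le_mul_of_one_le_of_one_le (one_le_mul_of_one_le_of_one_le (one_le_pow₀ hD) hD1) (by linarith)
  have hmk := hm kc
  have hU := Ub_pos K
  have h1 := dir3X d n (ENNReal.ofReal (D ^ (K + 5 - kc) / m kc * Ub (K + 5)) * Xb (K + 5) ^ 2) (N3 d K kc M)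
    (MN kc (K + 5 - kc) J0) (fun n' _ => by
      have := h kc (K + 5 - kc) n' hk (by omega)
      rw [show kc + (K + 5 - kc) = K + 5 by omega] at this
      refine (gf_mono ?_).trans this
      rintro t ⟨-, a2, a3⟩
      exact ⟨a2, a3⟩)
    (fun q t sg _ hq hsg a1 a2 a3 a4 => n3_drop altCount3 hJM (by omega) hq hsg a1 a2 a3 a4)
  refine h1.trans ((mul_le_mul_right (hu K _ (by positivity)) _).trans ?_)
  rw [← mul_assoc, ← ENNReal.ofReal_mul (by positivity)]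
  refine mul_le_mul_left (ENNReal.ofReal_le_ofReal ?_) _
  have e1 : D ^ (K + 5 - kc) ≤ (D ^ 5) ^ (K + 1 - kc) := by
    rw [← pow_mul]
    exact pow_le_pow_right₀ hD (by omega)
  have e2 : D1 * (2 * CD) ≤ (D1 * (2 * CD)) ^ (K + 1 - kc) := by
    have e3 : 1 ≤ D1 * (2 * CD) := one_le_mul_of_one_le_of_one_le hD1 (by linarith)
    calc D1 * (2 * CD) = (D1 * (2 * CD)) ^ 1 := by rw [pow_one]
      _ ≤ _ := pow_le_pow_right₀ e3 (by omega)
  calc 2 * CD * (D1 * (D ^ (K + 5 - kc) / m kc * Ub K)) = D ^ (K + 5 - kc) * (D1 * (2 * CD)) / m kc * Ub K := by ring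
    _ ≤ (D ^ 5) ^ (K + 1 - kc) * (D1 * (2 * CD)) ^ (K + 1 - kc) / m kc * Ub K := by gcongr
    _ = (D ^ 5 * D1 * (2 * CD)) ^ (K + 1 - kc) / m kc * Ub K := by
        rw [← mul_pow]
        congr 3
        ring

/-- **the mass of the displacement event in a direction** -/
theorem d3_mass {m : ℕ → ℝ} {J0 M : ℕ} (hm : ∀ k, 0 < m k) (hM : MarkX m J0) (hS : ShortM m) (hJM : 3 * (J0 + 2) < M) :
    ∃ (D : ℝ) (s0 k0 : ℕ), 1 ≤ D ∧ ∀ Q : ℕ, ∃ A : ℝ, 1 ≤ A ∧ ∀ (d : Fin 3) (K kc k j1 n nn : ℕ) (x : ℝ), k0 ≤ k →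
    kc + 1 ≤ K → k + j1 = kc → 5 ≤ j1 → s0 ≤ j1 → nn * 2 ^ s0 ≤ 2 ^ j1 → 0 < x → x ≤ m k → x ≤ m kc →
    gf {t | t ∈ SA ∧ t.length = n ∧ t ∈ D3 d K kc M x} ≤
      ENNReal.ofReal (D ^ (K + 1 - k) * (A * (x / m kc) ^ Q / m kc + A * (x / m k) ^ Q / m k + 1 / 4 ^ nn / m kc) *
        Ub K) * Xb K ^ 2 := by
  obtain ⟨D, s0, k0, hD, h⟩ := dn_mass hm hM hS cleanJ
  obtain ⟨D1, hD1, hu⟩ := ux_five
  have hD0 : 0 < D := by linarith
  have hD10 : 0 < D1 := by linarith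
  have hCD := CD_ge
  have hCD0 : 0 < CD := by linarith
  refine ⟨D ^ 5 * D1 * (2 * CD), s0, k0, ?_, fun Q => ?_⟩
  · refine one_le_mul_of_one_le_of_one_le (one_le_mul_of_one_le_of_one_le (one_le_pow₀ hD) hD1) (by linarith)
  obtain ⟨A, hA, h⟩ := h Q
  have hA0 : 0 < A := by linarith
  refine ⟨A, hA, fun d K kc k j1 n nn x hk hK hkj hj5 hsj hnn hx hxk hxc => ?_⟩
  have hmk := hm k
  have hmc := hm kc
  have hU := Ub_pos K
  obtain ⟨Z, hZ⟩ : ∃ Z, Z = A * (x / m kc) ^ Q / m kc + A * (x / m k) ^ Q / m k + 1 / 4 ^ nn / m kc := ⟨_, rfl⟩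
  have hZ0 : 0 ≤ Z := by rw [hZ]; positivity
  rw [← hZ]
  have h1 := dir3X d n (ENNReal.ofReal (D ^ (K + 5 - kc + j1) * Z * Ub (K + 5)) * Xb (K + 5) ^ 2) (D3 d K kc M x)
    (DN kc (K + 5 - kc) J0 x) (fun n' _ => by
      have := h kc k j1 (K + 5 - kc) n' nn x hk (by omega) hkj hj5 hsj hnn hx hxk hxc
      rw [show kc + (K + 5 - kc) = K + 5 by omega, ← hZ] at this
      refine (gf_mono ?_).trans this
      rintro t ⟨-, a2, a3⟩
      exact ⟨a2, a3⟩)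
    (fun q t sg _ hq hsg a1 a2 a3 a4 => d3_drop altCount3 hJM (by omega) hq hsg a1 a2 a3 a4)
  refine h1.trans ((mul_le_mul_right (hu K _ (by positivity)) _).trans ?_)
  rw [← mul_assoc, ← ENNReal.ofReal_mul (by positivity)]
  refine mul_le_mul_left (ENNReal.ofReal_le_ofReal ?_) _
  have e1 : D ^ (K + 5 - kc + j1) ≤ (D ^ 5) ^ (K + 1 - k) := by
    rw [← pow_mul]
    exact pow_le_pow_right₀ hD (by omega)
  have e2 : D1 * (2 * CD) ≤ (D1 * (2 * CD)) ^ (K + 1 - k) := by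
    have e3 : 1 ≤ D1 * (2 * CD) := one_le_mul_of_one_le_of_one_le hD1 (by linarith)
    calc D1 * (2 * CD) = (D1 * (2 * CD)) ^ 1 := by rw [pow_one]
      _ ≤ _ := pow_le_pow_right₀ e3 (by omega)
  calc 2 * CD * (D1 * (D ^ (K + 5 - kc + j1) * Z * Ub K)) = D ^ (K + 5 - kc + j1) * (D1 * (2 * CD)) * Z * Ub K := by ring
    _ ≤ (D ^ 5) ^ (K + 1 - k) * (D1 * (2 * CD)) ^ (K + 1 - k) * Z * Ub K := by gcongr
    _ = (D ^ 5 * D1 * (2 * CD)) ^ (K + 1 - k) * Z * Ub K := by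
        rw [← mul_pow]
        congr 3
        ring

end EN

end HexObs
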