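import Mathlib

/-!
EN: the numbers of the modulus at exactly n letters.
-/

set_option autoImplicit false

namespace HexObs

namespace EN

open Filter Topology

lemma two_clog (x : ℕ) (hx : 1 ≤ x) : 2 ^ Nat.clog 2 x ≤ 2 * x := by
  rcases Nat.lt_or_ge 1 x with h | h
  · have h1 := Nat.pow_pred_clog_lt_self (b := 2) (by norm_num) h
    have h2 : 0 < Nat.clog 2 x := Nat.clog_pos (by norm_num) h
    obtain ⟨c, hc⟩ : ∃ c, Nat.clog 2 x = c + 1 := ⟨Nat.clog 2 x - 1, by omega⟩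
    rw [hc] at h1 ⊢
    rw [Nat.pred_succ] at h1
    rw [pow_succ]
    omega
  · have : x = 1 := by omega
    rw [this]
    simp

/-- a power of the logarithm of r against 2 ^ (- r) -/
lemma small_j {E : ℝ} (hE : 1 ≤ E) (Q s1 : ℕ) {ε : ℝ} (hε : 0 < ε) :
    ∃ r0 : ℕ, ∀ r : ℕ, r0 ≤ r → E ^ (s1 + Nat.clog 2 ((Q + 1) * (r + 1))) * (1 / 2) ^ r ≤ ε := by
  obtain ⟨e, he⟩ : ∃ e : ℕ, E ≤ (2 : ℝ) ^ e := by
    obtain ⟨q, hq⟩ := pow_unbounded_of_one_lt E (show (1 : ℝ) < 2 by norm_num)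
    exact ⟨q, hq.le⟩
  have hE0 : 0 ≤ E := by linarith
  have h1 := tendsto_pow_const_mul_const_pow_of_abs_lt_one e (r := (1 / 2 : ℝ)) (by rw [abs_of_pos] <;> norm_num)
  have h2 := h1.comp (tendsto_add_atTop_nat 1)
  obtain ⟨A, hA⟩ : ∃ A : ℝ, A = E ^ s1 * (2 * (Q + 1)) ^ e * 2 := ⟨_, rfl⟩
  have hA0 : 0 < A := by
    rw [hA]
    have : 0 < E := by linarith
    positivity
  have h3 : ∀ᶠ n : ℕ in atTop, ((fun n : ℕ => (n : ℝ) ^ e * (1 / 2) ^ n) ∘ fun a => a + 1) n < ε / A :=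
    h2.eventually_lt_const (by positivity)
  obtain ⟨r0, hr0⟩ := eventually_atTop.1 h3
  refine ⟨r0, fun r hr => ?_⟩
  have h4 := hr0 r hr
  simp only [Function.comp] at h4
  have h5 : E ^ Nat.clog 2 ((Q + 1) * (r + 1)) ≤ (2 * (Q + 1)) ^ e * ((r + 1 : ℕ) : ℝ) ^ e := by
    have h6 := two_clog ((Q + 1) * (r + 1)) (Nat.mul_pos (by omega) (by omega))
    calc E ^ Nat.clog 2 ((Q + 1) * (r + 1)) ≤ (2 ^ e) ^ Nat.clog 2 ((Q + 1) * (r + 1)) := pow_le_pow_left₀ hE0 he _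
      _ = ((2 ^ Nat.clog 2 ((Q + 1) * (r + 1)) : ℕ) : ℝ) ^ e := by
          push_cast
          rw [← pow_mul, ← pow_mul, mul_comm]
      _ ≤ ((2 * ((Q + 1) * (r + 1)) : ℕ) : ℝ) ^ e := by
          have : ((2 ^ Nat.clog 2 ((Q + 1) * (r + 1)) : ℕ) : ℝ) ≤ ((2 * ((Q + 1) * (r + 1)) : ℕ) : ℝ) := by
            exact_mod_cast h6
          gcongr
      _ = (2 * (Q + 1)) ^ e * ((r + 1 : ℕ) : ℝ) ^ e := by
          rw [← mul_pow]
          push_cast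
          ring
  rw [pow_add]
  calc E ^ s1 * E ^ Nat.clog 2 ((Q + 1) * (r + 1)) * (1 / 2) ^ r
      ≤ E ^ s1 * ((2 * (Q + 1)) ^ e * ((r + 1 : ℕ) : ℝ) ^ e) * (1 / 2) ^ r := by gcongr
    _ = A * (((r + 1 : ℕ) : ℝ) ^ e * (1 / 2) ^ (r + 1)) := by
        rw [hA, pow_succ (1 / 2 : ℝ) r]
        ring
    _ ≤ A * (ε / A) := by gcongr
    _ = ε := by field_simp

/-- the dyadic order of a number in (0, 1] -/
lemma dyadic {d : ℝ} (h0 : 0 < d) (h1 : d ≤ 1) : ∃ r : ℕ, (1 / 2 : ℝ) ^ (r + 1) < d ∧ d ≤ (1 / 2) ^ r := by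
  classical
  have hex : ∃ r : ℕ, (1 / 2 : ℝ) ^ (r + 1) < d := by
    obtain ⟨n, hn⟩ := exists_pow_lt_of_lt_one h0 (show (1 / 2 : ℝ) < 1 by norm_num)
    refine ⟨n, lt_of_le_of_lt ?_ hn⟩
    exact pow_le_pow_of_le_one (by norm_num) (by norm_num) (by omega)
  refine ⟨Nat.find hex, Nat.find_spec hex, ?_⟩
  rcases Nat.eq_zero_or_pos (Nat.find hex) with h | h
  · rw [h, pow_zero]
    exact h1
  · have h2 := Nat.find_min hex (show Nat.find hex - 1 < Nat.find hex by omega)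
    rw [show Nat.find hex - 1 + 1 = Nat.find hex by omega] at h2
    exact not_lt.1 h2

end EN

end HexObs
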