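import Pool.Agent.EN.EmoDefs
import Pool.Agent.EN.FactsX
import Pool.Agent.NTA.XDbl
import Pool.Agent.SDN.DimLaw

/-!
EN (every number of letters): the lower modulus. For every exponent a > 3 / 4 no piece of at least h n letters of the
uniform n-step walk stays within c 2 ^ k ((j - i) / n) ^ a of its start, off a small proportion, c independent of h. From the
tail of the time spent in the boxes at exactly n letters (EXT) and the spatial tail (ESPw).
-/

set_option autoImplicit false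

namespace HexObs

namespace EN

open Finset TS SDN NTW NTA

open scoped ENNReal

/-- the lower modulus of the exponent a, every n -/
def LowModX (m : ℕ → ℝ) (a : ℝ) : Prop := ∀ e : ℝ, 0 < e → ∃ c : ℝ, 0 < c ∧ ∀ h : ℝ, 0 < h → ∃ k0 : ℕ,
  ∀ k n : ℕ, k0 ≤ k → m k ≤ n → n < m (k + 1) →
  gf {t | t ∈ SawN n ∧ ∃ i j : ℕ, i < j ∧ j ≤ n ∧ h * n ≤ (j : ℝ) - i ∧ ∀ (dir : Bool) (x : ℕ), i ≤ x → x ≤ j →
    |((lvl dir (vx oo up t x) - lvl dir (vx oo up t i) : ℤ) : ℝ)| ≤ c * 2 ^ k * (((j : ℝ) - i) / n) ^ a} ≤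
    ENNReal.ofReal e * nuX m k

namespace LowModAux

/-- the mass of the scale k + i against that of the scale k -/
lemma dbl {m : ℕ → ℝ} {c1 C1 : ℝ} (hc1 : 0 < c1) (hlo : ∀ k : ℕ, c1 * (2 : ℝ) ^ (4 / 3 * (k : ℝ)) ≤ m k)
    (hup : ∀ k : ℕ, m k ≤ C1 * (2 : ℝ) ^ (4 / 3 * (k : ℝ))) (i : ℕ) : ∃ D : ℝ, 0 < D ∧ ∀ k,
    ENNReal.ofReal (Ub (k + i) / m (k + i)) * Xb (k + i) ^ 2 ≤ ENNReal.ofReal D * nuX m k := by
  obtain ⟨X, hX, hx⟩ := xDbl
  have hpos : ∀ k : ℕ, (0 : ℝ) < (2 : ℝ) ^ (4 / 3 * (k : ℝ)) := fun k => Real.rpow_pos_of_pos (by norm_num) _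
  have hm : ∀ k, 0 < m k := fun k => lt_of_lt_of_le (mul_pos hc1 (hpos k)) (hlo k)
  have hC1 : 0 < C1 := by
    have h1 := (hm 0).trans_le (hup 0)
    have h2 := hpos 0
    by_contra hcon
    push Not at hcon
    nlinarith
  have hX0 : 0 < X := by linarith
  have hXi : ∀ j k : ℕ, Xb (k + j) ≤ ENNReal.ofReal (X ^ j) * Xb k := by
    intro j k
    induction j with
    | zero => simp
    | succ j ih =>
      refine (hx (k + j)).trans ((mul_le_mul_right ih _).trans (le_of_eq ?_))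
      rw [← mul_assoc, ← ENNReal.ofReal_mul hX0.le, pow_succ']
  refine ⟨2 ^ i * (C1 / c1) * (X ^ i) ^ 2, by positivity, fun k => ?_⟩
  have h1 : Ub (k + i) / m (k + i) ≤ 2 ^ i * (C1 / c1) * (Ub k / m k) := by
    have h2 : Ub (k + i) ≤ 2 ^ i * Ub k := Ub_add k i
    have h3 : m k ≤ C1 / c1 * m (k + i) := by
      calc m k ≤ C1 * (2 : ℝ) ^ (4 / 3 * (k : ℝ)) := hup k
        _ = C1 / c1 * (c1 * (2 : ℝ) ^ (4 / 3 * (k : ℝ))) := by field_simp
        _ ≤ C1 / c1 * (c1 * (2 : ℝ) ^ (4 / 3 * ((k + i : ℕ) : ℝ))) := by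
          have h4 : (2 : ℝ) ^ (4 / 3 * (k : ℝ)) ≤ (2 : ℝ) ^ (4 / 3 * ((k + i : ℕ) : ℝ)) := by
            refine Real.rpow_le_rpow_of_exponent_le (by norm_num) ?_
            push_cast
            have : (0 : ℝ) ≤ i := Nat.cast_nonneg i
            linarith
          gcongr
        _ ≤ _ := by gcongr; exact hlo _
    rw [div_le_iff₀ (hm _)]
    have h5 : 0 < Ub k := Ub_pos k
    calc Ub (k + i) ≤ 2 ^ i * Ub k := h2
      _ = 2 ^ i * (Ub k / m k) * m k := by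
        have := (hm k).ne'
        field_simp
      _ ≤ 2 ^ i * (Ub k / m k) * (C1 / c1 * m (k + i)) := by
        have := hm k
        gcongr
      _ = _ := by ring
  have h2 : Xb (k + i) ^ 2 ≤ ENNReal.ofReal ((X ^ i) ^ 2) * Xb k ^ 2 := by
    refine (pow_le_pow_left' (hXi i k) 2).trans (le_of_eq ?_)
    rw [mul_pow, ENNReal.ofReal_pow (by positivity) 2]
  refine (mul_le_mul' (ENNReal.ofReal_le_ofReal h1) h2).trans (le_of_eq ?_)
  unfold nuX
  rw [ENNReal.ofReal_mul (by positivity), ENNReal.ofReal_mul (p := 2 ^ i * (C1 / c1)) (by positivity)]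
  ring

end LowModAux

open LowModAux

/-- **the lower modulus at exactly n letters** -/
theorem lowModX_of {m : ℕ → ℝ} (hlo : ∃ c : ℝ, 0 < c ∧ ∀ k : ℕ, c * (2 : ℝ) ^ (4 / 3 * (k : ℝ)) ≤ m k)
    (hup : ∃ C : ℝ, ∀ k : ℕ, m k ≤ C * (2 : ℝ) ^ (4 / 3 * (k : ℝ))) (hE : EXT m) (hS : ESPw m) {a : ℝ}
    (ha : 3 / 4 < a) : LowModX m a := by
  obtain ⟨c1, hc1, hlo⟩ := hlo
  obtain ⟨C1, hup⟩ := hup
  have hpos : ∀ k : ℕ, (0 : ℝ) < (2 : ℝ) ^ (4 / 3 * (k : ℝ)) := fun k => Real.rpow_pos_of_pos (by norm_num) _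
  have hm : ∀ k, 0 < m k := fun k => lt_of_lt_of_le (mul_pos hc1 (hpos k)) (hlo k)
  have hcC : c1 ≤ C1 := by
    have h1 := (hlo 0).trans (hup 0)
    exact le_of_mul_le_mul_right h1 (hpos 0)
  have hC1 : 0 < C1 := lt_of_lt_of_le hc1 hcC
  obtain ⟨C, hC, hE⟩ := hE
  have hC0 : 0 < C := by linarith
  obtain ⟨γ, hγ⟩ : ∃ γ : ℝ, γ = Real.logb 2 C := ⟨_, rfl⟩
  have hγ0 : 0 ≤ γ := by
    rw [hγ]
    exact Real.logb_nonneg (by norm_num) hC
  have hCγ : (2 : ℝ) ^ γ = C := by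
    rw [hγ]
    exact Real.rpow_logb (by norm_num) (by norm_num) hC0
  have ha0 : 0 < a := by linarith
  have hd : 0 < 4 / 3 * a - 1 := by linarith
  obtain ⟨B, hB⟩ : ∃ B : ℝ, B = 2 * C1 / c1 := ⟨_, rfl⟩
  have hB2 : 2 ≤ B := by
    rw [hB, le_div_iff₀ hc1]
    linarith
  have hB0 : 0 < B := by linarith
  intro e he
  -- the exponent
  obtain ⟨Q, hQ⟩ : ∃ Q : ℕ, (a * γ + 1) / (4 / 3 * a - 1) + (γ + 1) ≤ Q := exists_nat_ge _
  have hQ1 : a * γ + 1 ≤ Q * (4 / 3 * a - 1) := by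
    rw [← div_le_iff₀ hd]
    linarith
  have hQ2 : γ + 1 ≤ 4 / 3 * (Q : ℝ) := by
    have : 0 ≤ (a * γ + 1) / (4 / 3 * a - 1) := by positivity
    linarith
  obtain ⟨A, hA, hE⟩ := hE Q
  -- the box
  obtain ⟨A0, i1, k1, hA0, hT⟩ := tail_out hS 1
  obtain ⟨i0, hi0⟩ : ∃ i0 : ℕ, A0 / (e / 2) < 2 ^ i0 := pow_unbounded_of_one_lt _ one_lt_two
  obtain ⟨I, hI⟩ : ∃ I : ℕ, I = max i0 i1 := ⟨_, rfl⟩
  have hI1 : i1 ≤ I := by rw [hI]; exact le_max_right _ _
  have hT2 : A0 / 2 ^ (1 * I) ≤ e / 2 := by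
    rw [div_le_iff₀ (by positivity)]
    rw [div_lt_iff₀ (by positivity)] at hi0
    have h1 : (2 : ℝ) ^ i0 ≤ 2 ^ (1 * I) := pow_le_pow_right₀ (by norm_num) (by rw [one_mul, hI]; exact le_max_left _ _)
    nlinarith
  obtain ⟨D, hD, hD2⟩ := dbl hc1 hlo hup I
  -- the constant
  obtain ⟨W, hW⟩ : ∃ W : ℝ, W = A * B ^ Q * C ^ I * 2 ^ γ * D := ⟨_, rfl⟩
  have hW0 : 0 < W := by rw [hW]; positivity
  obtain ⟨c, hc⟩ : ∃ c : ℝ, c = min (1 / B) (e / (4 * W)) := ⟨_, rfl⟩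
  have hc0 : 0 < c := by rw [hc]; exact lt_min (by positivity) (by positivity)
  have hcB : c ≤ 1 / B := by rw [hc]; exact min_le_left _ _
  have hcW : c ≤ e / (4 * W) := by rw [hc]; exact min_le_right _ _
  have hc1' : c ≤ 1 := hcB.trans (by rw [div_le_iff₀ hB0]; linarith)
  refine ⟨c, hc0, fun h hh => ?_⟩
  obtain ⟨k2, hk2⟩ : ∃ k2 : ℕ, 1 / (c * h ^ a) < 2 ^ k2 := pow_unbounded_of_one_lt _ one_lt_two
  refine ⟨max k1 k2, fun k n hk hn1 hn2 => ?_⟩
  have hkk1 : k1 ≤ k := (le_max_left _ _).trans hk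
  have hkk2 : k2 ≤ k := (le_max_right _ _).trans hk
  have hn0 : (0 : ℝ) < n := (hm k).trans_le hn1
  -- the scales
  obtain ⟨X, hX⟩ : ∃ X : ℕ → ℝ, ∀ p, X p = c * 2 ^ k * 2 ^ (-(a * (p : ℝ))) := ⟨_, fun _ => rfl⟩
  have hX0 : ∀ p, 0 < X p := fun p => by rw [hX]; positivity
  obtain ⟨l, hl⟩ : ∃ l : ℕ → ℕ, ∀ p, 1 ≤ X p → (2 : ℝ) ^ l p ≤ X p ∧ X p < 2 ^ (l p + 1) := by
    have h1 : ∀ p, ∃ q : ℕ, 1 ≤ X p → (2 : ℝ) ^ q ≤ X p ∧ X p < 2 ^ (q + 1) := by
      intro p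
      by_cases h2 : 1 ≤ X p
      · obtain ⟨q, hq⟩ := exists_nat_pow_near h2 one_lt_two
        exact ⟨q, fun _ => hq⟩
      · exact ⟨0, fun h3 => absurd h3 h2⟩
    choose l hl using h1
    exact ⟨l, hl⟩
  obtain ⟨lam, hlam⟩ : ∃ lam : ℕ → ℝ, ∀ p, lam p = 2 ^ ((4 / 3 * a - 1) * (p : ℝ)) / (B * c ^ (4 / 3 : ℝ)) :=
    ⟨_, fun _ => rfl⟩
  have hlam1 : ∀ p, 1 ≤ lam p := by
    intro p
    rw [hlam, le_div_iff₀ (by positivity), one_mul]
    have h1 : c ^ (4 / 3 : ℝ) ≤ c := by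
      calc c ^ (4 / 3 : ℝ) ≤ c ^ (1 : ℝ) := Real.rpow_le_rpow_of_exponent_ge hc0 hc1' (by norm_num)
        _ = c := Real.rpow_one c
    have h2 : B * c ^ (4 / 3 : ℝ) ≤ 1 := by
      calc B * c ^ (4 / 3 : ℝ) ≤ B * (1 / B) := by gcongr; exact h1.trans hcB
        _ = 1 := by field_simp
    have h3 : (1 : ℝ) ≤ 2 ^ ((4 / 3 * a - 1) * (p : ℝ)) := by
      calc (1 : ℝ) = (2 : ℝ) ^ (0 : ℝ) := (Real.rpow_zero _).symm
        _ ≤ _ := Real.rpow_le_rpow_of_exponent_le (by norm_num) (by positivity)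
    linarith
  -- the events
  have hsub : {t | t ∈ SawN n ∧ ∃ i j : ℕ, i < j ∧ j ≤ n ∧ h * n ≤ (j : ℝ) - i ∧ ∀ (dir : Bool) (x : ℕ), i ≤ x → x ≤ j →
      |((lvl dir (vx oo up t x) - lvl dir (vx oo up t i) : ℤ) : ℝ)| ≤ c * 2 ^ k * (((j : ℝ) - i) / n) ^ a} ⊆
      {t | t ∈ SA ∧ t.length = n ∧ t ∉ WL (k + I)} ∪ ⋃ p : ℕ, {t | 1 ≤ X p ∧ t.length = n ∧ t ∈ WL (k + I) ∧
        ∃ x z, Bx (l p + 2) t x z ∧ lam p * m (l p) ≤ (z : ℝ) - x} := by
    rintro t ⟨⟨htn, hts⟩, i, j, hij, hjn, hhn, hev⟩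
    by_cases hW : t ∈ WL (k + I)
    · right
      obtain ⟨y, hy⟩ : ∃ y : ℝ, y = ((j : ℝ) - i) / n := ⟨_, rfl⟩
      have hij' : (0 : ℝ) < (j : ℝ) - i := by
        have : (i : ℝ) < j := by exact_mod_cast hij
        linarith
      have hy0 : 0 < y := by rw [hy]; positivity
      have hy1 : y ≤ 1 := by
        rw [hy, div_le_one hn0]
        have h1 : (j : ℝ) ≤ n := by exact_mod_cast hjn
        have h2 : (0 : ℝ) ≤ i := Nat.cast_nonneg i
        linarith
      have hyh : h ≤ y := by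
        rw [hy, le_div_iff₀ hn0]
        exact hhn
      obtain ⟨p, hp1, hp2⟩ := exists_nat_pow_near_of_lt_one hy0 hy1 (show (0 : ℝ) < 1 / 2 by norm_num)
        (show (1 / 2 : ℝ) < 1 by norm_num)
      have hpa : ((1 / 2 : ℝ) ^ p) ^ a = 2 ^ (-(a * (p : ℝ))) := by
        rw [one_div, inv_pow, Real.inv_rpow (by positivity), ← Real.rpow_natCast, ← Real.rpow_mul (by norm_num),
          Real.rpow_neg (by norm_num)]
        congr 2
        ring
      have hya : y ^ a ≤ 2 ^ (-(a * (p : ℝ))) := by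
        rw [← hpa]
        exact Real.rpow_le_rpow hy0.le hp2 ha0.le
      have hX1 : 1 ≤ X p := by
        rw [hX, ← hpa]
        have h1 : h ^ a ≤ ((1 / 2 : ℝ) ^ p) ^ a := Real.rpow_le_rpow hh.le (hyh.trans hp2) ha0.le
        rw [div_lt_iff₀ (by positivity)] at hk2
        have h2 : (2 : ℝ) ^ k2 ≤ 2 ^ k := pow_le_pow_right₀ (by norm_num) hkk2
        calc (1 : ℝ) ≤ 2 ^ k2 * (c * h ^ a) := hk2.le
          _ ≤ 2 ^ k * (c * ((1 / 2 : ℝ) ^ p) ^ a) := by gcongr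
          _ = _ := by ring
      obtain ⟨hl1, hl2⟩ := hl p hX1
      rw [Set.mem_iUnion]
      refine ⟨p, hX1, htn, hW, i, j, ⟨hij.le, by rw [htn]; exact hjn, ?_⟩, ?_⟩
      · intro dir x x' hx hxj hx' hx'j
        have h1 := hev dir x hx hxj
        have h2 := hev dir x' hx' hx'j
        rw [← hy] at h1 h2
        have h3 : c * 2 ^ k * y ^ a ≤ X p := by
          rw [hX]
          gcongr
        have h4 := abs_le.1 (h1.trans h3)
        have h5 := abs_le.1 (h2.trans h3)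
        push_cast at h4 h5
        have h6 : ((lvl dir (vx oo up t x) - lvl dir (vx oo up t x') : ℤ) : ℝ) ≤ ((3 * 2 ^ (l p + 2) : ℤ) : ℝ) := by
          push_cast
          have h7 : (2 : ℝ) ^ (l p + 2) = 4 * 2 ^ l p := by ring
          have h8 : (2 : ℝ) ^ (l p + 1) = 2 * 2 ^ l p := by ring
          have h9 : (0 : ℝ) < 2 ^ l p := by positivity
          rw [h7]
          rw [h8] at hl2
          linarith [h4.2, h5.1]
        exact_mod_cast h6
      · have h1 : m (l p) ≤ C1 * (X p) ^ (4 / 3 : ℝ) := by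
          refine (hup (l p)).trans (mul_le_mul_of_nonneg_left ?_ hC1.le)
          have h2 : (2 : ℝ) ^ (4 / 3 * (l p : ℝ)) = ((2 : ℝ) ^ l p) ^ (4 / 3 : ℝ) := by
            rw [← Real.rpow_natCast, ← Real.rpow_mul (by norm_num)]
            congr 1
            ring
          rw [h2]
          exact Real.rpow_le_rpow (by positivity) hl1 (by norm_num)
        have h2 : (X p) ^ (4 / 3 : ℝ) = c ^ (4 / 3 : ℝ) * 2 ^ (4 / 3 * (k : ℝ)) * 2 ^ (-(4 / 3 * a * (p : ℝ))) := by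
          rw [hX, Real.mul_rpow (by positivity) (by positivity), Real.mul_rpow (by positivity) (by positivity),
            ← Real.rpow_natCast, ← Real.rpow_mul (by norm_num), ← Real.rpow_mul (by norm_num)]
          congr 2
          · congr 1
            ring
          · ring
        have h3 : lam p * m (l p) ≤ c1 * (2 : ℝ) ^ (4 / 3 * (k : ℝ)) * (1 / 2) ^ (p + 1) := by
          calc lam p * m (l p) ≤ lam p * (C1 * (X p) ^ (4 / 3 : ℝ)) :=
                mul_le_mul_of_nonneg_left h1 (by linarith [hlam1 p])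
            _ = c1 * (2 : ℝ) ^ (4 / 3 * (k : ℝ)) * (1 / 2) *
                (2 ^ ((4 / 3 * a - 1) * (p : ℝ)) * 2 ^ (-(4 / 3 * a * (p : ℝ)))) := by
              rw [h2, hlam, hB]
              have h5 : (0 : ℝ) < c ^ (4 / 3 : ℝ) := by positivity
              field_simp
            _ = _ := by
              rw [← Real.rpow_add (by norm_num)]
              have h6 : (2 : ℝ) ^ ((4 / 3 * a - 1) * (p : ℝ) + -(4 / 3 * a * (p : ℝ))) = (1 / 2) ^ p := by
                rw [show (4 / 3 * a - 1) * (p : ℝ) + -(4 / 3 * a * (p : ℝ)) = -(p : ℝ) by ring,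
                  Real.rpow_neg (by norm_num), Real.rpow_natCast, one_div, inv_pow]
              rw [h6, pow_succ]
              ring
        have h4 : c1 * (2 : ℝ) ^ (4 / 3 * (k : ℝ)) * (1 / 2) ^ (p + 1) ≤ n * (1 / 2) ^ (p + 1) := by
          gcongr
          exact (hlo k).trans hn1
        have h5 : (n : ℝ) * (1 / 2) ^ (p + 1) ≤ (j : ℝ) - i := by
          have h6 : (n : ℝ) * y = (j : ℝ) - i := by
            rw [hy]
            field_simp
          rw [← h6]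
          gcongr
        exact h3.trans (h4.trans h5)
    · left
      exact ⟨hts, htn, hW⟩
  -- the bound of one event
  have hone : ∀ p : ℕ, gf {t | 1 ≤ X p ∧ t.length = n ∧ t ∈ WL (k + I) ∧
      ∃ x z, Bx (l p + 2) t x z ∧ lam p * m (l p) ≤ (z : ℝ) - x} ≤
      ENNReal.ofReal (W * c * (1 / 2) ^ p) * nuX m k := by
    intro p
    by_cases hX1 : 1 ≤ X p
    · obtain ⟨hl1, hl2⟩ := hl p hX1
      have hXk : X p ≤ 2 ^ k := by
        rw [hX]
        have h1 : (2 : ℝ) ^ (-(a * (p : ℝ))) ≤ 1 :=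
          Real.rpow_le_one_of_one_le_of_nonpos (by norm_num) (by
            have : 0 ≤ a * (p : ℝ) := by positivity
            linarith)
        calc c * 2 ^ k * 2 ^ (-(a * (p : ℝ))) ≤ 1 * 2 ^ k * 1 := by gcongr
          _ = 2 ^ k := by ring
      have hlk : l p ≤ k := by
        have h1 : (2 : ℝ) ^ l p ≤ 2 ^ k := hl1.trans hXk
        exact (pow_le_pow_iff_right₀ (by norm_num)).1 h1
      have hsub2 : {t | 1 ≤ X p ∧ t.length = n ∧ t ∈ WL (k + I) ∧
          ∃ x z, Bx (l p + 2) t x z ∧ lam p * m (l p) ≤ (z : ℝ) - x} ⊆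
          {t | t.length = n ∧ t ∈ WL (k + I) ∧ ∃ x z, Bx (l p + 2) t x z ∧ lam p * m (l p) ≤ (z : ℝ) - x} :=
        fun t ht => ht.2
      refine (gf_mono hsub2).trans ((hE n (k + I) (l p) (lam p) (by omega) (hlam1 p)).trans ?_)
      refine (mul_le_mul_right (hD2 k) _).trans ?_
      have hlp : 0 < lam p := by linarith [hlam1 p]
      have hA' : 0 < A := by linarith
      rw [← mul_assoc, ← ENNReal.ofReal_mul (by positivity)]
      refine mul_le_mul_left (ENNReal.ofReal_le_ofReal ?_) _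
      -- the numbers
      have h1 : C ^ (k + I - l p) = C ^ I * C ^ (k - l p) := by
        rw [← pow_add]
        congr 1
        omega
      have h2 : C ^ (k - l p) ≤ 2 ^ γ * (2 ^ (a * γ * (p : ℝ)) * c ^ (-γ)) := by
        have h3 : C ^ (k - l p) = ((2 : ℝ) ^ (k - l p)) ^ γ := by
          rw [← hCγ, ← Real.rpow_natCast, ← Real.rpow_natCast, ← Real.rpow_mul (by norm_num),
            ← Real.rpow_mul (by norm_num)]
          congr 1
          ring
        have h4 : (2 : ℝ) ^ (k - l p) ≤ 2 * (2 ^ (a * (p : ℝ)) * c⁻¹) := by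
          have h5 : (2 : ℝ) ^ k = 2 ^ (k - l p) * 2 ^ l p := by
            rw [← pow_add]
            congr 1
            omega
          have h6 : c * 2 ^ k * 2 ^ (-(a * (p : ℝ))) < 2 * 2 ^ l p := by
            rw [← hX]
            calc X p < 2 ^ (l p + 1) := hl2
              _ = _ := by ring
          rw [h5, Real.rpow_neg (by norm_num)] at h6
          have h7 : (0 : ℝ) < 2 ^ (a * (p : ℝ)) := by positivity
          have h8 : (0 : ℝ) < 2 ^ l p := by positivity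
          have h9 : (2 : ℝ) ^ (k - l p) * (c * (2 ^ (a * (p : ℝ)))⁻¹) < 2 := by
            have h10 : (2 : ℝ) ^ (k - l p) * (c * (2 ^ (a * (p : ℝ)))⁻¹) * 2 ^ l p < 2 * 2 ^ l p := by
              calc _ = c * (2 ^ (k - l p) * 2 ^ l p) * (2 ^ (a * (p : ℝ)))⁻¹ := by ring
                _ < _ := h6
            exact lt_of_mul_lt_mul_right h10 h8.le
          calc (2 : ℝ) ^ (k - l p) = 2 ^ (k - l p) * (c * (2 ^ (a * (p : ℝ)))⁻¹) * (2 ^ (a * (p : ℝ)) * c⁻¹) := by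
                field_simp
            _ ≤ 2 * (2 ^ (a * (p : ℝ)) * c⁻¹) := by gcongr
        rw [h3]
        calc ((2 : ℝ) ^ (k - l p)) ^ γ ≤ (2 * (2 ^ (a * (p : ℝ)) * c⁻¹)) ^ γ :=
              Real.rpow_le_rpow (by positivity) h4 hγ0
          _ = _ := by
            rw [Real.mul_rpow (by norm_num) (by positivity), Real.mul_rpow (by positivity) (by positivity),
              ← Real.rpow_mul (by norm_num), Real.inv_rpow hc0.le, ← Real.rpow_neg hc0.le]
            congr 3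
            ring
      have h3 : A / lam p ^ Q = A * B ^ Q * c ^ (4 / 3 * (Q : ℝ)) * 2 ^ (-(Q * (4 / 3 * a - 1) * (p : ℝ))) := by
        rw [hlam, div_pow, mul_pow, ← Real.rpow_natCast (c ^ (4 / 3 : ℝ)), ← Real.rpow_mul hc0.le,
          ← Real.rpow_natCast ((2 : ℝ) ^ ((4 / 3 * a - 1) * (p : ℝ))), ← Real.rpow_mul (by norm_num),
          Real.rpow_neg (by norm_num)]
        rw [show Q * (4 / 3 * a - 1) * (p : ℝ) = (4 / 3 * a - 1) * (p : ℝ) * Q by ring]
        field_simp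
      have h4 : c ^ (4 / 3 * (Q : ℝ)) * c ^ (-γ) ≤ c := by
        rw [← Real.rpow_add hc0]
        calc c ^ (4 / 3 * (Q : ℝ) + -γ) ≤ c ^ (1 : ℝ) := Real.rpow_le_rpow_of_exponent_ge hc0 hc1' (by linarith)
          _ = c := Real.rpow_one c
      have h5 : (2 : ℝ) ^ (-(Q * (4 / 3 * a - 1) * (p : ℝ))) * 2 ^ (a * γ * (p : ℝ)) ≤ (1 / 2) ^ p := by
        rw [← Real.rpow_add (by norm_num)]
        have h6 : (1 / 2 : ℝ) ^ p = 2 ^ (-(p : ℝ)) := by
          rw [Real.rpow_neg (by norm_num), Real.rpow_natCast, one_div, inv_pow]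
        rw [h6]
        refine Real.rpow_le_rpow_of_exponent_le (by norm_num) ?_
        have h7 : (0 : ℝ) ≤ p := Nat.cast_nonneg p
        nlinarith
      calc A / lam p ^ Q * C ^ (k + I - l p) * D
          ≤ A * B ^ Q * c ^ (4 / 3 * (Q : ℝ)) * 2 ^ (-(Q * (4 / 3 * a - 1) * (p : ℝ))) *
            (C ^ I * (2 ^ γ * (2 ^ (a * γ * (p : ℝ)) * c ^ (-γ)))) * D := by
            rw [h3, h1]
            gcongr
        _ = A * B ^ Q * C ^ I * 2 ^ γ * D * (c ^ (4 / 3 * (Q : ℝ)) * c ^ (-γ)) *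
            (2 ^ (-(Q * (4 / 3 * a - 1) * (p : ℝ))) * 2 ^ (a * γ * (p : ℝ))) := by ring
        _ ≤ W * c * (1 / 2) ^ p := by
            rw [← hW]
            gcongr
    · have : {t | 1 ≤ X p ∧ t.length = n ∧ t ∈ WL (k + I) ∧
          ∃ x z, Bx (l p + 2) t x z ∧ lam p * m (l p) ≤ (z : ℝ) - x} = ∅ := by
        exact Set.eq_empty_of_forall_notMem fun t ht => hX1 ht.1
      rw [this]
      simp [gf]
  -- the sum
  have hsum : gf (⋃ p : ℕ, {t | 1 ≤ X p ∧ t.length = n ∧ t ∈ WL (k + I) ∧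
      ∃ x z, Bx (l p + 2) t x z ∧ lam p * m (l p) ≤ (z : ℝ) - x}) ≤ ENNReal.ofReal (e / 2) * nuX m k := by
    refine (Crw.gf_iUnion_le _).trans ((ENNReal.tsum_le_tsum hone).trans ?_)
    rw [ENNReal.tsum_mul_right]
    refine mul_le_mul_left ?_ _
    rw [← ENNReal.ofReal_tsum_of_nonneg (fun j => by positivity)
      ((summable_geometric_of_lt_one (by norm_num) (by norm_num)).mul_left _)]
    refine ENNReal.ofReal_le_ofReal ?_
    rw [tsum_mul_left, tsum_geometric_two]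
    rw [le_div_iff₀ (by positivity)] at hcW
    nlinarith
  refine (gf_mono hsub).trans ((gf_union_le _ _).trans ?_)
  have hfin : ENNReal.ofReal e * nuX m k = ENNReal.ofReal (e / 2) * nuX m k + ENNReal.ofReal (e / 2) * nuX m k := by
    rw [← add_mul, ← ENNReal.ofReal_add (by positivity) (by positivity)]
    congr 2
    ring
  rw [hfin]
  refine add_le_add ?_ hsum
  exact (hT k I n hkk1 hI1 hn1 hn2).trans (mul_le_mul_left (ENNReal.ofReal_le_ofReal hT2) _)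

end EN

end HexObs
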