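import Pool.Agent.EN.Third
import Pool.Agent.EN.SpTail
import Pool.Agent.EN.Marks

/-!
EN: the spatial tail at exact n, the words with few leaves in two directions.
-/

set_option autoImplicit false

namespace HexObs

namespace EN

open Finset TS SDN NTW NTA

open scoped ENNReal

/-- the runs of J leaves of a height at most N -/
def RJ (kc N J : ℕ) : Set (List (List Bool)) := {gs | gs.length = J ∧ ∀ g ∈ gs, g ∈ BrR (2 ^ (kc + 4)) N}

/-- the tail of the infixes at exact n -/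
def ExtX (m : ℕ → ℝ) : Prop := ∃ C : ℝ, 1 ≤ C ∧ ∀ Q : ℕ, ∃ A : ℝ, 1 ≤ A ∧ ∀ (n K l : ℕ) (lam : ℝ), l ≤ K → 1 ≤ lam →
  gf {t | (t ∈ WL K ∧ t.length = n) ∧ ∃ x z : ℕ, Bx (l + 2) t x z ∧ lam * m l ≤ (z : ℝ) - x} ≤
    ENNReal.ofReal (A / lam ^ Q * C ^ (K - l)) * (ENNReal.ofReal (Ub K / m K) * Xb K ^ 2)

/-- a run of more leaves has a run of J leaves -/
lemma hasRun_take {dir : Bool} {kc N J : ℕ} {R : Set (List (List Bool))} {t : List Bool} (h : HasRun dir kc R t)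
    (hJ : 1 ≤ J) (hR : ∀ gs ∈ R, J ≤ gs.length ∧ ∀ g ∈ gs, g ∈ BrR (2 ^ (kc + 4)) N) : HasRun dir kc (RJ kc N J) t := by
  obtain ⟨m, u, e, hF, l, d, h1, h2, h3, h4⟩ := h
  obtain ⟨h5, h6⟩ := hR _ h4
  rw [PE.lws_length] at h5
  refine ⟨m, u, e, hF, l, J, h1, hJ, by omega, PE.lws_length _ _ _ _, fun g hg => h6 g ?_⟩
  unfold lws at hg ⊢
  obtain ⟨i, hi, rfl⟩ := List.mem_map.1 hg
  rw [List.mem_range] at hi
  exact List.mem_map.2 ⟨i, List.mem_range.2 (by omega), rfl⟩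

/-- few leaves in two directions: an infix in a small box with many letters -/
lemma few_infix {p q : Fin 3} (hpq : p ≠ q) {kc μ J K : ℕ} {S1 : ℝ} {t : List Bool} (ht : t ∈ WL K) (hK : K = kc + 2 + μ)
    (hJ : 1 ≤ J) (hS1 : 0 ≤ S1) (hf : ∀ d, d = p ∨ d = q → ¬ HR d kc (RJ kc (2 ^ (kc + 5 + μ)) J) t)
    (hlen : 2 * ((J : ℝ) + 11) + ((J : ℝ) + 6) ^ 2 * (2 ^ (μ + 5) * (S1 + 1)) < t.length) :
    ∃ x z : ℕ, Bx (kc + 7) t x z ∧ S1 ≤ (z : ℝ) - x := by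
  classical
  by_contra hc
  push Not at hc
  obtain ⟨Cc, hCc, hstep⟩ := step_pair
  have hb : Bx (kc + 4 + μ) t 0 t.length := by
    have := bx_all ht
    rwa [hK, show kc + 2 + μ + 2 = kc + 4 + μ by ring] at this
  have h1 := hstep p q hpq kc 0 μ (Cc * 2 ^ 0 * 4 ^ μ) (J + 6) J 0 t.length 0 S1 t ht.1 (Nat.zero_le _) (by omega) le_rfl
    le_rfl hS1 ?_ ?_ (fun x' y' hx => (hc x' y' hx).le) hb
  · push_cast at h1
    have h2 : 2 * ((J : ℝ) + 6 + 5) * (0 + 1) = 2 * ((J : ℝ) + 11) := by ring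
    rw [h2] at h1
    linarith
  · intro d hd hr
    refine hf d hd (hasRun_take hr hJ ?_)
    rintro gs ⟨h1, -, h2, -⟩
    exact ⟨by omega, h2⟩
  · intro d hd hr
    refine hf d hd (hasRun_take hr hJ ?_)
    rintro gs ⟨-, h2, h3⟩
    refine ⟨?_, fun g hg => ?_⟩
    · have h4 : (gs.tail.filter (fun g => decide (g ∈ LongL kc (μ + 3) 0))).length ≤ gs.tail.length :=
        List.length_filter_le _ _
      have h5 : gs.tail.length ≤ gs.length := by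
        rw [List.length_tail]
        omega
      omega
    · have h4 := h2 g hg
      rwa [show kc + (μ + 3) + 2 = kc + 5 + μ by ring] at h4

/-- a power of two above a number -/
lemma two_pow_ge (x : ℝ) : ∃ q : ℕ, x < 2 ^ q := pow_unbounded_of_one_lt x one_lt_two

/-- **the words with few leaves in two directions** -/
theorem esp_few {m : ℕ → ℝ} (hm : MLow m) (hX : ExtX m) {J : ℕ} (hJ : 1 ≤ J) : ∃ J2 : ℕ, 6 ≤ J2 ∧ ∀ Q : ℕ,
    ∃ A : ℝ, 1 ≤ A ∧ ∀ (p q : Fin 3), p ≠ q → ∀ k i n : ℕ, 8 * i + J2 ≤ k → m k ≤ n →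
    gf {t | t.length = n ∧ t ∈ WL (k + i) ∧ ∀ d, d = p ∨ d = q →
      ¬ HR d (k - (8 * i + J2)) (RJ (k - (8 * i + J2)) (2 ^ (k + i + 3)) J) t} ≤
      ENNReal.ofReal (A * (1 / 2) ^ (Q * i) * (Ub k / m k)) * Xb k ^ 2 := by
  obtain ⟨C, hC, hQ⟩ := hX
  obtain ⟨D, hD, hDX⟩ := Xb_pow
  have hm0 := hm.pos 0
  obtain ⟨c, hc⟩ : ∃ c : ℝ, c = 2 * ((J : ℝ) + 11) / m 0 + ((J : ℝ) + 6) ^ 2 * (1 + 1 / m 0) := ⟨_, rfl⟩
  have hc0 : 0 < c := by
    rw [hc]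
    positivity
  obtain ⟨j, hj⟩ := two_pow_ge (c * 2 ^ 8)
  obtain ⟨j1, hj1⟩ : ∃ j1, j1 = j + 1 := ⟨_, rfl⟩
  have hjc : c * 2 ^ 8 < 2 ^ j1 := hj.trans_le (pow_le_pow_right₀ (by norm_num) (by omega))
  obtain ⟨q1, hq1⟩ := two_pow_ge (2 * C ^ 9 * D ^ 2)
  have hC0 : 0 < C := by linarith
  have hD0 : 0 < D := by linarith
  refine ⟨4 * j1 + 5, by omega, fun Q => ?_⟩
  obtain ⟨A, hA, hext⟩ := hQ (Q + q1)
  refine ⟨A * C ^ (4 * j1), one_le_mul_of_one_le_of_one_le hA (one_le_pow₀ hC), fun p q hpq k i n hk hn => ?_⟩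
  obtain ⟨s, hs⟩ : ∃ s, s = k - (8 * i + (4 * j1 + 5)) := ⟨_, rfl⟩
  obtain ⟨l, hl⟩ : ∃ l, l = s + 5 := ⟨_, rfl⟩
  obtain ⟨μ, hμ⟩ : ∃ μ, μ = 9 * i + (4 * j1 + 5) - 2 := ⟨_, rfl⟩
  rw [← hs]
  have hml := hm.pos l
  have hmk := hm.pos k
  have hA0 : 0 < A := by linarith
  have hU := Ub_pos k
  have hU2 := Ub_pos (k + i)
  have h2i : (1 : ℝ) ≤ 2 ^ i := one_le_pow₀ (by norm_num)
  -- the number of letters
  have hnum : 2 * ((J : ℝ) + 11) + ((J : ℝ) + 6) ^ 2 * (2 ^ (μ + 5) * (2 ^ i * m l + 1)) < n := by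
    refine lt_of_lt_of_le ?_ hn
    have h0 : 1 ≤ m l / m 0 := by
      rw [le_div_iff₀ hm0, one_mul]
      exact hm.mono (Nat.zero_le _)
    have h1 := hm.low l (4 * (2 * i + j1))
    rw [show l + 4 * (2 * i + j1) = k by omega] at h1
    have h2 : (2 : ℝ) ^ (5 / 4 * ((4 * (2 * i + j1) : ℕ) : ℝ)) = 2 ^ (10 * i + 5 * j1) := by
      rw [← Real.rpow_natCast]
      congr 1
      push_cast
      ring
    rw [h2] at h1
    have h3 : (1 : ℝ) ≤ 2 ^ (μ + 5) := one_le_pow₀ (by norm_num)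
    have h4 : (1 : ℝ) ≤ 2 ^ (μ + 5) * 2 ^ i := one_le_mul_of_one_le_of_one_le h3 h2i
    have h5 : 2 * ((J : ℝ) + 11) + ((J : ℝ) + 6) ^ 2 * (2 ^ (μ + 5) * (2 ^ i * m l + 1)) ≤
        c * (2 ^ (μ + 5) * 2 ^ i) * m l := by
      have e1 : 2 * ((J : ℝ) + 11) ≤ 2 * ((J : ℝ) + 11) / m 0 * (2 ^ (μ + 5) * 2 ^ i) * m l := by
        calc 2 * ((J : ℝ) + 11) = 2 * ((J : ℝ) + 11) * 1 * 1 := by ring
          _ ≤ 2 * ((J : ℝ) + 11) * (2 ^ (μ + 5) * 2 ^ i) * (m l / m 0) := by gcongr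
          _ = _ := by ring
      have e2 : ((J : ℝ) + 6) ^ 2 * (2 ^ (μ + 5) * (2 ^ i * m l + 1)) ≤
          ((J : ℝ) + 6) ^ 2 * (1 + 1 / m 0) * (2 ^ (μ + 5) * 2 ^ i) * m l := by
        have e3 : 2 ^ i * m l + 1 ≤ (1 + 1 / m 0) * 2 ^ i * m l := by
          have e4 : (1 : ℝ) ≤ 2 ^ i * (m l / m 0) := one_le_mul_of_one_le_of_one_le h2i h0
          calc 2 ^ i * m l + 1 ≤ 2 ^ i * m l + 2 ^ i * (m l / m 0) := by linarith
            _ = _ := by ring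
        calc ((J : ℝ) + 6) ^ 2 * (2 ^ (μ + 5) * (2 ^ i * m l + 1)) ≤
              ((J : ℝ) + 6) ^ 2 * (2 ^ (μ + 5) * ((1 + 1 / m 0) * 2 ^ i * m l)) := by gcongr
          _ = _ := by ring
      rw [hc]
      calc _ ≤ 2 * ((J : ℝ) + 11) / m 0 * (2 ^ (μ + 5) * 2 ^ i) * m l +
            ((J : ℝ) + 6) ^ 2 * (1 + 1 / m 0) * (2 ^ (μ + 5) * 2 ^ i) * m l := add_le_add e1 e2
        _ = _ := by ring
    have h6 : c * (2 ^ (μ + 5) * 2 ^ i) < 2 ^ (10 * i + 5 * j1) := by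
      have e1 : (2 : ℝ) ^ (μ + 5) * 2 ^ i = 2 ^ 8 * 2 ^ (10 * i + 4 * j1) := by
        rw [← pow_add, ← pow_add]
        congr 1
        omega
      rw [e1, ← mul_assoc, show 10 * i + 5 * j1 = j1 + (10 * i + 4 * j1) by ring, pow_add 2 j1]
      exact mul_lt_mul_of_pos_right hjc (by positivity)
    calc _ ≤ c * (2 ^ (μ + 5) * 2 ^ i) * m l := h5
      _ < 2 ^ (10 * i + 5 * j1) * m l := mul_lt_mul_of_pos_right h6 hml
      _ ≤ m k := h1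
  -- the infix
  have hsub : {t | t.length = n ∧ t ∈ WL (k + i) ∧ ∀ d, d = p ∨ d = q → ¬ HR d s (RJ s (2 ^ (k + i + 3)) J) t} ⊆
      {t | (t ∈ WL (k + i) ∧ t.length = n) ∧ ∃ x z : ℕ, Bx (l + 2) t x z ∧ (2 : ℝ) ^ i * m l ≤ (z : ℝ) - x} := by
    rintro t ⟨h1, h2, h3⟩
    refine ⟨⟨h2, h1⟩, ?_⟩
    have h4 := few_infix hpq (kc := s) (μ := μ) (S1 := 2 ^ i * m l) h2 (by omega) hJ (by positivity) (by
      rw [show s + 5 + μ = k + i + 3 by omega]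
      exact h3) (by
      rw [h1]
      exact hnum)
    rwa [show s + 7 = l + 2 by omega] at h4
  refine (gf_mono hsub).trans ((hext n (k + i) l (2 ^ i) (by omega) h2i).trans ?_)
  -- the numbers
  have hUK : Ub (k + i) ≤ 2 ^ i * Ub k := UU_ratio_up k i
  have hmK : m k ≤ m (k + i) := hm.mono (Nat.le_add_right _ _)
  have hmK0 := hm.pos (k + i)
  have e1 : Ub (k + i) / m (k + i) ≤ 2 ^ i * (Ub k / m k) := by
    rw [← mul_div_assoc]
    exact div_le_div₀ (by positivity) hUK hmk hmK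
  calc ENNReal.ofReal (A / (2 ^ i) ^ (Q + q1) * C ^ (k + i - l)) * (ENNReal.ofReal (Ub (k + i) / m (k + i)) * Xb (k + i) ^ 2)
      ≤ ENNReal.ofReal (A / (2 ^ i) ^ (Q + q1) * C ^ (k + i - l)) * (ENNReal.ofReal (2 ^ i * (Ub k / m k)) *
          (ENNReal.ofReal (D ^ i) * Xb k) ^ 2) := by
        refine mul_le_mul_right (mul_le_mul' (ENNReal.ofReal_le_ofReal e1) (pow_le_pow_left' (hDX k i) 2)) _
    _ = ENNReal.ofReal (A / (2 ^ i) ^ (Q + q1) * C ^ (k + i - l) * (2 ^ i * (Ub k / m k)) * (D ^ i) ^ 2) * Xb k ^ 2 := by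
        rw [mul_pow, ← ENNReal.ofReal_pow (by positivity), ← mul_assoc, ← mul_assoc, ← ENNReal.ofReal_mul (by positivity),
          ← ENNReal.ofReal_mul (by positivity)]
    _ ≤ _ := by
        refine mul_le_mul_left (ENNReal.ofReal_le_ofReal ?_) _
        rw [show k + i - l = 9 * i + 4 * j1 by omega]
        have e2 : (2 * C ^ 9 * D ^ 2) ^ i ≤ (2 ^ q1) ^ i := pow_le_pow_left₀ (by positivity) hq1.le i
        have e3 : A / (2 ^ i) ^ (Q + q1) * C ^ (9 * i + 4 * j1) * (2 ^ i * (Ub k / m k)) * (D ^ i) ^ 2 =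
            A * C ^ (4 * j1) * (Ub k / m k) * (2 * C ^ 9 * D ^ 2) ^ i / (2 ^ i) ^ (Q + q1) := by
          rw [mul_pow, mul_pow, pow_add C]
          ring
        rw [e3, div_le_iff₀ (by positivity)]
        have e4 : ((2 : ℝ) ^ i) ^ (Q + q1) = 2 ^ (Q * i) * (2 ^ q1) ^ i := by
          rw [← pow_mul, ← pow_mul, ← pow_add]
          congr 1
          ring
        have e5 : ((1 : ℝ) / 2) ^ (Q * i) * 2 ^ (Q * i) = 1 := by
          rw [← mul_pow]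
          norm_num
        rw [e4]
        calc A * C ^ (4 * j1) * (Ub k / m k) * (2 * C ^ 9 * D ^ 2) ^ i ≤
              A * C ^ (4 * j1) * (Ub k / m k) * (2 ^ q1) ^ i := by gcongr
          _ = A * C ^ (4 * j1) * (Ub k / m k) * (((1 : ℝ) / 2) ^ (Q * i) * 2 ^ (Q * i)) * (2 ^ q1) ^ i := by
              rw [e5, mul_one]
          _ = _ := by ring

end EN

end HexObs
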