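import Pool.Agent.EN.EspA

/-!
EN: the spatial tail at exact n, the words with many leaves in a direction in which the range is large.
-/

set_option autoImplicit false

namespace HexObs

namespace EN

open Finset TS SDN NTW NTA

open scoped ENNReal

/-- the event theorem with an outer mark, three directions -/
def ExsX : Prop := ∃ (C : ℝ) (k0 : ℕ), 1 ≤ C ∧ ∀ (d : Fin 3) (kc J n H m1 : ℕ) (R : Set (List (List Bool))) (δ δ' ε : ℝ),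
  k0 ≤ kc → 6 ≤ J → 0 < δ → 0 < δ' → 0 < ε → (∀ ms ∈ R, ms.length ≤ m1) → SmRX DmJ kc R δ →
  SmRX DmJ kc {ms | ms ∈ R ∧ ∃ g ∈ ms, 2 ^ H ≤ hgt g ∧ g.length ≤ n} δ' →
  (∀ k1, kc ≤ k1 → k1 ≤ kc + J + 8 →
    SmD DmJ k1 {g | g ∈ BrR (2 ^ (k1 + 4)) (2 ^ (kc + J + 10)) ∧ 2 ^ H ≤ hgt g ∧ g.length ≤ n} ε) →
  gf {t | t.length = n ∧ t ∈ WL (kc + J) ∧ HR d kc R t ∧ ∃ i j, i ≤ n ∧ j ≤ n ∧
    6 * ((m1 : ℤ) + 3) * 2 ^ H ≤ lv3 d (vx oo up t i) - lv3 d (vx oo up t j)} ≤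
    ENNReal.ofReal (C ^ J * (δ * ε + δ') * Ub (kc + J)) * Xb (kc + J) ^ 2

/-- the exact norm of a run with enough leaves, uniform in the box -/
def GBU (m : ℕ → ℝ) : Prop := ∃ (J0 : ℕ) (C : ℝ) (k0 : ℕ), 1 ≤ C ∧ ∀ k, k0 ≤ k → ∀ mu : ℕ,
  GB DmJ k (BrR (2 ^ (k + 4)) (2 ^ (k + mu + 2))) J0 (C ^ (mu + 1) / m k)

/-- the tall short leaves at all scales between k - (8 i + J2) and k + i + 8 -/
theorem smD_S {m : ℕ → ℝ} (hA : ASm m) (cH J2 : ℕ) : ∃ (c5 : ℕ) (B : ℝ), 1 ≤ B ∧ ∀ Q : ℕ, ∃ (A : ℝ) (D : ℕ), 1 ≤ A ∧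
    ∀ (k i n k1 : ℕ), D * (i + 1) ≤ k → (n : ℝ) < m (k + 1) → k ≤ k1 + (8 * i + J2) → k1 ≤ k + i + 8 →
    SmD DmJ k1 {g | g ∈ BrR (2 ^ (k1 + 4)) (2 ^ (k + i + 10)) ∧ 2 ^ (k + i - cH) ≤ hgt g ∧ g.length ≤ n}
      (A * B ^ i * (1 / 2) ^ (Q * (i - c5))) := by
  obtain ⟨d, s, kt, hd, htall⟩ := smD_tall
  obtain ⟨K, hK, hbox⟩ := smD_box
  obtain ⟨c0, hc0⟩ := hA d hd
  obtain ⟨c1, hc1⟩ : ∃ c1, c1 = max c0 kt := ⟨_, rfl⟩
  have h1 : c0 ≤ c1 := by rw [hc1]; exact le_max_left _ _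
  have h2 : kt ≤ c1 := by rw [hc1]; exact le_max_right _ _
  refine ⟨c1 + s + 1 + cH, 4 ^ 9 * 2 ^ 8, one_le_mul_of_one_le_of_one_le (one_le_pow₀ (by norm_num))
    (one_le_pow₀ (by norm_num)), fun Q => ?_⟩
  obtain ⟨C, D, hC, hD, hQ⟩ := htall Q
  have hC0 : 0 < C := by linarith
  have hK0 : 0 < K := by linarith
  refine ⟨C * 4 ^ (J2 + 10 + (cH + 8)) * 2 ^ (J2 + c1) + K * 2 ^ (J2 + 8), D + 8 + J2 + cH, ?_, ?_⟩
  · have e1 : 1 ≤ K * 2 ^ (J2 + 8) := one_le_mul_of_one_le_of_one_le hK (one_le_pow₀ (by norm_num))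
    have e2 : 0 ≤ C * 4 ^ (J2 + 10 + (cH + 8)) * 2 ^ (J2 + c1) := by positivity
    linarith
  intro k i n k1 hk hn hk1 hk2
  have hkD : (D + 8 + J2 + cH) * (i + 1) = D * (i + 1) + 8 * i + 8 + J2 * (i + 1) + cH * (i + 1) := by ring
  have hJ2 : J2 ≤ J2 * (i + 1) := Nat.le_mul_of_pos_right _ (by omega)
  have hcH : cH ≤ cH * (i + 1) := Nat.le_mul_of_pos_right _ (by omega)
  rw [hkD] at hk
  rcases Nat.lt_or_ge i (c1 + s + 1 + cH) with hi | hi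
  · -- small i: the box
    have h3 : SmD DmJ k1 {g | g ∈ BrR (2 ^ (k1 + 4)) (2 ^ (k + i + 10)) ∧ 2 ^ (k + i - cH) ≤ hgt g ∧ g.length ≤ n}
        (K * 2 ^ (k + i + 8 - k1)) := by
      refine smD_anti ?_ (hbox k1 (k + i + 8 - k1))
      rintro g ⟨h3, -⟩
      rwa [show k1 + (k + i + 8 - k1) + 2 = k + i + 10 by omega]
    refine SmD_le ?_ h3
    rw [Nat.sub_eq_zero_of_le hi.le, Nat.mul_zero, pow_zero, mul_one]
    have e1 : (2 : ℝ) ^ (k + i + 8 - k1) ≤ 2 ^ (J2 + 8) * (4 ^ 9 * 2 ^ 8) ^ i := by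
      calc (2 : ℝ) ^ (k + i + 8 - k1) ≤ 2 ^ ((J2 + 8) + 9 * i) := pow_le_pow_right₀ (by norm_num) (by omega)
        _ = 2 ^ (J2 + 8) * (2 ^ 9) ^ i := by rw [pow_add, pow_mul]
        _ ≤ _ := by
            gcongr
            norm_num
    have e2 : (0 : ℝ) ≤ C * 4 ^ (J2 + 10 + (cH + 8)) * 2 ^ (J2 + c1) := by positivity
    calc K * 2 ^ (k + i + 8 - k1) ≤ K * (2 ^ (J2 + 8) * (4 ^ 9 * 2 ^ 8) ^ i) := by gcongr
      _ = K * 2 ^ (J2 + 8) * (4 ^ 9 * 2 ^ 8) ^ i := by ring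
      _ ≤ _ := by
          gcongr
          linarith
  · -- large i
    have h3 := hQ (k + c1) (i - (c1 + s + 1 + cH)) k1 (k + i - cH) (k + i + 10 - k1) (cH + 8) (m (k + 1)) (by omega)
      (NTm.AS_mono (by linarith) le_rfl (hc0 c1 h1 k)) (by omega) (by omega) (by
        have : D * (i - (c1 + s + 1 + cH) + 1) ≤ D * (i + 1) := Nat.mul_le_mul_left _ (by omega)
        omega) (by
        have : D * (i - (c1 + s + 1 + cH) + 1) ≤ D * (i + 1) := Nat.mul_le_mul_left _ (by omega)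
        omega)
    refine SmD_le ?_ (smD_anti ?_ h3)
    · have e1 : (4 : ℝ) ^ (k + i + 10 - k1 + (cH + 8)) ≤ 4 ^ (J2 + 10 + (cH + 8)) * (4 ^ 9) ^ i := by
        rw [← pow_mul, ← pow_add]
        exact pow_le_pow_right₀ (by norm_num) (by omega)
      have e2 : (2 : ℝ) ^ (k + c1 - k1) ≤ 2 ^ (J2 + c1) * (2 ^ 8) ^ i := by
        rw [← pow_mul, ← pow_add]
        exact pow_le_pow_right₀ (by norm_num) (by omega)
      calc C * 4 ^ (k + i + 10 - k1 + (cH + 8)) * 2 ^ (k + c1 - k1) * (1 / 2) ^ (Q * (i - (c1 + s + 1 + cH))) ≤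
            C * (4 ^ (J2 + 10 + (cH + 8)) * (4 ^ 9) ^ i) * (2 ^ (J2 + c1) * (2 ^ 8) ^ i) *
              (1 / 2) ^ (Q * (i - (c1 + s + 1 + cH))) := by gcongr
        _ = C * 4 ^ (J2 + 10 + (cH + 8)) * 2 ^ (J2 + c1) * (4 ^ 9 * 2 ^ 8) ^ i *
              (1 / 2) ^ (Q * (i - (c1 + s + 1 + cH))) := by
            rw [mul_pow]
            ring
        _ ≤ _ := by
            have : (0 : ℝ) ≤ K * 2 ^ (J2 + 8) := by positivity
            gcongr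
            linarith
    · rintro g ⟨h4, h5, h6⟩
      refine ⟨?_, h5, ?_⟩
      · rwa [show k1 + (k + i + 10 - k1) = k + i + 10 by omega]
      · have : (g.length : ℝ) ≤ n := by exact_mod_cast h6
        linarith

/-- the runs of J leaves, one of them tall and short -/
lemma smRX_RJ {m : ℕ → ℝ} {J0 k0 : ℕ} {C : ℝ} (hG : ∀ k, k0 ≤ k → ∀ mu : ℕ,
    GB DmJ k (BrR (2 ^ (k + 4)) (2 ^ (k + mu + 2))) J0 (C ^ (mu + 1) / m k)) {K : ℝ} (hK : 1 ≤ K)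
    (hbox : ∀ kc mu : ℕ, SmD DmJ kc (BrR (2 ^ (kc + 4)) (2 ^ (kc + mu + 2))) (K * 2 ^ mu)) {s mu n H : ℕ} {ε : ℝ}
    (hs : k0 ≤ s) (hε : 0 ≤ ε)
    (hS : SmD DmJ s {g | g ∈ BrR (2 ^ (s + 4)) (2 ^ (s + mu + 2)) ∧ 2 ^ H ≤ hgt g ∧ g.length ≤ n} ε) :
    SmRX DmJ s (RJ s (2 ^ (s + mu + 2)) (J0 + 2)) ((4 * (K * 2 ^ mu)) ^ (J0 + 2) * (C ^ (mu + 1) / m s)) ∧
    SmRX DmJ s {ms | ms ∈ RJ s (2 ^ (s + mu + 2)) (J0 + 2) ∧ ∃ g ∈ ms, 2 ^ H ≤ hgt g ∧ g.length ≤ n}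
      ((4 * (K * 2 ^ mu)) ^ (J0 + 2) * (C ^ (mu + 1) / m s) * ε) := by
  classical
  have hq : 1 ≤ K * 2 ^ mu := one_le_mul_of_one_le_of_one_le hK (one_le_pow₀ (by norm_num))
  have h0 := smRX_marks dmP inH_box hε hq (hG s hs mu) (hbox s mu) hS (J0 + 2) 0
  have h1 := smRX_marks dmP inH_box hε hq (hG s hs mu) (hbox s mu) hS (J0 + 2) 1
  constructor
  · rw [pow_zero, one_mul] at h0
    refine h0.anti ?_
    rintro gs ⟨h2, h3⟩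
    exact ⟨h2, by omega, h3, Nat.zero_le _⟩
  · refine SmRX.le (h1.anti ?_) (le_of_eq ?_)
    · rintro gs ⟨⟨h2, h3⟩, g, hg, h4, h5⟩
      refine ⟨h2, by omega, h3, ?_⟩
      exact List.length_pos_of_mem (a := g) (List.mem_filter.2 ⟨hg,
        @decide_eq_true _ (Classical.propDecidable _) ⟨h3 g hg, h4, h5⟩⟩)
    · rw [pow_one]
      ring

lemma brR_mono {D N N' : ℕ} (h : N ≤ N') : BrR D N ⊆ BrR D N' := by
  rintro g ⟨a, h1, h2, h3⟩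
  exact ⟨a, h1, h2.trans h, h3⟩

/-- **the words with many leaves in a direction of large range** -/
theorem esp_many {m : ℕ → ℝ} (hm : MLow m) (hd : MUp m) (hA : ASm m) (hG : GBU m) (hE : ExsX) : ∃ J : ℕ, 1 ≤ J ∧
    ∀ J2 : ℕ, 6 ≤ J2 → ∀ Q : ℕ, ∃ (A : ℝ) (D : ℕ), 1 ≤ A ∧ ∀ (d : Fin 3) (k i n : ℕ), D * (i + 1) ≤ k →
    (n : ℝ) < m (k + 1) →
    gf {t | t.length = n ∧ t ∈ WL (k + i) ∧ HR d (k - (8 * i + J2)) (RJ (k - (8 * i + J2)) (2 ^ (k + i + 3)) J) t ∧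
      ∃ a b, a ≤ n ∧ b ≤ n ∧ (2 : ℤ) ^ (k + i) ≤ 2 * (lv3 d (vx oo up t a) - lv3 d (vx oo up t b))} ≤
      ENNReal.ofReal (A * (1 / 2) ^ (Q * i) * (Ub k / m k)) * Xb k ^ 2 := by
  obtain ⟨J0, C2, k0, hC2, hG⟩ := hG
  obtain ⟨Ce, ke, hCe, hexs⟩ := hE
  obtain ⟨K, hK, hbox⟩ := smD_box
  obtain ⟨Cm, hCm, hmu⟩ := hd.pow
  obtain ⟨Dx, hDx, hDX⟩ := Xb_pow
  obtain ⟨cH, hcH⟩ : ∃ cH : ℕ, 12 * (J0 + 2 + 3) ≤ 2 ^ cH := ⟨12 * (J0 + 2 + 3), Nat.lt_two_pow_self.le⟩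
  refine ⟨J0 + 2, by omega, fun J2 hJ2 Q => ?_⟩
  obtain ⟨c5, B, hB, hS⟩ := smD_S hA cH J2
  have hCe0 : 0 < Ce := by linarith
  have hC20 : 0 < C2 := by linarith
  have hCm0 : 0 < Cm := by linarith
  have hK0 : 0 < K := by linarith
  have hB0 : 0 < B := by linarith
  have hDx0 : 0 < Dx := by linarith
  obtain ⟨W, hW⟩ : ∃ W : ℝ, W = Ce ^ 9 * (2 ^ (J0 + 2)) ^ 9 * C2 ^ 9 * Cm ^ 8 * B * 2 * Dx ^ 2 := ⟨_, rfl⟩
  have hW0 : 0 < W := by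
    rw [hW]
    positivity
  obtain ⟨qW, hqW⟩ := two_pow_ge W
  obtain ⟨A, D, hA1, hSQ⟩ := hS (Q + qW)
  have hA0 : 0 < A := by linarith
  obtain ⟨F, hF⟩ : ∃ F : ℝ, F = Ce ^ J2 * 2 * (4 * K) ^ (J0 + 2) * (2 ^ (J0 + 2)) ^ (J2 + 1) * C2 ^ (J2 + 2) * Cm ^ J2 * A :=
    ⟨_, rfl⟩
  have hF1 : 1 ≤ F := by
    rw [hF]
    have a1 : 1 ≤ Ce ^ J2 := one_le_pow₀ hCe
    have a2 : (1 : ℝ) ≤ 2 := by norm_num
    have a3 : 1 ≤ (4 * K) ^ (J0 + 2) := one_le_pow₀ (by linarith)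
    have a4 : (1 : ℝ) ≤ (2 ^ (J0 + 2)) ^ (J2 + 1) := one_le_pow₀ (one_le_pow₀ (by norm_num))
    have a5 : 1 ≤ C2 ^ (J2 + 2) := one_le_pow₀ hC2
    have a6 : 1 ≤ Cm ^ J2 := one_le_pow₀ hCm
    exact one_le_mul_of_one_le_of_one_le (one_le_mul_of_one_le_of_one_le (one_le_mul_of_one_le_of_one_le
      (one_le_mul_of_one_le_of_one_le (one_le_mul_of_one_le_of_one_le (one_le_mul_of_one_le_of_one_le a1 a2) a3) a4)
      a5) a6) hA1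
  have hF0 : 0 < F := by linarith
  refine ⟨F * 2 ^ ((Q + qW) * c5), D + 8 + J2 + cH + k0 + ke, one_le_mul_of_one_le_of_one_le hF1
    (one_le_pow₀ (by norm_num)), fun d k i n hk hn => ?_⟩
  have hkD : (D + 8 + J2 + cH + k0 + ke) * (i + 1) =
      D * (i + 1) + 8 * i + 8 + J2 * (i + 1) + cH * (i + 1) + k0 * (i + 1) + ke * (i + 1) := by ring
  have b1 : J2 ≤ J2 * (i + 1) := Nat.le_mul_of_pos_right _ (by omega)
  have b2 : cH ≤ cH * (i + 1) := Nat.le_mul_of_pos_right _ (by omega)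
  have b3 : k0 ≤ k0 * (i + 1) := Nat.le_mul_of_pos_right _ (by omega)
  have b4 : ke ≤ ke * (i + 1) := Nat.le_mul_of_pos_right _ (by omega)
  rw [hkD] at hk
  obtain ⟨s, hs⟩ : ∃ s, s = k - (8 * i + J2) := ⟨_, rfl⟩
  rw [← hs]
  obtain ⟨mu, hmu1⟩ : ∃ mu, mu = 9 * i + (J2 + 1) := ⟨_, rfl⟩
  have hsm : s + mu + 2 = k + i + 3 := by omega
  have hms := hm.pos s
  have hmk := hm.pos k
  have hU := Ub_pos k
  obtain ⟨ε, hε⟩ : ∃ ε : ℝ, ε = A * B ^ i * (1 / 2) ^ ((Q + qW) * (i - c5)) := ⟨_, rfl⟩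
  have hε0 : 0 < ε := by
    rw [hε]
    positivity
  have hSk : ∀ k1, s ≤ k1 → k1 ≤ k + i + 8 →
      SmD DmJ k1 {g | g ∈ BrR (2 ^ (k1 + 4)) (2 ^ (k + i + 10)) ∧ 2 ^ (k + i - cH) ≤ hgt g ∧ g.length ≤ n} ε := by
    intro k1 h1 h2
    rw [hε]
    exact hSQ k i n k1 (by omega) hn (by omega) h2
  obtain ⟨δ, hδ⟩ : ∃ δ : ℝ, δ = (4 * (K * 2 ^ mu)) ^ (J0 + 2) * (C2 ^ (mu + 1) / m s) := ⟨_, rfl⟩
  have hδ0 : 0 < δ := by
    rw [hδ]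
    positivity
  obtain ⟨h1, h2⟩ := smRX_RJ hG hK hbox (s := s) (mu := mu) (n := n) (H := k + i - cH) (ε := ε) (by omega) hε0.le (by
    refine smD_anti ?_ (hSk s le_rfl (by omega))
    rintro g ⟨g1, g2⟩
    exact ⟨brR_mono (Nat.pow_le_pow_right (by norm_num) (by omega)) g1, g2⟩)
  rw [← hδ, hsm] at h1 h2
  have h3 := hexs d s (9 * i + J2) n (k + i - cH) (J0 + 2) (RJ s (2 ^ (k + i + 3)) (J0 + 2)) δ (δ * ε) ε (by omega)
    (by omega) hδ0 (by positivity) hε0 (fun ms hms => le_of_eq hms.1) h1 h2 (by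
    intro k1 g1 g2
    have := hSk k1 g1 (by omega)
    rwa [show s + (9 * i + J2) + 10 = k + i + 10 by omega])
  rw [show s + (9 * i + J2) = k + i by omega] at h3
  refine (gf_mono ?_).trans (h3.trans ?_)
  · rintro t ⟨t1, t2, t3, a, b, t4, t5, t6⟩
    refine ⟨t1, t2, t3, a, b, t4, t5, ?_⟩
    have e1 : 12 * (((J0 + 2 : ℕ) : ℤ) + 3) * 2 ^ (k + i - cH) ≤ 2 ^ (k + i) := by
      have e2 : (12 : ℤ) * (((J0 + 2 : ℕ) : ℤ) + 3) ≤ 2 ^ cH := by exact_mod_cast hcH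
      calc 12 * (((J0 + 2 : ℕ) : ℤ) + 3) * 2 ^ (k + i - cH) ≤ 2 ^ cH * 2 ^ (k + i - cH) := by gcongr
        _ = 2 ^ (k + i) := by
            rw [← pow_add]
            congr 1
            omega
    linarith
  -- the numbers
  have hUK : Ub (k + i) ≤ 2 ^ i * Ub k := UU_ratio_up k i
  have hms2 : m k ≤ Cm ^ (8 * i + J2) * m s := by
    have := hmu s (8 * i + J2)
    rwa [show s + (8 * i + J2) = k by omega] at this
  have hUK0 := Ub_pos (k + i)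
  calc ENNReal.ofReal (Ce ^ (9 * i + J2) * (δ * ε + δ * ε) * Ub (k + i)) * Xb (k + i) ^ 2
      ≤ ENNReal.ofReal (Ce ^ (9 * i + J2) * (δ * ε + δ * ε) * Ub (k + i)) * (ENNReal.ofReal (Dx ^ i) * Xb k) ^ 2 :=
        mul_le_mul_right (pow_le_pow_left' (hDX k i) 2) _
    _ = ENNReal.ofReal (Ce ^ (9 * i + J2) * (δ * ε + δ * ε) * Ub (k + i) * (Dx ^ i) ^ 2) * Xb k ^ 2 := by
        rw [mul_pow, ← ENNReal.ofReal_pow (by positivity), ← mul_assoc, ← ENNReal.ofReal_mul (by positivity)]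
    _ ≤ _ := by
        refine mul_le_mul_left (ENNReal.ofReal_le_ofReal ?_) _
        have e1 : 1 / m s ≤ Cm ^ (8 * i + J2) / m k := by
          rw [div_le_div_iff₀ hms hmk, one_mul]
          exact hms2
        have e2 : Ce ^ (9 * i + J2) * (δ * ε + δ * ε) * Ub (k + i) * (Dx ^ i) ^ 2 =
            Ce ^ (9 * i + J2) * 2 * (4 * (K * 2 ^ mu)) ^ (J0 + 2) * C2 ^ (mu + 1) * (A * B ^ i) * (Dx ^ i) ^ 2 *
              (1 / m s) * Ub (k + i) * (1 / 2) ^ ((Q + qW) * (i - c5)) := by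
          rw [hδ, hε]
          ring
        have e3 : Ce ^ (9 * i + J2) * 2 * (4 * (K * 2 ^ mu)) ^ (J0 + 2) * C2 ^ (mu + 1) * (A * B ^ i) * (Dx ^ i) ^ 2 *
              (Cm ^ (8 * i + J2) / m k) * (2 ^ i * Ub k) = F * W ^ i * (Ub k / m k) := by
          have f1 : Ce ^ (9 * i + J2) = Ce ^ J2 * (Ce ^ 9) ^ i := by
            rw [pow_add, pow_mul]
            ring
          have f2 : (4 * (K * 2 ^ mu)) ^ (J0 + 2) =
              (4 * K) ^ (J0 + 2) * (2 ^ (J0 + 2)) ^ (J2 + 1) * ((2 ^ (J0 + 2)) ^ 9) ^ i := by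
            rw [hmu1, ← mul_assoc, mul_pow (4 * K), mul_assoc, ← pow_mul, ← pow_mul, ← pow_mul, ← pow_mul, ← pow_add]
            congr 2
            ring
          have f3 : C2 ^ (mu + 1) = C2 ^ (J2 + 2) * (C2 ^ 9) ^ i := by
            rw [hmu1, ← pow_mul, ← pow_add]
            congr 1
            ring
          have f4 : Cm ^ (8 * i + J2) = Cm ^ J2 * (Cm ^ 8) ^ i := by
            rw [pow_add, pow_mul]
            ring
          have f5 : (Dx ^ i) ^ 2 = (Dx ^ 2) ^ i := by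
            rw [← pow_mul, ← pow_mul, mul_comm]
          rw [f1, f2, f3, f4, f5, hF, hW, mul_pow, mul_pow, mul_pow, mul_pow, mul_pow, mul_pow]
          ring
        have e4 : ((1 : ℝ) / 2) ^ ((Q + qW) * (i - c5)) ≤ 2 ^ ((Q + qW) * c5) * (1 / 2) ^ ((Q + qW) * i) := by
          have e5 : ((1 : ℝ) / 2) ^ ((Q + qW) * (i - c5) + (Q + qW) * c5) ≤ (1 / 2) ^ ((Q + qW) * i) := by
            apply pow_le_pow_of_le_one (by norm_num) (by norm_num)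
            rw [← mul_add]
            exact Nat.mul_le_mul_left _ (by omega)
          have e6 : ((1 : ℝ) / 2) ^ ((Q + qW) * c5) * 2 ^ ((Q + qW) * c5) = 1 := by
            rw [← mul_pow]
            norm_num
          rw [pow_add] at e5
          calc ((1 : ℝ) / 2) ^ ((Q + qW) * (i - c5)) =
                2 ^ ((Q + qW) * c5) * ((1 / 2) ^ ((Q + qW) * (i - c5)) * (1 / 2) ^ ((Q + qW) * c5)) := by
                rw [mul_comm (((1 : ℝ) / 2) ^ ((Q + qW) * (i - c5))), ← mul_assoc, mul_comm ((2 : ℝ) ^ _), e6, one_mul]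
            _ ≤ _ := by gcongr
        have e7 : W ^ i * (1 / 2) ^ ((Q + qW) * i) ≤ (1 / 2) ^ (Q * i) := by
          have e8 : W ^ i ≤ (2 ^ qW) ^ i := pow_le_pow_left₀ hW0.le hqW.le i
          have e9 : ((2 : ℝ) ^ qW) ^ i * (1 / 2) ^ ((Q + qW) * i) = (1 / 2) ^ (Q * i) := by
            rw [← pow_mul, add_mul, pow_add, mul_comm ((1 / 2 : ℝ) ^ (Q * i)), ← mul_assoc, ← mul_pow]
            norm_num
          calc W ^ i * (1 / 2) ^ ((Q + qW) * i) ≤ (2 ^ qW) ^ i * (1 / 2) ^ ((Q + qW) * i) := by gcongr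
            _ = _ := e9
        rw [e2]
        calc _ ≤ Ce ^ (9 * i + J2) * 2 * (4 * (K * 2 ^ mu)) ^ (J0 + 2) * C2 ^ (mu + 1) * (A * B ^ i) * (Dx ^ i) ^ 2 *
              (Cm ^ (8 * i + J2) / m k) * (2 ^ i * Ub k) * (1 / 2) ^ ((Q + qW) * (i - c5)) := by gcongr
          _ = F * W ^ i * (Ub k / m k) * (1 / 2) ^ ((Q + qW) * (i - c5)) := by rw [e3]
          _ ≤ F * W ^ i * (Ub k / m k) * (2 ^ ((Q + qW) * c5) * (1 / 2) ^ ((Q + qW) * i)) := by gcongr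
          _ = F * 2 ^ ((Q + qW) * c5) * (W ^ i * (1 / 2) ^ ((Q + qW) * i)) * (Ub k / m k) := by ring
          _ ≤ F * 2 ^ ((Q + qW) * c5) * (1 / 2) ^ (Q * i) * (Ub k / m k) := by gcongr

end EN

end HexObs
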