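import Pool.Agent.NTA.PtLow
import Pool.Agent.NTA.PtFC
import Pool.Agent.NTA.QuanH
import Pool.Agent.NTA.XDbl
import Pool.Agent.NTS.ExDefs

/-!
EN (every number of letters): many walks with exactly n letters end far away: the field `big` of `FactsX`.
-/

set_option autoImplicit false

namespace HexObs

namespace EN

open Finset TS SDN NTW NTA PtC NTSF.Pt

open scoped ENNReal

variable {m : ℕ → ℝ}

/-! ### 1. The words -/

lemma ip_dirs_le : ∀ d ∈ dirs, ∀ e ∈ dirs, ip e d ≤ 2 := by decide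

lemma gf_two : gf ({[true], [false]} : Set (List Bool)) ≤ 2 := by
  have h1 : ({[true], [false]} : Set (List Bool)) = (({[true], [false]} : Finset (List Bool)) : Set (List Bool)) := by
    rw [Finset.coe_insert, Finset.coe_singleton]
  rw [h1, gf_finset]
  rw [Finset.sum_pair (by decide)]
  have h2 := BAR.xc_le
  have h3 := xc_pos
  rw [show (2 : ℝ≥0∞) = ENNReal.ofReal 2 by norm_num]
  apply ENNReal.ofReal_le_ofReal
  simp only [List.length_cons, List.length_nil, zero_add, pow_one]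
  linarith

/-- one more letter -/
lemma SawF_succ (n : ℕ) (h : ℤ) : gf (BAR.SawF (n + 1) (h + 2)) ≤ 2 * gf (BAR.SawF n h) := by
  have h1 : BAR.SawF (n + 1) (h + 2) ⊆
      {w | ∃ c ∈ BAR.SawF n h, ∃ s ∈ ({[true], [false]} : Set (List Bool)), w = c ++ s} := by
    rintro t ⟨⟨hl, ht⟩, d, hd, hlev⟩
    rcases List.eq_nil_or_concat t with rfl | ⟨c, x, rfl⟩
    · simp at hl
    · rw [List.concat_eq_append] at hl ht hlev ⊢
      rw [List.length_append, List.length_singleton] at hl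
      have hc : c.length = n := by omega
      have hv : ∀ i, i ≤ n + 1 → vx oo up (c ++ [x]) i = vx oo up c i := fun i hi => vx_append (by omega)
      refine ⟨c, ⟨⟨hc, fun _ _ _ => Set.mem_univ _, ?_⟩, d, hd, ?_⟩, [x], ?_, rfl⟩
      · intro i k hik hk
        have h2 := ht.inj i k hik (by rw [List.length_append, List.length_singleton]; omega)
        rwa [hv i (by omega), hv k (by omega)] at h2
      · rw [hv (n + 1) le_rfl, vx_succ, ip_add_left] at hlev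
        have h3 := ip_dirs_le d hd _ (dx_mem upd c n)
        linarith
      · cases x
        · right
          rfl
        · left
          rfl
  refine (gf_mono h1).trans ((gf_le_mul fun t ht => ht).trans ?_)
  rw [mul_comm]
  exact mul_le_mul_left gf_two _

lemma ip_sq_le (p d : Pt) : (ip p d) ^ 2 ≤ 4 * (nrm p * nrm d) := by
  unfold ip nrm
  nlinarith [sq_nonneg (p.1 * d.2 - p.2 * d.1)]

/-- a large displacement in one of the six directions -/
lemma far_dir {v d : Pt} {h : ℝ} (hd : d ∈ dirs) (h0 : 0 ≤ h) (hh : 2 * h ≤ ((ip v d : ℤ) : ℝ)) :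
    ∃ dir : Bool, h ≤ |((lvl dir v : ℤ) : ℝ)| := by
  refine NTF.exists_dir h0 ?_
  have h1 := ip_sq_le v d
  rw [mem_dirs.1 hd, mul_one] at h1
  have h2 : ((ip v d : ℤ) : ℝ) ^ 2 ≤ 4 * ((nrm v : ℤ) : ℝ) := by exact_mod_cast h1
  rw [← NTF.JJ_norm] at h2
  have h3 : (2 * h) ^ 2 ≤ (2 * ‖NTF.JJ v‖) ^ 2 := by
    calc (2 * h) ^ 2 ≤ ((ip v d : ℤ) : ℝ) ^ 2 := by
          apply pow_le_pow_left₀ (by positivity) hh
      _ ≤ 4 * ‖NTF.JJ v‖ ^ 2 := h2
      _ = _ := by ring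
  have h4 := (pow_le_pow_iff_left₀ (by positivity) (by positivity) two_ne_zero).1 h3
  linarith

/-! ### 2. One odd number of letters -/

theorem big_core (hI : BrL.IndB) : ∃ c : ℝ, 0 < c ∧ ∀ n s : ℕ, n % 2 = 1 → 22 ≤ n →
    ENNReal.ofReal (1 / 4) ≤ gf {c | c ∈ FPs s ∧ c.length ≤ 2 * (n / 16)} →
    c * (Ux (n / 8) * Sx (n / 4) ^ 2) ≤ n * (gf (BAR.SawF n (3 * s))).toReal := by
  obtain ⟨c, hc, hub⟩ := BrL.ub_low hI
  refine ⟨c / 96, by positivity, fun n s hn h22 hfp => ?_⟩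
  have hn0 : 0 < n := by omega
  have hnR : (0 : ℝ) < n := by exact_mod_cast hn0
  have hU0 : 0 ≤ Ux (n / 8) := sum_nonneg fun j _ => ub_nonneg j
  have hx := xc_pos
  obtain ⟨v, hv⟩ : ∃ v : ℝ, v = c * (Ux (n / 8) / n) := ⟨_, rfl⟩
  have hv0 : 0 ≤ v := by rw [hv]; positivity
  have h1 := PtC.conv_low (N := Nx) (u := BAR.ubF s) Nx_nonneg (s := ((BAR.SawF n (3 * s)).ncard : ℝ) * xc ^ n)
    (v := 1 / 4 * v) (D := 12) (n := n) (M := n / 4) hn (by omega) (by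
      intro j hj hj1 hjn
      have h2 := PtC.ubF_low (s := s) (N := n / 16) (m := j) (v := v) (by omega) (by
        intro i hi
        refine le_trans ?_ (hub (j - i) (by omega))
        rw [hv]
        refine mul_le_mul_of_nonneg_left ?_ hc.le
        have h2 : Ux (n / 8) ≤ ∑ i ∈ range (j - i), BrL.ub i := Ux_mono (by omega)
        have h3 : 0 ≤ ∑ i ∈ range (j - i), BrL.ub i := sum_nonneg fun i _ => ub_nonneg i
        have hj0 : (0 : ℝ) < ((j - i : ℕ) : ℝ) := by exact_mod_cast (by omega : 0 < j - i)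
        have hjR : ((j - i : ℕ) : ℝ) ≤ n := by exact_mod_cast (by omega : j - i ≤ n)
        calc Ux (n / 8) / n ≤ (∑ i ∈ range (j - i), BrL.ub i) / n := by gcongr
          _ ≤ (∑ i ∈ range (j - i), BrL.ub i) / ((j - i : ℕ) : ℝ) := by gcongr)
      have h3 := (mul_le_mul_left hfp (ENNReal.ofReal v)).trans h2
      rw [← ENNReal.ofReal_mul (by norm_num), ENNReal.ofReal_le_ofReal_iff (BAR.ubF_nonneg _ _)] at h3
      exact h3) (fun F hF => BAR.conv_far s n F hF) (by positivity)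
  have h2 : (gf (BAR.SawF n (3 * s))).toReal = ((BAR.SawF n (3 * s)).ncard : ℝ) * xc ^ n := by
    rw [BAR.gf_ncard (BAR.SawF_fin n _) (fun t ht => ht.1.1), ENNReal.toReal_ofReal (by positivity)]
  rw [← h2] at h1
  have e : ∑ k ∈ Icc 1 (n / 4), Nx k = Sx (n / 4) := rfl
  rw [e] at h1
  calc c / 96 * (Ux (n / 8) * Sx (n / 4) ^ 2) = n * (1 / 4 * v * (Sx (n / 4) ^ 2 / 2)) / 12 := by
        rw [hv]
        field_simp
        ring
    _ ≤ n * (12 * (gf (BAR.SawF n (3 * s))).toReal) / 12 := by gcongr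
    _ = _ := by ring

/-! ### 3. The bridges and the half plane words with few letters -/

lemma m_two (h : MLow m) (k j : ℕ) : (2 : ℝ) ^ j * m k ≤ m (k + j) := by
  refine le_trans (mul_le_mul_of_nonneg_right ?_ (h.pos k).le) (h.low k j)
  rw [← Real.rpow_natCast]
  apply Real.rpow_le_rpow_of_exponent_le (by norm_num)
  have : (0 : ℝ) ≤ j := Nat.cast_nonneg _
  linarith

/-- half of the bridges have at most lam m k letters -/
lemma half_short (hB : TB m) : ∃ lam : ℝ, 1 ≤ lam ∧ ∀ k N : ℕ, lam * m k ≤ N →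
    ENNReal.ofReal (Ub k) ≤ 2 * gf {X | (∃ n, n ≤ 2 ^ k ∧ X ∈ Brd n) ∧ X.length ≤ N} := by
  obtain ⟨A, hA, h⟩ := hB 1
  obtain ⟨lam, hlam⟩ : ∃ lam : ℝ, lam = max 1 (2 * A) := ⟨_, rfl⟩
  have hl1 : 1 ≤ lam := by rw [hlam]; exact le_max_left _ _
  have hl2 : 2 * A ≤ lam := by rw [hlam]; exact le_max_right _ _
  have hl0 : 0 < lam := by linarith
  refine ⟨lam, hl1, fun k N hN => ?_⟩
  have hU := Ub_pos k
  have h1 : NTm.TL (2 ^ k) (lam * m k) ≤ ENNReal.ofReal (1 / 2 * Ub k) := by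
    refine (h k lam hl1).trans (ENNReal.ofReal_le_ofReal (mul_le_mul_of_nonneg_right ?_ hU.le))
    rw [pow_one, div_le_iff₀ hl0]
    linarith
  have h2 : NTm.TS' (2 ^ k) (lam * m k) ≤ gf {X | (∃ n, n ≤ 2 ^ k ∧ X ∈ Brd n) ∧ X.length ≤ N} := by
    refine (BAR.gf_bi_eq _ _ ?_).trans (gf_mono ?_)
    · intro i j w hi hj
      exact Brd_height hi.1 hj.1
    · intro w hw
      rw [Set.mem_iUnion₂] at hw
      obtain ⟨i, hi, h3, h4⟩ := hw
      rw [Finset.mem_range] at hi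
      refine ⟨⟨i, by omega, h3⟩, ?_⟩
      have h5 : (w.length : ℝ) < N := lt_of_lt_of_le h4 hN
      exact_mod_cast h5.le
  have h3 := NTm.TL_TS (2 ^ k) (lam * m k)
  have e : UU (2 ^ k) = Ub k := rfl
  rw [e] at h3
  obtain ⟨x, hx⟩ : ∃ x, x = gf {X | (∃ n, n ≤ 2 ^ k ∧ X ∈ Brd n) ∧ X.length ≤ N} := ⟨_, rfl⟩
  rw [← hx] at h2 ⊢
  have h4 : ENNReal.ofReal (Ub k) ≤ ENNReal.ofReal (1 / 2 * Ub k) + x := h3.trans (add_le_add h1 h2)
  have h5 : ENNReal.ofReal (Ub k) = ENNReal.ofReal (1 / 2 * Ub k) + ENNReal.ofReal (1 / 2 * Ub k) := by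
    rw [← ENNReal.ofReal_add (by positivity) (by positivity)]
    congr 1
    ring
  rw [h5] at h4
  have h6 := (ENNReal.add_le_add_iff_left ENNReal.ofReal_ne_top).1 h4
  rw [h5, two_mul]
  exact add_le_add h6 h6

/-- the half plane words with few letters, by letters -/
lemma Sx_ge (hm : MLow m) (hH : NTA.HT m) : ∃ lam c : ℝ, 0 < lam ∧ 0 < c ∧ ∀ k M : ℕ, 1 ≤ M → lam * m k ≤ M →
    ENNReal.ofReal c * Xb k ≤ ENNReal.ofReal (Sx M) := by
  obtain ⟨lam, hlam, h⟩ := half_shortH hm hH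
  obtain ⟨C, hC, h2⟩ := Sx_range
  refine ⟨lam, 1 / (2 * C), hlam, by positivity, fun k M hM hk => ?_⟩
  have h3 : ENNReal.ofReal (1 / 2) * Xb k ≤ ENNReal.ofReal (C * Sx M) := by
    refine (h k).trans ((gf_mono ?_).trans ((NAl_le (2 ^ k) M).trans (ENNReal.ofReal_le_ofReal (h2 M hM))))
    rintro W ⟨hW, hl⟩
    refine ⟨hW, ?_⟩
    have : (W.length : ℝ) ≤ M := hl.trans hk
    exact_mod_cast this
  have hC0 : 0 < C := by linarith
  calc ENNReal.ofReal (1 / (2 * C)) * Xb k = ENNReal.ofReal (1 / C) * (ENNReal.ofReal (1 / 2) * Xb k) := by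
        rw [← mul_assoc, ← ENNReal.ofReal_mul (by positivity)]
        congr 2
        field_simp
    _ ≤ ENNReal.ofReal (1 / C) * ENNReal.ofReal (C * Sx M) := mul_le_mul_right h3 _
    _ = ENNReal.ofReal (Sx M) := by
        rw [← ENNReal.ofReal_mul (by positivity)]
        congr 1
        field_simp

/-! ### 4. The theorem -/

/-- **many walks with exactly n letters end far away, every n** -/
theorem big_of (hm : MLow m) (hd : MUp m) (hB : TB m) (hH : NTA.HT m) (hI : BrL.IndB) :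
    ∃ (c κ : ℝ) (k0 : ℕ), 0 < c ∧ 0 < κ ∧ ∀ k n : ℕ, k0 ≤ k → m k ≤ n → n < m (k + 1) →
      ENNReal.ofReal c * nuX m k ≤
        gf {t | t ∈ SawN n ∧ ∃ dir : Bool, κ * 2 ^ k ≤ |((lvl dir (vx oo up t n) : ℤ) : ℝ)|} := by
  obtain ⟨c1, hc1, hcore⟩ := big_core hI
  obtain ⟨lamB, hlB, hshort⟩ := half_short hB
  obtain ⟨lamH, cH, hlH, hcH, hSx⟩ := Sx_ge hm hH
  obtain ⟨Cm, hCm, hup⟩ := hd
  obtain ⟨CX, hCX, hXd⟩ := XDbl.pow xDbl
  obtain ⟨a, ha⟩ := Ub_small (ε := 1 / 4) (by norm_num)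
  obtain ⟨i, hi⟩ := pow_unbounded_of_one_lt (32 * (lamB + lamH)) (one_lt_two (α := ℝ))
  obtain ⟨k1, hk1⟩ := pow_unbounded_of_one_lt (22 / m 0) (one_lt_two (α := ℝ))
  obtain ⟨c2, hc2⟩ : ∃ c2 : ℝ, c2 = c1 / 2 ^ (i + 1) * (cH / CX ^ i) ^ 2 / (2 * Cm) := ⟨_, rfl⟩
  have hCX0 : 0 < CX := by linarith
  have hCm0 : 0 < Cm := by linarith
  have hc20 : 0 < c2 := by rw [hc2]; positivity
  refine ⟨c2 / 2, 1 / 2 ^ (i + a + 1), k1 + i + a, by positivity, by positivity, fun k n hk hkn hnk => ?_⟩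
  have hm0 := hm.pos 0
  have hmk := hm.pos k
  -- the number of letters
  have hn22 : 22 ≤ n := by
    have h1 := m_two hm 0 k
    rw [Nat.zero_add] at h1
    have h2 : (2 : ℝ) ^ k1 ≤ 2 ^ k := pow_le_pow_right₀ (by norm_num) (by omega)
    have h3 : 22 < 2 ^ k1 * m 0 := by rwa [div_lt_iff₀ hm0] at hk1
    have h4 : (22 : ℝ) < n := by nlinarith
    have h5 : (22 : ℕ) < n := by exact_mod_cast h4
    omega
  obtain ⟨n', hodd, hnn', hn'n⟩ : ∃ n', n' % 2 = 1 ∧ n ≤ n' ∧ n' ≤ n + 1 := by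
    rcases Nat.mod_two_eq_zero_or_one n with h | h
    · exact ⟨n + 1, by omega, by omega, le_rfl⟩
    · exact ⟨n, h, le_rfl, by omega⟩
  have hn'22 : 22 ≤ n' := by omega
  have hn'R : (22 : ℝ) ≤ n' := by exact_mod_cast hn'22
  have hnn'R : (n : ℝ) ≤ n' := by exact_mod_cast hnn'
  have hn'nR : (n' : ℝ) ≤ n + 1 := by exact_mod_cast hn'n
  have hnR : (22 : ℝ) ≤ n := by exact_mod_cast hn22
  obtain ⟨kb, hkb⟩ : ∃ kb, k = kb + i := ⟨k - i, by omega⟩
  have hkb' : a ≤ kb := by omega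
  obtain ⟨j, hj⟩ : ∃ j, kb = j + a := ⟨kb - a, by omega⟩
  have hmb := hm.pos kb
  have hmn : 32 * (lamB + lamH) * m kb ≤ n' := by
    have h1 := m_two hm kb i
    rw [← hkb] at h1
    nlinarith
  have f1 : lamB * m kb ≤ ((2 * (n' / 16) : ℕ) : ℝ) := by
    have h1 : n' < 16 * (n' / 16) + 16 := by omega
    have h2 : (n' : ℝ) < 16 * ((n' / 16 : ℕ) : ℝ) + 16 := by exact_mod_cast h1
    have h3 : 0 < lamH * m kb := by positivity
    push_cast
    linarith
  have f3 : lamH * m kb ≤ ((n' / 4 : ℕ) : ℝ) := by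
    have h1 : n' < 4 * (n' / 4) + 4 := by omega
    have h2 : (n' : ℝ) < 4 * ((n' / 4 : ℕ) : ℝ) + 4 := by exact_mod_cast h1
    have h3 : 0 < lamB * m kb := by positivity
    linarith
  have hs := hshort kb _ f1
  have hUU : UU (2 ^ j) ≤ 1 / 4 * UU (2 ^ kb) := by
    have h1 := ha kb hkb'
    rwa [show kb - a = j by omega] at h1
  have hG := hcore n' (2 ^ j) hodd hn'22 (fp_gen hs hUU)
  have hUx := Ux_ge hs (q := n' / 8) (by omega)
  have hUk : Ub k ≤ 2 ^ i * Ub kb := by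
    rw [hkb]
    exact Sc.Ub_shift _ _
  have hSe := hSx kb (n' / 4) (by omega) f3
  have hXk : Xb k ≤ ENNReal.ofReal (CX ^ i) * Xb kb := by
    rw [hkb]
    exact hXd kb i
  obtain ⟨x, hx⟩ : ∃ x, x = (Xb k).toReal := ⟨_, rfl⟩
  have hx0 : 0 ≤ x := by rw [hx]; exact ENNReal.toReal_nonneg
  have hxe : Xb k = ENNReal.ofReal x := by rw [hx, ENNReal.ofReal_toReal (Xb_ne_top k)]
  have hS0 := Sx_nonneg (n' / 4)
  have hSx2 : cH / CX ^ i * x ≤ Sx (n' / 4) := by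
    have h1 : ENNReal.ofReal (cH / CX ^ i * x) ≤ ENNReal.ofReal (Sx (n' / 4)) := by
      rw [ENNReal.ofReal_mul (by positivity), ← hxe]
      calc ENNReal.ofReal (cH / CX ^ i) * Xb k ≤ ENNReal.ofReal (cH / CX ^ i) * (ENNReal.ofReal (CX ^ i) * Xb kb) :=
            mul_le_mul_right hXk _
        _ = ENNReal.ofReal cH * Xb kb := by
            rw [← mul_assoc, ← ENNReal.ofReal_mul (by positivity)]
            congr 2
            field_simp
        _ ≤ _ := hSe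
    rwa [ENNReal.ofReal_le_ofReal_iff hS0] at h1
  obtain ⟨G, hGd⟩ : ∃ G, G = gf (BAR.SawF n' (3 * ((2 ^ j : ℕ) : ℤ))) := ⟨_, rfl⟩
  rw [← hGd] at hG
  have hGt : G ≠ ⊤ := by
    rw [hGd, BAR.gf_ncard (BAR.SawF_fin n' _) (fun t ht => ht.1.1)]
    exact ENNReal.ofReal_ne_top
  have hUb := Ub_pos k
  have hUx2 : Ub k / 2 ^ (i + 1) ≤ Ux (n' / 8) := by
    refine le_trans ?_ hUx
    rw [pow_succ, ← div_div]
    have h2 : Ub k / 2 ^ i ≤ Ub kb := by
      rw [div_le_iff₀ (by positivity)]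
      linarith
    linarith
  have hG2 : c2 * (Ub k / m k * x ^ 2) ≤ G.toReal := by
    have h1 : (n' : ℝ) ≤ 2 * Cm * m k := by
      have h2 := hup k
      nlinarith
    have hU8 : 0 ≤ Ux (n' / 8) := sum_nonneg fun j _ => ub_nonneg j
    have h2 : c1 * (Ub k / 2 ^ (i + 1) * (cH / CX ^ i * x) ^ 2) ≤ c1 * (Ux (n' / 8) * Sx (n' / 4) ^ 2) := by
      gcongr
    have h3 : c1 * (Ub k / 2 ^ (i + 1) * (cH / CX ^ i * x) ^ 2) ≤ 2 * Cm * m k * G.toReal :=
      h2.trans (hG.trans (mul_le_mul_of_nonneg_right h1 ENNReal.toReal_nonneg))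
    have h4 : c2 * (Ub k / m k * x ^ 2) * (2 * Cm * m k) = c1 * (Ub k / 2 ^ (i + 1) * (cH / CX ^ i * x) ^ 2) := by
      rw [hc2]
      field_simp
    have h5 : 0 < 2 * Cm * m k := by positivity
    refine le_of_mul_le_mul_right ?_ h5
    rw [h4, mul_comm (G.toReal)]
    exact h3
  have hG3 : ENNReal.ofReal c2 * nuX m k ≤ G := by
    unfold nuX
    rw [hxe, ← ENNReal.ofReal_pow hx0, ← ENNReal.ofReal_mul (by positivity), ← ENNReal.ofReal_mul hc20.le]
    exact (ENNReal.ofReal_le_ofReal hG2).trans (le_of_eq (ENNReal.ofReal_toReal hGt))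
  -- from n' to n
  obtain ⟨T, hT⟩ : ∃ T, T = gf {t | t ∈ SawN n ∧ ∃ dir : Bool,
    1 / 2 ^ (i + a + 1) * 2 ^ k ≤ |((lvl dir (vx oo up t n) : ℤ) : ℝ)|} := ⟨_, rfl⟩
  have hκ : (1 : ℝ) / 2 ^ (i + a + 1) * 2 ^ k = 2 ^ j / 2 := by
    rw [hkb, hj, pow_succ, pow_add, pow_add, pow_add]
    field_simp
  have hT1 : gf (BAR.SawF n (3 * ((2 ^ j : ℕ) : ℤ) - 2)) ≤ T := by
    rw [hT]
    refine gf_mono ?_
    rintro t ⟨ht, d, hd, h⟩
    refine ⟨ht, ?_⟩
    rw [hκ]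
    refine far_dir hd (by positivity) ?_
    have h1 : ((3 * ((2 ^ j : ℕ) : ℤ) - 2 : ℤ) : ℝ) ≤ ((ip (vx oo up t n) d : ℤ) : ℝ) := by exact_mod_cast h
    have h2 : (1 : ℝ) ≤ 2 ^ j := one_le_pow₀ (by norm_num)
    push_cast at h1
    linarith
  have hGT : G ≤ 2 * T := by
    rw [hGd]
    rcases Nat.lt_or_ge n n' with h | h
    · obtain rfl : n' = n + 1 := by omega
      have h1 := SawF_succ n (3 * ((2 ^ j : ℕ) : ℤ) - 2)
      rw [sub_add_cancel] at h1
      exact h1.trans (mul_le_mul_right hT1 _)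
    · obtain rfl : n' = n := by omega
      refine (gf_mono ?_).trans (hT1.trans ?_)
      · rintro t ⟨ht, d, hd, h⟩
        exact ⟨ht, d, hd, by omega⟩
      · calc T = 1 * T := (one_mul T).symm
          _ ≤ 2 * T := mul_le_mul_left (by norm_num) _
  rw [← hT]
  have h1 : ENNReal.ofReal c2 * nuX m k ≤ 2 * T := hG3.trans hGT
  have h2 : ENNReal.ofReal c2 = 2 * ENNReal.ofReal (c2 / 2) := by
    rw [show (2 : ℝ≥0∞) = ENNReal.ofReal 2 by norm_num, ← ENNReal.ofReal_mul (by norm_num)]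
    congr 1
    ring
  rw [h2, mul_assoc] at h1
  exact (ENNReal.mul_le_mul_iff_right (by norm_num) (by norm_num)).1 h1

end EN

end HexObs
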