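import Pool.Agent.EN.EspM
import Pool.Agent.EN.BigX
import Pool.Agent.NTA.FinM

/-!
EN: the facts about the walks with exactly n letters, for the mean length of the bridges (all fields of FactsX).
-/

set_option autoImplicit false

namespace HexObs

namespace EN

open Finset TS SDN NTW NTA

open scoped ENNReal

/-- the tail of the half plane words -/
theorem ht_M : NTA.HT (fun k => PW.mZ (2 ^ k)) := halfT mlow_M (longQ mlow_M mup_M tb_M)

theorem indB_M : BrL.IndB := indB_of tb_M c1_M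

/-- the Hoelder modulus of small exponents -/
theorem holdX_G (hG : OutGeoP) : HoldX (fun k => PW.mZ (2 ^ k)) (1 / 2) := by
  obtain ⟨C, hC, h⟩ := mg_M
  exact holdX_of mlow_M emo_M (espw_G hG) (K := C) (c := 3 / 2) (by linarith) h (by norm_num) (by norm_num)

/-- the Hoelder modulus of every exponent below 3 / 4, from the exact order of the mean length -/
theorem holdX_G43 (hG : OutGeoP) (hlo : ∃ c : ℝ, 0 < c ∧ ∀ k : ℕ, c * 2 ^ (4 / 3 * (k : ℝ)) ≤ PW.mZ (2 ^ k))
    (hup : ∃ C : ℝ, 0 < C ∧ ∀ k : ℕ, PW.mZ (2 ^ k) ≤ C * 2 ^ (4 / 3 * (k : ℝ))) {a : ℝ} (ha : 0 < a) (ha2 : a < 3 / 4) :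
    HoldX (fun k => PW.mZ (2 ^ k)) a := by
  obtain ⟨c, hc, hlo⟩ := hlo
  obtain ⟨C, hC, hup⟩ := hup
  refine holdX_of mlow_M emo_M (espw_G hG) (K := C / c) (c := 4 / 3) (by positivity) (fun k j => ?_) ha (by linarith)
  show PW.mZ (2 ^ (k + j)) ≤ C / c * 2 ^ (4 / 3 * (j : ℝ)) * PW.mZ (2 ^ k)
  calc PW.mZ (2 ^ (k + j)) ≤ C * 2 ^ (4 / 3 * ((k + j : ℕ) : ℝ)) := hup (k + j)
    _ = C / c * 2 ^ (4 / 3 * (j : ℝ)) * (c * 2 ^ (4 / 3 * (k : ℝ))) := by
        push_cast
        rw [mul_add, Real.rpow_add (by norm_num)]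
        field_simp
    _ ≤ _ := by
        have := hlo k
        gcongr

/-- **the facts about the walks with exactly n letters** -/
theorem factsX_G (hG : OutGeoP) : FactsX (fun k => PW.mZ (2 ^ k)) := by
  refine ⟨big_of mlow_M mup_M tb_M ht_M indB_M, allX_G hG, ?_, modu_of_hold mlow_M (by norm_num) (holdX_G hG)⟩
  exact tail_fact (espw_G hG) (allX_G hG)

end EN

end HexObs
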