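import Pool.Agent.EN.TailP

/-!
EN (every number of steps), the tail of the displacement L n ^ (3 / 4): the lower side in the whole range
0 ≤ L ≤ (√3 / 2) n ^ (1 / 4), where the event is not empty (zigzag walks), and both sides together.
-/

set_option autoImplicit false

namespace NTSZ

open Finset

open Pool.Agent.NTS.Res

open NTSF (saw_card_pos pos_zero pos_succ mem_saw)

open scoped Classical

/-! ### 1. The zigzag walk -/

/-- the component in the direction of the zigzag -/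
noncomputable def fz (z : ℂ) : ℝ := Real.sqrt 3 / 2 * z.re - 1 / 2 * z.im

lemma fz_le (z : ℂ) : fz z ≤ ‖z‖ := by
  have h3 : Real.sqrt 3 ^ 2 = 3 := Real.sq_sqrt (by norm_num)
  have h1 : fz z ^ 2 ≤ ‖z‖ ^ 2 := by
    rw [← Complex.normSq_eq_norm_sq, Complex.normSq_apply]
    unfold fz
    nlinarith [sq_nonneg (1 / 2 * z.re + Real.sqrt 3 / 2 * z.im)]
  exact le_of_sq_le_sq h1 (norm_nonneg z)

lemma fz_add (z w : ℂ) : fz (z + w) = fz z + fz w := by
  unfold fz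
  rw [Complex.add_re, Complex.add_im]
  ring

/-- the zigzag -/
def zig (n : ℕ) : Fin n → Fin 3 := fun i => if Even (i : ℕ) then 0 else 1

lemma fz_step (i : ℕ) : fz (step i (if Even i then 0 else 1)) = Real.sqrt 3 / 2 := by
  have h3 : Real.sqrt 3 * Real.sqrt 3 = 3 := Real.mul_self_sqrt (by norm_num)
  rcases Nat.even_or_odd i with h | h
  · rw [if_pos h]
    have h1 : step i 0 = 1 := by
      unfold step
      rw [h.neg_one_pow]
      simp
    rw [h1]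
    unfold fz
    rw [Complex.one_re, Complex.one_im]
    ring
  · rw [if_neg (Nat.not_even_iff_odd.2 h)]
    have h1 : step i 1 = ((1 / 2 : ℝ) : ℂ) - ((Real.sqrt 3 / 2 : ℝ) : ℂ) * Complex.I := by
      unfold step
      rw [h.neg_one_pow]
      have e1 : 2 * (Real.pi : ℂ) * Complex.I * (((1 : Fin 3) : ℕ) : ℂ) / 3 = ((2 * Real.pi / 3 : ℝ) : ℂ) * Complex.I := by
        rw [show ((1 : Fin 3) : ℕ) = 1 from rfl]
        push_cast
        ring
      rw [e1, Complex.exp_mul_I, ← Complex.ofReal_cos, ← Complex.ofReal_sin]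
      have e2 : 2 * Real.pi / 3 = Real.pi - Real.pi / 3 := by ring
      rw [e2, Real.cos_pi_sub, Real.sin_pi_sub, Real.cos_pi_div_three, Real.sin_pi_div_three]
      push_cast
      ring
    rw [h1]
    unfold fz
    simp only [Complex.sub_re, Complex.sub_im, Complex.ofReal_re, Complex.ofReal_im, Complex.mul_re, Complex.mul_im,
      Complex.I_re, Complex.I_im]
    ring

lemma fz_zig {n : ℕ} {j : ℕ} (hj : j ≤ n) : fz (pos (zig n) j) = Real.sqrt 3 / 2 * j := by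
  induction j with
  | zero =>
    rw [pos_zero, Nat.cast_zero, mul_zero]
    unfold fz
    simp
  | succ j ih =>
    rw [pos_succ _ j (by omega), fz_add, ih (by omega)]
    have h1 : fz (step j (zig n ⟨j, by omega⟩)) = Real.sqrt 3 / 2 := fz_step j
    rw [h1]
    push_cast
    ring

lemma zig_mem (n : ℕ) : zig n ∈ saw n := by
  rw [mem_saw]
  intro j k hj hk h
  have h1 := congrArg fz h
  rw [fz_zig hj, fz_zig hk] at h1
  have h3 : 0 < Real.sqrt 3 / 2 := by positivity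
  have h4 := mul_left_cancel₀ h3.ne' h1
  exact_mod_cast h4

lemma zig_far (n : ℕ) : Real.sqrt 3 / 2 * n ≤ ‖pos (zig n) n‖ := by
  rw [← fz_zig le_rfl]
  exact fz_le _

/-- one walk in `3 ^ n` -/
lemma one_low {n : ℕ} {P : (Fin n → Fin 3) → Prop} (h : P (zig n)) :
    Real.exp (-(Real.log 3 * n)) * ((saw n).card : ℝ) ≤ (((saw n).filter P).card : ℝ) := by
  have h1 : (1 : ℝ) ≤ (((saw n).filter P).card : ℝ) := by
    have : 0 < ((saw n).filter P).card := Finset.card_pos.2 ⟨zig n, Finset.mem_filter.2 ⟨zig_mem n, h⟩⟩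
    exact_mod_cast this
  have h2 : ((saw n).card : ℝ) ≤ 3 ^ n := by
    have : (saw n).card ≤ 3 ^ n := by
      refine (Finset.card_le_univ _).trans (le_of_eq ?_)
      rw [Fintype.card_fun, Fintype.card_fin, Fintype.card_fin]
    exact_mod_cast this
  have h3 : Real.exp (-(Real.log 3 * n)) * 3 ^ n = 1 := by
    have : (3 : ℝ) ^ n = Real.exp (Real.log 3 * n) := by
      rw [Real.exp_mul, Real.exp_log (by norm_num), Real.rpow_natCast]
    rw [this, ← Real.exp_add, neg_add_cancel, Real.exp_zero]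
  calc Real.exp (-(Real.log 3 * n)) * ((saw n).card : ℝ) ≤ Real.exp (-(Real.log 3 * n)) * 3 ^ n :=
        mul_le_mul_of_nonneg_left h2 (Real.exp_nonneg _)
    _ = 1 := h3
    _ ≤ _ := h1

/-! ### 2. The whole range -/

/-- **lower side in the whole range** -/
theorem low_full {c1 C1 : ℝ} (hc1 : 0 < c1) (hC1 : 0 < C1) (h : ∀ n : ℕ, 1 ≤ n → ∀ L : ℝ, 1 ≤ L →
      L ≤ c1 * (n : ℝ) ^ (1 / 4 : ℝ) → Real.exp (-(C1 * L ^ 4)) * ((saw n).card : ℝ) ≤
        (((saw n).filter fun s => L * (n : ℝ) ^ (3 / 4 : ℝ) ≤ ‖pos s n‖).card : ℝ)) :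
    ∃ c C : ℝ, 0 < c ∧ 0 < C ∧ ∀ n : ℕ, 1 ≤ n → ∀ L : ℝ, 0 ≤ L → L ≤ Real.sqrt 3 / 2 * (n : ℝ) ^ (1 / 4 : ℝ) →
      c * Real.exp (-(C * L ^ 4)) * ((saw n).card : ℝ) ≤
        (((saw n).filter fun s => L * (n : ℝ) ^ (3 / 4 : ℝ) ≤ ‖pos s n‖).card : ℝ) := by
  have hl3 : 0 < Real.log 3 := Real.log_pos (by norm_num)
  obtain ⟨K, hK⟩ : ∃ K : ℝ, K = Real.log 3 / c1 ^ 4 := ⟨_, rfl⟩
  have hK0 : 0 < K := by rw [hK]; positivity
  refine ⟨Real.exp (-(C1 + K)), C1 + K, Real.exp_pos _, by positivity, fun n hn L hL0 hL => ?_⟩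
  obtain ⟨q3, q4, q1⟩ := quart n
  have hq0 : 0 ≤ (n : ℝ) ^ (1 / 4 : ℝ) := by positivity
  have hp0 : 0 ≤ (n : ℝ) ^ (3 / 4 : ℝ) := by positivity
  have hcard := saw_card_pos n
  have hL4 : 0 ≤ L ^ 4 := by positivity
  have hz : L * (n : ℝ) ^ (3 / 4 : ℝ) ≤ ‖pos (zig n) n‖ := by
    refine le_trans ?_ (zig_far n)
    calc L * (n : ℝ) ^ (3 / 4 : ℝ) ≤ Real.sqrt 3 / 2 * (n : ℝ) ^ (1 / 4 : ℝ) * (n : ℝ) ^ (3 / 4 : ℝ) :=
          mul_le_mul_of_nonneg_right hL hp0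
      _ = _ := by rw [mul_assoc, q1]
  have hone := one_low (P := fun s => L * (n : ℝ) ^ (3 / 4 : ℝ) ≤ ‖pos s n‖) hz
  have hmul : ∀ x : ℝ, x ≤ C1 + K + (C1 + K) * L ^ 4 →
      Real.exp (-x) * ((saw n).card : ℝ) ≤ (((saw n).filter fun s => L * (n : ℝ) ^ (3 / 4 : ℝ) ≤ ‖pos s n‖).card : ℝ) →
      Real.exp (-(C1 + K)) * Real.exp (-((C1 + K) * L ^ 4)) * ((saw n).card : ℝ) ≤
        (((saw n).filter fun s => L * (n : ℝ) ^ (3 / 4 : ℝ) ≤ ‖pos s n‖).card : ℝ) := by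
    intro x hx h1
    refine le_trans (mul_le_mul_of_nonneg_right ?_ hcard.le) h1
    rw [← Real.exp_add]
    exact Real.exp_le_exp.2 (by linarith)
  rcases le_or_gt L (c1 * (n : ℝ) ^ (1 / 4 : ℝ)) with h1 | h1
  · rcases le_or_gt 1 L with h2 | h2
    · exact hmul _ (by nlinarith) (h n hn L h2 h1)
    rcases le_or_gt 1 (c1 * (n : ℝ) ^ (1 / 4 : ℝ)) with h3 | h3
    · refine hmul (C1 * 1 ^ 4) (by nlinarith) ((h n hn 1 le_rfl h3).trans ?_)
      have hsub : ((saw n).filter fun s => 1 * (n : ℝ) ^ (3 / 4 : ℝ) ≤ ‖pos s n‖) ⊆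
          (saw n).filter fun s => L * (n : ℝ) ^ (3 / 4 : ℝ) ≤ ‖pos s n‖ := by
        intro s hs
        rw [Finset.mem_filter] at hs ⊢
        exact ⟨hs.1, (mul_le_mul_of_nonneg_right h2.le hp0).trans hs.2⟩
      exact_mod_cast Finset.card_le_card hsub
    · refine hmul _ ?_ hone
      have h4 : (n : ℝ) ≤ 1 / c1 ^ 4 := by
        rw [le_div_iff₀ (by positivity)]
        calc (n : ℝ) * c1 ^ 4 = (c1 * (n : ℝ) ^ (1 / 4 : ℝ)) ^ 4 := by
              rw [mul_pow, q4]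
              ring
          _ ≤ 1 := pow_le_one₀ (by positivity) h3.le
      have h5 : Real.log 3 * n ≤ K := by
        calc Real.log 3 * n ≤ Real.log 3 * (1 / c1 ^ 4) := mul_le_mul_of_nonneg_left h4 hl3.le
          _ = K := by rw [hK]; ring
      nlinarith
  · refine hmul _ ?_ hone
    have h4 : (n : ℝ) ≤ L ^ 4 / c1 ^ 4 := by
      rw [le_div_iff₀ (by positivity)]
      calc (n : ℝ) * c1 ^ 4 = (c1 * (n : ℝ) ^ (1 / 4 : ℝ)) ^ 4 := by
            rw [mul_pow, q4]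
            ring
        _ ≤ L ^ 4 := pow_le_pow_left₀ (by positivity) h1.le 4
    have h5 : Real.log 3 * n ≤ K * L ^ 4 := by
      calc Real.log 3 * n ≤ Real.log 3 * (L ^ 4 / c1 ^ 4) := mul_le_mul_of_nonneg_left h4 hl3.le
        _ = K * L ^ 4 := by rw [hK]; ring
    nlinarith

/-! ### 3. The final form -/

/-- the probability of `P` for the uniform self-avoiding walk with `n` steps -/
noncomputable def prb (n : ℕ) (P : (Fin n → Fin 3) → Prop) : ℝ := (((saw n).filter P).card : ℝ) / ((saw n).card : ℝ)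

lemma prb_le {n : ℕ} {P : (Fin n → Fin 3) → Prop} (i : DecidablePred P) {x : ℝ}
    (h : ((@Finset.filter _ P i (saw n)).card : ℝ) ≤ x * ((saw n).card : ℝ)) : prb n P ≤ x := by
  unfold prb
  rw [div_le_iff₀ (saw_card_pos n)]
  have e : i = fun a => Classical.propDecidable (P a) := Subsingleton.elim _ _
  rw [e] at h
  exact h

lemma le_prb {n : ℕ} {P : (Fin n → Fin 3) → Prop} (i : DecidablePred P) {x : ℝ}
    (h : x * ((saw n).card : ℝ) ≤ ((@Finset.filter _ P i (saw n)).card : ℝ)) : x ≤ prb n P := by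
  unfold prb
  rw [le_div_iff₀ (saw_card_pos n)]
  have e : i = fun a => Classical.propDecidable (P a) := Subsingleton.elim _ _
  rw [e] at h
  exact h

/-- **both sides of the tail, whole range** -/
theorem fisher_of (hlow : ∃ c C : ℝ, 0 < c ∧ 0 < C ∧ ∀ n : ℕ, 1 ≤ n → ∀ L : ℝ, 1 ≤ L →
      L ≤ c * (n : ℝ) ^ (1 / 4 : ℝ) → Real.exp (-(C * L ^ 4)) * ((saw n).card : ℝ) ≤
        (((saw n).filter fun s => L * (n : ℝ) ^ (3 / 4 : ℝ) ≤ ‖pos s n‖).card : ℝ))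
    (hupp : ∃ c C : ℝ, 0 < c ∧ 0 < C ∧ ∀ n : ℕ, 1 ≤ n → ∀ L : ℝ, 0 ≤ L →
      (((saw n).filter fun s => ∃ j, j ≤ n ∧ L * (n : ℝ) ^ (3 / 4 : ℝ) ≤ ‖pos s j‖).card : ℝ) ≤
        C * Real.exp (-(c * L ^ 4)) * ((saw n).card : ℝ)) :
    ∃ c C : ℝ, 0 < c ∧ 0 < C ∧ ∀ n : ℕ, 1 ≤ n → ∀ L : ℝ, 0 ≤ L →
      prb n (fun s => ∃ j, j ≤ n ∧ L * (n : ℝ) ^ (3 / 4 : ℝ) ≤ ‖pos s j‖) ≤ C * Real.exp (-(c * L ^ 4)) ∧
      (L ≤ Real.sqrt 3 / 2 * (n : ℝ) ^ (1 / 4 : ℝ) →
        c * Real.exp (-(C * L ^ 4)) ≤ prb n (fun s => L * (n : ℝ) ^ (3 / 4 : ℝ) ≤ ‖pos s n‖)) := by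
  obtain ⟨c0, C0, hc0, hC0, h0⟩ := hlow
  obtain ⟨c1, C1, hc1, hC1, h1⟩ := low_full hc0 hC0 h0
  obtain ⟨c2, C2, hc2, hC2, h2⟩ := hupp
  refine ⟨min c1 c2, max C1 C2, lt_min hc1 hc2, lt_max_of_lt_left hC1, fun n hn L hL => ?_⟩
  have hcard := saw_card_pos n
  have hL4 : 0 ≤ L ^ 4 := by positivity
  constructor
  · refine prb_le _ ((h2 n hn L hL).trans (mul_le_mul_of_nonneg_right ?_ hcard.le))
    refine mul_le_mul (le_max_right _ _) (Real.exp_le_exp.2 ?_) (Real.exp_nonneg _) (hC2.le.trans (le_max_right _ _))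
    have := mul_le_mul_of_nonneg_right (min_le_right c1 c2) hL4
    linarith
  · intro hL2
    refine le_prb _ (le_trans (mul_le_mul_of_nonneg_right ?_ hcard.le) (h1 n hn L hL hL2))
    refine mul_le_mul (min_le_left _ _) (Real.exp_le_exp.2 ?_) (Real.exp_nonneg _) hc1.le
    have := mul_le_mul_of_nonneg_right (le_max_left C1 C2) hL4
    linarith

end NTSZ
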