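import Pool.Agent.NTS.ResultX
import Pool.Agent.MS.ResSizes

/-!
EN (every number of steps): the sizes of the uniform n-step walk (end-to-end distance, radius of gyration, distance of a
monomer from the ends) are of the order n ^ (3 / 2) up to constants, from the facts about the walks with n letters.
-/

set_option autoImplicit false

namespace NTSZ

open Finset

open Pool.Agent.NTS.Res

open NTSF (saw_card_pos size_sq size_pos size_nonneg FactsQ pos_zero pos_ne mem_saw saw_nonempty)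

open scoped ENNReal Classical

/-! ### 1. The largest distance from the origin -/

/-- the largest distance from the origin -/
noncomputable def far {n : ℕ} (s : Fin n → Fin 3) : ℝ :=
  (range (n + 1)).sup' nonempty_range_add_one fun j => ‖pos s j‖

lemma le_far {n : ℕ} (s : Fin n → Fin 3) {j : ℕ} (hj : j ≤ n) : ‖pos s j‖ ≤ far s :=
  le_sup' (fun j => ‖pos s j‖) (mem_range.2 (by omega))

lemma far_nonneg {n : ℕ} (s : Fin n → Fin 3) : 0 ≤ far s := (norm_nonneg _).trans (le_far s (Nat.zero_le n))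

lemma exists_far {n : ℕ} (s : Fin n → Fin 3) : ∃ j, j ≤ n ∧ far s = ‖pos s j‖ := by
  obtain ⟨j, hj, h⟩ := exists_mem_eq_sup' (nonempty_range_add_one (n := n)) fun j => ‖pos s j‖
  exact ⟨j, by rw [mem_range] at hj; omega, h⟩

section

variable {n : ℕ} {R : ℝ} {f : (Fin n → Fin 3) → ℝ}

/-- the fourth moment from the tail -/
theorem four_gen (hf : ∀ s, 0 ≤ f s) (hR : 0 < R) {K : ℝ} (hK : 0 ≤ K)
    (h : ∀ i : ℕ, (((saw n).filter fun s => 2 ^ i * R ≤ f s).card : ℝ) ≤ K / 32 ^ i * ((saw n).card : ℝ)) :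
    ∑ s ∈ saw n, f s ^ 4 ≤ (1 + 32 * K) * R ^ 4 * ((saw n).card : ℝ) := by
  obtain ⟨I, hI⟩ : ∃ I : ℕ, ∀ s ∈ saw n, f s / R < 2 ^ I := by
    obtain ⟨M, hM⟩ : ∃ M : ℝ, ∀ s ∈ saw n, f s / R ≤ M :=
      ⟨∑ s ∈ saw n, f s / R, fun s hs =>
        single_le_sum (f := fun s => f s / R) (fun s _ => div_nonneg (hf s) hR.le) hs⟩
    obtain ⟨I, hI⟩ := pow_unbounded_of_one_lt M (one_lt_two (α := ℝ))
    exact ⟨I, fun s hs => (hM s hs).trans_lt hI⟩
  have h1 : ∑ s ∈ saw n, (f s / R) ^ 4 ≤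
      ∑ s ∈ saw n, (1 + 16 * ∑ i ∈ range I, 16 ^ i * (if 2 ^ i ≤ f s / R then (1 : ℝ) else 0)) :=
    sum_le_sum fun s hs => NTF.layer (div_nonneg (hf s) hR.le) I (hI s hs)
  have h2 : ∑ s ∈ saw n, (1 + 16 * ∑ i ∈ range I, 16 ^ i * (if 2 ^ i ≤ f s / R then (1 : ℝ) else 0)) =
      ((saw n).card : ℝ) + 16 * ∑ i ∈ range I, 16 ^ i *
        (((saw n).filter fun s => 2 ^ i * R ≤ f s).card : ℝ) := by
    rw [sum_add_distrib, sum_const, nsmul_eq_mul, mul_one, ← mul_sum, sum_comm]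
    congr 2
    apply sum_congr rfl
    intro i _
    rw [← mul_sum]
    congr 1
    rw [card_filter]
    push_cast
    apply sum_congr rfl
    intro s _
    simp only [le_div_iff₀ hR]
  have h3 : ∑ i ∈ range I, (16 : ℝ) ^ i * (((saw n).filter fun s => 2 ^ i * R ≤ f s).card : ℝ) ≤
      2 * K * ((saw n).card : ℝ) := by
    calc _ ≤ ∑ i ∈ range I, (16 : ℝ) ^ i * (K / 32 ^ i * ((saw n).card : ℝ)) :=
          sum_le_sum fun i _ => mul_le_mul_of_nonneg_left (h i) (by positivity)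
      _ = (∑ i ∈ range I, (16 : ℝ) ^ i * (K / 32 ^ i)) * ((saw n).card : ℝ) := by
          rw [sum_mul]
          exact sum_congr rfl fun i _ => by ring
      _ ≤ _ := mul_le_mul_of_nonneg_right (NTF.geo I K hK) (Nat.cast_nonneg _)
  rw [h2] at h1
  have h4 : ∑ s ∈ saw n, f s ^ 4 = R ^ 4 * ∑ s ∈ saw n, (f s / R) ^ 4 := by
    rw [mul_sum]
    apply sum_congr rfl
    intro s _
    rw [div_pow]
    field_simp
  rw [h4]
  have h5 : (0 : ℝ) < R ^ 4 := by positivity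
  nlinarith

/-- the second moment from the tail -/
theorem two_gen (hf : ∀ s, 0 ≤ f s) (hR : 0 < R) {K : ℝ} (hK : 0 ≤ K)
    (h : ∀ i : ℕ, (((saw n).filter fun s => 2 ^ i * R ≤ f s).card : ℝ) ≤ K / 32 ^ i * ((saw n).card : ℝ)) :
    ∑ s ∈ saw n, f s ^ 2 ≤ (2 + 32 * K) * R ^ 2 * ((saw n).card : ℝ) := by
  have h1 := four_gen hf hR hK h
  have h2 : R ^ 2 * ∑ s ∈ saw n, f s ^ 2 ≤ R ^ 4 * ((saw n).card : ℝ) + ∑ s ∈ saw n, f s ^ 4 := by
    rw [mul_sum]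
    calc ∑ s ∈ saw n, R ^ 2 * f s ^ 2 ≤ ∑ s ∈ saw n, (R ^ 4 + f s ^ 4) :=
          sum_le_sum fun s _ => by nlinarith [sq_nonneg (R ^ 2 - f s ^ 2), sq_nonneg (R ^ 2), sq_nonneg (f s ^ 2)]
      _ = _ := by
        rw [sum_add_distrib, sum_const, nsmul_eq_mul]
        ring
  have hR2 : (0 : ℝ) < R ^ 2 := by positivity
  refine le_of_mul_le_mul_left ?_ hR2
  calc R ^ 2 * ∑ s ∈ saw n, f s ^ 2 ≤ R ^ 4 * ((saw n).card : ℝ) + (1 + 32 * K) * R ^ 4 * ((saw n).card : ℝ) :=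
        h2.trans (by linarith)
    _ = _ := by ring

end

/-! ### 2. The three sizes of one walk -/

/-- the squared radius of gyration -/
noncomputable def Gy {n : ℕ} (s : Fin n → Fin 3) : ℝ :=
  1 / (2 * ((n : ℝ) + 1) ^ 2) * ∑ i ∈ range (n + 1), ∑ j ∈ range (n + 1), ‖pos s i - pos s j‖ ^ 2

/-- the squared distance of a monomer from the ends -/
noncomputable def Mo {n : ℕ} (s : Fin n → Fin 3) : ℝ :=
  1 / (2 * ((n : ℝ) + 1)) * ∑ i ∈ range (n + 1), (‖pos s i‖ ^ 2 + ‖pos s i - pos s n‖ ^ 2)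

/-- the mean -/
noncomputable def mn (n : ℕ) (f : (Fin n → Fin 3) → ℝ) : ℝ := (∑ s ∈ saw n, f s) / ((saw n).card : ℝ)

lemma mn_mono {n : ℕ} {f g : (Fin n → Fin 3) → ℝ} (h : ∀ s ∈ saw n, f s ≤ g s) : mn n f ≤ mn n g := by
  unfold mn
  exact div_le_div_of_nonneg_right (sum_le_sum h) (Nat.cast_nonneg _)

lemma mn_pos {n : ℕ} {f : (Fin n → Fin 3) → ℝ} (h : ∀ s ∈ saw n, 0 < f s) : 0 < mn n f := by
  unfold mn
  exact div_pos (sum_pos h (saw_nonempty n)) (saw_card_pos n)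

lemma mn_mul {n : ℕ} {f : (Fin n → Fin 3) → ℝ} (c : ℝ) : mn n (fun s => c * f s) = c * mn n f := by
  unfold mn
  rw [← mul_sum, mul_div_assoc]

lemma mn_end (n : ℕ) : mn n (fun s => ‖pos s n‖ ^ 2) = size n ^ 2 := by
  unfold mn
  rw [div_eq_iff (saw_card_pos n).ne', size_sq]

lemma sub_far {n : ℕ} (s : Fin n → Fin 3) {i j : ℕ} (hi : i ≤ n) (hj : j ≤ n) :
    ‖pos s i - pos s j‖ ^ 2 ≤ 4 * far s ^ 2 := by
  have h1 : ‖pos s i - pos s j‖ ≤ 2 * far s := by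
    have := norm_sub_le (pos s i) (pos s j)
    have h2 := le_far s hi
    have h3 := le_far s hj
    linarith
  calc ‖pos s i - pos s j‖ ^ 2 ≤ (2 * far s) ^ 2 := pow_le_pow_left₀ (norm_nonneg _) h1 2
    _ = _ := by ring

lemma Gy_le {n : ℕ} (s : Fin n → Fin 3) : Gy s ≤ 2 * far s ^ 2 := by
  have hn : (0 : ℝ) < (n : ℝ) + 1 := by positivity
  have h1 : ∑ i ∈ range (n + 1), ∑ j ∈ range (n + 1), ‖pos s i - pos s j‖ ^ 2 ≤
      ((n : ℝ) + 1) ^ 2 * (4 * far s ^ 2) := by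
    calc ∑ i ∈ range (n + 1), ∑ j ∈ range (n + 1), ‖pos s i - pos s j‖ ^ 2
        ≤ ∑ i ∈ range (n + 1), ∑ j ∈ range (n + 1), 4 * far s ^ 2 :=
          sum_le_sum fun i hi => sum_le_sum fun j hj =>
            sub_far s (by rw [mem_range] at hi; omega) (by rw [mem_range] at hj; omega)
      _ = _ := by
          simp only [sum_const, card_range, nsmul_eq_mul]
          push_cast
          ring
  unfold Gy
  calc 1 / (2 * ((n : ℝ) + 1) ^ 2) * ∑ i ∈ range (n + 1), ∑ j ∈ range (n + 1), ‖pos s i - pos s j‖ ^ 2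
      ≤ 1 / (2 * ((n : ℝ) + 1) ^ 2) * (((n : ℝ) + 1) ^ 2 * (4 * far s ^ 2)) :=
        mul_le_mul_of_nonneg_left h1 (by positivity)
    _ = _ := by
        field_simp
        ring

lemma Mo_le {n : ℕ} (s : Fin n → Fin 3) : Mo s ≤ 3 * far s ^ 2 := by
  have hn : (0 : ℝ) < (n : ℝ) + 1 := by positivity
  have h1 : ∑ i ∈ range (n + 1), (‖pos s i‖ ^ 2 + ‖pos s i - pos s n‖ ^ 2) ≤ ((n : ℝ) + 1) * (5 * far s ^ 2) := by
    calc ∑ i ∈ range (n + 1), (‖pos s i‖ ^ 2 + ‖pos s i - pos s n‖ ^ 2)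
        ≤ ∑ i ∈ range (n + 1), 5 * far s ^ 2 := by
          refine sum_le_sum fun i hi => ?_
          have hi' : i ≤ n := by
            rw [mem_range] at hi
            omega
          have h2 := sub_far s hi' le_rfl
          have h3 := pow_le_pow_left₀ (norm_nonneg _) (le_far s hi') 2
          linarith
      _ = _ := by
          simp only [sum_const, card_range, nsmul_eq_mul]
          push_cast
          ring
  unfold Mo
  calc 1 / (2 * ((n : ℝ) + 1)) * ∑ i ∈ range (n + 1), (‖pos s i‖ ^ 2 + ‖pos s i - pos s n‖ ^ 2)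
      ≤ 1 / (2 * ((n : ℝ) + 1)) * (((n : ℝ) + 1) * (5 * far s ^ 2)) := mul_le_mul_of_nonneg_left h1 (by positivity)
    _ = 5 / 2 * far s ^ 2 := by
        field_simp
    _ ≤ _ := by
        have := sq_nonneg (far s)
        linarith

lemma Mo_ge {n : ℕ} (s : Fin n → Fin 3) : 1 / 4 * ‖pos s n‖ ^ 2 ≤ Mo s := by
  have hn : (0 : ℝ) < (n : ℝ) + 1 := by positivity
  have h1 : ((n : ℝ) + 1) * (1 / 2 * ‖pos s n‖ ^ 2) ≤
      ∑ i ∈ range (n + 1), (‖pos s i‖ ^ 2 + ‖pos s i - pos s n‖ ^ 2) := by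
    calc ((n : ℝ) + 1) * (1 / 2 * ‖pos s n‖ ^ 2) = ∑ i ∈ range (n + 1), 1 / 2 * ‖pos s n‖ ^ 2 := by
          simp only [sum_const, card_range, nsmul_eq_mul]
          push_cast
          ring
      _ ≤ _ := by
          refine sum_le_sum fun i _ => ?_
          have h2 : ‖pos s n‖ ≤ ‖pos s i‖ + ‖pos s i - pos s n‖ := by
            have := norm_sub_le (pos s i) (pos s i - pos s n)
            rwa [sub_sub_cancel] at this
          have h3 := pow_le_pow_left₀ (norm_nonneg _) h2 2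
          nlinarith [sq_nonneg (‖pos s i‖ - ‖pos s i - pos s n‖)]
  unfold Mo
  calc 1 / 4 * ‖pos s n‖ ^ 2 = 1 / (2 * ((n : ℝ) + 1)) * (((n : ℝ) + 1) * (1 / 2 * ‖pos s n‖ ^ 2)) := by
        field_simp
        ring
    _ ≤ _ := mul_le_mul_of_nonneg_left h1 (by positivity)

lemma Gy_pos {n : ℕ} (hn : 1 ≤ n) {s : Fin n → Fin 3} (hs : s ∈ saw n) : 0 < Gy s := by
  have h1 := pos_ne hn hs
  have h2 : ‖pos s n - pos s 0‖ ^ 2 ≤ ∑ i ∈ range (n + 1), ∑ j ∈ range (n + 1), ‖pos s i - pos s j‖ ^ 2 := by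
    refine le_trans (single_le_sum (f := fun j => ‖pos s n - pos s j‖ ^ 2) (fun _ _ => by positivity)
      (mem_range.2 (Nat.succ_pos n))) ?_
    exact single_le_sum (f := fun i => ∑ j ∈ range (n + 1), ‖pos s i - pos s j‖ ^ 2)
      (fun _ _ => sum_nonneg fun _ _ => by positivity) (mem_range.2 (Nat.lt_succ_self n))
  rw [pos_zero, sub_zero] at h2
  unfold Gy
  have h3 : 0 < ‖pos s n‖ ^ 2 := by positivity
  exact mul_pos (by positivity) (h3.trans_le h2)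

/-! ### 3. The radius of gyration from below -/

/-- Paley and Zygmund: a fraction of the walks ends far away -/
lemma many_far {n : ℕ} (hn : 1 ≤ n) {C : ℝ} (hC : 0 < C)
    (h4 : ∑ s ∈ saw n, ‖pos s n‖ ^ 4 ≤ C * size n ^ 4 * ((saw n).card : ℝ)) :
    1 / (4 * C) * ((saw n).card : ℝ) ≤ (((saw n).filter fun s => 1 / 2 * size n ^ 2 < ‖pos s n‖ ^ 2).card : ℝ) := by
  have hc := saw_card_pos n
  have hs := size_pos hn
  obtain ⟨G, hG⟩ : ∃ G, G = (saw n).filter fun s => 1 / 2 * size n ^ 2 < ‖pos s n‖ ^ 2 := ⟨_, rfl⟩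
  have h1 : ∑ s ∈ saw n, ‖pos s n‖ ^ 2 ≤ 1 / 2 * size n ^ 2 * ((saw n).card : ℝ) + ∑ s ∈ G, ‖pos s n‖ ^ 2 := by
    rw [← sum_filter_add_sum_filter_not (saw n) (fun s => 1 / 2 * size n ^ 2 < ‖pos s n‖ ^ 2), ← hG, add_comm]
    refine add_le_add ?_ le_rfl
    calc ∑ s ∈ (saw n).filter (fun s => ¬ 1 / 2 * size n ^ 2 < ‖pos s n‖ ^ 2), ‖pos s n‖ ^ 2
        ≤ ∑ s ∈ (saw n).filter (fun s => ¬ 1 / 2 * size n ^ 2 < ‖pos s n‖ ^ 2), 1 / 2 * size n ^ 2 :=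
          sum_le_sum fun s hs => not_lt.1 (mem_filter.1 hs).2
      _ ≤ ∑ s ∈ saw n, 1 / 2 * size n ^ 2 :=
          sum_le_sum_of_subset_of_nonneg (filter_subset _ _) fun _ _ _ => by positivity
      _ = _ := by
          rw [sum_const, nsmul_eq_mul]
          ring
  rw [← size_sq] at h1
  have h2 : 1 / 2 * size n ^ 2 * ((saw n).card : ℝ) ≤ ∑ s ∈ G, ‖pos s n‖ ^ 2 := by linarith
  have h3 : (∑ s ∈ G, ‖pos s n‖ ^ 2) ^ 2 ≤ (G.card : ℝ) * ∑ s ∈ G, (‖pos s n‖ ^ 2) ^ 2 := sq_sum_le_card_mul_sum_sq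
  have h5 : ∑ s ∈ G, (‖pos s n‖ ^ 2) ^ 2 ≤ C * size n ^ 4 * ((saw n).card : ℝ) := by
    refine le_trans ?_ h4
    rw [hG]
    calc _ ≤ ∑ s ∈ saw n, (‖pos s n‖ ^ 2) ^ 2 :=
          sum_le_sum_of_subset_of_nonneg (filter_subset _ _) fun _ _ _ => by positivity
      _ = _ := sum_congr rfl fun s _ => by ring
  have h6 : (1 / 2 * size n ^ 2 * ((saw n).card : ℝ)) ^ 2 ≤ (G.card : ℝ) * (C * size n ^ 4 * ((saw n).card : ℝ)) :=
    (pow_le_pow_left₀ (by positivity) h2 2).trans (h3.trans (mul_le_mul_of_nonneg_left h5 (Nat.cast_nonneg _)))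
  rw [← hG]
  have hp : 0 < C * size n ^ 4 * ((saw n).card : ℝ) := by positivity
  refine le_of_mul_le_mul_right ?_ hp
  refine le_trans (le_of_eq ?_) h6
  field_simp
  ring

/-- the number of the first steps -/
lemma card_first {n : ℕ} {ρ : ℝ} (hρ : 0 < ρ) (hρ1 : ρ ≤ 1) :
    ρ * n ≤ (((range (n + 1)).filter fun i : ℕ => (i : ℝ) ≤ ρ * n).card : ℝ) := by
  have h1 : range (⌊ρ * n⌋₊ + 1) ⊆ (range (n + 1)).filter fun i : ℕ => (i : ℝ) ≤ ρ * n := by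
    intro i hi
    rw [mem_range] at hi
    have h2 : (i : ℝ) ≤ ρ * n := by
      have h3 : (i : ℝ) ≤ (⌊ρ * n⌋₊ : ℝ) := by exact_mod_cast (by omega : i ≤ ⌊ρ * n⌋₊)
      exact h3.trans (Nat.floor_le (by positivity))
    refine mem_filter.2 ⟨mem_range.2 ?_, h2⟩
    have h4 : (i : ℝ) ≤ n := h2.trans (by
      have : (0 : ℝ) ≤ n := Nat.cast_nonneg n
      nlinarith)
    have h5 : i ≤ n := by exact_mod_cast h4
    omega
  have h2 := card_le_card h1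
  rw [card_range] at h2
  calc ρ * n ≤ (⌊ρ * n⌋₊ : ℝ) + 1 := (Nat.lt_floor_add_one _).le
    _ ≤ _ := by exact_mod_cast h2

/-- the number of the last steps -/
lemma card_last {n : ℕ} {ρ : ℝ} (hρ : 0 < ρ) (hρ1 : ρ ≤ 1) :
    ρ * n ≤ (((range (n + 1)).filter fun j : ℕ => (n : ℝ) - j ≤ ρ * n).card : ℝ) := by
  refine (card_first hρ hρ1).trans ?_
  have h1 : ((range (n + 1)).filter fun i : ℕ => (i : ℝ) ≤ ρ * n).card ≤
      ((range (n + 1)).filter fun j : ℕ => (n : ℝ) - j ≤ ρ * n).card := by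
    refine card_le_card_of_injOn (fun i => n - i) ?_ ?_
    · intro i hi
      rw [mem_coe, mem_filter, mem_range] at hi
      show n - i ∈ (((range (n + 1)).filter fun j : ℕ => (n : ℝ) - j ≤ ρ * n : Finset ℕ) : Set ℕ)
      rw [mem_coe, mem_filter, mem_range]
      refine ⟨by omega, ?_⟩
      rw [Nat.cast_sub (by omega)]
      linarith [hi.2]
    · intro i hi j hj hij
      rw [mem_coe, mem_filter, mem_range] at hi hj
      simp only at hij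
      omega
  exact_mod_cast h1

/-- the radius of gyration of one walk -/
lemma Gy_ge {n : ℕ} (hn : 1 ≤ n) {s : Fin n → Fin 3} {ρ L : ℝ} (hρ : 0 < ρ) (hρ1 : ρ ≤ 1) (hL : 0 ≤ L)
    (h : ∀ i j : ℕ, i ≤ n → j ≤ n → (i : ℝ) ≤ ρ * n → (n : ℝ) - j ≤ ρ * n → L ≤ ‖pos s i - pos s j‖) :
    ρ ^ 2 / 8 * L ^ 2 ≤ Gy s := by
  have hn' : (1 : ℝ) ≤ n := by exact_mod_cast hn
  obtain ⟨A, hA⟩ : ∃ A, A = (range (n + 1)).filter fun i : ℕ => (i : ℝ) ≤ ρ * n := ⟨_, rfl⟩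
  obtain ⟨B, hB⟩ : ∃ B, B = (range (n + 1)).filter fun j : ℕ => (n : ℝ) - j ≤ ρ * n := ⟨_, rfl⟩
  have hcA : ρ * n ≤ (A.card : ℝ) := by
    rw [hA]
    exact card_first hρ hρ1
  have hcB : ρ * n ≤ (B.card : ℝ) := by
    rw [hB]
    exact card_last hρ hρ1
  have h1 : (A.card : ℝ) * ((B.card : ℝ) * L ^ 2) ≤
      ∑ i ∈ range (n + 1), ∑ j ∈ range (n + 1), ‖pos s i - pos s j‖ ^ 2 := by
    calc (A.card : ℝ) * ((B.card : ℝ) * L ^ 2) = ∑ i ∈ A, ∑ j ∈ B, L ^ 2 := by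
          rw [sum_const, sum_const, nsmul_eq_mul, nsmul_eq_mul]
      _ ≤ ∑ i ∈ A, ∑ j ∈ B, ‖pos s i - pos s j‖ ^ 2 := by
          refine sum_le_sum fun i hi => sum_le_sum fun j hj => ?_
          rw [hA, mem_filter, mem_range] at hi
          rw [hB, mem_filter, mem_range] at hj
          exact pow_le_pow_left₀ hL (h i j (by omega) (by omega) hi.2 hj.2) 2
      _ ≤ ∑ i ∈ A, ∑ j ∈ range (n + 1), ‖pos s i - pos s j‖ ^ 2 := by
          refine sum_le_sum fun i _ => ?_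
          rw [hB]
          exact sum_le_sum_of_subset_of_nonneg (filter_subset _ _) fun _ _ _ => by positivity
      _ ≤ _ := by
          rw [hA]
          exact sum_le_sum_of_subset_of_nonneg (filter_subset _ _) fun _ _ _ => sum_nonneg fun _ _ => by positivity
  have h2 : (ρ * n) * ((ρ * n) * L ^ 2) ≤ (A.card : ℝ) * ((B.card : ℝ) * L ^ 2) := by
    have h3 : (0 : ℝ) ≤ ρ * n := by positivity
    gcongr
  unfold Gy
  calc ρ ^ 2 / 8 * L ^ 2 = 1 / (2 * (2 * (n : ℝ)) ^ 2) * ((ρ * n) * ((ρ * n) * L ^ 2)) := by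
        field_simp
        ring
    _ ≤ 1 / (2 * ((n : ℝ) + 1) ^ 2) * ((ρ * n) * ((ρ * n) * L ^ 2)) := by
        have h3 : (n : ℝ) + 1 ≤ 2 * n := by linarith
        gcongr
    _ ≤ _ := mul_le_mul_of_nonneg_left (h2.trans h1) (by positivity)

/-- **the radius of gyration is at least a fraction of the end-to-end distance** -/
theorem gyr_ge (hA : FactsQ) : ∃ (c : ℝ) (n0 : ℕ), 0 < c ∧ ∀ n : ℕ, n0 ≤ n → c * size n ^ 2 ≤ mn n Gy := by
  obtain ⟨C, n1, hC, h4⟩ := hA.four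
  obtain ⟨ρ0, n2, hρ0, hmod⟩ := hA.mod (1 / (8 * C)) (1 / 8) (by positivity) (by norm_num)
  obtain ⟨ρ, hρ⟩ : ∃ ρ : ℝ, ρ = min ρ0 1 := ⟨_, rfl⟩
  have hρp : 0 < ρ := by
    rw [hρ]
    exact lt_min hρ0 one_pos
  have hρ1 : ρ ≤ 1 := by
    rw [hρ]
    exact min_le_right _ _
  have hρ2 : ρ ≤ ρ0 := by
    rw [hρ]
    exact min_le_left _ _
  refine ⟨1 / (8 * C) * (ρ ^ 2 / 8 * (1 / 4) ^ 2), max (max n1 n2) 1, by positivity, fun n hn => ?_⟩
  have hn1 : 1 ≤ n := le_of_max_le_right hn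
  have hc := saw_card_pos n
  have hs := size_pos hn1
  have a1 := many_far hn1 hC (h4 n ((le_max_left _ _).trans (le_of_max_le_left hn)))
  have a2 := hmod n ((le_max_right _ _).trans (le_of_max_le_left hn))
  obtain ⟨G, hG⟩ : ∃ G, G = (saw n).filter fun s => 1 / 2 * size n ^ 2 < ‖pos s n‖ ^ 2 := ⟨_, rfl⟩
  obtain ⟨B, hB⟩ : ∃ B, B = (saw n).filter fun s => ∃ i j : ℕ, i ≤ j ∧ j ≤ n ∧ (j : ℝ) - i ≤ ρ0 * n ∧
      1 / 8 * size n < ‖pos s j - pos s i‖ := ⟨_, rfl⟩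
  rw [← hG] at a1
  rw [← hB] at a2
  have a3 : 1 / (8 * C) * ((saw n).card : ℝ) ≤ ((G \ B).card : ℝ) := by
    have h5 : G.card ≤ (G \ B).card + B.card := by
      have := card_le_card_sdiff_add_card (s := G) (t := B)
      omega
    have h6 : (G.card : ℝ) ≤ ((G \ B).card : ℝ) + (B.card : ℝ) := by exact_mod_cast h5
    have h7 : 1 / (4 * C) = 1 / (8 * C) + 1 / (8 * C) := by
      field_simp
      ring
    rw [h7, add_mul] at a1
    linarith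
  have hGsub : G \ B ⊆ saw n := sdiff_subset.trans (by rw [hG]; exact filter_subset _ _)
  have key : ∀ s ∈ G \ B, ρ ^ 2 / 8 * (1 / 4 * size n) ^ 2 ≤ Gy s := by
    intro s hs'
    have hss := hGsub hs'
    rw [mem_sdiff, hG, hB, mem_filter, mem_filter] at hs'
    obtain ⟨⟨-, b1⟩, b2⟩ := hs'
    have b3 : ∀ i j : ℕ, i ≤ j → j ≤ n → (j : ℝ) - i ≤ ρ0 * n → ‖pos s j - pos s i‖ ≤ 1 / 8 * size n := by
      intro i j hij hj hji
      by_contra hcon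
      exact b2 ⟨hss, i, j, hij, hj, hji, not_le.1 hcon⟩
    have hnn : (0 : ℝ) ≤ n := Nat.cast_nonneg n
    have b4 : 1 / 2 * size n ≤ ‖pos s n‖ := by
      refine le_of_sq_le_sq ?_ (norm_nonneg _)
      calc (1 / 2 * size n) ^ 2 = 1 / 4 * size n ^ 2 := by ring
        _ ≤ 1 / 2 * size n ^ 2 := by nlinarith [sq_nonneg (size n)]
        _ ≤ _ := b1.le
    refine Gy_ge hn1 hρp hρ1 (by positivity) fun i j hi hj h1 h2 => ?_
    have c1 := b3 0 i (Nat.zero_le i) hi (by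
      rw [Nat.cast_zero, sub_zero]
      exact h1.trans (mul_le_mul_of_nonneg_right hρ2 hnn))
    have c2 := b3 j n hj le_rfl (h2.trans (mul_le_mul_of_nonneg_right hρ2 hnn))
    rw [pos_zero, sub_zero] at c1
    have c3 : ‖pos s n‖ ≤ ‖pos s n - pos s j‖ + ‖pos s i - pos s j‖ + ‖pos s i‖ := by
      have e1 : pos s n = (pos s n - pos s j) - (pos s i - pos s j) + pos s i := by ring
      calc ‖pos s n‖ = ‖(pos s n - pos s j) - (pos s i - pos s j) + pos s i‖ := by rw [← e1]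
        _ ≤ ‖(pos s n - pos s j) - (pos s i - pos s j)‖ + ‖pos s i‖ := norm_add_le _ _
        _ ≤ _ := add_le_add (norm_sub_le _ _) le_rfl
    linarith
  unfold mn
  rw [le_div_iff₀ hc]
  calc 1 / (8 * C) * (ρ ^ 2 / 8 * (1 / 4) ^ 2) * size n ^ 2 * ((saw n).card : ℝ)
      = (1 / (8 * C) * ((saw n).card : ℝ)) * (ρ ^ 2 / 8 * (1 / 4 * size n) ^ 2) := by ring
    _ ≤ ((G \ B).card : ℝ) * (ρ ^ 2 / 8 * (1 / 4 * size n) ^ 2) := mul_le_mul_of_nonneg_right a3 (by positivity)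
    _ = ∑ s ∈ G \ B, ρ ^ 2 / 8 * (1 / 4 * size n) ^ 2 := by rw [sum_const, nsmul_eq_mul]
    _ ≤ ∑ s ∈ G \ B, Gy s := sum_le_sum key
    _ ≤ _ := sum_le_sum_of_subset_of_nonneg hGsub fun s _ _ => by
        unfold Gy
        positivity

/-! ### 4. Every n -/

/-- from the large n to every n -/
lemma all_n {f g : ℕ → ℝ} (hf : ∀ n : ℕ, 1 ≤ n → 0 < f n) (hg : ∀ n : ℕ, 1 ≤ n → 0 < g n) {c C : ℝ} {n0 : ℕ}
    (hc : 0 < c) (h : ∀ n : ℕ, n0 ≤ n → c * g n ≤ f n ∧ f n ≤ C * g n) :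
    ∃ c' C' : ℝ, 0 < c' ∧ ∀ n : ℕ, 1 ≤ n → c' * g n ≤ f n ∧ f n ≤ C' * g n := by
  obtain ⟨S, hS⟩ : ∃ S : ℝ, S = ∑ n ∈ Icc 1 n0, g n / f n := ⟨_, rfl⟩
  obtain ⟨T, hT⟩ : ∃ T : ℝ, T = ∑ n ∈ Icc 1 n0, f n / g n := ⟨_, rfl⟩
  have hS0 : 0 ≤ S := by
    rw [hS]
    exact sum_nonneg fun n hn => (div_pos (hg n (mem_Icc.1 hn).1) (hf n (mem_Icc.1 hn).1)).le
  have hT0 : 0 ≤ T := by
    rw [hT]
    exact sum_nonneg fun n hn => (div_pos (hf n (mem_Icc.1 hn).1) (hg n (mem_Icc.1 hn).1)).le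
  refine ⟨1 / (1 / c + S), max C T, by positivity, fun n hn => ?_⟩
  have hgn := hg n hn
  have hfn := hf n hn
  have hpos : 0 < 1 / c + S := by positivity
  rcases Nat.lt_or_ge n n0 with h1 | h1
  · have hm : n ∈ Icc 1 n0 := mem_Icc.2 ⟨hn, h1.le⟩
    have h2 : g n / f n ≤ S := by
      rw [hS]
      exact single_le_sum (f := fun n => g n / f n)
        (fun n hn => (div_pos (hg n (mem_Icc.1 hn).1) (hf n (mem_Icc.1 hn).1)).le) hm
    have h3 : f n / g n ≤ T := by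
      rw [hT]
      exact single_le_sum (f := fun n => f n / g n)
        (fun n hn => (div_pos (hf n (mem_Icc.1 hn).1) (hg n (mem_Icc.1 hn).1)).le) hm
    constructor
    · rw [div_le_iff₀ hfn] at h2
      rw [one_div_mul_eq_div, div_le_iff₀ hpos]
      have : 0 ≤ 1 / c * f n := by positivity
      linarith
    · rw [div_le_iff₀ hgn] at h3
      exact h3.trans (mul_le_mul_of_nonneg_right (le_max_right _ _) hgn.le)
  · obtain ⟨a1, a2⟩ := h n h1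
    constructor
    · refine le_trans (mul_le_mul_of_nonneg_right ?_ hgn.le) a1
      rw [div_le_iff₀ hpos, mul_add, mul_one_div_cancel hc.ne']
      have : 0 ≤ c * S := by positivity
      linarith
    · exact a2.trans (mul_le_mul_of_nonneg_right (le_max_left _ _) hgn.le)

/-- **the three sizes from the facts and the second moment of the largest distance** -/
theorem sizes_of (hA : FactsQ) {cs Cs : ℝ} {n1 : ℕ} (hcs : 0 < cs)
    (hsz : ∀ n : ℕ, n1 ≤ n → cs * (n : ℝ) ^ (3 / 4 : ℝ) ≤ size n ∧ size n ≤ Cs * (n : ℝ) ^ (3 / 4 : ℝ)) {Cf : ℝ} {n2 : ℕ}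
    (hfar : ∀ n : ℕ, n2 ≤ n → mn n (fun s => far s ^ 2) ≤ Cf * (n : ℝ) ^ (3 / 2 : ℝ)) :
    ∃ c C : ℝ, 0 < c ∧ ∀ n : ℕ, 1 ≤ n →
      (c * (n : ℝ) ^ (3 / 2 : ℝ) ≤ mn n (fun s => ‖pos s n‖ ^ 2) ∧
        mn n (fun s => ‖pos s n‖ ^ 2) ≤ C * (n : ℝ) ^ (3 / 2 : ℝ)) ∧
      (c * (n : ℝ) ^ (3 / 2 : ℝ) ≤ mn n Gy ∧ mn n Gy ≤ C * (n : ℝ) ^ (3 / 2 : ℝ)) ∧
      (c * (n : ℝ) ^ (3 / 2 : ℝ) ≤ mn n Mo ∧ mn n Mo ≤ C * (n : ℝ) ^ (3 / 2 : ℝ)) := by
  obtain ⟨cg, n3, hcg, hgyr⟩ := gyr_ge hA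
  have hg : ∀ n : ℕ, 1 ≤ n → (0 : ℝ) < (n : ℝ) ^ (3 / 2 : ℝ) := fun n hn => by
    have : (0 : ℝ) < n := by exact_mod_cast hn
    positivity
  have hsq : ∀ n : ℕ, ((n : ℝ) ^ (3 / 4 : ℝ)) ^ 2 = (n : ℝ) ^ (3 / 2 : ℝ) := fun n => by
    rw [← Real.rpow_natCast, ← Real.rpow_mul (Nat.cast_nonneg n)]
    norm_num
  have hlow : ∀ n : ℕ, n1 ≤ n → cs ^ 2 * (n : ℝ) ^ (3 / 2 : ℝ) ≤ size n ^ 2 := fun n hn => by
    rw [← hsq, ← mul_pow]
    exact pow_le_pow_left₀ (by positivity) (hsz n hn).1 2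
  have hupp : ∀ n : ℕ, n1 ≤ n → size n ^ 2 ≤ Cs ^ 2 * (n : ℝ) ^ (3 / 2 : ℝ) := fun n hn => by
    rw [← hsq, ← mul_pow]
    exact pow_le_pow_left₀ (size_nonneg n) (hsz n hn).2 2
  -- the end-to-end distance
  obtain ⟨c1, C1, hc1, h1⟩ := all_n (f := fun n => mn n (fun s => ‖pos s n‖ ^ 2)) (g := fun n => (n : ℝ) ^ (3 / 2 : ℝ))
    (c := cs ^ 2) (C := Cs ^ 2) (n0 := n1)
    (fun n hn => by
      simp only [mn_end]
      have := size_pos hn
      positivity) hg (by positivity) (fun n hn => by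
      simp only [mn_end]
      exact ⟨hlow n hn, hupp n hn⟩)
  -- the radius of gyration
  obtain ⟨c2, C2, hc2, h2⟩ := all_n (f := fun n => mn n Gy) (g := fun n => (n : ℝ) ^ (3 / 2 : ℝ))
    (c := cg * cs ^ 2) (C := 2 * Cf) (n0 := max (max n1 n3) n2)
    (fun n hn => mn_pos fun s hs => Gy_pos hn hs) hg (by positivity) (fun n hn => by
      have b1 : n1 ≤ n := (le_max_left _ _).trans (le_of_max_le_left hn)
      have b3 : n3 ≤ n := (le_max_right _ _).trans (le_of_max_le_left hn)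
      have b2 : n2 ≤ n := le_of_max_le_right hn
      constructor
      · refine le_trans ?_ (hgyr n b3)
        rw [mul_assoc]
        exact mul_le_mul_of_nonneg_left (hlow n b1) hcg.le
      · refine (mn_mono fun s _ => Gy_le s).trans ?_
        rw [mn_mul, mul_assoc]
        exact mul_le_mul_of_nonneg_left (hfar n b2) (by norm_num))
  -- the distance of a monomer
  obtain ⟨c3, C3, hc3, h3⟩ := all_n (f := fun n => mn n Mo) (g := fun n => (n : ℝ) ^ (3 / 2 : ℝ))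
    (c := 1 / 4 * cs ^ 2) (C := 3 * Cf) (n0 := max n1 n2)
    (fun n hn => mn_pos fun s hs => lt_of_lt_of_le (by
      have := pos_ne hn hs
      positivity) (Mo_ge s)) hg (by positivity) (fun n hn => by
      have b1 : n1 ≤ n := le_of_max_le_left hn
      have b2 : n2 ≤ n := le_of_max_le_right hn
      constructor
      · refine le_trans ?_ (mn_mono fun s _ => Mo_ge s)
        rw [mn_mul, mn_end, mul_assoc]
        exact mul_le_mul_of_nonneg_left (hlow n b1) (by norm_num)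
      · refine (mn_mono fun s _ => Mo_le s).trans ?_
        rw [mn_mul, mul_assoc]
        exact mul_le_mul_of_nonneg_left (hfar n b2) (by norm_num))
  refine ⟨min c1 (min c2 c3), max C1 (max C2 C3), lt_min hc1 (lt_min hc2 hc3), fun n hn => ?_⟩
  have hp := (hg n hn).le
  have e1 : min c1 (min c2 c3) ≤ c1 := min_le_left _ _
  have e2 : min c1 (min c2 c3) ≤ c2 := (min_le_right _ _).trans (min_le_left _ _)
  have e3 : min c1 (min c2 c3) ≤ c3 := (min_le_right _ _).trans (min_le_right _ _)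
  have d1 : C1 ≤ max C1 (max C2 C3) := le_max_left _ _
  have d2 : C2 ≤ max C1 (max C2 C3) := (le_max_left _ _).trans (le_max_right _ _)
  have d3 : C3 ≤ max C1 (max C2 C3) := (le_max_right _ _).trans (le_max_right _ _)
  exact ⟨⟨(mul_le_mul_of_nonneg_right e1 hp).trans (h1 n hn).1, (h1 n hn).2.trans (mul_le_mul_of_nonneg_right d1 hp)⟩,
    ⟨(mul_le_mul_of_nonneg_right e2 hp).trans (h2 n hn).1, (h2 n hn).2.trans (mul_le_mul_of_nonneg_right d2 hp)⟩,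
    ⟨(mul_le_mul_of_nonneg_right e3 hp).trans (h3 n hn).1, (h3 n hn).2.trans (mul_le_mul_of_nonneg_right d3 hp)⟩⟩

/-! ### 5. From the words -/

section

open HexObs hiding pos

open HexObs.TS HexObs.SDN HexObs.NTW

open NTSF

/-- the tail of the largest distance, for every n: the literal hypothesis -/
def TailJ (m : ℕ → ℝ) : Prop := ∃ (K : ℝ) (k0 : ℕ), 0 < K ∧ ∀ k n i : ℕ, k0 ≤ k → m k ≤ n → n < m (k + 1) →
  gf {t | t ∈ SawN n ∧ ∃ (dir : Bool) (j : ℕ), j ≤ n ∧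
    (2 : ℝ) ^ i * 2 ^ k ≤ |((lvl dir (vx oo up t j) : ℤ) : ℝ)|} ≤ ENNReal.ofReal (K / 2 ^ (5 * i)) * nuX m k

/-- the second moment of the largest distance -/
theorem far_of {R : ℕ → ℝ} (hR1 : ∀ n, 1 ≤ R n) (hT : ∃ (K : ℝ) (n0 : ℕ), 0 < K ∧ ∀ n i : ℕ, n0 ≤ n →
    gf {t | t ∈ SawN n ∧ ∃ (dir : Bool) (j : ℕ), j ≤ n ∧ (2 : ℝ) ^ i * R n ≤ |((lvl dir (vx oo up t j) : ℤ) : ℝ)|} ≤
      ENNReal.ofReal (K / 32 ^ i) * gf (SawN n)) :
    ∃ (C : ℝ) (n0 : ℕ), 0 < C ∧ ∀ n : ℕ, n0 ≤ n → mn n (fun s => far s ^ 2) ≤ C * R n ^ 2 := by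
  obtain ⟨K, nt, hK, htail⟩ := hT
  refine ⟨2 + 32 * K, max nt 1, by positivity, fun n hn => ?_⟩
  have hRn : 0 < R n := zero_lt_one.trans_le (hR1 n)
  have h1 : ∀ i : ℕ, (((saw n).filter fun s => 2 ^ i * R n ≤ far s).card : ℝ) ≤ K / 32 ^ i * ((saw n).card : ℝ) := by
    intro i
    have hfar : ∀ s : Fin n → Fin 3, 2 ^ i * R n ≤ far s ↔ ∃ j, j ≤ n ∧ 2 ^ i * R n ≤ ‖Pool.Agent.NTS.Res.pos s j‖ := by
      intro s
      constructor
      · intro h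
        obtain ⟨j, hj, h2⟩ := exists_far s
        exact ⟨j, hj, by rw [← h2]; exact h⟩
      · rintro ⟨j, hj, h⟩
        exact h.trans (le_far s hj)
    refine prop_le (le_of_max_le_right hn) _ (fun s => ?_) (by positivity) ?_ (htail n i (le_of_max_le_left hn))
    · rw [hfar, hfar]
      simp only [norm_rot']
    · intro t ht h2
      obtain ⟨j, hj, h3⟩ := (hfar _).1 h2
      rw [pos_sw n t j hj] at h3
      obtain ⟨dir, h4⟩ := NTF.exists_dir (by positivity) h3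
      exact ⟨ht, dir, j, hj, h4⟩
  have h2 := two_gen (f := fun s => far s) (fun s => far_nonneg s) hRn hK.le h1
  unfold mn
  rw [div_le_iff₀ (saw_card_pos n)]
  exact h2

/-- the sizes are of the order n ^ (3 / 2), every n -/
theorem sizes_res {m : ℕ → ℝ} (hlo : ∃ c : ℝ, 0 < c ∧ ∀ k : ℕ, c * (2 : ℝ) ^ (4 / 3 * (k : ℝ)) ≤ m k)
    (hup : ∃ C : ℝ, ∀ k : ℕ, m k ≤ C * (2 : ℝ) ^ (4 / 3 * (k : ℝ))) (hF : FactsX m) (hT : TailJ m) :
    ∃ c C : ℝ, 0 < c ∧ ∀ n : ℕ, 1 ≤ n →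
      (c * (n : ℝ) ^ (3 / 2 : ℝ) ≤ mn n (fun s => ‖Pool.Agent.NTS.Res.pos s n‖ ^ 2) ∧
        mn n (fun s => ‖Pool.Agent.NTS.Res.pos s n‖ ^ 2) ≤ C * (n : ℝ) ^ (3 / 2 : ℝ)) ∧
      (c * (n : ℝ) ^ (3 / 2 : ℝ) ≤ mn n Gy ∧ mn n Gy ≤ C * (n : ℝ) ^ (3 / 2 : ℝ)) ∧
      (c * (n : ℝ) ^ (3 / 2 : ℝ) ≤ mn n Mo ∧ mn n Mo ≤ C * (n : ℝ) ^ (3 / 2 : ℝ)) := by
  obtain ⟨R, κ, hS⟩ := scaleX_exists hlo hup
  have hpos : ∀ k : ℕ, (0 : ℝ) < (2 : ℝ) ^ (4 / 3 * (k : ℝ)) := fun k => Real.rpow_pos_of_pos (by norm_num) _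
  have hd : ∃ C : ℝ, 1 ≤ C ∧ ∀ k, m (k + 1) ≤ C * m k := by
    obtain ⟨c, hc, h⟩ := hlo
    obtain ⟨C, h'⟩ := hup
    have hm : ∀ k, 0 < m k := fun k => lt_of_lt_of_le (mul_pos hc (hpos k)) (h k)
    have hC : 0 < C := by
      have h1 := (h 0).trans (h' 0)
      have h2 := hpos 0
      by_contra hcon
      push Not at hcon
      nlinarith
    refine ⟨max 1 (C * (2 : ℝ) ^ (4 / 3 : ℝ) / c), le_max_left _ _, fun k => ?_⟩
    have h1 : (2 : ℝ) ^ (4 / 3 * ((k + 1 : ℕ) : ℝ)) = (2 : ℝ) ^ (4 / 3 : ℝ) * (2 : ℝ) ^ (4 / 3 * (k : ℝ)) := by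
      rw [← Real.rpow_add (by norm_num)]
      congr 1
      push_cast
      ring
    calc m (k + 1) ≤ C * (2 : ℝ) ^ (4 / 3 * ((k + 1 : ℕ) : ℝ)) := h' (k + 1)
      _ = C * (2 : ℝ) ^ (4 / 3 : ℝ) / c * (c * (2 : ℝ) ^ (4 / 3 * (k : ℝ))) := by
          rw [h1]
          field_simp
      _ ≤ C * (2 : ℝ) ^ (4 / 3 : ℝ) / c * m k := mul_le_mul_of_nonneg_left (h k) (by positivity)
      _ ≤ _ := mul_le_mul_of_nonneg_right (le_max_right _ _) (hm k).le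
  have hR1 : ∀ n, 1 ≤ R n := fun n => by
    rw [hS.R2]
    exact one_le_pow₀ (by norm_num)
  obtain ⟨hQ, ⟨cd, nd, hcd, hdown⟩, Cu, nu, hCu, hupR⟩ := factsQ_of hR1 (normX_of hS hF hd)
  obtain ⟨c0, n0, hc0, hnu⟩ := nuX_le hS hF
  -- the tail
  have hT' : ∃ (K : ℝ) (n0 : ℕ), 0 < K ∧ ∀ n i : ℕ, n0 ≤ n →
      gf {t | t ∈ SawN n ∧ ∃ (dir : Bool) (j : ℕ), j ≤ n ∧ (2 : ℝ) ^ i * R n ≤ |((lvl dir (vx oo up t j) : ℤ) : ℝ)|} ≤
        ENNReal.ofReal (K / 32 ^ i) * gf (SawN n) := by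
    obtain ⟨K, k0, hK, h1⟩ := hT
    obtain ⟨n1, hn1⟩ := hS.sc
    obtain ⟨n2, hn2⟩ := hS.top k0
    refine ⟨K * c0, max (max n0 n1) n2, by positivity, fun n i hn => ?_⟩
    have b0 : n0 ≤ n := (le_max_left _ _).trans (le_of_max_le_left hn)
    have b1 : n1 ≤ n := (le_max_right _ _).trans (le_of_max_le_left hn)
    obtain ⟨a1, a2⟩ := hn1 n b1
    have h2 := h1 (κ n) n i (hn2 n (le_of_max_le_right hn)) a1 a2
    rw [← hS.R2 n, show (2 : ℝ) ^ (5 * i) = 32 ^ i by rw [pow_mul]; norm_num] at h2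
    refine h2.trans ?_
    rw [show K * c0 / 32 ^ i = K / 32 ^ i * c0 by ring, ENNReal.ofReal_mul (by positivity), mul_assoc]
    exact mul_le_mul_right (hnu n b0) _
  obtain ⟨Cf, nf, hCf, hfar⟩ := far_of hR1 hT'
  obtain ⟨cs, Cs, ns, hcs, hCs, hord⟩ := hS.ord
  have hsq : ∀ n : ℕ, ((n : ℝ) ^ (3 / 4 : ℝ)) ^ 2 = (n : ℝ) ^ (3 / 2 : ℝ) := fun n => by
    rw [← Real.rpow_natCast, ← Real.rpow_mul (Nat.cast_nonneg n)]
    norm_num
  refine sizes_of hQ (cs := cd * cs) (Cs := Cu * Cs) (n1 := max (max nd nu) ns) (by positivity) (fun n hn => ?_)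
    (Cf := Cf * Cs ^ 2) (n2 := max nf ns) (fun n hn => ?_)
  · have b0 : nd ≤ n := (le_max_left _ _).trans (le_of_max_le_left hn)
    have b1 : nu ≤ n := (le_max_right _ _).trans (le_of_max_le_left hn)
    obtain ⟨b2, b3⟩ := hord n (le_of_max_le_right hn)
    constructor
    · calc cd * cs * (n : ℝ) ^ (3 / 4 : ℝ) = cd * (cs * (n : ℝ) ^ (3 / 4 : ℝ)) := by ring
        _ ≤ cd * R n := mul_le_mul_of_nonneg_left b2 hcd.le
        _ ≤ size n := hdown n b0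
    · calc size n ≤ Cu * R n := hupR n b1
        _ ≤ Cu * (Cs * (n : ℝ) ^ (3 / 4 : ℝ)) := mul_le_mul_of_nonneg_left b3 hCu.le
        _ = _ := by ring
  · refine (hfar n (le_of_max_le_left hn)).trans ?_
    obtain ⟨-, b3⟩ := hord n (le_of_max_le_right hn)
    have hRn : 0 ≤ R n := zero_le_one.trans (hR1 n)
    rw [← hsq, mul_assoc, ← mul_pow]
    exact mul_le_mul_of_nonneg_left (pow_le_pow_left₀ hRn b3 2) hCf.le

end

open Pool.Agent.MS in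
/-- **the three sizes are of the order n ^ (3 / 2), every n**, with the definitions of the hand-in -/
theorem sizes_ex {m : ℕ → ℝ} (hlo : ∃ c : ℝ, 0 < c ∧ ∀ k : ℕ, c * (2 : ℝ) ^ (4 / 3 * (k : ℝ)) ≤ m k)
    (hup : ∃ C : ℝ, ∀ k : ℕ, m k ≤ C * (2 : ℝ) ^ (4 / 3 * (k : ℝ))) (hF : HexObs.NTW.FactsX m) (hT : TailJ m) :
    ∃ c C : ℝ, 0 < c ∧ ∀ n : ℕ, 1 ≤ n →
      (c * (n : ℝ) ^ (3 / 2 : ℝ) ≤ ResSizes.mean n ResSizes.Re ∧
        ResSizes.mean n ResSizes.Re ≤ C * (n : ℝ) ^ (3 / 2 : ℝ)) ∧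
      (c * (n : ℝ) ^ (3 / 2 : ℝ) ≤ ResSizes.mean n ResSizes.Rg ∧
        ResSizes.mean n ResSizes.Rg ≤ C * (n : ℝ) ^ (3 / 2 : ℝ)) ∧
      (c * (n : ℝ) ^ (3 / 2 : ℝ) ≤ ResSizes.mean n ResSizes.Rm ∧
        ResSizes.mean n ResSizes.Rm ≤ C * (n : ℝ) ^ (3 / 2 : ℝ)) := by
  obtain ⟨c, C, hc, h⟩ := sizes_res hlo hup hF hT
  refine ⟨c, C, hc, fun n hn => ?_⟩
  obtain ⟨h1, h2, h3⟩ := h n hn
  exact ⟨h1, h2, h3⟩

end NTSZ
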