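import Pool.Agent.EN.FarLow
import Pool.Agent.EN.Sizes
import Pool.Agent.NTS.FishDefs

/-!
EN (every number of steps), the tail of the displacement L n ^ (3 / 4): from the words with n letters to the self-avoiding
walks with n steps and to the weak limits (both sides, exponent 4).
-/

set_option autoImplicit false

namespace NTSZ

open Finset MeasureTheory Filter Topology

open HexObs hiding pos curve

open HexObs.TS HexObs.SDN HexObs.NTW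

open Pool.Agent.NTS.Res

open NTSF

open NTF (open_le cont_eval norm_comb)

open scoped ENNReal Classical

/-- lower side of the tail, words with exactly n letters -/
def FarLowP (m : ℕ → ℝ) : Prop := ∃ (C : ℝ) (a : ℕ), 0 < C ∧ ∀ k n i : ℕ, 3 * i + a ≤ k → m k ≤ n → n < m (k + 1) →
  ENNReal.ofReal (Real.exp (-(C * 16 ^ i))) * nuX m k ≤
    gf {t | t ∈ SawN n ∧ ∃ dir : Bool, (2 : ℝ) ^ (k + i) ≤ |((lvl dir (vx oo up t n) : ℤ) : ℝ)|}

/-- upper side of the tail, words with exactly n letters -/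
def FarUpP (m : ℕ → ℝ) : Prop := ∃ (C c : ℝ) (a : ℕ), 0 < C ∧ 0 < c ∧ ∀ k n i : ℕ, 3 * i + a ≤ k → m k ≤ n →
  n < m (k + 1) → gf {t | t ∈ SawN n ∧ ∃ (dir : Bool) (j : ℕ), j ≤ n ∧
    (2 : ℝ) ^ (k + i) ≤ |((lvl dir (vx oo up t j) : ℤ) : ℝ)|} ≤
      ENNReal.ofReal (C * Real.exp (-(c * 16 ^ i))) * nuX m k

lemma farUp_of {m : ℕ → ℝ} (h : FishX m) : FarUpP m := by
  obtain ⟨c, K, k0, hc, hK, h⟩ := h
  refine ⟨K, c, k0, hK, hc, fun k n i h1 h2 h3 => ?_⟩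
  have h4 := h k n i (by omega) h2 h3
  rw [show (2 : ℝ) ^ i * 2 ^ k = 2 ^ (k + i) by rw [pow_add, mul_comm]] at h4
  exact h4

lemma fishLow_of {m : ℕ → ℝ} (h : FarLowP m) : FishLowX m := by
  obtain ⟨C, a, hC, h⟩ := h
  refine ⟨1, C, a, one_pos, hC, fun k n i h1 h2 h3 h4 => ?_⟩
  have h5 := h k n i h4 h2 h3
  rw [show (2 : ℝ) ^ i * 2 ^ k = 2 ^ (k + i) by rw [pow_add, mul_comm], one_mul]
  exact h5

/-! ### 1. Numbers -/

/-- the dyadic scale above x -/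
lemma dy_above {x : ℝ} (hx : 1 ≤ x) : ∃ i : ℕ, x ≤ 2 ^ i ∧ (2 : ℝ) ^ i ≤ 2 * x := by
  have hex : ∃ i : ℕ, x ≤ 2 ^ i := by
    obtain ⟨i, hi⟩ := pow_unbounded_of_one_lt x (one_lt_two (α := ℝ))
    exact ⟨i, hi.le⟩
  refine ⟨Nat.find hex, Nat.find_spec hex, ?_⟩
  rcases Nat.eq_zero_or_pos (Nat.find hex) with h | h
  · rw [h]
    linarith
  · have h1 := Nat.find_min hex (m := Nat.find hex - 1) (by omega)
    push Not at h1
    have h2 : (2 : ℝ) ^ Nat.find hex = 2 * 2 ^ (Nat.find hex - 1) := by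
      rw [← pow_succ']
      congr 1
      omega
    rw [h2]
    linarith

/-- the dyadic scale below x -/
lemma dy_below {x : ℝ} (hx : 1 ≤ x) : ∃ i : ℕ, (2 : ℝ) ^ i ≤ x ∧ x ≤ 2 * 2 ^ i := by
  obtain ⟨i, h1, h2⟩ := dy_above hx
  rcases Nat.eq_zero_or_pos i with h | h
  · rw [h] at h1
    exact ⟨0, by rw [pow_zero]; exact hx, by rw [pow_zero] at h1 ⊢; linarith⟩
  · have h3 : (2 : ℝ) ^ i = 2 * 2 ^ (i - 1) := by
      rw [← pow_succ']
      congr 1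
      omega
    rw [h3] at h1 h2
    exact ⟨i - 1, by linarith, h1⟩

lemma pow16 (i : ℕ) : (16 : ℝ) ^ i = (2 ^ i) ^ 4 := by
  rw [← pow_mul, mul_comm, pow_mul]
  norm_num

lemma pow8 (i : ℕ) : (2 : ℝ) ^ (3 * i) = (2 ^ i) ^ 3 := by
  rw [mul_comm, pow_mul]

/-- n ^ (1 / 4) and n ^ (3 / 4) -/
lemma quart (n : ℕ) : ((n : ℝ) ^ (1 / 4 : ℝ)) ^ 3 = (n : ℝ) ^ (3 / 4 : ℝ) ∧ ((n : ℝ) ^ (1 / 4 : ℝ)) ^ 4 = n ∧
    (n : ℝ) ^ (1 / 4 : ℝ) * (n : ℝ) ^ (3 / 4 : ℝ) = n := by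
  have hn : (0 : ℝ) ≤ n := Nat.cast_nonneg n
  have h3 : ((n : ℝ) ^ (1 / 4 : ℝ)) ^ 3 = (n : ℝ) ^ (3 / 4 : ℝ) := by
    rw [← Real.rpow_natCast, ← Real.rpow_mul hn]
    norm_num
  have h4 : ((n : ℝ) ^ (1 / 4 : ℝ)) ^ 4 = n := by
    rw [← Real.rpow_natCast, ← Real.rpow_mul hn]
    norm_num
  refine ⟨h3, h4, ?_⟩
  rw [← h3, ← pow_succ', h4]

/-! ### 2. From the words to the walks -/

/-- **the dictionary for proportions**, lower side -/
theorem prop_ge {n : ℕ} (hn : 0 < n) (P : (Fin n → Fin 3) → Prop) (hP : ∀ s, P (rot s) ↔ P s)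
    {c : ℝ} (hc : 0 ≤ c) {B : Set (List Bool)} (hPB : ∀ t ∈ B, t ∈ SawN n ∧ P (NTF.sw n t))
    (h : ENNReal.ofReal c * gf (SawN n) ≤ gf B) :
    c * ((saw n).card : ℝ) ≤ (((saw n).filter P).card : ℝ) := by
  have h1 : ENNReal.ofReal c * gf (SawN n) ≤ gf {t | t ∈ SawN n ∧ P (NTF.sw n t)} :=
    h.trans (gf_mono hPB)
  rw [NTF.gf_card (n := n) (B := {t | t ∈ SawN n ∧ P (NTF.sw n t)}) (fun t ht => ht.1.1),
    NTF.gf_card (n := n) (B := SawN n) (fun t ht => ht.1)] at h1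
  have h2 := card_saw hn P hP
  have h3 : 2 * (saw n).card = 3 * (SawN n).ncard := by
    have := card_saw hn (fun _ => True) (fun _ => Iff.rfl)
    rw [Finset.filter_true_of_mem (fun _ _ => trivial)] at this
    rw [this]
    congr 2
    ext t
    exact ⟨fun h => h.1, fun h => ⟨h, trivial⟩⟩
  rw [← mul_assoc] at h1
  have h5 : ENNReal.ofReal (xc ^ n) ≠ ⊤ := ENNReal.ofReal_ne_top
  have h4 := (ENNReal.mul_le_mul_iff_left (NTF.xcn_pos n) h5).1 h1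
  rw [← ENNReal.ofReal_natCast, ← ENNReal.ofReal_natCast, ← ENNReal.ofReal_mul hc] at h4
  have h6 := (ENNReal.ofReal_le_ofReal_iff (by positivity)).1 h4
  have h7 : (2 : ℝ) * (((saw n).filter P).card : ℝ) = 3 * ({t | t ∈ SawN n ∧ P (NTF.sw n t)}.ncard : ℝ) := by
    exact_mod_cast h2
  have h8 : (2 : ℝ) * ((saw n).card : ℝ) = 3 * ((SawN n).ncard : ℝ) := by exact_mod_cast h3
  have h9 : c * (2 * ((saw n).card : ℝ)) = c * (3 * ((SawN n).ncard : ℝ)) := by rw [h8]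
  linarith

/-- the distance is at most the number of steps -/
lemma pos_le {n : ℕ} (s : Fin n → Fin 3) {j : ℕ} (hj : j ≤ n) : ‖Pool.Agent.NTS.Res.pos s j‖ ≤ j := by
  induction j with
  | zero => rw [pos_zero, norm_zero, Nat.cast_zero]
  | succ j ih =>
    rw [pos_succ s j (by omega)]
    have h1 : ‖step j (s ⟨j, by omega⟩)‖ = 1 := by
      unfold step
      rw [norm_mul, norm_pow, norm_neg, norm_one, one_pow, one_mul,
        show 2 * (Real.pi : ℂ) * Complex.I * (((s ⟨j, by omega⟩ : Fin 3) : ℕ) : ℂ) / 3 =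
          ((2 * Real.pi * ((s ⟨j, by omega⟩ : Fin 3) : ℕ) / 3 : ℝ) : ℂ) * Complex.I by
            push_cast
            ring]
      exact Complex.norm_exp_ofReal_mul_I _
    have h2 := ih (by omega)
    push_cast
    calc ‖Pool.Agent.NTS.Res.pos s j + step j (s ⟨j, by omega⟩)‖ ≤
        ‖Pool.Agent.NTS.Res.pos s j‖ + ‖step j (s ⟨j, by omega⟩)‖ := norm_add_le _ _
      _ ≤ _ := by rw [h1]; linarith

/-- **lower side for the walks** -/
theorem tail_low {m : ℕ → ℝ} (hlo : ∃ c : ℝ, 0 < c ∧ ∀ k : ℕ, c * (2 : ℝ) ^ (4 / 3 * (k : ℝ)) ≤ m k)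
    (hup : ∃ C : ℝ, ∀ k : ℕ, m k ≤ C * (2 : ℝ) ^ (4 / 3 * (k : ℝ)))
    (hA : ∃ (C : ℝ) (k0 : ℕ), 0 < C ∧ ∀ k n : ℕ, k0 ≤ k → m k ≤ n → n < m (k + 1) →
      gf (SawN n) ≤ ENNReal.ofReal C * nuX m k) (hL : FarLowP m) :
    ∃ c C : ℝ, 0 < c ∧ 0 < C ∧ ∀ n : ℕ, 1 ≤ n → ∀ L : ℝ, 1 ≤ L → L ≤ c * (n : ℝ) ^ (1 / 4 : ℝ) →
      Real.exp (-(C * L ^ 4)) * ((saw n).card : ℝ) ≤
        (((saw n).filter fun s => L * (n : ℝ) ^ (3 / 4 : ℝ) ≤ ‖Pool.Agent.NTS.Res.pos s n‖).card : ℝ) := by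
  obtain ⟨R, κ, hS⟩ := scaleX_exists hlo hup
  obtain ⟨Ca, ka, hCa, hall⟩ := hA
  obtain ⟨C1, a, hC1, hlow⟩ := hL
  obtain ⟨n1, hn1⟩ := hS.sc
  obtain ⟨n2, hn2⟩ := hS.top ka
  obtain ⟨c0, C0, n3, hc0, hC0, hord⟩ := hS.ord
  obtain ⟨n0, hn0⟩ : ∃ n0, n0 = max (max n1 n2) n3 := ⟨_, rfl⟩
  obtain ⟨D, hD⟩ : ∃ D : ℝ, D = 4 / c0 + 2 := ⟨_, rfl⟩
  have hD0 : 0 < D := by rw [hD]; positivity
  obtain ⟨c, hc⟩ : ∃ c : ℝ, c = min (1 / ((n0 : ℝ) + 1)) (min 1 (c0 / (D ^ 3 * 2 ^ a))) := ⟨_, rfl⟩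
  have hcpos : 0 < c := by
    rw [hc]
    exact lt_min (by positivity) (lt_min one_pos (by positivity))
  have hc1 : c ≤ 1 / ((n0 : ℝ) + 1) := by rw [hc]; exact min_le_left _ _
  have hc2 : c ≤ 1 := by rw [hc]; exact (min_le_right _ _).trans (min_le_left _ _)
  have hc3 : c ≤ c0 / (D ^ 3 * 2 ^ a) := by rw [hc]; exact (min_le_right _ _).trans (min_le_right _ _)
  obtain ⟨C, hC⟩ : ∃ C : ℝ, C = C1 * D ^ 4 + |Real.log Ca| + 1 := ⟨_, rfl⟩
  refine ⟨c, C, hcpos, by rw [hC]; positivity, fun n hn L hL1 hLn => ?_⟩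
  obtain ⟨q3, q4, q1⟩ := quart n
  have hq0 : 0 ≤ (n : ℝ) ^ (1 / 4 : ℝ) := by positivity
  -- n is large
  have hnn : n0 ≤ n := by
    have h1 : (n0 : ℝ) + 1 ≤ (n : ℝ) ^ (1 / 4 : ℝ) := by
      have h2 : 1 ≤ 1 / ((n0 : ℝ) + 1) * (n : ℝ) ^ (1 / 4 : ℝ) :=
        (hL1.trans hLn).trans (mul_le_mul_of_nonneg_right hc1 hq0)
      rwa [one_div_mul_eq_div, le_div_iff₀ (by positivity), one_mul] at h2
    have h2 : (1 : ℝ) ≤ (n : ℝ) ^ (1 / 4 : ℝ) := by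
      have : (0 : ℝ) ≤ n0 := Nat.cast_nonneg _
      linarith
    have h3 : (n : ℝ) ^ (1 / 4 : ℝ) ≤ n := by
      calc (n : ℝ) ^ (1 / 4 : ℝ) ≤ ((n : ℝ) ^ (1 / 4 : ℝ)) ^ 4 := le_self_pow₀ h2 (by norm_num)
        _ = n := q4
    have h4 : (n0 : ℝ) ≤ n := by linarith
    exact_mod_cast h4
  have b1 : n1 ≤ n := ((le_max_left n1 n2).trans (le_max_left _ _)).trans (hn0 ▸ hnn)
  have b2 : n2 ≤ n := ((le_max_right n1 n2).trans (le_max_left _ _)).trans (hn0 ▸ hnn)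
  have b3 : n3 ≤ n := (le_max_right _ _).trans (hn0 ▸ hnn)
  obtain ⟨a1, a2⟩ := hn1 n b1
  obtain ⟨o1, o2⟩ := hord n b3
  rw [hS.R2] at o1 o2
  -- the scale i
  obtain ⟨i, hi1, hi2⟩ := dy_above (x := 2 * L / c0 + 1) (by
    have : 0 ≤ 2 * L / c0 := by positivity
    linarith)
  have hi3 : (2 : ℝ) ^ i ≤ D * L := by
    rw [hD]
    have : 2 * (2 * L / c0 + 1) = 4 / c0 * L + 2 := by
      field_simp
      ring
    nlinarith
  have hi4 : 3 * i + a ≤ κ n := by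
    have h1 : (2 : ℝ) ^ (3 * i + a) ≤ 2 ^ κ n := by
      calc (2 : ℝ) ^ (3 * i + a) = (2 ^ i) ^ 3 * 2 ^ a := by rw [pow_add, pow8]
        _ ≤ (D * (c * (n : ℝ) ^ (1 / 4 : ℝ))) ^ 3 * 2 ^ a := by
            gcongr
            exact hi3.trans (mul_le_mul_of_nonneg_left hLn hD0.le)
        _ = D ^ 3 * 2 ^ a * c ^ 3 * (n : ℝ) ^ (3 / 4 : ℝ) := by
            rw [← q3]
            ring
        _ ≤ D ^ 3 * 2 ^ a * c * (n : ℝ) ^ (3 / 4 : ℝ) := by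
            have : c ^ 3 ≤ c := by
              calc c ^ 3 ≤ c ^ 1 := pow_le_pow_of_le_one hcpos.le hc2 (by norm_num)
                _ = c := pow_one c
            gcongr
        _ ≤ c0 * (n : ℝ) ^ (3 / 4 : ℝ) := by
            refine mul_le_mul_of_nonneg_right ?_ (by positivity)
            rw [le_div_iff₀ (by positivity)] at hc3
            linarith
        _ ≤ _ := o1
    exact (pow_le_pow_iff_right₀ (one_lt_two (α := ℝ))).1 h1
  -- the words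
  have h1 := hlow (κ n) n i hi4 a1 a2
  have h2 := hall (κ n) n (hn2 n b2) a1 a2
  have hexp : Real.exp (-(C * L ^ 4)) ≤ Real.exp (-(C1 * 16 ^ i)) / Ca := by
    have e1 : Ca = Real.exp (Real.log Ca) := (Real.exp_log hCa).symm
    rw [e1, ← Real.exp_sub]
    apply Real.exp_le_exp.2
    have e2 : (16 : ℝ) ^ i ≤ D ^ 4 * L ^ 4 := by
      rw [pow16, ← mul_pow]
      exact pow_le_pow_left₀ (by positivity) hi3 4
    have e3 : (1 : ℝ) ≤ L ^ 4 := one_le_pow₀ hL1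
    have e4 := le_abs_self (Real.log Ca)
    have e5 := abs_nonneg (Real.log Ca)
    rw [hC]
    nlinarith [mul_le_mul_of_nonneg_left e2 hC1.le]
  have h3 : ENNReal.ofReal (Real.exp (-(C * L ^ 4))) * gf (SawN n) ≤
      gf {t | t ∈ SawN n ∧ ∃ dir : Bool, (2 : ℝ) ^ (κ n + i) ≤ |((lvl dir (vx oo up t n) : ℤ) : ℝ)|} := by
    calc ENNReal.ofReal (Real.exp (-(C * L ^ 4))) * gf (SawN n) ≤
        ENNReal.ofReal (Real.exp (-(C1 * 16 ^ i)) / Ca) * (ENNReal.ofReal Ca * nuX m (κ n)) :=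
          mul_le_mul' (ENNReal.ofReal_le_ofReal hexp) h2
      _ = ENNReal.ofReal (Real.exp (-(C1 * 16 ^ i))) * nuX m (κ n) := by
          rw [← mul_assoc, ← ENNReal.ofReal_mul (by positivity), div_mul_cancel₀ _ hCa.ne']
      _ ≤ _ := h1
  refine prop_ge hn _ (fun s => by rw [norm_rot']) (Real.exp_nonneg _) ?_ h3
  rintro t ⟨ht, dir, hd⟩
  refine ⟨ht, ?_⟩
  rw [pos_sw n t n le_rfl]
  have h4 := hd.trans (lvl_le_norm dir _)
  have h5 : 2 * (L * (n : ℝ) ^ (3 / 4 : ℝ)) ≤ 2 ^ (κ n + i) := by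
    calc 2 * (L * (n : ℝ) ^ (3 / 4 : ℝ)) = 2 * L / c0 * (c0 * (n : ℝ) ^ (3 / 4 : ℝ)) := by
          field_simp
      _ ≤ 2 ^ i * 2 ^ κ n := by
          refine mul_le_mul (by linarith) o1 (by positivity) (by positivity)
      _ = _ := by rw [pow_add, mul_comm]
  linarith

/-- **upper side for the walks** -/
theorem tail_up {m : ℕ → ℝ} (hlo : ∃ c : ℝ, 0 < c ∧ ∀ k : ℕ, c * (2 : ℝ) ^ (4 / 3 * (k : ℝ)) ≤ m k)
    (hup : ∃ C : ℝ, ∀ k : ℕ, m k ≤ C * (2 : ℝ) ^ (4 / 3 * (k : ℝ))) (hF : FactsX m) (hU : FarUpP m) :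
    ∃ c C : ℝ, 0 < c ∧ 0 < C ∧ ∀ n : ℕ, 1 ≤ n → ∀ L : ℝ, 0 ≤ L →
      (((saw n).filter fun s => ∃ j, j ≤ n ∧ L * (n : ℝ) ^ (3 / 4 : ℝ) ≤ ‖Pool.Agent.NTS.Res.pos s j‖).card : ℝ) ≤
        C * Real.exp (-(c * L ^ 4)) * ((saw n).card : ℝ) := by
  obtain ⟨R, κ, hS⟩ := scaleX_exists hlo hup
  obtain ⟨cn, nn, hcn, hnu⟩ := nuX_le hS hF
  obtain ⟨C1, c1, a, hC1, hc1, hfar⟩ := hU
  obtain ⟨n1, hn1⟩ := hS.sc
  obtain ⟨n2, hn2⟩ := hS.top a
  obtain ⟨c0, C0, n3, hc0, hC0, hord⟩ := hS.ord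
  obtain ⟨n0, hn0⟩ : ∃ n0, n0 = max (max n1 n2) (max n3 nn) := ⟨_, rfl⟩
  -- constants
  obtain ⟨c4, hc4⟩ : ∃ c4 : ℝ, c4 = min 1 (c0 / (8 * 2 ^ a)) := ⟨_, rfl⟩
  have hc40 : 0 < c4 := by rw [hc4]; exact lt_min one_pos (by positivity)
  have hc41 : c4 ≤ 1 := by rw [hc4]; exact min_le_left _ _
  have hc42 : c4 ≤ c0 / (8 * 2 ^ a) := by rw [hc4]; exact min_le_right _ _
  obtain ⟨c, hc⟩ : ∃ c : ℝ, c = min (c1 / (2 * C0) ^ 4) (c1 * c4 ^ 2) := ⟨_, rfl⟩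
  have hcpos : 0 < c := by rw [hc]; exact lt_min (by positivity) (by positivity)
  have hcA : c ≤ c1 / (2 * C0) ^ 4 := by rw [hc]; exact min_le_left _ _
  have hcB : c ≤ c1 * c4 ^ 2 := by rw [hc]; exact min_le_right _ _
  obtain ⟨C, hC⟩ : ∃ C : ℝ, C = C1 * cn + Real.exp (c * C0 ^ 4) + Real.exp (c * n0) := ⟨_, rfl⟩
  have hCpos : 0 < C := by
    rw [hC]
    have := Real.exp_pos (c * C0 ^ 4)
    positivity
  refine ⟨c, C, hcpos, hCpos, fun n hn L hL0 => ?_⟩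
  obtain ⟨q3, q4, q1⟩ := quart n
  have hn' : (0 : ℝ) < n := by exact_mod_cast hn
  have hq0 : 0 < (n : ℝ) ^ (1 / 4 : ℝ) := by positivity
  have hp0 : 0 < (n : ℝ) ^ (3 / 4 : ℝ) := by positivity
  have hcard := saw_card_pos n
  obtain ⟨F, hFd⟩ : ∃ F, F = (saw n).filter fun s => ∃ j, j ≤ n ∧
    L * (n : ℝ) ^ (3 / 4 : ℝ) ≤ ‖Pool.Agent.NTS.Res.pos s j‖ := ⟨_, rfl⟩
  rw [← hFd]
  have htriv : ((F.card : ℕ) : ℝ) ≤ ((saw n).card : ℝ) := by
    rw [hFd]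
    exact_mod_cast Finset.card_le_card (Finset.filter_subset _ _)
  -- the bound is trivial if C exp (- c L ^ 4) is at least 1
  have key1 : 1 ≤ C * Real.exp (-(c * L ^ 4)) → ((F.card : ℕ) : ℝ) ≤ C * Real.exp (-(c * L ^ 4)) * ((saw n).card : ℝ) :=
    fun h => htriv.trans (by nlinarith)
  have hone : ∀ x : ℝ, Real.exp x ≤ C → c * L ^ 4 ≤ x → 1 ≤ C * Real.exp (-(c * L ^ 4)) := by
    intro x h1 h2
    calc (1 : ℝ) = Real.exp (c * L ^ 4) * Real.exp (-(c * L ^ 4)) := by rw [← Real.exp_add, add_neg_cancel, Real.exp_zero]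
      _ ≤ C * Real.exp (-(c * L ^ 4)) :=
        mul_le_mul_of_nonneg_right ((Real.exp_le_exp.2 h2).trans h1) (Real.exp_nonneg _)
  have hE1 : Real.exp (c * C0 ^ 4) ≤ C := by
    rw [hC]
    have := Real.exp_pos (c * n0)
    have : 0 < C1 * cn := by positivity
    linarith
  have hE2 : Real.exp (c * n0) ≤ C := by
    rw [hC]
    have := Real.exp_pos (c * C0 ^ 4)
    have : 0 < C1 * cn := by positivity
    linarith
  -- the event is empty for L > n ^ (1 / 4)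
  rcases lt_or_ge ((n : ℝ) ^ (1 / 4 : ℝ)) L with hbig | hbig
  · have hFe : F = ∅ := by
      rw [hFd, Finset.filter_eq_empty_iff]
      rintro s - ⟨j, hj, h1⟩
      have h2 := pos_le s hj
      have h3 : (j : ℝ) ≤ n := by exact_mod_cast hj
      have h4 : (n : ℝ) < L * (n : ℝ) ^ (3 / 4 : ℝ) := by
        calc (n : ℝ) = (n : ℝ) ^ (1 / 4 : ℝ) * (n : ℝ) ^ (3 / 4 : ℝ) := q1.symm
          _ < _ := mul_lt_mul_of_pos_right hbig hp0
      linarith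
    rw [hFe, Finset.card_empty, Nat.cast_zero]
    positivity
  have hL4 : L ^ 4 ≤ n := by
    calc L ^ 4 ≤ ((n : ℝ) ^ (1 / 4 : ℝ)) ^ 4 := pow_le_pow_left₀ hL0 hbig 4
      _ = n := q4
  -- small n
  rcases Nat.lt_or_ge n n0 with hns | hns
  · refine key1 (hone _ hE2 (mul_le_mul_of_nonneg_left (hL4.trans ?_) hcpos.le))
    exact_mod_cast hns.le
  -- small L
  rcases lt_or_ge L C0 with hLs | hLs
  · exact key1 (hone _ hE1 (mul_le_mul_of_nonneg_left (pow_le_pow_left₀ hL0 hLs.le 4) hcpos.le))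
  have b1 : n1 ≤ n := ((le_max_left n1 n2).trans (le_max_left _ _)).trans (hn0 ▸ hns)
  have b2 : n2 ≤ n := ((le_max_right n1 n2).trans (le_max_left _ _)).trans (hn0 ▸ hns)
  have b3 : n3 ≤ n := ((le_max_left n3 nn).trans (le_max_right _ _)).trans (hn0 ▸ hns)
  have b4 : nn ≤ n := ((le_max_right n3 nn).trans (le_max_right _ _)).trans (hn0 ▸ hns)
  obtain ⟨a1, a2⟩ := hn1 n b1
  obtain ⟨o1, o2⟩ := hord n b3
  rw [hS.R2] at o1 o2
  have hak := hn2 n b2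
  -- a scale i
  obtain ⟨i, hi1, hi2, hi3⟩ : ∃ i : ℕ, 3 * i + a ≤ κ n ∧ (2 : ℝ) ^ i * C0 ≤ L ∧ c * L ^ 4 ≤ c1 * 16 ^ i := by
    obtain ⟨i, h1, h2⟩ := dy_below (x := L / C0) (by rw [le_div_iff₀ hC0]; linarith)
    have h1' : (2 : ℝ) ^ i * C0 ≤ L := by rwa [le_div_iff₀ hC0] at h1
    rcases Nat.lt_or_ge (κ n) (3 * i + a) with h3 | h3
    · obtain ⟨i', hi'⟩ : ∃ i', i' = (κ n - a) / 3 := ⟨_, rfl⟩
      have hi'1 : 3 * i' + a ≤ κ n := by omega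
      have hi'2 : κ n < 3 * i' + 3 + a := by omega
      have hi'3 : i' ≤ i := by omega
      refine ⟨i', hi'1, le_trans ?_ h1', ?_⟩
      · exact mul_le_mul_of_nonneg_right (pow_le_pow_right₀ (by norm_num) hi'3) hC0.le
      · have h4 : c4 * (n : ℝ) ^ (3 / 4 : ℝ) ≤ (2 ^ i') ^ 3 := by
          have h5 : (2 : ℝ) ^ κ n ≤ 2 ^ (3 * i' + 3 + a) := pow_le_pow_right₀ (by norm_num) hi'2.le
          rw [pow_add, pow_add, pow8, show (2 : ℝ) ^ 3 = 8 by norm_num] at h5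
          calc c4 * (n : ℝ) ^ (3 / 4 : ℝ) ≤ c0 / (8 * 2 ^ a) * (n : ℝ) ^ (3 / 4 : ℝ) :=
                mul_le_mul_of_nonneg_right hc42 hp0.le
            _ = c0 * (n : ℝ) ^ (3 / 4 : ℝ) / (8 * 2 ^ a) := by ring
            _ ≤ (2 ^ i') ^ 3 := by
                rw [div_le_iff₀ (by positivity)]
                linarith
        have h5 : c4 ^ 2 * n ≤ 16 ^ i' := by
          have h6 : (c4 ^ 2 * n) ^ 3 ≤ ((16 : ℝ) ^ i') ^ 3 := by
            calc (c4 ^ 2 * (n : ℝ)) ^ 3 = c4 ^ 6 * (n : ℝ) ^ 3 := by ring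
              _ ≤ c4 ^ 4 * (n : ℝ) ^ 3 := by
                  refine mul_le_mul_of_nonneg_right ?_ (by positivity)
                  exact pow_le_pow_of_le_one hc40.le hc41 (by norm_num)
              _ = (c4 * (n : ℝ) ^ (3 / 4 : ℝ)) ^ 4 := by
                  rw [← q3, mul_pow, ← pow_mul, show 3 * 4 = 4 * 3 by norm_num, pow_mul, q4]
              _ ≤ ((2 ^ i') ^ 3) ^ 4 := pow_le_pow_left₀ (by positivity) h4 4
              _ = ((16 : ℝ) ^ i') ^ 3 := by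
                  rw [pow16]
                  ring
          exact le_of_pow_le_pow_left₀ (by norm_num) (by positivity) h6
        calc c * L ^ 4 ≤ c1 * c4 ^ 2 * n := mul_le_mul hcB hL4 (by positivity) (by positivity)
          _ = c1 * (c4 ^ 2 * n) := by ring
          _ ≤ _ := mul_le_mul_of_nonneg_left h5 hc1.le
    · refine ⟨i, h3, h1', ?_⟩
      have h4 : L ≤ 2 * C0 * 2 ^ i := by
        rw [div_le_iff₀ hC0] at h2
        linarith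
      calc c * L ^ 4 ≤ c1 / (2 * C0) ^ 4 * (2 * C0 * 2 ^ i) ^ 4 :=
            mul_le_mul hcA (pow_le_pow_left₀ hL0 h4 4) (by positivity) (by positivity)
        _ = c1 * 16 ^ i := by
            rw [pow16]
            field_simp
  have h1 := hfar (κ n) n i hi1 a1 a2
  have h2 := h1.trans (mul_le_mul_right (hnu n b4) _)
  rw [← mul_assoc, ← ENNReal.ofReal_mul (by positivity)] at h2
  have h3 : ((F.card : ℕ) : ℝ) ≤ C1 * Real.exp (-(c1 * 16 ^ i)) * cn * ((saw n).card : ℝ) := by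
    rw [hFd]
    refine prop_le hn _ (fun s => by simp only [norm_rot']) (by positivity) ?_ h2
    rintro t ht ⟨j, hj, h4⟩
    rw [pos_sw n t j hj] at h4
    obtain ⟨dir, h5⟩ := NTF.exists_dir (by positivity) h4
    refine ⟨ht, dir, j, hj, le_trans ?_ h5⟩
    calc (2 : ℝ) ^ (κ n + i) = 2 ^ κ n * 2 ^ i := pow_add _ _ _
      _ ≤ C0 * (n : ℝ) ^ (3 / 4 : ℝ) * 2 ^ i := mul_le_mul_of_nonneg_right o2 (by positivity)
      _ = 2 ^ i * C0 * (n : ℝ) ^ (3 / 4 : ℝ) := by ring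
      _ ≤ _ := mul_le_mul_of_nonneg_right hi2 hp0.le
  refine h3.trans (mul_le_mul_of_nonneg_right ?_ hcard.le)
  calc C1 * Real.exp (-(c1 * 16 ^ i)) * cn = C1 * cn * Real.exp (-(c1 * 16 ^ i)) := by ring
    _ ≤ C * Real.exp (-(c * L ^ 4)) := by
        refine mul_le_mul ?_ (Real.exp_le_exp.2 (by linarith)) (Real.exp_nonneg _) hCpos.le
        rw [hC]
        have e1 := Real.exp_pos (c * C0 ^ 4)
        have e2 := Real.exp_pos (c * n0)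
        linarith

/-! ### 3. The weak limits -/

lemma law_ge {n : ℕ} {E : Set C(unitInterval, ℂ)} {c : ℝ} (hc : 0 ≤ c)
    (h : c * ((saw n).card : ℝ) ≤ (((saw n).filter fun s => curve s ∈ E).card : ℝ)) :
    ENNReal.ofReal c ≤ law n E := by
  rw [law_apply]
  have h0 : ((saw n).card : ℝ≥0∞) ≠ 0 := by
    have := (saw_nonempty n).card_pos
    exact_mod_cast this.ne'
  have ht : ((saw n).card : ℝ≥0∞) ≠ ⊤ := ENNReal.natCast_ne_top _
  have h1 : ENNReal.ofReal c * ((saw n).card : ℝ≥0∞) ≤ (((saw n).filter fun s => curve s ∈ E).card : ℝ≥0∞) := by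
    rw [← ENNReal.ofReal_natCast, ← ENNReal.ofReal_natCast, ← ENNReal.ofReal_mul hc]
    exact ENNReal.ofReal_le_ofReal h
  calc ENNReal.ofReal c = ENNReal.ofReal c * (((saw n).card : ℝ≥0∞)⁻¹ * ((saw n).card : ℝ≥0∞)) := by
        rw [ENNReal.inv_mul_cancel h0 ht, mul_one]
    _ = ((saw n).card : ℝ≥0∞)⁻¹ * (ENNReal.ofReal c * ((saw n).card : ℝ≥0∞)) := by ring
    _ ≤ _ := by gcongr

/-- a far point of the curve gives a far vertex -/
lemma far_curve {n : ℕ} (hn : 1 ≤ n) {s : Fin n → Fin 3} {L : ℝ} {u : unitInterval} (h : L < ‖curve s u‖) :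
    ∃ j, j ≤ n ∧ L * size n ≤ ‖Pool.Agent.NTS.Res.pos s j‖ := by
  obtain ⟨i, a, hi, ha0, ha1, -, -, he⟩ := curve_apply hn s u
  by_contra hcon
  push Not at hcon
  have h1 := hcon i hi.le
  have h2 := hcon (i + 1) hi
  have hs := size_pos hn
  rw [he, norm_div, Complex.norm_of_nonneg (size_nonneg _), lt_div_iff₀ hs] at h
  have h3 : ‖((1 - a : ℝ) : ℂ) * Pool.Agent.NTS.Res.pos s i + (a : ℂ) * Pool.Agent.NTS.Res.pos s (i + 1)‖ ≤
      (1 - a) * ‖Pool.Agent.NTS.Res.pos s i‖ + a * ‖Pool.Agent.NTS.Res.pos s (i + 1)‖ := by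
    refine (norm_add_le _ _).trans (le_of_eq ?_)
    rw [norm_mul, norm_mul, Complex.norm_of_nonneg (by linarith), Complex.norm_of_nonneg ha0]
  have h4 : (1 - a) * ‖Pool.Agent.NTS.Res.pos s i‖ + a * ‖Pool.Agent.NTS.Res.pos s (i + 1)‖ ≤ L * size n := by
    nlinarith [mul_le_mul_of_nonneg_left h1.le (by linarith : (0 : ℝ) ≤ 1 - a), mul_le_mul_of_nonneg_left h2.le ha0]
  linarith

section

variable {c C cs Cs : ℝ} (hcs : 0 < cs)
  (hsz : ∀ n : ℕ, 1 ≤ n → cs * (n : ℝ) ^ (3 / 4 : ℝ) ≤ size n ∧ size n ≤ Cs * (n : ℝ) ^ (3 / 4 : ℝ))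
  {φ : ℕ → ℕ} (hφ : Tendsto φ atTop atTop) {ν : Measure C(unitInterval, ℂ)} (hν : IsProbabilityMeasure ν)
  (hlim : LawTo φ ν)

include hcs hsz hφ hν hlim

/-- **upper side for the weak limits** -/
theorem limit_up (hT : ∀ n : ℕ, 1 ≤ n → ∀ L : ℝ, 0 ≤ L →
      (((saw n).filter fun s => ∃ j, j ≤ n ∧ L * (n : ℝ) ^ (3 / 4 : ℝ) ≤ ‖Pool.Agent.NTS.Res.pos s j‖).card : ℝ) ≤
        C * Real.exp (-(c * L ^ 4)) * ((saw n).card : ℝ)) {L : ℝ} (hL : 0 ≤ L) :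
    ν {γ : C(unitInterval, ℂ) | ∃ u, L ≤ ‖γ u‖} ≤ ENNReal.ofReal (C * Real.exp (-(c * (cs / 2) ^ 4 * L ^ 4))) := by
  have hC : 1 ≤ C := by
    have h1 := hT 1 le_rfl 0 le_rfl
    have h2 := saw_card_pos 1
    rw [Finset.filter_true_of_mem fun s _ => ⟨0, by omega, by rw [zero_mul]; exact norm_nonneg _⟩] at h1
    have h3 : Real.exp (-(c * 0 ^ 4)) = 1 := by
      rw [zero_pow (by norm_num), mul_zero, neg_zero, Real.exp_zero]
    rw [h3, mul_one] at h1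
    by_contra hcon
    push Not at hcon
    nlinarith
  rcases hL.eq_or_lt with h0 | h0
  · rw [← h0, zero_pow (by norm_num), mul_zero, neg_zero, Real.exp_zero, mul_one]
    refine prob_le_one.trans ?_
    rw [← ENNReal.ofReal_one]
    exact ENNReal.ofReal_le_ofReal hC
  have hlim2 := (lawTo_iff ⟨ν, hν⟩).1 hlim
  have hU : IsOpen {γ : C(unitInterval, ℂ) | ∃ u, L / 2 < ‖γ u‖} := by
    have h1 : {γ : C(unitInterval, ℂ) | ∃ u, L / 2 < ‖γ u‖} = ⋃ u, {γ : C(unitInterval, ℂ) | L / 2 < ‖γ u‖} := by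
      ext γ
      simp only [Set.mem_setOf_eq, Set.mem_iUnion]
    rw [h1]
    exact isOpen_iUnion fun u => isOpen_lt continuous_const (cont_eval u).norm
  refine (measure_mono ?_).trans (open_le hlim2 hU ?_)
  · rintro γ ⟨u, hu⟩
    exact ⟨u, by linarith⟩
  filter_upwards [hφ.eventually_ge_atTop 1] with k hk
  refine law_le (by positivity) ?_
  have h1 := hT (φ k) hk (cs / 2 * L) (by positivity)
  rw [mul_pow, ← mul_assoc] at h1
  refine le_trans ?_ h1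
  have hsub : ((saw (φ k)).filter fun s => curve s ∈ {γ : C(unitInterval, ℂ) | ∃ u, L / 2 < ‖γ u‖}) ⊆
      (saw (φ k)).filter fun s => ∃ j, j ≤ φ k ∧
        cs / 2 * L * ((φ k : ℕ) : ℝ) ^ (3 / 4 : ℝ) ≤ ‖Pool.Agent.NTS.Res.pos s j‖ := by
    intro s hs
    rw [Finset.mem_filter] at hs ⊢
    obtain ⟨hs1, u, hu⟩ := hs
    obtain ⟨j, hj, h2⟩ := far_curve hk hu
    refine ⟨hs1, j, hj, le_trans ?_ h2⟩
    calc cs / 2 * L * ((φ k : ℕ) : ℝ) ^ (3 / 4 : ℝ) = L / 2 * (cs * ((φ k : ℕ) : ℝ) ^ (3 / 4 : ℝ)) := by ring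
      _ ≤ _ := mul_le_mul_of_nonneg_left (hsz _ hk).1 (by positivity)
  exact_mod_cast Finset.card_le_card hsub

/-- **lower side for the weak limits** -/
theorem limit_low (hc : 0 < c) (hT : ∀ n : ℕ, 1 ≤ n → ∀ L : ℝ, 1 ≤ L → L ≤ c * (n : ℝ) ^ (1 / 4 : ℝ) →
      Real.exp (-(C * L ^ 4)) * ((saw n).card : ℝ) ≤
        (((saw n).filter fun s => L * (n : ℝ) ^ (3 / 4 : ℝ) ≤ ‖Pool.Agent.NTS.Res.pos s n‖).card : ℝ))
    {L : ℝ} (hL : 1 ≤ L) :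
    ENNReal.ofReal (Real.exp (-(C * (Cs + 1) ^ 4 * L ^ 4))) ≤ ν {γ : C(unitInterval, ℂ) | L ≤ ‖γ 1‖} := by
  have hCs : 0 ≤ Cs := by
    obtain ⟨h1, h2⟩ := hsz 1 le_rfl
    rw [Nat.cast_one, Real.one_rpow] at h1 h2
    linarith
  have hlim2 := (lawTo_iff ⟨ν, hν⟩).1 hlim
  have hF : IsClosed {γ : C(unitInterval, ℂ) | L ≤ ‖γ 1‖} := isClosed_le continuous_const (cont_eval 1).norm
  have hk : ∀ᶠ k in atTop, ENNReal.ofReal (Real.exp (-(C * (Cs + 1) ^ 4 * L ^ 4))) ≤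
      (PM (φ k) : Measure C(unitInterval, ℂ)) {γ : C(unitInterval, ℂ) | L ≤ ‖γ 1‖} := by
    have h0 : Tendsto (fun k => c * ((φ k : ℕ) : ℝ) ^ (1 / 4 : ℝ)) atTop atTop :=
      ((tendsto_rpow_atTop (by norm_num)).comp (tendsto_natCast_atTop_atTop.comp hφ)).const_mul_atTop hc
    filter_upwards [hφ.eventually_ge_atTop 1, h0.eventually_ge_atTop ((Cs + 1) * L)] with k hk1 hk2
    refine law_ge (Real.exp_nonneg _) ?_
    have h1 := hT (φ k) hk1 ((Cs + 1) * L) (by nlinarith) hk2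
    rw [mul_pow, ← mul_assoc] at h1
    refine h1.trans ?_
    have hsub : ((saw (φ k)).filter fun s => (Cs + 1) * L * ((φ k : ℕ) : ℝ) ^ (3 / 4 : ℝ) ≤
        ‖Pool.Agent.NTS.Res.pos s (φ k)‖) ⊆
        (saw (φ k)).filter fun s => curve s ∈ {γ : C(unitInterval, ℂ) | L ≤ ‖γ 1‖} := by
      intro s hs
      rw [Finset.mem_filter] at hs ⊢
      refine ⟨hs.1, ?_⟩
      show L ≤ ‖curve s 1‖
      rw [curve_one, norm_div, Complex.norm_of_nonneg (size_nonneg _), le_div_iff₀ (size_pos hk1)]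
      refine le_trans ?_ hs.2
      have h2 := (hsz _ hk1).2
      have h3 : (0 : ℝ) ≤ ((φ k : ℕ) : ℝ) ^ (3 / 4 : ℝ) := by positivity
      calc L * size (φ k) ≤ L * (Cs * ((φ k : ℕ) : ℝ) ^ (3 / 4 : ℝ)) := mul_le_mul_of_nonneg_left h2 (by linarith)
        _ ≤ _ := by nlinarith
    exact_mod_cast Finset.card_le_card hsub
  refine le_trans ?_ (ProbabilityMeasure.limsup_measure_closed_le_of_tendsto hlim2 hF)
  exact le_limsup_of_frequently_le' hk.frequently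

end

end NTSZ
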