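import Pool.Agent.EN.OutSum
import Pool.Agent.EN.ExFun

/-!
EN (every n): the norms of the functionals of the monotone chains with a marked run, the outer piece in a small class.
-/

set_option autoImplicit false

namespace HexObs

namespace EN

namespace OU

open Finset TS SDN SDN.CN NTm NTW NTA EX

open scoped ENNReal

lemma vA_rs {D : ℕ} {W A : Set (List Bool)} (Φ : ℕ → ℕ → List Bool → ℝ≥0∞) (i : ℕ) :
    vA D W (tot (rsF A Φ i)) = vA D (W ∩ A) (tot (Φ i)) := by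
  classical
  funext t
  unfold vA
  rw [Rec8.sw_ind, Rec8.sw_ind]
  refine tsum_congr fun g => ?_
  by_cases h : g ∈ A
  · have h1 : tot (rsF A Φ i) g = tot (Φ i) g := by
      unfold tot rsF
      simp only [if_pos h]
    rw [h1]
    by_cases h2 : g ∈ W ∧ RT D LFold t g
    · rw [if_pos (show g ∈ {g | g ∈ W ∧ RT D LFold t g} from h2),
        if_pos (show g ∈ {g | g ∈ W ∩ A ∧ RT D LFold t g} from ⟨⟨h2.1, h⟩, h2.2⟩)]
    · rw [if_neg (show g ∉ {g | g ∈ W ∧ RT D LFold t g} from h2),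
        if_neg (show g ∉ {g | g ∈ W ∩ A ∧ RT D LFold t g} from fun h3 => h2 ⟨h3.1.1, h3.2⟩)]
  · have h1 : tot (rsF A Φ i) g = 0 := by
      unfold tot rsF
      simp only [if_neg h, tsum_zero]
    rw [h1, mul_zero, if_neg (show g ∉ {g | g ∈ W ∩ A ∧ RT D LFold t g} from fun h3 => h h3.1.2)]
    split_ifs <;> rfl

section

variable {kc J n : ℕ} {W : ℕ → Set (List Bool)} {kp : ℕ → ℕ} {Φ : ℕ → List Bool → ℝ≥0∞}

open QF in
/-- the right functional, the norms of the last pieces given -/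
lemma rightO {K Q x1 : ℝ} (hK1 : 1 ≤ K) (hQ : 128 * K + 1 ≤ Q)
    (hK : ∀ (D0 k0 D1 k1 E N : ℕ) (Φ : List Bool → ℝ≥0∞), Hered Φ → 2 ^ (k0 + 4) ≤ D0 →
      2 ^ (k1 + 4) ≤ D1 → D0 ≤ E → D1 ≤ E → E ≤ N →
      xT D0 k0 (vA D0 (BrR E N) Φ) ≤ ENNReal.ofReal (K * (UU N / Ub k0)) * xT D1 k1 Φ) (hW : Wnd kc J n W kp)
    (hx : 0 ≤ x1) (hΦ : ∀ i i', i ≤ i' → i' < n → xT (2 ^ (kp i + 4)) (kp i) (vA (2 ^ (kp i + 4)) (W i') (Φ i')) ≤
      ENNReal.ofReal (x1 * (Ub (kc + J) / Ub (kp i)))) (M : ℕ) :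
    ∀ i : ℕ, kp i ≤ kc + J → xT (2 ^ (kp i + 4)) (kp i) (Rx W kp n Φ M i) ≤
      ENNReal.ofReal (2 * n * x1 * (Ub (kc + J) / Ub (kp i)) * Q ^ (n - i)) := by
  have hQ1 : 1 ≤ Q := by linarith
  have hn0 : (0 : ℝ) ≤ n := Nat.cast_nonneg n
  have hr : ∀ i, kp i ≤ kc + J → 1 ≤ Ub (kc + J) / Ub (kp i) := fun i hi => by
    rw [le_div_iff₀ (Ub_pos _), one_mul]
    exact Ub_mono hi
  induction M with
  | zero =>
    intro i hi
    show xT _ _ (fun _ => 0) ≤ _
    rw [xT_zero]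
    exact zero_le
  | succ M ih =>
    intro i hi
    have h1 := hr i hi
    obtain ⟨r, hrr⟩ : ∃ r, r = Ub (kc + J) / Ub (kp i) := ⟨_, rfl⟩
    obtain ⟨B, hB⟩ : ∃ B, B = 2 * n * x1 := ⟨_, rfl⟩
    rw [← hB] at ih ⊢
    have hB0 : 0 ≤ B := by rw [hB]; positivity
    rw [← hrr] at h1 ⊢
    have hr0 : 0 ≤ r := by linarith
    have hUi := Ub_pos (kp i)
    have hUL := Ub_pos (kc + J)
    -- the ends
    have h2a : ∀ i' ∈ Ico i n, xT (2 ^ (kp i + 4)) (kp i) (vA (2 ^ (kp i + 4)) (W i') (Φ i')) ≤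
        ENNReal.ofReal (r * x1) := by
      intro i' hi'
      rw [Finset.mem_Ico] at hi'
      rw [mul_comm r x1, hrr]
      exact hΦ i i' hi'.1 hi'.2
    -- the sum
    have h2 : ∀ i' ∈ Ico i n, xT (2 ^ (kp i + 4)) (kp i) (vA (2 ^ (kp i + 4)) (W i') (Rx W kp n Φ M i')) ≤
        ENNReal.ofReal (B * ((if i' = i then r * Q ^ (n - i) / 4 else 0) +
          32 * K * r * (if i + 1 ≤ i' then Q ^ (n - i') else 0))) := by
      intro i' hi'
      rw [Finset.mem_Ico] at hi'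
      rcases hi'.1.eq_or_lt with h3 | h3
      · subst h3
        rw [if_pos rfl, if_neg (by omega), mul_zero, add_zero]
        refine (hW.norm i hi'.2 _ (hered_Rx _ _)).trans ((mul_le_mul_right (ih i hi) _).trans ?_)
        rw [← ENNReal.ofReal_mul (by norm_num), ← hrr]
        apply ENNReal.ofReal_le_ofReal
        linarith
      · rw [if_neg (by omega), if_pos (by omega), zero_add]
        have hUi' := Ub_pos (kp i')
        refine (FB.step hK1 hK hW hi'.2 (hW.mono i i' h3.le) le_rfl (hered_Rx _ _)).trans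
          ((mul_le_mul_right (ih i' (hW.top i' hi'.2)) _).trans ?_)
        rw [← ENNReal.ofReal_mul (by positivity)]
        apply ENNReal.ofReal_le_ofReal
        apply le_of_eq
        rw [hrr]
        field_simp
    have h3 : xT (2 ^ (kp i + 4)) (kp i) (Rx W kp n Φ (M + 1) i) ≤
        ∑ i' ∈ Ico i n, (xT (2 ^ (kp i + 4)) (kp i) (vA (2 ^ (kp i + 4)) (W i') (Φ i')) +
          xT (2 ^ (kp i + 4)) (kp i) (vA (2 ^ (kp i + 4)) (W i') (Rx W kp n Φ M i'))) := by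
      refine (NTW.xT_sum _ _ _ (fun i' => vA (2 ^ (kp i + 4)) (W i') (fun s => Φ i' s + Rx W kp n Φ M i' s))).trans
        (Finset.sum_le_sum fun i' _ => ?_)
      refine (xT_mono fun t => (vA_add _ _ t).le).trans (Ch.xT_add _ _ _ _)
    refine h3.trans ((Finset.sum_le_sum fun i' hi' => add_le_add (h2a i' hi') (h2 i' hi')).trans ?_)
    have hQp : ∀ j, 0 ≤ (if i + 1 ≤ j then Q ^ (n - j) else 0) := fun j => by
      split_ifs
      · positivity
      · exact le_rfl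
    have hQp2 : ∀ j, 0 ≤ (if j = i then r * Q ^ (n - i) / 4 else 0) := fun j => by
      split_ifs
      · positivity
      · exact le_rfl
    have e3 : ∀ i' ∈ Ico i n, ENNReal.ofReal (r * x1) +
        ENNReal.ofReal (B * ((if i' = i then r * Q ^ (n - i) / 4 else 0) +
          32 * K * r * (if i + 1 ≤ i' then Q ^ (n - i') else 0))) =
        ENNReal.ofReal (r * x1 + B * ((if i' = i then r * Q ^ (n - i) / 4 else 0) +
          32 * K * r * (if i + 1 ≤ i' then Q ^ (n - i') else 0))) := fun i' _ => by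
      have a1 := hQp i'
      have a2 := hQp2 i'
      rw [← ENNReal.ofReal_add (by positivity) (by positivity)]
    rw [Finset.sum_congr rfl e3, ← ENNReal.ofReal_sum_of_nonneg (fun i' _ => by
      have a1 := hQp i'
      have a2 := hQp2 i'
      positivity)]
    apply ENNReal.ofReal_le_ofReal
    rw [Finset.sum_add_distrib, Finset.sum_const, ← Finset.mul_sum, Finset.sum_add_distrib, ← Finset.mul_sum, nsmul_eq_mul,
      Nat.card_Ico]
    have hcard : ((n - i : ℕ) : ℝ) ≤ n := by exact_mod_cast Nat.sub_le n i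
    have h4 : ∑ i' ∈ Ico i n, (if i' = i then r * Q ^ (n - i) / 4 else 0) ≤ r * Q ^ (n - i) / 4 := by
      rw [Finset.sum_ite_eq']
      split_ifs
      · exact le_rfl
      · positivity
    have h5 : (Q - 1) * ∑ i' ∈ Ico i n, (if i + 1 ≤ i' then Q ^ (n - i') else 0) ≤ Q ^ (n - i) := by
      rcases Nat.lt_or_ge i n with h6 | h6
      · have h7 := FB.geoR (Q := Q) n (n - (i + 1)) hQ1 (by omega)
        rw [show n - (n - (i + 1)) = i + 1 by omega, show n - (i + 1) + 1 = n - i by omega] at h7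
        refine le_trans (le_of_eq ?_) h7
        congr 1
        rw [Finset.sum_eq_sum_Ico_succ_bot h6, if_neg (by omega), zero_add]
        refine Finset.sum_congr rfl fun i' hi' => ?_
        rw [Finset.mem_Ico] at hi'
        rw [if_pos hi'.1]
      · rw [Finset.Ico_eq_empty (by omega), Finset.sum_empty, mul_zero]
        positivity
    obtain ⟨s, hs⟩ : ∃ s, s = ∑ i' ∈ Ico i n, (if i + 1 ≤ i' then Q ^ (n - i') else 0) := ⟨_, rfl⟩
    rw [← hs] at h5 ⊢
    have hs0 : 0 ≤ s := by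
      rw [hs]
      exact Finset.sum_nonneg fun i' _ => hQp i'
    have h6 : 128 * K * s ≤ Q ^ (n - i) := le_trans (mul_le_mul_of_nonneg_right (by linarith) hs0) h5
    have h7 : 1 ≤ Q ^ (n - i) := one_le_pow₀ hQ1
    have h8 : 32 * K * r * s ≤ r * Q ^ (n - i) / 4 := by
      calc 32 * K * r * s = r * (128 * K * s) / 4 := by ring
        _ ≤ _ := by
          have := mul_le_mul_of_nonneg_left h6 hr0
          linarith
    have h9 : ((n - i : ℕ) : ℝ) * (r * x1) ≤ B * (r * Q ^ (n - i)) / 2 := by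
      calc ((n - i : ℕ) : ℝ) * (r * x1) ≤ n * (r * x1) :=
            mul_le_mul_of_nonneg_right hcard (by positivity)
        _ = B * (r * 1) / 2 := by
            rw [hB]
            ring
        _ ≤ B * (r * Q ^ (n - i)) / 2 := by
            have := mul_le_mul_of_nonneg_left (mul_le_mul_of_nonneg_left h7 hr0) hB0
            linarith
    have h10 : B * (∑ i' ∈ Ico i n, (if i' = i then r * Q ^ (n - i) / 4 else 0) + 32 * K * r * s) ≤
        B * (r * Q ^ (n - i) / 2) := by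
      apply mul_le_mul_of_nonneg_left _ hB0
      linarith
    calc ((n - i : ℕ) : ℝ) * (r * x1) +
          B * (∑ i' ∈ Ico i n, (if i' = i then r * Q ^ (n - i) / 4 else 0) + 32 * K * r * s)
        ≤ B * (r * Q ^ (n - i)) / 2 + B * (r * Q ^ (n - i) / 2) := add_le_add h9 h10
      _ = B * r * Q ^ (n - i) := by ring

end

lemma herD_Gm (kc : ℕ) (R : Set (List (List Bool))) (F : ℕ → List Bool → ℝ≥0∞) :
    HerD (2 ^ (kc + 4)) (Gm kc R F) := herD_iSup fun N => herD_vG Nat.one_le_two_pow _ _ N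

/-- the left part of the sum, the pairings with the first pieces given -/
lemma leftO {K q g x0 : ℝ} {kc J n : ℕ} {W : ℕ → Set (List Bool)} {kp : ℕ → ℕ} {A : Set (List Bool)}
    {Ψ : ℕ → List Bool → ℝ≥0∞} {G : List Bool → ℝ≥0∞} (hK1 : 1 ≤ K) (hq : 128 * K + 1 ≤ q) (hq2 : 2 ≤ q) (hg : 0 ≤ g)
    (hx0 : 0 ≤ x0)
    (hK : ∀ (D0 k0 D1 k1 E N : ℕ) (Φ : List Bool → ℝ≥0∞), Hered Φ → 2 ^ (k0 + 4) ≤ D0 →
      2 ^ (k1 + 4) ≤ D1 → D0 ≤ E → D1 ≤ E → E ≤ N →
      xT D0 k0 (vA D0 (BrR E N) Φ) ≤ ENNReal.ofReal (K * (UU N / Ub k0)) * xT D1 k1 Φ) (hW : Wnd kc J n W kp)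
    (hG : HerD (2 ^ (kc + 4)) G) (hGx : xT (2 ^ (kc + 4)) kc G ≤ ENNReal.ofReal g)
    (hL : ∀ i' i, i' ≤ i → i < n → ∀ F : List Bool → ℝ≥0∞, HerD (2 ^ (kp i' + 4)) F →
      Rec8.sw (W i ∩ A) (fun z => Ψ i (rev z) * F z) ≤
        ENNReal.ofReal (x0 * Ub (kc + J)) * xT (2 ^ (kp i' + 4)) (kp i') F) (M : ℕ) :
    ∑ i ∈ range n, Rec8.sw (W i ∩ A) (fun z => Ψ i (rev z) * FL W kp G M i z) ≤
      ENNReal.ofReal (x0 * Ub (kc + J) * g * q ^ (n + 2)) := by
  have hq1 : 1 ≤ q := by linarith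
  have hq0 : 0 ≤ q := by linarith
  have hUL := Ub_pos (kc + J)
  have hL' := FB.left (Q := q) hK1 hq hg hK hW hG.her hGx
  have h2 : ∀ i ∈ range n, Rec8.sw (W i ∩ A) (fun z => Ψ i (rev z) * FL W kp G M i z) ≤
      ENNReal.ofReal (x0 * Ub (kc + J) * (g * q ^ (i + 2))) := by
    intro i hi
    rw [Finset.mem_range] at hi
    have ha : Rec8.sw (W i ∩ A) (fun z => Ψ i (rev z) * G z) ≤ ENNReal.ofReal (x0 * Ub (kc + J) * g) := by
      refine (hL 0 i (Nat.zero_le i) hi G (by rw [hW.zero]; exact hG)).trans ?_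
      rw [hW.zero]
      refine (mul_le_mul_right hGx _).trans (le_of_eq ?_)
      rw [← ENNReal.ofReal_mul (by positivity)]
    cases M with
    | zero =>
      refine ha.trans ?_
      apply ENNReal.ofReal_le_ofReal
      have : 1 ≤ q ^ (i + 2) := one_le_pow₀ hq1
      have h3 : g ≤ g * q ^ (i + 2) := by nlinarith
      exact mul_le_mul_of_nonneg_left h3 (by positivity)
    | succ M =>
      have e : Rec8.sw (W i ∩ A) (fun z => Ψ i (rev z) * FL W kp G (M + 1) i z) =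
          Rec8.sw (W i ∩ A) (fun z => Ψ i (rev z) * G z) +
          ∑ i' ∈ range (i + 1), Rec8.sw (W i ∩ A) (fun z => Ψ i (rev z) *
            vA (2 ^ (kp i' + 4)) (W i') (FL W kp G M i') z) := by
        rw [← Rec8.sw_sum, ← Rec8.sw_add]
        refine Rec8.sw_congr fun z _ => ?_
        rw [← Finset.mul_sum, ← mul_add]
        rfl
      rw [e]
      have hb : ∀ i' ∈ range (i + 1), Rec8.sw (W i ∩ A) (fun z => Ψ i (rev z) *
            vA (2 ^ (kp i' + 4)) (W i') (FL W kp G M i') z) ≤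
          ENNReal.ofReal (x0 * Ub (kc + J) * (q ^ (i' + 1) * g)) := by
        intro i' hi'
        rw [Finset.mem_range] at hi'
        refine (hL i' i (by omega) hi _ (NTm.herD_vA Nat.one_le_two_pow _ _)).trans
          ((mul_le_mul_right (hL' M i' (by omega)) _).trans (le_of_eq ?_))
        rw [← ENNReal.ofReal_mul (by positivity)]
      refine (add_le_add ha (Finset.sum_le_sum hb)).trans ?_
      rw [← ENNReal.ofReal_sum_of_nonneg (fun i' _ => by positivity),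
        ← ENNReal.ofReal_add (by positivity) (by positivity)]
      apply ENNReal.ofReal_le_ofReal
      rw [← Finset.mul_sum, ← mul_add]
      apply mul_le_mul_of_nonneg_left _ (by positivity)
      rw [← Finset.sum_mul]
      have h3 := FB.geoL (Q := q) (i + 1)
      have h4 : ∑ i' ∈ range (i + 1), q ^ (i' + 1) ≤ q ^ (i + 1 + 1) - q := by
        have h5 : 0 ≤ ∑ i' ∈ range (i + 1), q ^ (i' + 1) := Finset.sum_nonneg fun _ _ => by positivity
        nlinarith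
      have h5 : 1 + ∑ i' ∈ range (i + 1), q ^ (i' + 1) ≤ q ^ (i + 2) := by linarith
      calc g + (∑ i' ∈ range (i + 1), q ^ (i' + 1)) * g = g * (1 + ∑ i' ∈ range (i + 1), q ^ (i' + 1)) := by ring
        _ ≤ g * q ^ (i + 2) := mul_le_mul_of_nonneg_left h5 hg
  refine (Finset.sum_le_sum h2).trans ?_
  rw [← ENNReal.ofReal_sum_of_nonneg (fun i' _ => by positivity)]
  apply ENNReal.ofReal_le_ofReal
  rw [← Finset.mul_sum, ← Finset.mul_sum]
  have h3 : ∑ i ∈ range n, q ^ (i + 2) ≤ q ^ (n + 2) := by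
    have h4 := FB.geoL (Q := q) n
    have h5 : ∑ i ∈ range n, q ^ (i + 2) = q * ∑ i ∈ range n, q ^ (i + 1) := by
      rw [Finset.mul_sum]
      exact Finset.sum_congr rfl fun i _ => by ring
    have h6 : 0 ≤ ∑ i ∈ range n, q ^ (i + 1) := Finset.sum_nonneg fun _ _ => by positivity
    have h7 : ∑ i ∈ range n, q ^ (i + 1) ≤ q ^ (n + 1) := by nlinarith
    rw [h5]
    calc q * ∑ i ∈ range n, q ^ (i + 1) ≤ q * q ^ (n + 1) := mul_le_mul_of_nonneg_left h7 hq0
      _ = q ^ (n + 2) := by ring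
  calc x0 * Ub (kc + J) * (g * ∑ i ∈ range n, q ^ (i + 2)) ≤ x0 * Ub (kc + J) * (g * q ^ (n + 2)) := by gcongr
    _ = _ := by ring

open QF in
/-- **the norms, the last piece in S / the first piece in S** -/
theorem fun_boundO {Dm : ℕ → ℝ≥0∞ → (List Bool → ℝ≥0∞) → Prop} (hDm : DmP Dm) (hA : SsA) (h3 : Ss3) (hD : SsD) :
    ∃ Q : ℝ, 1 ≤ Q ∧ ∀ (kc J n : ℕ) (W : ℕ → Set (List Bool)) (kp : ℕ → ℕ) (R : Set (List (List Bool)))
      (S : Set (List Bool)) (δ ε x : ℝ) (x0 : ℝ≥0∞) (Φ : ℕ → ℕ → List Bool → ℝ≥0∞), Wnd kc J n W kp → 1 ≤ n → 0 ≤ δ →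
      0 ≤ ε → 0 ≤ x → SmRX Dm kc R δ → (∀ i, i < n → Dom (kp i) (ENNReal.ofReal x) (tot (Φ i))) →
      x0 ≤ ENNReal.ofReal x → Dm kc x0 (tot (Φ 0)) → (∀ c, Flp (2 ^ (kc + 4)) (Φ 0 c)) → GH (2 ^ (kc + 4)) (Φ 0) →
      (∀ i i', i ≤ i' → i' < n → xT (2 ^ (kp i + 4)) (kp i) (vA (2 ^ (kp i + 4)) (W i' ∩ S) (tot (Φ i'))) ≤
        ENNReal.ofReal (ε * x * (Ub (kc + J) / Ub (kp i)))) →
      (∀ i' i, i' ≤ i → i < n → ∀ F : List Bool → ℝ≥0∞, HerD (2 ^ (kp i' + 4)) F →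
        Rec8.sw (W i ∩ S) (fun z => tot (Φ i) (rev z) * F z) ≤
          ENNReal.ofReal (ε * x * Ub (kc + J)) * xT (2 ^ (kp i' + 4)) (kp i') F) → ∀ M N : ℕ,
    (Rec8.sw (HB (2 ^ (kc + 4))) (fun g => ∑ c ∈ range (N + 1), Φ 0 c (rev g) *
        sh (runG R (Rg W kp n (rsF S Φ) M 0)) (N - c) g) +
      ∑ i ∈ range n, Rec8.sw (W i ∩ Set.univ) (fun g => tot (Φ i) (rev g) *
        FL W kp (Gm kc R (Rg W kp n (rsF S Φ) M 0)) M i g) ≤
      ENNReal.ofReal (Q ^ (n + J + 1) * (δ * ε) * Ub (kc + J) * x ^ 2)) ∧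
    ∑ i ∈ range n, Rec8.sw (W i ∩ S) (fun g => tot (Φ i) (rev g) * FL W kp (Gm kc R (Fg W kp n Φ M 0)) M i g) ≤
      ENNReal.ofReal (Q ^ (n + J + 1) * (δ * ε) * Ub (kc + J) * x ^ 2) := by
  obtain ⟨C, δ0, hInp⟩ := inp_exists
  obtain ⟨K, hK1, hK⟩ := two_scale
  obtain ⟨K2, hK2, hN⟩ := nextD_of hInp hA h3
  obtain ⟨K3, hK3, hT⟩ := two2_of hA hD
  obtain ⟨K4, hK4, hX⟩ := Dom_xT hInp
  obtain ⟨q, hq⟩ : ∃ q : ℝ, q = 128 * K + 1 := ⟨_, rfl⟩
  have hq1 : 1 ≤ q := by linarith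
  have hq2 : 2 ≤ q := by linarith
  have hq0 : 0 ≤ q := by linarith
  obtain ⟨A, hAdef⟩ : ∃ A : ℝ, A = 65 * (K2 * (K3 * K4)) * 2 := ⟨_, rfl⟩
  have hKKK : 1 ≤ K2 * (K3 * K4) := one_le_mul_of_one_le_of_one_le hK2 (one_le_mul_of_one_le_of_one_le hK3 hK4)
  have hA1 : 1 ≤ A := by linarith
  refine ⟨A * q ^ 3, one_le_mul_of_one_le_of_one_le hA1 (one_le_pow₀ hq1), ?_⟩
  intro kc J n W kp R S δ ε x x0 Φ hW hn hδ hε hx hS hΦ hx0 hΦ0 hflp hΦh hRS hLS M N
  have hK20 : 0 ≤ K2 := by linarith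
  have hK30 : 0 ≤ K3 := by linarith
  have hK40 : 0 ≤ K4 := by linarith
  have hU := Ub_pos kc
  have hUL := Ub_pos (kc + J)
  have hUJ : Ub (kc + J) ≤ 2 ^ J * Ub kc := UU_ratio_up kc J
  have hn0 : (0 : ℝ) ≤ n := Nat.cast_nonneg n
  have hn1 : (1 : ℝ) ≤ n := by exact_mod_cast hn
  obtain ⟨r, hr⟩ : ∃ r, r = Ub (kc + J) / Ub kc := ⟨_, rfl⟩
  have hr1 : 1 ≤ r := by
    rw [hr, le_div_iff₀ hU, one_mul]
    exact Ub_mono (by omega)
  have hr0 : 0 ≤ r := by linarith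
  have hrJ : r ≤ 2 ^ J := by
    rw [hr, div_le_iff₀ hU]
    exact hUJ
  have hqn : 1 ≤ q ^ n := one_le_pow₀ hq1
  have hqn2 : 1 ≤ q ^ (n + 2) := one_le_pow₀ hq1
  -- the numbers
  have h6 : (n : ℝ) ≤ q ^ n := by
    have a1 : n < 2 ^ n := Nat.lt_two_pow_self
    have a2 : (n : ℝ) ≤ 2 ^ n := by exact_mod_cast a1.le
    exact a2.trans (pow_le_pow_left₀ (by norm_num) hq2 n)
  have h7 : r ≤ q ^ J := hrJ.trans (pow_le_pow_left₀ (by norm_num) hq2 J)
  have h8 : (n : ℝ) * r * q ^ n * q ^ (n + 2) ≤ (q ^ 3) ^ (n + J + 1) := by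
    calc (n : ℝ) * r * q ^ n * q ^ (n + 2) ≤ q ^ n * q ^ J * q ^ n * q ^ (n + 2) := by gcongr
      _ = q ^ (n + J + n + (n + 2)) := by ring
      _ ≤ q ^ (3 * (n + J + 1)) := pow_le_pow_right₀ hq1 (by omega)
      _ = _ := by rw [pow_mul]
  have h9 : A ≤ A ^ (n + J + 1) := by
    calc A = A ^ 1 := (pow_one _).symm
      _ ≤ _ := pow_le_pow_right₀ hA1 (by omega)
  have hfin : A * (n * r * q ^ n * q ^ (n + 2)) * (δ * ε * Ub (kc + J) * x ^ 2) ≤
      (A * q ^ 3) ^ (n + J + 1) * (δ * ε) * Ub (kc + J) * x ^ 2 := by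
    calc A * (n * r * q ^ n * q ^ (n + 2)) * (δ * ε * Ub (kc + J) * x ^ 2)
        ≤ A ^ (n + J + 1) * (q ^ 3) ^ (n + J + 1) * (δ * ε * Ub (kc + J) * x ^ 2) := by gcongr
      _ = (A * q ^ 3) ^ (n + J + 1) * (δ * ε) * Ub (kc + J) * x ^ 2 := by
          rw [← mul_pow]
          ring
  have hUU : Ub kc ≤ Ub (kc + J) := Ub_mono (by omega)
  have hK34 : 1 ≤ K3 * K4 := one_le_mul_of_one_le_of_one_le hK3 hK4
  have hnrq : 1 ≤ (n : ℝ) * r * q ^ n :=
    one_le_mul_of_one_le_of_one_le (one_le_mul_of_one_le_of_one_le hn1 hr1) hqn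
  constructor
  · -- the last piece in S
    obtain ⟨B, hB⟩ : ∃ B : ℝ, B = 2 * n * (ε * x) * r * q ^ n := ⟨_, rfl⟩
    have hB0 : 0 ≤ B := by rw [hB]; positivity
    have hRx : xT (2 ^ (kc + 4)) kc (tot (Rg W kp n (rsF S Φ) M 0)) ≤ ENNReal.ofReal B := by
      rw [tot_Rg]
      have h1 := rightO (Q := q) (Φ := fun i => tot (rsF S Φ i)) hK1 (by linarith) hK hW
        (show 0 ≤ ε * x by positivity) (fun i i' h1 h2 => by
          simp only [vA_rs]
          exact hRS i i' h1 h2) M 0 (by rw [hW.zero]; omega)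
      rw [hW.zero, Nat.sub_zero, ← hr, ← hB] at h1
      exact h1
    have hRg : GH (2 ^ (kc + 4)) (Rg W kp n (rsF S Φ) M 0) := by
      have := GH_Rg W kp n (rsF S Φ) M 0
      rwa [hW.zero] at this
    have hRD : Dm kc (xT (2 ^ (kc + 4)) kc (tot (Rg W kp n (rsF S Φ) M 0))) (tot (Rg W kp n (rsF S Φ) M 0)) :=
      hDm.dm kc _ (herD_tot hRg)
    obtain ⟨g, hg⟩ : ∃ g : ℝ, g = δ * B := ⟨_, rfl⟩
    have hg0 : 0 ≤ g := by
      rw [hg]
      positivity
    have hG : xT (2 ^ (kc + 4)) kc (Gm kc R (Rg W kp n (rsF S Φ) M 0)) ≤ ENNReal.ofReal g := by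
      refine ((hS.near _ _ hRg hRD).trans (mul_le_mul_right hRx _)).trans (le_of_eq ?_)
      rw [← ENNReal.ofReal_mul hδ, hg]
    have h1 : Rec8.sw (HB (2 ^ (kc + 4))) (fun g => ∑ c ∈ range (N + 1), Φ 0 c (rev g) *
        sh (runG R (Rg W kp n (rsF S Φ) M 0)) (N - c) g) ≤ ENNReal.ofReal (Ub kc * x * g) := by
      refine ((hS.free _ _ _ _ hΦh hflp hRg hΦ0 hRD N).trans (mul_le_mul_right (mul_le_mul' hx0 hRx) _)).trans
        (le_of_eq ?_)
      rw [← ENNReal.ofReal_mul hx, ← ENNReal.ofReal_mul (by positivity), hg]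
      congr 1
      ring
    have hpair : ∀ i' i, i' ≤ i → i < n → ∀ F : List Bool → ℝ≥0∞, HerD (2 ^ (kp i' + 4)) F →
        Rec8.sw (W i ∩ Set.univ) (fun z => tot (Φ i) (rev z) * F z) ≤
          ENNReal.ofReal (32 * (K3 * K4) * x * Ub (kc + J)) * xT (2 ^ (kp i' + 4)) (kp i') F := by
      intro i' i hi' hi F hF
      have hk1 : kp i' ≤ kp i := hW.mono i' i hi'
      have e0 : 2 ^ (kp i' + 4) ≤ 2 ^ (kp i + 4) := Nat.pow_le_pow_right (by norm_num) (by omega)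
      have e2 : 2 ^ (kp i + 4) ≤ 2 ^ (kp i + 5) := Nat.pow_le_pow_right (by norm_num) (by omega)
      refine (Rec8.sw_mono (Set.inter_subset_left.trans (hW.sub i hi)) fun _ _ => le_rfl).trans
        ((hT (kp i) (kp i') _ _ _ _ (tot (Φ i)) F (hΦ i hi)
        (hX (2 ^ (kp i' + 4)) (kp i') (kp i') F hF.her le_rfl le_rfl) le_rfl e0 e2).trans ?_)
      have hUp := Num2Aux.UU_pos (2 ^ (kp i + 5))
      calc ENNReal.ofReal (K3 * UU (2 ^ (kp i + 5))) * (ENNReal.ofReal x *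
            (ENNReal.ofReal K4 * xT (2 ^ (kp i' + 4)) (kp i') F)) =
            ENNReal.ofReal (K3 * UU (2 ^ (kp i + 5)) * x * K4) * xT (2 ^ (kp i' + 4)) (kp i') F := by
            have e5 : ENNReal.ofReal (K3 * UU (2 ^ (kp i + 5)) * x * K4) = ENNReal.ofReal (K3 * UU (2 ^ (kp i + 5))) *
                (ENNReal.ofReal x * ENNReal.ofReal K4) := by
              rw [← ENNReal.ofReal_mul hx, ← ENNReal.ofReal_mul (by positivity)]
              congr 1
              ring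
            rw [e5]
            ring
        _ ≤ _ := by
            refine mul_le_mul_left (ENNReal.ofReal_le_ofReal ?_) _
            have h3 : UU (2 ^ (kp i + 5)) ≤ 2 ^ 5 * Ub (kp i) := UU_ratio_up (kp i) 5
            have h4 : Ub (kp i) ≤ Ub (kc + J) := Ub_mono (hW.top i hi)
            calc K3 * UU (2 ^ (kp i + 5)) * x * K4 ≤ K3 * (2 ^ 5 * Ub (kc + J)) * x * K4 := by
                  gcongr
                  linarith
              _ = _ := by ring
    have h2 := leftO hK1 (le_of_eq hq.symm) hq2 hg0 (show 0 ≤ 32 * (K3 * K4) * x by positivity) hK hW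
      (herD_Gm kc R (Rg W kp n (rsF S Φ) M 0)) hG hpair M
    refine (add_le_add h1 h2).trans ?_
    rw [← ENNReal.ofReal_add (by positivity) (by positivity)]
    apply ENNReal.ofReal_le_ofReal
    refine le_trans ?_ hfin
    have hg2 : g = 2 * (n * r * q ^ n) * (δ * ε * x) := by
      rw [hg, hB]
      ring
    have a1 : Ub kc * x * g ≤ (K3 * K4) * Ub (kc + J) * x * g * q ^ (n + 2) := by
      have b1 : Ub kc ≤ (K3 * K4) * Ub (kc + J) * q ^ (n + 2) := by
        calc Ub kc ≤ Ub (kc + J) := hUU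
          _ = 1 * Ub (kc + J) * 1 := by ring
          _ ≤ (K3 * K4) * Ub (kc + J) * q ^ (n + 2) := by gcongr
      calc Ub kc * x * g ≤ ((K3 * K4) * Ub (kc + J) * q ^ (n + 2)) * x * g := by gcongr
        _ = _ := by ring
    calc Ub kc * x * g + 32 * (K3 * K4) * x * Ub (kc + J) * g * q ^ (n + 2)
        ≤ (K3 * K4) * Ub (kc + J) * x * g * q ^ (n + 2) + 32 * (K3 * K4) * x * Ub (kc + J) * g * q ^ (n + 2) := by
          linarith
      _ = 33 * (1 * (K3 * K4)) * Ub (kc + J) * x * g * q ^ (n + 2) := by ring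
      _ ≤ 65 * (K2 * (K3 * K4)) * Ub (kc + J) * x * g * q ^ (n + 2) := by gcongr; norm_num
      _ = A * (n * r * q ^ n * q ^ (n + 2)) * (δ * ε * Ub (kc + J) * x ^ 2) := by
          rw [hg2, hAdef]
          ring
  · -- the first piece in S
    obtain ⟨B, hB⟩ : ∃ B : ℝ, B = 64 * K2 * n * x * r * q ^ n := ⟨_, rfl⟩
    have hB0 : 0 ≤ B := by rw [hB]; positivity
    have hRx : xT (2 ^ (kc + 4)) kc (tot (Rg W kp n Φ M 0)) ≤ ENNReal.ofReal B := by
      rw [tot_Rg]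
      have h1 := rightX (Q := q) hK1 (by linarith) hK hK2 hN hW hx hΦ M 0
        (by rw [hW.zero]; omega)
      rw [hW.zero, Nat.sub_zero, ← hr, ← hB] at h1
      exact h1
    have hRg : GH (2 ^ (kc + 4)) (Rg W kp n Φ M 0) := by
      have := GH_Rg W kp n Φ M 0
      rwa [hW.zero] at this
    have hRD : Dm kc (xT (2 ^ (kc + 4)) kc (tot (Rg W kp n Φ M 0))) (tot (Rg W kp n Φ M 0)) :=
      hDm.dm kc _ (herD_tot hRg)
    obtain ⟨g, hg⟩ : ∃ g : ℝ, g = δ * (x + B) := ⟨_, rfl⟩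
    have hg0 : 0 ≤ g := by
      rw [hg]
      positivity
    have hG : xT (2 ^ (kc + 4)) kc (Gm kc R (Fg W kp n Φ M 0)) ≤ ENNReal.ofReal g := by
      refine (xT_mono fun t => Gm_add kc R (Φ 0) (Rg W kp n Φ M 0) t).trans ((Ch.xT_add _ _ _ _).trans ((add_le_add
        ((hS.near _ _ hΦh hΦ0).trans (mul_le_mul_right hx0 _))
        ((hS.near _ _ hRg hRD).trans (mul_le_mul_right hRx _))).trans (le_of_eq ?_)))
      rw [← ENNReal.ofReal_mul hδ, ← ENNReal.ofReal_mul hδ, ← ENNReal.ofReal_add (by positivity) (by positivity), hg]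
      congr 1
      ring
    have h2 := leftO hK1 (le_of_eq hq.symm) hq2 hg0 (show 0 ≤ ε * x by positivity) hK hW
      (herD_Gm kc R (Fg W kp n Φ M 0)) hG hLS M
    refine h2.trans (ENNReal.ofReal_le_ofReal ?_)
    refine le_trans ?_ hfin
    have h5 : g ≤ 65 * K2 * (δ * x) * (n * r * q ^ n) := by
      have a2 : δ * x ≤ K2 * (δ * x) * (n * r * q ^ n) := by
        have b1 : 1 ≤ K2 * (n * r * q ^ n) := one_le_mul_of_one_le_of_one_le hK2 hnrq
        calc δ * x = (δ * x) * 1 := (mul_one _).symm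
          _ ≤ (δ * x) * (K2 * (n * r * q ^ n)) := mul_le_mul_of_nonneg_left b1 (by positivity)
          _ = _ := by ring
      rw [hg, hB]
      calc δ * (x + 64 * K2 * n * x * r * q ^ n) = δ * x + 64 * (K2 * (δ * x) * (n * r * q ^ n)) := by ring
        _ ≤ K2 * (δ * x) * (n * r * q ^ n) + 64 * (K2 * (δ * x) * (n * r * q ^ n)) := by linarith
        _ = _ := by ring
    calc ε * x * Ub (kc + J) * g * q ^ (n + 2)
        ≤ ε * x * Ub (kc + J) * (65 * K2 * (δ * x) * (n * r * q ^ n)) * q ^ (n + 2) := by gcongr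
      _ = 65 * (K2 * 1) * 1 * (n * r * q ^ n * q ^ (n + 2)) * (δ * ε * Ub (kc + J) * x ^ 2) := by ring
      _ ≤ 65 * (K2 * (K3 * K4)) * 2 * (n * r * q ^ n * q ^ (n + 2)) * (δ * ε * Ub (kc + J) * x ^ 2) := by
          gcongr
          norm_num
      _ = A * (n * r * q ^ n * q ^ (n + 2)) * (δ * ε * Ub (kc + J) * x ^ 2) := by rw [hAdef]

end OU

end EN

end HexObs
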