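import Pool.Agent.EN.OutExS
import Pool.Agent.EN.OutGeo2

/-!
EN (every number of letters): walks with a run in R and a large range, exactly n letters, three directions.
-/

set_option autoImplicit false

namespace HexObs

namespace EN

open Finset TS SDN NTW NTA

open scoped ENNReal

theorem out_geoP : OutGeoP := fun _ _ _ _ _ _ _ hm hn ht hr => out_geo hm hn ht hr

/-- **the outer mark, three directions** -/
theorem exs : ∃ (C : ℝ) (k0 : ℕ), 1 ≤ C ∧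
    ∀ (d : Fin 3) (kc J n H m1 : ℕ) (R : Set (List (List Bool))) (δ δ' ε : ℝ), k0 ≤ kc → 6 ≤ J → 0 < δ → 0 < δ' →
      0 < ε → (∀ ms ∈ R, ms.length ≤ m1) → SmRX DmJ kc R δ →
      SmRX DmJ kc {ms | ms ∈ R ∧ ∃ g ∈ ms, 2 ^ H ≤ hgt g ∧ g.length ≤ n} δ' →
      (∀ k1, kc ≤ k1 → k1 ≤ kc + J + 5 →
        SmD DmJ k1 {g | g ∈ BrR (2 ^ (k1 + 4)) (2 ^ (kc + J + 7)) ∧ 2 ^ H ≤ hgt g ∧ g.length ≤ n} ε) →
      gf {t | t.length = n ∧ t ∈ WL (kc + J) ∧ HR d kc R t ∧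
        ∃ i j, i ≤ n ∧ j ≤ n ∧ 6 * ((m1 : ℤ) + 3) * 2 ^ H ≤ lv3 d (vx oo up t i) - lv3 d (vx oo up t j)} ≤
        ENNReal.ofReal (C ^ J * (δ * ε + δ') * Ub (kc + J)) * Xb (kc + J) ^ 2 := exs_of out_geoP

end EN

end HexObs
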