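import Pool.Agent.EN.LatU
import Pool.Agent.EN.GBM

/-!
EN: the lateral spread at the exact length for the mean length of the bridges, without hypothesis.
-/

set_option autoImplicit false

namespace HexObs

namespace EN

open Finset TS SDN NTW NTA

open scoped ENNReal

/-- **ALat for the mean length, no hypothesis** -/
theorem aLat_M : ALat (fun k => PW.mZ (2 ^ k)) := by
  obtain ⟨a1, h1, h2, hI⟩ := indB2_M
  exact aLat_of mlow_M c1_M markov_M h1 h2 hI

end EN

end HexObs
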