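import Pool.Agent.EN.LowCLay
import Pool.Agent.NTA.RunDir

/-!
EN (the end point at exactly n letters, with a centre): the layers in the direction true from the layers by the vertical
range.
-/

set_option autoImplicit false

namespace HexObs

namespace EN

namespace LC

open Finset TS SDN NTW NTA LW

open scoped ENNReal

/-- levels in a rotated frame -/
lemma lvl_rot {u p : Pt} (hu : u ∈ dirs) {R : ℝ} (h : ∀ dir : Bool, |((lvl dir p : ℤ) : ℝ)| ≤ R) (d : Bool) :
    |((lvl d (mulE (conjE u) p) : ℤ) : ℝ)| ≤ 2 * R := by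
  have h0 := h false
  have h1 := h true
  have hR : 0 ≤ R := (abs_nonneg _).trans h0
  have e : ∀ q : Pt, lvl false q = 2 * q.2 + q.1 := by
    intro q
    show ip q up = _
    simp only [ip, up]
    ring
  have e' : ∀ q : Pt, lvl true q = -2 * q.1 - q.2 := by
    intro q
    show ip q (-1, 0) = _
    simp only [ip]
    ring
  rw [e, abs_le] at h0
  rw [e', abs_le] at h1
  push_cast at h0 h1
  simp only [dirs, Finset.mem_insert, Finset.mem_singleton] at hu
  cases d
  · rw [e, abs_le]
    rcases hu with rfl | rfl | rfl | rfl | rfl | rfl <;>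
    · simp only [mulE, conjE]
      push_cast
      constructor <;> linarith [h0.1, h0.2, h1.1, h1.2]
  · rw [e', abs_le]
    rcases hu with rfl | rfl | rfl | rfl | rfl | rfl <;>
    · simp only [mulE, conjE]
      push_cast
      constructor <;> linarith [h0.1, h0.2, h1.1, h1.2]

/-- words with an initial zigzag, the class of the rest depends on the number of letters of the zigzag -/
lemma gf_zz3 {F : ℕ → Set (List Bool)} {B : ℝ≥0∞} (hF : ∀ q, gf (F q) ≤ B) {T : Set (List Bool)}
    (hT : ∀ t ∈ T, ∃ q, ∃ s, t = DirA.Qz q ++ s ∧ s ∈ F q) : gf T ≤ ENNReal.ofReal DirA.CD * B := by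
  have hQ : ∀ q : ℕ, gf ({DirA.Qz q} : Set (List Bool)) = ENNReal.ofReal (xc ^ q) := by
    intro q
    have := gf_finset {DirA.Qz q}
    rw [Finset.coe_singleton, Finset.sum_singleton, DirA.Qz_length] at this
    exact this
  have h1 : T ⊆ ⋃ q : ℕ, {t | ∃ s ∈ F q, t = DirA.Qz q ++ s} := by
    intro t ht
    obtain ⟨q, s, h1, h2⟩ := hT t ht
    exact Set.mem_iUnion.2 ⟨q, s, h2, h1⟩
  refine (gf_mono h1).trans ((ENNReal.tsum_iUnion_le_tsum wE _).trans ?_)
  have h2 : ∀ q : ℕ, gf {t | ∃ s ∈ F q, t = DirA.Qz q ++ s} ≤ ENNReal.ofReal (xc ^ q) * B := by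
    intro q
    rw [← hQ q]
    refine (gf_le_mul (R := F q) fun t ht => ?_).trans (mul_le_mul_right (hF _) _)
    obtain ⟨s, hs, h4⟩ := ht
    exact ⟨DirA.Qz q, rfl, s, hs, h4⟩
  refine (ENNReal.tsum_le_tsum h2).trans ?_
  rw [ENNReal.tsum_mul_right]
  exact mul_le_mul_left (le_of_eq DirA.tsum_xc) _

/-- the centre in the frame behind the zigzag with q letters -/
def cz (z : Pt) (q : ℕ) : Pt :=
  mulE (conjE (rotTo up (dx up (DirA.Qz q) q))) (z - vx oo up (DirA.Qz q) q)

/-- the word behind the initial zigzag -/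
lemma true_dropC {z : Pt} {κ κ' : ℝ} {K n : ℕ} (hK : 3 ≤ K) (hκ : 2 * κ ≤ κ') {t : List Bool}
    (ht : t ∈ LDC true z κ K n) : ∃ q, ∃ s, t = DirA.Qz q ++ s ∧ s ∈ LYC (cz z q) κ' K (n - q) := by
  classical
  obtain ⟨hW, hn, ⟨i, hi, hx⟩, he⟩ := ht
  have hK4 : (4 : ℤ) ≤ 2 ^ (K - 1) := by
    have h1 : (2 : ℤ) ^ 2 ≤ 2 ^ (K - 1) := pow_le_pow_right₀ (by norm_num) (by omega)
    norm_num at h1
    omega
  have hx2 : 3 * 2 ^ (K - 1) + 1 ≤ |lvl true (vx oo up t i)| := by
    unfold row at hx
    have h2 := le_abs_self (lvl true (vx oo up t i))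
    have h3 := neg_le_abs (lvl true (vx oo up t i))
    generalize (2 : ℤ) ^ (K - 1) = X at *
    rcases lt_abs.1 hx with h4 | h4 <;> omega
  have hex : ∃ q, q ≤ t.length ∧ DirA.vert (dx up t q) := by
    by_contra hc
    push Not at hc
    have h1 : ∀ j, j < t.length → ¬ DirA.vert (dx up t j) := fun j hj => hc j hj.le
    have h2 := DirA.zz_lvl h1 i hi
    rw [h2] at hx2
    split_ifs at hx2
    · rw [abs_zero] at hx2
      omega
    · rw [abs_neg, abs_one] at hx2
      omega
  obtain ⟨hq0, hv⟩ := Nat.find_spec hex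
  have hmin : ∀ j, j < Nat.find hex → ¬ DirA.vert (dx up t j) := fun j hj h => Nat.find_min hex hj ⟨by omega, h⟩
  set q := Nat.find hex
  have hWd := RD.drop_WL hW hq0 hv
  obtain ⟨σ, hσ, h1, h2, -⟩ := RD.drop_dir hq0 hv
  have hz := DirA.zz_lvl hmin
  have hzq : |lvl true (vx oo up t q)| ≤ 1 := by
    rw [hz q le_rfl]
    split_ifs
    · rw [abs_zero]
      norm_num
    · rw [abs_neg, abs_one]
  have hls : (t.drop q).length = n - q := by rw [List.length_drop, hn]
  have htq : t = DirA.Qz q ++ t.drop q := by rw [← DirA.take_eq hq0 hmin hv, List.take_append_drop]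
  refine ⟨q, t.drop q, htq, ?_⟩
  have hs1 : |σ| = 1 := by
    rcases hσ with h | h <;> rw [h] <;> norm_num
  have hlev : ∀ j, |lev (t.drop q) j| = |lvl true (vx oo up t (q + j)) - lvl true (vx oo up t q)| := by
    intro j
    rw [h1 j, add_sub_cancel_left, abs_mul, hs1, one_mul]
  refine ⟨hWd.1, hls, fun j hj => ?_, ?_, ?_⟩
  · rw [hls] at hj
    rw [hlev j]
    have a1 := abs_lvl_WL hW (show q + j ≤ t.length by omega) true
    have a2 := abs_sub (lvl true (vx oo up t (q + j))) (lvl true (vx oo up t q))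
    omega
  · have hqi : q ≤ i := by
      by_contra hc
      rw [hz i (by omega)] at hx2
      split_ifs at hx2
      · rw [abs_zero] at hx2
        omega
      · rw [abs_neg, abs_one] at hx2
        omega
    refine ⟨i - q, by rw [hls]; omega, ?_⟩
    rw [hlev, Nat.add_sub_cancel' hqi]
    have a2 := abs_sub_abs_le_abs_sub (lvl true (vx oo up t i)) (lvl true (vx oo up t q))
    omega
  · obtain ⟨u, hu⟩ : ∃ u, u = rotTo up (dx up (DirA.Qz q) q) := ⟨_, rfl⟩
    obtain ⟨P, hP⟩ : ∃ P, P = vx oo up (DirA.Qz q) q := ⟨_, rfl⟩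
    obtain ⟨hud, hue⟩ := frame_dir (PZ.dx_mem (DirA.Qz q) q)
    rw [← hu] at hud hue
    have hQl := DirA.Qz_length q
    have e1 : vx oo up t t.length = P + mulE u (vx oo up (t.drop q) (t.drop q).length) := by
      rw [← vx_frameN, ← hue, hP]
      have g1 : vx oo up t q = vx oo up (DirA.Qz q) q := by
        conv_lhs => rw [htq]
        exact vx_append (by omega)
      have g2 : dx up t q = dx up (DirA.Qz q) q := by
        conv_lhs => rw [htq]
        exact dx_append (by omega)
      rw [← g1, ← g2]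
      have g3 := vx_dropN oo up t q (t.drop q).length
      rw [g3, List.length_drop, Nat.add_sub_cancel' hq0]
    have e2 : vx oo up (t.drop q) (t.drop q).length - cz z q = mulE (conjE u) (vx oo up t t.length - z) := by
      have g4 : ∀ v : Pt, mulE (conjE u) (mulE u v) = v := by
        intro v
        rw [mulE_assoc, mulE_comm (conjE u) u, mulE_conjE, mem_dirs.1 hud, mulE_one]
      have g5 : vx oo up t t.length - z = mulE u (vx oo up (t.drop q) (t.drop q).length) + -(z - P) := by
        rw [e1]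
        abel
      have g6 : mulE (conjE u) (-(z - P)) = -mulE (conjE u) (z - P) := by
        unfold mulE
        ext <;> simp <;> ring
      rw [g5, mulE_add, g4, g6]
      unfold cz
      rw [← hu, ← hP]
      abel
    intro d
    have hR : ∀ dir : Bool, |((lvl dir (vx oo up t t.length - z) : ℤ) : ℝ)| ≤ κ * 2 ^ K := by
      intro dir
      rw [lvl_sub']
      exact he dir
    have e3 := lvl_rot hud hR d
    rw [← e2, lvl_sub'] at e3
    refine e3.trans ?_
    calc 2 * (κ * 2 ^ K) = 2 * κ * 2 ^ K := by ring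
      _ ≤ κ' * 2 ^ K := mul_le_mul_of_nonneg_right hκ (by positivity)

/-- **the layers in the direction true** -/
theorem LDCs_true {m : ℕ → ℝ} (h : LYCs m) : LDCs true m := by
  intro ε hε
  have hCD := DirA.CD_ge
  have hCDp : 0 < DirA.CD := by linarith
  obtain ⟨κ', K1, hκ', h1⟩ := h (ε / DirA.CD) (by positivity)
  refine ⟨κ' / 2, max K1 3, by positivity, fun K n hK z => ?_⟩
  refine (gf_zz3 (F := fun q => LYC (cz z q) κ' K (n - q)) (fun q => h1 K (n - q) ((le_max_left _ _).trans hK) (cz z q))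
    fun t ht => true_dropC ((le_max_right _ _).trans hK) (by linarith) ht).trans (le_of_eq ?_)
  rw [← mul_assoc, ← ENNReal.ofReal_mul hCDp.le, mul_div_cancel₀ _ hCDp.ne']

end LC

end EN

end HexObs
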