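import Pool.Agent.EN.LowAsm
import Pool.Agent.EN.LowCDir
import Pool.Agent.EN.LatM
import Pool.Agent.EN.FactsZ

/-!
EN (every number of letters): few walks end near any given point, for the mean length of the bridges, no hypothesis.
-/

set_option autoImplicit false

namespace HexObs

namespace EN

open Finset TS SDN NTW NTA

open scoped ENNReal

/-- few walks end near any given point, every n -/
def LowCX (m : ℕ → ℝ) : Prop := ∀ e : ℝ, 0 < e → ∃ (κ : ℝ) (k0 : ℕ), 0 < κ ∧ ∀ k n : ℕ, k0 ≤ k → m k ≤ n →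
  n < m (k + 1) → ∀ x : Pt,
  gf {t | t ∈ SawN n ∧ ∀ dir : Bool, |((lvl dir (vx oo up t n) - lvl dir x : ℤ) : ℝ)| ≤ κ * 2 ^ k} ≤
    ENNReal.ofReal e * nuX m k

/-- the case of the start -/
lemma lowX_of_C {m : ℕ → ℝ} (h : LowCX m) : LowX m := by
  intro e he
  obtain ⟨κ, k0, hκ, h⟩ := h e he
  refine ⟨κ, k0, hκ, fun k n hk h1 h2 => ?_⟩
  have h3 := h k n hk h1 h2 oo
  have h4 : ∀ dir : Bool, lvl dir oo = 0 := by
    intro dir
    cases dir <;> decide
  simpa only [h4, sub_zero] using h3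

open LW LC

/-- **few walks end near any given point, from the layers** -/
theorem lowCX_of {m : ℕ → ℝ} (hm : MLow m) (hu : MUp m) (hS : ESPw m) (hB : SBX m) (h0 : LDCs false m) (h1 : LDCs true m) :
    LowCX m := by
  intro e he
  obtain ⟨A, i1, k1, hA, htail⟩ := tail_out hS 1
  obtain ⟨I, hI1, hI⟩ : ∃ I : ℕ, i1 ≤ I ∧ A / 2 ^ (1 * I) ≤ e / 4 := by
    obtain ⟨n, hn⟩ := exists_pow_lt_of_lt_one (show 0 < e / 4 / A by positivity) (show (1 / 2 : ℝ) < 1 by norm_num)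
    refine ⟨i1 + n, Nat.le_add_right _ _, ?_⟩
    rw [one_mul, div_eq_mul_inv, ← inv_pow, ← one_div]
    calc A * (1 / 2) ^ (i1 + n) ≤ A * (1 / 2) ^ n := by
          gcongr A * ?_
          exact pow_le_pow_of_le_one (by norm_num) (by norm_num) (by omega)
      _ ≤ A * (e / 4 / A) := by gcongr
      _ = e / 4 := by field_simp
  obtain ⟨i0, k2, hbox⟩ := hB (e / 4) (by positivity)
  obtain ⟨D, hD, hup⟩ := nuX_up hm
  obtain ⟨D', hD', hdn⟩ := nuX_dn hm hu
  have hD0 : 0 < D := by linarith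
  have hD0' : 0 < D' := by linarith
  obtain ⟨W, hW⟩ : ∃ W : ℝ, W = D ^ I * D' ^ i0 := ⟨_, rfl⟩
  have hWp : 0 < W := by rw [hW]; positivity
  obtain ⟨ε, hε⟩ : ∃ ε : ℝ, ε = e / (4 * (i0 + I + 1) * W) := ⟨_, rfl⟩
  have hεp : 0 < ε := by rw [hε]; positivity
  obtain ⟨κ0, K0, hκ0, h0⟩ := h0 ε hεp
  obtain ⟨κ1, K1, hκ1, h1⟩ := h1 ε hεp
  obtain ⟨κ, hκ⟩ : ∃ κ : ℝ, κ = min κ0 κ1 / 2 ^ i0 := ⟨_, rfl⟩
  have hκp : 0 < κ := by rw [hκ]; positivity
  refine ⟨κ, k1 + k2 + K0 + K1 + i0, hκp, fun k n hk hn1 hn2 x => ?_⟩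
  -- the scales between
  have hnu : ∀ K, k - i0 < K → K ≤ k + I → nuX m K ≤ ENNReal.ofReal W * nuX m k := by
    intro K q1 q2
    rcases Nat.lt_or_ge k K with q3 | q3
    · obtain ⟨j, rfl⟩ := Nat.exists_eq_add_of_le q3.le
      refine (hup k j).trans (mul_le_mul_left (ENNReal.ofReal_le_ofReal ?_) _)
      rw [hW]
      calc D ^ j ≤ D ^ I := pow_le_pow_right₀ hD (by omega)
        _ ≤ D ^ I * D' ^ i0 := le_mul_of_one_le_right (by positivity) (one_le_pow₀ hD')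
    · obtain ⟨j, rfl⟩ := Nat.exists_eq_add_of_le q3
      refine (hdn K j).trans (mul_le_mul_left (ENNReal.ofReal_le_ofReal ?_) _)
      rw [hW]
      calc D' ^ j ≤ D' ^ i0 := pow_le_pow_right₀ hD' (by omega)
        _ ≤ D ^ I * D' ^ i0 := le_mul_of_one_le_left (by positivity) (one_le_pow₀ hD)
  have hsub : {t | t ∈ SawN n ∧ ∀ dir : Bool, |((lvl dir (vx oo up t n) - lvl dir x : ℤ) : ℝ)| ≤ κ * 2 ^ k} ⊆
      ({t | t ∈ SA ∧ t.length = n ∧ t ∉ WL (k + I)} ∪ {t | t ∈ WL (k - i0) ∧ t.length = n}) ∪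
      ⋃ r ∈ range (i0 + I), (LDC false x κ0 (k - i0 + 1 + r) n ∪ LDC true x κ1 (k - i0 + 1 + r) n) := by
    rintro t ⟨ht, hend⟩
    by_cases hw1 : t ∈ WL (k + I)
    swap
    · exact Or.inl (Or.inl ⟨ht.2, ht.1, hw1⟩)
    by_cases hw2 : t ∈ WL (k - i0)
    · exact Or.inl (Or.inr ⟨hw2, ht.1⟩)
    right
    obtain ⟨K, hK1, hK2, hK3, dir, i, hi, hxi⟩ := layer_ex hw1 hw2
    simp only [Set.mem_iUnion]
    refine ⟨K - (k - i0 + 1), mem_range.2 (by omega), ?_⟩
    rw [show k - i0 + 1 + (K - (k - i0 + 1)) = K by omega]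
    have hlev : ∀ κ' : ℝ, min κ0 κ1 ≤ κ' → 0 < κ' → ∀ d : Bool,
        |((lvl d (vx oo up t t.length) - lvl d x : ℤ) : ℝ)| ≤ κ' * 2 ^ K := by
      intro κ' q1 q2 d
      rw [ht.1]
      refine (hend d).trans ?_
      rw [hκ]
      have q3 : (2 : ℝ) ^ k = 2 ^ i0 * 2 ^ (k - i0) := by
        rw [← pow_add]
        congr 1
        omega
      have q4 : (2 : ℝ) ^ (k - i0) ≤ 2 ^ K := pow_le_pow_right₀ (by norm_num) hK1.le
      rw [q3, div_mul_eq_mul_div, ← mul_assoc, mul_div_right_comm, mul_div_cancel_right₀ _ (by positivity)]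
      gcongr
    cases dir
    · exact Or.inl ⟨hK3, ht.1, ⟨i, hi, hxi⟩, hlev κ0 (min_le_left _ _) hκ0⟩
    · exact Or.inr ⟨hK3, ht.1, ⟨i, hi, hxi⟩, hlev κ1 (min_le_right _ _) hκ1⟩
  refine (gf_mono hsub).trans ((gf_union_le _ _).trans ?_)
  have hA1 : gf ({t | t ∈ SA ∧ t.length = n ∧ t ∉ WL (k + I)} ∪ {t | t ∈ WL (k - i0) ∧ t.length = n}) ≤
      ENNReal.ofReal (e / 4) * nuX m k + ENNReal.ofReal (e / 4) * nuX m k := by
    refine (gf_union_le _ _).trans (add_le_add ?_ (hbox k n (by omega) hn1 hn2))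
    exact (htail k I n (by omega) hI1 hn1 hn2).trans (mul_le_mul_left (ENNReal.ofReal_le_ofReal hI) _)
  have hA2 : gf (⋃ r ∈ range (i0 + I), (LDC false x κ0 (k - i0 + 1 + r) n ∪ LDC true x κ1 (k - i0 + 1 + r) n)) ≤
      ∑ r ∈ range (i0 + I), ENNReal.ofReal (2 * (ε * W)) * nuX m k := by
    refine (ENNReal.tsum_biUnion_le (fun t => wE t) (range (i0 + I)) (fun r => LDC false x κ0 (k - i0 + 1 + r) n ∪
      LDC true x κ1 (k - i0 + 1 + r) n)).trans (Finset.sum_le_sum fun r hr => ?_)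
    rw [mem_range] at hr
    have q := hnu (k - i0 + 1 + r) (by omega) (by omega)
    refine (gf_union_le _ _).trans ((add_le_add (h0 _ n (by omega) x) (h1 _ n (by omega) x)).trans ?_)
    rw [← two_mul]
    calc 2 * (ENNReal.ofReal ε * nuX m (k - i0 + 1 + r)) ≤ 2 * (ENNReal.ofReal ε * (ENNReal.ofReal W * nuX m k)) := by
          gcongr
      _ = ENNReal.ofReal (2 * (ε * W)) * nuX m k := by
          rw [ENNReal.ofReal_mul (by norm_num), ENNReal.ofReal_mul hεp.le, show ENNReal.ofReal 2 = 2 by norm_num]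
          ring
  refine (add_le_add hA1 hA2).trans ?_
  rw [Finset.sum_const, Finset.card_range, nsmul_eq_mul, ← add_mul, ← ENNReal.ofReal_add (by positivity) (by positivity),
    ← mul_assoc, ← ENNReal.ofReal_natCast, ← ENNReal.ofReal_mul (Nat.cast_nonneg _), ← add_mul,
    ← ENNReal.ofReal_add (by positivity) (by positivity)]
  refine mul_le_mul_left (ENNReal.ofReal_le_ofReal ?_) _
  have q1 : ((i0 + I : ℕ) : ℝ) * (2 * (ε * W)) ≤ e / 2 := by
    rw [hε]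
    push_cast
    have q2 : (i0 + I : ℝ) * (2 * (e / (4 * (i0 + I + 1) * W) * W)) = (i0 + I) / (i0 + I + 1) * (e / 2) := by
      field_simp
      ring
    rw [q2]
    have q3 : ((i0 : ℝ) + I) / (i0 + I + 1) ≤ 1 := by
      rw [div_le_one (by positivity)]
      linarith
    calc ((i0 : ℝ) + I) / (i0 + I + 1) * (e / 2) ≤ 1 * (e / 2) := by gcongr
      _ = e / 2 := one_mul _
  linarith

/-- **few walks with exactly n letters end near any given point, every n, no hypothesis** -/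
theorem lowCX_M : LowCX (fun k => PW.mZ (2 ^ k)) := by
  obtain ⟨a1, h1, h2, hI⟩ := indB2_M
  have h := LC.LYCs_of (fun k => PW.mZ_pos Nat.one_le_two_pow) mup_M c1_M h1 h2 hI aLat_M
  exact lowCX_of mlow_M mup_M espw_M (sbx_of mlow_M mup_M extM) (LC.LDCs_false h) (LC.LDCs_true h)

end EN

end HexObs
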