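import Pool.Agent.EN.ExAll

/-!
EN: the leaves of the block kc + 7 without a Good first part and without a macroscopic fold have a small exact norm.
-/

set_option autoImplicit false

namespace HexObs

namespace EN

open Finset TS SDN NTW NTA

open scoped ENNReal

/-- the Good class of the depth D at the scale kc -/
def Gd (m : ℕ → ℝ) (s1 s2 c2 D kc : ℕ) : Set (List Bool) := Good (kc - (s1 * D + 3)) (kc - (s2 * D + 4)) (m kc / 2 ^ (c2 * D))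

lemma mup_div {m : ℕ → ℝ} {Cm : ℝ} (hm : ∀ k, 0 < m k) (hCm : 1 ≤ Cm) (hmu : ∀ k, m (k + 1) ≤ Cm * m k) {kc i : ℕ} {E : ℝ}
    (hE : 0 ≤ E) (hi : i ≤ kc) : E / m (kc - i) ≤ E * Cm ^ i / m kc := by
  have h3 : m kc ≤ Cm ^ i * m (kc - i) := by
    have := mup_pow hCm hmu (kc - i) i
    rwa [Nat.sub_add_cancel hi] at this
  rw [div_le_div_iff₀ (hm _) (hm _)]
  calc E * m kc ≤ E * (Cm ^ i * m (kc - i)) := mul_le_mul_of_nonneg_left h3 hE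
    _ = _ := by ring

/-- the clean leaves -/
theorem clean_small {m : ℕ → ℝ} (hm : ∀ k, 0 < m k) (hup : MUp m) {ε : ℝ} (hε : 0 < ε) :
    ∃ k0 : ℕ, ∀ kc : ℕ, k0 ≤ kc → SmDX DmJ kc (NTm.GU 3 kc (2 ^ (kc + 8))) (ε / m kc) := by
  obtain ⟨Ci, δi, hInp⟩ := inp_exists
  obtain ⟨Cm, hCm, hmu⟩ := hup
  obtain ⟨Kc, sc, hKc, hc⟩ := cleanD_of hInp (ssA hInp) (ssThree hInp) (ssBoth hInp)
  obtain ⟨k1, hk1⟩ := exp_dexp (2 * Cm) (3 + sc)
  have hm0 := hm 0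
  obtain ⟨W, hW⟩ : ∃ W : ℝ, W = Kc * 8 ^ 8 * m 0 / ε := ⟨_, rfl⟩
  obtain ⟨k2, hk2⟩ := pow_unbounded_of_one_lt W (show (1 : ℝ) < 2 by norm_num)
  refine ⟨k1 + k2 + 8 + sc, fun kc hkc => ?_⟩
  have hmk := hm kc
  obtain ⟨n, hn⟩ : ∃ n, n = 2 ^ (kc - (3 + sc)) := ⟨_, rfl⟩
  have h5 : n * 2 ^ (3 + sc) ≤ 2 ^ kc := by
    rw [hn, ← pow_add]
    exact Nat.pow_le_pow_right (by norm_num) (by omega)
  have h6 := hc kc 8 n 3 (by omega) h5 (by omega) (by norm_num)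
  refine smDX_up ?_ (smDX_of_smD h6)
  have h7 : m kc ≤ Cm ^ kc * m 0 := by
    have := mup_pow hCm hmu 0 kc
    rwa [Nat.zero_add] at this
  have h8 : (2 * Cm) ^ kc ≤ 4 ^ n := by
    rw [hn]
    exact (hk1 kc (by omega)).1
  have h9 : W ≤ 2 ^ kc := hk2.le.trans (pow_le_pow_right₀ (by norm_num) (by omega))
  have h10 : Kc * 8 ^ 8 * m 0 = W * ε := by
    rw [hW]
    field_simp
  rw [div_le_div_iff₀ (by positivity) hmk]
  calc Kc * 8 ^ 8 * m kc ≤ Kc * 8 ^ 8 * (Cm ^ kc * m 0) := mul_le_mul_of_nonneg_left h7 (by positivity)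
    _ = ε * (W * Cm ^ kc) := by linear_combination Cm ^ kc * h10
    _ ≤ ε * (2 ^ kc * Cm ^ kc) := by
        apply mul_le_mul_of_nonneg_left _ hε.le
        exact mul_le_mul_of_nonneg_right h9 (by positivity)
    _ = ε * (2 * Cm) ^ kc := by rw [mul_pow]
    _ ≤ ε * 4 ^ n := mul_le_mul_of_nonneg_left h8 hε.le

/-- a geometric tail -/
lemma geo_le {n : ℕ} {d x : ℝ} (hx : 0 ≤ x) (hd : d ≤ x / 2) (f : ℕ → ℝ) (hf : ∀ i < n, f i ≤ d * (1 / 2) ^ i) :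
    ∑ i ∈ range n, f i ≤ x := by
  have h1 := geo_tail n
  have h3 : ∑ i ∈ range n, f i ≤ ∑ i ∈ range n, (4 * x) * ((1 / 8 : ℝ) * (1 / 2) ^ i) := by
    refine Finset.sum_le_sum fun i hi => (hf i (Finset.mem_range.1 hi)).trans ?_
    have h4 : (0 : ℝ) ≤ (1 / 2) ^ i := by positivity
    calc d * (1 / 2) ^ i ≤ x / 2 * (1 / 2) ^ i := mul_le_mul_of_nonneg_right hd h4
      _ = _ := by ring
  rw [← Finset.mul_sum] at h3
  nlinarith

/-- **the zig-zags with a low fold** -/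
theorem far_sum {m : ℕ → ℝ} (hm : ∀ k, 0 < m k) (hup : MUp m) {ε : ℝ} (hε : 0 < ε) : ∃ i1 : ℕ, ∀ (kc : ℕ) (E : ℝ), 0 ≤ E →
    (∀ j ≤ kc, SmDX DmJ j (Bk j) (E / m j)) →
    SmDX DmJ kc {g | ∃ j, j + i1 ≤ kc ∧ (g ∈ Zg (2 ^ (kc + 4)) (NTm.GU (j + 5) kc (2 ^ (kc + 8))) (Bk j) (Ak kc) ∨
      g ∈ Zg (2 ^ (kc + 4)) (Ak kc) (Bk j) (NTm.GU (j + 5) kc (2 ^ (kc + 8))))} (ε * E / m kc) := by
  obtain ⟨Cm, hCm, hmu⟩ := hup
  obtain ⟨Kf, s, hKf, hs5, hfar⟩ := far_norm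
  obtain ⟨T, hT⟩ : ∃ T : ℝ, T = 1 + 2 / ε * Kf := ⟨_, rfl⟩
  have hT1 : 1 ≤ T := by
    have : 0 ≤ 2 / ε * Kf := by positivity
    linarith
  obtain ⟨i0, hi0⟩ : ∃ i0 : ℕ, ∀ i ≥ i0, (T * (4 * Cm)) ^ i ≤ 4 ^ (2 ^ (i - (5 + s))) ∧ 5 + s ≤ i := exp_dexp _ _
  refine ⟨i0 + 1, fun kc E hE0 hE => ?_⟩
  have hmk := hm kc
  -- the classes indexed from the top
  obtain ⟨Cl, hCl⟩ : ∃ Cl : ℕ → Set (List Bool), Cl = fun i => if i < i0 + 1 then ∅ else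
      {g | g ∈ Zg (2 ^ (kc + 4)) (NTm.GU (kc - i + 5) kc (2 ^ (kc + 8))) (Bk (kc - i)) (Ak kc) ∨
        g ∈ Zg (2 ^ (kc + 4)) (Ak kc) (Bk (kc - i)) (NTm.GU (kc - i + 5) kc (2 ^ (kc + 8)))} := ⟨_, rfl⟩
  obtain ⟨dd, hdd⟩ : ∃ dd : ℕ → ℝ, dd = fun i => if i < i0 + 1 then 0 else
      Kf * 2 ^ i / 4 ^ (2 ^ (i - (5 + s))) * (E * Cm ^ i / m kc) := ⟨_, rfl⟩
  have hdd0 : ∀ i < kc + 1, 0 ≤ dd i := by
    intro i _
    rw [hdd]
    simp only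
    split_ifs
    · exact le_rfl
    · positivity
  have hcls : ∀ i < kc + 1, SmDX DmJ kc (Cl i) (dd i) := by
    intro i hi
    rw [hCl, hdd]
    simp only
    by_cases hlt : i < i0 + 1
    · rw [if_pos hlt, if_pos hlt]
      exact smDX_of_smD LQ.SmD_empty
    · rw [if_neg hlt, if_neg hlt]
      obtain ⟨h4, h5⟩ := hi0 i (by omega)
      have hEi : SmDX DmJ (kc - i) (Bk (kc - i)) (E * Cm ^ i / m kc) :=
        smDX_up (mup_div hm hCm hmu hE0 (by omega)) (hE _ (Nat.sub_le _ _))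
      have h3 := hfar kc (kc - i) (E * Cm ^ i / m kc) (by omega) (by positivity) hEi
      have hii : kc - (kc - i) = i := by omega
      have e0 : kc - (kc - i + 5 + s) = i - (5 + s) := by omega
      rwa [hii, e0] at h3
  have hsum := smDX_sum (kc + 1) Cl dd hdd0 hcls
  refine smDX_up ?_ (smDX_mono ?_ hsum)
  · refine geo_le (d := ε * E / m kc / 2) (by positivity) le_rfl dd fun i hi => ?_
    rw [hdd]
    simp only
    split_ifs with hlt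
    · positivity
    · obtain ⟨h4, h5⟩ := hi0 i (by omega)
      have h4p : (0 : ℝ) < 4 ^ 2 ^ (i - (5 + s)) := by positivity
      have e1 : 2 / ε * Kf * 2 ^ i * Cm ^ i * 2 ^ i ≤ 4 ^ (2 ^ (i - (5 + s))) := by
        refine le_trans ?_ h4
        have e2 : (T * (4 * Cm)) ^ i = T ^ i * (2 ^ i * Cm ^ i * 2 ^ i) := by
          rw [mul_pow, mul_pow 4, show (4 : ℝ) = 2 * 2 by norm_num, mul_pow 2 2]
          ring
        have e3 : 2 / ε * Kf ≤ T ^ i := by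
          have : T ^ 1 ≤ T ^ i := pow_le_pow_right₀ hT1 (by omega)
          rw [pow_one] at this
          linarith
        rw [e2]
        calc 2 / ε * Kf * 2 ^ i * Cm ^ i * 2 ^ i = (2 / ε * Kf) * (2 ^ i * Cm ^ i * 2 ^ i) := by ring
          _ ≤ _ := mul_le_mul_of_nonneg_right e3 (by positivity)
      have e5 : Kf * 2 ^ i * Cm ^ i / 4 ^ 2 ^ (i - (5 + s)) ≤ ε / 2 * (1 / 2) ^ i := by
        rw [div_le_iff₀ h4p, one_div_pow]
        have : Kf * 2 ^ i * Cm ^ i = ε / 2 * (1 / 2 ^ i) * (2 / ε * Kf * 2 ^ i * Cm ^ i * 2 ^ i) := by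
          field_simp
        rw [this]
        exact mul_le_mul_of_nonneg_left e1 (by positivity)
      calc Kf * 2 ^ i / 4 ^ 2 ^ (i - (5 + s)) * (E * Cm ^ i / m kc)
          = (Kf * 2 ^ i * Cm ^ i / 4 ^ 2 ^ (i - (5 + s))) * (E / m kc) := by ring
        _ ≤ (ε / 2 * (1 / 2) ^ i) * (E / m kc) := mul_le_mul_of_nonneg_right e5 (by positivity)
        _ = _ := by ring
  · rintro g ⟨j, hj, hg⟩
    refine ⟨kc - j, by omega, ?_⟩
    have hjj : kc - (kc - j) = j := by omega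
    rw [hCl]
    simp only
    rw [if_neg (by omega), hjj]
    exact hg

/-- the zig-zags with an exact fold near the top scale and a first part in a class of small norm -/
theorem near_bad : ∃ K : ℝ, 1 ≤ K ∧ ∀ (kc j : ℕ) (S : Set (List Bool)) (b e : ℝ), j ≤ kc → S ⊆ Ak kc → 0 ≤ b → 0 ≤ e →
    SmD DmJ kc S b → SmDX DmJ j (Bk j) e →
    SmDX DmJ kc (Zg (2 ^ (kc + 4)) S (Bk j) (Ak kc)) (K * 2 ^ (kc - j) * (b * e)) := by
  obtain ⟨Kz, hKz, hz⟩ := comp_zg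
  obtain ⟨Kl, hKl, hl⟩ := all_low
  refine ⟨Kz * Kl, one_le_mul_of_one_le_of_one_le hKz hKl, fun kc j S b e hjk hS hb0 he0 h2 h3 => ?_⟩
  have h5 := hz kc j S (Bk j) (Ak kc) b e (Kl * 2 ^ (kc - j)) hjk (fun g hg => Ak_HB kc (hS hg)) (Bk_HB j)
    (Ak_HB kc) hb0 he0 (by positivity) h2 h3.near (fun x Φ hΦ => hl j kc x Φ hjk hΦ)
  refine smDX_up (le_of_eq ?_) h5
  ring

/-- **the zig-zags with a macroscopic fold and a bad first part** -/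
theorem bad_sum {m : ℕ → ℝ} {a1 : ℝ} (hm : ∀ k, 0 < m k) (hup : MUp m) (hC : C1 m) (h1 : 1 / 2 < a1) (h2 : a1 ≤ 3 / 5)
    (hI : BrL.IndB2 a1) : ∃ s1 s2 c2 : ℕ, 1 ≤ s1 ∧ s1 ≤ s2 ∧ ∀ (ε : ℝ) (i1 : ℕ), 0 < ε → ∃ D0 : ℕ, 1 ≤ D0 ∧ ∀ D : ℕ, D0 ≤ D →
      ∀ (kc : ℕ) (E : ℝ), s2 * D + 4 ≤ kc → 0 ≤ E → (∀ j ≤ kc, SmDX DmJ j (Bk j) (E / m j)) →
      SmDX DmJ kc {g | ∃ j ≤ kc, kc < j + i1 ∧ g ∈ Zg (2 ^ (kc + 4)) (Ak kc \ Gd m s1 s2 c2 D kc) (Bk j) (Ak kc)}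
        (ε * E / m kc) := by
  obtain ⟨Cm, hCm, hmu⟩ := hup
  obtain ⟨Cg, B, s1, s2, c2, hCg, hB, hs1, hs12, hgb⟩ := good_bad hm hC h1 h2 hI
  obtain ⟨Kn, hKn, hnear⟩ := near_bad
  refine ⟨s1, s2, c2, hs1, hs12, fun ε i1 hε => ?_⟩
  obtain ⟨W, hW⟩ : ∃ W : ℝ, W = Kn * 2 ^ i1 * (Cg * 257 ^ 2) * Cm ^ i1 := ⟨_, rfl⟩
  have hW0 : 0 ≤ W := by rw [hW]; positivity
  obtain ⟨D0, hD0⟩ := pow_unbounded_of_one_lt (i1 * W / ε) (show (1 : ℝ) < 2 by norm_num)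
  refine ⟨D0 + 1, by omega, fun D hD kc E hkc hE0 hE => ?_⟩
  have hmk := hm kc
  have hbad := (hgb kc (2 ^ (kc + 8)) D (by omega) hkc).1
  have hR : (1 + UU (2 ^ (kc + 8)) / Ub kc) ^ 2 ≤ 257 ^ 2 := by
    have hU := Ub_pos kc
    have h3 : UU (2 ^ (kc + 8)) / Ub kc ≤ 256 := by
      rw [div_le_iff₀ hU]
      exact LQ.UU8 kc
    have h4 : 0 ≤ UU (2 ^ (kc + 8)) / Ub kc := div_nonneg (Num2Aux.UU_pos _).le hU.le
    exact pow_le_pow_left₀ (by linarith) (by linarith) 2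
  have hbad' : SmD DmJ kc (Ak kc \ Gd m s1 s2 c2 D kc) (Cg * 257 ^ 2 / 2 ^ D) := by
    refine LQ.SmD_le ?_ hbad
    apply div_le_div_of_nonneg_right _ (by positivity)
    exact mul_le_mul_of_nonneg_left hR (by linarith)
  obtain ⟨Cl, hCl⟩ : ∃ Cl : ℕ → Set (List Bool), Cl = fun i => if i ≤ kc then
      Zg (2 ^ (kc + 4)) (Ak kc \ Gd m s1 s2 c2 D kc) (Bk (kc - i)) (Ak kc) else ∅ := ⟨_, rfl⟩
  have hcls : ∀ i < i1, SmDX DmJ kc (Cl i) (W / 2 ^ D * E / m kc) := by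
    intro i hi
    rw [hCl]
    simp only
    split_ifs with hle
    · have hii : kc - (kc - i) = i := by omega
      have hEi : SmDX DmJ (kc - i) (Bk (kc - i)) (E * Cm ^ i / m kc) :=
        smDX_up (mup_div hm hCm hmu hE0 hle) (hE _ (Nat.sub_le _ _))
      have h3 := hnear kc (kc - i) (Ak kc \ Gd m s1 s2 c2 D kc) (Cg * 257 ^ 2 / 2 ^ D) (E * Cm ^ i / m kc)
        (Nat.sub_le _ _) (fun g hg => hg.1) (by positivity) (by positivity) hbad' hEi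
      rw [hii] at h3
      refine smDX_up ?_ h3
      have e1 : (2 : ℝ) ^ i ≤ 2 ^ i1 := pow_le_pow_right₀ (by norm_num) hi.le
      have e2 : Cm ^ i ≤ Cm ^ i1 := pow_le_pow_right₀ hCm hi.le
      have e5 : E * Cm ^ i / m kc ≤ E * Cm ^ i1 / m kc :=
        div_le_div_of_nonneg_right (mul_le_mul_of_nonneg_left e2 hE0) hmk.le
      calc Kn * 2 ^ i * (Cg * 257 ^ 2 / 2 ^ D * (E * Cm ^ i / m kc))
          ≤ Kn * 2 ^ i1 * (Cg * 257 ^ 2 / 2 ^ D * (E * Cm ^ i1 / m kc)) := by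
            refine mul_le_mul (mul_le_mul_of_nonneg_left e1 (by linarith))
              (mul_le_mul_of_nonneg_left e5 (by positivity)) (by positivity) (by positivity)
        _ = _ := by rw [hW]; ring
    · refine smDX_up ?_ (smDX_of_smD LQ.SmD_empty)
      positivity
  have hsum := smDX_sum i1 Cl (fun _ => W / 2 ^ D * E / m kc) (fun i _ => by positivity) hcls
  refine smDX_up ?_ (smDX_mono ?_ hsum)
  · rw [Finset.sum_const, Finset.card_range, nsmul_eq_mul]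
    have hp : (0 : ℝ) < 2 ^ D := by positivity
    have h3 : i1 * W / ε ≤ 2 ^ D := hD0.le.trans (pow_le_pow_right₀ (by norm_num) (by omega))
    rw [div_le_iff₀ hε] at h3
    have h4 : i1 * W / 2 ^ D ≤ ε := by
      rw [div_le_iff₀ hp]
      linarith
    calc (i1 : ℝ) * (W / 2 ^ D * E / m kc) = i1 * W / 2 ^ D * (E / m kc) := by ring
      _ ≤ ε * (E / m kc) := mul_le_mul_of_nonneg_right h4 (by positivity)
      _ = _ := by ring
  · rintro g ⟨j, hj, hj1, hg⟩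
    refine ⟨kc - j, by omega, ?_⟩
    have hjj : kc - (kc - j) = j := by omega
    rw [hCl]
    simp only
    rw [if_pos (by omega), hjj]
    exact hg

/-- **a leaf of the block kc + 7 is a zig-zag with a good first part and a macroscopic fold, up to a small exact norm** -/
theorem ex_rest {m : ℕ → ℝ} {a1 : ℝ} (hm : ∀ k, 0 < m k) (hup : MUp m) (hC : C1 m) (h1 : 1 / 2 < a1) (h2 : a1 ≤ 3 / 5)
    (hI : BrL.IndB2 a1) : ∃ s1 s2 c2 : ℕ, 1 ≤ s1 ∧ s1 ≤ s2 ∧ ∀ ε : ℝ, 0 < ε → ∃ i1 D k0 : ℕ, 1 ≤ D ∧ ∀ kc : ℕ, k0 ≤ kc →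
      s2 * D + 4 ≤ kc ∧ ∃ S : Set (List Bool), SmDX DmJ kc S (ε / m kc) ∧ ∀ g ∈ BrR (2 ^ (kc + 7)) (2 ^ (kc + 8)), g ∈ S ∨
        ∃ j ≤ kc, kc < j + i1 ∧ g ∈ Zg (2 ^ (kc + 4)) {s | s ∈ Ak kc ∧ s ∈ Gd m s1 s2 c2 D kc} (Bk j) (Ak kc) := by
  obtain ⟨E, hE1, hE⟩ := ex_all hm hup hC h1 h2 hI
  obtain ⟨s1, s2, c2, hs1, hs12, hbad⟩ := bad_sum hm hup hC h1 h2 hI
  refine ⟨s1, s2, c2, hs1, hs12, fun ε hε => ?_⟩
  obtain ⟨k1, hclean⟩ := clean_small hm hup (ε := ε / 3) (by positivity)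
  have hE0 : 0 < E := by linarith
  obtain ⟨i1, hfar⟩ := far_sum hm hup (ε := ε / (3 * E)) (by positivity)
  obtain ⟨D, hD1, hb⟩ := hbad (ε / (3 * E)) i1 (by positivity)
  refine ⟨i1, D, k1 + (s2 * D + 4), hD1, fun kc hkc => ⟨by omega, ?_⟩⟩
  have hmk := hm kc
  have h3 := hclean kc (by omega)
  have h4 := hfar kc E hE0.le (fun j _ => hE j)
  have h5 := hb D le_rfl kc E (by omega) hE0.le (fun j _ => hE j)
  refine ⟨_, smDX_up (le_of_eq ?_) (smDX_union (by positivity) (by positivity) (smDX_union (by positivity) (by positivity) h3 h4)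
    h5), fun g hg => ?_⟩
  · field_simp
    ring
  · rcases cover kc hg with h6 | ⟨j, hj, h6, h7⟩
    · exact Or.inl (Or.inl (Or.inl h6))
    · rcases Nat.lt_or_ge kc (j + i1) with h8 | h8
      · obtain ⟨hgD, s, b1, l, b2, t, b3, f1, f2, hunf⟩ := h6
        by_cases hG : s ∈ Gd m s1 s2 c2 D kc
        · exact Or.inr ⟨j, hj, h8, hgD, s, ⟨b1, hG⟩, l, b2, t, b3, f1, f2, hunf⟩
        · exact Or.inl (Or.inr ⟨j, hj, h8, hgD, s, ⟨b1, hG⟩, l, b2, t, b3, f1, f2, hunf⟩)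
      · exact Or.inl (Or.inl (Or.inr ⟨j, h8, h7⟩))

end EN

end HexObs
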