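import Pool.Agent.EN.LatC
import Pool.Agent.NTA.TailDefs
import Pool.Agent.NT.SeqEx

/-!
EN: the end point of a bridge with exactly b letters has no preferred lateral position: ALat.
-/

set_option autoImplicit false

namespace HexObs

namespace EN

open Finset TS Rec8 BrL

open scoped ENNReal

namespace LB

open JumpVaux (gf_biUnion_le gf_empty)

lemma tsum_dep {A : Set (List Bool)} {Q : List Bool → Set (List Bool)} {c : ℝ≥0∞} (hc : ∀ a ∈ A, gf (Q a) ≤ c)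
    [∀ x : List Bool × List Bool, Decidable (x.1 ∈ A ∧ x.2 ∈ Q x.1)] :
    ∑' x : List Bool × List Bool, (if x.1 ∈ A ∧ x.2 ∈ Q x.1 then wE x.1 * wE x.2 else 0) ≤ gf A * c := by
  classical
  rw [ENNReal.tsum_prod']
  have h2 : ∀ a : List Bool, ∑' u : List Bool, (if (a, u).1 ∈ A ∧ (a, u).2 ∈ Q (a, u).1 then wE (a, u).1 * wE (a, u).2 else 0) ≤
      (if a ∈ A then wE a * c else 0) := by
    intro a
    by_cases ha : a ∈ A
    · rw [if_pos ha]
      have h3 : ∀ u, (if (a, u).1 ∈ A ∧ (a, u).2 ∈ Q (a, u).1 then wE (a, u).1 * wE (a, u).2 else 0) =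
          wE a * (if u ∈ Q a then wE u * 1 else 0) := by
        intro u
        by_cases hu : u ∈ Q a
        · simp [ha, hu]
        · simp [hu]
      rw [tsum_congr h3, ENNReal.tsum_mul_left, ← Rec8.sw_ind (Q a) (fun _ => 1), Rec8.sw_one]
      exact mul_le_mul_right (hc a ha) _
    · simp [ha]
  refine (ENNReal.tsum_le_tsum h2).trans ?_
  rw [← Rec8.sw_ind A (fun _ => c), ← Rec8.sw_one A, ← Rec8.sw_mul_right A c (fun _ => 1)]
  simp only [one_mul]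
  exact le_rfl

/-- the blocks -/
abbrev BB (N : ℕ) : Type := {B : List Bool // B ∈ Bk N}

/-- mirror image of a block -/
def flB (N : ℕ) : BB N ≃ BB N where
  toFun a := ⟨a.1.map not, Bk_not a.2⟩
  invFun a := ⟨a.1.map not, Bk_not a.2⟩
  left_inv a := Subtype.ext (by simp [List.map_map, Function.comp_def])
  right_inv a := Subtype.ext (by simp [List.map_map, Function.comp_def])

/-- **many blocks, then a long end: the lateral window costs the factor of Littlewood and Offord** -/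
theorem gf_ManyPart {N M r b β v : ℕ} {x : ℤ} {q U : ℝ≥0∞} (hq : gf {B | B ∈ Bk N ∧ |latE B| ≤ (r : ℤ)} ≤ q)
    (hU : ∀ b', 2 * v ≤ b' → gf (BLs b') ≤ U) :
    gf {V | V.length = b ∧ |latE V - x| ≤ (r : ℤ) ∧ ∃ T ∈ Many N M β, ∃ V2 ∈ BU, 2 * v ≤ V2.length ∧ V = T ++ V2} ≤
      (ENNReal.ofReal (LO.cc M) + M * q) * U := by
  classical
  obtain ⟨w, hw⟩ : ∃ w : BB N → ℝ≥0∞, w = fun a => wE a.1 := ⟨_, rfl⟩
  obtain ⟨len, hlen⟩ : ∃ len : BB N → ℕ, len = fun a => a.1.length := ⟨_, rfl⟩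
  obtain ⟨lt, hlt⟩ : ∃ lt : BB N → ℤ, lt = fun a => latE a.1 := ⟨_, rfl⟩
  obtain ⟨L, hL⟩ : ∃ L : List Bool × List Bool → (Fin M → ℕ) → ℝ≥0∞, L = fun p l =>
    if p.1 ∈ Sd (β - ∑ i, l i) ∧ p.2 ∈ {V2 | V2 ∈ BLs (b - (∑ i, l i) - p.1.length) ∧ 2 * v ≤ V2.length} then
      wE p.1 * wE p.2 else 0 := ⟨_, rfl⟩
  have h1 : gf {V | V.length = b ∧ |latE V - x| ≤ (r : ℤ) ∧ ∃ T ∈ Many N M β, ∃ V2 ∈ BU, 2 * v ≤ V2.length ∧ V = T ++ V2} ≤
      ∑' z : (List Bool × List Bool) × (Fin M → BB N), (∏ i, w (z.2 i)) *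
        (if |(∑ i, lt (z.2 i)) - (x - latE (z.1.1 ++ z.1.2))| ≤ (r : ℤ) then L z.1 (fun i => len (z.2 i)) else 0) := by
    rw [← Rec8.sw_one]
    refine sw_cover _ _ _ (fun z : (List Bool × List Bool) × (Fin M → BB N) =>
      (List.ofFn fun i => (z.2 i).1).flatten ++ (z.1.1 ++ z.1.2)) fun V hV => ?_
    obtain ⟨hVl, hVx, T, hT, V2, hV2, hv2, rfl⟩ := hV
    obtain ⟨B, T', a1, a2, a3, a4⟩ := many_seq N M β T hT
    refine ⟨((T', V2), B), ?_, ?_⟩
    · simp only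
      rw [a4, List.append_assoc]
    · simp only
      have e1 : T ++ V2 = (List.ofFn fun i => (B i).1).flatten ++ (T' ++ V2) := by rw [a4, List.append_assoc]
      have e2 : (∑ i, lt (B i)) - (x - latE (T' ++ V2)) = latE (T ++ V2) - x := by
        rw [e1, flat_latE, hlt]
        ring
      have e3 : (∑ i, len (B i)) = ∑ i, (B i).1.length := by rw [hlen]
      have e4 : wE (T ++ V2) = (∏ i, w (B i)) * (wE T' * wE V2) := by
        rw [e1, wE_append, wE_append, flat_wE, hw]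
      rw [if_pos (by rw [e2]; exact hVx), hL]
      simp only
      rw [if_pos, e4, mul_one]
      refine ⟨?_, ⟨hV2, ?_⟩, hv2⟩
      · rw [e3]
        exact a2
      · rw [e3]
        rw [List.length_append] at hVl
        omega
  refine h1.trans ?_
  rw [ENNReal.tsum_prod']
  have h2 : ∀ p : List Bool × List Bool, ∑' B : Fin M → BB N, (∏ i, w (B i)) *
      (if |(∑ i, lt (B i)) - (x - latE (p.1 ++ p.2))| ≤ (r : ℤ) then L p (fun i => len (B i)) else 0) ≤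
        ∑' B : Fin M → BB N, (∏ i, w (B i)) * (LO.LOf lt r B * L p (fun i => len (B i))) := by
    intro p
    refine LO.sym (fl := flB N) ?_ ?_ ?_ M (L p) (x - latE (p.1 ++ p.2)) r
    · intro a
      rw [hw]
      show wE (a.1.map not) = wE a.1
      unfold wE
      rw [List.length_map]
    · intro a
      rw [hlen]
      show (a.1.map not).length = a.1.length
      rw [List.length_map]
    · intro a
      rw [hlt]
      exact latE_not a.1
  refine (ENNReal.tsum_le_tsum h2).trans ?_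
  rw [ENNReal.tsum_comm]
  have h3 : ∀ B : Fin M → BB N, ∑' p : List Bool × List Bool, (∏ i, w (B i)) * (LO.LOf lt r B * L p (fun i => len (B i))) ≤
      ((∏ i, w (B i)) * LO.LOf lt r B) * U := by
    intro B
    rw [ENNReal.tsum_mul_left, ENNReal.tsum_mul_left, mul_assoc]
    refine mul_le_mul_right (mul_le_mul_right ?_ _) _
    rw [hL]
    simp only
    refine (tsum_dep (A := Sd (β - ∑ i, len (B i))) (Q := fun a => {V2 | V2 ∈ BLs (b - (∑ i, len (B i)) - a.length) ∧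
      2 * v ≤ V2.length}) (c := U) fun a _ => ?_).trans ?_
    · rcases Nat.lt_or_ge (b - (∑ i, len (B i)) - a.length) (2 * v) with h4 | h4
      · have h5 : {V2 | V2 ∈ BLs (b - (∑ i, len (B i)) - a.length) ∧ 2 * v ≤ V2.length} = (∅ : Set (List Bool)) := by
          rw [Set.eq_empty_iff_forall_notMem]
          rintro t ⟨⟨-, h6⟩, h7⟩
          omega
        rw [h5, gf_empty]
        exact zero_le
      · exact (gf_mono fun t ht => ht.1).trans (hU _ h4)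
    · calc gf (Sd (β - ∑ i, len (B i))) * U ≤ 1 * U := mul_le_mul_left (gf_Sd _) _
        _ = U := one_mul _
  refine (ENNReal.tsum_le_tsum h3).trans ?_
  rw [ENNReal.tsum_mul_right]
  refine mul_le_mul_left (LO.LOf_mean ?_ ?_) _
  · refine le_trans (le_of_eq ?_) (gf_Bk N)
    unfold gf
    rw [hw]
  · refine le_trans (le_of_eq ?_) hq
    rw [← Rec8.sw_one {B | B ∈ Bk N ∧ |latE B| ≤ (r : ℤ)}, Rec8.sw_and (Bk N) (fun B => |latE B| ≤ (r : ℤ)) (fun _ => 1)]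
    unfold Rec8.sw
    refine tsum_congr fun a => ?_
    rw [hw, hlt]
    simp only
    split_ifs <;> simp

/-- **the bridges with 2 n letters in a lateral window** -/
theorem gf_lat {N M r v n : ℕ} {x : ℤ} {q U F : ℝ≥0∞} (hn : 1 ≤ n)
    (hq : gf {B | B ∈ Bk N ∧ |latE B| ≤ (r : ℤ)} ≤ q) (hU : ∀ b', 2 * v ≤ b' → gf (BLs b') ≤ U)
    (hF : gf (Few N M n) ≤ F) : gf {V | V ∈ BU ∧ V.length = 2 * n ∧ |latE V - x| ≤ (r : ℤ)} ≤
      ENNReal.ofReal (∑ j ∈ range v, ∑ q ∈ range (n / 2 + 1), ub q * fb (n - q - j) * ub j) +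
        (F + (ENNReal.ofReal (LO.cc M) + M * q)) * U := by
  have h1 : {V | V ∈ BU ∧ V.length = 2 * n ∧ |latE V - x| ≤ (r : ℤ)} ⊆
      {V | V.length = 2 * n ∧ ∃ T ∈ Sd n, ∃ U ∈ BU, U.length < 2 * v ∧ V = T ++ U} ∪
      ({V | ∃ T ∈ Few N M n, ∃ V2 ∈ {V2 | V2 ∈ BLs (2 * n - T.length) ∧ 2 * v ≤ V2.length}, V = T ++ V2} ∪
      {V | V.length = 2 * n ∧ |latE V - x| ≤ (r : ℤ) ∧ ∃ T ∈ Many N M n, ∃ V2 ∈ BU, 2 * v ≤ V2.length ∧ V = T ++ V2}) := by
    rintro V ⟨⟨h, hV⟩, hl, hx⟩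
    obtain ⟨T, hT, V2, hV2, rfl⟩ := first_Sd h n V hV (by omega)
    rcases Nat.lt_or_ge V2.length (2 * v) with h2 | h2
    · exact Or.inl ⟨hl, T, hT, V2, hV2, h2, rfl⟩
    · rcases few_many N M n T hT with h3 | h3
      · refine Or.inr (Or.inl ⟨T, h3, V2, ⟨⟨hV2, ?_⟩, h2⟩, rfl⟩)
        rw [List.length_append] at hl
        omega
      · exact Or.inr (Or.inr ⟨hl, hx, T, h3, V2, hV2, h2, rfl⟩)
  refine (gf_mono h1).trans ((gf_union_le _ _).trans (add_le_add (gf_Short n v) ((gf_union_le _ _).trans ?_)))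
  rw [add_mul]
  refine add_le_add ?_ (gf_ManyPart hq hU)
  refine (gf_dep (Q := fun T => {V2 | V2 ∈ BLs (2 * n - T.length) ∧ 2 * v ≤ V2.length}) (c := U) (fun t ht => ht)
    fun a _ => ?_).trans (mul_le_mul_left hF _)
  rcases Nat.lt_or_ge (2 * n - a.length) (2 * v) with h4 | h4
  · have h5 : {V2 | V2 ∈ BLs (2 * n - a.length) ∧ 2 * v ≤ V2.length} = (∅ : Set (List Bool)) := by
      rw [Set.eq_empty_iff_forall_notMem]
      rintro t ⟨⟨-, h6⟩, h7⟩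
      omega
    rw [h5, gf_empty]
    exact zero_le
  · exact (gf_mono fun t ht => ht.1).trans (hU _ h4)

/-! ### numbers -/

lemma gap {δ : ℝ} (hδ : 0 < δ) : ∃ D : ℕ, 1 ≤ D ∧ ∀ i : ℕ, UU (2 ^ i) / UU (2 ^ (i + D) - 2 ^ i) ≤ δ := by
  have hk := kap0_pos
  have h2 : (1 : ℝ) < (2 : ℝ) ^ kap0 := Real.one_lt_rpow (by norm_num) hk
  obtain ⟨n, hn⟩ := pow_unbounded_of_one_lt (2 / δ) h2
  refine ⟨n + 1, by omega, fun i => ?_⟩
  have h3 : 2 ^ (i + n) ≤ 2 ^ (i + (n + 1)) - 2 ^ i := by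
    have h4 : 2 ^ i ≤ 2 ^ (i + n) := Nat.pow_le_pow_right (by norm_num) (by omega)
    have h5 : 2 ^ (i + (n + 1)) = 2 * 2 ^ (i + n) := by rw [← add_assoc, pow_succ]; ring
    omega
  have h4 : Ub (i + n) ≤ UU (2 ^ (i + (n + 1)) - 2 ^ i) := Num2Aux.UU_mono h3
  have h5 := Ub_growth (a := i) (b := i + n) (by omega)
  have h6 : (2 : ℝ) ^ (kap0 * (((i + n : ℕ) : ℝ) - i)) = ((2 : ℝ) ^ kap0) ^ n := by
    rw [← Real.rpow_natCast, ← Real.rpow_mul (by norm_num)]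
    congr 2
    push_cast
    ring
  rw [h6] at h5
  have hU := Ub_pos (i + n)
  have hUi := Ub_pos i
  have h7 : UU (2 ^ i) = Ub i := rfl
  rw [h7, div_le_iff₀ (lt_of_lt_of_le hU h4)]
  refine le_trans ?_ (mul_le_mul_of_nonneg_left h4 hδ.le)
  rw [div_lt_iff₀ hδ] at hn
  nlinarith

lemma m_large {m : ℕ → ℝ} (h : NTA.MLow m) (B : ℝ) : ∃ k0 : ℕ, ∀ k, k0 ≤ k → B ≤ m k := by
  have h0 := h.pos 0
  obtain ⟨n, hn⟩ := pow_unbounded_of_one_lt (B / m 0) (show (1 : ℝ) < 2 by norm_num)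
  refine ⟨n, fun k hk => ?_⟩
  have h1 := h.low 0 k
  rw [zero_add] at h1
  refine le_trans ?_ h1
  have h2 : (2 : ℝ) ^ n ≤ (2 : ℝ) ^ (5 / 4 * (k : ℝ)) := by
    rw [← Real.rpow_natCast]
    refine Real.rpow_le_rpow_of_exponent_le (by norm_num) ?_
    have : (n : ℝ) ≤ k := by exact_mod_cast hk
    have : (0 : ℝ) ≤ k := Nat.cast_nonneg k
    linarith
  rw [div_lt_iff₀ h0] at hn
  exact hn.le.trans (mul_le_mul_of_nonneg_right h2 h0.le)

lemma m_mono {m : ℕ → ℝ} (h : NTA.MLow m) {i j : ℕ} (hij : i ≤ j) : m i ≤ m j := by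
  have h1 := h.low i (j - i)
  rw [Nat.add_sub_cancel' hij] at h1
  refine le_trans ?_ h1
  have h2 : (1 : ℝ) ≤ (2 : ℝ) ^ (5 / 4 * ((j - i : ℕ) : ℝ)) := Real.one_le_rpow (by norm_num) (by positivity)
  nlinarith [h.pos i]

lemma TL_num {m : ℕ → ℝ} {C : ℝ} (hm : ∀ k, 0 < m k) (hC : 0 < C)
    (hM : ∀ (k : ℕ) (y : ℝ), 0 < y → NTm.TL (2 ^ k) y ≤ ENNReal.ofReal (C * m k / y * Ub k)) (h L : ℕ) (hL : 1 ≤ L) :
    NTm.TL (2 * 2 ^ h) L / ENNReal.ofReal (UU (2 ^ h)) ≤ ENNReal.ofReal (2 * C * m (h + 1) / L) := by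
  have hL0 : (0 : ℝ) < L := by exact_mod_cast hL
  have hU : 0 < UU (2 ^ h) := Num2Aux.UU_pos _
  have h1 := hM (h + 1) L hL0
  rw [show 2 ^ (h + 1) = 2 * 2 ^ h by rw [pow_succ]; ring] at h1
  refine (ENNReal.div_le_div_right h1 _).trans ?_
  rw [← ENNReal.ofReal_div_of_pos hU]
  refine ENNReal.ofReal_le_ofReal ?_
  rw [div_le_iff₀ hU]
  have h2 := Ub_succ h
  have h3 : UU (2 ^ h) = Ub h := rfl
  have hmh := hm (h + 1)
  rw [h3]
  calc C * m (h + 1) / L * Ub (h + 1) ≤ C * m (h + 1) / L * (2 * Ub h) := mul_le_mul_of_nonneg_left h2 (by positivity)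
    _ = _ := by ring

/-- **the masses of the exceptions are small** -/
lemma mass_part {m : ℕ → ℝ} (hlow : NTA.MLow m) (hMk : ∃ C : ℝ, 0 < C ∧ ∀ (k : ℕ) (y : ℝ), 0 < y →
    NTm.TL (2 ^ k) y ≤ ENNReal.ofReal (C * m k / y * Ub k)) {y η : ℝ} (hy : 0 < y) (hη : 0 < η) :
    ∃ (κ : ℝ) (k0 : ℕ), 0 < κ ∧ ∀ k : ℕ, k0 ≤ k → ∃ (N M : ℕ) (F q : ℝ≥0∞),
      gf {B | B ∈ Bk N ∧ |latE B| ≤ ((⌊κ * 2 ^ k⌋₊ : ℕ) : ℤ)} ≤ q ∧ (∀ n : ℕ, y * m k ≤ 2 * n → gf (Few N M n) ≤ F) ∧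
      F + (ENNReal.ofReal (LO.cc M) + M * q) ≤ ENNReal.ofReal η := by
  obtain ⟨CM, hCM, hM⟩ := hMk
  obtain ⟨C3, hC3, hnar⟩ := narrow
  have hm := hlow.pos
  obtain ⟨M, hM1, hMc⟩ := LO.cc_small (e := η / 4) (by positivity)
  have hMp : (0 : ℝ) < M := by exact_mod_cast hM1
  obtain ⟨δ, hδ⟩ : ∃ δ : ℝ, δ = η / (16 * M) := ⟨_, rfl⟩
  have hδp : 0 < δ := by rw [hδ]; positivity
  obtain ⟨D, hD1, hD⟩ := gap hδp
  obtain ⟨d, hd⟩ := pow_unbounded_of_one_lt (192 * CM * M * (M + 1) / (y * η)) (show (1 : ℝ) < 2 by norm_num)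
  obtain ⟨w, hw⟩ : ∃ w : ℕ, w = d + 1 + 2 * D := ⟨_, rfl⟩
  obtain ⟨k1, hk1⟩ := pow_unbounded_of_one_lt (16 * M * C3 / η) (show (1 : ℝ) < 2 by norm_num)
  obtain ⟨k2, hk2⟩ := m_large hlow (4 * (M + 1) / y)
  obtain ⟨κ, hκ⟩ : ∃ κ : ℝ, κ = η / (32 * M * C3 * 2 ^ w) := ⟨_, rfl⟩
  have hκp : 0 < κ := by rw [hκ]; positivity
  refine ⟨κ, max (w + k1) k2, hκp, fun k hk => ?_⟩
  obtain ⟨g, hg⟩ : ∃ g, k = g + w := ⟨k - w, by have := le_max_left (w + k1) k2; omega⟩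
  have hg1 : k1 ≤ g := by have := le_max_left (w + k1) k2; omega
  have hmk : 4 * (M + 1) / y ≤ m k := hk2 k ((le_max_right _ _).trans hk)
  have hmkp := hm k
  obtain ⟨z, hz⟩ : ∃ z : ℝ, z = y * m k / (2 * (M + 1)) := ⟨_, rfl⟩
  have hz2 : 2 ≤ z := by
    rw [hz, le_div_iff₀ (by positivity)]
    rw [div_le_iff₀ hy] at hmk
    linarith
  obtain ⟨L, hL⟩ : ∃ L : ℕ, L = ⌊z⌋₊ := ⟨_, rfl⟩
  have hLz : (L : ℝ) ≤ z := by
    rw [hL]
    exact Nat.floor_le (by linarith)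
  have hLz2 : z / 2 ≤ L := by
    have := (Nat.lt_floor_add_one z).le
    rw [← hL] at this
    linarith
  have hLp : (0 : ℝ) < L := by linarith
  have hL1 : 1 ≤ L := by exact_mod_cast hLp
  obtain ⟨A, hA⟩ : ∃ A : ℝ, A = 2 * CM * m (g + 2 * D + 1) / L := ⟨_, rfl⟩
  have hAp : 0 < A := by
    rw [hA]
    have := hm (g + 2 * D + 1)
    positivity
  -- A is small
  have hA2 : 3 * M * A ≤ η / 8 := by
    have h1 := hlow.low (g + 2 * D + 1) d
    have e1 : g + 2 * D + 1 + d = k := by omega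
    rw [e1] at h1
    have h2 : (2 : ℝ) ^ d ≤ (2 : ℝ) ^ (5 / 4 * (d : ℝ)) := by
      rw [← Real.rpow_natCast]
      refine Real.rpow_le_rpow_of_exponent_le (by norm_num) ?_
      have : (0 : ℝ) ≤ d := Nat.cast_nonneg d
      linarith
    have hmg := hm (g + 2 * D + 1)
    have h3 : (2 : ℝ) ^ d * m (g + 2 * D + 1) ≤ m k := (mul_le_mul_of_nonneg_right h2 hmg.le).trans h1
    have h4 : A ≤ 8 * CM * (M + 1) / y * (m (g + 2 * D + 1) / m k) := by
      have h5 : 1 / (L : ℝ) ≤ 4 * (M + 1) / (y * m k) := by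
        rw [div_le_div_iff₀ hLp (by positivity)]
        have h6 : y * m k = z * (2 * (M + 1)) := by
          rw [hz]
          field_simp
        rw [h6]
        nlinarith
      calc A = 2 * CM * m (g + 2 * D + 1) * (1 / L) := by rw [hA]; ring
        _ ≤ 2 * CM * m (g + 2 * D + 1) * (4 * (M + 1) / (y * m k)) := mul_le_mul_of_nonneg_left h5 (by positivity)
        _ = _ := by
            field_simp
            ring
    have h5 : m (g + 2 * D + 1) / m k ≤ 1 / 2 ^ d := by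
      rw [div_le_div_iff₀ hmkp (by positivity)]
      linarith
    have h6 : A ≤ 8 * CM * (M + 1) / y * (1 / 2 ^ d) := h4.trans (mul_le_mul_of_nonneg_left h5 (by positivity))
    have h7 : 192 * CM * M * (M + 1) / (y * η) * (1 / 2 ^ d) ≤ 1 := by
      rw [mul_one_div, div_le_one (by positivity)]
      exact hd.le
    calc 3 * M * A ≤ 3 * M * (8 * CM * (M + 1) / y * (1 / 2 ^ d)) := mul_le_mul_of_nonneg_left h6 (by positivity)
      _ = (η / 8) * (192 * CM * M * (M + 1) / (y * η) * (1 / 2 ^ d)) := by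
          field_simp
          ring
      _ ≤ (η / 8) * 1 := mul_le_mul_of_nonneg_left h7 (by positivity)
      _ = _ := mul_one _
  -- weights
  have hgap1 : UU (2 ^ (g + D)) / UU (2 ^ (g + 2 * D) - 2 ^ (g + D)) ≤ δ := by
    have := hD (g + D)
    rwa [show g + D + D = g + 2 * D by ring] at this
  have hgap2 : UU (2 ^ g) / UU (2 ^ (g + D) - 2 ^ g) ≤ δ := hD g
  have hTL : ∀ b : ℕ, L ≤ b → NTm.TL (2 * 2 ^ (g + 2 * D)) b / ENNReal.ofReal (UU (2 ^ (g + 2 * D))) ≤ ENNReal.ofReal A := by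
    intro b hb
    refine (ENNReal.div_le_div_right (NTm.SeqA.TL_anti (lam := (L : ℝ)) (Nat.cast_le.2 hb)) _).trans ?_
    rw [hA]
    exact TL_num hm hCM hM _ L hL1
  have hTL2 : ∀ b : ℕ, L ≤ b → NTm.TL (2 * 2 ^ (g + D)) b / ENNReal.ofReal (UU (2 ^ (g + D))) ≤ ENNReal.ofReal A := by
    intro b hb
    refine (ENNReal.div_le_div_right (NTm.SeqA.TL_anti (lam := (L : ℝ)) (Nat.cast_le.2 hb)) _).trans ?_
    refine (TL_num hm hCM hM _ L hL1).trans (ENNReal.ofReal_le_ofReal ?_)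
    rw [hA]
    have := m_mono hlow (show g + D + 1 ≤ g + 2 * D + 1 by omega)
    gcongr
  have hla : ∀ b : ℕ, L ≤ b → la (2 ^ (g + D)) (2 ^ (g + 2 * D)) b ≤ ENNReal.ofReal (δ + A) := by
    intro b hb
    unfold la
    rw [ENNReal.ofReal_add hδp.le hAp.le]
    exact add_le_add (ENNReal.ofReal_le_ofReal hgap1) (hTL b hb)
  have hNH : 2 ^ (g + D) ≤ 2 ^ (g + 2 * D) := Nat.pow_le_pow_right (by norm_num) (by omega)
  have hlong := (Bk_long hNH L).trans (hla L le_rfl)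
  have hSn : ∀ b : ℕ, L ≤ b → gf (Sn (2 ^ (g + D)) b) ≤ ENNReal.ofReal (δ + A + A) := by
    intro b hb
    refine (gf_Sn hNH b).trans ?_
    unfold ta
    rw [ENNReal.ofReal_add (by positivity) hAp.le]
    exact add_le_add (hla b hb) (hTL2 b hb)
  have hFew := gf_Few hlong hSn
  obtain ⟨r, hr⟩ : ∃ r : ℕ, r = ⌊κ * 2 ^ k⌋₊ := ⟨_, rfl⟩
  have hrk : (r : ℝ) ≤ κ * 2 ^ k := by
    rw [hr]
    exact Nat.floor_le (by positivity)
  have hn := hnar (2 ^ (g + D)) (2 ^ g) r (Nat.pow_le_pow_right (by norm_num) (by omega))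
  obtain ⟨B, hB⟩ : ∃ B : ℝ, B = C3 * ((2 * r + 1 : ℕ) : ℝ) / (((2 ^ g : ℕ) : ℝ) + 1) := ⟨_, rfl⟩
  have hBp : 0 ≤ B := by rw [hB]; positivity
  have hB2 : M * B ≤ η / 8 := by
    have h1 : B ≤ C3 * (2 * (κ * 2 ^ k) + 1) / 2 ^ g := by
      rw [hB]
      push_cast
      refine div_le_div₀ (by positivity) ?_ (by positivity) (by linarith)
      exact mul_le_mul_of_nonneg_left (by linarith) hC3.le
    have h2 : M * C3 * (1 / 2 ^ g) ≤ η / 16 := by
      have h3 : (2 : ℝ) ^ k1 ≤ 2 ^ g := pow_le_pow_right₀ (by norm_num) hg1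
      rw [mul_one_div, div_le_iff₀ (by positivity)]
      rw [div_lt_iff₀ hη] at hk1
      nlinarith
    have h3 : (2 : ℝ) ^ k = 2 ^ g * 2 ^ w := by rw [hg, pow_add]
    calc (M : ℝ) * B ≤ M * (C3 * (2 * (κ * 2 ^ k) + 1) / 2 ^ g) := mul_le_mul_of_nonneg_left h1 hMp.le
      _ = 2 * M * C3 * κ * 2 ^ w + M * C3 * (1 / 2 ^ g) := by
          rw [h3]
          field_simp
      _ ≤ η / 16 + η / 16 := by
          refine add_le_add (le_of_eq ?_) h2
          rw [hκ]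
          field_simp
          ring
      _ = _ := by ring
  refine ⟨2 ^ (g + D), M, M * (ENNReal.ofReal (δ + A + A) + ENNReal.ofReal (δ + A)), ENNReal.ofReal (δ + B), ?_, ?_, ?_⟩
  · rw [← hr]
    refine hn.trans ?_
    rw [← hB, ENNReal.ofReal_add hδp.le hBp]
    exact add_le_add (ENNReal.ofReal_le_ofReal hgap2) le_rfl
  · intro n hn
    refine hFew M n ?_
    have h1 : ((L + M * L : ℕ) : ℝ) ≤ n := by
      push_cast
      have h2 : (L : ℝ) * (2 * (M + 1)) ≤ y * m k := by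
        have h6 : y * m k = z * (2 * (M + 1)) := by
          rw [hz]
          field_simp
        rw [h6]
        exact mul_le_mul_of_nonneg_right hLz (by positivity)
      linarith
    exact_mod_cast h1
  · have hMM : ((M : ℕ) : ℝ≥0∞) = ENNReal.ofReal (M : ℝ) := (ENNReal.ofReal_natCast M).symm
    have hc0 := LO.cc_nonneg M
    rw [hMM, ← ENNReal.ofReal_add (by positivity) (by positivity), ← ENNReal.ofReal_mul hMp.le,
      ← ENNReal.ofReal_mul hMp.le, ← ENNReal.ofReal_add hc0 (by positivity), ← ENNReal.ofReal_add (by positivity) (by positivity)]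
    refine ENNReal.ofReal_le_ofReal ?_
    have hMδ : (M : ℝ) * δ = η / 16 := by
      rw [hδ]
      field_simp
    have e : (M : ℝ) * (δ + A + A + (δ + A)) + (LO.cc M + M * (δ + B)) = 3 * (M * δ) + 3 * M * A + LO.cc M + M * B := by ring
    rw [e, hMδ]
    linarith

/-- **the short end** -/
lemma short_part {m : ℕ → ℝ} {a1 : ℝ} (hlow : NTA.MLow m) (hC : NTA.C1 m) (h1 : 1 / 2 < a1) (h2 : a1 ≤ 3 / 5)
    (hI : IndB2 a1) {y ε : ℝ} (hy : 0 < y) (hy1 : y ≤ 1) (hε : 0 < ε) : ∃ (y' : ℝ) (k0 : ℕ), 0 < y' ∧ y' ≤ 1 ∧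
      ∀ k : ℕ, k0 ≤ k → ∀ n : ℕ, y * m k ≤ 2 * n →
        ∑ j ∈ range ⌈y' * m k / 2⌉₊, ∑ q ∈ range (n / 2 + 1), ub q * fb (n - q - j) * ub j ≤ ε / 2 * (Ub k / m k) := by
  obtain ⟨Cu, hCu, hup⟩ := num_up hlow.pos hC h1 h2 hI
  obtain ⟨cl, Cl, hcl, hCl, hub⟩ := ub_two h1 h2 hI
  obtain ⟨c, C, hc, hC', hind⟩ := hI
  have hInd : PWR.Ind ub a1 (3 / 5) c C := ⟨by linarith, h2, by norm_num, hc, fun k x hk hx => (hind k x hk hx).1,
    fun k x hk hx => (hind k x hk hx).2⟩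
  obtain ⟨K, hK, hshort⟩ := LN.short_num ren hInd h1 hCl fun n hn => (hub n hn).2
  have hθ : 0 < 2 * a1 - 1 := by linarith
  obtain ⟨E, hE⟩ : ∃ E : ℝ, E = ε / 2 * (cl * y) / (K * Cu) := ⟨_, rfl⟩
  have hEp : 0 < E := by rw [hE]; positivity
  obtain ⟨δ0, hδ0⟩ : ∃ δ0 : ℝ, δ0 = E ^ (1 / (2 * a1 - 1)) := ⟨_, rfl⟩
  have hδp : 0 < δ0 := by rw [hδ0]; positivity
  have hδE : δ0 ^ (2 * a1 - 1) = E := by
    rw [hδ0, ← Real.rpow_mul hEp.le, one_div_mul_cancel hθ.ne', Real.rpow_one]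
  obtain ⟨y', hy'⟩ : ∃ y' : ℝ, y' = min (δ0 * y / 2) (y / 16) := ⟨_, rfl⟩
  have hy'p : 0 < y' := by rw [hy']; exact lt_min (by positivity) (by positivity)
  have hy'1 : y' ≤ δ0 * y / 2 := by rw [hy']; exact min_le_left _ _
  have hy'2 : y' ≤ y / 16 := by rw [hy']; exact min_le_right _ _
  obtain ⟨k0, hk0⟩ := m_large hlow (2 / y')
  refine ⟨y', k0, hy'p, by linarith, fun k hk n hn => ?_⟩
  have hm := hlow.pos k
  have hmk := hk0 k hk
  rw [div_le_iff₀ hy'p] at hmk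
  obtain ⟨v, hv⟩ : ∃ v : ℕ, v = ⌈y' * m k / 2⌉₊ := ⟨_, rfl⟩
  rw [← hv]
  have hv1 : 1 ≤ v := by
    rw [hv]
    exact Nat.ceil_pos.2 (by positivity)
  have hvu : (v : ℝ) ≤ y' * m k := by
    have := (Nat.ceil_lt_add_one (show 0 ≤ y' * m k / 2 by positivity)).le
    rw [← hv] at this
    linarith
  have hn0 : (0 : ℝ) < n := by
    have : 0 < y * m k := by positivity
    linarith
  have hn1 : 1 ≤ n := by exact_mod_cast hn0
  have h4 : 4 * v ≤ n := by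
    have : ((4 * v : ℕ) : ℝ) ≤ n := by
      push_cast
      have h5 : y' * m k ≤ y / 16 * m k := mul_le_mul_of_nonneg_right hy'2 hm.le
      have h6 : 0 < y * m k := by positivity
      linarith
    exact_mod_cast this
  have hU : 0 < Ub k := Ub_pos k
  have hW : 0 ≤ PWR.W ub n / n := div_nonneg (Finset.sum_nonneg fun j _ => NUX.u_nonneg ren j) hn0.le
  refine (hshort v n hv1 h4).trans ?_
  have h5 : ((v : ℝ) / n) ^ (2 * a1 - 1) ≤ E := by
    rw [← hδE]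
    refine Real.rpow_le_rpow (by positivity) ?_ hθ.le
    rw [div_le_iff₀ hn0]
    have h6 : y' * m k ≤ δ0 * y / 2 * m k := mul_le_mul_of_nonneg_right hy'1 hm.le
    have h7 : δ0 * (y * m k) ≤ δ0 * (2 * n) := mul_le_mul_of_nonneg_left hn hδp.le
    linarith
  have h6 : cl * (PWR.W ub n / n) ≤ Cu / y * (Ub k / m k) := by
    refine (hub n hn1).1.trans ?_
    have h7 := hup k (2 * n) y hy hy1 (by push_cast; exact hn)
    rw [tsum_len] at h7
    have h8 : gf (BLs (2 * n)) = ENNReal.ofReal (ub n) := by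
      unfold ub
      rw [ENNReal.ofReal_toReal (BLs_ne_top _)]
    rw [h8] at h7
    exact (ENNReal.ofReal_le_ofReal_iff (by positivity)).1 h7
  have h7 : PWR.W ub n / n ≤ Cu / (cl * y) * (Ub k / m k) := by
    have h8 : PWR.W ub n / n ≤ (Cu / y * (Ub k / m k)) / cl := by
      rw [le_div_iff₀ hcl]
      linarith
    refine h8.trans (le_of_eq ?_)
    field_simp
  calc K * ((v : ℝ) / n) ^ (2 * a1 - 1) * (PWR.W ub n / n) ≤ K * E * (Cu / (cl * y) * (Ub k / m k)) := by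
        refine mul_le_mul (mul_le_mul_of_nonneg_left h5 hK.le) h7 hW (by positivity)
    _ = _ := by
        rw [hE]
        field_simp

end LB

/-- **lateral spread at the exact length**: the bridges with exactly b letters, b at least a fixed proportion of the typical
length of the scale k, that end in a lateral window of the size κ 2 ^ k carry a small proportion of the upper bound -/
def ALat (m : ℕ → ℝ) : Prop := ∀ y ε : ℝ, 0 < y → y ≤ 1 → 0 < ε → ∃ (κ : ℝ) (k0 : ℕ), 0 < κ ∧ ∀ k : ℕ, k0 ≤ k →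
  ∀ (b : ℕ) (x : ℤ), y * m k ≤ b →
    gf {V | V ∈ BU ∧ V.length = b ∧ |((latE V - x : ℤ) : ℝ)| ≤ κ * 2 ^ k} ≤ ENNReal.ofReal (ε * (Ub k / m k))

theorem aLat_of {m : ℕ → ℝ} {a1 : ℝ} (hlow : NTA.MLow m) (hC : NTA.C1 m) (hMk : ∃ C : ℝ, 0 < C ∧ ∀ (k : ℕ) (y : ℝ), 0 < y →
    NTm.TL (2 ^ k) y ≤ ENNReal.ofReal (C * m k / y * Ub k)) (h1 : 1 / 2 < a1) (h2 : a1 ≤ 3 / 5)
    (hI : IndB2 a1) : ALat m := by
  intro y ε hy hy1 hε
  obtain ⟨Cu, hCu, hup⟩ := num_up hlow.pos hC h1 h2 hI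
  obtain ⟨y', k1, hy', hy'1, hsh⟩ := LB.short_part hlow hC h1 h2 hI hy hy1 hε
  obtain ⟨η, hη⟩ : ∃ η : ℝ, η = ε * y' / (2 * Cu) := ⟨_, rfl⟩
  have hηp : 0 < η := by rw [hη]; positivity
  obtain ⟨κ, k2, hκ, hmass⟩ := LB.mass_part hlow hMk hy hηp
  refine ⟨κ, max k1 k2, hκ, fun k hk b x hb => ?_⟩
  have hm := hlow.pos k
  have hU : 0 < Ub k := Ub_pos k
  have hk1 : k1 ≤ k := (le_max_left _ _).trans hk
  have hk2 : k2 ≤ k := (le_max_right _ _).trans hk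
  rcases Nat.even_or_odd b with he | ho
  swap
  · have h3 : {V | V ∈ BU ∧ V.length = b ∧ |((latE V - x : ℤ) : ℝ)| ≤ κ * 2 ^ k} = (∅ : Set (List Bool)) := by
      rw [Set.eq_empty_iff_forall_notMem]
      rintro t ⟨⟨h, h3⟩, h4, -⟩
      have h5 := even_length h3
      rw [h4] at h5
      exact (Nat.not_even_iff_odd.2 ho) h5
    rw [h3, JumpVaux.gf_empty]
    exact zero_le
  obtain ⟨n, hn⟩ := he
  have hn2 : b = 2 * n := by omega
  have hbR : (b : ℝ) = 2 * n := by exact_mod_cast hn2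
  rw [hbR] at hb
  have hn0 : (0 : ℝ) < n := by
    have : 0 < y * m k := by positivity
    linarith
  have hn1 : 1 ≤ n := by exact_mod_cast hn0
  obtain ⟨N, M, F, q, hq, hF, hsum⟩ := hmass k hk2
  obtain ⟨v, hv⟩ : ∃ v : ℕ, v = ⌈y' * m k / 2⌉₊ := ⟨_, rfl⟩
  have hvl : y' * m k / 2 ≤ v := by
    rw [hv]
    exact Nat.le_ceil _
  have hUb : ∀ b' : ℕ, 2 * v ≤ b' → gf (BLs b') ≤ ENNReal.ofReal (Cu / y' * (Ub k / m k)) := by
    intro b' hb'
    rw [← tsum_len]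
    refine hup k b' y' hy' hy'1 ?_
    have : ((2 * v : ℕ) : ℝ) ≤ b' := by exact_mod_cast hb'
    push_cast at this
    linarith
  have hmain := LB.gf_lat (x := x) (r := ⌊κ * 2 ^ k⌋₊) hn1 hq hUb (hF n hb)
  have hsub : {V | V ∈ BU ∧ V.length = b ∧ |((latE V - x : ℤ) : ℝ)| ≤ κ * 2 ^ k} ⊆
      {V | V ∈ BU ∧ V.length = 2 * n ∧ |latE V - x| ≤ ((⌊κ * 2 ^ k⌋₊ : ℕ) : ℤ)} := by
    rintro V ⟨h3, h4, h5⟩
    refine ⟨h3, by omega, ?_⟩
    have h6 : (((latE V - x).natAbs : ℕ) : ℝ) ≤ κ * 2 ^ k := by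
      rw [Nat.cast_natAbs, Int.cast_abs]
      exact h5
    have h7 : (latE V - x).natAbs ≤ ⌊κ * 2 ^ k⌋₊ := Nat.le_floor h6
    rw [Int.abs_eq_natAbs]
    exact_mod_cast h7
  refine (gf_mono hsub).trans (hmain.trans ?_)
  have h3 := hsh k hk1 n hb
  rw [← hv] at h3
  have h4 : (F + (ENNReal.ofReal (LO.cc M) + M * q)) * ENNReal.ofReal (Cu / y' * (Ub k / m k)) ≤
      ENNReal.ofReal (ε / 2 * (Ub k / m k)) := by
    refine (mul_le_mul_left hsum _).trans ?_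
    rw [← ENNReal.ofReal_mul hηp.le]
    refine ENNReal.ofReal_le_ofReal (le_of_eq ?_)
    rw [hη]
    field_simp
  refine (add_le_add (ENNReal.ofReal_le_ofReal h3) h4).trans ?_
  rw [← ENNReal.ofReal_add (by positivity) (by positivity)]
  refine ENNReal.ofReal_le_ofReal (le_of_eq ?_)
  ring

end EN

end HexObs
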