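import Pool.Agent.EN.RepF
import Pool.Agent.NTW.Cover
import Pool.Agent.NTW.FoldEx
import Pool.Agent.NTW.Event2

/-!
EN (the end point at exactly n letters): the words with a large vertical range are one leaf and two free ends; the word of the
representation is explicit.
-/

set_option autoImplicit false

namespace HexObs

namespace EN

namespace LW

open Finset TS SDN NTW

open scoped ENNReal

/-- the conditions of the representation by the leaf g and the ends o, o' -/
def CO (N lam : ℕ) (S : Set (List Bool)) (c : Fin 16) (o o' : Option (List Bool)) (g : List Bool) : Prop :=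
  (∀ W ∈ o, W ∈ SSt N ∧ LFold (rev g) W ∧ g.length + W.length ≤ lam + 20) ∧
  (∀ W ∈ o', W ∈ SSt N ∧ LFold g W ∧ g.length + W.length ≤ lam + 20) ∧
  Rp.asmF c o [g] o' ∈ S ∧
  (o.getD []).length + g.length + (o'.getD []).length ≤ (Rp.asmF c o [g] o').length + 10 ∧
  (Rp.asmF c o [g] o').length ≤ (o.getD []).length + g.length + (o'.getD []).length + 10

open Classical in
/-- **cover by one leaf and two free ends** -/
theorem cover_one : ∃ K : ℝ, 1 ≤ K ∧ ∀ (S : Set (List Bool)) (N lam : ℕ) (R : ℤ), 4 ≤ R →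
    (∀ t ∈ S, t ∈ SA ∧ t.length ≤ lam ∧ (∀ i i', i ≤ t.length → i' ≤ t.length → lev t i - lev t i' ≤ 3 * N) ∧
      ∃ i i', i ≤ t.length ∧ i' ≤ t.length ∧ R ≤ lev t i - lev t i') →
    gf S ≤ ENNReal.ofReal K * ∑ c : Fin 16, Rec8.sw {g | ∃ h : ℕ, 1 ≤ h ∧ g ∈ Brd h ∧ R ≤ 3 * (h : ℤ) + 8 ∧
      3 * (h : ℤ) ≤ 3 * N + 8} (fun g => ∑' (o : Option (List Bool)) (o' : Option (List Bool)),
        if CO N lam S c o o' g then wO o * wO o' else 0) := by
  have hx := xc_pos
  have hx1 := xc_bounds.2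
  refine ⟨xc⁻¹ ^ 10, one_le_pow₀ ((one_le_inv₀ hx).2 hx1), fun S N lam R hR hS => ?_⟩
  obtain ⟨B, hB⟩ : ∃ B : Set (List Bool), B = {g | ∃ h : ℕ, 1 ≤ h ∧ g ∈ Brd h ∧ R ≤ 3 * (h : ℤ) + 8 ∧
      3 * (h : ℤ) ≤ 3 * N + 8} := ⟨_, rfl⟩
  rw [← hB]
  obtain ⟨H, hH⟩ : ∃ H : Fin 16 × (List Bool × (Option (List Bool) × Option (List Bool))) → ℝ≥0∞, H = fun x =>
    ENNReal.ofReal (xc⁻¹ ^ 10) * (if x.2.1 ∈ B then wE x.2.1 * (if CO N lam S x.1 x.2.2.1 x.2.2.2 x.2.1 then
      wO x.2.2.1 * wO x.2.2.2 else 0) else 0) := ⟨_, rfl⟩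
  rw [← Rec8.sw_one]
  refine (Rec8.sw_cover S (fun _ => 1) H (fun x => Rp.asmF x.1 x.2.2.1 [x.2.1] x.2.2.2) ?_).trans ?_
  · intro t ht
    obtain ⟨h1, h2, h3, i, i', h4, h5, h6⟩ := hS t ht
    obtain ⟨u, e, hG, hmm⟩ := pivot_ex h1 ⟨i, i', h4, h5, by omega⟩
    have hle := hG.le
    have hlt := hG.lt 0 (by norm_num)
    rw [show 0 + 1 = 1 by norm_num] at hlt
    have hsg : ∀ a b : ℕ, a ≤ t.length → b ≤ t.length → Tight.sg u (lev t a) - Tight.sg u (lev t b) ≤ 3 * N := by
      intro a b ha hb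
      have q1 := h3 a b ha hb
      have q2 := h3 b a hb ha
      unfold Tight.sg
      split_ifs <;> omega
    obtain ⟨c, o, o', gs, r1, r2, r3, r4, r5, r6, -⟩ := Rp.rep_asm t 1 u e N N h1 le_rfl hG
      (fun a ha => hsg a (e 0) (by omega) (by omega)) (fun a ha ha' => by
        simp only [Nat.sub_self, add_zero]
        exact hsg (e 1) a (by omega) ha')
    obtain ⟨g, rfl⟩ : ∃ g, gs = [g] := List.length_eq_one_iff.1 r1.len
    obtain ⟨k, k1, k2⟩ := r1.brd g List.mem_cons_self
    have hpos := r1.pos 0 (by simp)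
    have hh := NTW.EX.leaf_hgt k2 k1 hpos
    rw [add_zero, zero_add] at hh
    have hunf : unf [g] = g := rfl
    rw [hunf] at r5 r6
    have hne : g ≠ [] := Brd_ne_nil k2 k1
    refine ⟨(c, (g, (o, o'))), r4.symm, ?_⟩
    have hgB : g ∈ B := by
      rw [hB]
      refine ⟨k, k1, k2, ?_, ?_⟩
      · have q1 := (hmm i h4)
        have q2 := (hmm i' h5)
        have q3 : lev t i - lev t i' ≤ Tight.sg u (lev t (e 1)) - Tight.sg u (lev t (e 0)) := by
          unfold Tight.sg at q1 q2 ⊢
          split_ifs at q1 q2 ⊢ <;> omega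
        rw [abs_le] at hh
        omega
      · have q1 := hsg (e 1) (e 0) (by omega) (by omega)
        rw [abs_le] at hh
        omega
    have hC : CO N lam S c o o' g := by
      refine ⟨?_, ?_, ?_, ?_, ?_⟩
      · intro W hW
        obtain ⟨w1, w2⟩ := r2 W hW
        refine ⟨w1, w2, ?_⟩
        have : (o.getD []).length = W.length := by
          rw [Option.mem_def.1 hW]
          rfl
        omega
      · intro W hW
        obtain ⟨w1, w2⟩ := r3 W hW
        refine ⟨w1, w2, ?_⟩
        have : (o'.getD []).length = W.length := by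
          rw [Option.mem_def.1 hW]
          rfl
        omega
      · rw [← r4]
        exact ht
      · rw [← r4]
        exact r5
      · rw [← r4]
        exact r6
    rw [hH]
    simp only
    rw [if_pos hgB, if_pos hC, mul_one]
    have h7 := CovA.wE_bound (t := t) (o := o) (o' := o') (gs := [g]) (by
      intro g' hg'
      rw [List.mem_singleton] at hg'
      rw [hg']
      exact hne) (by simp) (by rw [hunf]; exact r5)
    refine h7.trans (le_of_eq ?_)
    have h8 : SDN.wl [g] = wE g := by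
      unfold SDN.wl
      simp
    rw [h8]
    ring
  · rw [ENNReal.tsum_prod', tsum_fintype, Finset.mul_sum]
    refine le_of_eq (Finset.sum_congr rfl fun c _ => ?_)
    rw [ENNReal.tsum_prod', Rec8.sw_ind, ← ENNReal.tsum_mul_left]
    refine tsum_congr fun g => ?_
    rw [ENNReal.tsum_prod']
    rw [hH]
    simp only
    by_cases hg : g ∈ B
    · simp only [if_pos hg]
      rw [← ENNReal.tsum_mul_left, ← ENNReal.tsum_mul_left]
      refine tsum_congr fun o => ?_
      rw [← ENNReal.tsum_mul_left, ← ENNReal.tsum_mul_left]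
    · simp only [if_neg hg, mul_zero, tsum_zero]

end LW

end EN

end HexObs
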