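import Pool.Agent.NTW.RepU
import Pool.Agent.SDN.Frames
import Pool.Agent.PHW.Mirror

/-!
EN (LOWX): the end point of a word A ++ (Z ++ B) with a bridge Z in the middle; words with given ends and leaves.
-/

set_option autoImplicit false

namespace HexObs

namespace EN

open Finset TS SDN NTW

namespace PZ

lemma dx_mem (t : List Bool) (i : ℕ) : dx up t i ∈ dirs := ds_mem up_dirs _

/-- lateral coordinate in a rotated frame -/
lemma cross_le {u p : Pt} (hu : u ∈ dirs) {R : ℝ} (h : ∀ dir : Bool, |((lvl dir p : ℤ) : ℝ)| ≤ R) :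
    |((cross up (mulE (conjE u) p) : ℤ) : ℝ)| ≤ R := by
  have h0 := h false
  have h1 := h true
  have e0 : lvl false p = 2 * p.2 + p.1 := by
    show ip p up = _
    simp only [ip, up]
    ring
  have e1 : lvl true p = -2 * p.1 - p.2 := by
    show ip p (-1, 0) = _
    simp only [ip]
    ring
  rw [e0, abs_le] at h0
  rw [e1, abs_le] at h1
  push_cast at h0 h1
  rw [abs_le]
  simp only [dirs, Finset.mem_insert, Finset.mem_singleton] at hu
  rcases hu with rfl | rfl | rfl | rfl | rfl | rfl <;>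
  · simp only [cross, up, mulE, conjE]
    push_cast
    constructor <;> linarith [h0.1, h0.2, h1.1, h1.2]

/-- **the end point determines the lateral position of the bridge in the middle** -/
theorem pos_midR (A B : List Bool) : ∃ x : ℤ, ∀ Z ∈ BU, ∀ R : ℝ,
    (∀ dir : Bool, |((lvl dir (vx oo up (A ++ (Z ++ B)) (A ++ (Z ++ B)).length) : ℤ) : ℝ)| ≤ R) →
      |((latE Z - x : ℤ) : ℝ)| ≤ R := by
  obtain ⟨P, hP⟩ : ∃ P, P = vx oo up A A.length := ⟨_, rfl⟩
  obtain ⟨u, hu⟩ : ∃ u, u = rotTo up (dx up A A.length) := ⟨_, rfl⟩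
  obtain ⟨hud, hue⟩ := frame_dir (dx_mem A A.length)
  rw [← hu] at hud hue
  obtain ⟨Q, hQ⟩ : ∃ Q, Q = P + mulE u (vx oo up B B.length) := ⟨_, rfl⟩
  refine ⟨cross up (mulE (conjE u) Q), fun Z hZ R hR => ?_⟩
  obtain ⟨h, hZ⟩ := hZ
  have hZd : dx up Z Z.length = up := (mem_Brd.1 hZ).2.2.1
  have e1 : vx oo up (A ++ (Z ++ B)) (A ++ (Z ++ B)).length = P + mulE u (vx oo up (Z ++ B) (Z.length + B.length)) := by
    rw [← vx_frameN, ← hue, hP]
    have h1 : vx oo up (A ++ (Z ++ B)) A.length = vx oo up A A.length := vx_append (by omega)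
    have h2 : dx up (A ++ (Z ++ B)) A.length = dx up A A.length := dx_append le_rfl
    rw [← h1, ← h2]
    have h3 := vx_dropN oo up (A ++ (Z ++ B)) A.length (Z.length + B.length)
    rw [List.drop_left] at h3
    rw [h3, List.length_append, List.length_append]
  have e2 : vx oo up (Z ++ B) (Z.length + B.length) = vx oo up Z Z.length + vx oo up B B.length := vx_cat hZd _
  have e3 : mulE (conjE u) (vx oo up (A ++ (Z ++ B)) (A ++ (Z ++ B)).length) =
      mulE (conjE u) Q + vx oo up Z Z.length := by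
    rw [e1, e2, mulE_add, hQ]
    have h4 : mulE (conjE u) (mulE u (vx oo up Z Z.length)) = vx oo up Z Z.length := by
      rw [mulE_assoc, mulE_comm (conjE u) u, mulE_conjE, mem_dirs.1 hud, mulE_one]
    rw [mulE_add, mulE_add, mulE_add, h4]
    abel
  have e4 := cross_le hud hR
  rw [e3] at e4
  have e5 : cross up (mulE (conjE u) Q + vx oo up Z Z.length) = -(latE Z - cross up (mulE (conjE u) Q)) := by
    unfold latE lat
    simp only [cross, Prod.fst_add, Prod.snd_add]
    ring
  rw [e5] at e4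
  push_cast at e4 ⊢
  rwa [abs_neg] at e4

/-- the same with integers -/
theorem pos_mid (A B : List Bool) : ∃ x : ℤ, ∀ Z ∈ BU, ∀ R : ℤ,
    (∀ dir : Bool, |lvl dir (vx oo up (A ++ (Z ++ B)) (A ++ (Z ++ B)).length)| ≤ R) → |latE Z - x| ≤ 4 * R := by
  obtain ⟨x, hx⟩ := pos_midR A B
  refine ⟨x, fun Z hZ R hR => ?_⟩
  have h := hx Z hZ R (fun dir => by exact_mod_cast hR dir)
  have h1 : |latE Z - x| ≤ R := by exact_mod_cast h
  have h2 : (0 : ℤ) ≤ R := (abs_nonneg _).trans (hR false)
  omega

/-! ### words with given ends and leaves -/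

lemma lst_mid (M Z : List Bool) {T : List Bool} (hT : T ≠ []) : lst (M ++ (Z ++ T)) = lst T := by
  unfold lst
  rw [List.getLastD_eq_getLast?, List.getLastD_eq_getLast?, List.getLast?_append_of_ne_nil _ (by simp [hT]),
    List.getLast?_append_of_ne_nil _ hT]

lemma dropLast_mid (M Z : List Bool) {T : List Bool} (hT : T ≠ []) : (M ++ (Z ++ T)).dropLast = M ++ (Z ++ T.dropLast) := by
  rw [List.dropLast_append_of_ne_nil (by simp [hT]), List.dropLast_append_of_ne_nil hT]

/-- the end of the word -/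
lemma endF_mid (x : Bool) (y : Fin 3) (o' : Option (List Bool)) (M : List Bool) {T : List Bool} (hT : T ≠ []) :
    ∃ B : List Bool, ∀ Z : List Bool, Rp.endF x y o' (M ++ (Z ++ T)) = M ++ (Z ++ B) := by
  cases o' with
  | some W =>
    refine ⟨T.dropLast ++ (!lst T) :: (!lst T) :: (W ++ [x]), fun Z => ?_⟩
    unfold Rp.endF
    simp only
    rw [dropLast_mid M Z hT, lst_mid M Z hT]
    simp only [List.append_assoc]
  | none =>
    by_cases h0 : y = 0
    · refine ⟨T.dropLast ++ [x], fun Z => ?_⟩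
      unfold Rp.endF
      simp only
      rw [if_pos h0, dropLast_mid M Z hT]
      simp only [List.append_assoc]
    · by_cases h1 : y = 1
      · refine ⟨T ++ [x], fun Z => ?_⟩
        unfold Rp.endF
        simp only
        rw [if_neg h0, if_pos h1]
        simp only [List.append_assoc]
      · refine ⟨T.dropLast ++ [!lst T, x], fun Z => ?_⟩
        unfold Rp.endF
        simp only
        rw [if_neg h0, if_neg h1, dropLast_mid M Z hT, lst_mid M Z hT]
        simp only [List.append_assoc]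

/-- **one leaf with two free ends: the word around the middle part of the leaf** -/
theorem asmF_mid (c : Fin 16) (o o' : Option (List Bool)) {M T : List Bool} (hM : M ≠ []) (hT : T ≠ []) :
    ∃ A B : List Bool, ∀ Z : List Bool, Rp.asmF c o [M ++ (Z ++ T)] o' = A ++ (Z ++ B) := by
  obtain ⟨B, hB⟩ := endF_mid (decide (c.val % 2 = 1)) ⟨c.val / 2 % 3, Nat.mod_lt _ (by decide)⟩ o' M hT
  have hu : ∀ Z, unf [M ++ (Z ++ T)] = M ++ (Z ++ T) := fun Z => rfl
  cases o with
  | none =>
    refine ⟨M, B, fun Z => ?_⟩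
    unfold Rp.asmF
    simp only
    rw [hu, hB]
  | some W =>
    obtain ⟨a, M', rfl⟩ := List.exists_cons_of_ne_nil hM
    refine ⟨rev W ++ (!a) :: (!a) :: M', B, fun Z => ?_⟩
    unfold Rp.asmF
    simp only
    rw [hu, hB]
    simp only [List.cons_append, List.headD_cons, List.tail_cons, List.append_assoc]

/-- **the middle part of the first leaf of a chain** -/
theorem unf_mid (M : List Bool) {T : List Bool} (hT : T ≠ []) (gs : List (List Bool)) :
    ∃ T' : List Bool, T' ≠ [] ∧ ∀ Z : List Bool, unf ((M ++ (Z ++ T)) :: gs) = M ++ (Z ++ T') := by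
  cases gs with
  | nil => exact ⟨T, hT, fun Z => rfl⟩
  | cons g gs =>
    refine ⟨T.dropLast ++ (!lst T) :: (!lst T) :: unf (g :: gs), by simp, fun Z => ?_⟩
    show (M ++ (Z ++ T)).dropLast ++ (!lst (M ++ (Z ++ T))) :: (!lst (M ++ (Z ++ T))) :: unf (g :: gs) = _
    rw [dropLast_mid M Z hT, lst_mid M Z hT]
    simp only [List.append_assoc]

theorem unf3_mid (M : List Bool) {T : List Bool} (hT : T ≠ []) (l s2 : List Bool) :
    ∃ T' : List Bool, T' ≠ [] ∧ ∀ Z : List Bool, unf [M ++ (Z ++ T), l, s2] = M ++ (Z ++ T') :=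
  unf_mid M hT [l, s2]

/-- the word with two free ends and one piece with a zig-zag, around the middle part of the first leaf of the zig-zag -/
theorem asm3_mid (c : Fin 16) (o o' : Option (List Bool)) {M T : List Bool} (hM : M ≠ []) (hT : T ≠ []) (l s2 : List Bool) :
    ∃ A B : List Bool, ∀ Z : List Bool, Rp.asmF c o [unf [M ++ (Z ++ T), l, s2]] o' = A ++ (Z ++ B) := by
  obtain ⟨T', hT', h1⟩ := unf3_mid M hT l s2
  obtain ⟨A, B, h2⟩ := asmF_mid c o o' hM hT'
  exact ⟨A, B, fun Z => by rw [h1, h2]⟩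

end PZ

end EN

end HexObs
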