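import Pool.Agent.EN.LowSum
import Pool.Agent.EN.LowCov
import Pool.Agent.EN.PosZ
import Pool.Agent.EN.LatU
import Pool.Agent.EN.ExRem

/-!
EN (the end point at exactly n letters): the end point and the number of letters leave a small weight for the free middle
part of the first leaf.
-/

set_option autoImplicit false

namespace HexObs

namespace EN

namespace LW

open Finset TS SDN SDN.CN NTm NTW NTA LQ

open scoped ENNReal

/-- bridges by their height -/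
lemma sum_brd (q : List Bool → Prop) : ∑' h : ℕ, gf {Z | Z ∈ Brd h ∧ q Z} ≤ gf {Z | Z ∈ BU ∧ q Z} := by
  classical
  simp only [← Rec8.sw_one, Rec8.sw_ind]
  rw [ENNReal.tsum_comm]
  refine ENNReal.tsum_le_tsum fun Z => ?_
  by_cases hZ : Z ∈ {Z | Z ∈ BU ∧ q Z}
  · rw [if_pos hZ, tsum_eq_single (hgt Z)]
    · split_ifs
      · exact le_rfl
      · exact zero_le
    · intro h hh
      rw [if_neg]
      rintro ⟨h1, -⟩
      exact hh (hgt_eq h1).symm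
  · rw [if_neg hZ]
    refine le_of_eq (ENNReal.tsum_eq_zero.2 fun h => ?_)
    rw [if_neg]
    rintro ⟨h1, h2⟩
    exact hZ ⟨⟨h, h1⟩, h2⟩

/-- **the free middle part of s1 has little weight, given the continuations, the letters and the end point** -/
theorem ezj_of {m : ℕ → ℝ} (hAL : ALat m) {y ε : ℝ} (hy0 : 0 < y) (hy1 : y ≤ 1) (hε : 0 < ε) :
    ∃ (κ : ℝ) (k0 : ℕ), 0 < κ ∧ ∀ k : ℕ, k0 ≤ k → ∀ (D N N' lam e n : ℕ) (x : ℝ) (S S1 : Set (List Bool)) (c : Fin 16),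
      y * m k ≤ x → S1 ⊆ LQ.Mid (2 ^ e) x →
      (∀ t ∈ S, t.length = n ∧ ∀ dir : Bool, |((lvl dir (vx oo up t t.length) : ℤ) : ℝ)| ≤ κ * 2 ^ k) →
      EZJ D N' e S1 (fun (o : Option (List Bool)) (b : Ct) (s : List Bool) =>
        CO N lam S c o b.2.2 (unf [s, b.1, b.2.1])) (ε * (Ub k / m k)) := by
  obtain ⟨κ, k0, hκ, h⟩ := hAL y ε hy0 hy1 hε
  refine ⟨κ, k0, hκ, fun k hk D N N' lam e n x S S1 c hx hS1 hS => ?_⟩
  intro M hM P1 hP1 P2 hP2 Q hQ h1 h2 o b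
  obtain ⟨l, s2, o'⟩ := b
  have hMP := BU_app hM (IU_BU hP1)
  have hPQ := BU_app (IU_BU hP2) hQ
  have hMne : M ++ P1 ≠ [] := by
    obtain ⟨r, hr⟩ := hP1
    have := hr.2.1
    intro h3
    exact this (List.append_eq_nil_iff.1 h3).2
  have hTne : P2 ++ Q ≠ [] := by
    obtain ⟨r, hr⟩ := hP2
    have := hr.2.1
    intro h3
    exact this (List.append_eq_nil_iff.1 h3).1
  obtain ⟨A, B, hAB⟩ := PZ.asm3_mid c o o' hMne hTne l s2
  obtain ⟨x0, hx0⟩ := PZ.pos_midR A B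
  obtain ⟨b0, hb0⟩ : ∃ b0, b0 = n - A.length - B.length := ⟨_, rfl⟩
  -- the words with the required properties
  have key : ∀ Z ∈ BU, CO N lam S c o o' (unf [M ++ (P1 ++ (Z ++ (P2 ++ Q))), l, s2]) →
      M ++ (P1 ++ (Z ++ (P2 ++ Q))) ∈ S1 → y * m k ≤ Z.length ∧ Z.length = b0 ∧
        |((latE Z - x0 : ℤ) : ℝ)| ≤ κ * 2 ^ k := by
    intro Z hZ hC hZ1
    have h3 := hC.2.2.1
    have e1 : M ++ (P1 ++ (Z ++ (P2 ++ Q))) = (M ++ P1) ++ (Z ++ (P2 ++ Q)) := by rw [List.append_assoc]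
    have e2 : Rp.asmF c o [unf [M ++ (P1 ++ (Z ++ (P2 ++ Q))), l, s2]] o' = A ++ (Z ++ B) := by
      rw [e1]
      exact hAB Z
    rw [e2] at h3
    obtain ⟨h4, h5⟩ := hS _ h3
    refine ⟨hx.trans (hS1 hZ1 (M ++ P1) Z (P2 ++ Q) hMP hZ hPQ e1 ?_ ?_), ?_, hx0 Z hZ _ h5⟩
    · rw [hgt_app hM (IU_BU hP1)]
      exact h1
    · rw [hgt_app (IU_BU hP2) hQ]
      exact h2
    · rw [List.length_append, List.length_append] at h4
      omega
  by_cases hb : y * m k ≤ (b0 : ℝ)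
  · refine (ENNReal.tsum_le_tsum fun z => gf_mono ?_).trans ((sum_brd fun Z => Z.length = b0 ∧
      |((latE Z - x0 : ℤ) : ℝ)| ≤ κ * 2 ^ k).trans (h k hk b0 x0 hb))
    rintro Z ⟨g1, g2, g3, -⟩
    obtain ⟨-, g5, g6⟩ := key Z ⟨z, g1⟩ g2 g3
    exact ⟨g1, g5, g6⟩
  · refine sum_none fun Z hZ => ?_
    rintro ⟨g2, g3, -⟩
    obtain ⟨g4, g5, -⟩ := key Z hZ g2 g3
    rw [g5] at g4
    exact hb g4

end LW

end EN

end HexObs
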