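import Pool.Agent.EN.EmoDefs

/-!
EN: the two literal inputs of the modulus at exactly n letters: the exact norm of the runs of J0 + 2 leaves with a marked
one, and the event theorem with leaves at the ends.
-/

set_option autoImplicit false

namespace HexObs

namespace EN

open Finset TS SDN NTW NTA

open scoped ENNReal

/-- the exact norm of the runs of J0 + 2 leaves with a leaf of S -/
theorem markX {m : ℕ → ℝ} {J0 : ℕ} (h : GBm m J0) : MarkX m J0 := by
  classical
  obtain ⟨C, k0, hC, h⟩ := h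
  obtain ⟨K, hK, hbox⟩ := smD_box
  refine ⟨(8 * K) ^ (J0 + 2) * C, k0, ?_, fun kc mu S δ hk hδ hS => ?_⟩
  · exact one_le_mul_of_one_le_of_one_le (one_le_pow₀ (by linarith)) hC
  have hGB := h kc mu hk
  have hE := hGB.nonneg
  have hq : (1 : ℝ) ≤ K * 2 ^ mu := one_le_mul_of_one_le_of_one_le hK (one_le_pow₀ (by norm_num))
  have h1 := smRX_marks dmP inH_box hδ hq hGB (hbox kc mu) hS (J0 + 2) 1
  refine SmRX.le (SmRX.anti h1 ?_) ?_
  · rintro gs ⟨h2, h3, g, hg, hgS⟩
    refine ⟨h2, by omega, h3, ?_⟩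
    have h4 : g ∈ gs.filter (fun g => decide (g ∈ S)) := by
      rw [List.mem_filter]
      exact ⟨hg, by simpa using hgS⟩
    exact List.length_pos_of_mem h4
  · have e1 : (4 * (K * 2 ^ mu)) ^ (J0 + 2) ≤ ((8 * K) ^ (J0 + 2)) ^ (mu + 1) := by
      rw [← pow_mul, mul_comm (J0 + 2) (mu + 1), pow_mul]
      refine pow_le_pow_left₀ (by positivity) ?_ _
      rw [pow_succ]
      have h5 : (2 : ℝ) ^ mu ≤ (8 * K) ^ mu := pow_le_pow_left₀ (by norm_num) (by linarith) mu
      have h6 : (0 : ℝ) < 2 ^ mu := by positivity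
      nlinarith
    calc (4 * (K * 2 ^ mu)) ^ (J0 + 2) * (δ ^ 1 * (C ^ (mu + 1) / m kc))
        ≤ ((8 * K) ^ (J0 + 2)) ^ (mu + 1) * (δ ^ 1 * (C ^ (mu + 1) / m kc)) :=
          mul_le_mul_of_nonneg_right e1 (by rw [pow_one]; positivity)
      _ = ((8 * K) ^ (J0 + 2) * C) ^ (mu + 1) * δ / m kc := by
          rw [mul_pow, pow_one]
          ring

/-- the event theorem at exactly n letters, leaves at the ends allowed -/
theorem evX : EvX := by
  obtain ⟨Ci, δi, hI⟩ := inp_exists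
  obtain ⟨C0, k0, hC0, h0⟩ := eventRXJ (ssA hI)
  obtain ⟨D, hD, hDX⟩ := Xb_pow
  have hC0' : 0 ≤ C0 := by linarith
  have hD0 : 0 ≤ D := by linarith
  refine ⟨C0 * D ^ 16, k0, ?_, fun kc J n R δ hk hJ hδ hS => ?_⟩
  · have : 1 ≤ D ^ 16 := one_le_pow₀ hD
    nlinarith
  · have hUp := Ub_pos (kc + J)
    obtain ⟨lam', hQ⟩ := QL_exists (kc + J + 8)
    have h1 : gf {t | t.length = n ∧ t ∈ ER kc J R} ≤
        ENNReal.ofReal (C0 ^ J * δ * Ub (kc + J)) * (Xb (kc + J + 8)) ^ 2 := by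
      refine (gf_mono fun t ht => ?_).trans ((h0 kc J n lam' n R δ hk hJ hδ hQ hS).trans ?_)
      · exact ⟨ht.1, ⟨ht.2.1.1, ht.1.le⟩, ht.2⟩
      · exact mul_le_mul_right (pow_le_pow_left' (bl_le_Xb _ _) 2) _
    refine h1.trans ?_
    calc ENNReal.ofReal (C0 ^ J * δ * Ub (kc + J)) * (Xb (kc + J + 8)) ^ 2
        ≤ ENNReal.ofReal (C0 ^ J * δ * Ub (kc + J)) * (ENNReal.ofReal (D ^ 8) * Xb (kc + J)) ^ 2 := by
          exact mul_le_mul_right (pow_le_pow_left' (hDX (kc + J) 8) 2) _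
      _ = ENNReal.ofReal (C0 ^ J * D ^ 16 * δ * Ub (kc + J)) * Xb (kc + J) ^ 2 := by
          rw [mul_pow, ← ENNReal.ofReal_pow (by positivity), ← mul_assoc, ← ENNReal.ofReal_mul (by positivity)]
          congr 2
          ring
      _ ≤ _ := by
          refine mul_le_mul_left (ENNReal.ofReal_le_ofReal ?_) _
          have e1 : D ^ 16 ≤ (D ^ 16) ^ J := by
            calc D ^ 16 = (D ^ 16) ^ 1 := by rw [pow_one]
              _ ≤ (D ^ 16) ^ J := pow_le_pow_right₀ (one_le_pow₀ hD) (by omega)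
          rw [mul_pow]
          gcongr

end EN

end HexObs
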