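import Pool.Agent.NTA.RunFun
import Pool.Agent.NTW.DmJ

/-!
EN (natural time, exact number of letters): graded functionals. F c t is the weight of what follows t with exactly c
letters; every leaf g counts g.length + 1 letters (with the letter of its fold).
-/

set_option autoImplicit false

namespace HexObs

namespace EN

open Finset TS SDN NTW NTA

open scoped ENNReal

/-- total number of letters, with the letters of the folds -/
def ll (ms : List (List Bool)) : ℕ := (ms.map fun g => g.length + 1).sum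

/-- any number of letters -/
noncomputable def tot (F : ℕ → List Bool → ℝ≥0∞) (t : List Bool) : ℝ≥0∞ := ∑' c, F c t

/-- the letters of the leaf count -/
noncomputable def sh (F : ℕ → List Bool → ℝ≥0∞) (N : ℕ) (g : List Bool) : ℝ≥0∞ :=
  if g.length + 1 ≤ N then F (N - (g.length + 1)) g else 0

/-- graded functionals with hereditary parts -/
def GH (D : ℕ) (F : ℕ → List Bool → ℝ≥0∞) : Prop := ∀ c, HerD D (F c)

/-- the leaves of A behind t, N letters behind t -/
noncomputable def vG (D : ℕ) (A : Set (List Bool)) (F : ℕ → List Bool → ℝ≥0∞) (N : ℕ) : List Bool → ℝ≥0∞ :=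
  vA D A (sh F N)

open Classical in
/-- the runs of R beginning with the leaf g, N letters behind g -/
noncomputable def runG (R : Set (List (List Bool))) (F : ℕ → List Bool → ℝ≥0∞) (N : ℕ) (g : List Bool) : ℝ≥0∞ :=
  ∑' ms : List (List Bool), if (g :: ms) ∈ R ∧ (g :: ms).IsChain LFold ∧ ll ms ≤ N then
    SDN.wl ms * F (N - ll ms) ((g :: ms).getLastD []) else 0

/-- a class of runs of small exact norm at the scale kc + 5 -/
structure SmRX (Dm : ℕ → ℝ≥0∞ → (List Bool → ℝ≥0∞) → Prop) (kc : ℕ) (R : Set (List (List Bool))) (δ : ℝ) : Prop where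
  near : ∀ (x : ℝ≥0∞) (F : ℕ → List Bool → ℝ≥0∞), GH (2 ^ (kc + 4)) F → Dm kc x (tot F) →
    xT (2 ^ (kc + 4)) kc (fun t => ⨆ N, vG (2 ^ (kc + 4)) (HB (2 ^ (kc + 4))) (runG R F) N t) ≤ ENNReal.ofReal δ * x
  free : ∀ (y x : ℝ≥0∞) (P F : ℕ → List Bool → ℝ≥0∞), GH (2 ^ (kc + 4)) P → (∀ c, Flp (2 ^ (kc + 4)) (P c)) →
    GH (2 ^ (kc + 4)) F → Dm kc y (tot P) → Dm kc x (tot F) → ∀ N : ℕ,
    Rec8.sw (HB (2 ^ (kc + 4))) (fun g => ∑ c ∈ range (N + 1), P c (rev g) * sh (runG R F) (N - c) g) ≤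
      ENNReal.ofReal (δ * Ub kc) * (y * x)

/-! ### elementary properties -/

lemma ll_nil : ll [] = 0 := rfl

lemma ll_cons (g : List Bool) (ms : List (List Bool)) : ll (g :: ms) = g.length + 1 + ll ms := by
  unfold ll
  rw [List.map_cons, List.sum_cons]

lemma ll_append (a b : List (List Bool)) : ll (a ++ b) = ll a + ll b := by
  unfold ll
  rw [List.map_append, List.sum_append]

/-- a sum over c + a = N -/
lemma tsum_shift (f : ℕ → ℝ≥0∞) (a : ℕ) : ∑' N, (if a ≤ N then f (N - a) else 0) = ∑' c, f c := by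
  have h : Function.Injective (fun c : ℕ => c + a) := fun x y h => by simpa using h
  have h1 := h.tsum_eq (f := fun N => if a ≤ N then f (N - a) else 0) (by
    intro N hN
    rw [Function.mem_support] at hN
    by_cases h2 : a ≤ N
    · exact ⟨N - a, by simp only; omega⟩
    · rw [if_neg h2] at hN
      exact absurd rfl hN)
  rw [← h1]
  refine tsum_congr fun c => ?_
  rw [if_pos (by omega), Nat.add_sub_cancel]

lemma le_tot (F : ℕ → List Bool → ℝ≥0∞) (c : ℕ) (t : List Bool) : F c t ≤ tot F t := ENNReal.le_tsum c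

lemma tot_sh (F : ℕ → List Bool → ℝ≥0∞) (g : List Bool) : tot (sh F) g = tot F g := by
  unfold tot sh
  exact tsum_shift (fun c => F c g) (g.length + 1)

lemma sw_tsum {ι : Type*} (A : Set (List Bool)) (f : ι → List Bool → ℝ≥0∞) :
    Rec8.sw A (fun g => ∑' i, f i g) = ∑' i, Rec8.sw A (f i) := by
  unfold Rec8.sw
  rw [ENNReal.tsum_comm]
  refine tsum_congr fun g => ?_
  rw [ENNReal.tsum_mul_left]

lemma tot_vG (D : ℕ) (A : Set (List Bool)) (F : ℕ → List Bool → ℝ≥0∞) (t : List Bool) :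
    tot (vG D A F) t = vA D A (tot F) t := by
  have h : (fun g => tot (sh F) g) = tot F := funext fun g => tot_sh F g
  unfold tot vG vA
  rw [← sw_tsum]
  show Rec8.sw _ (fun g => tot (sh F) g) = _
  rw [h]
  rfl

lemma tot_runG (R : Set (List (List Bool))) (F : ℕ → List Bool → ℝ≥0∞) (g : List Bool) :
    tot (runG R F) g = runF R (tot F) g := by
  classical
  unfold tot runG runF
  rw [ENNReal.tsum_comm]
  refine tsum_congr fun ms => ?_
  by_cases h : (g :: ms) ∈ R ∧ (g :: ms).IsChain LFold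
  · rw [if_pos h]
    have h1 : ∀ N, (if (g :: ms) ∈ R ∧ (g :: ms).IsChain LFold ∧ ll ms ≤ N then
        SDN.wl ms * F (N - ll ms) ((g :: ms).getLastD []) else 0) =
        if ll ms ≤ N then SDN.wl ms * F (N - ll ms) ((g :: ms).getLastD []) else 0 := by
      intro N
      by_cases h2 : ll ms ≤ N
      · rw [if_pos h2, if_pos ⟨h.1, h.2, h2⟩]
      · rw [if_neg h2, if_neg fun h3 => h2 h3.2.2]
    simp only [h1]
    rw [tsum_shift (fun c => SDN.wl ms * F c ((g :: ms).getLastD [])) (ll ms), ENNReal.tsum_mul_left]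
  · rw [if_neg h]
    refine ENNReal.tsum_eq_zero.2 fun N => ?_
    rw [if_neg fun h3 => h ⟨h3.1, h3.2.1⟩]

lemma herD_iSup {ι : Sort*} {D : ℕ} {f : ι → List Bool → ℝ≥0∞} (h : ∀ i, HerD D (f i)) :
    HerD D (fun t => ⨆ i, f i t) :=
  ⟨fun s hs t => iSup_mono fun i => (h i).her s hs t, fun s t h1 h2 => iSup_mono fun i => (h i).suf s t h1 h2⟩

lemma herD_tot {D : ℕ} {F : ℕ → List Bool → ℝ≥0∞} (h : GH D F) : HerD D (tot F) :=
  ⟨fun s hs t => ENNReal.tsum_le_tsum fun i => (h i).her s hs t,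
    fun s t h1 h2 => ENNReal.tsum_le_tsum fun i => (h i).suf s t h1 h2⟩

lemma herD_vG {D : ℕ} (hD : 1 ≤ D) (A : Set (List Bool)) (F : ℕ → List Bool → ℝ≥0∞) : GH D (vG D A F) :=
  fun _ => NTm.herD_vA hD A _

lemma flp_tot {D : ℕ} {P : ℕ → List Bool → ℝ≥0∞} (h : ∀ c, Flp D (P c)) : Flp D (tot P) :=
  fun s t c h1 h2 => ENNReal.tsum_le_tsum fun i => h i s t c h1 h2

end EN

end HexObs
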