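import Pool.Agent.EN.EmoMass
import Pool.Agent.EN.EmoNum
import Pool.Agent.EN.FactsX

/-!
EN (every number of letters): **the modulus at exactly n letters**.
-/

set_option autoImplicit false

namespace HexObs

namespace EN

open Finset TS SDN NTW NTA

open scoped ENNReal

lemma lvl_lip2 (dir : Bool) (t : List Bool) {i j : ℕ} (hij : i ≤ j) :
    |lvl dir (vx oo up t j) - lvl dir (vx oo up t i)| ≤ 2 * ((j : ℤ) - i) := by
  induction j, hij using Nat.le_induction with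
  | base => simp
  | succ j hij ih =>
    rw [vx_succ, lvl_add]
    have h1 := abs_lvl_dirs dir _ (dx_dirs t j)
    rw [abs_le] at h1 ih ⊢
    push_cast
    constructor <;> linarith [h1.1, h1.2, ih.1, ih.2]

lemma m_pow {m : ℕ → ℝ} {C : ℝ} (hC : 1 ≤ C) (h : ∀ k, m (k + 1) ≤ C * m k) (k j : ℕ) : m (k + j) ≤ C ^ j * m k := by
  induction j with
  | zero => simp
  | succ j ih =>
    calc m (k + (j + 1)) ≤ C * m (k + j) := h (k + j)
      _ ≤ C * (C ^ j * m k) := by gcongr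
      _ = C ^ (j + 1) * m k := by rw [pow_succ']; ring

lemma m_mono {m : ℕ → ℝ} (hm : MLow m) {k k' : ℕ} (h : k ≤ k') : m k ≤ m k' := by
  have h1 := hm.low k (k' - k)
  rw [show k + (k' - k) = k' by omega] at h1
  have h2 : (1 : ℝ) ≤ (2 : ℝ) ^ (5 / 4 * ((k' - k : ℕ) : ℝ)) := Real.one_le_rpow (by norm_num) (by positivity)
  have := hm.pos k
  nlinarith

lemma m_large {m : ℕ → ℝ} (hm : MLow m) (y : ℝ) : ∃ b0 : ℕ, ∀ b, b0 ≤ b → y ≤ m b := by
  have hm0 := hm.pos 0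
  obtain ⟨q, hq⟩ := pow_unbounded_of_one_lt (y / m 0) (show (1 : ℝ) < 2 by norm_num)
  refine ⟨q, fun b hb => ?_⟩
  have h1 := hm.low 0 b
  rw [zero_add] at h1
  have h2 : (2 : ℝ) ^ b ≤ (2 : ℝ) ^ (5 / 4 * (b : ℝ)) := by
    rw [← Real.rpow_natCast]
    exact Real.rpow_le_rpow_of_exponent_le (by norm_num) (by
      have : (0 : ℝ) ≤ b := Nat.cast_nonneg _
      linarith)
  have h3 : (2 : ℝ) ^ q ≤ 2 ^ b := pow_le_pow_right₀ (by norm_num) hb
  have h4 : y / m 0 ≤ (2 : ℝ) ^ (5 / 4 * (b : ℝ)) := by linarith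
  rw [div_le_iff₀ hm0] at h4
  linarith

lemma gf_three {S : Set (List Bool)} {F : Fin 3 → Set (List Bool)} {c : ℝ≥0∞} (hS : ∀ t ∈ S, ∃ d, t ∈ F d)
    (hF : ∀ d, gf (F d) ≤ c) : gf S ≤ 3 * c := by
  have h1 : S ⊆ (F 0 ∪ F 1) ∪ F 2 := by
    intro t ht
    obtain ⟨d, hd⟩ := hS t ht
    have h3 : ∀ e : Fin 3, e = 0 ∨ e = 1 ∨ e = 2 := by decide
    rcases h3 d with rfl | rfl | rfl
    · exact Or.inl (Or.inl hd)
    · exact Or.inl (Or.inr hd)
    · exact Or.inr hd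
  refine (gf_mono h1).trans ((gf_union_le _ _).trans ((add_le_add ((gf_union_le _ _).trans (add_le_add (hF 0) (hF 1)))
    (hF 2)).trans (le_of_eq ?_)))
  ring

/-- in two directions at least -/
lemma disp_two {dir : Bool} {v w : Pt} {R : ℤ} (h : 2 * R ≤ |lvl dir v - lvl dir w|) (hR : 0 ≤ R) :
    ∃ p q : Fin 3, p ≠ q ∧ R ≤ |lv3 p v - lv3 p w| ∧ R ≤ |lv3 q v - lv3 q w| := by
  cases dir
  · obtain ⟨q, hq, h1⟩ := lv3_two_large (d := 0) (v := v) (w := w) (R := R) h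
    exact ⟨0, q, fun h => hq h.symm, by
      have : 2 * R ≤ |lv3 0 v - lv3 0 w| := h
      omega, h1⟩
  · obtain ⟨q, hq, h1⟩ := lv3_two_large (d := 1) (v := v) (w := w) (R := R) h
    exact ⟨1, q, fun h => hq h.symm, by
      have : 2 * R ≤ |lv3 1 v - lv3 1 w| := h
      omega, h1⟩

/-- **the modulus at exactly n letters** -/
theorem emow_of {m : ℕ → ℝ} {J0 : ℕ} (hm : MLow m) (hd : MUp m) (hE : EXT m) (hS : ShortM m) (hM : MarkX m J0) :
    EMOw m := by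
  obtain ⟨Cg, hCg, hup⟩ := hd
  obtain ⟨M, hMdef⟩ : ∃ M, M = 3 * (J0 + 2) + 1 := ⟨_, rfl⟩
  obtain ⟨D, s0, k1, hD, hdis⟩ := d3_mass (M := M) hm.pos hM hS (by omega)
  obtain ⟨D', k2, hD', htr⟩ := n3_mass (M := M) hm.pos hM (by omega)
  obtain ⟨D2, hD2, hnu⟩ := nu_up hm
  have hCg0 : 0 < Cg := by linarith
  have hD0 : 0 < D := by linarith
  have hD'0 : 0 < D' := by linarith
  have hD20 : 0 < D2 := by linarith
  -- the conversion of the masses
  have conv : ∀ (k i kc : ℕ) (y : ℝ), 0 ≤ y → kc ≤ k + i →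
      ENNReal.ofReal (y / m kc * Ub (k + i)) * Xb (k + i) ^ 2 ≤ ENNReal.ofReal (y * Cg ^ (k + i - kc) * D2 ^ i) * nuX m k := by
    intro k i kc y hy hk
    have hmk := hm.pos kc
    have hmK := hm.pos (k + i)
    have hU := Ub_pos (k + i)
    have h1 : m (k + i) ≤ Cg ^ (k + i - kc) * m kc := by
      have := m_pow hCg hup kc (k + i - kc)
      rwa [show kc + (k + i - kc) = k + i by omega] at this
    calc ENNReal.ofReal (y / m kc * Ub (k + i)) * Xb (k + i) ^ 2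
        ≤ ENNReal.ofReal (y * Cg ^ (k + i - kc) * (Ub (k + i) / m (k + i))) * Xb (k + i) ^ 2 := by
          refine mul_le_mul_left (ENNReal.ofReal_le_ofReal ?_) _
          rw [div_mul_eq_mul_div, ← mul_div_assoc]
          rw [div_le_div_iff₀ hmk hmK]
          calc y * Ub (k + i) * m (k + i) ≤ y * Ub (k + i) * (Cg ^ (k + i - kc) * m kc) := by gcongr
            _ = _ := by ring
      _ = ENNReal.ofReal (y * Cg ^ (k + i - kc)) * (ENNReal.ofReal (Ub (k + i) / m (k + i)) * Xb (k + i) ^ 2) := by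
          rw [ENNReal.ofReal_mul (by positivity), mul_assoc]
      _ ≤ ENNReal.ofReal (y * Cg ^ (k + i - kc)) * (ENNReal.ofReal (D2 ^ i) * nuX m k) := mul_le_mul_right (hnu k i) _
      _ = _ := by
          rw [← mul_assoc, ← ENNReal.ofReal_mul (by positivity)]
  refine ⟨D * Cg, one_le_mul_of_one_le_of_one_le hD hCg, fun Q i η hη => ?_⟩
  obtain ⟨A, hA, hdis⟩ := hdis (Q + 1)
  have hA0 : 0 < A := by linarith
  obtain ⟨J1, hJ1, k3, hfew⟩ := few_mass hm hE (partOf M) i 7 hη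
  -- the numbers
  obtain ⟨e, he⟩ : ∃ e : ℕ, Cg ≤ (2 : ℝ) ^ e := by
    obtain ⟨q, hq⟩ := pow_unbounded_of_one_lt Cg (show (1 : ℝ) < 2 by norm_num)
    exact ⟨q, hq.le⟩
  obtain ⟨a, ha⟩ : ∃ a : ℕ, m 0 ≤ (2 : ℝ) ^ a := by
    obtain ⟨q, hq⟩ := pow_unbounded_of_one_lt (m 0) (show (1 : ℝ) < 2 by norm_num)
    exact ⟨q, hq.le⟩
  obtain ⟨k4, hk4⟩ := m_large hm 4
  obtain ⟨kb, hkb⟩ : ∃ kb, kb = k1 + k4 + 1 := ⟨_, rfl⟩
  obtain ⟨s1, hs1⟩ : ∃ s1, s1 = s0 + 5 := ⟨_, rfl⟩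
  obtain ⟨E, hEdef⟩ : ∃ E, E = D * Cg ^ (Q + 2) := ⟨_, rfl⟩
  have hE1 : 1 ≤ E := by rw [hEdef]; exact one_le_mul_of_one_le_of_one_le hD (one_le_pow₀ hCg)
  obtain ⟨r1, hr1⟩ := small_j hE1 Q s1 (ε := 1) one_pos
  obtain ⟨r2, hr2⟩ := small_j (show (1 : ℝ) ≤ 2 ^ (e + 1) from one_le_pow₀ (by norm_num)) Q s1
    (ε := (1 / 2) ^ (1 + a + (e + 1) * (11 + kb))) (by positivity)
  obtain ⟨r3, hr3⟩ := small_j hCg Q s1 (ε := 1 / (2 * Cg ^ 11)) (by positivity)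
  obtain ⟨r0, hr0⟩ : ∃ r0, r0 = r1 + r2 + r3 := ⟨_, rfl⟩
  obtain ⟨A1, hA1⟩ : ∃ A1, A1 = 3 * D2 ^ i * D ^ (i + 12) * Cg ^ (i + 11) * (2 * A * (2 * Cg ^ 11) ^ (Q + 1) + 1) := ⟨_, rfl⟩
  obtain ⟨A2, hA2⟩ : ∃ A2, A2 = 3 * D' ^ (i + J1 + 7) * Cg ^ (i + J1 + 6) * D2 ^ i * (2 ^ r0) ^ Q := ⟨_, rfl⟩
  have hA10 : 0 < A1 := by rw [hA1]; positivity
  have hA20 : 0 < A2 := by rw [hA2]; positivity
  refine ⟨J1, k3 + k2 + J1 + 7, A1 + A2, by positivity, fun k n hk hn _ => ?_⟩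
  obtain ⟨B, hB⟩ : ∃ B, B = {t : List Bool | t.length = n ∧ t ∈ WL (k + i) ∧ ∃ p q : Fin 3, p ≠ q ∧ ¬ A3 p t M (RR (k - J1)) ∧
      ¬ A3 q t M (RR (k - J1))} := ⟨_, rfl⟩
  refine ⟨B, by rw [hB]; exact hfew k n (by omega) hn, fun s dl hs hdl0 hdl1 => ?_⟩
  -- two directions: one with many moves
  have hmany : ∀ t : List Bool, t ∈ WL (k + i) → t.length = n → t ∉ B → ∀ p q : Fin 3, p ≠ q →
      A3 p t M (RR (k - J1)) ∨ A3 q t M (RR (k - J1)) := by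
    intro t h1 h2 h3 p q hpq
    by_contra hc
    push Not at hc
    apply h3
    rw [hB]
    exact ⟨h2, h1, p, q, hpq, hc.1, hc.2⟩
  have hRR : ∀ kc : ℕ, kc + 6 ≤ k - J1 → RR (kc + 5) + 4 ≤ RR (k - J1) := by
    intro kc h
    unfold RR
    have h1 : (2 : ℤ) ^ (kc + 6) ≤ 2 ^ (k - J1) := pow_le_pow_right₀ (by norm_num) h
    have h2 : (2 : ℤ) ^ (kc + 6) = 2 * 2 ^ (kc + 5) := by rw [pow_succ']
    have h3 : (2 : ℤ) ^ (kc + 5) = 32 * 2 ^ kc := by rw [pow_add]; ring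
    have h4 : (1 : ℤ) ≤ 2 ^ kc := one_le_pow₀ (by norm_num)
    omega
  obtain ⟨r, hrl, hru⟩ := dyadic hdl0 hdl1
  rcases Nat.lt_or_ge r r0 with hr | hr
  · -- the trivial case
    obtain ⟨kc, hkc⟩ : ∃ kc, kc = k - J1 - 6 := ⟨_, rfl⟩
    have h1 : ∀ t ∈ {t | t ∈ WL (k + i) ∧ t.length = n ∧ t ∉ B ∧ t ∈ DE s (dl * m s)},
        ∃ d, t ∈ {t | t ∈ SA ∧ t.length = n ∧ t ∈ N3 d (k + i) kc M} := by
      rintro t ⟨a1, a2, a3, -⟩
      rcases hmany t a1 a2 a3 0 1 (by decide) with h | h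
      · exact ⟨0, a1.1, a2, a1, alt_anti (hRR kc (by omega)) h⟩
      · exact ⟨1, a1.1, a2, a1, alt_anti (hRR kc (by omega)) h⟩
    refine (gf_three h1 fun d => htr d (k + i) kc n (by omega) (by omega)).trans ?_
    refine (mul_le_mul_right (conv k i kc _ (by positivity) (by omega)) _).trans ?_
    rw [← mul_assoc, show (3 : ℝ≥0∞) = ENNReal.ofReal 3 by norm_num, ← ENNReal.ofReal_mul (by norm_num)]
    refine mul_le_mul_left (ENNReal.ofReal_le_ofReal ?_) _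
    rw [show k + i + 1 - kc = i + J1 + 7 by omega, show k + i - kc = i + J1 + 6 by omega]
    have h2 : 1 ≤ (2 : ℝ) ^ r0 * dl := by
      have h3 : (1 / 2 : ℝ) ^ r0 ≤ (1 / 2) ^ (r + 1) := pow_le_pow_of_le_one (by norm_num) (by norm_num) (by omega)
      have h4 : (2 : ℝ) ^ r0 * (1 / 2) ^ r0 = 1 := by rw [← mul_pow]; norm_num
      calc (1 : ℝ) = 2 ^ r0 * (1 / 2) ^ r0 := h4.symm
        _ ≤ 2 ^ r0 * dl := by
            have : (1 / 2 : ℝ) ^ r0 ≤ dl := h3.trans hrl.le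
            gcongr
    have h5 : 1 ≤ ((2 : ℝ) ^ r0) ^ Q * dl ^ Q := by
      rw [← mul_pow]
      exact one_le_pow₀ h2
    have h6 : 1 ≤ (D * Cg) ^ (k - s) := one_le_pow₀ (one_le_mul_of_one_le_of_one_le hD hCg)
    calc 3 * (D' ^ (i + J1 + 7) * Cg ^ (i + J1 + 6) * D2 ^ i)
        ≤ 3 * (D' ^ (i + J1 + 7) * Cg ^ (i + J1 + 6) * D2 ^ i) * ((((2 : ℝ) ^ r0) ^ Q * dl ^ Q) * (D * Cg) ^ (k - s)) := by
          refine le_mul_of_one_le_right (by positivity) ?_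
          exact one_le_mul_of_one_le_of_one_le h5 h6
      _ = A2 * dl ^ Q * (D * Cg) ^ (k - s) := by rw [hA2]; ring
      _ ≤ (A1 + A2) * dl ^ Q * (D * Cg) ^ (k - s) := by
          gcongr
          linarith
  · -- the main case
    rcases Set.eq_empty_or_nonempty {t | t ∈ WL (k + i) ∧ t.length = n ∧ t ∉ B ∧ t ∈ DE s (dl * m s)} with h0 | h0
    · rw [h0]
      have : gf (∅ : Set (List Bool)) = 0 := by
        unfold gf
        simp
      rw [this]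
      exact zero_le
    have hms := hm.pos s
    have hn1 : (2 : ℝ) ^ s ≤ 2 * (dl * m s) := by
      obtain ⟨t, -, -, -, dir, x, z, hxz, hz, h1, h2⟩ := h0
      have h3 := h2.trans (lvl_lip2 dir t hxz)
      have h4 : ((2 ^ s : ℤ) : ℝ) ≤ ((2 * ((z : ℤ) - x) : ℤ) : ℝ) := by exact_mod_cast h3
      push_cast at h4
      linarith
    -- r against s
    have hrs : r ≤ 1 + a + (e + 1) * s := by
      have h1 : m s ≤ Cg ^ s * m 0 := by
        have := m_pow hCg hup 0 s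
        rwa [zero_add] at this
      have h2 : (2 : ℝ) ^ r ≤ 2 ^ (1 + a + (e + 1) * s) := by
        have h3 : (2 : ℝ) ^ r * (1 / 2) ^ r = 1 := by rw [← mul_pow]; norm_num
        have h4 : (1 : ℝ) ≤ 2 ^ s := one_le_pow₀ (by norm_num)
        calc (2 : ℝ) ^ r ≤ 2 ^ r * (2 * (dl * m s)) := le_mul_of_one_le_right (by positivity) (by linarith)
          _ ≤ 2 ^ r * (2 * ((1 / 2) ^ r * (Cg ^ s * m 0))) := by gcongr
          _ = 2 * (Cg ^ s * m 0) := by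
              rw [show (2 : ℝ) ^ r * (2 * ((1 / 2) ^ r * (Cg ^ s * m 0))) = (2 ^ r * (1 / 2) ^ r) * (2 * (Cg ^ s * m 0)) by
                ring, h3, one_mul]
          _ ≤ 2 * ((2 ^ e) ^ s * 2 ^ a) := by
              have := hm.pos 0
              gcongr
          _ = 2 ^ (1 + a + e * s) := by
              rw [← pow_mul, pow_add, pow_add, pow_one]
              ring
          _ ≤ 2 ^ (1 + a + (e + 1) * s) := pow_le_pow_right₀ (by norm_num) (by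
              have : e * s ≤ (e + 1) * s := Nat.mul_le_mul_right _ (by omega)
              omega)
      exact (pow_le_pow_iff_right₀ (by norm_num : (1 : ℝ) < 2)).1 h2
    obtain ⟨nn, hnn⟩ : ∃ nn, nn = (Q + 1) * (r + 1) := ⟨_, rfl⟩
    obtain ⟨j1, hj1⟩ : ∃ j1, j1 = s1 + Nat.clog 2 ((Q + 1) * (r + 1)) := ⟨_, rfl⟩
    have b1 := hr1 r (by omega)
    have b2 := hr2 r (by omega)
    have b3 := hr3 r (by omega)
    rw [← hj1] at b1 b2 b3
    have hjs : j1 + 11 + kb ≤ s := by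
      have h1 : (2 : ℝ) ^ ((e + 1) * j1 + (1 + a + (e + 1) * (11 + kb))) ≤ 2 ^ r := by
        rw [pow_add, pow_mul]
        have h3 : (2 : ℝ) ^ r * (1 / 2) ^ r = 1 := by rw [← mul_pow]; norm_num
        have h4 : ∀ x : ℕ, (1 / 2 : ℝ) ^ x * 2 ^ x = 1 := fun x => by rw [← mul_pow]; norm_num
        calc ((2 : ℝ) ^ (e + 1)) ^ j1 * 2 ^ (1 + a + (e + 1) * (11 + kb))
            = 2 ^ r * (((2 ^ (e + 1)) ^ j1 * (1 / 2) ^ r) * 2 ^ (1 + a + (e + 1) * (11 + kb))) := by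
              rw [show (2 : ℝ) ^ r * (((2 ^ (e + 1)) ^ j1 * (1 / 2) ^ r) * 2 ^ (1 + a + (e + 1) * (11 + kb))) =
                (2 ^ r * (1 / 2) ^ r) * ((2 ^ (e + 1)) ^ j1 * 2 ^ (1 + a + (e + 1) * (11 + kb))) by ring, h3, one_mul]
          _ ≤ 2 ^ r * ((1 / 2) ^ (1 + a + (e + 1) * (11 + kb)) * 2 ^ (1 + a + (e + 1) * (11 + kb))) := by gcongr
          _ = 2 ^ r := by rw [h4, mul_one]
      have h2 := (pow_le_pow_iff_right₀ (by norm_num : (1 : ℝ) < 2)).1 h1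
      have h3 : (e + 1) * (j1 + 11 + kb) ≤ (e + 1) * s := by
        have : (e + 1) * (j1 + 11 + kb) = (e + 1) * j1 + (e + 1) * (11 + kb) := by ring
        omega
      exact Nat.le_of_mul_le_mul_left h3 (by omega)
    obtain ⟨kc, hkc⟩ : ∃ kc, kc = s - 11 := ⟨_, rfl⟩
    obtain ⟨kl, hkl⟩ : ∃ kl, kl = kc - j1 := ⟨_, rfl⟩
    have hskc : s = kc + 11 := by omega
    have hkckl : kl + j1 = kc := by omega
    have hmc := hm.pos kc
    have hml := hm.pos kl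
    have hdm : 4 ≤ dl * m s := by
      have h1 : (2 : ℝ) ^ 3 ≤ 2 ^ s := pow_le_pow_right₀ (by norm_num) (by omega)
      norm_num at h1
      linarith
    obtain ⟨x, hx⟩ : ∃ x, x = dl * m s + 2 := ⟨_, rfl⟩
    have hx0 : 0 < x := by rw [hx]; positivity
    have hx2 : x ≤ 2 * (dl * m s) := by rw [hx]; linarith
    have hsl : m s ≤ Cg ^ (11 + j1) * m kl := by
      have := m_pow hCg hup kl (11 + j1)
      rwa [show kl + (11 + j1) = s by omega] at this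
    have hsc : m s ≤ Cg ^ 11 * m kc := by
      have := m_pow hCg hup kc 11
      rwa [← hskc] at this
    have hxl : x ≤ m kl := by
      have h1 := hk4 kl (by omega)
      have h2 : dl * m s ≤ m kl / 2 := by
        calc dl * m s ≤ (1 / 2) ^ r * (Cg ^ (11 + j1) * m kl) := by gcongr
          _ = Cg ^ 11 * (Cg ^ j1 * (1 / 2) ^ r) * m kl := by rw [pow_add]; ring
          _ ≤ Cg ^ 11 * (1 / (2 * Cg ^ 11)) * m kl := by gcongr
          _ = m kl / 2 := by field_simp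
      rw [hx]
      linarith
    have hxc : x ≤ m kc := hxl.trans (m_mono hm (by omega))
    have h1 : ∀ t ∈ {t | t ∈ WL (k + i) ∧ t.length = n ∧ t ∉ B ∧ t ∈ DE s (dl * m s)},
        ∃ d, t ∈ {t | t ∈ SA ∧ t.length = n ∧ t ∈ D3 d (k + i) kc M x} := by
      rintro t ⟨a1, a2, a3, dir, u, z, huz, hz, h3, h4⟩
      obtain ⟨p, q, hpq, h5, h6⟩ := disp_two (R := 2 ^ (s - 1)) (by
        rw [← pow_succ', show s - 1 + 1 = s by omega]
        exact h4) (by positivity)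
      have h7 : 824 * (2 : ℤ) ^ kc + 4 ≤ 2 ^ (s - 1) := by
        rw [show s - 1 = kc + 10 by omega, pow_add]
        have : (1 : ℤ) ≤ 2 ^ kc := one_le_pow₀ (by norm_num)
        omega
      have h8 : ((z : ℝ) - u + 1 < x) := by rw [hx]; linarith
      rcases hmany t a1 a2 a3 p q hpq with h | h
      · exact ⟨p, a1.1, a2, a1, alt_anti (hRR kc (by omega)) h, u, z, huz, hz, h8, h7.trans h5⟩
      · exact ⟨q, a1.1, a2, a1, alt_anti (hRR kc (by omega)) h, u, z, huz, hz, h8, h7.trans h6⟩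
    have hnn2 : nn * 2 ^ s0 ≤ 2 ^ j1 := by
      have h2 : nn ≤ 2 ^ Nat.clog 2 ((Q + 1) * (r + 1)) := by
        rw [hnn]
        exact Nat.le_pow_clog (by norm_num) _
      calc nn * 2 ^ s0 ≤ 2 ^ Nat.clog 2 ((Q + 1) * (r + 1)) * 2 ^ s0 := Nat.mul_le_mul_right _ h2
        _ = 2 ^ (Nat.clog 2 ((Q + 1) * (r + 1)) + s0) := by rw [pow_add]
        _ ≤ 2 ^ j1 := Nat.pow_le_pow_right (by norm_num) (by omega)
    refine (gf_three h1 fun d => hdis d (k + i) kc kl j1 n nn x (by omega) (by omega) hkckl (by omega) (by omega) hnn2 hx0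
      hxl hxc).trans ?_
    -- the sum of the three terms
    obtain ⟨T, hT⟩ : ∃ T, T = Cg ^ (i + 11) * Cg ^ (k - s) * Cg ^ (j1 * (Q + 2)) * dl ^ (Q + 1) *
      (2 * A * (2 * Cg ^ 11) ^ (Q + 1) + 1) := ⟨_, rfl⟩
    have hT0 : 0 ≤ T := by rw [hT]; positivity
    have hmK := hm.pos (k + i)
    have hKc : m (k + i) ≤ Cg ^ (i + 11) * Cg ^ (k - s) * m kc := by
      have := m_pow hCg hup kc (i + 11 + (k - s))
      rw [show kc + (i + 11 + (k - s)) = k + i by omega, pow_add] at this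
      exact this
    have hKl : m (k + i) ≤ Cg ^ (i + 11) * Cg ^ (k - s) * Cg ^ j1 * m kl := by
      have := m_pow hCg hup kl (i + 11 + (k - s) + j1)
      rw [show kl + (i + 11 + (k - s) + j1) = k + i by omega, pow_add, pow_add] at this
      exact this
    have hic : 1 / m kc ≤ Cg ^ (i + 11) * Cg ^ (k - s) / m (k + i) := by
      rw [div_le_div_iff₀ hmc hmK, one_mul]
      exact hKc
    have hil : 1 / m kl ≤ Cg ^ (i + 11) * Cg ^ (k - s) * Cg ^ j1 / m (k + i) := by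
      rw [div_le_div_iff₀ hml hmK, one_mul]
      exact hKl
    have hyc : x / m kc ≤ 2 * Cg ^ 11 * dl := by
      rw [div_le_iff₀ hmc]
      calc x ≤ 2 * (dl * m s) := hx2
        _ ≤ 2 * (dl * (Cg ^ 11 * m kc)) := by gcongr
        _ = _ := by ring
    have hyl : x / m kl ≤ 2 * Cg ^ 11 * Cg ^ j1 * dl := by
      rw [div_le_iff₀ hml]
      calc x ≤ 2 * (dl * m s) := hx2
        _ ≤ 2 * (dl * (Cg ^ (11 + j1) * m kl)) := by gcongr
        _ = _ := by rw [pow_add]; ring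
    have hCj : 1 ≤ Cg ^ (j1 * (Q + 2)) := one_le_pow₀ hCg
    have t1 : A * (x / m kc) ^ (Q + 1) / m kc ≤ Cg ^ (i + 11) * Cg ^ (k - s) * Cg ^ (j1 * (Q + 2)) * dl ^ (Q + 1) *
        (A * (2 * Cg ^ 11) ^ (Q + 1)) / m (k + i) := by
      calc A * (x / m kc) ^ (Q + 1) / m kc = A * (x / m kc) ^ (Q + 1) * (1 / m kc) := by ring
        _ ≤ A * (2 * Cg ^ 11 * dl) ^ (Q + 1) * (Cg ^ (i + 11) * Cg ^ (k - s) / m (k + i)) := by gcongr
        _ ≤ A * (2 * Cg ^ 11 * dl) ^ (Q + 1) * (Cg ^ (i + 11) * Cg ^ (k - s) / m (k + i)) * Cg ^ (j1 * (Q + 2)) :=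
            le_mul_of_one_le_right (by positivity) hCj
        _ = _ := by rw [mul_pow _ dl]; ring
    have t2 : A * (x / m kl) ^ (Q + 1) / m kl ≤ Cg ^ (i + 11) * Cg ^ (k - s) * Cg ^ (j1 * (Q + 2)) * dl ^ (Q + 1) *
        (A * (2 * Cg ^ 11) ^ (Q + 1)) / m (k + i) := by
      calc A * (x / m kl) ^ (Q + 1) / m kl = A * (x / m kl) ^ (Q + 1) * (1 / m kl) := by ring
        _ ≤ A * (2 * Cg ^ 11 * Cg ^ j1 * dl) ^ (Q + 1) * (Cg ^ (i + 11) * Cg ^ (k - s) * Cg ^ j1 / m (k + i)) := by gcongr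
        _ = _ := by
            rw [mul_pow _ dl, mul_pow _ (Cg ^ j1), ← pow_mul Cg j1 (Q + 1),
              show j1 * (Q + 2) = j1 * (Q + 1) + j1 by ring, pow_add Cg (j1 * (Q + 1)) j1]
            ring
    have t3 : 1 / 4 ^ nn / m kc ≤ Cg ^ (i + 11) * Cg ^ (k - s) * Cg ^ (j1 * (Q + 2)) * dl ^ (Q + 1) * 1 / m (k + i) := by
      have h2 : 1 / (4 : ℝ) ^ nn ≤ dl ^ (Q + 1) := by
        have h3 : 1 / (4 : ℝ) ^ nn ≤ ((1 / 2) ^ (r + 1)) ^ (Q + 1) := by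
          rw [← pow_mul, hnn, mul_comm (r + 1) (Q + 1), one_div, ← inv_pow]
          exact pow_le_pow_left₀ (by norm_num) (by norm_num) _
        refine h3.trans (pow_le_pow_left₀ (by positivity) hrl.le _)
      calc 1 / 4 ^ nn / m kc = 1 / 4 ^ nn * (1 / m kc) := by ring
        _ ≤ dl ^ (Q + 1) * (Cg ^ (i + 11) * Cg ^ (k - s) / m (k + i)) := by gcongr
        _ ≤ dl ^ (Q + 1) * (Cg ^ (i + 11) * Cg ^ (k - s) / m (k + i)) * Cg ^ (j1 * (Q + 2)) :=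
            le_mul_of_one_le_right (by positivity) hCj
        _ = _ := by ring
    have hsum : A * (x / m kc) ^ (Q + 1) / m kc + A * (x / m kl) ^ (Q + 1) / m kl + 1 / 4 ^ nn / m kc ≤ T / m (k + i) := by
      refine (add_le_add (add_le_add t1 t2) t3).trans (le_of_eq ?_)
      rw [hT]
      ring
    have hU := Ub_pos (k + i)
    obtain ⟨Y, hY⟩ : ∃ Y, Y = D ^ (k + i + 1 - kl) * T := ⟨_, rfl⟩
    have hY0 : 0 ≤ Y := by rw [hY]; positivity
    have hfin : ENNReal.ofReal (D ^ (k + i + 1 - kl) * (A * (x / m kc) ^ (Q + 1) / m kc + A * (x / m kl) ^ (Q + 1) / m kl +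
        1 / 4 ^ nn / m kc) * Ub (k + i)) * Xb (k + i) ^ 2 ≤ ENNReal.ofReal (Y * D2 ^ i) * nuX m k := by
      refine le_trans (mul_le_mul_left (ENNReal.ofReal_le_ofReal ?_) _) ((conv k i (k + i) Y hY0 le_rfl).trans (le_of_eq ?_))
      · calc D ^ (k + i + 1 - kl) * (A * (x / m kc) ^ (Q + 1) / m kc + A * (x / m kl) ^ (Q + 1) / m kl +
              1 / 4 ^ nn / m kc) * Ub (k + i) ≤ D ^ (k + i + 1 - kl) * (T / m (k + i)) * Ub (k + i) := by gcongr
          _ = Y / m (k + i) * Ub (k + i) := by rw [hY]; ring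
      · rw [Nat.sub_self, pow_zero, mul_one]
    refine (mul_le_mul_right hfin _).trans ?_
    rw [← mul_assoc, show (3 : ℝ≥0∞) = ENNReal.ofReal 3 by norm_num, ← ENNReal.ofReal_mul (by norm_num)]
    refine mul_le_mul_left (ENNReal.ofReal_le_ofReal ?_) _
    have hEj : E ^ j1 * dl ≤ 1 := by
      calc E ^ j1 * dl ≤ E ^ j1 * (1 / 2) ^ r := by gcongr
        _ ≤ 1 := b1
    have hpk : D ^ (k + i + 1 - kl) = D ^ (i + 12) * D ^ (k - s) * D ^ j1 := by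
      rw [← pow_add, ← pow_add]
      congr 1
      omega
    calc 3 * (Y * D2 ^ i) = 3 * D2 ^ i * D ^ (i + 12) * Cg ^ (i + 11) * (2 * A * (2 * Cg ^ 11) ^ (Q + 1) + 1) *
          (D * Cg) ^ (k - s) * ((D * Cg ^ (Q + 2)) ^ j1 * dl) * dl ^ Q := by
          rw [hY, hT, hpk, mul_pow D Cg, mul_pow D (Cg ^ (Q + 2)), ← pow_mul Cg (Q + 2) j1, mul_comm (Q + 2) j1,
            pow_succ dl Q]
          ring
      _ = A1 * (D * Cg) ^ (k - s) * (E ^ j1 * dl) * dl ^ Q := by rw [hA1, hEdef]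
      _ ≤ A1 * (D * Cg) ^ (k - s) * 1 * dl ^ Q := by gcongr
      _ = A1 * dl ^ Q * (D * Cg) ^ (k - s) := by ring
      _ ≤ (A1 + A2) * dl ^ Q * (D * Cg) ^ (k - s) := by
          gcongr
          linarith

end EN

end HexObs
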