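import Pool.Agent.EN.EmoDefs
import Pool.Agent.NTS.ExDefs
import Pool.Agent.NTA.RunX

/-!
EN (every number of letters): few moves in two of the three directions at the scale k - J1: a long stay in a small box.
-/

set_option autoImplicit false

namespace HexObs

namespace EN

open Finset TS SDN NTW NTA

open scoped ENNReal

/-- M moves of size R in the direction number d -/
def A3 (d : Fin 3) (t : List Bool) (M : ℕ) (R : ℤ) : Prop := Alt (fun i => lv3 d (vx oo up t i)) t.length M R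

/-- few moves give a partition into few cells without backtracks -/
def PartOf (M N : ℕ) : Prop := ∀ (t : List Bool) (b : ℕ) (d : Fin 3), t ∈ SA → 1 ≤ b → ¬ A3 d t M (RR b) →
  Part (fun i => lv3 d (vx oo up t i)) 0 t.length (RR b) N N 0

lemma Bx_WL {K : ℕ} {t : List Bool} (ht : t ∈ WL K) : Bx (K + 2) t 0 t.length := by
  refine ⟨Nat.zero_le _, le_rfl, fun dir i j _ hi _ hj => ?_⟩
  have h1 := ht.2 i hi dir
  have h2 := ht.2 j hj dir
  unfold row at h1 h2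
  rw [abs_le] at h1 h2
  have hp : (1 : ℤ) ≤ 2 ^ K := by exact_mod_cast Nat.one_le_two_pow
  rw [pow_add]
  omega

/-- few moves in two directions: a long stay in a small box -/
lemma few_stay {M N : ℕ} (hP : PartOf M N) {K b : ℕ} {t : List Bool} {S1 : ℝ} (ht : t ∈ WL K) (hb : 5 ≤ b) (hbK : b ≤ K)
    {p q : Fin 3} (hpq : p ≠ q) (hp : ¬ A3 p t M (RR b)) (hq : ¬ A3 q t M (RR b)) (hS1 : 0 ≤ S1)
    (hl : (N : ℝ) ^ 2 * (2 ^ (K - b + 8) * (S1 + 1)) < t.length) :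
    ∃ x z, Bx (b + 2) t x z ∧ S1 < (z : ℝ) - x := by
  by_contra hc
  push Not at hc
  have hbx := Bx_WL ht
  have hB : ∀ (d : Fin 3) i j, 0 ≤ i → i ≤ t.length → 0 ≤ j → j ≤ t.length →
      lv3 d (vx oo up t i) - lv3 d (vx oo up t j) ≤ 3 * 2 ^ (b + (K - b + 3)) := by
    intro d i j hi hi' hj hj'
    have := Bx_three hbx d hi hi' hj hj'
    rwa [show K + 2 + 1 = b + (K - b + 3) by omega] at this
  have h := step_two (b := b) hb (Nat.zero_le _) (hB p) (hB q) le_rfl hS1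
    (fun x' y' _ hxy' hy' h1 h2 => hc x' y' (Bx_of_two hpq (by omega) hxy' hy' h1 h2))
    (hP t b p ht.1 (by omega) hp) (hP t b q ht.1 (by omega) hq)
  rw [show K - b + 3 + 5 = K - b + 8 by ring] at h
  simp only [Nat.cast_zero, sub_zero, mul_zero, zero_add] at h
  linarith

lemma Xb_mono {k k' : ℕ} (h : k ≤ k') : Xb k ≤ Xb k' := by
  unfold Xb
  exact iSup_le fun i => le_iSup (fun i : Fin (k' + 1) => BAR.HH (2 ^ i.1) / ENNReal.ofReal (UU (2 ^ i.1)))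
    ⟨i.1, by omega⟩

/-- the order of the mass is doubling -/
lemma nu_up {m : ℕ → ℝ} (hm : MLow m) : ∃ D : ℝ, 1 ≤ D ∧ ∀ k i : ℕ,
    ENNReal.ofReal (Ub (k + i) / m (k + i)) * Xb (k + i) ^ 2 ≤ ENNReal.ofReal (D ^ i) * nuX m k := by
  obtain ⟨D, hD, hX⟩ := Xb_pow
  refine ⟨2 * D ^ 2, ?_, fun k i => ?_⟩
  · have : (1 : ℝ) ≤ D ^ 2 := one_le_pow₀ hD
    linarith
  have hmk := hm.pos k
  have hmk' := hm.pos (k + i)
  have hU := Ub_pos k
  have h1 : m k ≤ m (k + i) := by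
    have h := hm.low k i
    have h2 : (1 : ℝ) ≤ (2 : ℝ) ^ (5 / 4 * (i : ℝ)) := Real.one_le_rpow (by norm_num) (by positivity)
    nlinarith
  have h2 : Ub (k + i) ≤ 2 ^ i * Ub k := UU_ratio_up k i
  calc ENNReal.ofReal (Ub (k + i) / m (k + i)) * Xb (k + i) ^ 2
      ≤ ENNReal.ofReal (2 ^ i * Ub k / m k) * (ENNReal.ofReal (D ^ i) * Xb k) ^ 2 := by
        refine mul_le_mul' (ENNReal.ofReal_le_ofReal ?_) (pow_le_pow_left' (hX k i) 2)
        exact div_le_div₀ (by positivity) h2 hmk h1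
    _ = ENNReal.ofReal ((2 * D ^ 2) ^ i) * nuX m k := by
        unfold nuX
        rw [mul_pow, ← ENNReal.ofReal_pow (by positivity), ← mul_assoc, ← mul_assoc, ← ENNReal.ofReal_mul (by positivity),
          ← ENNReal.ofReal_mul (by positivity)]
        congr 2
        rw [mul_pow, ← pow_mul, ← pow_mul, mul_comm 2 i]
        ring

/-- **few moves in two directions, exactly n letters** -/
theorem few_mass {m : ℕ → ℝ} (hm : MLow m) (hE : EXT m) {M N : ℕ} (hP : PartOf M N) (i Jm : ℕ) {η : ℝ} (hη : 0 < η) :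
    ∃ J1 : ℕ, Jm ≤ J1 ∧ ∃ k0 : ℕ, ∀ k n : ℕ, k0 ≤ k → m k ≤ n →
    gf {t | t.length = n ∧ t ∈ WL (k + i) ∧ ∃ p q : Fin 3, p ≠ q ∧ ¬ A3 p t M (RR (k - J1)) ∧
      ¬ A3 q t M (RR (k - J1))} ≤ ENNReal.ofReal η * nuX m k := by
  obtain ⟨C, hC, hE⟩ := hE
  obtain ⟨D, hD, hnu⟩ := nu_up hm
  -- the power
  obtain ⟨Q, hQ⟩ : ∃ Q : ℕ, 2 * C ^ 4 ≤ (2 : ℝ) ^ Q := by
    obtain ⟨q, hq⟩ := pow_unbounded_of_one_lt (2 * C ^ 4) (show (1 : ℝ) < 2 by norm_num)
    exact ⟨q, hq.le⟩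
  obtain ⟨A, hA, hE⟩ := hE Q
  have hC0 : 0 < C := by linarith
  have hA0 : 0 < A := by linarith
  have hD0 : 0 < D := by linarith
  -- lam = 2 ^ j / L
  obtain ⟨L, hL⟩ : ∃ L : ℝ, L = ((N : ℝ) ^ 2 + 1) * 2 ^ (i + 10) := ⟨_, rfl⟩
  have hL0 : 0 < L := by rw [hL]; positivity
  obtain ⟨j0, hj0⟩ : ∃ j0 : ℕ, A * L ^ Q * C ^ i * D ^ i * (1 / 2) ^ j0 ≤ η := by
    obtain ⟨n, hn⟩ := exists_pow_lt_of_lt_one (show 0 < η / (A * L ^ Q * C ^ i * D ^ i) by positivity)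
      (show (1 / 2 : ℝ) < 1 by norm_num)
    refine ⟨n, ?_⟩
    calc A * L ^ Q * C ^ i * D ^ i * (1 / 2) ^ n
        ≤ A * L ^ Q * C ^ i * D ^ i * (η / (A * L ^ Q * C ^ i * D ^ i)) := by gcongr
      _ = η := by field_simp
  obtain ⟨j1, hj1⟩ : ∃ j1 : ℕ, L ≤ (2 : ℝ) ^ j1 := by
    obtain ⟨q, hq⟩ := pow_unbounded_of_one_lt L (show (1 : ℝ) < 2 by norm_num)
    exact ⟨q, hq.le⟩
  obtain ⟨j, hj⟩ : ∃ j, j = j0 + j1 + Jm := ⟨_, rfl⟩
  -- m b is at least 1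
  obtain ⟨b0, hb0⟩ : ∃ b0 : ℕ, ∀ b, b0 ≤ b → 1 ≤ m b := by
    have hm0 := hm.pos 0
    obtain ⟨q, hq⟩ := pow_unbounded_of_one_lt (1 / m 0) (show (1 : ℝ) < 2 by norm_num)
    refine ⟨q, fun b hb => ?_⟩
    have h1 := hm.low 0 b
    rw [zero_add] at h1
    have h2 : (2 : ℝ) ^ b ≤ (2 : ℝ) ^ (5 / 4 * (b : ℝ)) := by
      rw [← Real.rpow_natCast]
      exact Real.rpow_le_rpow_of_exponent_le (by norm_num) (by
        have : (0 : ℝ) ≤ b := Nat.cast_nonneg _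
        linarith)
    have h3 : (2 : ℝ) ^ q ≤ 2 ^ b := pow_le_pow_right₀ (by norm_num) hb
    have h4 : 1 / m 0 ≤ (2 : ℝ) ^ (5 / 4 * (b : ℝ)) := by linarith
    rw [div_le_iff₀ hm0] at h4
    linarith
  refine ⟨4 * j, by omega, 4 * j + 5 + b0, fun k n hk hn => ?_⟩
  obtain ⟨b, hb⟩ : ∃ b, b = k - 4 * j := ⟨_, rfl⟩
  rw [← hb]
  have hkb : k = b + 4 * j := by omega
  have hmb := hb0 b (by omega)
  obtain ⟨lam, hlam⟩ : ∃ lam : ℝ, lam = 2 ^ j / L := ⟨_, rfl⟩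
  have hlam1 : 1 ≤ lam := by
    rw [hlam, le_div_iff₀ hL0, one_mul]
    exact hj1.trans (pow_le_pow_right₀ (by norm_num) (by omega))
  have hlam0 : 0 < lam := by linarith
  have hmk : (2 : ℝ) ^ (5 * j) * m b ≤ m k := by
    have h1 := hm.low b (4 * j)
    rw [← hkb] at h1
    have h2 : (5 / 4 * ((4 * j : ℕ) : ℝ)) = ((5 * j : ℕ) : ℝ) := by
      push_cast
      ring
    rw [h2, Real.rpow_natCast] at h1
    exact h1
  have hsub : {t | t.length = n ∧ t ∈ WL (k + i) ∧ ∃ p q : Fin 3, p ≠ q ∧ ¬ A3 p t M (RR b) ∧ ¬ A3 q t M (RR b)} ⊆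
      {t | t.length = n ∧ t ∈ WL (k + i) ∧ ∃ x z, Bx (b + 2) t x z ∧ lam * m b ≤ (z : ℝ) - x} := by
    rintro t ⟨h1, h2, p, q, hpq, hp, hq⟩
    refine ⟨h1, h2, ?_⟩
    obtain ⟨x, z, h3, h4⟩ := few_stay hP (K := k + i) (b := b) (S1 := lam * m b) h2 (by omega) (by omega) hpq hp hq
      (by positivity) (by
        rw [h1]
        refine lt_of_lt_of_le ?_ hn
        refine lt_of_lt_of_le ?_ hmk
        have e1 : k + i - b + 8 = 4 * j + (i + 8) := by omega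
        rw [e1]
        have e2 : (1 : ℝ) ≤ lam * m b := one_le_mul_of_one_le_of_one_le hlam1 hmb
        have e3 : lam * L = 2 ^ j := by
          rw [hlam]
          field_simp
        calc (N : ℝ) ^ 2 * (2 ^ (4 * j + (i + 8)) * (lam * m b + 1))
            ≤ (N : ℝ) ^ 2 * (2 ^ (4 * j + (i + 8)) * (2 * (lam * m b))) := by
              gcongr
              linarith
          _ < ((N : ℝ) ^ 2 + 1) * (2 ^ (4 * j + (i + 8)) * (2 * (lam * m b))) := by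
              apply mul_lt_mul_of_pos_right (by linarith)
              positivity
          _ ≤ 2 ^ (4 * j) * (lam * L) * m b := by
              rw [hL, pow_add, show i + 10 = (i + 8) + 2 by ring, pow_add 2 (i + 8) 2]
              have : (0 : ℝ) ≤ ((N : ℝ) ^ 2 + 1) * 2 ^ (4 * j) * 2 ^ (i + 8) * (lam * m b) := by positivity
              nlinarith
          _ = 2 ^ (5 * j) * m b := by
              rw [e3, ← pow_add]
              congr 2
              ring)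
    exact ⟨x, z, h3, h4.le⟩
  refine (gf_mono hsub).trans ((hE n (k + i) b lam (by omega) hlam1).trans ?_)
  refine (mul_le_mul_right (hnu k i) _).trans ?_
  rw [← mul_assoc, ← ENNReal.ofReal_mul (by positivity)]
  refine mul_le_mul_left (ENNReal.ofReal_le_ofReal ?_) _
  have e1 : k + i - b = 4 * j + i := by omega
  rw [e1, hlam, div_pow, pow_add, pow_mul C 4 j]
  have e2 : (C ^ 4) ^ j ≤ (2 ^ Q) ^ j * (1 / 2) ^ j := by
    rw [← mul_pow]
    exact pow_le_pow_left₀ (by positivity) (by linarith) j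
  calc A / ((2 ^ j) ^ Q / L ^ Q) * ((C ^ 4) ^ j * C ^ i) * D ^ i
      ≤ A / ((2 ^ j) ^ Q / L ^ Q) * (((2 ^ Q) ^ j * (1 / 2) ^ j) * C ^ i) * D ^ i := by gcongr
    _ = A * L ^ Q * C ^ i * D ^ i * (1 / 2) ^ j := by
        rw [← pow_mul, ← pow_mul, mul_comm Q j]
        field_simp
    _ ≤ A * L ^ Q * C ^ i * D ^ i * (1 / 2) ^ j0 := by
        have : (1 / 2 : ℝ) ^ j ≤ (1 / 2) ^ j0 := pow_le_pow_of_le_one (by norm_num) (by norm_num) (by omega)
        gcongr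
    _ ≤ η := hj0

end EN

end HexObs
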