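import Pool.Agent.EN.EmoDn
import Pool.Agent.EN.EmoFew

/-!
EN (every number of letters): the displacement event in three directions.
-/

set_option autoImplicit false

namespace HexObs

namespace EN

open Finset TS SDN NTW NTA

open scoped ENNReal

/-- the number of moves is at most linear in the number of leaves -/
def AltCount (c : ℕ) : Prop := ∀ (b m u M : ℕ) (t : List Bool) (e : ℕ → ℕ), 1 ≤ b → Fd b t m u e →
  Alt (lev t) t.length M (RR b) → M ≤ c * (m + 1)

lemma alt_anti {f : ℕ → ℤ} {N M : ℕ} {R R' : ℤ} (h : R' ≤ R) (hA : Alt f N M R) : Alt f N M R' := by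
  obtain ⟨τ, s, hs, h1, h2, h3⟩ := hA
  exact ⟨τ, s, hs, h1, h2, fun j hj => h.trans (h3 j hj)⟩

/-- the moves of the part behind a vertical step, in its own frame -/
lemma alt_drop3 {f g : ℕ → ℤ} {q N M : ℕ} {R sg : ℤ} (hq : q ≤ N) (hsg : sg = 1 ∨ sg = -1)
    (h1 : ∀ i, i ≤ q → |f i - f q| ≤ 2) (h2 : ∀ i, q + i ≤ N → f (q + i) - f q = sg * g i) (hA : Alt f N M R) :
    Alt g (N - q) M (R - 4) := by
  obtain ⟨τ, s, hs, a1, a2, a3⟩ := hA
  have hss : s * sg = 1 ∨ s * sg = -1 := by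
    rcases hs with rfl | rfl <;> rcases hsg with rfl | rfl <;> simp
  have key : ∀ j, j ≤ M → |f (τ j) - f q - sg * g (τ j - q)| ≤ 2 := by
    intro j hj
    rcases Nat.lt_or_ge (τ j) q with h | h
    · have h3 := h2 0 (by omega)
      rw [add_zero, sub_self] at h3
      rw [show τ j - q = 0 by omega, ← h3, sub_zero]
      exact h1 _ h.le
    · have h3 := h2 (τ j - q) (by have := a2 j hj; omega)
      rw [show q + (τ j - q) = τ j by omega] at h3
      rw [← h3, sub_self, abs_zero]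
      norm_num
  refine ⟨fun j => τ j - q, s * sg, hss, fun j hj => Nat.sub_le_sub_right (a1 j hj) q,
    fun j hj => Nat.sub_le_sub_right (a2 j hj) q, fun j hj => ?_⟩
  have h3 := a3 j hj
  have k1 := key j (by omega)
  have k2 := key (j + 1) (by omega)
  rw [abs_le] at k1 k2
  show R - 4 ≤ s * sg * (-1) ^ j * (g (τ (j + 1) - q) - g (τ j - q))
  have h4 : s * sg * (-1) ^ j * (g (τ (j + 1) - q) - g (τ j - q)) =
      s * (-1) ^ j * (sg * g (τ (j + 1) - q) - sg * g (τ j - q)) := by ring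
  rw [h4]
  have h5 : s * (-1) ^ j = 1 ∨ s * (-1) ^ j = -1 := by
    rcases hs with rfl | rfl <;> rcases neg_one_pow_eq_or ℤ j with h | h <;> rw [h] <;> simp
  rcases h5 with h5 | h5 <;> rw [h5] at h3 ⊢ <;> linarith [k1.1, k1.2, k2.1, k2.2]

/-- moves in the direction number d, the walk in the box -/
lemma many_of_alt {c J0 M : ℕ} (hc : AltCount c) (hM : c * (J0 + 2) < M) {kc : ℕ} {s : List Bool} {R : ℤ}
    (hR : RR (kc + 5) ≤ R) (hA : Alt (lev s) s.length M R) :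
    ∀ (b m u : ℕ) (e : ℕ → ℕ), 1 ≤ b → b ≤ kc + 5 → Fd b s m u e → J0 + 2 ≤ m := by
  intro b m u e hb hbk h
  have h1 : RR b ≤ RR (kc + 5) := by
    unfold RR
    have : (2 : ℤ) ^ b ≤ 2 ^ (kc + 5) := pow_le_pow_right₀ (by norm_num) hbk
    omega
  have h2 := hc b m u M s e hb h (alt_anti (h1.trans hR) hA)
  by_contra hcon
  have h3 : c * (m + 1) ≤ c * (J0 + 2) := Nat.mul_le_mul_left _ (by omega)
  omega

/-- the displacement event in the direction number d, with many moves -/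
def D3 (d : Fin 3) (K kc M : ℕ) (x : ℝ) : Set (List Bool) :=
  {t | t ∈ WL K ∧ A3 d t M (RR (kc + 5) + 4) ∧ ∃ i j : ℕ, i ≤ j ∧ j ≤ t.length ∧ ((j : ℝ) - i + 1 < x) ∧
    824 * (2 : ℤ) ^ kc + 4 ≤ |lv3 d (vx oo up t j) - lv3 d (vx oo up t i)|}

/-- walks with many moves in the direction number d -/
def N3 (d : Fin 3) (K kc M : ℕ) : Set (List Bool) := {t | t ∈ WL K ∧ A3 d t M (RR (kc + 5) + 4)}

lemma d3_drop {c J0 M : ℕ} (hc : AltCount c) (hM : c * (J0 + 2) < M) {d : Fin 3} {K kc q : ℕ} {x : ℝ} {t : List Bool}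
    {sg : ℤ} (hK : kc ≤ K + 5) (hq : q ≤ t.length) (hsg : sg = 1 ∨ sg = -1)
    (h1 : ∀ i, i ≤ q → |lv3 d (vx oo up t i) - lv3 d (vx oo up t q)| ≤ 2)
    (h2 : ∀ i, q + i ≤ t.length →
        lv3 d (vx oo up t (q + i)) - lv3 d (vx oo up t q) = sg * lvl false (vx oo up ((wd d t).drop q) i))
    (h3 : ∀ K, t ∈ WL K → (wd d t).drop q ∈ WL (K + 5)) (ht : t ∈ D3 d K kc M x) :
    (wd d t).drop q ∈ DN kc (K + 5 - kc) J0 x := by
  obtain ⟨hw, hA, i, j, hij, hj, hlen, hd⟩ := ht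
  obtain ⟨s, hs⟩ : ∃ s, s = (wd d t).drop q := ⟨_, rfl⟩
  have hsl : s.length = t.length - q := by rw [hs, List.length_drop, wd_length]
  rw [← hs] at h2 ⊢
  have h2' : ∀ i, q + i ≤ t.length → lv3 d (vx oo up t (q + i)) - lv3 d (vx oo up t q) = sg * lev s i := h2
  have hA' : Alt (lev s) s.length M (RR (kc + 5)) := by
    have := alt_drop3 (g := lev s) hq hsg h1 h2' hA
    rw [hsl]
    rwa [show RR (kc + 5) + 4 - 4 = RR (kc + 5) by ring] at this
  refine ⟨?_, many_of_alt hc hM le_rfl hA', ?_⟩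
  · rw [show kc + (K + 5 - kc) = K + 5 by omega, hs]
    exact h3 K hw
  have key : ∀ a, a ≤ t.length → |lv3 d (vx oo up t a) - lv3 d (vx oo up t q) - sg * lev s (a - q)| ≤ 2 := by
    intro a ha
    rcases Nat.lt_or_ge a q with h | h
    · have h3 := h2' 0 (by omega)
      rw [add_zero, sub_self] at h3
      rw [show a - q = 0 by omega, ← h3, sub_zero]
      exact h1 _ h.le
    · have h3 := h2' (a - q) (by omega)
      rw [show q + (a - q) = a by omega] at h3
      rw [← h3, sub_self, abs_zero]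
      norm_num
  refine ⟨i - q, j - q, by omega, by omega, ?_, ?_⟩
  · have h4 : (((j - q : ℕ) : ℝ)) - ((i - q : ℕ) : ℝ) ≤ (j : ℝ) - i := by
      have h5 : ((j - q : ℕ) : ℤ) - ((i - q : ℕ) : ℤ) ≤ (j : ℤ) - i := by omega
      exact_mod_cast h5
    linarith
  · have k1 := key i (by omega)
    have k2 := key j hj
    rw [abs_le] at k1 k2
    rcases hsg with rfl | rfl
    · rcases le_abs.1 hd with h5 | h5
      · refine le_abs.2 (Or.inl ?_)
        linarith [k1.1, k1.2, k2.1, k2.2]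
      · refine le_abs.2 (Or.inr ?_)
        linarith [k1.1, k1.2, k2.1, k2.2]
    · rcases le_abs.1 hd with h5 | h5
      · refine le_abs.2 (Or.inr ?_)
        linarith [k1.1, k1.2, k2.1, k2.2]
      · refine le_abs.2 (Or.inl ?_)
        linarith [k1.1, k1.2, k2.1, k2.2]

/-- many moves: a large displacement -/
lemma alt_pos {f : ℕ → ℤ} {N M : ℕ} {R : ℤ} (hM : 1 ≤ M) (hA : Alt f N M R) :
    ∃ i j, i ≤ N ∧ j ≤ N ∧ R ≤ f j - f i := by
  obtain ⟨τ, s, hs, a1, a2, a3⟩ := hA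
  have h := a3 0 (by omega)
  have e0 := a2 0 (by omega)
  have e1 := a2 1 (by omega)
  rw [pow_zero, mul_one] at h
  rcases hs with rfl | rfl
  · exact ⟨τ 0, τ 1, e0, e1, by simpa using h⟩
  · exact ⟨τ 1, τ 0, e1, e0, by simp at h; linarith⟩

lemma n3_drop {c J0 M : ℕ} (hc : AltCount c) (hM : c * (J0 + 2) < M) {d : Fin 3} {K kc q : ℕ} {t : List Bool}
    {sg : ℤ} (hK : kc ≤ K + 5) (hq : q ≤ t.length) (hsg : sg = 1 ∨ sg = -1)
    (h1 : ∀ i, i ≤ q → |lv3 d (vx oo up t i) - lv3 d (vx oo up t q)| ≤ 2)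
    (h2 : ∀ i, q + i ≤ t.length →
        lv3 d (vx oo up t (q + i)) - lv3 d (vx oo up t q) = sg * lvl false (vx oo up ((wd d t).drop q) i))
    (h3 : ∀ K, t ∈ WL K → (wd d t).drop q ∈ WL (K + 5)) (ht : t ∈ N3 d K kc M) :
    (wd d t).drop q ∈ MN kc (K + 5 - kc) J0 := by
  obtain ⟨hw, hA⟩ := ht
  obtain ⟨s, hs⟩ : ∃ s, s = (wd d t).drop q := ⟨_, rfl⟩
  have hsl : s.length = t.length - q := by rw [hs, List.length_drop, wd_length]
  rw [← hs] at h2 ⊢
  have h2' : ∀ i, q + i ≤ t.length → lv3 d (vx oo up t (q + i)) - lv3 d (vx oo up t q) = sg * lev s i := h2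
  have hA' : Alt (lev s) s.length M (RR (kc + 5)) := by
    have := alt_drop3 (g := lev s) hq hsg h1 h2' hA
    rw [hsl]
    rwa [show RR (kc + 5) + 4 - 4 = RR (kc + 5) by ring] at this
  refine ⟨?_, alt_pos (by omega) hA', many_of_alt hc hM le_rfl hA'⟩
  rw [show kc + (K + 5 - kc) = K + 5 by omega, hs]
  exact h3 K hw

end EN

end HexObs
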