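import Pool.Agent.EN.EmoRun

/-!
EN (every number of letters): the mass of the walks with many leaves and a large displacement in a short time, direction
false.
-/

set_option autoImplicit false

namespace HexObs

namespace EN

open Finset TS SDN NTW NTA

open scoped ENNReal

/-- the mass of the walks of the box with many leaves -/
theorem mn_mass {m : ℕ → ℝ} {J0 : ℕ} (hm : ∀ k, 0 < m k) (hM : MarkX m J0) : ∃ (D : ℝ) (k0 : ℕ), 1 ≤ D ∧
    ∀ (kc J n : ℕ), k0 ≤ kc → 6 ≤ J → gf {t | t.length = n ∧ t ∈ MN kc J J0} ≤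
      ENNReal.ofReal (D ^ J / m kc * Ub (kc + J)) * Xb (kc + J) ^ 2 := by
  obtain ⟨D, k0, hD, h⟩ := run_mark hm hM
  obtain ⟨K, hK, hbox⟩ := smD_box
  have hD0 : 0 ≤ D := by linarith
  refine ⟨D * (2 * K), k0, by nlinarith, fun kc J n hk hJ => ?_⟩
  have hmk := hm kc
  have hU := Ub_pos (kc + J)
  have hsub : {t | t.length = n ∧ t ∈ MN kc J J0} ⊆
      {t | t.length = n ∧ t ∈ ER kc J (RS J0 kc J (BrR (2 ^ (kc + 4)) (2 ^ (kc + J + 2))))} := fun t ht => ⟨ht.1, mn_sub ht.2⟩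
  refine (gf_mono hsub).trans ((h kc J n _ (K * 2 ^ J) hk hJ (by positivity) (hbox kc J)).trans ?_)
  refine mul_le_mul_left (ENNReal.ofReal_le_ofReal ?_) _
  have h1 : K * 2 ^ J ≤ (2 * K) ^ J := by
    rw [mul_pow, mul_comm]
    have : K ^ 1 ≤ K ^ J := pow_le_pow_right₀ hK (by omega)
    rw [pow_one] at this
    gcongr
  calc D ^ J * (K * 2 ^ J) / m kc * Ub (kc + J) ≤ D ^ J * (2 * K) ^ J / m kc * Ub (kc + J) := by gcongr
    _ = (D * (2 * K)) ^ J / m kc * Ub (kc + J) := by rw [mul_pow D (2 * K)]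

/-- the mass of the displacement event, direction false -/
theorem dn_mass {m : ℕ → ℝ} {J0 : ℕ} (hm : ∀ k, 0 < m k) (hM : MarkX m J0) (hS : ShortM m) (hG : CleanD DmJ) :
    ∃ (D : ℝ) (s0 k0 : ℕ), 1 ≤ D ∧ ∀ Q : ℕ, ∃ A : ℝ, 1 ≤ A ∧ ∀ (kc k j1 J n nn : ℕ) (x : ℝ), k0 ≤ k → 6 ≤ J →
    k + j1 = kc → 5 ≤ j1 → s0 ≤ j1 → nn * 2 ^ s0 ≤ 2 ^ j1 → 0 < x → x ≤ m k → x ≤ m kc →
    gf {t | t.length = n ∧ t ∈ DN kc J J0 x} ≤
      ENNReal.ofReal (D ^ (J + j1) * (A * (x / m kc) ^ Q / m kc + A * (x / m k) ^ Q / m k + 1 / 4 ^ nn / m kc) *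
        Ub (kc + J)) * Xb (kc + J) ^ 2 := by
  obtain ⟨D, k0, hD, h⟩ := run_mark hm hM
  obtain ⟨K, s, hK, hG⟩ := hG
  have hD0 : 0 < D := by linarith
  have hK0 : 0 < K := by linarith
  refine ⟨D * (512 * K), s, k0, by nlinarith, fun Q => ?_⟩
  obtain ⟨A, hA, hS⟩ := hS Q
  have hA0 : 0 < A := by linarith
  refine ⟨A, hA, fun kc k j1 J n nn x hk hJ hkj hj5 hsj hnn hx hxk hxc => ?_⟩
  have hmk := hm k
  have hmc := hm kc
  have hU := Ub_pos (kc + J)
  have hy0 : 0 < x / m kc := by positivity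
  have hy1 : x / m kc ≤ 1 := by rw [div_le_one hmc]; exact hxc
  have hz0 : 0 < x / m k := by positivity
  have hz1 : x / m k ≤ 1 := by rw [div_le_one hmk]; exact hxk
  -- the three norms
  have n0 : SmD DmJ kc (NTm.SL kc (J + 2) x) (A * 4 ^ (J + 2) * (x / m kc) ^ Q) := by
    have := hS kc (J + 2) (x / m kc) hy0 hy1
    rwa [show x / m kc * m kc = x by field_simp] at this
  have n1 : SmD DmJ k (NTm.SL k (J + j1 + 2) x) (A * 4 ^ (J + j1 + 2) * (x / m k) ^ Q) := by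
    have := hS k (J + j1 + 2) (x / m k) hz0 hz1
    rwa [show x / m k * m k = x by field_simp] at this
  have n2 : SmD DmJ kc (NTm.GU k kc (2 ^ (kc + (J + 2)))) (K * 8 ^ (J + 2) / 4 ^ nn) := by
    refine hG kc (J + 2) nn k (by omega) ?_ (by omega) (by omega)
    calc nn * 2 ^ (k + s) = nn * 2 ^ s * 2 ^ k := by rw [pow_add]; ring
      _ ≤ 2 ^ j1 * 2 ^ k := Nat.mul_le_mul_right _ hnn
      _ = 2 ^ kc := by rw [← pow_add, ← hkj, add_comm]
  have e0 := h kc J n _ _ (by omega) hJ (by positivity) n0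
  have e1 := h k (J + j1) n _ _ (by omega) (by omega) (by positivity) n1
  have e2 := h kc J n _ _ (by omega) hJ (by positivity) n2
  rw [show k + (J + j1) = kc + J by omega] at e1
  have hsub : {t | t.length = n ∧ t ∈ DN kc J J0 x} ⊆
      ({t | t.length = n ∧ t ∈ ER kc J (RS J0 kc J (NTm.SL kc (J + 2) x))} ∪
      {t | t.length = n ∧ t ∈ ER k (J + j1) (RS J0 k (J + j1) (NTm.SL k (J + j1 + 2) x))}) ∪
      {t | t.length = n ∧ t ∈ ER kc J (RS J0 kc J (NTm.GU k kc (2 ^ (kc + (J + 2)))))} := by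
    rintro t ⟨h1, h2⟩
    rcases dn_sub hkj h2 with (h3 | h3) | h3
    · exact Or.inl (Or.inl ⟨h1, h3⟩)
    · exact Or.inl (Or.inr ⟨h1, h3⟩)
    · exact Or.inr ⟨h1, h3⟩
  refine (gf_mono hsub).trans ((gf_union_le _ _).trans ((add_le_add ((gf_union_le _ _).trans (add_le_add e0 e1)) e2).trans ?_))
  rw [← add_mul, ← add_mul, ← ENNReal.ofReal_add (by positivity) (by positivity),
    ← ENNReal.ofReal_add (by positivity) (by positivity)]
  refine mul_le_mul_left (ENNReal.ofReal_le_ofReal ?_) _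
  -- the constants
  have c0 : D ^ J * 4 ^ (J + 2) ≤ (D * (512 * K)) ^ (J + j1) := by
    have h1 : D ^ J ≤ D ^ (J + j1) := pow_le_pow_right₀ hD (by omega)
    have h2 : (4 : ℝ) ^ (J + 2) ≤ (512 * K) ^ (J + j1) := by
      calc (4 : ℝ) ^ (J + 2) ≤ 4 ^ (J + j1) := pow_le_pow_right₀ (by norm_num) (by omega)
        _ ≤ (512 * K) ^ (J + j1) := pow_le_pow_left₀ (by norm_num) (by linarith) _
    rw [mul_pow]
    gcongr
  have c1 : D ^ (J + j1) * 4 ^ (J + j1 + 2) ≤ (D * (512 * K)) ^ (J + j1) := by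
    have h2 : (4 : ℝ) ^ (J + j1 + 2) ≤ (512 * K) ^ (J + j1) := by
      calc (4 : ℝ) ^ (J + j1 + 2) ≤ 4 ^ (2 * (J + j1)) := pow_le_pow_right₀ (by norm_num) (by omega)
        _ = 16 ^ (J + j1) := by rw [pow_mul]; norm_num
        _ ≤ (512 * K) ^ (J + j1) := pow_le_pow_left₀ (by norm_num) (by linarith) _
    rw [mul_pow]
    gcongr
  have c2 : D ^ J * (K * 8 ^ (J + 2)) ≤ (D * (512 * K)) ^ (J + j1) := by
    have h1 : D ^ J ≤ D ^ (J + j1) := pow_le_pow_right₀ hD (by omega)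
    have h2 : K * (8 : ℝ) ^ (J + 2) ≤ (512 * K) ^ (J + j1) := by
      calc K * (8 : ℝ) ^ (J + 2) ≤ K * 8 ^ (J + j1) * 1 := by
            rw [mul_one]
            gcongr
            · norm_num
            · omega
        _ ≤ K ^ (J + j1) * 8 ^ (J + j1) * 64 ^ (J + j1) := by
            have h3 : K ^ 1 ≤ K ^ (J + j1) := pow_le_pow_right₀ hK (by omega)
            rw [pow_one] at h3
            have h4 : (1 : ℝ) ≤ 64 ^ (J + j1) := one_le_pow₀ (by norm_num)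
            gcongr
        _ = (512 * K) ^ (J + j1) := by
            rw [← mul_pow, ← mul_pow]
            congr 1
            ring
    rw [mul_pow]
    gcongr
  have f0 : 0 ≤ (x / m kc) ^ Q / m kc := by positivity
  have f1 : 0 ≤ (x / m k) ^ Q / m k := by positivity
  have f2 : 0 ≤ 1 / 4 ^ nn / m kc := by positivity
  calc D ^ J * (A * 4 ^ (J + 2) * (x / m kc) ^ Q) / m kc * Ub (kc + J) +
        D ^ (J + j1) * (A * 4 ^ (J + j1 + 2) * (x / m k) ^ Q) / m k * Ub (kc + J) +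
        D ^ J * (K * 8 ^ (J + 2) / 4 ^ nn) / m kc * Ub (kc + J)
      = ((D ^ J * 4 ^ (J + 2)) * (A * ((x / m kc) ^ Q / m kc)) + (D ^ (J + j1) * 4 ^ (J + j1 + 2)) * (A * ((x / m k) ^ Q / m k)) +
        (D ^ J * (K * 8 ^ (J + 2))) * (1 / 4 ^ nn / m kc)) * Ub (kc + J) := by ring
    _ ≤ ((D * (512 * K)) ^ (J + j1) * (A * ((x / m kc) ^ Q / m kc)) + (D * (512 * K)) ^ (J + j1) * (A * ((x / m k) ^ Q / m k)) +
        (D * (512 * K)) ^ (J + j1) * (1 / 4 ^ nn / m kc)) * Ub (kc + J) := by gcongr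
    _ = _ := by ring

end EN

end HexObs
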