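import Pool.Agent.EN.MarkX
import Pool.Agent.NTW.ModuA

/-!
EN (every number of letters): the displacement event in the direction false. A walk with many leaves and a large displacement
in a short time has a run of J0 + 2 leaves, one of them in a small class.
-/

set_option autoImplicit false

namespace HexObs

namespace EN

open Finset TS SDN NTW NTA

open scoped ENNReal

/-- a leaf of the class S and J0 + 2 leaves at least: the walk is in the event -/
lemma mem_ER {J0 kc J m u l : ℕ} {t : List Bool} {e : ℕ → ℕ} {S : Set (List Bool)} (hw : t ∈ WL (kc + J))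
    (h : Fd (kc + 5) t m u e) (hm : J0 + 2 ≤ m) (hl : l < m)
    (hS : ∀ g, PosL t u e l g → g ∈ BrR (2 ^ (kc + 4)) (2 ^ (kc + J + 2)) → g ∈ S) : t ∈ ER kc J (RS J0 kc J S) := by
  refine ⟨hw, m, u, e, h, min l (m - (J0 + 2)), J0 + 2, by omega, by omega, fun ms hlen hpos _ _ hbox => ?_⟩
  have hi : l - min l (m - (J0 + 2)) < ms.length := by omega
  have hg : ms[l - min l (m - (J0 + 2))] ∈ ms := List.getElem_mem _
  refine ⟨hlen, hbox, _, hg, hS _ ?_ (hbox _ hg)⟩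
  have := hpos _ hi
  rwa [show min l (m - (J0 + 2)) + (l - min l (m - (J0 + 2))) = l by omega] at this

/-- walks of the box with at least J0 + 2 leaves at every scale up to kc + 5 -/
def MN (kc J J0 : ℕ) : Set (List Bool) :=
  {t | t ∈ WL (kc + J) ∧ (∃ i j, i ≤ t.length ∧ j ≤ t.length ∧ RR (kc + 5) ≤ lev t j - lev t i) ∧
    ∀ (b m u : ℕ) (e : ℕ → ℕ), 1 ≤ b → b ≤ kc + 5 → Fd b t m u e → J0 + 2 ≤ m}

/-- many leaves and a displacement of at least 824 2 ^ kc levels in the direction false in a time less than x - 1 -/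
def DN (kc J J0 : ℕ) (x : ℝ) : Set (List Bool) :=
  {t | t ∈ WL (kc + J) ∧ (∀ (b m u : ℕ) (e : ℕ → ℕ), 1 ≤ b → b ≤ kc + 5 → Fd b t m u e → J0 + 2 ≤ m) ∧
    ∃ i j : ℕ, i ≤ j ∧ j ≤ t.length ∧ ((j : ℝ) - i + 1 < x) ∧ 824 * (2 : ℤ) ^ kc ≤ |lev t j - lev t i|}

lemma mn_sub {kc J J0 : ℕ} : MN kc J J0 ⊆ ER kc J (RS J0 kc J (BrR (2 ^ (kc + 4)) (2 ^ (kc + J + 2)))) := by
  rintro t ⟨hw, ⟨i, j, hi, hj, hd⟩, hmany⟩
  obtain ⟨m, u, e, h⟩ := (fd_exists (b := kc + 5) (by omega) hw.1).resolve_left fun h => by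
    have := h j i hj hi
    omega
  have hm := hmany _ m u e (by omega) le_rfl h
  exact mem_ER hw h hm (show 0 < m by omega) fun g _ hg => hg

/-- the displacement: one of three small classes -/
lemma dn_sub {kc k j1 J J0 : ℕ} {x : ℝ} (hk : k + j1 = kc) :
    DN kc J J0 x ⊆ (ER kc J (RS J0 kc J (NTm.SL kc (J + 2) x)) ∪
      ER k (J + j1) (RS J0 k (J + j1) (NTm.SL k (J + j1 + 2) x))) ∪
      ER kc J (RS J0 kc J (NTm.GU k kc (2 ^ (kc + (J + 2))))) := by
  rintro t ⟨hw, hmany, i, j, hij, hj, hlen, hd⟩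
  have hRR : ∀ b : ℕ, b ≤ kc + 5 → RR b ≤ 96 * 2 ^ kc := by
    intro b hb
    unfold RR
    have h1 : (2 : ℤ) ^ b ≤ 2 ^ (kc + 5) := pow_le_pow_right₀ (by norm_num) hb
    rw [pow_add] at h1
    linarith
  have hno : ∀ b : ℕ, b ≤ kc + 5 → ¬ ∀ i i', i ≤ t.length → i' ≤ t.length → lev t i - lev t i' < RR b := by
    intro b hb hall
    have h1 := hall i j (hij.trans hj) hj
    have h2 := hall j i hj (hij.trans hj)
    have h3 := hRR b hb
    have h4 : (0 : ℤ) < 2 ^ kc := by positivity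
    rcases abs_cases (lev t j - lev t i) with ⟨h5, -⟩ | ⟨h5, -⟩ <;> rw [h5] at hd <;> linarith
  obtain ⟨m, u, e, h⟩ := (fd_exists (b := kc + 5) (by omega) hw.1).resolve_left (hno _ le_rfl)
  obtain ⟨m1, u1, e1, h1⟩ := (fd_exists (b := k + 5) (by omega) hw.1).resolve_left (hno _ (by omega))
  have hm := hmany _ m u e (by omega) le_rfl h
  have hm1 := hmany _ m1 u1 e1 (by omega) (by omega) h1
  have hlen' : ∀ (u l : ℕ) (e : ℕ → ℕ) (g : List Bool), i ≤ e l → e (l + 1) ≤ j → PosL t u e l g →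
      (g.length : ℝ) < x := by
    intro u l e g h1 h2 h3
    have h4 := h3.len_le
    have h5 : (g.length : ℝ) + i ≤ j + 1 := by
      exact_mod_cast (by omega : g.length + i ≤ j + 1)
    linarith
  rcases geo2 (by omega) h h1 hij hj hd with ⟨l, l1, l2, l3⟩ | ⟨l, l1, l2, l3⟩ | ⟨l, l1, l2⟩
  · left; left
    refine mem_ER hw h hm l1 fun g hp hB => ⟨?_, hlen' u l e g l2 l3 hp⟩
    rw [show kc + (J + 2) = kc + J + 2 by omega]
    exact hB
  · left; right
    refine mem_ER (by rw [show k + (J + j1) = kc + J by omega]; exact hw) h1 hm1 l1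
      fun g hp hB => ⟨?_, hlen' u1 l e1 g l2 l3 hp⟩
    rw [show k + (J + j1 + 2) = k + (J + j1) + 2 by omega]
    exact hB
  · right
    refine mem_ER hw h hm l1 fun g hp hB => ?_
    obtain ⟨hh, b1, b2, b3⟩ := hB
    obtain ⟨z, z1, z2, z3⟩ := l2 g hp hh b3
    refine ⟨z, z1, hh, z2, ?_, b3, z3⟩
    rw [show kc + (J + 2) = kc + J + 2 by omega]
    exact b2

/-- the event with a marked leaf, exactly n letters -/
theorem run_mark {m : ℕ → ℝ} {J0 : ℕ} (hm : ∀ k, 0 < m k) (hM : MarkX m J0) : ∃ (D : ℝ) (k0 : ℕ), 1 ≤ D ∧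
    ∀ (kc J n : ℕ) (S : Set (List Bool)) (δ : ℝ), k0 ≤ kc → 6 ≤ J → 0 < δ → SmD DmJ kc S δ →
    gf {t | t.length = n ∧ t ∈ ER kc J (RS J0 kc J S)} ≤
      ENNReal.ofReal (D ^ J * δ / m kc * Ub (kc + J)) * Xb (kc + J) ^ 2 := by
  obtain ⟨C1, k1, hC1, h1⟩ := hM
  obtain ⟨C2, k2, hC2, h2⟩ := evX
  have hC1' : 0 ≤ C1 := by linarith
  have hC2' : 0 ≤ C2 := by linarith
  refine ⟨C2 * C1 ^ 2, k1 + k2, ?_, fun kc J n S δ hk hJ hδ hS => ?_⟩
  · exact one_le_mul_of_one_le_of_one_le hC2 (one_le_pow₀ hC1)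
  have hmk := hm kc
  have hU := Ub_pos (kc + J)
  have h3 := h1 kc J S δ (by omega) hδ.le hS
  have h4 := h2 kc J n _ (C1 ^ (J + 1) * δ / m kc) (by omega) hJ (by positivity) h3
  refine h4.trans (mul_le_mul_left (ENNReal.ofReal_le_ofReal ?_) _)
  have h5 : C1 ^ (J + 1) ≤ (C1 ^ 2) ^ J := by
    rw [← pow_mul]
    exact pow_le_pow_right₀ hC1 (by omega)
  calc C2 ^ J * (C1 ^ (J + 1) * δ / m kc) * Ub (kc + J) = C2 ^ J * C1 ^ (J + 1) * (δ / m kc * Ub (kc + J)) := by ring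
    _ ≤ C2 ^ J * (C1 ^ 2) ^ J * (δ / m kc * Ub (kc + J)) := by gcongr
    _ = (C2 * C1 ^ 2) ^ J * δ / m kc * Ub (kc + J) := by
        rw [mul_pow]
        ring

end EN

end HexObs
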