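import Pool.Agent.EN.ExSum
import Pool.Agent.NTW.CoverV
import Pool.Agent.NTW.Cover

/-!
EN (every n): the sum over the representations of the walks with exactly n letters.
-/

set_option autoImplicit false

namespace HexObs

namespace EN

namespace EX

open Finset TS SDN NTm NTW NTA

open scoped ENNReal

/-- one free end with c letters hanging at g, or none -/
noncomputable def EEg (N lam c : ℕ) (g : List Bool) : ℝ≥0∞ :=
  (if c = 0 then 1 else 0) + gf {W | W ∈ SSt N ∧ LFold g W ∧ g.length + W.length ≤ lam + 20 ∧ W.length = c}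

lemma EEg_mono {N N' lam c : ℕ} (h : N ≤ N') (g : List Bool) : EEg N lam c g ≤ EEg N' lam c g := by
  unfold EEg
  refine add_le_add le_rfl (gf_mono ?_)
  rintro W ⟨h1, h2, h3, h4⟩
  exact ⟨SSt_mo h h1, h2, h3, h4⟩

/-- the letters of the chain -/
lemma ll_unf {gs : List (List Bool)} (hne : ∀ g ∈ gs, g ≠ []) (hgs : gs ≠ []) : ll gs = (unf gs).length + 1 := by
  rw [unf_length hne hgs]
  unfold ll
  induction gs with
  | nil => exact absurd rfl hgs
  | cons g gs ih =>
    by_cases h : gs = []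
    · rw [h]
      simp
    · have h1 := ih (fun g' hg' => hne g' (List.mem_cons_of_mem _ hg')) h
      rw [List.map_cons, List.sum_cons, h1, List.map_cons, List.sum_cons, List.length_cons]
      ring

/-- the sum over one free end with c letters -/
lemma sum_endG (P : List Bool → Prop) (c : ℕ) :
    ∑' o : Option (List Bool), (Set.indicator {o : Option (List Bool) | (∀ W ∈ o, P W) ∧ (o.getD []).length = c} wO o) =
      (if c = 0 then 1 else 0) + gf {W | P W ∧ W.length = c} := by
  classical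
  rw [tsum_option, ← Rec8.sw_one, Rec8.sw_ind]
  congr 1
  · by_cases hc : c = 0
    · rw [Set.indicator_of_mem, if_pos hc]
      · rfl
      · refine ⟨fun W hW => ?_, hc.symm⟩
        simp at hW
    · rw [Set.indicator_of_notMem, if_neg hc]
      rintro ⟨-, h⟩
      exact hc h.symm
  · refine tsum_congr fun W => ?_
    by_cases h : P W ∧ W.length = c
    · rw [Set.indicator_of_mem, if_pos (show W ∈ {W | P W ∧ W.length = c} from h), mul_one]
      · rfl
      · refine ⟨fun W' hW' => ?_, h.2⟩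
        rw [Option.mem_def, Option.some.injEq] at hW'
        rw [← hW']
        exact h.1
    · rw [Set.indicator_of_notMem, if_neg (show W ∉ {W | P W ∧ W.length = c} from h)]
      rintro ⟨h1, h2⟩
      exact h ⟨h1 W rfl, h2⟩

open Classical in
/-- **cover_gen with the number of letters** -/
theorem cover_genX (hR : RepTwo) : ∃ K : ℝ, 1 ≤ K ∧ ∀ (A : Set (List Bool)) (N0 N1 lam n : ℕ)
    (Q : List (List Bool) → Prop),
    (∀ t ∈ A, t.length = n ∧ t ∈ SAL lam ∧ ∃ (m u : ℕ) (e : ℕ → ℕ), 1 ≤ m ∧ FoldG t m u e ∧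
      (∀ i, i < e 0 → Tight.sg u (lev t i) - Tight.sg u (lev t (e 0)) ≤ 3 * N0) ∧
      (∀ i, e m < i → i ≤ t.length →
        Tight.sg (u + (m - 1)) (lev t (e m)) - Tight.sg (u + (m - 1)) (lev t i) ≤ 3 * N1) ∧
      ∀ gs, RepG t m u e gs → Q gs) →
    gf A ≤ ENNReal.ofReal K * ∑' (o : Option (List Bool)) (gs : List (List Bool)) (o' : Option (List Bool)),
      (if gs ≠ [] ∧ gs.IsChain LFold ∧ (∀ g ∈ gs, ∃ k : ℕ, 1 ≤ k ∧ g ∈ Brd k) ∧ Q gs ∧
        (∀ W ∈ o, W ∈ SSt N0 ∧ LFold (rev (gs.headD [])) W ∧ (rev (gs.headD [])).length + W.length ≤ lam + 20) ∧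
        (∀ W ∈ o', W ∈ SSt N1 ∧ LFold (gs.getLastD []) W ∧ (gs.getLastD []).length + W.length ≤ lam + 20) ∧
        n - 9 ≤ (o.getD []).length + ll gs + (o'.getD []).length ∧
        (o.getD []).length + ll gs + (o'.getD []).length ≤ n + 11
      then wO o * SDN.wl gs * wO o' else 0) := by
  obtain ⟨asm, hR⟩ := hR
  have hx := xc_pos
  have hx1 := xc_bounds.2
  refine ⟨16 * xc⁻¹ ^ 10, ?_, ?_⟩
  · have h1 : 1 ≤ xc⁻¹ := (one_le_inv₀ hx).2 hx1
    have h2 : 1 ≤ xc⁻¹ ^ 10 := one_le_pow₀ h1
    linarith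
  intro A N0 N1 lam n Q hA
  obtain ⟨F, hF⟩ : ∃ F : Option (List Bool) → List (List Bool) → Option (List Bool) → ℝ≥0∞,
    F = fun o gs o' => (if gs ≠ [] ∧ gs.IsChain LFold ∧ (∀ g ∈ gs, ∃ k : ℕ, 1 ≤ k ∧ g ∈ Brd k) ∧ Q gs ∧
        (∀ W ∈ o, W ∈ SSt N0 ∧ LFold (rev (gs.headD [])) W ∧ (rev (gs.headD [])).length + W.length ≤ lam + 20) ∧
        (∀ W ∈ o', W ∈ SSt N1 ∧ LFold (gs.getLastD []) W ∧ (gs.getLastD []).length + W.length ≤ lam + 20) ∧
        n - 9 ≤ (o.getD []).length + ll gs + (o'.getD []).length ∧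
        (o.getD []).length + ll gs + (o'.getD []).length ≤ n + 11
      then wO o * SDN.wl gs * wO o' else 0) := ⟨_, rfl⟩
  have hgoal : gf A ≤ ENNReal.ofReal (16 * xc⁻¹ ^ 10) * ∑' (o : Option (List Bool)) (gs : List (List Bool))
      (o' : Option (List Bool)), F o gs o' := by
    rw [← Rec8.sw_one]
    refine (Rec8.sw_cover A (fun _ => 1)
      (fun x : Fin 16 × (Option (List Bool) × (List (List Bool) × Option (List Bool))) =>
        ENNReal.ofReal (xc⁻¹ ^ 10) * F x.2.1 x.2.2.1 x.2.2.2) (fun x => asm x.1 x.2.1 x.2.2.1 x.2.2.2) ?_).trans ?_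
    · intro t ht
      obtain ⟨hn, h1, m, u, e, hm, hG, h0, h0', hQ⟩ := hA t ht
      obtain ⟨c, o, o', gs, r1, r2, r3, r4, r5, r6, r7⟩ := hR t m u e N0 N1 h1.1 hm hG h0 h0'
      refine ⟨(c, o, gs, o'), r4.symm, ?_⟩
      have hlt := h1.2
      have hne : ∀ g ∈ gs, g ≠ [] := by
        intro g hg
        obtain ⟨k, k1, k2⟩ := r1.brd g hg
        exact Brd_ne_nil k2 k1
      have hgs : gs ≠ [] := by
        rintro rfl
        have := r1.len
        simp at this
        omega
      have hhead : gs.headD [] ∈ gs := by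
        cases gs with
        | nil => exact absurd rfl hgs
        | cons g gs => exact List.mem_cons_self
      have hlast : gs.getLastD [] ∈ gs := by
        rw [List.getLastD_eq_getLast?, List.getLast?_eq_getLast_of_ne_nil hgs]
        exact List.getLast_mem hgs
      have l1 := length_le_unf hne hhead
      have l2 := length_le_unf hne hlast
      have l3 := ll_unf hne hgs
      rw [hF]
      simp only
      rw [if_pos]
      · rw [mul_one]
        exact CovA.wE_bound hne hgs r5
      · refine ⟨hgs, r1.ch, r1.brd, hQ gs r1, ?_, ?_, ?_, ?_⟩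
        · intro W hW
          obtain ⟨w1, w2⟩ := r2 W hW
          refine ⟨w1, w2, ?_⟩
          have : (o.getD []).length = W.length := by
            rw [Option.mem_def.1 hW]
            rfl
          rw [rev_length]
          omega
        · intro W hW
          obtain ⟨w1, w2⟩ := r3 W hW
          refine ⟨w1, w2, ?_⟩
          have : (o'.getD []).length = W.length := by
            rw [Option.mem_def.1 hW]
            rfl
          omega
        · omega
        · omega
    · have e1 : ∀ c : Fin 16, ∑' y : Option (List Bool) × (List (List Bool) × Option (List Bool)),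
          ENNReal.ofReal (xc⁻¹ ^ 10) * F (c, y).2.1 (c, y).2.2.1 (c, y).2.2.2 =
          ENNReal.ofReal (xc⁻¹ ^ 10) * ∑' (o : Option (List Bool)) (gs : List (List Bool)) (o' : Option (List Bool)),
            F o gs o' := by
        intro c
        rw [ENNReal.tsum_mul_left, ENNReal.tsum_prod']
        congr 1
        refine tsum_congr fun o => ?_
        rw [ENNReal.tsum_prod']
      rw [ENNReal.tsum_prod', tsum_fintype, Finset.sum_congr rfl fun c _ => e1 c, Finset.sum_const, Finset.card_univ,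
        Fintype.card_fin, nsmul_eq_mul, ENNReal.ofReal_mul (by norm_num), mul_assoc]
      refine mul_le_mul' ?_ le_rfl
      norm_num
  rw [hF] at hgoal
  exact hgoal

/-- the weight of a chain with its two ends, N letters in all -/
noncomputable def cw (E0 E1 : ℕ → List (List Bool) → ℝ≥0∞) (N : ℕ) (gs : List (List Bool)) : ℝ≥0∞ :=
  SDN.wl gs * ∑ c ∈ range (N + 1), E0 c gs * shf (fun c' => E1 c' gs) (ll gs) (N - c)

open Classical in
/-- **cover_two with the number of letters** -/
theorem cover_twoX (hR : RepTwo) : ∃ K : ℝ, 1 ≤ K ∧ ∀ (A : Set (List Bool)) (N0 N1 lam n : ℕ)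
    (Q : List (List Bool) → Prop),
    (∀ t ∈ A, t.length = n ∧ t ∈ SAL lam ∧ ∃ (m u : ℕ) (e : ℕ → ℕ), 1 ≤ m ∧ FoldG t m u e ∧
      (∀ i, i < e 0 → Tight.sg u (lev t i) - Tight.sg u (lev t (e 0)) ≤ 3 * N0) ∧
      (∀ i, e m < i → i ≤ t.length →
        Tight.sg (u + (m - 1)) (lev t (e m)) - Tight.sg (u + (m - 1)) (lev t i) ≤ 3 * N1) ∧
      ∀ gs, RepG t m u e gs → Q gs) →
    gf A ≤ ENNReal.ofReal K * ∑ N ∈ Icc (n - 9) (n + 11), ∑' gs : List (List Bool),
      (if gs ≠ [] ∧ gs.IsChain LFold ∧ (∀ g ∈ gs, ∃ k : ℕ, 1 ≤ k ∧ g ∈ Brd k) ∧ Q gs then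
        cw (fun c gs => EEg N0 lam c (rev (gs.headD []))) (fun c gs => EEg N1 lam c (gs.getLastD [])) N gs else 0) := by
  obtain ⟨K, hK, h⟩ := cover_genX hR
  refine ⟨K, hK, fun A N0 N1 lam n Q hA => ?_⟩
  refine (h A N0 N1 lam n Q hA).trans ?_
  refine mul_le_mul' le_rfl ?_
  rw [ENNReal.tsum_comm, ← Summable.tsum_finsetSum (fun _ _ => ENNReal.summable)]
  refine ENNReal.tsum_le_tsum fun gs => ?_
  by_cases hg : gs ≠ [] ∧ gs.IsChain LFold ∧ (∀ g ∈ gs, ∃ k : ℕ, 1 ≤ k ∧ g ∈ Brd k) ∧ Q gs
  · simp only [if_pos hg]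
    obtain ⟨P0, hP0⟩ : ∃ P0 : List Bool → Prop, P0 = fun W => W ∈ SSt N0 ∧ LFold (rev (gs.headD [])) W ∧
      (rev (gs.headD [])).length + W.length ≤ lam + 20 := ⟨_, rfl⟩
    obtain ⟨P1, hP1⟩ : ∃ P1 : List Bool → Prop, P1 = fun W => W ∈ SSt N1 ∧ LFold (gs.getLastD []) W ∧
      (gs.getLastD []).length + W.length ≤ lam + 20 := ⟨_, rfl⟩
    obtain ⟨i0, hi0⟩ : ∃ i0 : ℕ → Option (List Bool) → ℝ≥0∞, i0 = fun c o =>
      Set.indicator {o : Option (List Bool) | (∀ W ∈ o, P0 W) ∧ (o.getD []).length = c} wO o := ⟨_, rfl⟩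
    obtain ⟨i1, hi1⟩ : ∃ i1 : ℕ → Option (List Bool) → ℝ≥0∞, i1 = fun c o =>
      Set.indicator {o : Option (List Bool) | (∀ W ∈ o, P1 W) ∧ (o.getD []).length = c} wO o := ⟨_, rfl⟩
    have e0 : ∀ c, EEg N0 lam c (rev (gs.headD [])) = ∑' o, i0 c o := by
      intro c
      rw [hi0, sum_endG P0 c]
      unfold EEg
      congr 2
      ext W
      rw [hP0]
      simp only [Set.mem_ofPred_eq, and_assoc]
    have e1 : ∀ c, EEg N1 lam c (gs.getLastD []) = ∑' o, i1 c o := by
      intro c
      rw [hi1, sum_endG P1 c]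
      unfold EEg
      congr 2
      ext W
      rw [hP1]
      simp only [Set.mem_ofPred_eq, and_assoc]
    have e2 : ∑ N ∈ Icc (n - 9) (n + 11), cw (fun c gs => EEg N0 lam c (rev (gs.headD [])))
        (fun c gs => EEg N1 lam c (gs.getLastD [])) N gs = ∑' o, ∑' o', ∑ N ∈ Icc (n - 9) (n + 11),
          SDN.wl gs * ∑ c ∈ range (N + 1), i0 c o * shf (fun c' => i1 c' o') (ll gs) (N - c) := by
      have e3 : ∀ N, cw (fun c gs => EEg N0 lam c (rev (gs.headD []))) (fun c gs => EEg N1 lam c (gs.getLastD [])) N gs =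
          ∑' o, ∑' o', SDN.wl gs * ∑ c ∈ range (N + 1), i0 c o * shf (fun c' => i1 c' o') (ll gs) (N - c) := by
        intro N
        have f1 : ∀ c, EEg N0 lam c (rev (gs.headD [])) * shf (fun c' => EEg N1 lam c' (gs.getLastD [])) (ll gs) (N - c) =
            ∑' o, ∑' o', i0 c o * shf (fun c' => i1 c' o') (ll gs) (N - c) := by
          intro c
          simp only [e0 c, e1, shf_tsum]
          rw [← ENNReal.tsum_mul_right]
          refine tsum_congr fun o => ?_
          rw [ENNReal.tsum_mul_left]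
        unfold cw
        simp only [f1]
        rw [← Summable.tsum_finsetSum (fun _ _ => ENNReal.summable), ← ENNReal.tsum_mul_left]
        refine tsum_congr fun o => ?_
        rw [← Summable.tsum_finsetSum (fun _ _ => ENNReal.summable), ← ENNReal.tsum_mul_left]
      simp only [e3]
      rw [← Summable.tsum_finsetSum (fun _ _ => ENNReal.summable)]
      refine tsum_congr fun o => ?_
      rw [← Summable.tsum_finsetSum (fun _ _ => ENNReal.summable)]
    rw [e2]
    refine ENNReal.tsum_le_tsum fun o => ENNReal.tsum_le_tsum fun o' => ?_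
    split_ifs with hc
    · obtain ⟨-, -, -, -, c1, c2, c3, c4⟩ := hc
      obtain ⟨N, hN⟩ : ∃ N, N = (o.getD []).length + ll gs + (o'.getD []).length := ⟨_, rfl⟩
      refine le_trans ?_ (Finset.single_le_sum (f := fun N => SDN.wl gs * ∑ c ∈ range (N + 1), i0 c o *
        shf (fun c' => i1 c' o') (ll gs) (N - c)) (fun _ _ => zero_le) (Finset.mem_Icc.2 ⟨hN ▸ c3, hN ▸ c4⟩))
      have h5 : wO o * wO o' ≤ ∑ c ∈ range (N + 1), i0 c o * shf (fun c' => i1 c' o') (ll gs) (N - c) := by
        refine le_trans ?_ (Finset.single_le_sum (f := fun c => i0 c o * shf (fun c' => i1 c' o') (ll gs) (N - c))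
          (fun _ _ => zero_le) (Finset.mem_range.2 (show (o.getD []).length < N + 1 by omega)))
        have h6 : i0 (o.getD []).length o = wO o := by
          rw [hi0]
          refine Set.indicator_of_mem ?_ _
          refine ⟨?_, rfl⟩
          rw [hP0]
          exact c1
        have h7 : shf (fun c' => i1 c' o') (ll gs) (N - (o.getD []).length) = wO o' := by
          unfold shf
          rw [if_pos (by omega)]
          have h8 : N - (o.getD []).length - ll gs = (o'.getD []).length := by omega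
          rw [h8, hi1]
          refine Set.indicator_of_mem ?_ _
          refine ⟨?_, rfl⟩
          rw [hP1]
          exact c2
        show wO o * wO o' ≤ i0 (o.getD []).length o * shf (fun c' => i1 c' o') (ll gs) (N - (o.getD []).length)
        rw [h6, h7]
      calc wO o * SDN.wl gs * wO o' = SDN.wl gs * (wO o * wO o') := by ring
        _ ≤ _ := mul_le_mul_right h5 _
    · exact zero_le
  · refine le_trans (le_of_eq ?_) zero_le
    rw [ENNReal.tsum_eq_zero]
    intro o
    rw [ENNReal.tsum_eq_zero]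
    intro o'
    rw [if_neg]
    exact fun hc => hg ⟨hc.1, hc.2.1, hc.2.2.1, hc.2.2.2.1⟩

end EX

end EN

end HexObs
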