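import Pool.Agent.EN.ExCover

/-!
EN (every n): the sum over the representations of the walks with exactly n letters, the ends bounded by functions of the
ranges of the first and of the last piece.
-/

set_option autoImplicit false

namespace HexObs

namespace EN

namespace EX

open Finset TS SDN NTm NTW NTA

open scoped ENNReal

/-- the first weight is multiplied -/
lemma cw_mul (a b : List (List Bool) → ℝ≥0∞) (E0 E1 : ℕ → List (List Bool) → ℝ≥0∞) (N : ℕ) (gs : List (List Bool)) :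
    cw (fun c gs => a gs * E0 c gs) (fun c gs => b gs * E1 c gs) N gs = a gs * b gs * cw E0 E1 N gs := by
  have h : ∀ c, a gs * E0 c gs * shf (fun c' => b gs * E1 c' gs) (ll gs) (N - c) =
      (a gs * b gs) * (E0 c gs * shf (fun c' => E1 c' gs) (ll gs) (N - c)) := by
    intro c
    rw [shf_mul (b gs) (fun c' => E1 c' gs)]
    ring
  unfold cw
  simp only [h]
  rw [← Finset.mul_sum]
  ring

lemma cw_mono {E0 E1 E0' E1' : ℕ → List (List Bool) → ℝ≥0∞} {gs : List (List Bool)} (h0 : ∀ c, E0 c gs ≤ E0' c gs)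
    (h1 : ∀ c, E1 c gs ≤ E1' c gs) (N : ℕ) : cw E0 E1 N gs ≤ cw E0' E1' N gs := by
  unfold cw
  exact mul_le_mul_right (Finset.sum_le_sum fun c _ => mul_le_mul' (h0 c) (shf_mono h1 _ _)) _

open CV in
open Classical in
theorem coverVX (hR : RepTwo) : ∃ K : ℝ, 1 ≤ K ∧ ∀ (A : Set (List Bool)) (f0 f1 : ℕ → ℕ) (lam n : ℕ)
    (Q : List (List Bool) → Prop), Monotone f0 → Monotone f1 →
    (∀ t ∈ A, t.length = n ∧ t ∈ SAL lam ∧ ∃ (m u : ℕ) (e : ℕ → ℕ), 1 ≤ m ∧ FoldG t m u e ∧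
      (∀ i, i < e 0 → Tight.sg u (lev t i) - Tight.sg u (lev t (e 0)) ≤ 3 * f0 (RG t u e 0).toNat) ∧
      (∀ i, e m < i → i ≤ t.length → Tight.sg (u + (m - 1)) (lev t (e m)) - Tight.sg (u + (m - 1)) (lev t i) ≤
        3 * f1 (RG t u e (m - 1)).toNat) ∧
      ∀ gs, RepG t m u e gs → Q gs) →
    ∀ B : ℝ≥0∞, (∀ N, (∑' gs : List (List Bool),
      if gs ≠ [] ∧ gs.IsChain LFold ∧ (∀ g ∈ gs, ∃ k : ℕ, 1 ≤ k ∧ g ∈ Brd k) ∧ Q gs then
        cw (fun c gs => EEg (f0 (3 * hgt (gs.headD []) + 8)) lam c (rev (gs.headD [])))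
          (fun c gs => EEg (f1 (3 * hgt (gs.getLastD []) + 8)) lam c (gs.getLastD [])) N gs else 0) ≤ B) →
    gf A ≤ ENNReal.ofReal K * B := by
  obtain ⟨K, hK, hC⟩ := cover_twoX hR
  refine ⟨K * (289 * 21), by linarith, ?_⟩
  intro A f0 f1 lam n Q hf0 hf1 hA B hBB
  -- the classes
  obtain ⟨A', hA'⟩ : ∃ A' : ℕ → ℕ → Set (List Bool), A' = fun r0 r1 => {t | t ∈ A ∧ ∃ (m u : ℕ) (e : ℕ → ℕ), 1 ≤ m ∧
    FoldG t m u e ∧ (∀ i, i < e 0 → Tight.sg u (lev t i) - Tight.sg u (lev t (e 0)) ≤ 3 * f0 (RG t u e 0).toNat) ∧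
    (∀ i, e m < i → i ≤ t.length → Tight.sg (u + (m - 1)) (lev t (e m)) - Tight.sg (u + (m - 1)) (lev t i) ≤
      3 * f1 (RG t u e (m - 1)).toNat) ∧ (∀ gs, RepG t m u e gs → Q gs) ∧ (RG t u e 0).toNat = r0 ∧
      (RG t u e (m - 1)).toNat = r1} := ⟨_, rfl⟩
  have hsub : A ⊆ ⋃ r0, ⋃ r1, A' r0 r1 := by
    intro t ht
    obtain ⟨-, -, m, u, e, h1, h2, h3, h4, h5⟩ := hA t ht
    rw [Set.mem_iUnion]
    refine ⟨(RG t u e 0).toNat, ?_⟩
    rw [Set.mem_iUnion]
    refine ⟨(RG t u e (m - 1)).toNat, ?_⟩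
    rw [hA']
    exact ⟨ht, m, u, e, h1, h2, h3, h4, h5, rfl, rfl⟩
  obtain ⟨P, hP⟩ : ∃ P : List (List Bool) → Prop, P = fun gs => gs ≠ [] ∧ gs.IsChain LFold ∧
    (∀ g ∈ gs, ∃ k : ℕ, 1 ≤ k ∧ g ∈ Brd k) ∧ Q gs := ⟨_, rfl⟩
  obtain ⟨I0, hI0⟩ : ∃ I0 : ℕ → List (List Bool) → ℝ≥0∞, I0 = fun r gs => if r ≤ 3 * hgt (gs.headD []) + 8 ∧
    3 * hgt (gs.headD []) ≤ r + 8 then 1 else 0 := ⟨_, rfl⟩
  obtain ⟨I1, hI1⟩ : ∃ I1 : ℕ → List (List Bool) → ℝ≥0∞, I1 = fun r gs => if r ≤ 3 * hgt (gs.getLastD []) + 8 ∧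
    3 * hgt (gs.getLastD []) ≤ r + 8 then 1 else 0 := ⟨_, rfl⟩
  obtain ⟨w, hw⟩ : ∃ w : ℕ → List (List Bool) → ℝ≥0∞, w = fun N gs =>
    cw (fun c gs => EEg (f0 (3 * hgt (gs.headD []) + 8)) lam c (rev (gs.headD [])))
      (fun c gs => EEg (f1 (3 * hgt (gs.getLastD []) + 8)) lam c (gs.getLastD [])) N gs := ⟨_, rfl⟩
  have hBw : ∀ N, (∑' gs : List (List Bool), if P gs then w N gs else 0) ≤ B := by
    intro N
    refine le_trans (le_of_eq ?_) (hBB N)
    refine tsum_congr fun gs => ?_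
    rw [hP, hw]
    congr 1
  have hone : ∀ r0 r1, gf (A' r0 r1) ≤ ENNReal.ofReal K * ∑ N ∈ Icc (n - 9) (n + 11), ∑' gs : List (List Bool),
      (if P gs then I0 r0 gs * I1 r1 gs * w N gs else 0) := by
    intro r0 r1
    refine (hC (A' r0 r1) (f0 r0) (f1 r1) lam n (fun gs => Q gs ∧ (r0 ≤ 3 * hgt (gs.headD []) + 8 ∧
      3 * hgt (gs.headD []) ≤ r0 + 8) ∧ (r1 ≤ 3 * hgt (gs.getLastD []) + 8 ∧ 3 * hgt (gs.getLastD []) ≤ r1 + 8)) ?_).trans
      (mul_le_mul_right (Finset.sum_le_sum fun N _ => ENNReal.tsum_le_tsum fun gs => ?_) _)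
    · intro t ht
      rw [hA'] at ht
      obtain ⟨htA, m, u, e, h1, h2, h3, h4, h5, h6, h7⟩ := ht
      refine ⟨(hA t htA).1, (hA t htA).2.1, m, u, e, h1, h2, ?_, ?_, fun gs hR => ⟨h5 gs hR, ?_, ?_⟩⟩
      · rw [← h6]
        exact h3
      · rw [← h7]
        exact h4
      · have hl : 0 < gs.length := by rw [hR.len]; omega
        obtain ⟨k, k1, k2⟩ := hR.brd _ (List.getElem_mem hl)
        have h8 := NTW.EX.leaf_hgt k2 k1 (hR.pos 0 hl)
        have h9 : gs.headD [] = gs[0] := by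
          cases gs with
          | nil => simp at hl
          | cons a gs => rfl
        rw [h9, hgt_eq k2]
        have h10 : RG t u e 0 = Tight.sg (u + 0) (lev t (e (0 + 1))) - Tight.sg (u + 0) (lev t (e 0)) := rfl
        have h11 := h2.gap 0 (by omega)
        rw [← h10, abs_le] at h8
        rw [← h10] at h11
        omega
      · have hl : m - 1 < gs.length := by rw [hR.len]; omega
        obtain ⟨k, k1, k2⟩ := hR.brd _ (List.getElem_mem hl)
        have h8 := NTW.EX.leaf_hgt k2 k1 (hR.pos (m - 1) hl)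
        have h9 : gs.getLastD [] = gs[m - 1] := by
          have hne : gs ≠ [] := by
            rintro rfl
            simp at hl
          rw [List.getLastD_eq_getLast?, List.getLast?_eq_getLast_of_ne_nil hne, Option.getD_some, List.getLast_eq_getElem]
          congr 1
          rw [hR.len]
        rw [h9, hgt_eq k2]
        have h10 : RG t u e (m - 1) = Tight.sg (u + (m - 1)) (lev t (e (m - 1 + 1))) -
          Tight.sg (u + (m - 1)) (lev t (e (m - 1))) := rfl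
        have h11 := h2.gap (m - 1) (by omega)
        rw [← h10, abs_le] at h8
        rw [← h10] at h11
        omega
    · by_cases hg : gs ≠ [] ∧ gs.IsChain LFold ∧ (∀ g ∈ gs, ∃ k : ℕ, 1 ≤ k ∧ g ∈ Brd k) ∧
        (Q gs ∧ (r0 ≤ 3 * hgt (gs.headD []) + 8 ∧ 3 * hgt (gs.headD []) ≤ r0 + 8) ∧
          (r1 ≤ 3 * hgt (gs.getLastD []) + 8 ∧ 3 * hgt (gs.getLastD []) ≤ r1 + 8))
      · rw [if_pos hg]
        obtain ⟨g1, g2, g3, g4, g5, g6⟩ := hg
        have hPg : P gs := by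
          rw [hP]
          exact ⟨g1, g2, g3, g4⟩
        have hi0 : I0 r0 gs = 1 := by
          rw [hI0]
          exact if_pos g5
        have hi1 : I1 r1 gs = 1 := by
          rw [hI1]
          exact if_pos g6
        rw [if_pos hPg, hi0, hi1, one_mul, one_mul, hw]
        exact cw_mono (fun c => EEg_mono (hf0 g5.1) _) (fun c => EEg_mono (hf1 g6.1) _) N
      · rw [if_neg hg]
        exact zero_le
  have hsum0 : ∀ gs : List (List Bool), ∑' r, I0 r gs ≤ 17 := by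
    intro gs
    have h := sum_near (hgt (gs.headD [])) (fun _ => 1) 1 (fun _ _ => le_rfl)
    rw [mul_one] at h
    rw [hI0]
    exact h
  have hsum1 : ∀ gs : List (List Bool), ∑' r, I1 r gs ≤ 17 := by
    intro gs
    have h := sum_near (hgt (gs.getLastD [])) (fun _ => 1) 1 (fun _ _ => le_rfl)
    rw [mul_one] at h
    rw [hI1]
    exact h
  -- the sum
  have hB1 : ∀ (N : ℕ) (gs : List (List Bool)), (∑' (r0 : ℕ) (r1 : ℕ), (if P gs then I0 r0 gs * I1 r1 gs * w N gs else 0)) ≤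
      289 * (if P gs then w N gs else 0) := by
    intro N gs
    by_cases hg : P gs
    · simp only [if_pos hg]
      have e1 : (∑' (r0 : ℕ) (r1 : ℕ), I0 r0 gs * I1 r1 gs * w N gs) = (∑' r0, I0 r0 gs) * ((∑' r1, I1 r1 gs) * w N gs) := by
        rw [← ENNReal.tsum_mul_right]
        refine tsum_congr fun r0 => ?_
        rw [← ENNReal.tsum_mul_right, ← ENNReal.tsum_mul_left]
        exact tsum_congr fun r1 => mul_assoc _ _ _
      rw [e1]
      have h289 : (289 : ℝ≥0∞) = 17 * 17 := by norm_num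
      rw [h289, mul_assoc]
      exact mul_le_mul' (hsum0 gs) (mul_le_mul' (hsum1 gs) le_rfl)
    · simp only [if_neg hg, tsum_zero, mul_zero, le_refl]
  have h2 : ∀ N, (∑' (r0 : ℕ) (r1 : ℕ) (gs : List (List Bool)), (if P gs then I0 r0 gs * I1 r1 gs * w N gs else 0)) ≤
      289 * B := by
    intro N
    calc (∑' (r0 : ℕ) (r1 : ℕ) (gs : List (List Bool)), (if P gs then I0 r0 gs * I1 r1 gs * w N gs else 0)) =
          ∑' (r0 : ℕ) (gs : List (List Bool)) (r1 : ℕ), (if P gs then I0 r0 gs * I1 r1 gs * w N gs else 0) :=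
          tsum_congr fun r0 => ENNReal.tsum_comm
      _ = ∑' (gs : List (List Bool)) (r0 : ℕ) (r1 : ℕ), (if P gs then I0 r0 gs * I1 r1 gs * w N gs else 0) :=
          ENNReal.tsum_comm
      _ ≤ ∑' gs : List (List Bool), 289 * (if P gs then w N gs else 0) := ENNReal.tsum_le_tsum fun gs => hB1 N gs
      _ = 289 * ∑' gs : List (List Bool), (if P gs then w N gs else 0) := ENNReal.tsum_mul_left
      _ ≤ _ := mul_le_mul' le_rfl (hBw N)
  refine (gf_mono hsub).trans ?_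
  refine (ENNReal.tsum_iUnion_le_tsum (fun t => wE t) _).trans ?_
  refine (ENNReal.tsum_le_tsum fun r0 => (ENNReal.tsum_iUnion_le_tsum (fun t => wE t) _).trans
    (ENNReal.tsum_le_tsum fun r1 => hone r0 r1)).trans ?_
  simp only [ENNReal.tsum_mul_left]
  rw [ENNReal.ofReal_mul (by linarith), mul_assoc]
  refine mul_le_mul' le_rfl ?_
  have e3 : (∑' (r0 : ℕ) (r1 : ℕ), ∑ N ∈ Icc (n - 9) (n + 11), ∑' gs : List (List Bool),
      (if P gs then I0 r0 gs * I1 r1 gs * w N gs else 0)) = ∑ N ∈ Icc (n - 9) (n + 11), ∑' (r0 : ℕ) (r1 : ℕ)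
      (gs : List (List Bool)), (if P gs then I0 r0 gs * I1 r1 gs * w N gs else 0) := by
    rw [← Summable.tsum_finsetSum (fun _ _ => ENNReal.summable)]
    refine tsum_congr fun r0 => ?_
    rw [← Summable.tsum_finsetSum (fun _ _ => ENNReal.summable)]
  rw [e3]
  refine (Finset.sum_le_card_nsmul _ _ (289 * B) fun N _ => h2 N).trans ?_
  rw [nsmul_eq_mul, Nat.card_Icc]
  have h3 : n + 11 + 1 - (n - 9) ≤ 21 := by omega
  have h4 : ((n + 11 + 1 - (n - 9) : ℕ) : ℝ≥0∞) ≤ 21 := by exact_mod_cast h3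
  have h5 : ENNReal.ofReal (289 * 21) = 21 * 289 := by
    rw [show (289 * 21 : ℝ) = ((21 * 289 : ℕ) : ℝ) by norm_num, ENNReal.ofReal_natCast]
    norm_num
  rw [h5, mul_assoc]
  exact mul_le_mul' h4 le_rfl

end EX

end EN

end HexObs
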