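import Pool.Agent.EN.Comp
import Pool.Agent.NTW.EqSum

/-!
EN (every n): right and left continuations of runs, graded by the number of letters. Text: doc AS/EN9.
-/

set_option autoImplicit false

namespace HexObs

namespace EN

namespace EX

open Finset TS SDN SDN.CN NTm NTW NTA

open scoped ENNReal

/-- F behind a part with a letters, N letters in all -/
noncomputable def shf (F : ℕ → ℝ≥0∞) (a N : ℕ) : ℝ≥0∞ := if a ≤ N then F (N - a) else 0

/-! ### graded right functionals -/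

/-- the right continuations by at least one piece -/
noncomputable def Rg (W : ℕ → Set (List Bool)) (kp : ℕ → ℕ) (n : ℕ) (Φ : ℕ → ℕ → List Bool → ℝ≥0∞) :
    ℕ → ℕ → ℕ → List Bool → ℝ≥0∞
  | 0, _ => fun _ _ => 0
  | M + 1, i => fun c t => ∑ i' ∈ Ico i n, vG (2 ^ (kp i + 4)) (W i') (fun c' s => Φ i' c' s + Rg W kp n Φ M i' c' s) c t

/-- the right continuations by at most M pieces -/
noncomputable def Fg (W : ℕ → Set (List Bool)) (kp : ℕ → ℕ) (n : ℕ) (Φ : ℕ → ℕ → List Bool → ℝ≥0∞) (M i c : ℕ)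
    (t : List Bool) : ℝ≥0∞ := Φ i c t + Rg W kp n Φ M i c t

/-- right parts behind the piece g of the window number i; e = the graded weight of the end behind the last piece -/
def IncG (W : ℕ → Set (List Bool)) (n : ℕ) (Φ : ℕ → ℕ → List Bool → ℝ≥0∞) :
    List (List Bool) → ℕ → List Bool → (ℕ → ℝ≥0∞) → Prop
  | [], i, g, e => ∀ c, e c ≤ Φ i c g
  | x :: xs, i, _, e => ∃ i', i ≤ i' ∧ i' < n ∧ x ∈ W i' ∧ IncG W n Φ xs i' x e

/-- a run in R beginning with g, a right part with at most M pieces -/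
def MidG (W : ℕ → Set (List Bool)) (n M : ℕ) (R : Set (List (List Bool))) (Φ : ℕ → ℕ → List Bool → ℝ≥0∞)
    (g : List Bool) (gs : List (List Bool)) (e : ℕ → ℝ≥0∞) : Prop :=
  ∃ ms rs, gs = ms ++ rs ∧ (g :: ms) ∈ R ∧ rs.length ≤ M ∧ IncG W n Φ rs 0 ((g :: ms).getLastD []) e

/-- windows number < i in decreasing order, a run in R, a right part with at most M pieces -/
def DecG (W : ℕ → Set (List Bool)) (n M : ℕ) (R : Set (List (List Bool))) (Φ : ℕ → ℕ → List Bool → ℝ≥0∞) :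
    List (List Bool) → ℕ → (ℕ → ℝ≥0∞) → Prop
  | [], _, _ => False
  | g :: gs, i, e => MidG W n M R Φ g gs e ∨ ∃ i', i' < i ∧ g ∈ W i' ∧ DecG W n M R Φ gs (i' + 1) e

/-- the whole chain; a = the graded weight of the end before the first piece -/
def TotG (W : ℕ → Set (List Bool)) (n M : ℕ) (R : Set (List (List Bool))) (Φ : ℕ → ℕ → List Bool → ℝ≥0∞) :
    List (List Bool) → (ℕ → ℝ≥0∞) → (ℕ → ℝ≥0∞) → Prop
  | [], _, _ => False
  | g :: gs, a, e => ((∀ c, a c ≤ Φ 0 c (rev g)) ∧ MidG W n M R Φ g gs e) ∨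
      ∃ i, i < n ∧ g ∈ W i ∧ (∀ c, a c ≤ Φ i c (rev g)) ∧ DecG W n M R Φ gs (i + 1) e

/-! ### elementary properties -/

lemma shf_zero (F : ℕ → ℝ≥0∞) (N : ℕ) : shf F 0 N = F N := by
  unfold shf
  rw [if_pos (Nat.zero_le N), Nat.sub_zero]

lemma shf_add (F : ℕ → ℝ≥0∞) (a b N : ℕ) : shf F (a + b) N = shf (fun c => shf F b c) a N := by
  unfold shf
  beta_reduce
  by_cases h : a ≤ N
  · by_cases h2 : a + b ≤ N
    · rw [if_pos h, if_pos h2, if_pos (by omega), Nat.sub_sub]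
    · rw [if_pos h, if_neg h2, if_neg (by omega)]
  · rw [if_neg h, if_neg (by omega)]

lemma shf_mono {F G : ℕ → ℝ≥0∞} (h : ∀ c, F c ≤ G c) (a N : ℕ) : shf F a N ≤ shf G a N := by
  unfold shf
  split_ifs
  · exact h _
  · exact le_rfl

lemma shf_le_iSup (F : ℕ → ℝ≥0∞) (a N : ℕ) : shf F a N ≤ ⨆ c, F c := by
  unfold shf
  split_ifs
  · exact le_iSup F _
  · exact zero_le

lemma shf_le_tsum (F : ℕ → ℝ≥0∞) (a N : ℕ) : shf F a N ≤ ∑' c, F c := by
  unfold shf
  split_ifs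
  · exact ENNReal.le_tsum _
  · exact zero_le

lemma shf_mul (w : ℝ≥0∞) (F : ℕ → ℝ≥0∞) (a N : ℕ) : shf (fun c => w * F c) a N = w * shf F a N := by
  unfold shf
  split_ifs
  · rfl
  · rw [mul_zero]

lemma shf_tsum {ι : Type} (F : ι → ℕ → ℝ≥0∞) (a N : ℕ) : shf (fun c => ∑' i, F i c) a N = ∑' i, shf (F i) a N := by
  unfold shf
  split_ifs
  · rfl
  · rw [tsum_zero]

lemma shf_sum {ι : Type} (s : Finset ι) (F : ι → ℕ → ℝ≥0∞) (a N : ℕ) :
    shf (fun c => ∑ i ∈ s, F i c) a N = ∑ i ∈ s, shf (F i) a N := by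
  unfold shf
  split_ifs
  · rfl
  · rw [Finset.sum_const_zero]

lemma shf_addF (F G : ℕ → ℝ≥0∞) (a N : ℕ) : shf (fun c => F c + G c) a N = shf F a N + shf G a N := by
  unfold shf
  split_ifs
  · rfl
  · rw [add_zero]

/-- the sum over the total number of letters -/
lemma tsum_shf (F : ℕ → ℝ≥0∞) (a : ℕ) : ∑' N, shf F a N = ∑' c, F c := tsum_shift F a

lemma sh_eq (F : ℕ → List Bool → ℝ≥0∞) (N : ℕ) (g : List Bool) :
    sh F N g = shf (fun c => F c g) (g.length + 1) N := rfl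

lemma vG_eq (D : ℕ) (A : Set (List Bool)) (F : ℕ → List Bool → ℝ≥0∞) (N : ℕ) (t : List Bool) :
    vG D A F N t = vA D A (fun g => shf (fun c => F c g) (g.length + 1) N) t := rfl

lemma runG_eq (R : Set (List (List Bool))) (F : ℕ → List Bool → ℝ≥0∞) (N : ℕ) (g : List Bool) [∀ ms : List (List Bool), Decidable ((g :: ms) ∈ R ∧ (g :: ms).IsChain LFold)] :
    runG R F N g = ∑' ms : List (List Bool), if (g :: ms) ∈ R ∧ (g :: ms).IsChain LFold then
      SDN.wl ms * shf (fun c => F c ((g :: ms).getLastD [])) (ll ms) N else 0 := by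
  classical
  unfold runG
  refine tsum_congr fun ms => ?_
  by_cases h : (g :: ms) ∈ R ∧ (g :: ms).IsChain LFold
  · rw [if_pos h]
    unfold shf
    by_cases h2 : ll ms ≤ N
    · rw [if_pos ⟨h.1, h.2, h2⟩, if_pos h2]
    · rw [if_neg fun h3 => h2 h3.2.2, if_neg h2, mul_zero]
  · rw [if_neg h, if_neg fun h3 => h ⟨h3.1, h3.2.1⟩]

lemma tot_add (F G : ℕ → List Bool → ℝ≥0∞) : tot (fun c s => F c s + G c s) = fun s => tot F s + tot G s := by
  funext s
  unfold tot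
  exact ENNReal.tsum_add

lemma tot_sum (s : Finset ℕ) (F : ℕ → ℕ → List Bool → ℝ≥0∞) :
    tot (fun c t => ∑ i ∈ s, F i c t) = fun t => ∑ i ∈ s, tot (F i) t := by
  funext t
  unfold tot
  exact Summable.tsum_finsetSum (fun _ _ => ENNReal.summable)

lemma tot_Rg (W : ℕ → Set (List Bool)) (kp : ℕ → ℕ) (n : ℕ) (Φ : ℕ → ℕ → List Bool → ℝ≥0∞) (M : ℕ) : ∀ i,
    tot (Rg W kp n Φ M i) = Rx W kp n (fun i => tot (Φ i)) M i := by
  induction M with
  | zero =>
    intro i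
    funext t
    unfold tot
    exact tsum_zero
  | succ M ih =>
    intro i
    funext t
    show tot (fun c t => ∑ i' ∈ Ico i n, vG (2 ^ (kp i + 4)) (W i') (fun c' s => Φ i' c' s + Rg W kp n Φ M i' c' s) c t)
      t = _
    rw [tot_sum]
    refine Finset.sum_congr rfl fun i' _ => ?_
    have h1 := tot_vG (2 ^ (kp i + 4)) (W i') (fun c' s => Φ i' c' s + Rg W kp n Φ M i' c' s) t
    refine (Eq.trans ?_ h1).trans ?_
    · rfl
    · rw [tot_add, ih i']

lemma tot_Fg (W : ℕ → Set (List Bool)) (kp : ℕ → ℕ) (n : ℕ) (Φ : ℕ → ℕ → List Bool → ℝ≥0∞) (M i : ℕ) :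
    tot (Fg W kp n Φ M i) = FX W kp n (fun i => tot (Φ i)) M i := by
  funext t
  have h1 := congrFun (tot_add (Φ i) (Rg W kp n Φ M i)) t
  refine (Eq.trans ?_ h1).trans ?_
  · rfl
  · rw [tot_Rg]
    rfl

lemma GH_add {D : ℕ} {F G : ℕ → List Bool → ℝ≥0∞} (hF : GH D F) (hG : GH D G) : GH D (fun c s => F c s + G c s) :=
  fun c => ⟨fun s hs t => add_le_add ((hF c).her s hs t) ((hG c).her s hs t),
    fun s t h1 h2 => add_le_add ((hF c).suf s t h1 h2) ((hG c).suf s t h1 h2)⟩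

lemma GH_Rg (W : ℕ → Set (List Bool)) (kp : ℕ → ℕ) (n : ℕ) (Φ : ℕ → ℕ → List Bool → ℝ≥0∞) (M i : ℕ) :
    GH (2 ^ (kp i + 4)) (Rg W kp n Φ M i) := by
  cases M with
  | zero => exact fun c => ⟨fun _ _ _ => le_rfl, fun _ _ _ _ => le_rfl⟩
  | succ M =>
    intro c
    exact ⟨fun s hs t => Finset.sum_le_sum fun i' _ => (herD_vG Nat.one_le_two_pow (W i')
        (fun c' s => Φ i' c' s + Rg W kp n Φ M i' c' s) c).her s hs t,
      fun s t h1 h2 => Finset.sum_le_sum fun i' _ => (herD_vG Nat.one_le_two_pow (W i')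
        (fun c' s => Φ i' c' s + Rg W kp n Φ M i' c' s) c).suf s t h1 h2⟩

lemma runG_add {R : Set (List (List Bool))} (F G : ℕ → List Bool → ℝ≥0∞) (N : ℕ) (g : List Bool) :
    runG R (fun c s => F c s + G c s) N g = runG R F N g + runG R G N g := by
  classical
  rw [runG_eq, runG_eq, runG_eq, ← ENNReal.tsum_add]
  refine tsum_congr fun ms => ?_
  split_ifs
  · rw [shf_addF, mul_add]
  · rw [add_zero]

lemma vG_add {D : ℕ} {S : Set (List Bool)} (F G : ℕ → List Bool → ℝ≥0∞) (c : ℕ) (t : List Bool) :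
    vG D S (fun c s => F c s + G c s) c t = vG D S F c t + vG D S G c t := by
  unfold vG vA
  rw [← Rec8.sw_add]
  exact Rec8.sw_congr fun g _ => shf_addF (fun c => F c g) (fun c => G c g) _ _

end EX

end EN

end HexObs
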