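import Pool.Agent.EN.ExFun
import Pool.Agent.EN.ExCoverV
import Pool.Agent.NTW.QXEnd
import Pool.Agent.NTW.Event2

/-!
EN (every n): the end functional graded by the number of letters.
-/

set_option autoImplicit false

namespace HexObs

namespace EN

namespace EX

open Finset TS SDN SDN.CN NTm NTW NTA

open scoped ENNReal

/-- the free ends with c letters -/
noncomputable def ENg (D N lam c : ℕ) (t : List Bool) : ℝ≥0∞ :=
  gf {W | W ∈ SSt N ∧ RT D LFold t W ∧ t.length + W.length ≤ lam ∧ W.length = c}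

/-- the graded end functional -/
noncomputable def Pg (D N lam c : ℕ) (t : List Bool) : ℝ≥0∞ := (if c = 0 then 1 else 0) + ENg D N lam c t

lemma gf_grade (S : Set (List Bool)) : ∑' c, gf {W | W ∈ S ∧ W.length = c} = gf S := by
  classical
  have h : ∀ c, gf {W | W ∈ S ∧ W.length = c} = ∑' W : List Bool, if W.length = c then (if W ∈ S then wE W else 0) else 0 := by
    intro c
    rw [← Rec8.sw_one, Rec8.sw_ind]
    refine tsum_congr fun W => ?_
    by_cases h1 : W ∈ S
    · by_cases h2 : W.length = c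
      · rw [if_pos (show W ∈ {W | W ∈ S ∧ W.length = c} from ⟨h1, h2⟩), if_pos h2, if_pos h1, mul_one]
      · rw [if_neg (show W ∉ {W | W ∈ S ∧ W.length = c} from fun h => h2 h.2), if_neg h2]
    · rw [if_neg (show W ∉ {W | W ∈ S ∧ W.length = c} from fun h => h1 h.1), if_neg h1]
      split_ifs <;> rfl
  simp only [h]
  rw [ENNReal.tsum_comm, ← Rec8.sw_one, Rec8.sw_ind]
  refine tsum_congr fun W => ?_
  rw [tsum_eq_single W.length (fun c hc => if_neg (Ne.symm hc)), if_pos rfl]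
  split_ifs
  · rw [mul_one]
  · rfl

lemma tot_ENg (D N lam : ℕ) (t : List Bool) : ∑' c, ENg D N lam c t = ENl D N lam t := by
  unfold ENg ENl
  rw [← gf_grade]
  refine tsum_congr fun c => ?_
  congr 1
  ext W
  simp only [Set.mem_ofPred_eq, and_assoc]

lemma tot_Pg (D N lam : ℕ) : tot (Pg D N lam) = fun t => 1 + ENl D N lam t := by
  funext t
  unfold tot Pg
  rw [ENNReal.tsum_add, tot_ENg, tsum_ite_eq]

lemma ENg_mono {D D' N N' lam lam' : ℕ} (hD : D' ≤ D) (hN : N ≤ N') (hl : lam ≤ lam') (c : ℕ) (t : List Bool) :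
    ENg D N lam c t ≤ ENg D' N' lam' c t := by
  refine gf_mono fun W hW => ⟨SSt_mo hN hW.1, ?_, hW.2.2.1.trans hl, hW.2.2.2⟩
  obtain ⟨Z, h1, ⟨n, h2, h3⟩, h4⟩ := hW.2.1
  exact ⟨Z, h1, ⟨n, hD.trans h2, h3⟩, h4⟩

theorem flp_Pg {D : ℕ} (hD : 1 ≤ D) (N lam c : ℕ) : Flp D (Pg D N lam c) := by
  intro s t b hc _
  refine add_le_add le_rfl (gf_mono fun W hW => ⟨hW.1, ?_, ?_, hW.2.2.2⟩)
  · obtain ⟨Z, h1, h2, h3⟩ := hW.2.1
    rw [← List.append_assoc] at h3
    exact RT_of hc (LFold_flip hc hD h3)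
  · have := hW.2.2.1
    rw [List.length_append, List.length_cons] at this
    rw [List.length_cons]
    omega

/-- the graded end functional is hereditary -/
theorem GH_Pg {D : ℕ} (hD : 1 ≤ D) (N lam : ℕ) : GH D (Pg D N lam) := by
  intro c
  refine ⟨fun s hs t => add_le_add le_rfl (gf_mono fun W hW => ⟨hW.1, RT_her hs hW.2.1, ?_, hW.2.2.2⟩),
    fun s t ht _ => add_le_add le_rfl (gf_mono fun W hW => ⟨hW.1, ?_, ?_, hW.2.2.2⟩)⟩
  · have := hW.2.2.1
    rw [List.length_append] at this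
    omega
  · obtain ⟨Z, h1, h2, h3⟩ := hW.2.1
    rw [← List.append_assoc] at h2 h3
    exact RT_of ht (LFold_suf ht h2 hD h3)
  · have := hW.2.2.1
    rw [List.length_append] at this
    omega

lemma EEg_le {D N N' lam c : ℕ} {g : List Bool} (hg : g ∈ HB D) (hN : N ≤ N') :
    EEg N lam c g ≤ Pg D N' (lam + 20) c g := by
  refine add_le_add le_rfl (gf_mono ?_)
  rintro W ⟨h1, h2, h3, h4⟩
  exact ⟨SSt_mo hN h1, RT_of hg h2, h3, h4⟩

end EX

end EN

end HexObs
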