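import Pool.Agent.EN.ExAll
import Pool.Agent.EN.GBM

/-!
EN: the exact norm of one leaf at every scale, for the mean length of the bridges, without hypothesis.
-/

set_option autoImplicit false

namespace HexObs

namespace EN

open Finset TS SDN NTW NTA

open scoped ENNReal

/-- **the exact norm of one leaf at every scale, for the mean length, no hypothesis** -/
theorem ex_M : ∃ C : ℝ, 1 ≤ C ∧ ∀ kc : ℕ, SmDX DmJ kc (BrR (2 ^ (kc + 7)) (2 ^ (kc + 8))) (C / PW.mZ (2 ^ kc)) := by
  obtain ⟨a1, h1, h2, hI⟩ := indB2_M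
  exact ex_all (m := fun k => PW.mZ (2 ^ k)) (fun k => PW.mZ_pos Nat.one_le_two_pow) mup_M c1_M h1 h2 hI

end EN

end HexObs
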