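import Pool.Agent.EN.ExRest

/-!
EN, E2: the exact norm of a window class, near side. Only the pieces below 2^e occur on the windows, so the two terms of the
giants are empty.
-/

set_option autoImplicit false

namespace HexObs

namespace EN

open Finset TS SDN SDN.T2 NTW

open scoped ENNReal

open Rec8 (mb)

open KJ SH DW DO TG SE

variable {C δ : ℝ}

/-- the next leaf in W, with its number of letters -/
theorem near_x (h : Inp C δ) (hA : SsA) : ∃ K : ℝ, 1 ≤ K ∧ ∀ (k e j N : ℕ) (A : ℝ) (x : ℝ≥0∞)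
    (F : ℕ → List Bool → ℝ≥0∞) (W : Set (List Bool)), (∀ c, Hered (F c)) → DomJ k x (tot F) → j + 1 ≤ e → e ≤ k →
    0 ≤ A → W ⊆ BrR (2 ^ (k + 4)) N → EZX (2 ^ (k + 4)) N e W A → Win e j W →
    xT (2 ^ (k + 4)) k (fun t => ⨆ n, vG (2 ^ (k + 4)) W F n t) ≤ ENNReal.ofReal (K * (4 ^ (k - j) * (A / Ub k))) * x := by
  classical
  obtain ⟨K1, hK1, k1h⟩ := k1 h
  obtain ⟨Kr, hKr, hrest⟩ := rest_x hA
  refine ⟨16 * (Kr * K1), by nlinarith, fun k e j N A x F W hF hΦ hj he hA0 hWN hW hw => ?_⟩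
  refine xT_le fun b I hb hI => ?_
  obtain ⟨i, hIi⟩ := hI
  have hp4 : 2 ^ (k + 4) = 16 * 2 ^ k := by ring
  have hp0 : 1 ≤ 2 ^ k := Nat.one_le_two_pow
  have hpe : 2 ^ e ≤ 2 ^ k := Nat.pow_le_pow_right (by norm_num) he
  have hpj : 2 ^ (j + 1) ≤ 2 ^ e := Nat.pow_le_pow_right (by norm_num) hj
  have hU := Ub_pos k
  have hUj := Ub_pos j
  obtain ⟨θ, hθ⟩ : ∃ θ : ℝ≥0∞, θ = ENNReal.ofReal (Kr * 2 ^ (k - j)) * ENNReal.ofReal A * x := ⟨_, rfl⟩
  have hW' : ∀ t, {g' | g' ∈ W ∧ RT (2 ^ (k + 4)) LFold t g'} = Fl.At (2 ^ (k + 4)) N W LFold t := by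
    intro t
    ext g
    exact ⟨fun hg => ⟨hWN hg.1, hg.1, hg.2⟩, fun hg => ⟨hg.2.1, hg.2.2⟩⟩
  have s1 : Rec8.sw (Fld.BrB b) (fun M => ⨆ n, vG (2 ^ (k + 4)) W F n (I ++ M)) ≤
      Rec8.sw (Fld.BrB b) (fun M => ∑' n : ℕ, ∑' r : ℕ, mu j n r * Rec8.sw (Brd n) (fun X =>
        Rec8.sw {P | P ∈ Irr r ∧ ∃ c : Bool, KRel (2 ^ (k + 4)) I P M ((!c) :: c :: X)} (fun _ => θ))) := by
    refine Rec8.sw_mono' fun M hM => ?_
    obtain ⟨m0, -, hM0⟩ := hM
    refine iSup_le fun n0 => ?_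
    unfold vG vA
    rw [hW']
    have e1 : Rec8.sw (Fl.At (2 ^ (k + 4)) N W LFold (I ++ M)) (sh F n0) =
        Rec8.sw (BrR (2 ^ (k + 4)) N) (fun g' => if g' ∈ Fl.At (2 ^ (k + 4)) N W LFold (I ++ M) then
          sh F n0 g' else 0) := by
      have e2 := Rec8.sw_and (BrR (2 ^ (k + 4)) N) (fun g' => g' ∈ Fl.At (2 ^ (k + 4)) N W LFold (I ++ M)) (sh F n0)
      refine Eq.trans ?_ (e2.trans ?_)
      · congr 1
        ext g'
        exact ⟨fun h => ⟨h.1, h⟩, fun h => h.2⟩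
      · refine Rec8.sw_congr fun g' _ => ?_
        split_ifs <;> rfl
    rw [e1]
    refine (inR (j := j) (by omega) _).trans ?_
    refine ENNReal.tsum_le_tsum fun n => ENNReal.tsum_le_tsum fun r => ?_
    by_cases hmu : mu j n r = 0
    · rw [hmu, zero_mul, zero_mul]
    obtain ⟨hm1, hm2⟩ := mu_ne hmu
    refine mul_le_mul_right (Rec8.sw_mono' fun X hX => ?_) _
    rw [Rec8.sw_and]
    refine Rec8.sw_mono' fun P hP => ?_
    by_cases hK : P ∈ Fl.KP1 (2 ^ (k + 4)) I M X r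
    · refine le_trans ?_ (le_of_eq (if_pos hK.2).symm)
      by_cases hnr : n + r ≤ 2 ^ e
      · have h9 := hrest k e j N n r A x F X P W hF hΦ hj he hWN hW hw hX hP hnr (n0 - (X.length + P.length + 1))
        rw [hθ]
        refine le_trans ?_ h9
        rw [Rec8.sw_ind, Rec8.sw_ind]
        refine ENNReal.tsum_le_tsum fun Z => ?_
        by_cases hZ : Z ∈ {Z | Z ∈ BU ∧ X ++ (P ++ Z) ∈ BrR (2 ^ (k + 4)) N}
        · rw [if_pos hZ]
          by_cases h1 : X ++ (P ++ Z) ∈ Fl.At (2 ^ (k + 4)) N W LFold (I ++ M)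
          · rw [if_pos h1, if_pos (show Z ∈ {Z | Z ∈ BU ∧ X ++ (P ++ Z) ∈ W} from ⟨hZ.1, h1.2.1⟩)]
            refine mul_le_mul_right ?_ _
            unfold sh
            by_cases h2 : (X ++ (P ++ Z)).length + 1 ≤ n0
            · have h3 : Z.length ≤ n0 - (X.length + P.length + 1) := by
                rw [List.length_append, List.length_append] at h2
                omega
              have h4 : n0 - ((X ++ (P ++ Z)).length + 1) = n0 - (X.length + P.length + 1) - Z.length := by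
                rw [List.length_append, List.length_append]
                omega
              rw [if_pos h2, if_pos h3, h4]
              exact hF _ X ⟨n, hX⟩ _
            · rw [if_neg h2]
              exact zero_le
          · rw [if_neg h1, mul_zero]
            exact zero_le
        · rw [if_neg hZ]
          exact zero_le
      · refine le_trans ((Rec8.sw_mono' (Ψ := fun _ => 0) fun Z hZ => ?_).trans (le_of_eq (Rec8.sw_zero _))) zero_le
        rw [if_neg]
        intro hAt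
        exact hnr (hw.hd n r X P Z hX hP hZ.1 hAt.2.1 hm1 hm2)
    · refine le_trans ((Rec8.sw_mono' (Ψ := fun _ => 0) fun Z hZ => ?_).trans (le_of_eq (Rec8.sw_zero _))) zero_le
      rw [if_neg]
      intro hAt
      exact hK (Fl.At_K RNb_LFold hIi.1 hM0 hX hP hZ.1 hAt)
  have s2 := fold_sum (2 ^ (k + 4)) b j I (mu j) (mb j) (fun a n r => mu_le_mb) (fun n r => mu_eq_zero)
    (fun a r => mb_mono (Nat.le_succ a) r) (fun _ _ => θ)
  refine s1.trans (s2.trans ?_)
  have t2 := k1h (2 ^ (k + 4)) k j b I le_rfl (by omega) hb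
  obtain ⟨S, hS⟩ : ∃ S, S = Sw (2 ^ (k + 4)) k b I := ⟨_, rfl⟩
  rw [← hS] at t2 ⊢
  have s4 : ∑ a ∈ range (j + 2), ∑' r : ℕ, mb j a r * Rec8.sw (Irr r) (fun P => KT (2 ^ (k + 4)) b I a P * θ) =
      θ * ∑ a ∈ range (j + 2), ∑' r : ℕ, mb j a r * Rec8.sw (Irr r) (fun P => KT (2 ^ (k + 4)) b I a P) := by
    rw [Finset.mul_sum]
    refine Finset.sum_congr rfl fun a _ => ?_
    rw [← ENNReal.tsum_mul_left]
    refine tsum_congr fun r => ?_
    have e1 : Rec8.sw (Irr r) (fun P => KT (2 ^ (k + 4)) b I a P * θ) =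
        Rec8.sw (Irr r) (fun P => θ * KT (2 ^ (k + 4)) b I a P) := Rec8.sw_congr fun P _ => mul_comm _ _
    rw [e1, Rec8.sw_mul_left, mul_left_comm]
  calc 16 * ∑ a ∈ range (j + 2), ∑' r : ℕ, mb j a r * Rec8.sw (Irr r) (fun P => KT (2 ^ (k + 4)) b I a P * θ)
      ≤ 16 * (θ * (ENNReal.ofReal (K1 / Ub j) * S)) := by
        rw [s4]
        exact mul_le_mul_right (mul_le_mul_right t2 _) _
    _ = ENNReal.ofReal (16 * (Kr * 2 ^ (k - j) * A * (K1 / Ub j))) * x * S := by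
        have e16 : ENNReal.ofReal 16 = 16 := by simp
        rw [ENNReal.ofReal_mul (p := 16) (by norm_num), ENNReal.ofReal_mul (p := Kr * 2 ^ (k - j) * A) (by positivity),
          ENNReal.ofReal_mul (p := Kr * 2 ^ (k - j)) (by positivity), e16, hθ]
        ring
    _ ≤ _ := by
        refine mul_le_mul_left (mul_le_mul_left (ENNReal.ofReal_le_ofReal ?_) _) _
        have h5 := Fl.Ub_ratio (show j ≤ k by omega)
        have h6 : 0 ≤ 16 * (Kr * 2 ^ (k - j) * A * K1) := by positivity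
        have h7 : 1 / Ub j ≤ 2 ^ (k - j) / Ub k := by
          rw [div_le_div_iff₀ hUj hU]
          linarith
        calc 16 * (Kr * 2 ^ (k - j) * A * (K1 / Ub j)) = 16 * (Kr * 2 ^ (k - j) * A * K1) * (1 / Ub j) := by ring
          _ ≤ 16 * (Kr * 2 ^ (k - j) * A * K1) * (2 ^ (k - j) / Ub k) := mul_le_mul_of_nonneg_left h7 h6
          _ = 16 * (Kr * K1) * ((2 ^ (k - j) * 2 ^ (k - j)) * (A / Ub k)) := by ring
          _ = _ := by rw [← mul_pow]; norm_num

end EN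

end HexObs
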