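import Pool.Agent.NTA.SpWin
import Pool.Agent.EN.Defs

/-!
EN, E2: window classes at a fixed number of letters. EZX: the free middle part of a leaf of W with a given number of letters
has a small weight; Win: no giants over the two windows. The rest of a leaf behind the head: rest_x.
-/

set_option autoImplicit false

namespace HexObs

namespace EN

open Finset TS SDN SDN.T2 NTW

open scoped ENNReal

open Rec8 (mb)

open KJ SH DW DO TG SE

/-- the free middle part, with a given number of letters, of a leaf of W has a small weight -/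
def EZX (D N e : ℕ) (W : Set (List Bool)) (A : ℝ) : Prop := ∀ M ∈ BU, ∀ P1 ∈ IU, ∀ P2 ∈ IU, ∀ Q ∈ BU,
  hgt M + hgt P1 ≤ 2 ^ e → hgt P2 + hgt Q ≤ 2 ^ e → ∀ b : ℕ,
  ∑' h : ℕ, gf {Z | Z ∈ Brd h ∧ Z.length = b ∧ M ++ (P1 ++ (Z ++ (P2 ++ Q))) ∈ W ∧
    M ++ (P1 ++ (Z ++ (P2 ++ Q))) ∈ BrR D N} ≤ ENNReal.ofReal A

/-- no giants over the windows [2^j, 2^(j+1)) near the head and near the tail -/
structure Win (e j : ℕ) (W : Set (List Bool)) : Prop where
  hd : ∀ (n r : ℕ) (X P Z : List Bool), X ∈ Brd n → P ∈ Irr r → Z ∈ BU → X ++ (P ++ Z) ∈ W →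
    n < 2 ^ (j + 1) → 2 ^ j < n + r → n + r ≤ 2 ^ e
  tl : ∀ (m r : ℕ) (Z P M : List Bool), Z ∈ BU → P ∈ Irr r → M ∈ Brd m → Z ++ (P ++ M) ∈ W →
    m < 2 ^ (j + 1) → 2 ^ j < m + r → m + r ≤ 2 ^ e

lemma EZX.mono {D N e : ℕ} {W : Set (List Bool)} {A A' : ℝ} (h : EZX D N e W A) (hA : A ≤ A') : EZX D N e W A' :=
  fun M hM P1 hP1 P2 hP2 Q hQ h1 h2 b => (h M hM P1 hP1 P2 hP2 Q hQ h1 h2 b).trans (ENNReal.ofReal_le_ofReal hA)

/-- sums over words by the number of letters -/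
lemma len_sum (S : Set (List Bool)) (A : ℝ≥0∞) (hS : ∀ l : ℕ, gf {Z | Z ∈ S ∧ Z.length = l} ≤ A) (g : ℕ → ℝ≥0∞) :
    Rec8.sw S (fun Z => g Z.length) ≤ A * ∑' l : ℕ, g l := by
  classical
  have h1 : Rec8.sw S (fun Z => g Z.length) = ∑' l : ℕ, g l * gf {Z | Z ∈ S ∧ Z.length = l} := by
    have h2 : ∀ l : ℕ, g l * gf {Z | Z ∈ S ∧ Z.length = l} =
        ∑' Z : List Bool, if Z ∈ S ∧ Z.length = l then wE Z * g l else 0 := by
      intro l
      rw [← Rec8.sw_one, ← Rec8.sw_mul_left, Rec8.sw_ind]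
      refine tsum_congr fun Z => ?_
      by_cases hZ : Z ∈ S ∧ Z.length = l
      · rw [if_pos (show Z ∈ {Z | Z ∈ S ∧ Z.length = l} from hZ), if_pos hZ, mul_one]
      · rw [if_neg (show ¬ Z ∈ {Z | Z ∈ S ∧ Z.length = l} from hZ), if_neg hZ]
    simp only [h2]
    rw [ENNReal.tsum_comm, Rec8.sw_ind]
    refine tsum_congr fun Z => ?_
    by_cases hZ : Z ∈ S
    · rw [if_pos hZ, tsum_eq_single Z.length, if_pos ⟨hZ, rfl⟩]
      intro l hl
      exact if_neg fun h => hl h.2.symm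
    · rw [if_neg hZ]
      have h3 : ∀ l : ℕ, (if Z ∈ S ∧ Z.length = l then wE Z * g l else 0) = 0 := fun l => if_neg fun h => hZ h.1
      simp only [h3, tsum_zero]
  rw [h1, ← ENNReal.tsum_mul_left]
  refine ENNReal.tsum_le_tsum fun l => ?_
  rw [mul_comm]
  exact mul_le_mul_left (hS l) _

/-- reflection of a sum -/
lemma refl_sum (f : ℕ → ℝ≥0∞) (L : ℕ) : ∑' l : ℕ, (if l ≤ L then f (L - l) else 0) ≤ ∑' c : ℕ, f c := by
  have h1 : ∑' l : ℕ, (if l ≤ L then f (L - l) else 0) = ∑ l ∈ range (L + 1), f (L - l) := by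
    rw [tsum_eq_sum (s := range (L + 1))]
    · refine Finset.sum_congr rfl fun l hl => ?_
      rw [Finset.mem_range] at hl
      exact if_pos (by omega)
    · intro l hl
      rw [Finset.mem_range] at hl
      exact if_neg (by omega)
  have h2 := Finset.sum_range_reflect f (L + 1)
  simp only [Nat.add_sub_cancel] at h2
  rw [h1, h2]
  exact ENNReal.sum_le_tsum _

/-- the middle parts of a leaf, a given number of letters behind -/
lemma mid_x {D N e n r r' m : ℕ} {A : ℝ} {W : Set (List Bool)} (hWN : W ⊆ BrR D N) (hW : EZX D N e W A)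
    {X P P' M : List Bool} (hX : X ∈ Brd n) (hP : P ∈ Irr r) (hP' : P' ∈ Irr r') (hM : M ∈ Brd m)
    (h1 : n + r ≤ 2 ^ e) (h2 : m + r' ≤ 2 ^ e) (f : ℕ → ℝ≥0∞) (L : ℕ) :
    Rec8.sw {Z | (∃ h, h ≤ N ∧ Z ∈ Brd h) ∧ X ++ (P ++ (Z ++ (P' ++ M))) ∈ W}
      (fun Z => if Z.length ≤ L then f (L - Z.length) else 0) ≤ ENNReal.ofReal A * ∑' c : ℕ, f c := by
  refine (len_sum _ (ENNReal.ofReal A) (fun l => ?_) (fun l => if l ≤ L then f (L - l) else 0)).trans
    (mul_le_mul_right (refl_sum f L) _)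
  have e1 := hW X ⟨n, hX⟩ P ⟨r, hP⟩ P' ⟨r', hP'⟩ M ⟨m, hM⟩ (by rw [hgt_eq hX, hgt_eq hP.1]; omega)
    (by rw [hgt_eq hP'.1, hgt_eq hM]; omega) l
  refine le_trans ?_ e1
  have e2 : {Z | Z ∈ {Z | (∃ h, h ≤ N ∧ Z ∈ Brd h) ∧ X ++ (P ++ (Z ++ (P' ++ M))) ∈ W} ∧ Z.length = l} =
      {Z | Z ∈ {Z | ∃ h, h ≤ N ∧ Z ∈ Brd h} ∧ (Z.length = l ∧ X ++ (P ++ (Z ++ (P' ++ M))) ∈ W)} := by
    ext Z
    exact ⟨fun h => ⟨h.1.1, h.2, h.1.2⟩, fun h => ⟨⟨h.1, h.2.2⟩, h.2.1⟩⟩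
  rw [e2]
  refine (NTA.SP.gf_heights _ _ ?_).trans (ENNReal.tsum_le_tsum fun z => gf_mono ?_)
  · rintro Z ⟨z, -, hZ⟩
    exact ⟨z, hZ⟩
  · rintro Z ⟨h3, h4, h5⟩
    exact ⟨h3, h4, h5, hWN h5⟩

/-- **the rest of a leaf of W behind the head X and the piece P, a given number of letters** -/
theorem rest_x (hA : SsA) : ∃ K : ℝ, 1 ≤ K ∧ ∀ (k e j N n r : ℕ) (A : ℝ) (x : ℝ≥0∞) (F : ℕ → List Bool → ℝ≥0∞)
    (X P : List Bool) (W : Set (List Bool)), (∀ c, Hered (F c)) → DomJ k x (tot F) → j + 1 ≤ e → e ≤ k →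
    W ⊆ BrR (2 ^ (k + 4)) N → EZX (2 ^ (k + 4)) N e W A → Win e j W → X ∈ Brd n → P ∈ Irr r → n + r ≤ 2 ^ e →
    ∀ L : ℕ, Rec8.sw {Z | Z ∈ BU ∧ X ++ (P ++ Z) ∈ W} (fun Z => if Z.length ≤ L then F (L - Z.length) (P ++ Z) else 0) ≤
      ENNReal.ofReal (K * 2 ^ (k - j)) * ENNReal.ofReal A * x := by
  classical
  obtain ⟨K2, hK2, hend⟩ := endsJ hA
  refine ⟨K2, hK2, fun k e j N n r A x F X P W hF hΦ hj he hWN hW hw hX hP hnr L => ?_⟩
  have hp4 : 2 ^ (k + 4) = 16 * 2 ^ k := by ring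
  have hp0 : 1 ≤ 2 ^ k := Nat.one_le_two_pow
  have hpe : 2 ^ e ≤ 2 ^ k := Nat.pow_le_pow_right (by norm_num) he
  have hpj : 2 ^ (j + 1) ≤ 2 ^ e := Nat.pow_le_pow_right (by norm_num) hj
  have hPb : P ∈ Brd r := hP.1
  -- the function of the rest
  obtain ⟨G, hG⟩ : ∃ G : List Bool → ℝ≥0∞, G = fun Z => if X ++ (P ++ Z) ∈ W then
    (if Z.length ≤ L then F (L - Z.length) (P ++ Z) else 0) else 0 := ⟨_, rfl⟩
  have hGv : ∀ Z, G Z = if X ++ (P ++ Z) ∈ W then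
    (if Z.length ≤ L then F (L - Z.length) (P ++ Z) else 0) else 0 := fun Z => by rw [hG]
  have s0 : Rec8.sw {Z | Z ∈ BU ∧ X ++ (P ++ Z) ∈ W}
      (fun Z => if Z.length ≤ L then F (L - Z.length) (P ++ Z) else 0) ≤
      Rec8.sw {Z | Z ∈ BU ∧ ∃ Y ∈ Brd n, Y ++ (P ++ Z) ∈ BrR (2 ^ (k + 4)) N} G := by
    rw [Rec8.sw_ind, Rec8.sw_ind]
    refine ENNReal.tsum_le_tsum fun Z => ?_
    by_cases hZ : Z ∈ {Z | Z ∈ BU ∧ X ++ (P ++ Z) ∈ W}
    · rw [if_pos hZ, if_pos (show Z ∈ {Z | Z ∈ BU ∧ ∃ Y ∈ Brd n, Y ++ (P ++ Z) ∈ BrR (2 ^ (k + 4)) N} from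
        ⟨hZ.1, X, hX, hWN hZ.2⟩), hGv, if_pos hZ.2]
    · rw [if_neg hZ]
      exact zero_le
  refine s0.trans ?_
  refine (outR (k := j) (by omega) hP G).trans ?_
  have hz : ∑' m : ℕ, mu j m r * Rec8.sw {M | M ∈ Brd m ∧ ∃ Y ∈ Brd n, Y ++ (P ++ M) ∈ BrR (2 ^ (k + 4)) N} G = 0 := by
    rw [ENNReal.tsum_eq_zero]
    intro m
    rcases Nat.lt_or_ge m (2 ^ (j + 1)) with hm | hm
    · have e : {M : List Bool | M ∈ Brd m ∧ ∃ Y ∈ Brd n, Y ++ (P ++ M) ∈ BrR (2 ^ (k + 4)) N} = ∅ := by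
        rw [Set.eq_empty_iff_forall_notMem]
        rintro M ⟨hM, Y, hY, H, h1, -, h3⟩
        have := Brd_height h3 (Brd_append hY (Brd_append hP.1 hM))
        omega
      rw [e]
      unfold Rec8.sw
      rw [tsum_empty, mul_zero]
    · rw [mu_eq_zero hm, zero_mul]
  rw [hz, zero_add]
  -- the pieces near the tail
  have hT : ∀ m r' : ℕ, mu j m r' * Rec8.sw {Z | ∃ h, h ≤ N ∧ Z ∈ Brd h} (fun Z => Rec8.sw (Irr r') (fun P' =>
      Rec8.sw {M | M ∈ Brd m ∧ ∃ Y ∈ Brd n, Y ++ (P ++ (Z ++ (P' ++ M))) ∈ BrR (2 ^ (k + 4)) N}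
        (fun M => G (Z ++ (P' ++ M))))) ≤
      ENNReal.ofReal A * (mu j m r' * Rec8.sw (Irr r') (fun P' => Rec8.sw (Brd m) (fun M => tot F (P' ++ M)))) := by
    intro m r'
    by_cases hmu : mu j m r' = 0
    · rw [hmu, zero_mul]
      exact zero_le
    obtain ⟨hm1, hm2⟩ := mu_ne hmu
    rw [mul_left_comm]
    refine mul_le_mul_right ?_ _
    calc Rec8.sw {Z | ∃ h, h ≤ N ∧ Z ∈ Brd h} (fun Z => Rec8.sw (Irr r') (fun P' =>
          Rec8.sw {M | M ∈ Brd m ∧ ∃ Y ∈ Brd n, Y ++ (P ++ (Z ++ (P' ++ M))) ∈ BrR (2 ^ (k + 4)) N}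
            (fun M => G (Z ++ (P' ++ M)))))
        ≤ Rec8.sw {Z | ∃ h, h ≤ N ∧ Z ∈ Brd h} (fun Z => Rec8.sw (Irr r') (fun P' =>
          Rec8.sw (Brd m) (fun M => G (Z ++ (P' ++ M))))) :=
          Rec8.sw_mono' fun Z _ => Rec8.sw_mono' fun P' _ => Rec8.sw_mono (fun t ht => ht.1) fun M _ => le_rfl
      _ = Rec8.sw (Irr r') (fun P' => Rec8.sw (Brd m) (fun M => Rec8.sw {Z | ∃ h, h ≤ N ∧ Z ∈ Brd h} (fun Z =>
          G (Z ++ (P' ++ M))))) := by
          rw [Rec8.sw_comm]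
          exact Rec8.sw_congr fun P' _ => Rec8.sw_comm _ _ _
      _ ≤ Rec8.sw (Irr r') (fun P' => Rec8.sw (Brd m) (fun M => ENNReal.ofReal A * tot F (P' ++ M))) := by
          refine Rec8.sw_mono' fun P' hP' => Rec8.sw_mono' fun M hM => ?_
          by_cases hmr : m + r' ≤ 2 ^ e
          · have hmid := mid_x hWN hW hX hP hP' hM hnr hmr (fun c => F c (P' ++ M)) (L - (P' ++ M).length)
            refine le_trans ?_ hmid
            rw [Rec8.sw_ind, Rec8.sw_ind]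
            refine ENNReal.tsum_le_tsum fun Z => ?_
            by_cases hZ : Z ∈ {Z | ∃ h, h ≤ N ∧ Z ∈ Brd h}
            · rw [if_pos hZ, hGv]
              by_cases h1 : X ++ (P ++ (Z ++ (P' ++ M))) ∈ W
              · rw [if_pos h1, if_pos (show Z ∈ {Z | (∃ h, h ≤ N ∧ Z ∈ Brd h) ∧
                  X ++ (P ++ (Z ++ (P' ++ M))) ∈ W} from ⟨hZ, h1⟩)]
                refine mul_le_mul_right ?_ _
                by_cases h2 : (Z ++ (P' ++ M)).length ≤ L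
                · have h3 : Z.length ≤ L - (P' ++ M).length := by
                    rw [List.length_append] at h2
                    omega
                  have h4 : L - (Z ++ (P' ++ M)).length = L - (P' ++ M).length - Z.length := by
                    rw [List.length_append]
                    omega
                  rw [if_pos h2, if_pos h3, h4]
                  obtain ⟨z, -, hZ1⟩ := hZ
                  rw [← List.append_assoc P Z]
                  exact hF _ _ ⟨_, Brd_append hPb hZ1⟩ _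
                · rw [if_neg h2]
                  exact zero_le
              · rw [if_neg h1, mul_zero]
                exact zero_le
            · rw [if_neg hZ]
              exact zero_le
          · have h0 : ∀ Z ∈ {Z | ∃ h, h ≤ N ∧ Z ∈ Brd h}, G (Z ++ (P' ++ M)) = 0 := by
              rintro Z ⟨z, -, hZ1⟩
              rw [hGv, if_neg]
              intro h1
              refine hmr (hw.tl m r' (X ++ (P ++ Z)) P' M ⟨_, Brd_append hX (Brd_append hPb hZ1)⟩ hP' hM ?_ hm1 hm2)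
              rw [List.append_assoc, List.append_assoc]
              exact h1
            rw [Rec8.sw_congr h0, Rec8.sw_zero]
            exact zero_le
      _ = _ := by
          rw [← Rec8.sw_mul_left]
          exact Rec8.sw_congr fun P' _ => Rec8.sw_mul_left _ _ _
  refine (ENNReal.tsum_le_tsum fun m => ENNReal.tsum_le_tsum fun r' => hT m r').trans ?_
  simp only [ENNReal.tsum_mul_left]
  have hE' : ∑' m : ℕ, ∑' r' : ℕ, mu j m r' * Rec8.sw (Irr r') (fun P' => Rec8.sw (Brd m) (fun M => tot F (P' ++ M))) ≤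
      ENNReal.ofReal (K2 * 2 ^ (k - j)) * x := by
    rw [ENNReal.tsum_comm]
    exact hend k j x (tot F) hΦ (by omega)
  calc ENNReal.ofReal A * ∑' m : ℕ, ∑' r' : ℕ, mu j m r' * Rec8.sw (Irr r') (fun P' => Rec8.sw (Brd m) (fun M =>
        tot F (P' ++ M))) ≤ ENNReal.ofReal A * (ENNReal.ofReal (K2 * 2 ^ (k - j)) * x) := mul_le_mul_right hE' _
    _ = _ := by ring

end EN

end HexObs
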