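import Pool.Agent.NTW.GNormX
import Pool.Agent.NTW.DmJ
import Pool.Agent.NTW.KernU

/-!
EN: the tall bridges without small backtracks in a window of rows have small norm, at every scale up to that of the rows.
-/

set_option autoImplicit false

namespace HexObs

namespace EN

open Finset TS SDN SDN.CN NTm NTW NTW.GX

open scoped ENNReal

/-- the norm of one window -/
theorem GW_low : ∃ Ka : ℝ, 1 ≤ Ka ∧ ∀ K : ℝ, Ka ≤ K → ∃ s : ℕ, 6 ≤ s ∧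
    ∀ (i0 kc J n k z : ℕ) (Φ : List Bool → ℝ≥0∞) (x : ℝ≥0∞), DX K K (2 ^ (kc + 4)) Φ x → i0 ≤ kc →
    k + 5 ≤ kc → n * 2 ^ (k + s) ≤ 2 ^ kc → k + s ≤ kc → 2 ≤ J → 15 ≤ z →
    xT (2 ^ (i0 + 4)) i0 (vA (2 ^ (i0 + 4)) (GW k kc (2 ^ (kc + J)) z) Φ) ≤
      ENNReal.ofReal ((K + K) * 4 ^ J / 4 ^ n * (Ub kc / Ub i0)) * x := by
  obtain ⟨C, δ, hInp⟩ := inp_exists
  obtain ⟨Ka, hKa, htot0⟩ := totH hInp
  obtain ⟨Kb, hKb, htwo0⟩ := two_scale
  obtain ⟨K2, hK2, hnA⟩ := nA hInp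
  refine ⟨Ka + Kb, by linarith, fun K0 hKK => ?_⟩
  have hK0 : 1 ≤ K0 := by linarith
  obtain ⟨K1, hK10⟩ : ∃ K1, K1 = K0 := ⟨_, rfl⟩
  have hK1 : 1 ≤ K1 := by rw [hK10]; exact hK0
  have htot : ∀ (D N k : ℕ) (Φ : List Bool → ℝ≥0∞), Hered Φ → 2 ^ (k + 4) ≤ D →
      Rec8.sw (BrR D N) Φ ≤ ENNReal.ofReal (K0 * UU N) * xT D k Φ := fun D N k Φ h1 h2 =>
    (htot0 D N k Φ h1 h2).trans (mul_le_mul_left (ENNReal.ofReal_le_ofReal
      (mul_le_mul_of_nonneg_right (by linarith) (Num2Aux.UU_pos N).le)) _)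
  have htwo : ∀ (D0 k0 D1 k1 E N : ℕ) (Φ : List Bool → ℝ≥0∞), Hered Φ → 2 ^ (k0 + 4) ≤ D0 →
      2 ^ (k1 + 4) ≤ D1 → D0 ≤ E → D1 ≤ E → E ≤ N →
      xT D0 k0 (vA D0 (BrR E N) Φ) ≤ ENNReal.ofReal (K1 * (UU N / Ub k0)) * xT D1 k1 Φ :=
    fun D0 k0 D1 k1 E N Φ h1 h2 h3 h4 h5 h6 =>
    (htwo0 D0 k0 D1 k1 E N Φ h1 h2 h3 h4 h5 h6).trans (mul_le_mul_left (ENNReal.ofReal_le_ofReal
      (mul_le_mul_of_nonneg_right (by rw [hK10]; linarith) (div_nonneg (Num2Aux.UU_pos N).le (Ub_pos k0).le))) _)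
  obtain ⟨s, hs, hnum⟩ := link_num (K0 + K1) K2 (by linarith) hK2
  refine ⟨s, hs, ?_⟩
  intro i0 kc J n k z Φ x hΦX hi0 hk hn hks hJ hz
  have hΦ : HerD (2 ^ (kc + 4)) Φ := hΦX.her
  rw [show K0 + K0 = K0 + K1 by rw [hK10]]
  have hΦX' : DX K0 K1 (2 ^ (kc + 4)) Φ x := by
    rw [hK10]
    exact hΦX
  obtain ⟨N, hN⟩ : ∃ N, N = 2 ^ (kc + J) := ⟨_, rfl⟩
  obtain ⟨D, hD⟩ : ∃ D, D = 2 ^ (kc + 4) := ⟨_, rfl⟩
  obtain ⟨c, hc⟩ : ∃ c, c = 2 ^ kc := ⟨_, rfl⟩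
  have hD16 : D = 16 * c := by
    rw [hD, hc, pow_add]
    ring
  have hc1 : 1 ≤ c := by
    rw [hc]
    exact Nat.one_le_two_pow
  rw [← hN]
  rw [← hD] at hΦ hΦX hΦX'
  obtain ⟨E0, hE0⟩ : ∃ E0, E0 = 2 ^ (i0 + 4) := ⟨_, rfl⟩
  have hE0D : E0 ≤ D := by
    rw [hE0, hD]
    exact Nat.pow_le_pow_right (by norm_num) (by omega)
  rw [← hE0]
  rcases Nat.lt_or_ge N ((z + 19) * c) with hzN | hzN
  · -- the set is empty
    have h0 : GW k kc N z = ∅ := by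
      ext g
      constructor
      · rintro ⟨h, h1, h2, -⟩
        rw [← hc] at h1
        omega
      · intro h
        exact h.elim
    have h1 : ∀ t, vA E0 (GW k kc N z) Φ t = 0 := by
      intro t
      unfold vA
      rw [Rec8.sw_ind, ENNReal.tsum_eq_zero]
      intro g
      rw [if_neg]
      rintro ⟨h, -⟩
      rw [h0] at h
      exact h
    refine xT_le fun b I _ _ => ?_
    simp only [h1]
    rw [Rec8.sw_zero]
    exact zero_le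
  -- numbers
  have z19 : (z + 19) * c = z * c + 19 * c := by ring
  have z1 : (z + 1) * c = z * c + c := by ring
  have z3 : (z + 3) * c = z * c + 3 * c := by ring
  have hzc : 15 * c ≤ z * c := Nat.mul_le_mul_right _ hz
  have hUk := Ub_pos kc
  have hUN : 0 < UU N := Num2Aux.UU_pos _
  have hnA' : ∀ (i : ℕ) (Ψ : List Bool → ℝ≥0∞), Hered Ψ → xT (2 ^ (i + 4)) i (vA (2 ^ (i + 4)) (BrR (2 ^ (i + 4)) (2 ^ (i + 4 + 1))) Ψ) ≤
      ENNReal.ofReal (32 * K2) * xT (2 ^ (i + 4)) i Ψ := by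
    intro i Ψ hΨ
    have h1 := hnA (2 ^ (i + 4)) (2 ^ (i + 4 + 1)) i LFold 32 Ψ hΨ RNb_LFold le_rfl (by norm_num) (by
      have h2 := UU_ratio_up i 5
      have e : (32 : ℝ) = 2 ^ 5 := by norm_num
      rw [e]
      exact h2)
    rw [mul_comm K2 32] at h1
    exact h1
  have hlk : 0 ≤ lk k K2 := lk_nonneg k hK2
  have hnum1 : (K0 + K1) * UU (4 * 2 ^ (k + s)) * (64 * lk k K2) ≤ 2 ^ (k + s) := by
    refine le_trans ?_ (hnum k)
    have hU4 : 0 < UU (4 * 2 ^ (k + s)) := Num2Aux.UU_pos _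
    apply mul_le_mul_of_nonneg_left _ (by positivity)
    show 64 * lk k K2 ≤ 84 * lk k K2
    linarith
  have hPV := PVX_all hK0 hK1 hK2 htot htwo hnA' (k := k) (s := s) (E := D) (N := N) (D := D) hs
    (by rw [hD]; exact Nat.pow_le_pow_right (by norm_num) (by omega)) le_rfl (by omega) hnum1 hΦX'
    (M := 64 * ((K0 + K1) * UU N)) le_rfl n
  have hstp := stp_GW (s := s) (N := N) (z := z) hk hn
  rw [← hD, ← hc] at hstp
  obtain ⟨W, hW⟩ : ∃ W, W = VW k s D N n := ⟨_, rfl⟩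
  obtain ⟨X, hX⟩ : ∃ X, X = BrR ((z + 1) * c) ((z + 3) * c) := ⟨_, rfl⟩
  rw [← hW, ← hX] at hstp
  obtain ⟨m, hm⟩ : ∃ m, m = 64 * ((K0 + K1) * UU N) / 4 ^ n := ⟨_, rfl⟩
  have hm0 : 0 ≤ m := by rw [hm]; positivity
  have hcard : (((z + 2) * c - (z + 1) * c : ℕ) : ℝ≥0∞) = 2 ^ kc := by
    have : (z + 2) * c - (z + 1) * c = 2 ^ kc := by
      have z2 : (z + 2) * c = z * c + 2 * c := by ring
      omega
    rw [this]
    push_cast
    rfl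
  have ih1 : ∀ i, i ≤ k → xT (2 ^ (i + 4)) i (vA (2 ^ (i + 4)) W Φ) ≤ ENNReal.ofReal (m / Ub i) * x := by
    intro i hi
    rw [hW, hm]
    exact hPV.near i hi
  have ih2 : Rec8.sw W Φ ≤ ENNReal.ofReal m * x := by
    rw [hW, hm]
    exact hPV.free
  have hK : 0 ≤ (K0 + K1) * UU N := by positivity
  have hi4 : ∀ i, i ≤ k → 2 ^ (i + 4) ≤ D := fun i hi => by
    rw [hD]
    exact Nat.pow_le_pow_right (by norm_num) (by omega)
  have hU3 : UU ((z + 3) * c) ≤ UU N := UU_mono (by omega)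
  have hU30 : 0 < UU ((z + 3) * c) := Num2Aux.UU_pos _
  -- the final number
  have hfin : (K0 + K1) * UU N * lk k K2 * m ≤ 2 ^ kc * ((K0 + K1) * 4 ^ J / 4 ^ n * Ub kc) := by
    obtain ⟨q, hq⟩ : ∃ q, kc + J = k + s + 2 + q := ⟨kc + J - (k + s + 2), by omega⟩
    have h1 : UU N ≤ 2 ^ q * UU (4 * 2 ^ (k + s)) := by
      have h2 := UU_ratio_up (k + s + 2) q
      have e : 4 * 2 ^ (k + s) = 2 ^ (k + s + 2) := by
        rw [pow_add _ (k + s) 2]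
        ring
      rw [e, hN, hq]
      exact h2
    have h2 : UU N ≤ 2 ^ J * Ub kc := by
      rw [hN]
      exact UU_ratio_up kc J
    have h3 : (K0 + K1) * UU N * (64 * lk k K2) ≤ 2 ^ q * 2 ^ (k + s) := by
      calc (K0 + K1) * UU N * (64 * lk k K2) ≤ (K0 + K1) * (2 ^ q * UU (4 * 2 ^ (k + s))) * (64 * lk k K2) := by gcongr
        _ = 2 ^ q * ((K0 + K1) * UU (4 * 2 ^ (k + s)) * (64 * lk k K2)) := by ring
        _ ≤ _ := by gcongr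
    have h4 : (2 : ℝ) ^ q * 2 ^ (k + s) ≤ 2 ^ kc * 2 ^ J := by
      rw [← pow_add, ← pow_add, hq]
      exact pow_le_pow_right₀ (by norm_num) (by omega)
    calc (K0 + K1) * UU N * lk k K2 * m = ((K0 + K1) * UU N * (64 * lk k K2)) * ((K0 + K1) * UU N / 4 ^ n) := by
          rw [hm]
          ring
      _ ≤ (2 ^ kc * 2 ^ J) * ((K0 + K1) * (2 ^ J * Ub kc) / 4 ^ n) := by
          refine mul_le_mul (h3.trans h4) ?_ (by positivity) (by positivity)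
          gcongr
      _ = _ := by
          have e : (4 : ℝ) ^ J = 2 ^ J * 2 ^ J := by
            rw [← mul_pow]
            norm_num
          rw [e]
          ring
  have hc0 : (2 : ℝ≥0∞) ^ kc ≠ 0 := by positivity
  have hct : (2 : ℝ≥0∞) ^ kc ≠ ⊤ := ENNReal.pow_ne_top (by norm_num)
  have hUi := Ub_pos i0
  · have hstep : ∀ t, 2 ^ kc * vA E0 (GW k kc N z) Φ t ≤
        vA E0 X (fun _ => 257 * Rec8.sw W Φ) t + ∑ j ∈ Ico 4 (k + 5), 2 ^ (j + 1) * vA E0 X (ZZ j W Φ) t := by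
      intro t
      have h0 := NTm.step_avg hstp hΦ (fun g => RT E0 LFold t g)
        (fun x y ⟨Z, z1, z2, z3⟩ => ⟨Z, z1, z2, LFold_pre z3⟩)
        (fun x y z hx ⟨Z, z1, z2, z3⟩ => ⟨Z, z1, z2, LFold_fst hx z3⟩)
      rw [hcard] at h0
      exact h0
    have h1 : 2 ^ kc * xT E0 i0 (vA E0 (GW k kc N z) Φ) ≤
        xT E0 i0 (vA E0 X (fun _ => 257 * Rec8.sw W Φ)) +
        ∑ j ∈ Ico 4 (k + 5), 2 ^ (j + 1) * xT E0 i0 (vA E0 X (ZZ j W Φ)) := by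
      have h2 : vA E0 (GW k kc N z) Φ = fun t => (2 ^ kc)⁻¹ * (2 ^ kc * vA E0 (GW k kc N z) Φ t) := by
        funext t
        rw [← mul_assoc, ENNReal.inv_mul_cancel hc0 hct, one_mul]
      have h3 : xT E0 i0 (vA E0 (GW k kc N z) Φ) ≤ (2 ^ kc)⁻¹ *
          xT E0 i0 (fun t => 2 ^ kc * vA E0 (GW k kc N z) Φ t) := by
        conv_lhs => rw [h2]
        exact xT_smul _ _ _ _
      calc 2 ^ kc * xT E0 i0 (vA E0 (GW k kc N z) Φ) ≤
            2 ^ kc * ((2 ^ kc)⁻¹ * xT E0 i0 (fun t => 2 ^ kc * vA E0 (GW k kc N z) Φ t)) := by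
            gcongr
        _ = xT E0 i0 (fun t => 2 ^ kc * vA E0 (GW k kc N z) Φ t) := by
            rw [← mul_assoc, ENNReal.mul_inv_cancel hc0 hct, one_mul]
        _ ≤ _ := by
            refine (xT_mono hstep).trans ((xT_add _ _ _ _).trans (add_le_add le_rfl ?_))
            refine (NTW.xT_sum _ _ _ _).trans (Finset.sum_le_sum fun j _ => ?_)
            exact xT_smul _ _ _ _
    apply le_of_mul (k := kc) (s := 0)
    refine h1.trans ?_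
    have h5 := link (k := k) (W := W) (Φ := Φ) (x := x) (m := m) (K1 := (K0 + K1) * UU N) (K2 := K2)
      (κ := 1 / Ub i0) hm0 hK hK2 (by positivity) ih1 ih2 hnA'
      (X := xT E0 i0 (vA E0 X (fun _ => 257 * Rec8.sw W Φ)))
      (Z := fun j => xT E0 i0 (vA E0 X (ZZ j W Φ))) ?_ ?_
    · refine h5.trans (fin_link ?_)
      have h6 : (K0 + K1) * UU N * lk k K2 * (m * (1 / Ub i0)) = (K0 + K1) * UU N * lk k K2 * m / Ub i0 := by ring
      rw [h6, div_le_iff₀ hUi]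
      refine hfin.trans (le_of_eq ?_)
      rw [add_zero]
      field_simp
    · rw [hX]
      refine (htwo E0 i0 D kc ((z + 1) * c) ((z + 3) * c) _ (fun _ _ _ => le_rfl) (by rw [hE0]) (by rw [hD])
        (by omega) (by omega) (by omega)).trans ?_
      refine mul_le_mul' (ENNReal.ofReal_le_ofReal ?_) (NTW.xT_const D kc (257 * Rec8.sw W Φ))
      rw [mul_div_assoc', mul_one_div]
      apply div_le_div_of_nonneg_right _ hUi.le
      exact mul_le_mul (by linarith) hU3 hU30.le (by positivity)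
    · intro j hj
      rw [hX]
      refine (htwo E0 i0 (2 ^ (j + 4)) j ((z + 1) * c) ((z + 3) * c) _ (hered_vA _ _ _) (by rw [hE0]) le_rfl
        (by omega) (by have := hi4 j hj; omega) (by omega)).trans ?_
      refine mul_le_mul_left (ENNReal.ofReal_le_ofReal ?_) _
      rw [mul_div_assoc', mul_one_div]
      apply div_le_div_of_nonneg_right _ hUi.le
      exact mul_le_mul (by linarith) hU3 hU30.le (by positivity)

/-- the norm of all windows -/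
theorem GU_low : ∃ Ka : ℝ, 1 ≤ Ka ∧ ∀ K : ℝ, Ka ≤ K → ∃ s : ℕ, 6 ≤ s ∧
    ∀ (i0 kc J n k : ℕ) (Φ : List Bool → ℝ≥0∞) (x : ℝ≥0∞), DX K K (2 ^ (kc + 4)) Φ x → i0 ≤ kc →
    k + 5 ≤ kc → n * 2 ^ (k + s) ≤ 2 ^ kc → k + s ≤ kc → 2 ≤ J →
    xT (2 ^ (i0 + 4)) i0 (vA (2 ^ (i0 + 4)) (GU k kc (2 ^ (kc + J))) Φ) ≤
      ENNReal.ofReal ((K + K) * 8 ^ J / 4 ^ n * (Ub kc / Ub i0)) * x := by
  obtain ⟨Ka, hKa, h'⟩ := GW_low
  refine ⟨Ka, hKa, fun K0 hK0 => ?_⟩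
  obtain ⟨s, hs, h⟩ := h' K0 hK0
  refine ⟨s, hs, ?_⟩
  intro i0 kc J n k Φ x hΦ hi h1 h2 h3 h4
  obtain ⟨K, hKK⟩ : ∃ K, K = K0 + K0 := ⟨_, rfl⟩
  have hK : 1 ≤ K := by linarith
  rw [← hKK]
  have hU := Ub_pos kc
  have hUi := Ub_pos i0
  have hcard : (((range (2 ^ J)).filter (fun z => 15 ≤ z)).card : ℝ) ≤ 2 ^ J := by
    have := Finset.card_filter_le (range (2 ^ J)) (fun z => 15 ≤ z)
    rw [Finset.card_range] at this
    exact_mod_cast this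
  have h8 : (8 : ℝ) ^ J = 2 ^ J * 4 ^ J := by
    rw [← mul_pow]
    norm_num
  have hstep : ∀ t, vA (2 ^ (i0 + 4)) (GU k kc (2 ^ (kc + J))) Φ t ≤
      ∑ z ∈ (range (2 ^ J)).filter (fun z => 15 ≤ z), vA (2 ^ (i0 + 4)) (GW k kc (2 ^ (kc + J)) z) Φ t := fun t =>
    GU_sw _ Φ
  refine (xT_mono hstep).trans ((NTW.xT_sum _ _ _ _).trans ?_)
  calc ∑ z ∈ (range (2 ^ J)).filter (fun z => 15 ≤ z), xT (2 ^ (i0 + 4)) i0 (fun t => vA (2 ^ (i0 + 4)) (GW k kc (2 ^ (kc + J)) z) Φ t)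
      ≤ ∑ z ∈ (range (2 ^ J)).filter (fun z => 15 ≤ z), ENNReal.ofReal (K * 4 ^ J / 4 ^ n * (Ub kc / Ub i0)) * x := by
        refine Finset.sum_le_sum fun z hz => ?_
        rw [hKK]
        exact h i0 kc J n k z Φ x hΦ hi h1 h2 h3 h4 (Finset.mem_filter.1 hz).2
    _ = ENNReal.ofReal ((((range (2 ^ J)).filter (fun z => 15 ≤ z)).card : ℝ) * (K * 4 ^ J / 4 ^ n * (Ub kc / Ub i0))) *
        x := by
        rw [Finset.sum_const, nsmul_eq_mul, ENNReal.ofReal_mul (Nat.cast_nonneg _), ENNReal.ofReal_natCast, mul_assoc]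
    _ ≤ _ := by
        refine mul_le_mul_left (ENNReal.ofReal_le_ofReal ?_) _
        rw [h8]
        calc (((range (2 ^ J)).filter (fun z => 15 ≤ z)).card : ℝ) * (K * 4 ^ J / 4 ^ n * (Ub kc / Ub i0)) ≤
              2 ^ J * (K * 4 ^ J / 4 ^ n * (Ub kc / Ub i0)) := by gcongr
          _ = _ := by ring

/-- bridges without small backtracks in a window of rows, seen at any lower scale -/
theorem gu_low : ∃ (K : ℝ) (s : ℕ), 1 ≤ K ∧ ∀ (i kc J b n : ℕ) (x : ℝ≥0∞) (Φ : List Bool → ℝ≥0∞), DmJ kc x Φ →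
    i ≤ kc → b + 5 ≤ kc → b + s ≤ kc → n * 2 ^ (b + s) ≤ 2 ^ kc → 2 ≤ J →
    xT (2 ^ (i + 4)) i (vA (2 ^ (i + 4)) (GU b kc (2 ^ (kc + J))) Φ) ≤
      ENNReal.ofReal (K * 8 ^ J / 4 ^ n * (Ub kc / Ub i)) * x := by
  obtain ⟨C, δ, hI⟩ := inp_exists
  obtain ⟨Ka, hKa, hG⟩ := GU_low
  obtain ⟨K1, hK1, h1⟩ := DmJ_dx hI (ssA hI) (ssThree hI)
  obtain ⟨K, hK⟩ : ∃ K, K = Ka + K1 := ⟨_, rfl⟩
  obtain ⟨s, hs, hG⟩ := hG K (by linarith)
  refine ⟨K + K, s, by linarith, fun i kc J b n x Φ hΦ hi hb hbs hn hJ => ?_⟩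
  exact hG i kc J n b Φ x ((h1 kc x Φ hΦ).le (by linarith) (by linarith)) hi hb hn hbs hJ

end EN

end HexObs
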