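import Pool.Agent.NT.Zig
import Pool.Agent.NT.GNorm

/-!
EN: the zig-zag of a bridge over a row. Every bridge whose window of rows has a backtrack is cut by a large zig-zag into two
tall bridges and a short one between them; one of the tall ones has no larger backtracks in a window of rows.
-/

set_option autoImplicit false

namespace HexObs

namespace EN

open Finset TS SDN SDN.ZZ NTm

/-- a cut at the row a, or a zig-zag over the row a -/
theorem zig_at {h a : ℕ} {g : List Bool} (hg : g ∈ Brd h) (ha : 1 ≤ a) (hah : a < h) :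
    (∃ t1 ∈ Brd a, ∃ t2 ∈ Brd (h - a), g = t1 ++ t2) ∨
    ∃ (u d w : ℕ) (G1 D G3 : List Bool), G1 ∈ Brd u ∧ D ∈ Brd d ∧ G3 ∈ Brd w ∧
      unf [G1, D, G3] = g ∧ LFold G1 D ∧ LFold D G3 ∧ a ≤ u ∧ u ≤ a + d ∧ 1 ≤ d ∧ h + d = u + w ∧ d ≤ u ∧
      u ≤ h ∧ (∀ i i', i ≤ i' → i' ≤ g.length → lev g i' ≤ 3 * a → lev g i ≤ 3 * u) ∧
      (∀ b α β, Win b α β g → Win b α β G1) ∧
      (∀ b α β, α ≤ β → u - d ≤ α → Win b α β g → Win b (α - (u - d)) (β - (u - d)) G3) := by
  obtain ⟨t1, t2, t3, t4⟩ := mem_Brd.1 hg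
  have hSA : g ∈ SA := ⟨fun _ _ _ => Set.mem_univ _, t2⟩
  have ha' : (1 : ℤ) ≤ a := by exact_mod_cast ha
  have hah' : (a : ℤ) < h := by exact_mod_cast hah
  obtain ⟨i, i1, i2, i3⟩ := exists_last (P := fun i => lev g i ≤ 3 * a) g.length (by
    show lev g 0 ≤ 3 * a
    rw [lev_zero]
    omega)
  have i4 : i < g.length := by
    rcases Nat.lt_or_ge i g.length with h' | h'
    · exact h'
    · exfalso
      have : i = g.length := by omega
      rw [this, t4] at i2
      omega
  have i5 : ∀ k, i < k → k ≤ g.length → 3 * (a : ℤ) < lev g k := fun k k1 k2 => not_le.1 (i3 k k1 k2)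
  -- the vertex i is a foot
  have hmod := lev_mod g i
  have hmod' := lev_mod g (i + 1)
  have hfoot : lev g i = 3 * a ∧ dx up g i = up := by
    have h1 := i5 (i + 1) (by omega) (by omega)
    rcases cl_cases (D := up) upd g i with h2 | h2
    · rcases step_pos (D := up) upd h2 with ⟨a1, a2⟩ | a2
      · have a2' : lev g (i + 1) = lev g i + 2 := a2
        refine ⟨?_, a1⟩
        by_cases hev : Even i
        · rw [if_pos hev] at hmod
          omega
        · rw [if_neg hev] at hmod
          rw [if_pos (Nat.even_add_one.2 hev)] at hmod'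
          omega
      · have a2' : lev g (i + 1) = lev g i - 1 := a2
        omega
    · rcases step_neg (D := up) upd h2 with ⟨a1, a2⟩ | a2
      · have a2' : lev g (i + 1) = lev g i - 2 := a2
        omega
      · have a2' : lev g (i + 1) = lev g i + 1 := a2
        exfalso
        by_cases hev : Even i
        · rw [if_pos hev] at hmod
          rw [if_neg (by rw [Nat.even_add_one]; simpa using hev)] at hmod'
          omega
        · rw [if_neg hev] at hmod
          rw [if_pos (Nat.even_add_one.2 hev)] at hmod'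
          omega
  obtain ⟨f1, f2⟩ := hfoot
  have i6 : 1 ≤ i := by
    by_contra hcon
    have : i = 0 := by omega
    rw [this, lev_zero] at f1
    omega
  obtain ⟨i', rfl⟩ : ∃ i', i = i' + 1 := ⟨i - 1, by omega⟩
  have f3 := pre_foot f2
  obtain ⟨p, -, p2, p3, p4⟩ := exists_last_max (lev g) (Nat.zero_le (i' + 1))
  rcases Nat.lt_or_ge p (i' + 1) with hp | hp
  swap
  · -- a cut
    left
    have hpi : p = i' + 1 := by omega
    rw [hpi] at p3
    have hcut : Cut g a := (cut_iff hg).2 ⟨i' + 1, by omega, f1, f2, fun k hk => by rw [← f1]; exact p3 k (Nat.zero_le _) hk, i5⟩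
    obtain ⟨s, u, b', s1, u1, hsu⟩ := hcut
    have hb' : b' = h - a := by
      have := Brd_append s1 u1
      rw [← hsu] at this
      have := Brd_height this hg
      omega
    rw [hb'] at u1
    exact ⟨s, s1, u, u1, hsu⟩
  · -- a zig-zag
    right
    have p5 : 3 * (a : ℤ) < lev g p := by
      have := p4 (i' + 1) hp le_rfl
      omega
    have p6 : p < i' := by
      rcases Nat.lt_or_ge p i' with h' | h'
      · exact h'
      · exfalso
        have : p = i' := by omega
        rw [this] at p5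
        omega
    have p7 : 1 ≤ p := by
      by_contra hcon
      have : p = 0 := by omega
      rw [this, lev_zero] at p5
      omega
    obtain ⟨e, rfl⟩ : ∃ e, p = e + 1 := ⟨p - 1, by omega⟩
    -- the bottom fold
    obtain ⟨q, q1, q2, q3, q4⟩ := exists_last_max (fun k => -lev g k) (a := e + 1) (n := g.length) (by omega)
    have q5 : lev g q < 3 * a := by
      have := q3 i' (by omega) (by omega)
      omega
    have q6 : q < i' + 1 := by
      by_contra hcon
      rcases Nat.lt_or_ge (i' + 1) q with h' | h'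
      · have := i5 q h' q2
        omega
      · have : q = i' + 1 := by omega
        rw [this] at q5
        omega
    have q7 : e + 1 < q := by
      rcases Nat.lt_or_ge (e + 1) q with h' | h'
      · exact h'
      · exfalso
        have : q = e + 1 := by omega
        rw [this] at q5
        omega
    have q0 : 0 ≤ lev g q := by
      have := (lev_range hg q2).1
      omega
    -- the first leaf
    obtain ⟨c, M, hM1, hM, hsplit, hB, hlen, hvx, hvq, -, -, hH⟩ := fold_step (q := g) (e := e + 1) (by omega) (by omega)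
      t2 (fun j j1 j2 => ⟨(lev_range hg (by omega)).2.2 j1, p3 j (Nat.zero_le _) (by omega)⟩)
      (p4 (e + 1 + 1) (by omega) (by omega)) (p4 (e + 1 + 2) (by omega) (by omega))
    have hlG : lst (g.take (e + 1 - 1) ++ [!c]) = !c := lst_append _ _
    -- the second leaf
    have hx : ∀ l, xD (-up) g l = -lev g l := by
      intro l
      unfold xD lev
      rw [ip_neg_right]
    have q8 : lev g (q + 1) > lev g q := by
      have := q4 (q + 1) (by omega) (by omega)
      omega
    have q9 : lev g (q + 2) > lev g q := by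
      have := q4 (q + 2) (by omega) (by omega)
      omega
    have hgap : lev g q + 4 ≤ lev g (e + 1) := by
      rw [hM] at p5 ⊢
      omega
    obtain ⟨c', d, r1, r2, r3, r4, r5, r6, r7, r8, r9, r10, r11, r12⟩ := leaf_core (D := -up) (dirs_neg upd) hSA (e := e)
      (e' := q) (by omega) (by omega)
      (by
        rw [hx, hx]
        have := p3 e (Nat.zero_le _) (by omega)
        omega)
      (fun k k1 k2 => by
        rw [hx, hx, hx]
        have h1 := p4 k k1 (by omega)
        have h2 := q3 k (by omega) (by omega)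
        constructor <;> omega)
      (by
        rw [hx, hx]
        omega)
      (by
        rw [hx, hx]
        omega)
      (by
        rw [hx, hx]
        omega)
    obtain ⟨D, hD⟩ : ∃ D, D = lw g (e + 1) q := ⟨_, rfl⟩
    rw [← hD] at r6 r7 r9 r10 r11 r12
    rw [hx, hx] at r5
    -- the third leaf
    obtain ⟨a', rfl⟩ : ∃ a', q = a' + 1 := ⟨q - 1, by omega⟩
    obtain ⟨w, w1, w2, w3, w4⟩ := last_leaf' hg (a := a') (by omega)
      (by
        have := q3 a' (by omega) (by omega)
        omega)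
      (fun k k1 k2 => by
        have := q4 k k1 k2
        omega)
    have e1 : lev g (a' + 2) = lev g (a' + 1) + 1 := pre_foot (t := g) (i := a' + 1) w3
    have hlevG : ∀ j, j ≤ e + 1 → lev (g.take (e + 1 - 1) ++ [!c]) j = lev g j := by
      intro j hj
      unfold lev
      rw [hvx j hj]
    refine ⟨M, d, w, g.take (e + 1 - 1) ++ [!c], D, g.drop (a' + 2), hB, r6, w1, ?_, ?_, ?_, ?_, ?_, r3, ?_, ?_, ?_, ?_, ?_, ?_⟩
    · have hsp : g.drop (e + 1 + 1) = D.dropLast ++ (!lst D) :: (!lst D) :: g.drop (a' + 1 + 1) := by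
        have hl : (g.take (e + 2)).length = e + 2 := by
          rw [List.length_take]
          omega
        conv_lhs => rw [r10]
        rw [List.drop_append_of_le_length (by omega), List.drop_of_length_le (by omega), List.nil_append]
      show (g.take (e + 1 - 1) ++ [!c]).dropLast ++ (!lst (g.take (e + 1 - 1) ++ [!c])) ::
        (!lst (g.take (e + 1 - 1) ++ [!c])) :: (D.dropLast ++ (!lst D) :: (!lst D) :: g.drop (a' + 2)) = g
      rw [hlG, Bool.not_not, List.dropLast_concat, ← hsp, ← hsplit]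
    · show Hang _ (lst _) D
      rw [hlG]
      apply hH
      intro k hk
      refine ⟨by omega, ?_⟩
      rw [r9 k hk, ← hvq]
    · exact r12 _ fun k hk => by
        rw [List.length_drop] at hk
        exact ⟨by omega, rfl⟩
    · have : (a : ℤ) ≤ M := by omega
      exact_mod_cast this
    · have : (M : ℤ) ≤ a + d := by omega
      exact_mod_cast this
    · omega
    · omega
    · have := (lev_range hg (i := e + 1) (by omega)).2.1
      omega
    · intro j j' j1 j2 j3
      rw [← hM]
      refine p3 j (Nat.zero_le _) ?_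
      by_contra hcon
      have := i5 j' (by omega) j2
      omega
    · intro b α β hW j j' j1 j2 j3 j4
      rw [hlen] at j2
      rw [hlevG j' j2] at j3 j4 ⊢
      rw [hlevG j (by omega)]
      exact hW j j' j1 (by omega) j3 j4
    · intro b α β hαβ hα hW j j' j1 j2 j3 j4
      rw [List.length_drop] at j2
      rw [w4] at j3 j4
      rw [w4, w4]
      have h1 := hW (a' + 2 + j) (a' + 2 + j') (by omega) (by omega) (by omega) (by omega)
      omega

/-- a backtrack that ends in the window gives a large zig-zag -/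
theorem zig_of_not_win {h b α β : ℕ} {g : List Bool} (hg : g ∈ Brd h) (hα : 1 ≤ α) (hβ : β < h) (hb : 1 ≤ b)
    (hW : ¬ Win b α β g) :
    ∃ (a u d w : ℕ) (G1 D G3 : List Bool), α ≤ a ∧ a ≤ β ∧ G1 ∈ Brd u ∧ D ∈ Brd d ∧ G3 ∈ Brd w ∧
      unf [G1, D, G3] = g ∧ LFold G1 D ∧ LFold D G3 ∧ a ≤ u ∧ u ≤ a + d ∧ 2 ^ b ≤ d + 1 ∧ h + d = u + w ∧ d ≤ u ∧
      u ≤ h ∧ (∀ b α β, Win b α β g → Win b α β G1) ∧
      (∀ b α β, α ≤ β → u - d ≤ α → Win b α β g → Win b (α - (u - d)) (β - (u - d)) G3) := by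
  unfold Win at hW
  push Not at hW
  obtain ⟨i, i', h1, h2, h3, h4, h5⟩ := hW
  have hR := RR_ge hb
  obtain ⟨a, ha⟩ : ∃ a : ℕ, a = ((lev g i' + 2) / 3).toNat := ⟨_, rfl⟩
  have ha1 : lev g i' ≤ 3 * (a : ℤ) := by omega
  have ha2 : 3 * (a : ℤ) ≤ lev g i' + 2 := by omega
  have ha3 : α ≤ a := by omega
  have ha4 : a ≤ β := by omega
  have hp : ((2 ^ b : ℕ) : ℤ) = 2 ^ b := by push_cast; rfl
  unfold RR at h5
  have hp2 : (2 : ℤ) ≤ 2 ^ b := by
    have : (2 : ℤ) ^ 1 ≤ 2 ^ b := pow_le_pow_right₀ (by norm_num) hb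
    simpa using this
  rcases zig_at hg (a := a) (by omega) (by omega) with ⟨t1, ht1, t2, ht2, rfl⟩ | ⟨u, d, w, G1, D, G3, z1, z2, z3, z4, z5, z6, z7, z8, z9,
      z10, z11, z11', z12, z13, z14⟩
  · exfalso
    obtain ⟨-, -, s3, s4⟩ := mem_Brd.1 ht1
    rcases Nat.lt_or_ge t1.length i' with hlt | hge
    · -- i' lies behind the cut
      obtain ⟨j, rfl⟩ : ∃ j, i' = t1.length + j := ⟨i' - t1.length, by omega⟩
      rw [lev_cat s3, s4] at ha1
      rw [List.length_append] at h2
      have := (lev_range ht2 (i := j) (by omega)).2.2 (by omega)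
      omega
    · have h6 : lev (t1 ++ t2) i = lev t1 i := lev_append (by omega)
      have := (lev_range ht1 (i := i) (by omega)).2.1
      omega
  · refine ⟨a, u, d, w, G1, D, G3, ha3, ha4, z1, z2, z3, z4, z5, z6, z7, z8, ?_, z10, z11, z11', z13, z14⟩
    have h6 := z12 i i' h1 h2 ha1
    have h7 : (2 : ℤ) ^ b ≤ d + 1 := by
      have z8' : (u : ℤ) ≤ a + d := by exact_mod_cast z8
      omega
    have : ((2 ^ b : ℕ) : ℤ) ≤ ((d + 1 : ℕ) : ℤ) := by
      rw [hp]
      push_cast
      exact h7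
    exact_mod_cast this

/-- **the zig-zag of a leaf of the block k**: no backtrack of the scale b0 + 5 in the window, or a zig-zag s1, l, s2 with
tall s1, s2 and a height of l at least 2^(b0 + 5) - 1, and then s1 or s2 has no backtracks larger than twice the height of l
in a window -/
theorem zig_blk {k : ℕ} {g : List Bool} (hk : 3 ≤ k) (hg : g ∈ BrR (2 ^ (k + 4)) (2 ^ (k + 5))) (b0 : ℕ) :
    g ∈ GU b0 (k - 3) (2 ^ (k + 5)) ∨
    ∃ (u d w : ℕ) (s1 l s2 : List Bool), s1 ∈ Brd u ∧ l ∈ Brd d ∧ s2 ∈ Brd w ∧ unf [s1, l, s2] = g ∧ LFold s1 l ∧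
      LFold l s2 ∧ 2 ^ (k + 2) ≤ u ∧ 2 ^ (k + 2) ≤ w ∧ u ≤ 2 ^ (k + 5) ∧ w ≤ 2 ^ (k + 5) ∧ 2 ^ (b0 + 4) ≤ d ∧
      d ≤ 2 ^ (k + 5) ∧ d ≤ u ∧
      ∀ j, d < 2 ^ (j + 5) → s1 ∈ GU (j + 1) (k - 3) (2 ^ (k + 5)) ∨ s2 ∈ GU (j + 1) (k - 3) (2 ^ (k + 5)) := by
  obtain ⟨h, hh1, hh2, hgB⟩ := hg
  obtain ⟨c, hc⟩ : ∃ c, c = 2 ^ (k - 3) := ⟨_, rfl⟩
  have hc1 : 1 ≤ c := by
    rw [hc]
    exact Nat.one_le_two_pow
  have e3 : 2 ^ k = 8 * c := by
    rw [hc]
    obtain ⟨k', rfl⟩ : ∃ k', k = k' + 3 := ⟨k - 3, by omega⟩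
    rw [Nat.add_sub_cancel, pow_add]
    ring
  have e2 : 2 ^ (k + 2) = 32 * c := by rw [pow_add, e3]; ring
  have e4 : 2 ^ (k + 4) = 128 * c := by rw [pow_add, e3]; ring
  have e5 : 2 ^ (k + 5) = 256 * c := by rw [pow_add, e3]; ring
  rw [e4] at hh1
  rw [e5] at hh2 ⊢
  rw [e2]
  by_cases hW0 : Win (b0 + 5) (40 * c) (88 * c) g
  · left
    refine ⟨40, by norm_num, h, ?_, hh2, hgB, ?_⟩
    · rw [← hc]
      omega
    · rw [← hc]
      exact Win_mono le_rfl (by omega) hW0
  right
  -- the largest scale of the backtracks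
  have hbig : ∃ b, Win b (40 * c) (88 * c) g := by
    refine ⟨h, fun i i' i1 i2 _ _ => ?_⟩
    have h1 := (lev_range hgB (i := i) (by omega)).2.1
    have h2 := (lev_range hgB i2).1
    have h3 : (h : ℤ) + 1 ≤ 2 ^ h := by
      have : h + 1 ≤ 2 ^ h := Nat.lt_two_pow_self
      exact_mod_cast this
    unfold RR
    omega
  have hmono : ∀ b b', b ≤ b' → Win b (40 * c) (88 * c) g → Win b' (40 * c) (88 * c) g := by
    intro b b' hb hW i i' i1 i2 i3 i4
    have h1 := hW i i' i1 i2 i3 i4
    have h2 : (2 : ℤ) ^ b ≤ 2 ^ b' := pow_le_pow_right₀ (by norm_num) hb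
    unfold RR at h1 ⊢
    omega
  classical
  obtain ⟨b, hb⟩ : ∃ b, b = Nat.find hbig := ⟨_, rfl⟩
  have hb1 : Win b (40 * c) (88 * c) g := by
    rw [hb]
    exact Nat.find_spec hbig
  have hb2 : b0 + 5 < b := by
    by_contra hcon
    exact hW0 (hmono b (b0 + 5) (by omega) hb1)
  obtain ⟨b', rfl⟩ : ∃ b', b = b' + 1 := ⟨b - 1, by omega⟩
  have hb3 : ¬ Win b' (40 * c) (88 * c) g := by
    have := Nat.find_min hbig (m := b') (by omega)
    exact this
  obtain ⟨a, u, d, w, s1, l, s2, a1, a2, a3, a4, a5, a6, a7, a8, a9, a10, a11, a12, a13, a14, a15, a16⟩ :=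
    zig_of_not_win hgB (by omega) (by omega) (by omega) hb3
  have hpb : 2 ^ (b0 + 5) ≤ 2 ^ b' := Nat.pow_le_pow_right (by norm_num) (by omega)
  have hpb0 : 2 ^ (b0 + 5) = 2 * 2 ^ (b0 + 4) := by ring
  have hpb1 : 1 ≤ 2 ^ (b0 + 4) := Nat.one_le_two_pow
  have hud : u - d ≤ a := by omega
  refine ⟨u, d, w, s1, l, s2, a3, a4, a5, a6, a7, a8, by omega, by omega, by omega, by omega, by omega, by omega, a13, ?_⟩
  intro j hj
  have h1 : b' ≤ j + 5 := by
    by_contra hcon
    have h2 : 2 ^ (j + 6) ≤ 2 ^ b' := Nat.pow_le_pow_right (by norm_num) (by omega)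
    have h3 : 2 ^ (j + 6) = 2 * 2 ^ (j + 5) := by ring
    have h4 : 1 ≤ 2 ^ (j + 5) := Nat.one_le_two_pow
    omega
  have hWj : Win (j + 1 + 5) (40 * c) (88 * c) g := hmono (b' + 1) (j + 1 + 5) (by omega) hb1
  rcases Nat.lt_or_ge a (64 * c) with ha | ha
  · -- the window lies in s2
    right
    obtain ⟨σ, hσ⟩ : ∃ σ, σ = u - d := ⟨_, rfl⟩
    have hσ1 : σ < 64 * c := by omega
    obtain ⟨q, hq⟩ : ∃ q, q = σ / c := ⟨_, rfl⟩
    have hq1 : q * c ≤ σ := by
      rw [hq]
      exact Nat.div_mul_le_self _ _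
    have hq2 : σ < (q + 1) * c := by
      rw [hq]
      have h2 := Nat.div_add_mod σ c
      have h3 := Nat.mod_lt σ (show 0 < c from hc1)
      have h4 : (σ / c + 1) * c = c * (σ / c) + c := by ring
      omega
    obtain ⟨z, hz⟩ : ∃ z, z = max 15 (40 - q) := ⟨_, rfl⟩
    have hz15 : 15 ≤ z := by rw [hz]; exact le_max_left _ _
    have hz40 : 40 - q ≤ z := by rw [hz]; exact le_max_right _ _
    have hzle : z ≤ 40 := by rw [hz]; exact max_le (by norm_num) (by omega)
    have hlo : 40 * c ≤ z * c + σ := by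
      have h2 : 40 * c ≤ (z + q) * c := Nat.mul_le_mul_right _ (by omega)
      have h3 : (z + q) * c = z * c + q * c := by ring
      omega
    have hhi : (z + 3) * c + σ ≤ 88 * c := by
      rcases le_total 15 (40 - q) with h2 | h2
      · have h3 : z = 40 - q := by rw [hz]; exact max_eq_right h2
        have h4 : (z + 3) * c + (q + 1) * c = 44 * c := by
          rw [← add_mul]
          congr 1
          omega
        omega
      · have h3 : z = 15 := by rw [hz]; exact max_eq_left h2
        rw [h3]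
        omega
    refine ⟨z, hz15, w, ?_, by omega, a5, ?_⟩
    · rw [← hc]
      have h2 : (z + 19) * c ≤ 59 * c := Nat.mul_le_mul_right _ (by omega)
      omega
    · rw [← hc]
      have h2 := a16 (j + 1 + 5) (z * c + σ) ((z + 3) * c + σ) (by
        have : z * c ≤ (z + 3) * c := Nat.mul_le_mul_right _ (by omega)
        omega) (by omega) (Win_mono hlo hhi hWj)
      rw [← hσ, Nat.add_sub_cancel, Nat.add_sub_cancel] at h2
      exact h2
  · left
    refine ⟨40, by norm_num, u, ?_, by omega, a3, ?_⟩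
    · rw [← hc]
      omega
    · rw [← hc]
      exact Win_mono le_rfl (by omega) (a15 _ _ _ hWj)

end EN

end HexObs
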