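import Pool.Agent.EN.ZgNorm
import Pool.Agent.EN.ZigW
import Pool.Agent.EN.GULow
import Pool.Agent.NTW.CleanD

/-!
EN: the classes of the recursion of the exact norm of one leaf. A leaf of the block kc + 7 is clean, or a zig-zag s1, l, s2
with l in a block j + 7, j at most kc; s1 or s2 has no backtracks of the scale of l in a window.
-/

set_option autoImplicit false

namespace HexObs

namespace EN

open Finset TS SDN NTW NTA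

open scoped ENNReal

/-- the leaves of the recursion -/
def Bk (k : ℕ) : Set (List Bool) := BrR (2 ^ (k + 7)) (2 ^ (k + 8))

/-- the tall parts -/
def Ak (k : ℕ) : Set (List Bool) := BrR (2 ^ (k + 4)) (2 ^ (k + 8))

lemma Bk_Ak (k : ℕ) : Bk k ⊆ Ak k := by
  rintro g ⟨h, h1, h2, h3⟩
  refine ⟨h, ?_, h2, h3⟩
  have : 2 ^ (k + 4) ≤ 2 ^ (k + 7) := Nat.pow_le_pow_right (by norm_num) (by omega)
  omega

lemma Ak_HB (k : ℕ) : Ak k ⊆ HB (2 ^ (k + 4)) := fun _ hg => LQ.BrR_HB hg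

lemma Bk_HB (k : ℕ) : Bk k ⊆ HB (2 ^ (k + 4)) := fun _ hg => Ak_HB k (Bk_Ak k hg)

lemma GU_HB (b k N : ℕ) : NTm.GU b k N ⊆ HB (2 ^ (k + 4)) := by
  rintro g ⟨z, hz, h, h1, h2, h3, -⟩
  refine ⟨h, ?_, h3⟩
  have e : 2 ^ (k + 4) = 16 * 2 ^ k := by ring
  have : 34 * 2 ^ k ≤ (z + 19) * 2 ^ k := Nat.mul_le_mul_right _ (by omega)
  omega

/-- all tall leaves behind a leaf of a lower scale -/
theorem all_low : ∃ K : ℝ, 1 ≤ K ∧ ∀ (j kc : ℕ) (x : ℝ≥0∞) (Φ : List Bool → ℝ≥0∞), j ≤ kc → DmJ kc x Φ →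
    xT (2 ^ (j + 4)) j (vA (2 ^ (j + 4)) (Ak kc) Φ) ≤ ENNReal.ofReal (K * 2 ^ (kc - j)) * x := by
  obtain ⟨C, δ, h⟩ := inp_exists
  obtain ⟨K, hK, hn⟩ := nextD_of h (ssA h) (ssThree h)
  refine ⟨256 * K, by linarith, fun j kc x Φ hj hΦ => ?_⟩
  have h1 := hn (2 ^ (j + 4)) j kc (2 ^ (kc + 4)) (2 ^ (kc + 8)) x Φ hΦ.dom le_rfl
    (Nat.pow_le_pow_right (by norm_num) (by omega)) le_rfl (Nat.pow_le_pow_right (by norm_num) (by omega))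
  refine h1.trans (mul_le_mul_left (ENNReal.ofReal_le_ofReal ?_) _)
  have hU := Ub_pos j
  have h2 : UU (2 ^ (kc + 8)) ≤ 256 * (2 ^ (kc - j) * Ub j) :=
    (LQ.UU8 kc).trans (mul_le_mul_of_nonneg_left (Fl.Ub_ratio hj) (by norm_num))
  have h3 : UU (2 ^ (kc + 8)) / Ub j ≤ 256 * 2 ^ (kc - j) := by
    rw [div_le_iff₀ hU]
    linarith
  calc K * (UU (2 ^ (kc + 8)) / Ub j) ≤ K * (256 * 2 ^ (kc - j)) := mul_le_mul_of_nonneg_left h3 (by linarith)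
    _ = _ := by ring

/-- the cover of the leaves of the block -/
theorem cover (kc : ℕ) {g : List Bool} (hg : g ∈ Bk kc) : g ∈ NTm.GU 3 kc (2 ^ (kc + 8)) ∨ ∃ j ≤ kc,
    g ∈ Zg (2 ^ (kc + 4)) (Ak kc) (Bk j) (Ak kc) ∧
    (g ∈ Zg (2 ^ (kc + 4)) (NTm.GU (j + 5) kc (2 ^ (kc + 8))) (Bk j) (Ak kc) ∨
      g ∈ Zg (2 ^ (kc + 4)) (Ak kc) (Bk j) (NTm.GU (j + 5) kc (2 ^ (kc + 8)))) := by
  have hgD := Bk_HB kc hg
  rcases zig_blk (k := kc + 3) (by omega) hg 3 with h1 | ⟨u, d, w, s1, l, s2, hs1, hl, hs2, hunf, f1, f2, a1, a2, a3, a4, a5,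
    a6, -, hc⟩
  · exact Or.inl h1
  right
  have p4 : 2 ^ (kc + 4) ≤ 2 ^ (kc + 3 + 2) := Nat.pow_le_pow_right (by norm_num) (by omega)
  have b1 : s1 ∈ Ak kc := ⟨u, by omega, a3, hs1⟩
  have b3 : s2 ∈ Ak kc := ⟨w, by omega, a4, hs2⟩
  obtain ⟨j, hj, hj1, hj2⟩ : ∃ j, j ≤ kc ∧ 2 ^ (j + 7) ≤ d ∧ d ≤ 2 ^ (j + 8) := by
    obtain ⟨e, he⟩ : ∃ e, e = Nat.log 2 d := ⟨_, rfl⟩
    have hd0 : d ≠ 0 := by
      intro h
      rw [h] at a5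
      norm_num at a5
    have e1 : 2 ^ e ≤ d := by rw [he]; exact Nat.pow_log_le_self 2 hd0
    have e2 : d < 2 ^ (e + 1) := by rw [he]; exact Nat.lt_pow_succ_log_self (by norm_num) d
    have e3 : 7 ≤ e := by
      by_contra hcon
      have : 2 ^ (e + 1) ≤ 2 ^ (3 + 4) := Nat.pow_le_pow_right (by norm_num) (by omega)
      omega
    have e4 : e ≤ kc + 8 := by
      by_contra hcon
      have : 2 ^ (kc + 9) ≤ 2 ^ e := Nat.pow_le_pow_right (by norm_num) (by omega)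
      have h9 : 2 ^ (kc + 9) = 2 * 2 ^ (kc + 8) := by ring
      have h10 : 2 ^ (kc + 3 + 5) = 2 ^ (kc + 8) := rfl
      have h11 : 0 < 2 ^ (kc + 8) := by positivity
      omega
    rcases Nat.lt_or_ge e (kc + 8) with h5 | h5
    · refine ⟨e - 7, by omega, ?_, ?_⟩
      · rw [show e - 7 + 7 = e by omega]
        exact e1
      · rw [show e - 7 + 8 = e + 1 by omega]
        exact e2.le
    · refine ⟨kc, le_rfl, ?_, a6⟩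
      have h6 : e = kc + 8 := by omega
      rw [h6] at e1
      exact (Nat.pow_le_pow_right (by norm_num) (by omega)).trans e1
  have b2 : l ∈ Bk j := ⟨d, hj1, hj2, hl⟩
  refine ⟨j, hj, ⟨hgD, s1, b1, l, b2, s2, b3, f1, f2, hunf⟩, ?_⟩
  have hdj : d < 2 ^ (j + 4 + 5) := lt_of_le_of_lt hj2 (Nat.pow_lt_pow_right (by norm_num) (by omega))
  rcases hc (j + 4) hdj with h1 | h1
  · exact Or.inl ⟨hgD, s1, h1, l, b2, s2, b3, f1, f2, hunf⟩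
  · exact Or.inr ⟨hgD, s1, b1, l, b2, s2, h1, f1, f2, hunf⟩

/-- **the zig-zags with a low part l** -/
theorem far_norm : ∃ (K : ℝ) (s : ℕ), 1 ≤ K ∧ 5 ≤ s ∧ ∀ (kc j : ℕ) (e : ℝ), j + 5 + s ≤ kc → 0 ≤ e → SmDX DmJ j (Bk j) e →
    SmDX DmJ kc {g | g ∈ Zg (2 ^ (kc + 4)) (NTm.GU (j + 5) kc (2 ^ (kc + 8))) (Bk j) (Ak kc) ∨
      g ∈ Zg (2 ^ (kc + 4)) (Ak kc) (Bk j) (NTm.GU (j + 5) kc (2 ^ (kc + 8)))}
      (K * 2 ^ (kc - j) / 4 ^ (2 ^ (kc - (j + 5 + s))) * e) := by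
  obtain ⟨C, δ, h⟩ := inp_exists
  obtain ⟨Kz, hKz, hz⟩ := comp_zg
  obtain ⟨Ka, hKa, ha⟩ := LQ.SmD_all
  obtain ⟨Kl, hKl, hl⟩ := all_low
  obtain ⟨Kg, sg, hKg, hg⟩ := gu_low
  obtain ⟨Kc, sc, hKc, hc⟩ := cleanD_of h (ssA h) (ssThree h) (ssBoth h)
  obtain ⟨s, hs⟩ : ∃ s, s = sg + sc + 5 := ⟨_, rfl⟩
  have hpos : 0 ≤ Kz * (Kc * 8 ^ 8) * Kl + Kz * Ka * (Kg * 8 ^ 8) := by positivity
  refine ⟨1 + (Kz * (Kc * 8 ^ 8) * Kl + Kz * Ka * (Kg * 8 ^ 8)), s, by linarith, by omega, fun kc j e hj he hE => ?_⟩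
  obtain ⟨n, hn⟩ : ∃ n, n = 2 ^ (kc - (j + 5 + s)) := ⟨_, rfl⟩
  have hn' : ∀ t ≤ s, n * 2 ^ (j + 5 + t) ≤ 2 ^ kc := by
    intro t ht
    rw [hn, ← pow_add]
    exact Nat.pow_le_pow_right (by norm_num) (by omega)
  have hU := Ub_pos j
  have hjk : j ≤ kc := by omega
  have h4 : (0 : ℝ) < 4 ^ n := by positivity
  have hL : Bk j ⊆ HB (2 ^ (j + 4)) := Bk_HB j
  have h1 := hz kc j (NTm.GU (j + 5) kc (2 ^ (kc + 8))) (Bk j) (Ak kc) (Kc * 8 ^ 8 / 4 ^ n) e (Kl * 2 ^ (kc - j)) hjk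
    (GU_HB _ _ _) hL (Ak_HB kc) (by positivity) he (by positivity)
    (hc kc 8 n (j + 5) (by omega) (hn' sc (by omega)) (by omega) (by norm_num)) hE.near
    (fun x Φ hΦ => hl j kc x Φ hjk hΦ)
  have h2 := hz kc j (Ak kc) (Bk j) (NTm.GU (j + 5) kc (2 ^ (kc + 8))) Ka e (Kg * 8 ^ 8 / 4 ^ n * 2 ^ (kc - j)) hjk
    (Ak_HB kc) hL (GU_HB _ _ _) (by linarith) he (by positivity) (ha kc) hE.near (fun x Φ hΦ => by
      refine (hg j kc 8 (j + 5) n x Φ hΦ hjk (by omega) (by omega) (hn' sg (by omega)) (by norm_num)).trans ?_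
      refine mul_le_mul_left (ENNReal.ofReal_le_ofReal ?_) _
      refine mul_le_mul_of_nonneg_left ?_ (by positivity)
      rw [div_le_iff₀ hU]
      exact Fl.Ub_ratio hjk)
  refine smDX_up ?_ (smDX_union (by positivity) (by positivity) h1 h2)
  rw [← hn]
  have e1 : Kz * (Kc * 8 ^ 8 / 4 ^ n) * e * (Kl * 2 ^ (kc - j)) + Kz * Ka * e * (Kg * 8 ^ 8 / 4 ^ n * 2 ^ (kc - j)) =
      (Kz * (Kc * 8 ^ 8) * Kl + Kz * Ka * (Kg * 8 ^ 8)) * (2 ^ (kc - j) / 4 ^ n * e) := by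
    field_simp
  rw [e1]
  have h5 : (0 : ℝ) ≤ 2 ^ (kc - j) / 4 ^ n * e := by positivity
  calc (Kz * (Kc * 8 ^ 8) * Kl + Kz * Ka * (Kg * 8 ^ 8)) * (2 ^ (kc - j) / 4 ^ n * e)
      ≤ (1 + (Kz * (Kc * 8 ^ 8) * Kl + Kz * Ka * (Kg * 8 ^ 8))) * (2 ^ (kc - j) / 4 ^ n * e) :=
        mul_le_mul_of_nonneg_right (by linarith) h5
    _ = _ := by ring

/-- **the zig-zags with a part l near the top scale** -/
theorem near_norm : ∃ K : ℝ, 1 ≤ K ∧ ∀ (kc j : ℕ) (G : Set (List Bool)) (a b e : ℝ), j ≤ kc → 0 ≤ a → 0 ≤ b → 0 ≤ e →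
    SmDX DmJ kc {g | g ∈ Ak kc ∧ g ∈ G} a → SmD DmJ kc (Ak kc \ G) b → SmDX DmJ j (Bk j) e →
    SmDX DmJ kc (Zg (2 ^ (kc + 4)) (Ak kc) (Bk j) (Ak kc)) (K * 2 ^ (kc - j) * (a + b * e)) := by
  obtain ⟨Kz, hKz, hz⟩ := comp_zg
  obtain ⟨Kg, hKg, hg⟩ := comp_good
  obtain ⟨Ka, hKa, ha⟩ := LQ.SmD_all
  obtain ⟨Kl, hKl, hl⟩ := all_low
  have hpos : 0 ≤ Kz * Kl + Kg * Ka * Kl := by positivity
  refine ⟨1 + (Kz * Kl + Kg * Ka * Kl), by linarith, fun kc j G a b e hjk ha0 hb0 he0 h1 h2 h3 => ?_⟩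
  have hL : Bk j ⊆ HB (2 ^ (j + 4)) := Bk_HB j
  have h4 := hg kc j {g | g ∈ Ak kc ∧ g ∈ G} (Bk j) (Ak kc) a Ka (Kl * 2 ^ (kc - j)) hjk (fun g hg => Ak_HB kc hg.1) hL
    (Ak_HB kc) ha0 (by linarith) (by positivity) h1 (fun x Φ hΦ => (QF.SmD_mono (Bk_Ak j) (ha j)).near x Φ hΦ)
    (fun x Φ hΦ => hl j kc x Φ hjk hΦ)
  have h5 := hz kc j (Ak kc \ G) (Bk j) (Ak kc) b e (Kl * 2 ^ (kc - j)) hjk (fun g hg => Ak_HB kc hg.1) hL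
    (Ak_HB kc) hb0 he0 (by positivity) h2 h3.near (fun x Φ hΦ => hl j kc x Φ hjk hΦ)
  have hsub : Zg (2 ^ (kc + 4)) (Ak kc) (Bk j) (Ak kc) ⊆ Zg (2 ^ (kc + 4)) {g | g ∈ Ak kc ∧ g ∈ G} (Bk j) (Ak kc) ∪
      Zg (2 ^ (kc + 4)) (Ak kc \ G) (Bk j) (Ak kc) := by
    rintro g ⟨hgD, s1, a1, l, a2, s2, a3, f1, f2, hunf⟩
    by_cases hG : s1 ∈ G
    · exact Or.inl ⟨hgD, s1, ⟨a1, hG⟩, l, a2, s2, a3, f1, f2, hunf⟩
    · exact Or.inr ⟨hgD, s1, ⟨a1, hG⟩, l, a2, s2, a3, f1, f2, hunf⟩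
  refine smDX_up ?_ (smDX_mono hsub (smDX_union (by positivity) (by positivity) h4 h5))
  have h6 : (0 : ℝ) ≤ 2 ^ (kc - j) * a := by positivity
  have h7 : (0 : ℝ) ≤ 2 ^ (kc - j) * (b * e) := by positivity
  have e1 : Kg * a * Ka * (Kl * 2 ^ (kc - j)) + Kz * b * e * (Kl * 2 ^ (kc - j)) =
      (Kg * Ka * Kl) * (2 ^ (kc - j) * a) + (Kz * Kl) * (2 ^ (kc - j) * (b * e)) := by ring
  have e2 : (1 + (Kz * Kl + Kg * Ka * Kl)) * 2 ^ (kc - j) * (a + b * e) =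
      (1 + (Kz * Kl + Kg * Ka * Kl)) * (2 ^ (kc - j) * a) + (1 + (Kz * Kl + Kg * Ka * Kl)) * (2 ^ (kc - j) * (b * e)) := by
    ring
  rw [e1, e2]
  have h8 : 0 ≤ Kz * Kl := by positivity
  have h9 : 0 ≤ Kg * Ka * Kl := by positivity
  exact add_le_add (mul_le_mul_of_nonneg_right (by linarith) h6) (mul_le_mul_of_nonneg_right (by linarith) h7)

end EN

end HexObs
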