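import Pool.Agent.EN.ExDefs
import Pool.Agent.NTA.RunSum

/-!
EN (every n): the sum over the monotone chains with a marked run, the number of letters fixed.
-/

set_option autoImplicit false

namespace HexObs

namespace EN

namespace EX

open Finset TS SDN SDN.CN NTm NTW NTA

open scoped ENNReal

/-- the left functional of the marked run, maximum over the number of letters -/
noncomputable def Gm (kc : ℕ) (R : Set (List (List Bool))) (F : ℕ → List Bool → ℝ≥0∞) (t : List Bool) : ℝ≥0∞ :=
  ⨆ N, vG (2 ^ (kc + 4)) (HB (2 ^ (kc + 4))) (runG R F) N t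

/-- a bound for every number of letters gives a bound behind a part with a letters -/
lemma sum_shf {c : List (List Bool) → Prop} [∀ gs, Decidable (c gs)] {e : List (List Bool) → ℕ → ℝ≥0∞} {F : ℕ → ℝ≥0∞}
    (h : ∀ N, (∑' gs : List (List Bool), if c gs then SDN.wl gs * shf (e gs) (ll gs) N else 0) ≤ F N) (a N : ℕ) :
    (∑' gs : List (List Bool), if c gs then SDN.wl gs * shf (e gs) (a + ll gs) N else 0) ≤ shf F a N := by
  by_cases ha : a ≤ N
  · refine le_trans (le_of_eq ?_) ((h (N - a)).trans (le_of_eq ?_))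
    · refine tsum_congr fun gs => ?_
      rw [shf_add]
      have h1 : shf (fun c => shf (e gs) (ll gs) c) a N = shf (e gs) (ll gs) (N - a) := if_pos ha
      rw [h1]
    · exact (if_pos ha).symm
  · refine le_trans (le_of_eq ?_) zero_le
    rw [ENNReal.tsum_eq_zero]
    intro gs
    have h1 : shf (e gs) (a + ll gs) N = 0 := if_neg (by omega)
    rw [h1, mul_zero]
    split_ifs <;> rfl

/-- the same with a constant bound -/
lemma sum_shf_le {c : List (List Bool) → Prop} [∀ gs, Decidable (c gs)] {e : List (List Bool) → ℕ → ℝ≥0∞} {B : ℝ≥0∞}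
    (h : ∀ N, (∑' gs : List (List Bool), if c gs then SDN.wl gs * shf (e gs) (ll gs) N else 0) ≤ B) (a N : ℕ) :
    (∑' gs : List (List Bool), if c gs then SDN.wl gs * shf (e gs) (a + ll gs) N else 0) ≤ B := by
  refine (sum_shf (F := fun _ => B) h a N).trans ?_
  unfold shf
  split_ifs
  · exact le_rfl
  · exact zero_le

namespace GF

open Classical in
/-- right chains behind the leaf g -/
lemma TR_leG {kc J n : ℕ} {W : ℕ → Set (List Bool)} {kp : ℕ → ℕ} {Φ : ℕ → ℕ → List Bool → ℝ≥0∞} (hW : Wnd kc J n W kp)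
    (M : ℕ) : ∀ (i : ℕ) (g : List Bool) (e : List (List Bool) → ℕ → ℝ≥0∞) (N : ℕ), g ∈ HB (2 ^ (kp i + 4)) →
    (∑' gs : List (List Bool), if gs.length ≤ M ∧ (g :: gs).IsChain LFold ∧ IncG W n Φ gs i g (e gs) then
      SDN.wl gs * shf (e gs) (ll gs) N else 0) ≤ Fg W kp n Φ M i N g := by
  induction M with
  | zero =>
    intro i g e N _
    rw [tsum_eq_single []]
    · split_ifs with h
      · rw [NTm.wl_nil, one_mul, ll_nil, shf_zero]
        exact le_add_right (h.2.2 N)
      · exact zero_le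
    · intro gs hgs
      rw [if_neg]
      rintro ⟨h, -⟩
      exact hgs (List.length_eq_zero_iff.1 (by omega))
  | succ M ih =>
    intro i g e N hg
    refine (tsum_list1 _).trans (add_le_add ?_ ?_)
    · split_ifs with h
      · rw [NTm.wl_nil, one_mul, ll_nil, shf_zero]
        exact h.2.2 N
      · exact zero_le
    · refine QF.sum_consW (Ico i n) (fun i' => {g' | g' ∈ W i' ∧ RT (2 ^ (kp i + 4)) LFold g g'})
        (fun i' s => shf (fun c => Φ i' c s + Rg W kp n Φ M i' c s) (s.length + 1) N)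
        (fun gs => shf (e gs) (ll gs) N)
        (fun gs => gs.length ≤ M + 1 ∧ (g :: gs).IsChain LFold ∧ IncG W n Φ gs i g (e gs))
        (fun i' g' gs => gs.length ≤ M ∧ (g' :: gs).IsChain LFold ∧ IncG W n Φ gs i' g' (e (g' :: gs))) ?_ ?_
      · rintro g' gs ⟨h1, h2, i', h3, h4, h5, h6⟩
        rw [List.isChain_cons_cons] at h2
        rw [List.length_cons] at h1
        exact ⟨i', Finset.mem_Ico.2 ⟨h3, h4⟩, ⟨h5, RT_of hg h2.1⟩, by omega, h2.2, h6⟩
      · rintro i' hi' g' ⟨h5, -⟩
        obtain ⟨h, a1, a2, a3⟩ := hW.sub i' (Finset.mem_Ico.1 hi').2 h5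
        simp only [ll_cons]
        exact sum_shf (fun N' => ih i' g' (fun gs => e (g' :: gs)) N' ⟨h, a1, a3⟩) (g'.length + 1) N

variable {kc J n : ℕ} {W : ℕ → Set (List Bool)} {kp : ℕ → ℕ} {Φ : ℕ → ℕ → List Bool → ℝ≥0∞} {R : Set (List (List Bool))}

open Classical in
/-- the runs and right parts behind g -/
lemma mid_leG (hW : Wnd kc J n W kp) (hR : ∀ gs ∈ R, ∀ g ∈ gs, g ∈ HB (2 ^ (kc + 4))) (M : ℕ) (g : List Bool)
    (e : List (List Bool) → ℕ → ℝ≥0∞) (N : ℕ) :
    (∑' gs : List (List Bool), if (g :: gs).IsChain LFold ∧ MidG W n M R Φ g gs (e gs) then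
      SDN.wl gs * shf (e gs) (ll gs) N else 0) ≤ runG R (Fg W kp n Φ M 0) N g := by
  refine (RF.tsum_app (H := fun ms rs => if ((g :: ms) ∈ R ∧ (g :: ms).IsChain LFold) ∧ (rs.length ≤ M ∧
    ((g :: ms).getLastD [] :: rs).IsChain LFold ∧ IncG W n Φ rs 0 ((g :: ms).getLastD []) (e (ms ++ rs))) then
    SDN.wl ms * (SDN.wl rs * shf (e (ms ++ rs)) (ll ms + ll rs) N) else 0) ?_).trans ?_
  · intro gs
    by_cases h : (g :: gs).IsChain LFold ∧ MidG W n M R Φ g gs (e gs)
    · right
      obtain ⟨h1, ms, rs, rfl, h2, h3, h4⟩ := h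
      obtain ⟨c1, c2⟩ := RF.chain_split h1
      refine ⟨ms, rs, rfl, ?_⟩
      rw [if_pos ⟨h1, ms, rs, rfl, h2, h3, h4⟩, if_pos ⟨⟨h2, c1⟩, h3, c2, h4⟩, RF.wl_append, ll_append, mul_assoc]
    · left
      rw [if_neg h]
  · rw [runG_eq]
    refine ENNReal.tsum_le_tsum fun ms => ?_
    by_cases h : (g :: ms) ∈ R ∧ (g :: ms).IsChain LFold
    · rw [if_pos h]
      have hlast : (g :: ms).getLastD [] ∈ HB (2 ^ (kc + 4)) := by
        refine hR _ h.1 _ ?_
        rw [List.getLastD_eq_getLast?, List.getLast?_eq_getLast_of_ne_nil (List.cons_ne_nil _ _), Option.getD_some]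
        exact List.getLast_mem _
      have h1 := sum_shf (fun N' => TR_leG (Φ := Φ) hW M 0 ((g :: ms).getLastD []) (fun rs => e (ms ++ rs)) N' (by
        rw [hW.zero]
        exact hlast)) (ll ms) N
      refine le_trans (le_of_eq ?_) (mul_le_mul_right h1 _)
      rw [← ENNReal.tsum_mul_left]
      refine tsum_congr fun rs => ?_
      by_cases h2 : rs.length ≤ M ∧ ((g :: ms).getLastD [] :: rs).IsChain LFold ∧
          IncG W n Φ rs 0 ((g :: ms).getLastD []) (e (ms ++ rs))
      · rw [if_pos ⟨h, h2⟩, if_pos h2]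
      · rw [if_neg fun h3 => h2 h3.2, if_neg h2, mul_zero]
    · rw [if_neg h]
      apply le_of_eq
      rw [ENNReal.tsum_eq_zero]
      intro rs
      rw [if_neg fun h3 => h h3.1]

lemma mid_HBG (hR : ∀ gs ∈ R, ∀ g ∈ gs, g ∈ HB (2 ^ (kc + 4))) {M : ℕ} {g : List Bool} {gs : List (List Bool)}
    {e : ℕ → ℝ≥0∞} (h : MidG W n M R Φ g gs e) : g ∈ HB (2 ^ (kc + 4)) := by
  obtain ⟨ms, rs, -, h2, -⟩ := h
  exact hR _ h2 g List.mem_cons_self

/-- the left functional at the leaf g with N letters is at most the maximum -/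
lemma sw_le_Gm (R : Set (List (List Bool))) (F : ℕ → List Bool → ℝ≥0∞) (N : ℕ) (g : List Bool) :
    Rec8.sw {g' | g' ∈ HB (2 ^ (kc + 4)) ∧ RT (2 ^ (kc + 4)) LFold g g'} (sh (runG R F) N) ≤ Gm kc R F g :=
  le_iSup (fun N => vG (2 ^ (kc + 4)) (HB (2 ^ (kc + 4))) (runG R F) N g) N

open Classical in
/-- left chains, a run in R and right chains behind the leaf g -/
lemma TL_leG (hW : Wnd kc J n W kp) (hR : ∀ gs ∈ R, ∀ g ∈ gs, g ∈ HB (2 ^ (kc + 4))) (M M' : ℕ) :
    ∀ (i : ℕ) (g : List Bool) (e : List (List Bool) → ℕ → ℝ≥0∞) (N : ℕ), i < n → g ∈ HB (2 ^ (kp i + 4)) →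
    (∑' gs : List (List Bool), if gs.length ≤ M' + 1 ∧ (g :: gs).IsChain LFold ∧ DecG W n M R Φ gs (i + 1) (e gs) then
      SDN.wl gs * shf (e gs) (ll gs) N else 0) ≤ FL W kp (Gm kc R (Fg W kp n Φ M 0)) M' i g := by
  have hmono : ∀ (i i' : ℕ) (g : List Bool), i' ≤ i → g ∈ HB (2 ^ (kp i + 4)) → g ∈ HB (2 ^ (kp i' + 4)) := by
    rintro i i' g hi ⟨h, a1, a2⟩
    exact ⟨h, (Nat.pow_le_pow_right (by norm_num) (Nat.add_le_add_right (hW.mono i' i hi) 4)).trans a1, a2⟩
  have hmid : ∀ (g' : List Bool) (e : List (List Bool) → ℕ → ℝ≥0∞) (N : ℕ),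
      (∑' gs : List (List Bool), if (g' :: gs).IsChain LFold ∧ MidG W n M R Φ g' gs (e (g' :: gs)) then
        SDN.wl gs * shf (e (g' :: gs)) (ll (g' :: gs)) N else 0) ≤ sh (runG R (Fg W kp n Φ M 0)) N g' := by
    intro g' e N
    simp only [ll_cons]
    exact sum_shf (fun N' => mid_leG (Φ := Φ) hW hR M g' (fun gs => e (g' :: gs)) N') (g'.length + 1) N
  induction M' with
  | zero =>
    intro i g e N hi hg
    have hg0 : g ∈ HB (2 ^ (kc + 4)) := by
      have := hmono i 0 g (Nat.zero_le i) hg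
      rwa [hW.zero] at this
    refine (CCh.tsum_list _ ?_).trans ?_
    · rw [if_neg]
      rintro ⟨-, -, h⟩
      exact h
    · refine (QF.sum_consW (range 1) (fun _ => {g' | g' ∈ HB (2 ^ (kc + 4)) ∧ RT (2 ^ (kc + 4)) LFold g g'})
        (fun _ => sh (runG R (Fg W kp n Φ M 0)) N) (fun gs => shf (e gs) (ll gs) N)
        (fun gs => gs.length ≤ 0 + 1 ∧ (g :: gs).IsChain LFold ∧ DecG W n M R Φ gs (i + 1) (e gs))
        (fun _ g' gs => (g' :: gs).IsChain LFold ∧ MidG W n M R Φ g' gs (e (g' :: gs))) ?_ ?_).trans ?_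
      · rintro g' gs ⟨h1, h2, h3⟩
        rw [List.isChain_cons_cons] at h2
        rw [List.length_cons] at h1
        have h0 : gs = [] := List.length_eq_zero_iff.1 (by omega)
        rcases h3 with h4 | ⟨i', h4, h5, h6⟩
        · exact ⟨0, Finset.mem_range.2 (by omega), ⟨mid_HBG hR h4, RT_of hg0 h2.1⟩, h2.2, h4⟩
        · rw [h0] at h6
          exact h6.elim
      · rintro _ _ g' -
        exact hmid g' e N
      · rw [Finset.sum_range_one]
        exact sw_le_Gm R _ N g
  | succ M' ih =>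
    intro i g e N hi hg
    have hg0 : g ∈ HB (2 ^ (kc + 4)) := by
      have := hmono i 0 g (Nat.zero_le i) hg
      rwa [hW.zero] at this
    refine (CCh.tsum_list _ ?_).trans ?_
    · rw [if_neg]
      rintro ⟨-, -, h⟩
      exact h
    · refine (QF.sum_consW (range (i + 1 + 1)) (fun j => if j = 0 then
          {g' | g' ∈ HB (2 ^ (kc + 4)) ∧ RT (2 ^ (kc + 4)) LFold g g'} else
          {g' | g' ∈ W (j - 1) ∧ RT (2 ^ (kp (j - 1) + 4)) LFold g g'})
        (fun j => if j = 0 then sh (runG R (Fg W kp n Φ M 0)) N else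
          FL W kp (Gm kc R (Fg W kp n Φ M 0)) M' (j - 1)) (fun gs => shf (e gs) (ll gs) N)
        (fun gs => gs.length ≤ M' + 1 + 1 ∧ (g :: gs).IsChain LFold ∧ DecG W n M R Φ gs (i + 1) (e gs))
        (fun j g' gs => if j = 0 then (g' :: gs).IsChain LFold ∧ MidG W n M R Φ g' gs (e (g' :: gs)) else
          gs.length ≤ M' + 1 ∧ (g' :: gs).IsChain LFold ∧ DecG W n M R Φ gs (j - 1 + 1) (e (g' :: gs))) ?_ ?_).trans ?_
      · rintro g' gs ⟨h1, h2, h3⟩
        rw [List.isChain_cons_cons] at h2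
        rw [List.length_cons] at h1
        rcases h3 with h4 | ⟨i', h4, h5, h6⟩
        · refine ⟨0, Finset.mem_range.2 (by omega), ?_, ?_⟩
          · rw [if_pos rfl]
            exact ⟨mid_HBG hR h4, RT_of hg0 h2.1⟩
          · rw [if_pos rfl]
            exact ⟨h2.2, h4⟩
        · refine ⟨i' + 1, Finset.mem_range.2 (by omega), ?_, ?_⟩
          · rw [if_neg (by omega), Nat.add_sub_cancel]
            exact ⟨h5, RT_of (hmono i i' g (by omega) hg) h2.1⟩
          · rw [if_neg (by omega), Nat.add_sub_cancel]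
            exact ⟨by omega, h2.2, h6⟩
      · rintro j hj g' h5
        rcases Nat.eq_zero_or_pos j with h0 | h0
        · rw [if_pos h0] at h5 ⊢
          simp only [if_pos h0]
          exact hmid g' e N
        · rw [if_neg (by omega)] at h5 ⊢
          simp only [if_neg (show j ≠ 0 by omega), ll_cons]
          have hjn : j - 1 < n := by
            have := Finset.mem_range.1 hj
            omega
          obtain ⟨h, a1, a2, a3⟩ := hW.sub (j - 1) hjn h5.1
          exact sum_shf_le (fun N' => ih (j - 1) g' (fun gs => e (g' :: gs)) N' hjn ⟨h, a1, a3⟩) (g'.length + 1) N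
      · rw [Finset.sum_range_succ', if_pos rfl, if_pos rfl, add_comm]
        refine add_le_add (sw_le_Gm R _ N g) (le_of_eq (Finset.sum_congr rfl fun j _ => ?_))
        rw [if_neg (Nat.succ_ne_zero j), if_neg (Nat.succ_ne_zero j), Nat.add_sub_cancel]
        rfl

end GF

open GF in
open Classical in
/-- **the sum over the chains** -/
theorem chain_massG {kc J n : ℕ} {W : ℕ → Set (List Bool)} {kp : ℕ → ℕ} {Φ : ℕ → ℕ → List Bool → ℝ≥0∞}
    (hW : Wnd kc J n W kp) {R : Set (List (List Bool))} (hR : ∀ gs ∈ R, ∀ g ∈ gs, g ∈ HB (2 ^ (kc + 4))) (M : ℕ)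
    (w0 w1 : List (List Bool) → ℕ → ℝ≥0∞) (h0 : ∀ g gs, w0 (g :: gs) = w0 [g]) (N : ℕ) :
    (∑' gs : List (List Bool), if gs.length ≤ M ∧ gs.IsChain LFold ∧ TotG W n M R Φ gs (w0 gs) (w1 gs) then
      SDN.wl gs * (∑ c ∈ range (N + 1), w0 gs c * shf (w1 gs) (ll gs) (N - c)) else 0) ≤
      Rec8.sw (HB (2 ^ (kc + 4))) (fun g => ∑ c ∈ range (N + 1), Φ 0 c (rev g) *
        sh (runG R (Fg W kp n Φ M 0)) (N - c) g) +
        ∑ i ∈ range n, Rec8.sw (W i) (fun g => tot (Φ i) (rev g) * FL W kp (Gm kc R (Fg W kp n Φ M 0)) M i g) := by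
  refine (CCh.tsum_list _ ?_).trans ?_
  · rw [if_neg]
    rintro ⟨-, -, h⟩
    exact h
  · refine (QF.sum_consW (range (n + 1)) (fun j => if j = 0 then HB (2 ^ (kc + 4)) else W (j - 1))
      (fun j => if j = 0 then (fun g => ∑ c ∈ range (N + 1), Φ 0 c (rev g) *
          sh (runG R (Fg W kp n Φ M 0)) (N - c) g) else
        (fun g => tot (Φ (j - 1)) (rev g) * FL W kp (Gm kc R (Fg W kp n Φ M 0)) M (j - 1) g))
      (fun gs => ∑ c ∈ range (N + 1), w0 gs c * shf (w1 gs) (ll gs) (N - c))
      (fun gs => gs.length ≤ M ∧ gs.IsChain LFold ∧ TotG W n M R Φ gs (w0 gs) (w1 gs))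
      (fun j g' gs => if j = 0 then (∀ c, w0 [g'] c ≤ Φ 0 c (rev g')) ∧ (g' :: gs).IsChain LFold ∧
          MidG W n M R Φ g' gs (w1 (g' :: gs)) else
        (∀ c, w0 [g'] c ≤ Φ (j - 1) c (rev g')) ∧ gs.length ≤ M + 1 ∧ (g' :: gs).IsChain LFold ∧
          DecG W n M R Φ gs (j - 1 + 1) (w1 (g' :: gs))) ?_ ?_).trans ?_
    · rintro g' gs ⟨h1, h2, h3⟩
      rw [List.length_cons] at h1
      rcases h3 with ⟨h7, h4⟩ | ⟨i', h4, h5, h7, h6⟩
      · refine ⟨0, Finset.mem_range.2 (by omega), ?_, ?_⟩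
        · rw [if_pos rfl]
          exact mid_HBG hR h4
        · rw [if_pos rfl]
          rw [h0] at h7
          exact ⟨h7, h2, h4⟩
      · refine ⟨i' + 1, Finset.mem_range.2 (by omega), ?_, ?_⟩
        · rw [if_neg (by omega), Nat.add_sub_cancel]
          exact h5
        · rw [if_neg (by omega), Nat.add_sub_cancel]
          rw [h0] at h7
          exact ⟨h7, by omega, h2, h6⟩
    · rintro j hj g' h5
      rcases Nat.eq_zero_or_pos j with hj0 | hj0
      · rw [if_pos hj0] at h5 ⊢
        simp only [if_pos hj0]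
        by_cases hw : ∀ c, w0 [g'] c ≤ Φ 0 c (rev g')
        · have h1 : ∀ gs : List (List Bool), (if (∀ c, w0 [g'] c ≤ Φ 0 c (rev g')) ∧ (g' :: gs).IsChain LFold ∧
              MidG W n M R Φ g' gs (w1 (g' :: gs)) then SDN.wl gs *
              (∑ c ∈ range (N + 1), w0 (g' :: gs) c * shf (w1 (g' :: gs)) (ll (g' :: gs)) (N - c)) else 0) =
              ∑ c ∈ range (N + 1), w0 [g'] c * (if (g' :: gs).IsChain LFold ∧
                MidG W n M R Φ g' gs (w1 (g' :: gs)) then SDN.wl gs *
                shf (w1 (g' :: gs)) (g'.length + 1 + ll gs) (N - c) else 0) := by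
            intro gs
            by_cases hc : (g' :: gs).IsChain LFold ∧ MidG W n M R Φ g' gs (w1 (g' :: gs))
            · rw [if_pos ⟨hw, hc⟩, h0, Finset.mul_sum]
              refine Finset.sum_congr rfl fun c _ => ?_
              rw [if_pos hc, ll_cons]
              ring
            · rw [if_neg fun h => hc h.2]
              symm
              apply Finset.sum_eq_zero
              intro c _
              rw [if_neg hc, mul_zero]
          simp only [h1]
          rw [Summable.tsum_finsetSum (fun _ _ => ENNReal.summable)]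
          refine Finset.sum_le_sum fun c _ => ?_
          rw [ENNReal.tsum_mul_left]
          exact mul_le_mul' (hw c) (sum_shf (fun N' => mid_leG (Φ := Φ) hW hR M g' (fun gs => w1 (g' :: gs)) N')
            (g'.length + 1) (N - c))
        · refine le_trans (le_of_eq ?_) zero_le
          rw [ENNReal.tsum_eq_zero]
          intro gs
          rw [if_neg fun h => hw h.1]
      · rw [if_neg (by omega)] at h5 ⊢
        simp only [if_neg (show j ≠ 0 by omega)]
        have hjn : j - 1 < n := by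
          have := Finset.mem_range.1 hj
          omega
        obtain ⟨h, a1, a2, a3⟩ := hW.sub (j - 1) hjn h5
        by_cases hw : ∀ c, w0 [g'] c ≤ Φ (j - 1) c (rev g')
        · have h1 : ∀ gs : List (List Bool), (if (∀ c, w0 [g'] c ≤ Φ (j - 1) c (rev g')) ∧ gs.length ≤ M + 1 ∧
              (g' :: gs).IsChain LFold ∧ DecG W n M R Φ gs (j - 1 + 1) (w1 (g' :: gs)) then SDN.wl gs *
              (∑ c ∈ range (N + 1), w0 (g' :: gs) c * shf (w1 (g' :: gs)) (ll (g' :: gs)) (N - c)) else 0) =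
              ∑ c ∈ range (N + 1), w0 [g'] c * (if gs.length ≤ M + 1 ∧ (g' :: gs).IsChain LFold ∧
                DecG W n M R Φ gs (j - 1 + 1) (w1 (g' :: gs)) then SDN.wl gs *
                shf (w1 (g' :: gs)) (g'.length + 1 + ll gs) (N - c) else 0) := by
            intro gs
            by_cases hc : gs.length ≤ M + 1 ∧ (g' :: gs).IsChain LFold ∧
                DecG W n M R Φ gs (j - 1 + 1) (w1 (g' :: gs))
            · rw [if_pos ⟨hw, hc⟩, h0, Finset.mul_sum]
              refine Finset.sum_congr rfl fun c _ => ?_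
              rw [if_pos hc, ll_cons]
              ring
            · rw [if_neg fun h => hc h.2]
              symm
              apply Finset.sum_eq_zero
              intro c _
              rw [if_neg hc, mul_zero]
          simp only [h1]
          rw [Summable.tsum_finsetSum (fun _ _ => ENNReal.summable)]
          have h2 : ∀ c ∈ range (N + 1), (∑' gs : List (List Bool), w0 [g'] c * (if gs.length ≤ M + 1 ∧
              (g' :: gs).IsChain LFold ∧ DecG W n M R Φ gs (j - 1 + 1) (w1 (g' :: gs)) then SDN.wl gs *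
              shf (w1 (g' :: gs)) (g'.length + 1 + ll gs) (N - c) else 0)) ≤
              Φ (j - 1) c (rev g') * FL W kp (Gm kc R (Fg W kp n Φ M 0)) M (j - 1) g' := by
            intro c _
            rw [ENNReal.tsum_mul_left]
            exact mul_le_mul' (hw c) (sum_shf_le (fun N' => TL_leG (Φ := Φ) hW hR M M (j - 1) g'
              (fun gs => w1 (g' :: gs)) N' hjn ⟨h, a1, a3⟩) (g'.length + 1) (N - c))
          refine (Finset.sum_le_sum h2).trans ?_
          rw [← Finset.sum_mul]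
          exact mul_le_mul_left (ENNReal.sum_le_tsum _) _
        · refine le_trans (le_of_eq ?_) zero_le
          rw [ENNReal.tsum_eq_zero]
          intro gs
          rw [if_neg fun h => hw h.1]
    · rw [Finset.sum_range_succ', if_pos rfl, if_pos rfl, add_comm]
      refine add_le_add le_rfl (le_of_eq (Finset.sum_congr rfl fun j _ => ?_))
      rw [if_neg (Nat.succ_ne_zero j), if_neg (Nat.succ_ne_zero j), Nat.add_sub_cancel]

end EX

end EN

end HexObs
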