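import Pool.Agent.NTA.TIInst
import Pool.Agent.EN.EmoDefs
import Pool.Agent.EN.CrowdX

/-!
EN: the tail of the lengths of the infixes at exactly n letters.
-/

set_option autoImplicit false

namespace HexObs

namespace EN

open Finset TS SDN NTW NTA

open scoped ENNReal

/-- the words of the box with exactly n letters -/
def WLn (n K : ℕ) : Set (List Bool) := {t | t ∈ WL K ∧ t.length = n}

/-- the crowded runs, exact norm -/
theorem crowd_x {m : ℕ → ℝ} (hm : ∀ k, 0 < m k) {J0 : ℕ} (hGB : GBm m J0) (mu : ℕ) :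
    ∃ (k0 w0 Q : ℕ) (C0 : ℝ), w0 ≤ k0 ∧ 0 < C0 ∧ ∀ kc m' n : ℕ, k0 ≤ kc → Q * (n + 1) ≤ m' →
    SmRX DmJ kc (CS (2 ^ (kc + 4)) (2 ^ (kc + 5 + mu)) (kc + 2) (2 ^ (kc - w0)) n m') (C0 / 4 ^ m' / m kc) := by
  obtain ⟨C, k1, hC, hGB⟩ := hGB
  obtain ⟨K, hK, hbox⟩ := smD_box
  obtain ⟨k0, w0, Q, C0, hw, hQ, hC0, h⟩ := smRX_crowd mu
  obtain ⟨q, hq⟩ : ∃ q, q = K * 2 ^ (mu + 3) := ⟨_, rfl⟩
  have hq1 : 1 ≤ q := by
    rw [hq]
    exact one_le_mul_of_one_le_of_one_le hK (one_le_pow₀ (by norm_num))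
  refine ⟨k0 + k1, w0, 2 * Q + (J0 + 1), C0 * 4 ^ (J0 + 1) * ((4 * q) ^ (J0 + 1) * C ^ (mu + 3 + 1)), by omega,
    by positivity, fun kc m' n hk hm' => ?_⟩
  have hmk := hm kc
  have e1 : (2 * Q + (J0 + 1)) * (n + 1) = 2 * Q * (n + 1) + (J0 + 1) * (n + 1) := by ring
  have e2 : (J0 + 1) * 1 ≤ (J0 + 1) * (n + 1) := Nat.mul_le_mul_left _ (by omega)
  have e3 : 4 * 1 ≤ 2 * Q * (n + 1) := Nat.mul_le_mul (by omega) (by omega)
  obtain ⟨m1, hm1⟩ : ∃ m1, m' = m1 + (J0 + 1) := ⟨m' - (J0 + 1), by omega⟩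
  have h1 := h kc m1 n J0 q (C ^ (mu + 3 + 1) / m kc) (by omega) (by omega) (by omega) hq1
    (by
      have := hGB kc (mu + 3) (by omega)
      rwa [show kc + (mu + 3) + 2 = kc + 5 + mu by ring] at this) (by
      have := hbox kc (mu + 3)
      rwa [← hq, show kc + (mu + 3) + 2 = kc + 5 + mu by ring] at this)
  rw [hm1]
  refine SmRX.le h1 (le_of_eq ?_)
  rw [pow_add 4 m1]
  field_simp

/-- the fill runs, exact norm -/
theorem fill_x {m : ℕ → ℝ} (hm : ∀ k, 0 < m k) {J0 : ℕ} (hGB : GBm m J0) :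
    ∃ (K : ℝ) (a0 a1 k0 : ℕ), 1 ≤ K ∧ ∀ (kc mu m1 J : ℕ) (S : Set (List Bool)) (δ : ℝ), k0 ≤ kc → 0 ≤ δ →
    SmD DmJ kc S δ → SmRX DmJ kc (RFill kc mu m1 (J + a0) S) ((K * 2 ^ mu) ^ (m1 + a1) * δ ^ J / m kc) := by
  obtain ⟨C, k1, hC, hGB⟩ := hGB
  obtain ⟨K, hK, hbox⟩ := smD_box
  obtain ⟨a, ha⟩ := pow_unbounded_of_one_lt C (one_lt_two (α := ℝ))
  have hCp : 0 < C := by linarith
  refine ⟨4 * K * C, J0 + 1, (a + 1) + 1, k1, by nlinarith, fun kc mu m1 J S δ hk hδ hS => ?_⟩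
  have hmk := hm kc
  have h2 : (1 : ℝ) ≤ 2 ^ mu := one_le_pow₀ (by norm_num)
  have hq1 : 1 ≤ K * 2 ^ mu := one_le_mul_of_one_le_of_one_le hK h2
  have h1 := smRX_fill dmP hδ hq1 (hGB kc mu hk) (hbox kc mu) hS m1 (J + (J0 + 1)) J le_rfl
  refine SmRX.le h1 ?_
  have e1 : 4 * (K * 2 ^ mu) ≤ 4 * K * C * 2 ^ mu := by
    have : 0 < 4 * (K * 2 ^ mu) := by positivity
    nlinarith
  have e0 : 1 ≤ 4 * K * C := by nlinarith
  have e2 : C ^ (mu + 1) ≤ (4 * K * C * 2 ^ mu) ^ (a + 1) := by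
    have f1 : C ^ mu ≤ (2 ^ mu) ^ a := by
      rw [← pow_mul, mul_comm mu a, pow_mul]
      exact pow_le_pow_left₀ hCp.le ha.le mu
    have f2 : C ≤ 4 * K * C := by nlinarith
    calc C ^ (mu + 1) = C ^ mu * C := pow_succ _ _
      _ ≤ (2 ^ mu) ^ a * (4 * K * C) := by gcongr
      _ ≤ (4 * K * C * 2 ^ mu) ^ a * (4 * K * C * 2 ^ mu) := by
          have f3 : (2 : ℝ) ^ mu ≤ 4 * K * C * 2 ^ mu := le_mul_of_one_le_left (by positivity) e0
          have f4 : 4 * K * C ≤ 4 * K * C * 2 ^ mu := le_mul_of_one_le_right (by positivity) h2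
          gcongr
      _ = _ := (pow_succ _ _).symm
  have e3 : (4 * (K * 2 ^ mu)) ^ (m1 + 1) ≤ (4 * K * C * 2 ^ mu) ^ (m1 + 1) :=
    pow_le_pow_left₀ (by positivity) e1 _
  have e4 : 0 ≤ δ ^ J := by positivity
  calc (4 * (K * 2 ^ mu)) ^ (m1 + 1) * (δ ^ J * (C ^ (mu + 1) / m kc))
      ≤ (4 * K * C * 2 ^ mu) ^ (m1 + 1) * (δ ^ J * ((4 * K * C * 2 ^ mu) ^ (a + 1) / m kc)) := by gcongr
    _ = (4 * K * C * 2 ^ mu) ^ (m1 + (a + 1 + 1)) * δ ^ J / m kc := by
        rw [show m1 + (a + 1 + 1) = (m1 + 1) + (a + 1) by ring, pow_add _ (m1 + 1) (a + 1)]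
        ring

/-- **the words of the boxes with exactly n letters, all n, are an ensemble** -/
theorem ensR_x {m : ℕ → ℝ} (hm : MLow m) (hu : MUp m) {J0 : ℕ} (hGB : GBm m J0) :
    EnsR WLn (fun K => ENNReal.ofReal (Ub K / m K) * Xb K ^ 2) (fun kc R δ => SmRX DmJ kc R (δ / m kc)) := by
  have hmp := hm.pos
  obtain ⟨Cm, hCm, hup⟩ := TI.mup_pow hu
  refine ⟨fun n K t ht => ht.1, ?_, ?_, fun mu => crowd_x hmp hGB mu, fill_x hmp hGB, ?_, ?_⟩
  · obtain ⟨C, k0, hC, h⟩ := runXn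
    have hC0 : 0 < C := by linarith
    have hCm0 : 0 < Cm := by linarith
    refine ⟨C * Cm, k0, one_le_mul_of_one_le_of_one_le hC hCm, fun n dir kc J R δ hk hJ hδ hS => ?_⟩
    have hmk := hmp kc
    have hmK := hmp (kc + J)
    have hU := Ub_pos (kc + J)
    have h1 := h dir kc J n R (δ / m kc) hk hJ (by positivity) hS
    refine (gf_mono fun t ht => ?_).trans (h1.trans ?_)
    · exact (⟨ht.1.2, ht.1.1, ht.2⟩ : t.length = n ∧ t ∈ ERL dir kc (kc + J) R)
    · rw [← mul_assoc, ← ENNReal.ofReal_mul (by positivity)]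
      refine mul_le_mul_left (ENNReal.ofReal_le_ofReal ?_) _
      have e1 := hup kc J
      have e2 : 1 / m kc ≤ Cm ^ J / m (kc + J) := by
        rw [div_le_div_iff₀ hmk hmK, one_mul]
        exact e1
      calc C ^ J * (δ / m kc) * Ub (kc + J) = C ^ J * δ * Ub (kc + J) * (1 / m kc) := by ring
        _ ≤ C ^ J * δ * Ub (kc + J) * (Cm ^ J / m (kc + J)) := by gcongr
        _ = (C * Cm) ^ J * δ * (Ub (kc + J) / m (kc + J)) := by
            rw [mul_pow]
            ring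
  · intro kc R δ δ' h1 h2
    have := hmp kc
    exact SmRX.le h1 (by gcongr)
  · obtain ⟨C, hC, h⟩ := tot_WL
    have hC0 : 0 < C := by linarith
    have hCm0 : 0 < Cm := by linarith
    have h0 := hmp 0
    refine ⟨C * Cm * (m 0 + 1), ?_, fun n K => ?_⟩
    · exact one_le_mul_of_one_le_of_one_le (one_le_mul_of_one_le_of_one_le hC hCm) (by linarith)
    · have hU := Ub_pos K
      have hmK := hmp K
      have h1 : gf (WLn n K) ≤ gf (WL K) := gf_mono fun t ht => ht.1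
      refine h1.trans ((h K).trans ?_)
      rw [← mul_assoc, ← ENNReal.ofReal_mul (by positivity), ← mul_assoc, ← ENNReal.ofReal_mul (by positivity)]
      refine mul_le_mul_left (ENNReal.ofReal_le_ofReal ?_) _
      have e1 : m K ≤ Cm ^ K * m 0 := by
        have := hup 0 K
        rwa [zero_add] at this
      have e2 : C * m K ≤ (C * Cm * (m 0 + 1)) ^ (K + 1) := by
        have f1 : C ≤ C ^ (K + 1) := by
          calc C = C ^ 1 := (pow_one C).symm
            _ ≤ _ := pow_le_pow_right₀ hC (by omega)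
        have f2 : Cm ^ K ≤ Cm ^ (K + 1) := pow_le_pow_right₀ hCm (by omega)
        have f3 : m 0 + 1 ≤ (m 0 + 1) ^ (K + 1) := by
          calc m 0 + 1 = (m 0 + 1) ^ 1 := (pow_one _).symm
            _ ≤ _ := pow_le_pow_right₀ (by linarith) (by omega)
        rw [mul_pow, mul_pow]
        calc C * m K ≤ C * (Cm ^ K * (m 0 + 1)) := by
              gcongr
              refine e1.trans ?_
              gcongr
              linarith
          _ ≤ C ^ (K + 1) * (Cm ^ (K + 1) * (m 0 + 1) ^ (K + 1)) := by gcongr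
          _ = _ := by ring
      calc C * Ub K = C * m K * (Ub K / m K) := by
            field_simp
        _ ≤ (C * Cm * (m 0 + 1)) ^ (K + 1) * (Ub K / m K) := by gcongr
  · obtain ⟨c, hc, h⟩ := ens_WL.low
    have hCm0 : 0 < Cm := by linarith
    have h0 := hmp 0
    refine ⟨Cm * (m 0 + 1) * (1 + 1 / c), ?_, fun K => ?_⟩
    · refine one_le_mul_of_one_le_of_one_le (one_le_mul_of_one_le_of_one_le hCm (by linarith)) ?_
      have : 0 < 1 / c := by positivity
      linarith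
    · have hU := Ub_pos K
      have hmK := hmp K
      have e1 : m K ≤ Cm ^ K * m 0 := by
        have := hup 0 K
        rwa [zero_add] at this
      have e5 : ENNReal.ofReal (Ub K / m K) * Xb K ^ 2 =
          ENNReal.ofReal (1 / m K) * (ENNReal.ofReal (Ub K) * Xb K ^ 2) := by
        rw [← mul_assoc, ← ENNReal.ofReal_mul (by positivity)]
        congr 2
        ring
      rw [e5]
      refine le_trans ?_ (mul_le_mul_right (h K) _)
      rw [← ENNReal.ofReal_mul (by positivity)]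
      refine ENNReal.ofReal_le_ofReal ?_
      obtain ⟨X, hX⟩ : ∃ X, X = Cm * (m 0 + 1) * (1 + 1 / c) := ⟨_, rfl⟩
      have g1 : 1 ≤ 1 + 1 / c := by
        have : 0 < 1 / c := by positivity
        linarith
      have e2 : m K * (1 / c) ≤ X ^ (K + 1) := by
        have f2 : Cm ^ K ≤ Cm ^ (K + 1) := pow_le_pow_right₀ hCm (by omega)
        have f3 : m 0 + 1 ≤ (m 0 + 1) ^ (K + 1) := by
          calc m 0 + 1 = (m 0 + 1) ^ 1 := (pow_one _).symm
            _ ≤ _ := pow_le_pow_right₀ (by linarith) (by omega)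
        have f4 : 1 / c ≤ (1 + 1 / c) ^ (K + 1) := by
          calc 1 / c ≤ (1 + 1 / c) ^ 1 := by rw [pow_one]; linarith
            _ ≤ _ := pow_le_pow_right₀ g1 (by omega)
        rw [hX, mul_pow, mul_pow]
        calc m K * (1 / c) ≤ (Cm ^ K * (m 0 + 1)) * (1 / c) := by
              gcongr
              refine e1.trans ?_
              gcongr
              linarith
          _ ≤ _ := by gcongr
      have hXp : 0 < X ^ (K + 1) := by
        refine lt_of_lt_of_le ?_ e2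
        positivity
      rw [← hX, one_div, one_div, ← one_div, ← one_div, div_le_iff₀ hXp]
      have e6 : 1 / m K * c * (m K * (1 / c)) = 1 := by
        field_simp
      calc (1 : ℝ) = 1 / m K * c * (m K * (1 / c)) := e6.symm
        _ ≤ 1 / m K * c * X ^ (K + 1) := by gcongr

/-- **tail of the time spent in the boxes, exactly n letters** -/
theorem ext_x {m : ℕ → ℝ} (hm : MLow m) (hu : MUp m) (hp : MPow m) (hL : LongN m) (hB : TB m) {J0 : ℕ}
    (hGB : GBm m J0) : EXT m := by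
  obtain ⟨C, hC, h⟩ := infix_tail hm hu hp hL hB (ensR_x hm hu hGB)
  refine ⟨C, hC, fun Q => ?_⟩
  obtain ⟨A, hA, h⟩ := h Q
  refine ⟨A, hA, fun n K l lam hl hlam => (gf_mono fun t ht => ?_).trans (h n K l lam hl hlam)⟩
  exact ⟨⟨ht.2.1, ht.1⟩, ht.2.2⟩

end EN

end HexObs
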