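import Pool.Agent.EN.BigX

/-!
EN (every number of letters): the displacement L n ^ (3 / 4) of a walk with exactly n letters has at least the probability
exp (- C L ^ 4) (lower side of Fisher's tail), L ≤ c n ^ (1 / 4): a chain of C L ^ 4 bridges of the scale k - 3 log L.
-/

set_option autoImplicit false

namespace HexObs

namespace EN

namespace FL

open Finset TS SDN NTW NTA PtC NTSF.Pt

open scoped ENNReal

/-! ### 1. Chains of first cuts -/

/-- chains of H first cuts at or above s, each with at most N letters -/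
def Ch (s N : ℕ) : ℕ → Set (List Bool)
  | 0 => {[]}
  | H + 1 => {w | ∃ a ∈ {a | a ∈ FPs s ∧ a.length ≤ N}, ∃ b ∈ Ch s N H, w = a ++ b}

lemma Ch_brd {s N : ℕ} : ∀ {H : ℕ} {w : List Bool}, w ∈ Ch s N H → ∃ r, H * s ≤ r ∧ w ∈ Brd r := by
  intro H
  induction H with
  | zero =>
    intro w hw
    have h1 : w = [] := hw
    refine ⟨0, by omega, ?_⟩
    rw [h1, Brd_zero]
    exact Set.mem_singleton _
  | succ H ih =>
    rintro w ⟨a, ⟨⟨j, ha⟩, -⟩, b, hb, rfl⟩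
    obtain ⟨r, hr, hbr⟩ := ih hb
    refine ⟨j + r, ?_, Brd_append ha.1 hbr⟩
    have := ha.2.1
    rw [Nat.succ_mul]
    omega

lemma Ch_len {s N : ℕ} : ∀ {H : ℕ} {w : List Bool}, w ∈ Ch s N H → w.length ≤ H * N := by
  intro H
  induction H with
  | zero =>
    intro w hw
    have h1 : w = [] := hw
    rw [h1]
    simp
  | succ H ih =>
    rintro w ⟨a, ⟨-, ha⟩, b, hb, rfl⟩
    have := ih hb
    rw [List.length_append, Nat.succ_mul]
    omega

lemma Ch_unique {s N : ℕ} : ∀ {H : ℕ} {w w' : List Bool}, w ∈ Ch s N H → w' ∈ Ch s N H → ∀ {b b' : ℕ}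
    {u u' : List Bool}, u ∈ Brd b → u' ∈ Brd b' → w ++ u = w' ++ u' → w = w' := by
  intro H
  induction H with
  | zero =>
    intro w w' hw hw' _ _ _ _ _ _ _
    have h1 : w = [] := hw
    have h2 : w' = [] := hw'
    rw [h1, h2]
  | succ H ih =>
    rintro w w' ⟨a, ⟨⟨j, ha⟩, -⟩, c, hc, rfl⟩ ⟨a', ⟨⟨j', ha'⟩, -⟩, c', hc', rfl⟩ b b' u u' hu hu' h
    obtain ⟨r, -, hr⟩ := Ch_brd hc
    obtain ⟨r', -, hr'⟩ := Ch_brd hc'
    rw [List.append_assoc, List.append_assoc] at h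
    obtain ⟨h1, h2⟩ := FC_unique ha ha' (Brd_append hr hu) (Brd_append hr' hu') h
    rw [h1, ih hc hc' hu hu' h2]

lemma Ch_mass (s N : ℕ) : ∀ H : ℕ, gf {a | a ∈ FPs s ∧ a.length ≤ N} ^ H ≤ gf (Ch s N H) := by
  intro H
  induction H with
  | zero =>
    rw [pow_zero]
    have h1 : (Ch s N 0) = (({[]} : Finset (List Bool)) : Set (List Bool)) := by
      rw [Finset.coe_singleton]
      rfl
    rw [h1, gf_finset, Finset.sum_singleton]
    simp
  | succ H ih =>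
    rw [pow_succ']
    refine (mul_le_mul_right ih _).trans ?_
    refine mul_le_gf (fun a ha b hb => ⟨a, ha, b, hb, rfl⟩) ?_
    rintro a ⟨⟨j, ha⟩, -⟩ b hb a' ⟨⟨j', ha'⟩, -⟩ b' hb' hab
    obtain ⟨r, -, hr⟩ := Ch_brd hb
    obtain ⟨r', -, hr'⟩ := Ch_brd hb'
    exact (FC_unique ha ha' hr hr' hab).1

/-! ### 2. High bridges with an exact number of letters -/

theorem ubF_low_gen {P : Set (List Bool)} {s M m : ℕ} {v : ℝ}
    (hP : ∀ c ∈ P, (∃ r, s ≤ r ∧ c ∈ Brd r) ∧ c.length ≤ 2 * M)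
    (hu : ∀ c ∈ P, ∀ c' ∈ P, ∀ (b b' : ℕ) (u u' : List Bool), u ∈ Brd b → u' ∈ Brd b' → c ++ u = c' ++ u' → c = c')
    (hM : M ≤ m) (h : ∀ i, i ≤ M → v ≤ BrL.ub (m - i)) :
    gf P * ENNReal.ofReal v ≤ ENNReal.ofReal (BAR.ubF s m) := by
  classical
  have h1 : P ⊆ ⋃ i ∈ range (M + 1), {c | c ∈ P ∧ c.length = 2 * i} := by
    intro c hc
    obtain ⟨⟨r, -, hr⟩, hl⟩ := hP c hc
    obtain ⟨x, hx⟩ := BrL.even_length hr
    rw [Set.mem_iUnion₂]
    exact ⟨x, Finset.mem_range.2 (by omega), hc, by omega⟩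
  have h2 : ∀ i ∈ range (M + 1), gf {c | c ∈ P ∧ c.length = 2 * i} * ENNReal.ofReal v ≤
      gf {w | ∃ c ∈ {c | c ∈ P ∧ c.length = 2 * i}, ∃ u ∈ BrL.BLs (2 * (m - i)), w = c ++ u} := by
    intro i hi
    rw [Finset.mem_range] at hi
    have h3 : ENNReal.ofReal v ≤ gf (BrL.BLs (2 * (m - i))) := by
      refine (ENNReal.ofReal_le_ofReal (h i (by omega))).trans (le_of_eq ?_)
      unfold BrL.ub
      exact ENNReal.ofReal_toReal (BrL.BLs_ne_top _)
    refine (mul_le_mul_right h3 _).trans ?_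
    refine mul_le_gf (fun a ha b hb => ⟨a, ha, b, hb, rfl⟩) ?_
    rintro a ⟨ha, -⟩ b ⟨⟨r, hb⟩, -⟩ a' ⟨ha', -⟩ b' ⟨⟨r', hb'⟩, -⟩ hab
    exact hu a ha a' ha' r r' b b' hb hb' hab
  calc gf P * ENNReal.ofReal v ≤
      (∑ i ∈ range (M + 1), gf {c | c ∈ P ∧ c.length = 2 * i}) * ENNReal.ofReal v := by
        gcongr
        exact (gf_mono h1).trans (BAR.gf_bi_le _ _)
    _ = ∑ i ∈ range (M + 1), gf {c | c ∈ P ∧ c.length = 2 * i} * ENNReal.ofReal v := sum_mul _ _ _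
    _ ≤ ∑ i ∈ range (M + 1), gf {w | ∃ c ∈ {c | c ∈ P ∧ c.length = 2 * i},
          ∃ u ∈ BrL.BLs (2 * (m - i)), w = c ++ u} := sum_le_sum h2
    _ ≤ gf (⋃ i ∈ range (M + 1), {w | ∃ c ∈ {c | c ∈ P ∧ c.length = 2 * i},
          ∃ u ∈ BrL.BLs (2 * (m - i)), w = c ++ u}) := by
        refine BAR.gf_bi_eq _ _ ?_
        rintro i j w ⟨a, ⟨ha, hla⟩, b, ⟨⟨y, hb⟩, -⟩, e⟩ ⟨a', ⟨ha', hla'⟩, b', ⟨⟨y', hb'⟩, -⟩, e'⟩
        have h3 := hu a ha a' ha' y y' b b' hb hb' (e ▸ e')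
        rw [← h3] at hla'
        omega
    _ ≤ gf (BAR.BLF s (2 * m)) := by
        refine gf_mono ?_
        intro w hw
        rw [Set.mem_iUnion₂] at hw
        obtain ⟨i, hi, a, ⟨ha, hla⟩, b, ⟨⟨y, hb⟩, hlb⟩, e⟩ := hw
        rw [Finset.mem_range] at hi
        obtain ⟨⟨x, hx, hxa⟩, -⟩ := hP a ha
        refine ⟨⟨x + y, ?_, ?_⟩, ?_⟩
        · exact le_trans hx (Nat.le_add_right _ _)
        · rw [e]
          exact Brd_append hxa hb
        · rw [e, List.length_append, hla, hlb]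
          omega
    _ = ENNReal.ofReal (BAR.ubF s m) := by
        unfold BAR.ubF
        exact (ENNReal.ofReal_toReal (BAR.BLF_ne_top _ _)).symm

/-! ### 3. One odd number of letters -/

theorem far_core (hI : BrL.IndB) : ∃ c : ℝ, 0 < c ∧ ∀ n s H N : ℕ, n % 2 = 1 → 22 ≤ n → H * N ≤ 2 * (n / 16) →
    ENNReal.ofReal (1 / 4) ≤ gf {c | c ∈ FPs s ∧ c.length ≤ N} →
    c * ((1 / 4) ^ H * (Ux (n / 8) * Sx (n / 4) ^ 2)) ≤ n * (gf (BAR.SawF n (3 * ((H * s : ℕ) : ℤ)))).toReal := by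
  obtain ⟨c, hc, hub⟩ := BrL.ub_low hI
  refine ⟨c / 24, by positivity, fun n s H N hn h22 hHN hfp => ?_⟩
  have hn0 : 0 < n := by omega
  have hnR : (0 : ℝ) < n := by exact_mod_cast hn0
  have hU0 : 0 ≤ Ux (n / 8) := sum_nonneg fun j _ => ub_nonneg j
  have hx := xc_pos
  obtain ⟨v, hv⟩ : ∃ v : ℝ, v = c * (Ux (n / 8) / n) := ⟨_, rfl⟩
  have hv0 : 0 ≤ v := by rw [hv]; positivity
  have hmass : ENNReal.ofReal ((1 / 4) ^ H) ≤ gf (Ch s N H) := by
    refine le_trans ?_ (Ch_mass s N H)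
    rw [ENNReal.ofReal_pow (by norm_num)]
    exact pow_le_pow_left₀ zero_le hfp H
  have h1 := PtC.conv_low (N := Nx) (u := BAR.ubF (H * s)) Nx_nonneg
    (s := ((BAR.SawF n (3 * ((H * s : ℕ) : ℤ))).ncard : ℝ) * xc ^ n)
    (v := (1 / 4) ^ H * v) (D := 12) (n := n) (M := n / 4) hn (by omega) (by
      intro j hj hj1 hjn
      have h2 := ubF_low_gen (P := Ch s N H) (s := H * s) (M := n / 16) (m := j) (v := v)
        (fun c hc => ⟨Ch_brd hc, (Ch_len hc).trans hHN⟩)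
        (fun c hc c' hc' b b' u u' hu hu' h => Ch_unique hc hc' hu hu' h) (by omega) (by
        intro i hi
        refine le_trans ?_ (hub (j - i) (by omega))
        rw [hv]
        refine mul_le_mul_of_nonneg_left ?_ hc.le
        have h2 : Ux (n / 8) ≤ ∑ i ∈ range (j - i), BrL.ub i := Ux_mono (by omega)
        have h3 : 0 ≤ ∑ i ∈ range (j - i), BrL.ub i := sum_nonneg fun i _ => ub_nonneg i
        have hj0 : (0 : ℝ) < ((j - i : ℕ) : ℝ) := by exact_mod_cast (by omega : 0 < j - i)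
        have hjR : ((j - i : ℕ) : ℝ) ≤ n := by exact_mod_cast (by omega : j - i ≤ n)
        calc Ux (n / 8) / n ≤ (∑ i ∈ range (j - i), BrL.ub i) / n := by gcongr
          _ ≤ (∑ i ∈ range (j - i), BrL.ub i) / ((j - i : ℕ) : ℝ) := by gcongr)
      have h3 := (mul_le_mul_left hmass (ENNReal.ofReal v)).trans h2
      rw [← ENNReal.ofReal_mul (by positivity), ENNReal.ofReal_le_ofReal_iff (BAR.ubF_nonneg _ _)] at h3
      exact h3) (fun F hF => BAR.conv_far (H * s) n F hF) (by positivity)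
  have h2 : (gf (BAR.SawF n (3 * ((H * s : ℕ) : ℤ)))).toReal =
      ((BAR.SawF n (3 * ((H * s : ℕ) : ℤ))).ncard : ℝ) * xc ^ n := by
    rw [BAR.gf_ncard (BAR.SawF_fin n _) (fun t ht => ht.1.1), ENNReal.toReal_ofReal (by positivity)]
  rw [← h2] at h1
  have e : ∑ k ∈ Icc 1 (n / 4), Nx k = Sx (n / 4) := rfl
  rw [e] at h1
  calc c / 24 * ((1 / 4) ^ H * (Ux (n / 8) * Sx (n / 4) ^ 2)) =
        n * ((1 / 4) ^ H * v * (Sx (n / 4) ^ 2 / 2)) / 12 := by
        rw [hv]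
        field_simp
        ring
    _ ≤ n * (12 * (gf (BAR.SawF n (3 * ((H * s : ℕ) : ℤ)))).toReal) / 12 := by gcongr
    _ = _ := by ring

/-! ### 4. The constants -/

variable {m : ℕ → ℝ}

/-- the free weights at the scale of n -/
lemma consts (hm : MLow m) (hB : TB m) (hH : NTA.HT m) : ∃ (c : ℝ) (k1 : ℕ), 0 < c ∧ ∀ k n : ℕ, k1 ≤ k → m k ≤ n →
    22 ≤ n ∧ c * (Ub k * (Xb k).toReal ^ 2) ≤ Ux (n / 8) * Sx (n / 4) ^ 2 := by
  obtain ⟨lamB, hlB, hshort⟩ := half_short hB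
  obtain ⟨lamH, cH, hlH, hcH, hSx⟩ := Sx_ge hm hH
  obtain ⟨CX, hCX, hXd⟩ := XDbl.pow xDbl
  obtain ⟨i, hi⟩ := pow_unbounded_of_one_lt (32 * (lamB + lamH)) (one_lt_two (α := ℝ))
  have hm0 := hm.pos 0
  obtain ⟨k1, hk1⟩ := pow_unbounded_of_one_lt (22 / m 0) (one_lt_two (α := ℝ))
  have hCX0 : 0 < CX := by linarith
  refine ⟨1 / 2 ^ (i + 1) * (cH / CX ^ i) ^ 2, k1 + i, by positivity, fun k n hk hkn => ?_⟩
  have hmk := hm.pos k
  have hn22 : 22 ≤ n := by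
    have h1 := m_two hm 0 k
    rw [Nat.zero_add] at h1
    have h2 : (2 : ℝ) ^ k1 ≤ 2 ^ k := pow_le_pow_right₀ (by norm_num) (by omega)
    have h3 : 22 < 2 ^ k1 * m 0 := by rwa [div_lt_iff₀ hm0] at hk1
    have h4 : (22 : ℝ) < n := by nlinarith
    have h5 : (22 : ℕ) < n := by exact_mod_cast h4
    omega
  refine ⟨hn22, ?_⟩
  have hnR : (22 : ℝ) ≤ n := by exact_mod_cast hn22
  obtain ⟨kb, hkb⟩ : ∃ kb, k = kb + i := ⟨k - i, by omega⟩
  have hmb := hm.pos kb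
  have hmn : 32 * (lamB + lamH) * m kb ≤ n := by
    have h1 := m_two hm kb i
    rw [← hkb] at h1
    nlinarith
  have f1 : lamB * m kb ≤ ((2 * (n / 16) : ℕ) : ℝ) := by
    have h1 : n < 16 * (n / 16) + 16 := by omega
    have h2 : (n : ℝ) < 16 * ((n / 16 : ℕ) : ℝ) + 16 := by exact_mod_cast h1
    have h3 : 0 < lamH * m kb := by positivity
    push_cast
    linarith
  have f3 : lamH * m kb ≤ ((n / 4 : ℕ) : ℝ) := by
    have h1 : n < 4 * (n / 4) + 4 := by omega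
    have h2 : (n : ℝ) < 4 * ((n / 4 : ℕ) : ℝ) + 4 := by exact_mod_cast h1
    have h3 : 0 < lamB * m kb := by positivity
    linarith
  have hs := hshort kb _ f1
  have hUx := Ux_ge hs (q := n / 8) (by omega)
  have hUk : Ub k ≤ 2 ^ i * Ub kb := by
    rw [hkb]
    exact Sc.Ub_shift _ _
  have hSe := hSx kb (n / 4) (by omega) f3
  have hXk : Xb k ≤ ENNReal.ofReal (CX ^ i) * Xb kb := by
    rw [hkb]
    exact hXd kb i
  obtain ⟨x, hx⟩ : ∃ x, x = (Xb k).toReal := ⟨_, rfl⟩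
  have hx0 : 0 ≤ x := by rw [hx]; exact ENNReal.toReal_nonneg
  have hxe : Xb k = ENNReal.ofReal x := by rw [hx, ENNReal.ofReal_toReal (Xb_ne_top k)]
  have hS0 := Sx_nonneg (n / 4)
  have hSx2 : cH / CX ^ i * x ≤ Sx (n / 4) := by
    have h1 : ENNReal.ofReal (cH / CX ^ i * x) ≤ ENNReal.ofReal (Sx (n / 4)) := by
      rw [ENNReal.ofReal_mul (by positivity), ← hxe]
      calc ENNReal.ofReal (cH / CX ^ i) * Xb k ≤ ENNReal.ofReal (cH / CX ^ i) * (ENNReal.ofReal (CX ^ i) * Xb kb) :=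
            mul_le_mul_right hXk _
        _ = ENNReal.ofReal cH * Xb kb := by
            rw [← mul_assoc, ← ENNReal.ofReal_mul (by positivity)]
            congr 2
            field_simp
        _ ≤ _ := hSe
    rwa [ENNReal.ofReal_le_ofReal_iff hS0] at h1
  have hUb := Ub_pos k
  have hUx2 : Ub k / 2 ^ (i + 1) ≤ Ux (n / 8) := by
    refine le_trans ?_ hUx
    rw [pow_succ, ← div_div]
    have h2 : Ub k / 2 ^ i ≤ Ub kb := by
      rw [div_le_iff₀ (by positivity)]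
      linarith
    linarith
  have hU0 : 0 ≤ Ux (n / 8) := sum_nonneg fun j _ => ub_nonneg j
  rw [← hx]
  calc 1 / 2 ^ (i + 1) * (cH / CX ^ i) ^ 2 * (Ub k * x ^ 2) = Ub k / 2 ^ (i + 1) * (cH / CX ^ i * x) ^ 2 := by ring
    _ ≤ Ux (n / 8) * Sx (n / 4) ^ 2 := by gcongr

/-- **lower side of Fisher's tail**: a displacement 2 ^ (k + i) of a walk with exactly n letters, n of the scale k -/
theorem far_low (hm : MLow m) (hd : MUp m) (hB : TB m) (hH : NTA.HT m) (hI : BrL.IndB)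
    (hs : ∃ c : ℝ, 0 < c ∧ ∀ k j : ℕ, c * 2 ^ (4 / 3 * (j : ℝ)) * m k ≤ m (k + j)) :
    ∃ (C : ℝ) (a : ℕ), 0 < C ∧ ∀ k n i : ℕ, 3 * i + a ≤ k → m k ≤ n → n < m (k + 1) →
      ENNReal.ofReal (Real.exp (-(C * 16 ^ i))) * nuX m k ≤
        gf {t | t ∈ SawN n ∧ ∃ dir : Bool, (2 : ℝ) ^ (k + i) ≤ |((lvl dir (vx oo up t n) : ℤ) : ℝ)|} := by
  obtain ⟨c1, hc1, hcore⟩ := far_core hI
  obtain ⟨c2, k1, hc2, hcon⟩ := consts hm hB hH
  obtain ⟨lamB, hlB, hshort⟩ := half_short hB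
  obtain ⟨Cm, hCm, hup⟩ := hd
  obtain ⟨aU, haU⟩ := Ub_small (ε := 1 / 4) (by norm_num)
  obtain ⟨cs, hcs, hs⟩ := hs
  have hm0 := hm.pos 0
  have hCm0 : 0 < Cm := by linarith
  -- the constant a
  obtain ⟨b, hb⟩ := pow_unbounded_of_one_lt (32 * ((lamB + 1 / m 0) * 2 ^ aU / cs)) (one_lt_two (α := ℝ))
  obtain ⟨c3, hc3⟩ : ∃ c3 : ℝ, c3 = c1 * c2 / (4 * Cm) := ⟨_, rfl⟩
  have hc30 : 0 < c3 := by rw [hc3]; positivity
  obtain ⟨C, hC⟩ : ∃ C : ℝ, C = 2 ^ (3 * b + aU) * Real.log 4 + |Real.log c3| + 1 := ⟨_, rfl⟩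
  have hl4 : 0 < Real.log 4 := Real.log_pos (by norm_num)
  have hC0 : 0 < C := by
    rw [hC]
    have := abs_nonneg (Real.log c3)
    positivity
  refine ⟨C, k1 + 3 * b + aU, hC0, fun k n i hk hkn hnk => ?_⟩
  have hmk := hm.pos k
  obtain ⟨hn22, -⟩ := hcon k n (by omega) hkn
  obtain ⟨n', hodd, hnn', hn'n⟩ : ∃ n', n' % 2 = 1 ∧ n ≤ n' ∧ n' ≤ n + 1 := by
    rcases Nat.mod_two_eq_zero_or_one n with h | h
    · exact ⟨n + 1, by omega, by omega, le_rfl⟩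
    · exact ⟨n, h, le_rfl, by omega⟩
  have hn'22 : 22 ≤ n' := by omega
  have hnR : (22 : ℝ) ≤ n := by exact_mod_cast hn22
  have hn'R : (22 : ℝ) ≤ n' := by exact_mod_cast hn'22
  have hnn'R : (n : ℝ) ≤ n' := by exact_mod_cast hnn'
  have hn'nR : (n' : ℝ) ≤ n + 1 := by exact_mod_cast hn'n
  have hkn' : m k ≤ n' := hkn.trans hnn'R
  obtain ⟨-, hcn⟩ := hcon k n' (by omega) hkn'
  -- the scale of the pieces
  obtain ⟨kq, hkq⟩ : ∃ kq, k = kq + (3 * i + 3 * b) := ⟨k - (3 * i + 3 * b), by omega⟩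
  obtain ⟨j, hj⟩ : ∃ j, kq = j + aU := ⟨kq - aU, by omega⟩
  obtain ⟨H, hH'⟩ : ∃ H : ℕ, H = 2 ^ (4 * i + (3 * b + aU)) := ⟨_, rfl⟩
  obtain ⟨N, hN⟩ : ∃ N : ℕ, N = ⌈lamB * m kq⌉₊ := ⟨_, rfl⟩
  have hmq := hm.pos kq
  have hmq0 : m 0 ≤ m kq := by
    have h1 := m_two hm 0 kq
    rw [Nat.zero_add] at h1
    have h2 : (1 : ℝ) ≤ 2 ^ kq := one_le_pow₀ (by norm_num)
    nlinarith
  have hNle : (N : ℝ) ≤ (lamB + 1 / m 0) * m kq := by
    have h1 : (N : ℝ) < lamB * m kq + 1 := by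
      rw [hN]
      exact Nat.ceil_lt_add_one (by positivity)
    have h2 : (1 : ℝ) ≤ 1 / m 0 * m kq := by
      rw [one_div, inv_mul_eq_div, one_le_div hm0]
      exact hmq0
    linarith
  have hHN : H * N ≤ 2 * (n' / 16) := by
    have h1 : cs * 2 ^ (4 / 3 * ((3 * i + 3 * b : ℕ) : ℝ)) * m kq ≤ m k := by
      have := hs kq (3 * i + 3 * b)
      rwa [← hkq] at this
    have h2 : (2 : ℝ) ^ (4 / 3 * ((3 * i + 3 * b : ℕ) : ℝ)) = 2 ^ (4 * i + 4 * b) := by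
      rw [← Real.rpow_natCast]
      congr 1
      push_cast
      ring
    rw [h2] at h1
    have h3 : (H : ℝ) * N ≤ n' / 32 := by
      have e1 : (H : ℝ) = 2 ^ (4 * i + (3 * b + aU)) := by rw [hH']; push_cast; rfl
      have e2 : m kq ≤ m k / (cs * 2 ^ (4 * i + 4 * b)) := by
        rw [le_div_iff₀ (by positivity)]
        linarith
      have e3 : 32 * ((lamB + 1 / m 0) * 2 ^ aU / cs) ≤ 2 ^ b := hb.le
      calc (H : ℝ) * N ≤ 2 ^ (4 * i + (3 * b + aU)) * ((lamB + 1 / m 0) * (m k / (cs * 2 ^ (4 * i + 4 * b)))) := by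
            rw [e1]
            gcongr
            exact hNle.trans (by gcongr)
        _ = ((lamB + 1 / m 0) * 2 ^ aU / cs) / 2 ^ b * m k := by
            rw [show 4 * i + (3 * b + aU) = 4 * i + 3 * b + aU by ring,
              show 4 * i + 4 * b = 4 * i + 3 * b + b by ring, pow_add _ (4 * i + 3 * b), pow_add _ (4 * i + 3 * b)]
            field_simp
        _ ≤ 1 / 32 * m k := by
            refine mul_le_mul_of_nonneg_right ?_ hmk.le
            rw [div_le_iff₀ (by positivity)]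
            linarith
        _ ≤ n' / 32 := by linarith
    have h4 : ((H * N : ℕ) : ℝ) ≤ ((2 * (n' / 16) : ℕ) : ℝ) := by
      have h5 : n' < 16 * (n' / 16) + 16 := by omega
      have h6 : (n' : ℝ) < 16 * ((n' / 16 : ℕ) : ℝ) + 16 := by exact_mod_cast h5
      have h7 : (1 : ℝ) ≤ ((n' / 16 : ℕ) : ℝ) := by
        have : 1 ≤ n' / 16 := by omega
        exact_mod_cast this
      push_cast
      linarith
    exact_mod_cast h4
  have hfp : ENNReal.ofReal (1 / 4) ≤ gf {c | c ∈ FPs (2 ^ j) ∧ c.length ≤ N} := by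
    have h1 := haU kq (by omega)
    rw [show kq - aU = j by omega] at h1
    exact fp_gen (hshort kq N (by rw [hN]; exact Nat.le_ceil _)) h1
  obtain ⟨G, hGd⟩ : ∃ G, G = gf (BAR.SawF n' (3 * ((H * 2 ^ j : ℕ) : ℤ))) := ⟨_, rfl⟩
  have hG := hcore n' (2 ^ j) H N hodd hn'22 hHN hfp
  rw [← hGd] at hG
  have hGt : G ≠ ⊤ := by
    rw [hGd, BAR.gf_ncard (BAR.SawF_fin n' _) (fun t ht => ht.1.1)]
    exact ENNReal.ofReal_ne_top
  obtain ⟨x, hx⟩ : ∃ x, x = (Xb k).toReal := ⟨_, rfl⟩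
  have hx0 : 0 ≤ x := by rw [hx]; exact ENNReal.toReal_nonneg
  have hxe : Xb k = ENNReal.ofReal x := by rw [hx, ENNReal.ofReal_toReal (Xb_ne_top k)]
  rw [← hx] at hcn
  have hUb := Ub_pos k
  -- the number
  have hexp : Real.exp (-(C * 16 ^ i)) ≤ c3 * (1 / 4) ^ H := by
    have e1 : (H : ℝ) = 2 ^ (3 * b + aU) * 16 ^ i := by
      rw [hH', pow_add, pow_mul]
      push_cast
      ring
    have e2 : (1 : ℝ) ≤ 16 ^ i := one_le_pow₀ (by norm_num)
    have e3 : (1 / 4 : ℝ) ^ H = Real.exp (-((H : ℝ) * Real.log 4)) := by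
      rw [Real.exp_neg, mul_comm, Real.exp_mul, Real.exp_log (by norm_num), Real.rpow_natCast, one_div, inv_pow]
    have e4 : c3 = Real.exp (Real.log c3) := (Real.exp_log hc30).symm
    rw [e3, e4, ← Real.exp_add]
    apply Real.exp_le_exp.2
    rw [e1]
    have h5 := neg_abs_le (Real.log c3)
    have h6 := abs_nonneg (Real.log c3)
    have h7 : C * 16 ^ i = 2 ^ (3 * b + aU) * 16 ^ i * Real.log 4 + (|Real.log c3| + 1) * 16 ^ i := by
      rw [hC]
      ring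
    rw [h7]
    nlinarith
  have hG2 : c3 * (1 / 4) ^ H * (Ub k / m k * x ^ 2) ≤ 1 / 2 * G.toReal := by
    have h1 : (n' : ℝ) ≤ 2 * Cm * m k := by
      have h2 := hup k
      nlinarith
    have h3 : c1 * ((1 / 4) ^ H * (c2 * (Ub k * x ^ 2))) ≤ 2 * Cm * m k * G.toReal := by
      calc c1 * ((1 / 4) ^ H * (c2 * (Ub k * x ^ 2))) ≤ c1 * ((1 / 4) ^ H * (Ux (n' / 8) * Sx (n' / 4) ^ 2)) := by
            gcongr
        _ ≤ n' * G.toReal := hG
        _ ≤ _ := mul_le_mul_of_nonneg_right h1 ENNReal.toReal_nonneg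
    have h4 : c3 * (1 / 4) ^ H * (Ub k / m k * x ^ 2) * (4 * Cm * m k) = c1 * ((1 / 4) ^ H * (c2 * (Ub k * x ^ 2))) := by
      rw [hc3]
      field_simp
    have h5 : 0 < 4 * Cm * m k := by positivity
    refine le_of_mul_le_mul_right ?_ h5
    rw [h4]
    calc c1 * ((1 / 4) ^ H * (c2 * (Ub k * x ^ 2))) ≤ 2 * Cm * m k * G.toReal := h3
      _ = 1 / 2 * G.toReal * (4 * Cm * m k) := by ring
  -- from n' to n
  obtain ⟨T, hT⟩ : ∃ T, T = gf {t | t ∈ SawN n ∧ ∃ dir : Bool,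
    (2 : ℝ) ^ (k + i) ≤ |((lvl dir (vx oo up t n) : ℤ) : ℝ)|} := ⟨_, rfl⟩
  have hHj : H * 2 ^ j = 2 ^ (k + i) := by
    rw [hH', ← pow_add]
    congr 1
    omega
  have hT1 : gf (BAR.SawF n (3 * ((H * 2 ^ j : ℕ) : ℤ) - 2)) ≤ T := by
    rw [hT]
    refine gf_mono ?_
    rintro t ⟨ht, d, hd, h⟩
    refine ⟨ht, ?_⟩
    refine far_dir hd (by positivity) ?_
    have h1 : ((3 * ((H * 2 ^ j : ℕ) : ℤ) - 2 : ℤ) : ℝ) ≤ ((ip (vx oo up t n) d : ℤ) : ℝ) := by exact_mod_cast h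
    rw [hHj] at h1
    have h2 : (2 : ℝ) ≤ 2 ^ (k + i) := by
      have h3 : (1 : ℕ) ≤ k + i := by
        by_contra hc
        have h4 : k = 0 := by omega
        have h5 : (n : ℝ) < m 1 := by
          rw [h4] at hnk
          exact hnk
        have h6 : kq = 0 ∧ b = 0 := by omega
        have h7 : (32 : ℝ) * ((lamB + 1 / m 0) * 2 ^ aU / cs) < 1 := by
          rw [h6.2] at hb
          simpa using hb
        have h8 : aU = 0 := by omega
        have h9 := haU 0 (by omega)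
        rw [h8] at h9
        have h10 := Ub_pos 0
        simp only [Nat.sub_zero] at h9
        linarith
      calc (2 : ℝ) = 2 ^ 1 := (pow_one 2).symm
        _ ≤ 2 ^ (k + i) := pow_le_pow_right₀ (by norm_num) h3
    push_cast at h1
    linarith
  have hGT : G ≤ 2 * T := by
    rw [hGd]
    rcases Nat.lt_or_ge n n' with h | h
    · obtain rfl : n' = n + 1 := by omega
      have h1 := SawF_succ n (3 * ((H * 2 ^ j : ℕ) : ℤ) - 2)
      rw [sub_add_cancel] at h1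
      exact h1.trans (mul_le_mul_right hT1 _)
    · obtain rfl : n' = n := by omega
      refine (gf_mono ?_).trans (hT1.trans ?_)
      · rintro t ⟨ht, d, hd, h⟩
        exact ⟨ht, d, hd, by omega⟩
      · calc T = 1 * T := (one_mul T).symm
          _ ≤ 2 * T := mul_le_mul_left (by norm_num) _
  rw [← hT]
  have h1 : ENNReal.ofReal (Real.exp (-(C * 16 ^ i))) * nuX m k ≤ ENNReal.ofReal (1 / 2) * G := by
    unfold nuX
    rw [hxe, ← ENNReal.ofReal_pow hx0, ← ENNReal.ofReal_mul (by positivity),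
      ← ENNReal.ofReal_mul (Real.exp_nonneg _)]
    refine (ENNReal.ofReal_le_ofReal ?_).trans (le_of_eq ?_) (b := ENNReal.ofReal (1 / 2 * G.toReal))
    · refine le_trans (mul_le_mul_of_nonneg_right hexp (by positivity)) hG2
    · rw [ENNReal.ofReal_mul (by norm_num), ENNReal.ofReal_toReal hGt]
  calc ENNReal.ofReal (Real.exp (-(C * 16 ^ i))) * nuX m k ≤ ENNReal.ofReal (1 / 2) * G := h1
    _ ≤ ENNReal.ofReal (1 / 2) * (2 * T) := mul_le_mul_right hGT _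
    _ = T := by
        rw [← mul_assoc, show (2 : ℝ≥0∞) = ENNReal.ofReal 2 by norm_num, ← ENNReal.ofReal_mul (by norm_num)]
        norm_num

end FL

end EN

end HexObs
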