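import Pool.Agent.EN.GBCls
import Pool.Agent.NTA.SpWinR
import Pool.Agent.EN.Comp

/-!
EN, the numbers of the classes Good and Bad: the bad leaves of the depth D are a class of norm C / 2^D, the good leaves
have an exact norm at most C B^D / m k.
-/

set_option autoImplicit false

namespace HexObs

namespace EN

open Finset TS SDN NTW NTA

open scoped ENNReal

open LQ

/-- the sum over no middle part -/
lemma sum_none {p : List Bool → Prop} {A : ℝ} (h : ∀ Z ∈ BU, ¬ p Z) :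
    ∑' n : ℕ, gf {Z | Z ∈ Brd n ∧ p Z} ≤ ENNReal.ofReal A := by
  have h1 : ∀ n : ℕ, gf {Z | Z ∈ Brd n ∧ p Z} = 0 := by
    intro n
    have e : {Z : List Bool | Z ∈ Brd n ∧ p Z} = ∅ := by
      rw [Set.eq_empty_iff_forall_notMem]
      rintro Z ⟨hZ, hp⟩
      exact h Z ⟨n, hZ⟩ hp
    rw [e]
    unfold gf
    exact tsum_empty
  simp only [h1, tsum_zero]
  exact zero_le

/-- no free middle part for the giants at the head -/
lemma ezw_head {D N e j : ℕ} : EZW D N e (j + 1) {g | g ∈ BrR D N ∧ g ∉ WinH e j} 0 := by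
  intro M hM P1 hP1 P2 hP2 Q hQ h1 h2 h3 h4
  refine sum_none fun Z hZ => ?_
  rintro ⟨⟨-, hg⟩, -⟩
  have hMP := BU_app hM (IU_BU hP1)
  have hPQ := BU_app (IU_BU hP2) hQ
  have h5 := no_head hg hMP (BU_app hZ hPQ) (by rw [List.append_assoc]) (by rw [hgt_app hM (IU_BU hP1)]; exact h1)
  rw [hgt_app hM (IU_BU hP1)] at h5
  omega

/-- no free middle part for the giants at the tail -/
lemma ezw_tail {D N e j : ℕ} : EZW D N e (j + 1) {g | g ∈ BrR D N ∧ g ∉ WinT e j} 0 := by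
  intro M hM P1 hP1 P2 hP2 Q hQ h1 h2 h3 h4
  refine sum_none fun Z hZ => ?_
  rintro ⟨⟨-, hg⟩, -⟩
  have hMP := BU_app hM (IU_BU hP1)
  have hPQ := BU_app (IU_BU hP2) hQ
  have h5 := no_tail hg (BU_app hMP hZ) hPQ (by simp only [List.append_assoc]) (by
    rw [hgt_app (IU_BU hP2) hQ]; exact h3)
  rw [hgt_app (IU_BU hP2) hQ] at h5
  omega

/-- the free middle part of a leaf with a short middle part -/
lemma ezw_mid {k N e' j' e : ℕ} {x A : ℝ} (he : e ≤ j') (he' : e' ≤ k)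
    (h : ∑' n : ℕ, gf {Z | Z ∈ Brd n ∧ Z ≠ [] ∧ (Z.length : ℝ) < x} ≤ ENNReal.ofReal A) :
    EZW (2 ^ (k + 4)) N e' j' {g | g ∈ BrR (2 ^ (k + 4)) N ∧ g ∉ Mid (2 ^ e) x} A := by
  intro M hM P1 hP1 P2 hP2 Q hQ h1 h2 h3 h4
  have hMP := BU_app hM (IU_BU hP1)
  have hPQ := BU_app (IU_BU hP2) hQ
  have p1 : 2 ^ e ≤ 2 ^ j' := Nat.pow_le_pow_right (by norm_num) he
  have p2 : 2 ^ e' ≤ 2 ^ k := Nat.pow_le_pow_right (by norm_num) he'
  have p3 : 2 ^ (k + 4) = 16 * 2 ^ k := by ring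
  have p4 : 1 ≤ 2 ^ k := Nat.one_le_two_pow
  refine (ENNReal.tsum_le_tsum fun n => gf_mono ?_).trans h
  rintro Z ⟨hZ, ⟨-, hg⟩, H, hH1, -, hH⟩
  have hZU : Z ∈ BU := ⟨n, hZ⟩
  refine ⟨hZ, ?_, ?_⟩
  · rintro rfl
    have h5 : M ++ (P1 ++ ([] ++ (P2 ++ Q))) = (M ++ P1) ++ (P2 ++ Q) := by
      rw [List.nil_append, List.append_assoc]
    rw [h5] at hH
    have h6 := Brd_height hH (Brd_append (hgt_mem hMP) (hgt_mem hPQ))
    rw [hgt_app hM (IU_BU hP1), hgt_app (IU_BU hP2) hQ] at h6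
    omega
  · refine short_mid hg hMP hZU hPQ (by rw [List.append_assoc]) ?_ ?_
    · rw [hgt_app hM (IU_BU hP1)]
      omega
    · rw [hgt_app (IU_BU hP2) hQ]
      omega

/-- **the bad leaves of the depth D** -/
theorem bad_norm {m : ℕ → ℝ} {a1 C1 : ℝ} (ha : 1 / 2 ≤ a1) (hC1 : 0 < C1) (hm : ∀ k, 0 < m k)
    (hs : ∀ (k : ℕ) (y : ℝ), 0 < y → y ≤ 1 → 1 ≤ y * m k →
      ∑' h : ℕ, gf {Z | Z ∈ Brd h ∧ (Z.length : ℝ) < y * m k} ≤ ENNReal.ofReal (C1 * y ^ a1 * Ub k)) :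
    ∃ (C : ℝ) (s1 s2 c2 : ℕ), 1 ≤ C ∧ 1 ≤ s1 ∧ s1 ≤ s2 ∧ ∀ k N D : ℕ, 1 ≤ D → s2 * D + 4 ≤ k →
      SmD DmJ k (BrR (2 ^ (k + 4)) N \ Good (k - (s1 * D + 3)) (k - (s2 * D + 4)) (m k / 2 ^ (c2 * D)))
        (C * (1 + UU N / Ub k) ^ 2 / 2 ^ D) := by
  obtain ⟨K, c, hK, hc, hsp⟩ := sp_winR
  obtain ⟨c1, hc1⟩ := exists_nat_ge (3 / c)
  obtain ⟨c0, hc0⟩ : ∃ c0, c0 = c1 + 3 := ⟨_, rfl⟩
  have hcc : 3 ≤ c * c0 := by
    have h1 : 3 / c ≤ (c0 : ℝ) := by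
      rw [hc0]
      push_cast
      linarith
    rw [div_le_iff₀ hc] at h1
    linarith
  have hc03 : 3 ≤ c0 := by omega
  obtain ⟨s1, hs1⟩ : ∃ s1, s1 = 1 + c0 := ⟨_, rfl⟩
  obtain ⟨s, hs'⟩ : ∃ s, s = c0 * (2 * s1 + 3) := ⟨_, rfl⟩
  obtain ⟨s2, hs2⟩ : ∃ s2, s2 = s1 + s := ⟨_, rfl⟩
  obtain ⟨c2, hc2⟩ : ∃ c2, c2 = 2 * (2 * s1 + 1) := ⟨_, rfl⟩
  have hK0 : 0 < K := by linarith
  refine ⟨K * (1 + 64 * C1) + 2 * (K * 64), s1, s2, c2, by nlinarith, by omega, by omega, fun k N D hD hk => ?_⟩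
  have hU := Ub_pos k
  obtain ⟨R, hR⟩ : ∃ R : ℝ, R = (1 + UU N / Ub k) ^ 2 := ⟨_, rfl⟩
  have hR0 : 0 ≤ R := by rw [hR]; positivity
  rw [← hR]
  have hsD : 9 ≤ s * D := by
    have h1 : 9 ≤ s := by
      rw [hs']
      nlinarith
    nlinarith
  have hs2D : s2 * D = s1 * D + s * D := by rw [hs2]; ring
  have hs1D : s1 * D = D + c0 * D := by rw [hs1]; ring
  have hc0D : 3 ≤ c0 * D := by nlinarith
  obtain ⟨x, hx⟩ : ∃ x : ℝ, x = m k / 2 ^ (c2 * D) := ⟨_, rfl⟩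
  have hx0 : 0 < x := by rw [hx]; have := hm k; positivity
  rw [← hx]
  have hpD : (0 : ℝ) < 2 ^ D := by positivity
  -- the three classes
  have hG : ∀ (j e : ℕ) (W : Set (List Bool)), e = k - (s1 * D + 3) → j = k - (s2 * D + 4) →
      W ⊆ BrR (2 ^ (k + 4)) N → EZW (2 ^ (k + 4)) N e (j + 1) W 0 → SmD DmJ k W (K * 64 * R / 2 ^ D) := by
    intro j e W he hj hW hE
    have h1 := hsp k N e (j + 1) 0 W (by omega) (by omega) le_rfl hW hE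
    refine LQ.SmD_le ?_ h1
    have e1 : k - e = s1 * D + 3 := by omega
    have e3 : (e : ℝ) - ((j + 1 : ℕ) : ℝ) = ((s * D : ℕ) : ℝ) := by
      have e4 : (e : ℝ) = ((j + 1 : ℕ) : ℝ) + ((s * D : ℕ) : ℝ) := by
        exact_mod_cast (by omega : e = (j + 1) + s * D)
      linarith
    rw [e1, e3, zero_div, mul_zero, add_zero, ← hR]
    have h2 : (2 : ℝ) ^ (-(c * ((s * D : ℕ) : ℝ))) ≤ (2 : ℝ) ^ (-(((2 * s1 + 3) * D : ℕ) : ℝ)) := by
      apply Real.rpow_le_rpow_of_exponent_le (by norm_num)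
      have h3 : (((2 * s1 + 3) * D : ℕ) : ℝ) ≤ c * ((s * D : ℕ) : ℝ) := by
        rw [hs']
        push_cast
        have h4 : (0 : ℝ) ≤ (2 * (s1 : ℝ) + 3) * D := by positivity
        nlinarith
      linarith
    have h5 : (4 : ℝ) ^ (s1 * D + 3) * (2 : ℝ) ^ (-(((2 * s1 + 3) * D : ℕ) : ℝ)) ≤ 64 / 2 ^ D := by
      rw [Real.rpow_neg (by norm_num), Real.rpow_natCast]
      have e5 : (4 : ℝ) ^ (s1 * D + 3) = 2 ^ (2 * (s1 * D)) * 64 := by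
        rw [pow_add, pow_mul 2 2]
        norm_num
      have e6 : (2 : ℝ) ^ ((2 * s1 + 3) * D) = 2 ^ (2 * (s1 * D)) * 2 ^ (3 * D) := by
        rw [← pow_add]
        congr 1
        ring
      rw [e5, e6, mul_inv]
      have e7 : (0 : ℝ) < 2 ^ (2 * (s1 * D)) := by positivity
      have e8 : (2 : ℝ) ^ (2 * (s1 * D)) * 64 * ((2 ^ (2 * (s1 * D)))⁻¹ * (2 ^ (3 * D))⁻¹) = 64 / 2 ^ (3 * D) := by
        field_simp
      rw [e8]
      apply div_le_div_of_nonneg_left (by norm_num) hpD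
      exact pow_le_pow_right₀ (by norm_num) (by omega)
    have h6 : (4 : ℝ) ^ (s1 * D + 3) * (2 : ℝ) ^ (-(c * ((s * D : ℕ) : ℝ))) ≤ 64 / 2 ^ D :=
      (mul_le_mul_of_nonneg_left h2 (by positivity)).trans h5
    calc K * R * (4 ^ (s1 * D + 3) * (2 : ℝ) ^ (-(c * ((s * D : ℕ) : ℝ)))) ≤ K * R * (64 / 2 ^ D) :=
          mul_le_mul_of_nonneg_left h6 (by positivity)
      _ = _ := by ring
  have hA : SmD DmJ k {g | g ∈ BrR (2 ^ (k + 4)) N ∧ g ∉ WinH (k - (s1 * D + 3)) (k - (s2 * D + 4))} (K * 64 * R / 2 ^ D) :=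
    hG _ _ _ rfl rfl (fun g hg => hg.1) ezw_head
  have hB : SmD DmJ k {g | g ∈ BrR (2 ^ (k + 4)) N ∧ g ∉ WinT (k - (s1 * D + 3)) (k - (s2 * D + 4))} (K * 64 * R / 2 ^ D) :=
    hG _ _ _ rfl rfl (fun g hg => hg.1) ezw_tail
  -- the short middle parts
  have hA0 : ∑' n : ℕ, gf {Z | Z ∈ Brd n ∧ Z ≠ [] ∧ (Z.length : ℝ) < x} ≤
      ENNReal.ofReal (C1 * (1 / 2 ^ ((2 * s1 + 1) * D)) * Ub k) := by
    rcases lt_or_ge x 1 with h1 | h1
    · refine sum_none fun Z _ hp => hp.1 ?_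
      have h4 : (Z.length : ℝ) < 1 := hp.2.trans h1
      have h5 : Z.length = 0 := by
        have : Z.length < 1 := by exact_mod_cast h4
        omega
      exact List.eq_nil_of_length_eq_zero h5
    · have h2 : x = (1 / 2 ^ (c2 * D)) * m k := by rw [hx]; ring
      have h3 : (0 : ℝ) < 1 / 2 ^ (c2 * D) := by positivity
      have h4 : (1 : ℝ) / 2 ^ (c2 * D) ≤ 1 := by
        rw [div_le_one (by positivity)]
        exact one_le_pow₀ (by norm_num)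
      have h5 := hs k _ h3 h4 (h2 ▸ h1)
      rw [← h2] at h5
      refine le_trans (ENNReal.tsum_le_tsum fun n => gf_mono ?_) (h5.trans (ENNReal.ofReal_le_ofReal ?_))
      · exact fun Z hZ => ⟨hZ.1, hZ.2.2⟩
      refine mul_le_mul_of_nonneg_right (mul_le_mul_of_nonneg_left ?_ hC1.le) hU.le
      calc ((1 : ℝ) / 2 ^ (c2 * D)) ^ a1 ≤ ((1 : ℝ) / 2 ^ (c2 * D)) ^ (1 / 2 : ℝ) :=
            Real.rpow_le_rpow_of_exponent_ge h3 h4 ha
        _ = _ := by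
            have e1 : (1 : ℝ) / 2 ^ (c2 * D) = (1 / 2 ^ ((2 * s1 + 1) * D)) ^ 2 := by
              rw [div_pow, one_pow, ← pow_mul]
              congr 2
              rw [hc2]
              ring
            rw [e1, ← Real.sqrt_eq_rpow, Real.sqrt_sq (by positivity)]
  have hCm : SmD DmJ k {g | g ∈ BrR (2 ^ (k + 4)) N ∧ g ∉ Mid (2 ^ (k - (s1 * D + 3))) x}
      (K * (1 + 64 * C1) * R / 2 ^ D) := by
    have h1 := hsp k N (k - D) (k - (s1 * D + 3)) (C1 * (1 / 2 ^ ((2 * s1 + 1) * D)) * Ub k) _ (by omega) (by omega)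
      (by positivity) (fun g hg => hg.1) (ezw_mid (e := k - (s1 * D + 3)) le_rfl (by omega) hA0)
    refine LQ.SmD_le ?_ h1
    have e1 : k - (k - D) = D := by omega
    have e2 : k - (k - (s1 * D + 3)) = s1 * D + 3 := by omega
    have e3 : ((k - D : ℕ) : ℝ) - ((k - (s1 * D + 3) : ℕ) : ℝ) = ((c0 * D + 3 : ℕ) : ℝ) := by
      have e4 : ((k - D : ℕ) : ℝ) = ((k - (s1 * D + 3) : ℕ) : ℝ) + ((c0 * D + 3 : ℕ) : ℝ) := by
        exact_mod_cast (by omega : k - D = (k - (s1 * D + 3)) + (c0 * D + 3))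
      linarith
    rw [e1, e2, e3, ← hR, mul_div_assoc, div_self hU.ne', mul_one]
    have h2 : (4 : ℝ) ^ D * (2 : ℝ) ^ (-(c * ((c0 * D + 3 : ℕ) : ℝ))) ≤ 1 / 2 ^ D := by
      have h3 : (2 : ℝ) ^ (-(c * ((c0 * D + 3 : ℕ) : ℝ))) ≤ (2 : ℝ) ^ (-((3 * D : ℕ) : ℝ)) := by
        apply Real.rpow_le_rpow_of_exponent_le (by norm_num)
        push_cast
        have h4 : (0 : ℝ) ≤ D := Nat.cast_nonneg _
        nlinarith
      rw [Real.rpow_neg (by norm_num) (((3 * D : ℕ) : ℝ)), Real.rpow_natCast] at h3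
      calc (4 : ℝ) ^ D * (2 : ℝ) ^ (-(c * ((c0 * D + 3 : ℕ) : ℝ))) ≤ (4 : ℝ) ^ D * (2 ^ (3 * D))⁻¹ :=
            mul_le_mul_of_nonneg_left h3 (by positivity)
        _ = _ := by
            have e5 : (4 : ℝ) ^ D = 2 ^ (2 * D) := by rw [pow_mul]; norm_num
            have e6 : (2 : ℝ) ^ (3 * D) = 2 ^ (2 * D) * 2 ^ D := by rw [← pow_add]; congr 1; ring
            rw [e5, e6]
            field_simp
    have h7 : (4 : ℝ) ^ (s1 * D + 3) * (C1 * (1 / 2 ^ ((2 * s1 + 1) * D))) = 64 * C1 / 2 ^ D := by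
      have e5 : (4 : ℝ) ^ (s1 * D + 3) = 2 ^ (2 * (s1 * D)) * 64 := by
        rw [pow_add, pow_mul 2 2]
        norm_num
      have e6 : (2 : ℝ) ^ ((2 * s1 + 1) * D) = 2 ^ (2 * (s1 * D)) * 2 ^ D := by
        rw [← pow_add]
        congr 1
        ring
      rw [e5, e6]
      field_simp
    rw [h7]
    calc K * R * (4 ^ D * (2 : ℝ) ^ (-(c * ((c0 * D + 3 : ℕ) : ℝ))) + 64 * C1 / 2 ^ D)
        ≤ K * R * (1 / 2 ^ D + 64 * C1 / 2 ^ D) := by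
          refine mul_le_mul_of_nonneg_left ?_ (by positivity)
          linarith
      _ = _ := by ring
  have hfin := LQ.SmD_union (by positivity) (by positivity) hCm (LQ.SmD_union (by positivity) (by positivity) hA hB)
  have hsub : BrR (2 ^ (k + 4)) N \ Good (k - (s1 * D + 3)) (k - (s2 * D + 4)) x ⊆
      {g | g ∈ BrR (2 ^ (k + 4)) N ∧ g ∉ Mid (2 ^ (k - (s1 * D + 3))) x} ∪
      ({g | g ∈ BrR (2 ^ (k + 4)) N ∧ g ∉ WinH (k - (s1 * D + 3)) (k - (s2 * D + 4))} ∪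
       {g | g ∈ BrR (2 ^ (k + 4)) N ∧ g ∉ WinT (k - (s1 * D + 3)) (k - (s2 * D + 4))}) := by
    rintro g ⟨hg, hn⟩
    by_cases h1 : g ∈ Mid (2 ^ (k - (s1 * D + 3))) x
    · by_cases h2 : g ∈ WinH (k - (s1 * D + 3)) (k - (s2 * D + 4))
      · by_cases h3 : g ∈ WinT (k - (s1 * D + 3)) (k - (s2 * D + 4))
        · exact absurd ⟨⟨h2, h3⟩, h1⟩ hn
        · exact Or.inr (Or.inr ⟨hg, h3⟩)
      · exact Or.inr (Or.inl ⟨hg, h2⟩)
    · exact Or.inl ⟨hg, h1⟩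
  refine LQ.SmD_le (le_of_eq ?_) (QF.SmD_mono hsub hfin)
  ring

end EN

end HexObs
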