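import Pool.Agent.EN.GBSum
import Pool.Agent.EN.GBGood
import Pool.Agent.EN.EmoDefs

/-!
EN: the classes Good / Bad give GoodBad, hence GBm (the exact norm of one good leaf among bad ones, uniformly in the
box).
-/

set_option autoImplicit false

namespace HexObs

namespace EN

open Finset TS SDN NTW NTA

open scoped ENNReal

/-- good and bad leaves at every depth -/
theorem goodBad_of {m : ℕ → ℝ} {a1 : ℝ} (hm : ∀ k, 0 < m k) (hC : C1 m) (h1 : 1 / 2 < a1) (h2 : a1 ≤ 3 / 5)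
    (hI : BrL.IndB2 a1) : GoodBad m := by
  obtain ⟨C, B, s1, s2, c2, hC1, hB1, -, -, h⟩ := good_bad hm hC h1 h2 hI
  refine ⟨C, B, max s2 4, hC1, hB1, fun k N D hD hk => ?_⟩
  have hk' : s2 * D + 4 ≤ k := by
    have e1 : s2 * D ≤ max s2 4 * D := Nat.mul_le_mul_right _ (le_max_left _ _)
    have e2 : 4 ≤ max s2 4 := le_max_right _ _
    omega
  obtain ⟨hb, hx⟩ := h k N D hD hk'
  refine ⟨_, hb, hx.le' ?_⟩
  have hU : 0 ≤ UU N / Ub k := div_nonneg (Num2Aux.UU_pos _).le (Ub_pos k).le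
  have h3 : 1 ≤ (1 + UU N / Ub k) ^ 2 := one_le_pow₀ (by linarith)
  apply div_le_div_of_nonneg_right _ (hm k).le
  apply mul_le_mul_of_nonneg_right _ (by positivity)
  exact le_mul_of_one_le_right (by linarith) h3

/-- **the exact norm of one good leaf among bad ones, uniformly in the box** -/
theorem gbm_of {m : ℕ → ℝ} {a1 : ℝ} (hm : ∀ k, 0 < m k) (hup : MUp m) (hC : C1 m) (h1 : 1 / 2 < a1) (h2 : a1 ≤ 3 / 5)
    (hI : BrL.IndB2 a1) : ∃ J00 : ℕ, ∀ J0 : ℕ, J00 ≤ J0 → GBm m J0 := by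
  obtain ⟨J00, k0, h⟩ := gb_of hm hup (goodBad_of hm hC h1 h2 hI)
  refine ⟨J00, fun J0 hJ0 => ?_⟩
  obtain ⟨C, hC', h⟩ := h J0 hJ0
  exact ⟨C, k0, hC', fun k mu hk => h k hk mu⟩

end EN

end HexObs

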