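import Pool.Agent.NTA.LongQ

/-!
EN, the classes Good and Bad of the leaves: a good leaf has cut levels in the windows near the foot and near the top and a
free middle part with at least x letters. A bad leaf has a giant over a window or a short middle part.
-/

set_option autoImplicit false

namespace HexObs

namespace EN

open Finset TS SDN NTW NTA

open scoped ENNReal

/-- no giant at the head: the pieces over a level of [2^j, 2^(j+1)) end at most at the level 2^e -/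
def WinH (e j : ℕ) : Set (List Bool) := {g | ∀ (n r : ℕ) (X P Z : List Bool), X ∈ Brd n → P ∈ Irr r → Z ∈ BU →
  X ++ (P ++ Z) = g → n < 2 ^ (j + 1) → 2 ^ j < n + r → n + r ≤ 2 ^ e}

/-- no giant at the tail -/
def WinT (e j : ℕ) : Set (List Bool) := {g | ∀ (m r : ℕ) (Z P M : List Bool), Z ∈ BU → P ∈ Irr r → M ∈ Brd m →
  Z ++ (P ++ M) = g → m < 2 ^ (j + 1) → 2 ^ j < m + r → m + r ≤ 2 ^ e}

/-- good leaves: no giant over the windows, every free middle part has at least x letters -/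
def Good (e j : ℕ) (x : ℝ) : Set (List Bool) := (WinH e j ∩ WinT e j) ∩ LQ.Mid (2 ^ e) x

open LQ

/-- a cut level is not in the inner of a piece (head) -/
lemma cutH {g X P Z B V : List Bool} {n r : ℕ} (hX : X ∈ Brd n) (hP : P ∈ Irr r) (hZ : Z ∈ BU) (hB : B ∈ BU) (hV : V ∈ BU)
    (h1 : X ++ (P ++ Z) = g) (h2 : B ++ V = g) (h3 : n < hgt B) : n + r ≤ hgt B := by
  by_contra hcon
  have hXU : X ∈ BU := ⟨n, hX⟩
  have hPU : P ∈ BU := ⟨r, hP.1⟩
  have hXh := hgt_eq hX
  have hPh := hgt_eq hP.1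
  obtain ⟨v, hv, e1, e2⟩ := nest hXU (BU_app hPU hZ) hB hV (h1.trans h2.symm) (by omega)
  have hvh : hgt B = n + hgt v := by rw [e1, hgt_app hXU hv, hXh]
  obtain ⟨w, hw, e3, -⟩ := nest hv hV hPU hZ e2.symm (by omega)
  have hwh : r = hgt v + hgt w := by rw [← hPh, e3, hgt_app hv hw]
  rcases hP.2.2 _ _ _ _ (hgt_mem hv) (hgt_mem hw) e3 with h | h
  · rw [h, hgt_eq nil_mem_Brd] at hvh
    omega
  · rw [h, hgt_eq nil_mem_Brd] at hwh
    omega

/-- a cut level is not in the inner of a piece (tail) -/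
lemma cutT {g Z P M V B : List Bool} {m r : ℕ} (hZ : Z ∈ BU) (hP : P ∈ Irr r) (hM : M ∈ Brd m) (hV : V ∈ BU) (hB : B ∈ BU)
    (h1 : Z ++ (P ++ M) = g) (h2 : V ++ B = g) (h3 : m < hgt B) : m + r ≤ hgt B := by
  by_contra hcon
  have hMU : M ∈ BU := ⟨m, hM⟩
  have hPU : P ∈ BU := ⟨r, hP.1⟩
  have hMh := hgt_eq hM
  have hPh := hgt_eq hP.1
  have hZP := BU_app hZ hPU
  have e0 : V ++ B = (Z ++ P) ++ M := by rw [h2, ← h1, List.append_assoc]
  have hh : hgt V + hgt B = hgt (Z ++ P) + m := by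
    have h5 := hgt_app hV hB
    have h6 := hgt_app hZP hMU
    rw [← e0, h5, hMh] at h6
    exact h6
  have hZPh : hgt (Z ++ P) = hgt Z + r := by rw [hgt_app hZ hPU, hPh]
  obtain ⟨v, hv, e1, e2⟩ := nest hV hB hZP hMU e0 (by omega)
  have hvh : hgt (Z ++ P) = hgt V + hgt v := by rw [e1, hgt_app hV hv]
  obtain ⟨w, hw, e3, e4⟩ := nest hZ hPU hV hv e1 (by omega)
  have hwh : hgt V = hgt Z + hgt w := by rw [e3, hgt_app hZ hw]
  rcases hP.2.2 _ _ _ _ (hgt_mem hw) (hgt_mem hv) e4 with h | h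
  · rw [h, hgt_eq nil_mem_Brd] at hwh
    omega
  · rw [h, hgt_eq nil_mem_Brd] at hvh
    omega

/-- a giant at the head excludes the cut levels in the window -/
lemma no_head {e j : ℕ} {g B V : List Bool} (hg : g ∉ WinH e j) (hB : B ∈ BU) (hV : V ∈ BU) (h : B ++ V = g)
    (h1 : 2 ^ (j + 1) < hgt B) : 2 ^ e < hgt B := by
  unfold WinH at hg
  rw [Set.mem_ofPred_eq] at hg
  push Not at hg
  obtain ⟨n, r, X, P, Z, hX, hP, hZ, e1, h2, h3, h4⟩ := hg
  have := cutH hX hP hZ hB hV e1 h (by omega)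
  omega

lemma no_tail {e j : ℕ} {g B V : List Bool} (hg : g ∉ WinT e j) (hV : V ∈ BU) (hB : B ∈ BU) (h : V ++ B = g)
    (h1 : 2 ^ (j + 1) < hgt B) : 2 ^ e < hgt B := by
  unfold WinT at hg
  rw [Set.mem_ofPred_eq] at hg
  push Not at hg
  obtain ⟨m, r, Z, P, M, hZ, hP, hM, e1, h2, h3, h4⟩ := hg
  have := cutT hZ hP hM hV hB e1 h (by omega)
  omega

/-- a short middle part: all middle parts behind the level 2^e are short -/
lemma short_mid {E : ℕ} {x : ℝ} {g B Z T : List Bool} (hg : g ∉ Mid E x) (hB : B ∈ BU) (hZ : Z ∈ BU) (hT : T ∈ BU)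
    (h : B ++ (Z ++ T) = g) (h1 : E ≤ hgt B) (h2 : E ≤ hgt T) : (Z.length : ℝ) < x := by
  unfold Mid at hg
  rw [Set.mem_ofPred_eq] at hg
  push Not at hg
  obtain ⟨B', Z', T', hB', hZ', hT', e1, h3, h4, h5⟩ := hg
  have e2 : B' ++ (Z' ++ T') = B ++ (Z ++ T) := by rw [← e1, h]
  obtain ⟨v, hv, e3, e4⟩ := nest hB' (BU_app hZ' hT') hB (BU_app hZ hT) e2 (by omega)
  have e5 : (v ++ Z) ++ T = Z' ++ T' := by rw [e4, List.append_assoc]
  have hvZ := BU_app hv hZ
  have hh : hgt (v ++ Z) + hgt T = hgt Z' + hgt T' := by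
    have a1 := hgt_app hvZ hT
    have a2 := hgt_app hZ' hT'
    rw [e5, a2] at a1
    exact a1.symm
  obtain ⟨w, hw, e6, -⟩ := nest hvZ hT hZ' hT' e5 (by omega)
  have h6 : Z.length ≤ Z'.length := by
    rw [e6, List.length_append, List.length_append]
    omega
  have h7 : (Z.length : ℝ) ≤ Z'.length := by exact_mod_cast h6
  linarith

end EN

end HexObs
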