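import Mathlib

/-!
EN: the numbers of the first good level. D_i = 2 ^ i.
-/

set_option autoImplicit false

namespace HexObs

namespace EN

open Finset

lemma half_tower (I : ℕ) : ∑ i ∈ range I, ((1 : ℝ) / 2) ^ (2 ^ i) ≤ 1 := by
  have h : ∀ i ∈ range I, ((1 : ℝ) / 2) ^ (2 ^ i) ≤ (1 / 2) * (1 / 2) ^ i := by
    intro i _
    rw [← pow_succ']
    exact pow_le_pow_of_le_one (by norm_num) (by norm_num) (by
      have := Nat.lt_two_pow_self (n := i)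
      omega)
  refine (sum_le_sum h).trans ?_
  rw [← mul_sum, geom_sum_eq (by norm_num)]
  have h1 : (0 : ℝ) ≤ (1 / 2) ^ I := by positivity
  have h2 : (((1 : ℝ) / 2) ^ I - 1) / (1 / 2 - 1) = 2 - 2 * (1 / 2) ^ I := by ring
  rw [h2]
  linarith

/-- the last level -/
lemma last_level (s0 k : ℕ) (hs0 : 1 ≤ s0) (hk : 2 * s0 ≤ k) :
    ∃ I : ℕ, s0 * 2 ^ I + s0 ≤ k ∧ k ≤ 4 * s0 * 2 ^ I := by
  classical
  have hex : ∃ i : ℕ, k < s0 * 2 ^ (i + 1) + s0 := by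
    refine ⟨k, ?_⟩
    have h1 := Nat.lt_two_pow_self (n := k)
    have h2 : 2 ^ (k + 1) ≤ s0 * 2 ^ (k + 1) := Nat.le_mul_of_pos_left _ hs0
    have h3 : 2 ^ (k + 1) = 2 * 2 ^ k := by rw [pow_succ']
    omega
  have h1 := Nat.find_spec hex
  obtain ⟨I, hI⟩ : ∃ I, I = Nat.find hex := ⟨_, rfl⟩
  rw [← hI] at h1
  refine ⟨I, ?_, ?_⟩
  · rcases Nat.eq_zero_or_pos I with h0 | h0
    · rw [h0]
      omega
    · have h2 := Nat.find_min hex (m := I - 1) (by omega)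
      rw [not_lt, show I - 1 + 1 = I by omega] at h2
      exact h2
  · rw [pow_succ'] at h1
    have e : s0 * (2 * 2 ^ I) = 2 * (s0 * 2 ^ I) := by ring
    have e2 : 4 * s0 * 2 ^ I = 4 * (s0 * 2 ^ I) := by ring
    rw [e] at h1
    rw [e2]
    omega

/-- the sum over the levels -/
theorem level_sum {B Cm : ℝ} (hB : 1 ≤ B) (hCm : 1 ≤ Cm) (s0 : ℕ) (hs0 : 1 ≤ s0) :
    ∃ J00 : ℕ, ∀ (J0 : ℕ) (C m0 : ℝ), J00 ≤ J0 → 1 ≤ C → 0 < m0 →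
      ∀ (k : ℕ) (M : ℝ), 2 * s0 ≤ k → 0 < M → M ≤ Cm ^ k * m0 → ∃ I : ℕ, s0 * 2 ^ I + s0 ≤ k ∧
        C * B ^ (2 ^ 0) / M + ∑ i ∈ range I, C * B ^ (2 ^ (i + 1)) / M * (C / 2 ^ (2 ^ i)) ^ J0 +
          (C / 2 ^ (2 ^ I)) ^ (J0 + 1) ≤ C ^ (J0 + 1) * (B + 1 + m0) / M := by
  obtain ⟨j1, hj1⟩ := pow_unbounded_of_one_lt (2 * B ^ 2) (show (1 : ℝ) < 2 by norm_num)
  obtain ⟨j2, hj2⟩ := pow_unbounded_of_one_lt (Cm ^ (4 * s0)) (show (1 : ℝ) < 2 by norm_num)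
  refine ⟨j1 + j2, fun J0 C m0 hJ hC hm0 k M hk hM hMk => ?_⟩
  obtain ⟨I, hI1, hI2⟩ := last_level s0 k hs0 hk
  refine ⟨I, hI1, ?_⟩
  have hC0 : 0 ≤ C := by linarith
  have hB0 : 0 ≤ B := by linarith
  have hJ1 : 2 * B ^ 2 ≤ (2 : ℝ) ^ J0 :=
    hj1.le.trans (pow_le_pow_right₀ (by norm_num) (by omega))
  have hJ2 : Cm ^ (4 * s0) ≤ (2 : ℝ) ^ (J0 + 1) :=
    hj2.le.trans (pow_le_pow_right₀ (by norm_num) (by omega))
  -- one term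
  have hterm : ∀ i ∈ range I, C * B ^ (2 ^ (i + 1)) / M * (C / 2 ^ (2 ^ i)) ^ J0 ≤
      C ^ (J0 + 1) / M * (1 / 2) ^ (2 ^ i) := by
    intro i _
    have h1 : B ^ (2 ^ (i + 1)) / (2 ^ (2 ^ i)) ^ J0 ≤ ((1 : ℝ) / 2) ^ (2 ^ i) := by
      have e1 : B ^ (2 ^ (i + 1)) = (B ^ 2) ^ (2 ^ i) := by rw [← pow_mul, ← pow_succ']
      have e2 : (((2 : ℝ) ^ (2 ^ i)) ^ J0) = (2 ^ J0) ^ (2 ^ i) := by rw [← pow_mul, ← pow_mul, mul_comm]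
      rw [e1, e2, ← div_pow]
      apply pow_le_pow_left₀ (by positivity)
      rw [div_le_div_iff₀ (by positivity) (by norm_num)]
      linarith
    have h2 : C * B ^ (2 ^ (i + 1)) / M * (C / 2 ^ (2 ^ i)) ^ J0 =
        C ^ (J0 + 1) / M * (B ^ (2 ^ (i + 1)) / (2 ^ (2 ^ i)) ^ J0) := by
      rw [div_pow, pow_succ' C J0]
      generalize B ^ (2 ^ (i + 1)) = X
      generalize ((2 : ℝ) ^ (2 ^ i)) ^ J0 = Y
      ring
    rw [h2]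
    gcongr
  have hsum : ∑ i ∈ range I, C * B ^ (2 ^ (i + 1)) / M * (C / 2 ^ (2 ^ i)) ^ J0 ≤ C ^ (J0 + 1) / M := by
    refine (sum_le_sum hterm).trans ?_
    rw [← mul_sum]
    exact mul_le_of_le_one_right (by positivity) (half_tower I)
  -- the last level
  have hlast : (C / 2 ^ (2 ^ I)) ^ (J0 + 1) ≤ C ^ (J0 + 1) * m0 / M := by
    rw [div_pow, div_le_div_iff₀ (by positivity) hM]
    have h1 : Cm ^ k ≤ ((2 : ℝ) ^ (2 ^ I)) ^ (J0 + 1) := by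
      calc Cm ^ k ≤ Cm ^ (4 * s0 * 2 ^ I) := pow_le_pow_right₀ hCm hI2
        _ = (Cm ^ (4 * s0)) ^ (2 ^ I) := by rw [pow_mul]
        _ ≤ ((2 : ℝ) ^ (J0 + 1)) ^ (2 ^ I) := pow_le_pow_left₀ (by positivity) hJ2 _
        _ = ((2 : ℝ) ^ (2 ^ I)) ^ (J0 + 1) := by rw [← pow_mul, ← pow_mul, mul_comm]
    have h2 : M ≤ ((2 : ℝ) ^ (2 ^ I)) ^ (J0 + 1) * m0 := hMk.trans (by gcongr)
    calc C ^ (J0 + 1) * M ≤ C ^ (J0 + 1) * (((2 : ℝ) ^ (2 ^ I)) ^ (J0 + 1) * m0) := by gcongr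
      _ = C ^ (J0 + 1) * m0 * ((2 : ℝ) ^ (2 ^ I)) ^ (J0 + 1) := by ring
  have h0 : C * B ^ (2 ^ 0) / M ≤ C ^ (J0 + 1) * B / M := by
    rw [pow_zero, pow_one]
    have h1 : C ≤ C ^ (J0 + 1) := by
      calc C = C ^ 1 := (pow_one C).symm
        _ ≤ C ^ (J0 + 1) := pow_le_pow_right₀ hC (by omega)
    gcongr
  have e : C ^ (J0 + 1) * (B + 1 + m0) / M =
      C ^ (J0 + 1) * B / M + C ^ (J0 + 1) / M + C ^ (J0 + 1) * m0 / M := by ring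
  rw [e]
  linarith

end EN

end HexObs
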