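import Pool.Agent.EN.Marks
import Pool.Agent.EN.GBNum
import Pool.Agent.NTA.TailDefs

/-!
EN: the exact norm of one good leaf among bad ones, from the classes Good / Bad of the depths D_i = 2 ^ i, uniformly in
the box.
-/

set_option autoImplicit false

namespace HexObs

namespace EN

open Finset TS SDN NTW NTA

open scoped ENNReal

/-- good and bad leaves at every depth D: the bad ones have the norm 2 ^ (-D), the good ones the exact norm B ^ D / m k -/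
def GoodBad (m : ℕ → ℝ) : Prop := ∃ (C B : ℝ) (s0 : ℕ), 1 ≤ C ∧ 1 ≤ B ∧ ∀ k N D : ℕ, 1 ≤ D → s0 * D + s0 ≤ k →
  ∃ Gs : Set (List Bool),
    SmD DmJ k (BrR (2 ^ (k + 4)) N \ Gs) (C * (1 + UU N / Ub k) ^ 2 / 2 ^ D) ∧
    SmDX DmJ k (BrR (2 ^ (k + 4)) N ∩ Gs) (C * (1 + UU N / Ub k) ^ 2 * B ^ D / m k)

lemma SmDX.le' {Dm : ℕ → ℝ≥0∞ → (List Bool → ℝ≥0∞) → Prop} {kc : ℕ} {S : Set (List Bool)} {d d' : ℝ}
    (h : SmDX Dm kc S d) (hd : d ≤ d') : SmDX Dm kc S d' := by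
  refine ⟨fun x F hF hx => (h.near x F hF hx).trans (mul_le_mul_left (ENNReal.ofReal_le_ofReal hd) _),
    fun y x P F hP hf hF hy hx N => (h.free y x P F hP hf hF hy hx N).trans (mul_le_mul_left
      (ENNReal.ofReal_le_ofReal (mul_le_mul_of_nonneg_right hd (Num2Aux.UU_pos _).le)) _)⟩

lemma SmD.le' {Dm : ℕ → ℝ≥0∞ → (List Bool → ℝ≥0∞) → Prop} {kc : ℕ} {S : Set (List Bool)} {d d' : ℝ}
    (h : SmD Dm kc S d) (hd : d ≤ d') : SmD Dm kc S d' := by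
  refine ⟨fun x Φ hΦ => (h.near x Φ hΦ).trans (mul_le_mul_left (ENNReal.ofReal_le_ofReal hd) _),
    fun y x Ψ Φ hΨ hf hΦ => (h.free y x Ψ Φ hΨ hf hΦ).trans (mul_le_mul_left
      (ENNReal.ofReal_le_ofReal (mul_le_mul_of_nonneg_right hd (Num2Aux.UU_pos _).le)) _)⟩

lemma UU_box (k j : ℕ) : UU (2 ^ (k + j)) ≤ 2 ^ j * Ub k := by
  induction j with
  | zero => simp [Ub]
  | succ j ih =>
    have h := Ub_succ (k + j)
    have h2 : Ub (k + j) ≤ 2 ^ j * Ub k := ih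
    calc UU (2 ^ (k + (j + 1))) = Ub (k + j + 1) := rfl
      _ ≤ 2 * Ub (k + j) := h
      _ ≤ 2 * (2 ^ j * Ub k) := by linarith
      _ = 2 ^ (j + 1) * Ub k := by rw [pow_succ']; ring

/-- the exact norm of one good leaf among bad ones -/
theorem gb_of {m : ℕ → ℝ} (hm : ∀ k, 0 < m k) (hup : MUp m) (hgb : GoodBad m) :
    ∃ J00 k0 : ℕ, ∀ J0 : ℕ, J00 ≤ J0 → ∃ C : ℝ, 1 ≤ C ∧ ∀ k : ℕ, k0 ≤ k → ∀ mu : ℕ,
      GB DmJ k (BrR (2 ^ (k + 4)) (2 ^ (k + mu + 2))) J0 (C ^ (mu + 1) / m k) := by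
  classical
  obtain ⟨C, B, s0, hC, hB, hgb⟩ := hgb
  obtain ⟨Cm, hCm, hup⟩ := hup
  have hm0 := hm 0
  have hmk : ∀ k, m k ≤ Cm ^ k * m 0 := by
    intro k
    induction k with
    | zero => simp
    | succ k ih =>
      calc m (k + 1) ≤ Cm * m k := hup k
        _ ≤ Cm * (Cm ^ k * m 0) := by gcongr
        _ = Cm ^ (k + 1) * m 0 := by rw [pow_succ']; ring
  obtain ⟨J00, h⟩ := level_sum hB hCm (s0 + 1) (by omega)
  refine ⟨J00, 2 * (s0 + 1), fun J0 hJ0 => ⟨(256 * C) ^ (J0 + 1) * (B + 1 + m 0), ?_, fun k hk mu => ?_⟩⟩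
  · have h1 : (1 : ℝ) ≤ (256 * C) ^ (J0 + 1) := one_le_pow₀ (by linarith)
    have h2 : 1 ≤ B + 1 + m 0 := by linarith
    exact one_le_mul_of_one_le_of_one_le h1 h2
  obtain ⟨Q, hQ⟩ : ∃ Q : ℝ, Q = (1 + 2 ^ (mu + 2)) ^ 2 := ⟨_, rfl⟩
  have hQ1 : 1 ≤ Q := by
    rw [hQ]
    have h1 : (0 : ℝ) ≤ 2 ^ (mu + 2) := by positivity
    nlinarith
  have hCQ : 1 ≤ C * Q := one_le_mul_of_one_le_of_one_le hC hQ1
  have hQ2 : C * Q ≤ (256 * C) ^ (mu + 1) := by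
    have h1 : Q ≤ 64 * 4 ^ mu := by
      have h2 : (1 : ℝ) ≤ 2 ^ (mu + 2) := one_le_pow₀ (by norm_num)
      have h3 : (2 : ℝ) ^ (mu + 2) * 2 ^ (mu + 2) = 16 * 4 ^ mu := by
        have e4 : (4 : ℝ) ^ mu = 2 ^ mu * 2 ^ mu := by rw [← mul_pow]; norm_num
        rw [e4, pow_add]
        ring
      rw [hQ]
      nlinarith
    have h2 : (64 : ℝ) * 4 ^ mu ≤ 256 ^ (mu + 1) := by
      have h3 : (4 : ℝ) ^ mu ≤ 256 ^ mu := pow_le_pow_left₀ (by norm_num) (by norm_num) _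
      have h4 : (0 : ℝ) < 4 ^ mu := by positivity
      rw [pow_succ']
      linarith
    calc C * Q ≤ C ^ (mu + 1) * 256 ^ (mu + 1) := by
          have h3 : C ≤ C ^ (mu + 1) := by
            calc C = C ^ 1 := (pow_one C).symm
              _ ≤ C ^ (mu + 1) := pow_le_pow_right₀ hC (by omega)
          have h4 : Q ≤ 256 ^ (mu + 1) := h1.trans h2
          have h5 : 0 ≤ Q := by linarith
          have h6 : 0 ≤ C := by linarith
          gcongr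
      _ = (256 * C) ^ (mu + 1) := by rw [← mul_pow, mul_comm]
  obtain ⟨I, hI, hE⟩ := h J0 (C * Q) (m 0) hJ0 hCQ hm0 k (m k) hk (hm k) (hmk k)
  have hE2 : (C * Q) ^ (J0 + 1) * (B + 1 + m 0) / m k ≤
      ((256 * C) ^ (J0 + 1) * (B + 1 + m 0)) ^ (mu + 1) / m k := by
    have hmk0 := (hm k).le
    have h1 : (C * Q) ^ (J0 + 1) ≤ ((256 * C) ^ (J0 + 1)) ^ (mu + 1) := by
      calc (C * Q) ^ (J0 + 1) ≤ ((256 * C) ^ (mu + 1)) ^ (J0 + 1) := pow_le_pow_left₀ (by linarith) hQ2 _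
        _ = ((256 * C) ^ (J0 + 1)) ^ (mu + 1) := by rw [← pow_mul, ← pow_mul, mul_comm (mu + 1)]
    have h2 : B + 1 + m 0 ≤ (B + 1 + m 0) ^ (mu + 1) := by
      have h3 : 1 ≤ B + 1 + m 0 := by linarith
      calc B + 1 + m 0 = (B + 1 + m 0) ^ 1 := (pow_one _).symm
        _ ≤ (B + 1 + m 0) ^ (mu + 1) := pow_le_pow_right₀ h3 (by omega)
    have h3 : 0 ≤ B + 1 + m 0 := by linarith
    have h4 : (0 : ℝ) ≤ 256 * C := by linarith
    rw [mul_pow ((256 * C) ^ (J0 + 1))]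
    exact div_le_div_of_nonneg_right (mul_le_mul h1 h2 h3 (by positivity)) hmk0
  obtain ⟨N, hN⟩ : ∃ N, N = 2 ^ (k + mu + 2) := ⟨_, rfl⟩
  have hU : 0 < Ub k := Num2Aux.UU_pos _
  have hq : (1 + UU N / Ub k) ^ 2 ≤ Q := by
    have h1 : UU N / Ub k ≤ 2 ^ (mu + 2) := by
      rw [div_le_iff₀ hU, hN, show k + mu + 2 = k + (mu + 2) by ring]
      exact UU_box k (mu + 2)
    have h2 : 0 ≤ UU N / Ub k := div_nonneg (Num2Aux.UU_pos _).le hU.le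
    rw [hQ]
    exact pow_le_pow_left₀ (by linarith) (by linarith) 2
  have hDI : ∀ i, i ≤ I → s0 * 2 ^ i + s0 ≤ k := by
    intro i hi
    have h1 : 2 ^ i ≤ 2 ^ I := Nat.pow_le_pow_right (by norm_num) hi
    have h2 : s0 * 2 ^ i ≤ (s0 + 1) * 2 ^ I := Nat.mul_le_mul (by omega) h1
    omega
  have key : ∀ i : ℕ, ∃ Gs : Set (List Bool), i ≤ I →
      SmD DmJ k (BrR (2 ^ (k + 4)) N \ Gs) (C * Q / 2 ^ (2 ^ i)) ∧
      SmDX DmJ k (BrR (2 ^ (k + 4)) N ∩ Gs) (C * Q * B ^ (2 ^ i) / m k) := by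
    intro i
    by_cases hi : i ≤ I
    · obtain ⟨Gs, h1, h2⟩ := hgb k N (2 ^ i) Nat.one_le_two_pow (hDI i hi)
      refine ⟨Gs, fun _ => ⟨SmD.le' h1 ?_, SmDX.le' h2 ?_⟩⟩
      · gcongr
      · have := (hm k).le
        have hB0 : 0 ≤ B := by linarith
        gcongr
    · exact ⟨∅, fun h => absurd h hi⟩
  choose Gs hGs using key
  rw [← hN]
  refine ⟨I, fun i => BrR (2 ^ (k + 4)) N ∩ Gs i, fun i => BrR (2 ^ (k + 4)) N \ Gs i,
    fun i => C * Q * B ^ (2 ^ i) / m k, fun i => C * Q / 2 ^ (2 ^ i), fun i _ => ?_, fun i _ => ?_,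
    fun i _ => Set.inter_subset_left, fun i _ => Set.sdiff_subset, fun i _ g hg => ?_,
    fun i hi => (hGs i hi).2, fun i hi => (hGs i hi).1, hE.trans hE2⟩
  · have := (hm k).le
    have hB0 : 0 ≤ B := by linarith
    have hC0 : 0 ≤ C * Q := by linarith
    exact div_nonneg (mul_nonneg hC0 (pow_nonneg hB0 _)) this
  · have hC0 : 0 ≤ C * Q := by linarith
    positivity
  · by_cases h1 : g ∈ Gs i
    · exact Or.inl ⟨hg, h1⟩
    · exact Or.inr ⟨hg, h1⟩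

end EN

end HexObs
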