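import Pool.Agent.EN.LatO
import Pool.Agent.NUX.Br1
import Pool.Agent.PHW.AntiC
import Pool.Agent.PHW.JumpV
import Pool.Agent.PHW.Mirror
import Pool.Agent.NT.Quant
import Pool.Agent.TightN.SDec
import Pool.Agent.HexSPR.KillB

/-!
EN, lateral position: blocks of a bridge (the irreducible pieces up to the first one that ends over the level N) and the
initial part up to the irreducible piece with the letter number b.
-/

set_option autoImplicit false

namespace HexObs

namespace EN

open Finset TS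

open scoped ENNReal

namespace LB

/-- blocks: a bridge of height at most N and an irreducible piece that ends above N -/
def Bk (N : ℕ) : Set (List Bool) :=
  {B | ∃ (y r : ℕ) (X P : List Bool), X ∈ Brd y ∧ P ∈ Irr r ∧ y ≤ N ∧ N + 1 ≤ y + r ∧ B = X ++ P}

/-- initial parts: the last piece is over the letter number b -/
def Sd (b : ℕ) : Set (List Bool) :=
  {T | ∃ (y r : ℕ) (X P : List Bool), X ∈ Brd y ∧ P ∈ Irr r ∧ X.length ≤ b ∧ b < X.length + P.length ∧ T = X ++ P}

/-- the same, the bridge in front of the last piece has a height of at most N -/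
def Sn (N b : ℕ) : Set (List Bool) :=
  {T | ∃ (y r : ℕ) (X P : List Bool), X ∈ Brd y ∧ P ∈ Irr r ∧ y ≤ N ∧ X.length ≤ b ∧ b < X.length + P.length ∧ T = X ++ P}

/-- less than M blocks in front of the last piece -/
def Few (N : ℕ) : ℕ → ℕ → Set (List Bool)
  | 0, _ => ∅
  | M + 1, b => {T | T ∈ Sn N b ∨ ∃ B ∈ Bk N, B.length ≤ b ∧ ∃ T' ∈ Few N M (b - B.length), T = B ++ T'}

/-- at least M blocks in front of the last piece -/
def Many (N : ℕ) : ℕ → ℕ → Set (List Bool)
  | 0, b => Sd b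
  | M + 1, b => {T | ∃ B ∈ Bk N, B.length ≤ b ∧ ∃ T' ∈ Many N M (b - B.length), T = B ++ T'}

/-! ### words -/

lemma Irr_BU {r : ℕ} {P : List Bool} (h : P ∈ Irr r) : P ∈ BU := ⟨r, h.1⟩

lemma BU_app {s t : List Bool} (hs : s ∈ BU) (ht : t ∈ BU) : s ++ t ∈ BU := by
  obtain ⟨m, hm⟩ := hs
  obtain ⟨n, hn⟩ := ht
  exact ⟨m + n, Brd_append hm hn⟩

lemma Bk_BU {N : ℕ} {B : List Bool} (h : B ∈ Bk N) : B ∈ BU := by
  obtain ⟨y, r, X, P, hX, hP, -, -, rfl⟩ := h
  exact BU_app ⟨y, hX⟩ (Irr_BU hP)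

lemma Sd_BU {b : ℕ} {T : List Bool} (h : T ∈ Sd b) : T ∈ BU := by
  obtain ⟨y, r, X, P, hX, hP, -, -, rfl⟩ := h
  exact BU_app ⟨y, hX⟩ (Irr_BU hP)

lemma Sn_Sd {N b : ℕ} {T : List Bool} (h : T ∈ Sn N b) : T ∈ Sd b := by
  obtain ⟨y, r, X, P, hX, hP, -, h1, h2, rfl⟩ := h
  exact ⟨y, r, X, P, hX, hP, h1, h2, rfl⟩

lemma Bk_not {N : ℕ} {B : List Bool} (h : B ∈ Bk N) : B.map not ∈ Bk N := by
  obtain ⟨y, r, X, P, hX, hP, h1, h2, rfl⟩ := h
  exact ⟨y, r, X.map not, P.map not, Brd_not hX, Irr_not hP, h1, h2, List.map_append⟩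

lemma BU_dx {t : List Bool} (h : t ∈ BU) : dx up t t.length = up := by
  obtain ⟨n, hn⟩ := h
  exact (mem_Brd.1 hn).2.2.1

/-- a cut inside an irreducible piece does not exist -/
lemma irr_pf {x r t v : ℕ} {X P T V : List Bool} (hX : X ∈ Brd x) (hP : P ∈ Irr r) (hT : T ∈ Brd t) (hV : V ∈ Brd v)
    (h : X ++ P = T ++ V) (hxt : x < t) : V = [] := by
  obtain ⟨z, hz, h1, h2⟩ := cut_nested hX hT hP.1 hV hxt.le h
  rcases hP.2.2 (t - x) v z V hz hV h2 with h3 | h3
  · exfalso
    rw [h3] at hz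
    have := Brd_height hz nil_mem_Brd
    omega
  · exact h3

/-- the letters of two cuts of the same word -/
lemma hgt_lt_of_len {x r t v : ℕ} {X P T V : List Bool} (hX : X ∈ Brd x) (hP : P ∈ Brd r) (hT : T ∈ Brd t) (hV : V ∈ Brd v)
    (h : X ++ P = T ++ V) (hl : X.length < T.length) : x < t := by
  by_contra hc
  rw [not_lt] at hc
  obtain ⟨z, hz, h1, h2⟩ := cut_nested hT hX hV hP hc h.symm
  rw [h1, List.length_append] at hl
  omega

/-- blocks are prefix free -/
lemma Bk_pf {N : ℕ} {B B' V V' : List Bool} (hB : B ∈ Bk N) (hB' : B' ∈ Bk N) (hV : V ∈ BU) (hV' : V' ∈ BU)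
    (h : B ++ V = B' ++ V') : B = B' := by
  obtain ⟨y, r, X, P, hX, hP, a1, a2, rfl⟩ := hB
  obtain ⟨y', r', X', P', hX', hP', b1, b2, rfl⟩ := hB'
  obtain ⟨v, hv⟩ := hV
  obtain ⟨v', hv'⟩ := hV'
  have c1 := Brd_append hX hP.1
  have c2 := Brd_append hX' hP'.1
  rcases le_total (y + r) (y' + r') with hle | hle
  · obtain ⟨z, hz, h1, h2⟩ := cut_nested c1 c2 hv hv' hle h
    have h3 := irr_pf hX' hP' c1 hz h1 (by omega)
    rw [h3, List.append_nil] at h1
    exact h1.symm
  · obtain ⟨z, hz, h1, h2⟩ := cut_nested c2 c1 hv' hv hle h.symm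
    have h3 := irr_pf hX hP c2 hz h1 (by omega)
    rw [h3, List.append_nil] at h1
    exact h1

/-- initial parts up to the letter number b are prefix free -/
lemma Sd_pf {b : ℕ} {B B' V V' : List Bool} (hB : B ∈ Sd b) (hB' : B' ∈ Sd b) (hV : V ∈ BU) (hV' : V' ∈ BU)
    (h : B ++ V = B' ++ V') : B = B' := by
  obtain ⟨y, r, X, P, hX, hP, a1, a2, rfl⟩ := hB
  obtain ⟨y', r', X', P', hX', hP', b1, b2, rfl⟩ := hB'
  obtain ⟨v, hv⟩ := hV
  obtain ⟨v', hv'⟩ := hV'
  have c1 := Brd_append hX hP.1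
  have c2 := Brd_append hX' hP'.1
  rcases le_total (y + r) (y' + r') with hle | hle
  · obtain ⟨z, hz, h1, h2⟩ := cut_nested c1 c2 hv hv' hle h
    have h4 := hgt_lt_of_len hX' hP'.1 c1 hz h1 (by rw [List.length_append]; omega)
    have h3 := irr_pf hX' hP' c1 hz h1 h4
    rw [h3, List.append_nil] at h1
    exact h1.symm
  · obtain ⟨z, hz, h1, h2⟩ := cut_nested c2 c1 hv' hv hle h.symm
    have h4 := hgt_lt_of_len hX hP.1 c2 hz h1 (by rw [List.length_append]; omega)
    have h3 := irr_pf hX hP c2 hz h1 h4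
    rw [h3, List.append_nil] at h1
    exact h1

/-- the first block -/
lemma first_Bk : ∀ (y N : ℕ) (X : List Bool), X ∈ Brd y → N < y → ∃ B ∈ Bk N, ∃ X' ∈ BU, X = B ++ X' := by
  intro y
  induction y using Nat.strong_induction_on with
  | _ y ih =>
    intro N X hX hN
    obtain ⟨r, s, u, h1, h2, h3, h4, h5⟩ := Brd_first hX (by omega)
    by_cases hr : N + 1 ≤ r
    · exact ⟨s, ⟨0, r, [], s, nil_mem_Brd, h3, Nat.zero_le _, by omega, rfl⟩, u, ⟨_, h4⟩, h5⟩
    · obtain ⟨B, hB, X', hX', he⟩ := ih (y - r) (by omega) (N - r) u h4 (by omega)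
      obtain ⟨y', r', X'', P, a1, a2, a3, a4, a5⟩ := hB
      refine ⟨s ++ B, ⟨r + y', r', s ++ X'', P, Brd_append h3.1 a1, a2, by omega, by omega, ?_⟩, X', hX', ?_⟩
      · rw [a5, List.append_assoc]
      · rw [h5, he, List.append_assoc]

/-- the initial part up to the letter number b -/
lemma first_Sd : ∀ (y b : ℕ) (X : List Bool), X ∈ Brd y → b < X.length → ∃ T ∈ Sd b, ∃ V ∈ BU, X = T ++ V := by
  intro y
  induction y using Nat.strong_induction_on with
  | _ y ih =>
    intro b X hX hb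
    have hy : 1 ≤ y := by
      rcases Nat.eq_zero_or_pos y with h0 | h0
      · subst h0
        rw [Brd_zero] at hX
        have : X = [] := hX
        rw [this] at hb
        exact absurd hb (by simp)
      · exact h0
    obtain ⟨r, s, u, h1, h2, h3, h4, h5⟩ := Brd_first hX hy
    by_cases hr : b < s.length
    · exact ⟨s, ⟨0, r, [], s, nil_mem_Brd, h3, by simp, by simpa using hr, rfl⟩, u, ⟨_, h4⟩, h5⟩
    · rw [h5, List.length_append] at hb
      obtain ⟨B, hB, X', hX', he⟩ := ih (y - r) (by omega) (b - s.length) u h4 (by omega)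
      obtain ⟨y', r', X'', P, a1, a2, a3, a4, a5⟩ := hB
      refine ⟨s ++ B, ⟨r + y', r', s ++ X'', P, Brd_append h3.1 a1, a2, ?_, ?_, ?_⟩, X', hX', ?_⟩
      · rw [List.length_append]
        omega
      · rw [List.length_append]
        omega
      · rw [a5, List.append_assoc]
      · rw [h5, he, List.append_assoc]

/-- few blocks or many blocks -/
lemma few_many (N : ℕ) : ∀ (M b : ℕ) (T : List Bool), T ∈ Sd b → T ∈ Few N M b ∨ T ∈ Many N M b := by
  intro M
  induction M with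
  | zero => exact fun b T hT => Or.inr hT
  | succ M ih =>
    intro b T hT
    obtain ⟨y, r, X, P, hX, hP, h1, h2, rfl⟩ := hT
    by_cases hy : y ≤ N
    · exact Or.inl (Or.inl ⟨y, r, X, P, hX, hP, hy, h1, h2, rfl⟩)
    · obtain ⟨B, hB, X', hX', he⟩ := first_Bk y N X hX (by omega)
      have hl : B.length + X'.length = X.length := by rw [he, List.length_append]
      obtain ⟨x', hx'⟩ := hX'
      have h3 : X' ++ P ∈ Sd (b - B.length) := ⟨x', r, X', P, hx', hP, by omega, by omega, rfl⟩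
      have h4 : X ++ P = B ++ (X' ++ P) := by rw [he, List.append_assoc]
      rcases ih _ _ h3 with h5 | h5
      · exact Or.inl (Or.inr ⟨B, hB, by omega, _, h5, h4⟩)
      · exact Or.inr ⟨B, hB, by omega, _, h5, h4⟩

/-- many blocks: the sequence of the blocks -/
lemma many_seq (N : ℕ) : ∀ (M b : ℕ) (T : List Bool), T ∈ Many N M b → ∃ (B : Fin M → {B : List Bool // B ∈ Bk N})
    (T' : List Bool), (∑ i, (B i).1.length) ≤ b ∧ T' ∈ Sd (b - ∑ i, (B i).1.length) ∧
      T.length = (∑ i, (B i).1.length) + T'.length ∧ T = (List.ofFn fun i => (B i).1).flatten ++ T' := by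
  intro M
  induction M with
  | zero =>
    intro b T hT
    have h0 : T ∈ Sd b := hT
    refine ⟨fun i => i.elim0, T, by simp, by simpa using h0, by simp, by simp⟩
  | succ M ih =>
    intro b T hT
    obtain ⟨B0, hB0, hl, T1, hT1, rfl⟩ := hT
    obtain ⟨B, T', h1, h2, h3, h4⟩ := ih _ _ hT1
    refine ⟨Fin.cons ⟨B0, hB0⟩ B, T', ?_, ?_, ?_, ?_⟩
    · rw [Fin.sum_univ_succ]
      simp only [Fin.cons_zero, Fin.cons_succ]
      omega
    · rw [Fin.sum_univ_succ]
      simp only [Fin.cons_zero, Fin.cons_succ]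
      rw [← Nat.sub_sub]
      exact h2
    · rw [Fin.sum_univ_succ, List.length_append, h3]
      simp only [Fin.cons_zero, Fin.cons_succ]
      omega
    · rw [List.ofFn_succ]
      simp only [Fin.cons_zero, Fin.cons_succ]
      rw [List.flatten_cons, List.append_assoc, ← h4]

lemma flat_wE {N : ℕ} : ∀ {M : ℕ} (B : Fin M → {B : List Bool // B ∈ Bk N}),
    wE (List.ofFn fun i => (B i).1).flatten = ∏ i, wE (B i).1 := by
  intro M
  induction M with
  | zero =>
    intro B
    simp [wE]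
  | succ M ih =>
    intro B
    rw [List.ofFn_succ, List.flatten_cons, wE_append, Fin.prod_univ_succ, ← ih]

lemma flat_latE {N : ℕ} : ∀ {M : ℕ} (B : Fin M → {B : List Bool // B ∈ Bk N}) (T : List Bool),
    latE ((List.ofFn fun i => (B i).1).flatten ++ T) = (∑ i, latE (B i).1) + latE T := by
  intro M
  induction M with
  | zero =>
    intro B T
    simp
  | succ M ih =>
    intro B T
    rw [List.ofFn_succ, List.flatten_cons, List.append_assoc, latE_cat (BU_dx (Bk_BU (B 0).2)), ih, Fin.sum_univ_succ]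
    ring

end LB

end EN

end HexObs
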