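import Mathlib

/-!
EN, lateral position: the inequality of Littlewood - Offord (Sperner) and its form for independent weighted objects with a
mirror symmetry.
-/

set_option autoImplicit false

namespace HexObs

namespace EN

open Finset

open scoped ENNReal

namespace LO

/-- the largest proportion of an antichain -/
noncomputable def cc (M : ℕ) : ℝ := (M.choose (M / 2) : ℝ) / 2 ^ M

/-- signed sum -/
def sg (b : Bool) (d : ℤ) : ℤ := if b then -d else d

/-- **Littlewood - Offord** -/
theorem count {M : ℕ} (d : Fin M → ℤ) (r : ℕ) (hd : ∀ i, (r : ℤ) < |d i|) (x : ℤ) :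
    (univ.filter fun e : Fin M → Bool => |(∑ i, sg (e i) (d i)) - x| ≤ r).card ≤ M.choose (M / 2) := by
  classical
  obtain ⟨F, hF⟩ : ∃ F : (Fin M → Bool) → Finset (Fin M), F = fun e => univ.filter fun i => 0 < sg (e i) (d i) := ⟨_, rfl⟩
  have hd0 : ∀ i, d i ≠ 0 := by
    intro i h
    have := hd i
    rw [h, abs_zero] at this
    have : (0 : ℤ) ≤ r := Int.natCast_nonneg r
    omega
  have hmem : ∀ e i, i ∈ F e ↔ 0 < sg (e i) (d i) := by
    intro e i
    rw [hF]
    simp
  have hsg : ∀ e i, sg (e i) (d i) = if i ∈ F e then |d i| else -|d i| := by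
    intro e i
    by_cases h : i ∈ F e
    · rw [if_pos h]
      have h1 := (hmem e i).1 h
      unfold sg at h1 ⊢
      split_ifs at h1 ⊢
      · rw [abs_of_neg (by omega)]
      · rw [abs_of_pos h1]
    · rw [if_neg h]
      have h1 : ¬ 0 < sg (e i) (d i) := fun h2 => h ((hmem e i).2 h2)
      have h2 := hd0 i
      unfold sg at h1 ⊢
      split_ifs at h1 ⊢
      · rw [abs_of_pos (by omega)]
      · rw [abs_of_neg (by omega), neg_neg]
  have hinj : Function.Injective F := by
    intro e e' h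
    funext i
    have h1 := hsg e i
    have h2 := hsg e' i
    rw [← h, ← h1] at h2
    have h3 := hd0 i
    cases hA : e i <;> cases hB : e' i
    · rfl
    · rw [hA, hB] at h2
      unfold sg at h2
      simp at h2
      omega
    · rw [hA, hB] at h2
      unfold sg at h2
      simp at h2
      omega
    · rfl
  obtain ⟨A, hA⟩ : ∃ A : Finset (Finset (Fin M)), A = (univ.filter fun e : Fin M → Bool =>
    |(∑ i, sg (e i) (d i)) - x| ≤ r).image F := ⟨_, rfl⟩
  have hcard : (univ.filter fun e : Fin M → Bool => |(∑ i, sg (e i) (d i)) - x| ≤ r).card = A.card := by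
    rw [hA, Finset.card_image_of_injective _ hinj]
  rw [hcard]
  have hanti : IsAntichain (· ⊆ ·) (A : Set (Finset (Fin M))) := by
    intro I hI J hJ hne hsub
    rw [hA, Finset.mem_coe, Finset.mem_image] at hI hJ
    obtain ⟨e, he, rfl⟩ := hI
    obtain ⟨e', he', rfl⟩ := hJ
    rw [Finset.mem_filter] at he he'
    have h1 := he.2
    have h2 := he'.2
    obtain ⟨j, hj1, hj2⟩ : ∃ j, j ∈ F e' ∧ j ∉ F e := by
      by_contra hcon
      push Not at hcon
      exact hne (Finset.Subset.antisymm hsub fun j hj => hcon j hj)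
    have h3 : 2 * |d j| ≤ (∑ i, sg (e' i) (d i)) - ∑ i, sg (e i) (d i) := by
      rw [← Finset.sum_sub_distrib]
      have h4 : ∀ i ∈ (univ : Finset (Fin M)), 0 ≤ sg (e' i) (d i) - sg (e i) (d i) := by
        intro i _
        rw [hsg e i, hsg e' i]
        have := abs_nonneg (d i)
        by_cases a1 : i ∈ F e
        · rw [if_pos a1, if_pos (hsub a1)]
          omega
        · rw [if_neg a1]
          split_ifs <;> omega
      refine le_trans (le_of_eq ?_) (Finset.single_le_sum h4 (Finset.mem_univ j))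
      rw [hsg e j, hsg e' j, if_pos hj1, if_neg hj2]
      ring
    have h5 := hd j
    rw [abs_le] at h1 h2
    omega
  have h := hanti.sperner
  rwa [Fintype.card_fin] at h

lemma cb_sq (m : ℕ) : (Nat.centralBinom m : ℝ) ^ 2 * (2 * m + 1) ≤ 16 ^ m := by
  induction m with
  | zero => simp
  | succ m ih =>
    have h : ((m : ℝ) + 1) * Nat.centralBinom (m + 1) = 2 * (2 * m + 1) * Nat.centralBinom m := by
      exact_mod_cast Nat.succ_mul_centralBinom_succ m
    have hm : (0 : ℝ) < (m : ℝ) + 1 := by positivity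
    have h2 : ((m : ℝ) + 1) ^ 2 * ((Nat.centralBinom (m + 1) : ℝ) ^ 2 * (2 * (m + 1 : ℕ) + 1)) =
        4 * (2 * m + 1) * (2 * m + 3) * ((Nat.centralBinom m : ℝ) ^ 2 * (2 * m + 1)) := by
      push_cast
      have e1 : ((m : ℝ) + 1) ^ 2 * ((Nat.centralBinom (m + 1) : ℝ) ^ 2 * (2 * ((m : ℝ) + 1) + 1)) =
          (((m : ℝ) + 1) * Nat.centralBinom (m + 1)) ^ 2 * (2 * ((m : ℝ) + 1) + 1) := by ring
      rw [e1, h]
      ring
    have h3 : ((m : ℝ) + 1) ^ 2 * ((Nat.centralBinom (m + 1) : ℝ) ^ 2 * (2 * (m + 1 : ℕ) + 1)) ≤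
        ((m : ℝ) + 1) ^ 2 * 16 ^ (m + 1) := by
      rw [h2]
      calc 4 * (2 * (m : ℝ) + 1) * (2 * m + 3) * ((Nat.centralBinom m : ℝ) ^ 2 * (2 * m + 1)) ≤
            4 * (2 * (m : ℝ) + 1) * (2 * m + 3) * 16 ^ m := by gcongr
        _ ≤ (16 * ((m : ℝ) + 1) ^ 2) * 16 ^ m := by
            refine mul_le_mul_of_nonneg_right ?_ (by positivity)
            nlinarith
        _ = _ := by ring
    exact le_of_mul_le_mul_left h3 (by positivity)

/-- the proportion tends to 0 -/
theorem cc_small {e : ℝ} (he : 0 < e) : ∃ M : ℕ, 1 ≤ M ∧ cc M ≤ e := by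
  obtain ⟨m, hm⟩ := exists_nat_ge (1 / e ^ 2)
  refine ⟨2 * (m + 1), by omega, ?_⟩
  obtain ⟨k, hk⟩ : ∃ k, k = m + 1 := ⟨_, rfl⟩
  rw [← hk]
  have h1 := cb_sq k
  have h2 : cc (2 * k) = (Nat.centralBinom k : ℝ) / 4 ^ k := by
    unfold cc Nat.centralBinom
    rw [Nat.mul_div_cancel_left k (by norm_num), pow_mul]
    norm_num
  rw [h2, div_le_iff₀ (by positivity)]
  have h3 : 1 ≤ e ^ 2 * (2 * k + 1) := by
    rw [div_le_iff₀ (by positivity)] at hm
    have h4 : (m : ℝ) ≤ 2 * (k : ℝ) + 1 := by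
      rw [hk]
      push_cast
      linarith [(Nat.cast_nonneg m : (0 : ℝ) ≤ m)]
    nlinarith [show (0 : ℝ) < e ^ 2 by positivity]
  have h4 : (Nat.centralBinom k : ℝ) ^ 2 ≤ (e * 4 ^ k) ^ 2 := by
    have h5 : (0 : ℝ) < 2 * k + 1 := by positivity
    have h6 : (Nat.centralBinom k : ℝ) ^ 2 * (2 * k + 1) ≤ (e * 4 ^ k) ^ 2 * (2 * k + 1) := by
      calc (Nat.centralBinom k : ℝ) ^ 2 * (2 * k + 1) ≤ 16 ^ k := h1
        _ = 1 * 16 ^ k := (one_mul _).symm
        _ ≤ (e ^ 2 * (2 * k + 1)) * 16 ^ k := by gcongr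
        _ = (e * 4 ^ k) ^ 2 * (2 * k + 1) := by
            rw [mul_pow, ← pow_mul, mul_comm k 2, pow_mul]
            norm_num
            ring
    exact le_of_mul_le_mul_right h6 h5
  exact le_of_sq_le_sq h4 (by positivity)

lemma cc_nonneg (M : ℕ) : 0 ≤ cc M := by
  unfold cc
  positivity

/-- product formula -/
theorem tsum_pi {α : Type*} : ∀ (M : ℕ) (f : Fin M → α → ℝ≥0∞), ∑' B : Fin M → α, ∏ i, f i (B i) = ∏ i, ∑' a, f i a := by
  intro M
  induction M with
  | zero =>
    intro f
    rw [tsum_eq_single (fun i : Fin 0 => i.elim0) (fun B hB => absurd (Subsingleton.elim _ _) hB)]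
    simp
  | succ M ih =>
    intro f
    rw [← (Fin.consEquiv (fun _ : Fin (M + 1) => α)).tsum_eq, ENNReal.tsum_prod', Fin.prod_univ_succ, ← ih,
      ← ENNReal.tsum_mul_right]
    refine tsum_congr fun a => ?_
    rw [← ENNReal.tsum_mul_left]
    refine tsum_congr fun B => ?_
    rw [Fin.prod_univ_succ]
    rfl

open Classical in
/-- the bound for one sequence: 1 if some object is narrow -/
noncomputable def LOf {α : Type*} (lt : α → ℤ) (r : ℕ) {M : ℕ} (B : Fin M → α) : ℝ≥0∞ :=
  if ∃ i, |lt (B i)| ≤ r then 1 else ENNReal.ofReal (cc M)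

variable {α : Type*} {w : α → ℝ≥0∞} {len : α → ℕ} {lt : α → ℤ} {fl : α ≃ α}

/-- the mirror images of the chosen objects -/
def flE (fl : α ≃ α) {M : ℕ} (e : Fin M → Bool) : (Fin M → α) ≃ (Fin M → α) :=
  Equiv.piCongrRight fun i => if e i then fl else Equiv.refl α

open Classical in
/-- **independent objects with mirror images: the lateral window costs the factor of Littlewood and Offord** -/
theorem sym (hw : ∀ a, w (fl a) = w a) (hl : ∀ a, len (fl a) = len a) (ht : ∀ a, lt (fl a) = -lt a) (M : ℕ)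
    (L : (Fin M → ℕ) → ℝ≥0∞) (x : ℤ) (r : ℕ) :
    ∑' B : Fin M → α, (∏ i, w (B i)) * (if |(∑ i, lt (B i)) - x| ≤ r then L (fun i => len (B i)) else 0) ≤
      ∑' B : Fin M → α, (∏ i, w (B i)) * (LOf lt r B * L (fun i => len (B i))) := by
  obtain ⟨f, hf⟩ : ∃ f : (Fin M → α) → ℝ≥0∞, f = fun B => (∏ i, w (B i)) *
    (if |(∑ i, lt (B i)) - x| ≤ r then L (fun i => len (B i)) else 0) := ⟨_, rfl⟩
  have h1 : ∀ e : Fin M → Bool, ∑' B : Fin M → α, f B = ∑' B : Fin M → α, f (flE fl e B) :=
    fun e => ((flE fl e).tsum_eq f).symm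
  have hE : ∀ (e : Fin M → Bool) (B : Fin M → α) (i : Fin M), flE fl e B i = if e i then fl (B i) else B i := by
    intro e B i
    show (if e i then fl else Equiv.refl α) (B i) = _
    split_ifs <;> rfl
  have h2 : ∀ (e : Fin M → Bool) (B : Fin M → α), f (flE fl e B) = (∏ i, w (B i)) * L (fun i => len (B i)) *
      (if |(∑ i, sg (e i) (lt (B i))) - x| ≤ r then 1 else 0) := by
    intro e B
    rw [hf]
    show (∏ i, w (flE fl e B i)) * (if |(∑ i, lt (flE fl e B i)) - x| ≤ r then L (fun i => len (flE fl e B i)) else 0) = _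
    have a1 : ∀ i, w (flE fl e B i) = w (B i) := by
      intro i
      rw [hE]
      split_ifs
      · exact hw _
      · rfl
    have a2 : ∀ i, len (flE fl e B i) = len (B i) := by
      intro i
      rw [hE]
      split_ifs
      · exact hl _
      · rfl
    have a3 : ∀ i, lt (flE fl e B i) = sg (e i) (lt (B i)) := by
      intro i
      rw [hE]
      unfold sg
      split_ifs
      · exact ht _
      · rfl
    simp only [a1, a2, a3]
    split_ifs <;> ring
  have h3 : (2 : ℝ≥0∞) ^ M * ∑' B : Fin M → α, f B ≤ 2 ^ M * ∑' B : Fin M → α, (∏ i, w (B i)) *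
      (LOf lt r B * L (fun i => len (B i))) := by
    have b1 : (2 : ℝ≥0∞) ^ M * ∑' B : Fin M → α, f B = ∑ e : Fin M → Bool, ∑' B : Fin M → α, f (flE fl e B) := by
      rw [← Finset.sum_congr rfl fun e _ => h1 e, Finset.sum_const, Finset.card_univ, nsmul_eq_mul]
      congr 1
      simp
    rw [b1, ← ENNReal.tsum_mul_left]
    have b2 : ∑ e : Fin M → Bool, ∑' B : Fin M → α, f (flE fl e B) = ∑' B : Fin M → α, ∑ e : Fin M → Bool,
        f (flE fl e B) := by
      rw [← Summable.tsum_finsetSum (fun _ _ => ENNReal.summable)]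
    rw [b2]
    refine ENNReal.tsum_le_tsum fun B => ?_
    simp only [h2]
    rw [← Finset.mul_sum]
    have b3 : ∑ e : Fin M → Bool, (if |(∑ i, sg (e i) (lt (B i))) - x| ≤ r then (1 : ℝ≥0∞) else 0) ≤
        2 ^ M * LOf lt r B := by
      rw [Finset.sum_boole]
      unfold LOf
      split_ifs with hc
      · rw [mul_one]
        have c1 : (univ.filter fun e : Fin M → Bool => |(∑ i, sg (e i) (lt (B i))) - x| ≤ r).card ≤ 2 ^ M := by
          refine (Finset.card_le_univ _).trans (le_of_eq ?_)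
          simp
        exact_mod_cast c1
      · push Not at hc
        have c1 := count (fun i => lt (B i)) r hc x
        have c2 : (2 : ℝ≥0∞) ^ M * ENNReal.ofReal (cc M) = ((M.choose (M / 2) : ℕ) : ℝ≥0∞) := by
          unfold cc
          rw [show (2 : ℝ≥0∞) ^ M = ENNReal.ofReal (2 ^ M) by
            rw [ENNReal.ofReal_pow (by norm_num)]; norm_num, ← ENNReal.ofReal_mul (by positivity),
            mul_div_cancel₀ _ (by positivity), ENNReal.ofReal_natCast]
        rw [c2]
        exact_mod_cast c1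
    calc (∏ i, w (B i)) * L (fun i => len (B i)) * ∑ e : Fin M → Bool,
          (if |(∑ i, sg (e i) (lt (B i))) - x| ≤ r then (1 : ℝ≥0∞) else 0)
        ≤ (∏ i, w (B i)) * L (fun i => len (B i)) * (2 ^ M * LOf lt r B) := mul_le_mul_right b3 _
      _ = _ := by ring
  have h4 : (2 : ℝ≥0∞) ^ M ≠ 0 := by positivity
  have h5 : (2 : ℝ≥0∞) ^ M ≠ ⊤ := by simp
  have h6 := (ENNReal.mul_le_mul_iff_right h4 h5).1 h3
  rw [hf] at h6
  exact h6

open Classical in
/-- the mean of the bound -/
theorem LOf_mean {q : ℝ≥0∞} {r : ℕ} (hw : ∑' a, w a ≤ 1) (hn : ∑' a, (if |lt a| ≤ r then w a else 0) ≤ q) {M : ℕ} :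
    ∑' B : Fin M → α, (∏ i, w (B i)) * LOf lt r B ≤ ENNReal.ofReal (cc M) + M * q := by
  have h1 : ∀ B : Fin M → α, (∏ i, w (B i)) * LOf lt r B ≤ (∏ i, w (B i)) * ENNReal.ofReal (cc M) +
      ∑ j : Fin M, ∏ i, (if i = j then (if |lt (B i)| ≤ r then w (B i) else 0) else w (B i)) := by
    intro B
    unfold LOf
    split_ifs with hc
    · obtain ⟨j, hj⟩ := hc
      rw [mul_one]
      refine le_trans ?_ le_add_self
      refine le_trans (le_of_eq ?_) (Finset.single_le_sum (f := fun j : Fin M =>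
        ∏ i, (if i = j then (if |lt (B i)| ≤ r then w (B i) else 0) else w (B i))) (fun _ _ => zero_le) (Finset.mem_univ j))
      refine Finset.prod_congr rfl fun i _ => ?_
      by_cases hij : i = j
      · rw [if_pos hij, hij, if_pos hj]
      · rw [if_neg hij]
    · exact le_self_add
  refine (ENNReal.tsum_le_tsum h1).trans ?_
  rw [ENNReal.tsum_add]
  refine add_le_add ?_ ?_
  · rw [ENNReal.tsum_mul_right, tsum_pi M (fun _ a => w a), Finset.prod_const]
    calc (∑' a, w a) ^ (Finset.univ : Finset (Fin M)).card * ENNReal.ofReal (cc M) ≤ 1 * ENNReal.ofReal (cc M) :=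
          mul_le_mul_left (pow_le_one' hw _) _
      _ = _ := one_mul _
  · rw [Summable.tsum_finsetSum (fun _ _ => ENNReal.summable)]
    refine (Finset.sum_le_card_nsmul _ _ q fun j _ => ?_).trans (le_of_eq ?_)
    · rw [tsum_pi M (fun i a => if i = j then (if |lt a| ≤ r then w a else 0) else w a)]
      rw [← Finset.mul_prod_erase Finset.univ _ (Finset.mem_univ j)]
      simp only [if_true]
      calc (∑' a, if |lt a| ≤ r then w a else 0) * _ ≤ q * 1 := by
            refine mul_le_mul' hn (Finset.prod_le_one' fun i hi => ?_)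
            rw [Finset.mem_erase] at hi
            simp only [if_neg hi.1]
            exact hw
        _ = q := mul_one _
    · rw [Finset.card_univ, Fintype.card_fin, nsmul_eq_mul]

end LO

end EN

end HexObs
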