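import Pool.Agent.EN.EmoDefs
import Pool.Agent.EN.FactsX
import Pool.Agent.NTA.TailInd

/-!
EN (every number of letters): few walks with exactly n letters, n of the scale k, stay in the box of the scale k - i0.
-/

set_option autoImplicit false

namespace HexObs

namespace EN

open Finset TS SDN NTW NTA

open scoped ENNReal

/-- few walks with exactly n letters stay in a small box -/
def SBX (m : ℕ → ℝ) : Prop := ∀ e : ℝ, 0 < e → ∃ i0 k0 : ℕ, ∀ k n : ℕ, k0 ≤ k → m k ≤ n → n < m (k + 1) →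
  gf {t | t ∈ WL (k - i0) ∧ t.length = n} ≤ ENNReal.ofReal e * nuX m k

/-- the whole word of the box -/
lemma bx_WL {K : ℕ} {t : List Bool} (ht : t ∈ WL K) : Bx (K + 2) t 0 t.length := by
  refine ⟨Nat.zero_le _, le_rfl, fun dir i j _ hi _ hj => ?_⟩
  have h1 := abs_le.1 (abs_lvl_WL ht hi dir)
  have h2 := abs_le.1 (abs_lvl_WL ht hj dir)
  have h3 : (1 : ℤ) ≤ 2 ^ K := one_le_pow₀ (by norm_num)
  have h4 : (2 : ℤ) ^ (K + 2) = 4 * 2 ^ K := by rw [pow_add]; ring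
  rw [h4]
  omega

/-- **few walks with exactly n letters stay in a small box** -/
theorem sbx_of {m : ℕ → ℝ} (hm : MLow m) (hu : MUp m) (hE : EXT m) : SBX m := by
  obtain ⟨Cm, hCm, hup⟩ := TI.mup_pow hu
  obtain ⟨C, hC, hE⟩ := hE
  obtain ⟨Q, hQ⟩ := pow_unbounded_of_one_lt (2 * Cm) (one_lt_two (α := ℝ))
  obtain ⟨A, hA, hE⟩ := hE Q
  intro e he
  obtain ⟨i0, hi0⟩ := pow_unbounded_of_one_lt (A / e) (one_lt_two (α := ℝ))
  refine ⟨i0, i0, fun k n hk hkn _ => ?_⟩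
  obtain ⟨K, rfl⟩ : ∃ K, k = K + i0 := ⟨k - i0, by omega⟩
  rw [Nat.add_sub_cancel]
  have hmK := hm.pos K
  have hmk := hm.pos (K + i0)
  have hCm0 : 0 < Cm := by linarith
  have hA0 : 0 < A := by linarith
  have h2 : (2 : ℝ) ^ i0 * m K ≤ m (K + i0) := by
    refine le_trans (mul_le_mul_of_nonneg_right ?_ hmK.le) (hm.low K i0)
    rw [← Real.rpow_natCast]
    apply Real.rpow_le_rpow_of_exponent_le (by norm_num)
    have : (0 : ℝ) ≤ i0 := Nat.cast_nonneg _
    linarith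
  have hl : (1 : ℝ) ≤ 2 ^ i0 := one_le_pow₀ (by norm_num)
  have h1 := hE n K K ((2 : ℝ) ^ i0) le_rfl hl
  rw [Nat.sub_self, pow_zero, mul_one] at h1
  refine (gf_mono ?_).trans (h1.trans ?_)
  · rintro t ⟨ht, hn⟩
    refine ⟨hn, ht, 0, t.length, bx_WL ht, ?_⟩
    rw [hn, Nat.cast_zero, sub_zero]
    exact h2.trans hkn
  · unfold nuX
    rw [← mul_assoc, ← mul_assoc, ← ENNReal.ofReal_mul (by positivity), ← ENNReal.ofReal_mul he.le]
    refine mul_le_mul' (ENNReal.ofReal_le_ofReal ?_) (pow_le_pow_left₀ zero_le (Xb_mono (by omega)) 2)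
    have hU := Ub_pos K
    have hUm : Ub K ≤ Ub (K + i0) := Ub_mono (by omega)
    have hUp : 0 < Ub (K + i0) := Ub_pos _
    have e1 : 1 / m K ≤ Cm ^ i0 / m (K + i0) := by
      rw [div_le_div_iff₀ hmK hmk, one_mul]
      exact hup K i0
    have e2 : A * Cm ^ i0 ≤ e * (2 ^ i0) ^ Q := by
      have f1 : A ≤ e * 2 ^ i0 := by
        rw [div_lt_iff₀ he] at hi0
        linarith
      have f2 : (2 * Cm) ^ i0 ≤ (2 ^ i0) ^ Q := by
        rw [← pow_mul, mul_comm i0 Q, pow_mul]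
        exact pow_le_pow_left₀ (by positivity) hQ.le _
      calc A * Cm ^ i0 ≤ e * 2 ^ i0 * Cm ^ i0 := by gcongr
        _ = e * (2 * Cm) ^ i0 := by rw [mul_pow]; ring
        _ ≤ e * (2 ^ i0) ^ Q := by gcongr
    calc A / (2 ^ i0) ^ Q * (Ub K / m K) = A / (2 ^ i0) ^ Q * Ub K * (1 / m K) := by ring
      _ ≤ A / (2 ^ i0) ^ Q * Ub (K + i0) * (Cm ^ i0 / m (K + i0)) := by gcongr
      _ = A * Cm ^ i0 / (2 ^ i0) ^ Q * (Ub (K + i0) / m (K + i0)) := by ring
      _ ≤ e * (Ub (K + i0) / m (K + i0)) := by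
          refine mul_le_mul_of_nonneg_right ?_ (by positivity)
          rw [div_le_iff₀ (by positivity)]
          exact e2

end EN

end HexObs
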