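import Pool.Agent.EN.LowDefs
import Pool.Agent.EN.SmallBox

/-!
EN (the end point at exactly n letters): few walks end near the start, from the layers.
-/

set_option autoImplicit false

namespace HexObs

namespace EN

open Finset TS SDN NTW NTA

open scoped ENNReal

namespace LW

/-- the order of the weight at larger scales -/
lemma nuX_up {m : ℕ → ℝ} (hm : MLow m) : ∃ D : ℝ, 1 ≤ D ∧ ∀ k j : ℕ, nuX m (k + j) ≤ ENNReal.ofReal (D ^ j) * nuX m k := by
  obtain ⟨C, hC, h⟩ := Xb_pow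
  have hC0 : 0 ≤ C := by linarith
  refine ⟨2 * C ^ 2, by nlinarith, fun k j => ?_⟩
  unfold nuX
  have hmk := hm.pos k
  have hmj := hm.pos (k + j)
  have hU := Ub_pos k
  have h1 : Ub (k + j) / m (k + j) ≤ 2 ^ j * (Ub k / m k) := by
    rw [← mul_div_assoc]
    exact div_le_div₀ (by positivity) (Ub_add k j) hmk (TI.mlow_mono hm (Nat.le_add_right _ _))
  calc ENNReal.ofReal (Ub (k + j) / m (k + j)) * Xb (k + j) ^ 2
      ≤ ENNReal.ofReal (2 ^ j * (Ub k / m k)) * (ENNReal.ofReal (C ^ j) * Xb k) ^ 2 :=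
        mul_le_mul' (ENNReal.ofReal_le_ofReal h1) (pow_le_pow_left₀ zero_le (h k j) 2)
    _ = ENNReal.ofReal ((2 * C ^ 2) ^ j) * (ENNReal.ofReal (Ub k / m k) * Xb k ^ 2) := by
        rw [mul_pow, ← ENNReal.ofReal_pow (by positivity), ← mul_assoc, ← mul_assoc, ← ENNReal.ofReal_mul (by positivity),
          ← ENNReal.ofReal_mul (by positivity)]
        congr 2
        rw [mul_pow, ← pow_mul, ← pow_mul, mul_comm 2 j]
        ring

/-- the order of the weight at smaller scales -/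
lemma nuX_dn {m : ℕ → ℝ} (hm : MLow m) (hu : MUp m) : ∃ D : ℝ, 1 ≤ D ∧ ∀ k j : ℕ,
    nuX m k ≤ ENNReal.ofReal (D ^ j) * nuX m (k + j) := by
  obtain ⟨C, hC, h⟩ := TI.mup_pow hu
  refine ⟨C, hC, fun k j => ?_⟩
  unfold nuX
  have hmk := hm.pos k
  have hmj := hm.pos (k + j)
  have hU := Ub_pos k
  have hUj := Ub_pos (k + j)
  have hUm : Ub k ≤ Ub (k + j) := Ub_mono (Nat.le_add_right _ _)
  have hC0 : 0 ≤ C := by linarith
  rw [← mul_assoc, ← ENNReal.ofReal_mul (by positivity)]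
  refine mul_le_mul' (ENNReal.ofReal_le_ofReal ?_) (pow_le_pow_left₀ zero_le (Xb_mono (Nat.le_add_right _ _)) 2)
  rw [← mul_div_assoc, div_le_div_iff₀ hmk hmj]
  calc Ub k * m (k + j) ≤ Ub (k + j) * (C ^ j * m k) := by
        have := h k j
        gcongr
    _ = C ^ j * Ub (k + j) * m k := by ring

/-- the layer of a word -/
lemma layer_ex {t : List Bool} {a b : ℕ} (h1 : t ∈ WL b) (h2 : t ∉ WL a) : ∃ K, a < K ∧ K ≤ b ∧ t ∈ WL K ∧
    ∃ (dir : Bool) (i : ℕ), i ≤ t.length ∧ 2 ^ (K - 1) < |row dir (vx oo up t i)| := by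
  classical
  have hex : ∃ K, t ∈ WL K := ⟨b, h1⟩
  have h3 := Nat.find_spec hex
  have h4 : Nat.find hex ≤ b := Nat.find_min' hex h1
  have h5 : a < Nat.find hex := by
    by_contra hc
    exact h2 (WL_mono (by omega) h3)
  have h6 : t ∉ WL (Nat.find hex - 1) := Nat.find_min hex (by omega)
  refine ⟨Nat.find hex, h5, h4, h3, ?_⟩
  by_contra hcon
  push Not at hcon
  exact h6 ⟨h3.1, fun i hi dir => hcon dir i hi⟩

end LW

open LW

/-- **few walks end near the start, from the layers** -/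
theorem lowX_of {m : ℕ → ℝ} (hm : MLow m) (hu : MUp m) (hS : ESPw m) (hB : SBX m) (h0 : LDs false m) (h1 : LDs true m) :
    LowX m := by
  intro e he
  obtain ⟨A, i1, k1, hA, htail⟩ := tail_out hS 1
  obtain ⟨I, hI1, hI⟩ : ∃ I : ℕ, i1 ≤ I ∧ A / 2 ^ (1 * I) ≤ e / 4 := by
    obtain ⟨n, hn⟩ := exists_pow_lt_of_lt_one (show 0 < e / 4 / A by positivity) (show (1 / 2 : ℝ) < 1 by norm_num)
    refine ⟨i1 + n, Nat.le_add_right _ _, ?_⟩
    rw [one_mul, div_eq_mul_inv, ← inv_pow, ← one_div]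
    calc A * (1 / 2) ^ (i1 + n) ≤ A * (1 / 2) ^ n := by
          gcongr A * ?_
          exact pow_le_pow_of_le_one (by norm_num) (by norm_num) (by omega)
      _ ≤ A * (e / 4 / A) := by gcongr
      _ = e / 4 := by field_simp
  obtain ⟨i0, k2, hbox⟩ := hB (e / 4) (by positivity)
  obtain ⟨D, hD, hup⟩ := nuX_up hm
  obtain ⟨D', hD', hdn⟩ := nuX_dn hm hu
  have hD0 : 0 < D := by linarith
  have hD0' : 0 < D' := by linarith
  obtain ⟨W, hW⟩ : ∃ W : ℝ, W = D ^ I * D' ^ i0 := ⟨_, rfl⟩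
  have hWp : 0 < W := by rw [hW]; positivity
  obtain ⟨ε, hε⟩ : ∃ ε : ℝ, ε = e / (4 * (i0 + I + 1) * W) := ⟨_, rfl⟩
  have hεp : 0 < ε := by rw [hε]; positivity
  obtain ⟨κ0, K0, hκ0, h0⟩ := h0 ε hεp
  obtain ⟨κ1, K1, hκ1, h1⟩ := h1 ε hεp
  obtain ⟨κ, hκ⟩ : ∃ κ : ℝ, κ = min κ0 κ1 / 2 ^ i0 := ⟨_, rfl⟩
  have hκp : 0 < κ := by rw [hκ]; positivity
  refine ⟨κ, k1 + k2 + K0 + K1 + i0, hκp, fun k n hk hn1 hn2 => ?_⟩
  -- the scales between
  have hnu : ∀ K, k - i0 < K → K ≤ k + I → nuX m K ≤ ENNReal.ofReal W * nuX m k := by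
    intro K q1 q2
    rcases Nat.lt_or_ge k K with q3 | q3
    · obtain ⟨j, rfl⟩ := Nat.exists_eq_add_of_le q3.le
      refine (hup k j).trans (mul_le_mul_left (ENNReal.ofReal_le_ofReal ?_) _)
      rw [hW]
      calc D ^ j ≤ D ^ I := pow_le_pow_right₀ hD (by omega)
        _ ≤ D ^ I * D' ^ i0 := le_mul_of_one_le_right (by positivity) (one_le_pow₀ hD')
    · obtain ⟨j, rfl⟩ := Nat.exists_eq_add_of_le q3
      refine (hdn K j).trans (mul_le_mul_left (ENNReal.ofReal_le_ofReal ?_) _)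
      rw [hW]
      calc D' ^ j ≤ D' ^ i0 := pow_le_pow_right₀ hD' (by omega)
        _ ≤ D ^ I * D' ^ i0 := le_mul_of_one_le_left (by positivity) (one_le_pow₀ hD)
  have hsub : {t | t ∈ SawN n ∧ ∀ dir : Bool, |((lvl dir (vx oo up t n) : ℤ) : ℝ)| ≤ κ * 2 ^ k} ⊆
      ({t | t ∈ SA ∧ t.length = n ∧ t ∉ WL (k + I)} ∪ {t | t ∈ WL (k - i0) ∧ t.length = n}) ∪
      ⋃ r ∈ range (i0 + I), (LD false κ0 (k - i0 + 1 + r) n ∪ LD true κ1 (k - i0 + 1 + r) n) := by
    rintro t ⟨ht, hend⟩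
    by_cases hw1 : t ∈ WL (k + I)
    swap
    · exact Or.inl (Or.inl ⟨ht.2, ht.1, hw1⟩)
    by_cases hw2 : t ∈ WL (k - i0)
    · exact Or.inl (Or.inr ⟨hw2, ht.1⟩)
    right
    obtain ⟨K, hK1, hK2, hK3, dir, i, hi, hx⟩ := layer_ex hw1 hw2
    simp only [Set.mem_iUnion]
    refine ⟨K - (k - i0 + 1), mem_range.2 (by omega), ?_⟩
    rw [show k - i0 + 1 + (K - (k - i0 + 1)) = K by omega]
    have hlev : ∀ κ' : ℝ, min κ0 κ1 ≤ κ' → 0 < κ' → ∀ d : Bool,
        |((lvl d (vx oo up t t.length) : ℤ) : ℝ)| ≤ κ' * 2 ^ K := by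
      intro κ' q1 q2 d
      rw [ht.1]
      refine (hend d).trans ?_
      rw [hκ]
      have q3 : (2 : ℝ) ^ k = 2 ^ i0 * 2 ^ (k - i0) := by
        rw [← pow_add]
        congr 1
        omega
      have q4 : (2 : ℝ) ^ (k - i0) ≤ 2 ^ K := pow_le_pow_right₀ (by norm_num) hK1.le
      rw [q3, div_mul_eq_mul_div, ← mul_assoc, mul_div_right_comm, mul_div_cancel_right₀ _ (by positivity)]
      gcongr
    cases dir
    · exact Or.inl ⟨hK3, ht.1, ⟨i, hi, hx⟩, hlev κ0 (min_le_left _ _) hκ0⟩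
    · exact Or.inr ⟨hK3, ht.1, ⟨i, hi, hx⟩, hlev κ1 (min_le_right _ _) hκ1⟩
  refine (gf_mono hsub).trans ((gf_union_le _ _).trans ?_)
  have hA1 : gf ({t | t ∈ SA ∧ t.length = n ∧ t ∉ WL (k + I)} ∪ {t | t ∈ WL (k - i0) ∧ t.length = n}) ≤
      ENNReal.ofReal (e / 4) * nuX m k + ENNReal.ofReal (e / 4) * nuX m k := by
    refine (gf_union_le _ _).trans (add_le_add ?_ (hbox k n (by omega) hn1 hn2))
    exact (htail k I n (by omega) hI1 hn1 hn2).trans (mul_le_mul_left (ENNReal.ofReal_le_ofReal hI) _)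
  have hA2 : gf (⋃ r ∈ range (i0 + I), (LD false κ0 (k - i0 + 1 + r) n ∪ LD true κ1 (k - i0 + 1 + r) n)) ≤
      ∑ r ∈ range (i0 + I), ENNReal.ofReal (2 * (ε * W)) * nuX m k := by
    refine (ENNReal.tsum_biUnion_le (fun t => wE t) (range (i0 + I)) (fun r => LD false κ0 (k - i0 + 1 + r) n ∪
      LD true κ1 (k - i0 + 1 + r) n)).trans (Finset.sum_le_sum fun r hr => ?_)
    rw [mem_range] at hr
    have q := hnu (k - i0 + 1 + r) (by omega) (by omega)
    refine (gf_union_le _ _).trans ((add_le_add (h0 _ n (by omega)) (h1 _ n (by omega))).trans ?_)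
    rw [← two_mul]
    calc 2 * (ENNReal.ofReal ε * nuX m (k - i0 + 1 + r)) ≤ 2 * (ENNReal.ofReal ε * (ENNReal.ofReal W * nuX m k)) := by
          gcongr
      _ = ENNReal.ofReal (2 * (ε * W)) * nuX m k := by
          rw [ENNReal.ofReal_mul (by norm_num), ENNReal.ofReal_mul hεp.le, show ENNReal.ofReal 2 = 2 by norm_num]
          ring
  refine (add_le_add hA1 hA2).trans ?_
  rw [Finset.sum_const, Finset.card_range, nsmul_eq_mul, ← add_mul, ← ENNReal.ofReal_add (by positivity) (by positivity),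
    ← mul_assoc, ← ENNReal.ofReal_natCast, ← ENNReal.ofReal_mul (Nat.cast_nonneg _), ← add_mul,
    ← ENNReal.ofReal_add (by positivity) (by positivity)]
  refine mul_le_mul_left (ENNReal.ofReal_le_ofReal ?_) _
  have q1 : ((i0 + I : ℕ) : ℝ) * (2 * (ε * W)) ≤ e / 2 := by
    rw [hε]
    push_cast
    have q2 : (i0 + I : ℝ) * (2 * (e / (4 * (i0 + I + 1) * W) * W)) = (i0 + I) / (i0 + I + 1) * (e / 2) := by
      field_simp
      ring
    rw [q2]
    have q3 : ((i0 : ℝ) + I) / (i0 + I + 1) ≤ 1 := by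
      rw [div_le_one (by positivity)]
      linarith
    calc ((i0 : ℝ) + I) / (i0 + I + 1) * (e / 2) ≤ 1 * (e / 2) := by gcongr
      _ = e / 2 := one_mul _
  linarith

end EN

end HexObs
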