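import Pool.Agent.EN.LowEz

/-!
EN (the end point at exactly n letters): the sum over the leaf of one block and two free ends, bad part (exact in the letters)
and good part (letters and end point).
-/

set_option autoImplicit false

namespace HexObs

namespace EN

namespace LW

open Finset TS SDN SDN.CN NTm NTW NTA

open scoped ENNReal

lemma HB_rev {D : ℕ} {g : List Bool} (hg : g ∈ HB D) : rev g ∈ HB D := by
  obtain ⟨n, hn, hB⟩ := hg
  exact ⟨n, hn, Brd_rev hB⟩

open Classical in
/-- the two free ends behind a tall leaf -/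
lemma ends_le {D N lam : ℕ} {S : Set (List Bool)} {c : Fin 16} {g : List Bool} (hg : g ∈ HB D) (o o' : Option (List Bool))
    (h : CO N lam S c o o' g) :
    wO o * wO o' ≤ PO D N (lam + 20) o (rev g) * PO D N (lam + 20) o' g := by
  refine mul_le_mul' (le_PO (HB_rev hg) fun W hW => ?_) (le_PO hg h.2.1)
  obtain ⟨h1, h2, h3⟩ := h.1 W hW
  exact ⟨h1, h2, by rw [rev_length]; exact h3⟩

open Classical in
/-- **the bad part** -/
theorem bad_part {kc N lam n : ℕ} {S Sb : Set (List Bool)} {c : Fin 16} {δ : ℝ} {y : ℝ≥0∞} (hSb : SmDX DmJ kc Sb δ)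
    (hy : DmJ kc y (fun t => 1 + ENl (2 ^ (kc + 4)) N (lam + 20) t)) (hS : ∀ t ∈ S, t.length = n) :
    Rec8.sw (Bk kc ∩ Sb) (fun g => ∑' (o : Option (List Bool)) (o' : Option (List Bool)),
      if CO N lam S c o o' g then wO o * wO o' else 0) ≤ 21 * (ENNReal.ofReal (δ * Ub kc) * (y * y)) := by
  have hD : 1 ≤ 2 ^ (kc + 4) := Nat.one_le_two_pow
  obtain ⟨P, hP⟩ : ∃ P : ℕ → List Bool → ℝ≥0∞, P = EX.Pg (2 ^ (kc + 4)) N (lam + 20) := ⟨_, rfl⟩
  have hGH : GH (2 ^ (kc + 4)) P := by
    rw [hP]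
    exact EX.GH_Pg hD N (lam + 20)
  have htot : DmJ kc y (tot P) := by
    rw [hP, EX.tot_Pg]
    exact hy
  have hone : ∀ M : ℕ, Rec8.sw (Bk kc ∩ Sb) (fun g => ∑' (o : Option (List Bool)) (o' : Option (List Bool)),
      (if (o.getD []).length + (g.length + 1) + (o'.getD []).length = M then
        PO (2 ^ (kc + 4)) N (lam + 20) o (rev g) * PO (2 ^ (kc + 4)) N (lam + 20) o' g else 0)) ≤
      ENNReal.ofReal (δ * Ub kc) * (y * y) := by
    intro M
    refine le_trans (Rec8.sw_mono (fun g hg => hg.2) fun g _ => ?_) (hSb.free y y P P hGH (fun c => by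
      rw [hP]
      exact EX.flp_Pg hD N (lam + 20) c) hGH htot htot M)
    refine (sum_two M (rev g) g g.length).trans (le_of_eq ?_)
    rw [hP]
    rfl
  have hsum : ∀ g ∈ Bk kc ∩ Sb, (∑' (o : Option (List Bool)) (o' : Option (List Bool)),
      if CO N lam S c o o' g then wO o * wO o' else 0) ≤
      ∑ M ∈ Icc (n - 9) (n + 11), ∑' (o : Option (List Bool)) (o' : Option (List Bool)),
      (if (o.getD []).length + (g.length + 1) + (o'.getD []).length = M then
        PO (2 ^ (kc + 4)) N (lam + 20) o (rev g) * PO (2 ^ (kc + 4)) N (lam + 20) o' g else 0) := by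
    intro g hg
    have e1 : ∑ M ∈ Icc (n - 9) (n + 11), ∑' (o : Option (List Bool)) (o' : Option (List Bool)),
        (if (o.getD []).length + (g.length + 1) + (o'.getD []).length = M then
          PO (2 ^ (kc + 4)) N (lam + 20) o (rev g) * PO (2 ^ (kc + 4)) N (lam + 20) o' g else 0) =
        ∑' (o : Option (List Bool)) (o' : Option (List Bool)), ∑ M ∈ Icc (n - 9) (n + 11),
        (if (o.getD []).length + (g.length + 1) + (o'.getD []).length = M then
          PO (2 ^ (kc + 4)) N (lam + 20) o (rev g) * PO (2 ^ (kc + 4)) N (lam + 20) o' g else 0) := by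
      rw [← Summable.tsum_finsetSum (fun _ _ => ENNReal.summable)]
      refine tsum_congr fun o => ?_
      rw [← Summable.tsum_finsetSum (fun _ _ => ENNReal.summable)]
    rw [e1]
    refine ENNReal.tsum_le_tsum fun o => ENNReal.tsum_le_tsum fun o' => ?_
    by_cases h : CO N lam S c o o' g
    · rw [if_pos h]
      have h1 := ends_le (Bk_HB kc hg.1) o o' h
      have h2 := hS _ h.2.2.1
      have h3 := h.2.2.2.1
      have h4 := h.2.2.2.2
      rw [h2] at h3 h4
      refine h1.trans (le_trans ?_ (Finset.single_le_sum (f := fun M => if (o.getD []).length + (g.length + 1) +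
        (o'.getD []).length = M then PO (2 ^ (kc + 4)) N (lam + 20) o (rev g) *
        PO (2 ^ (kc + 4)) N (lam + 20) o' g else 0) (fun _ _ => zero_le)
        (Finset.mem_Icc.2 (show n - 9 ≤ (o.getD []).length + (g.length + 1) + (o'.getD []).length ∧
          (o.getD []).length + (g.length + 1) + (o'.getD []).length ≤ n + 11 by omega))))
      simp only [if_true]
      exact le_rfl
    · rw [if_neg h]
      exact zero_le
  refine (Rec8.sw_mono' hsum).trans ?_
  rw [Rec8.sw_sum]
  refine (Finset.sum_le_card_nsmul _ _ (ENNReal.ofReal (δ * Ub kc) * (y * y)) fun M _ => hone M).trans ?_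
  rw [nsmul_eq_mul, Nat.card_Icc]
  have h3 : n + 11 + 1 - (n - 9) ≤ 21 := by omega
  have h4 : ((n + 11 + 1 - (n - 9) : ℕ) : ℝ≥0∞) ≤ 21 := by exact_mod_cast h3
  exact mul_le_mul' h4 le_rfl

open Classical in
/-- **the good part** -/
theorem good_part : ∃ K : ℝ, 1 ≤ K ∧ ∀ (kc j e' j' N lam : ℕ) (A : ℝ) (y : ℝ≥0∞) (S1 S : Set (List Bool)) (c : Fin 16),
    j ≤ kc → j' + 1 ≤ e' → e' ≤ kc → 0 ≤ A → S1 ⊆ Ak kc → Win e' j' S1 →
    DmJ kc y (fun t => 1 + ENl (2 ^ (kc + 4)) N (lam + 20) t) →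
    EZJ (2 ^ (kc + 4)) (2 ^ (kc + 8)) e' S1 (fun (o : Option (List Bool)) (b : Ct) (s : List Bool) =>
      CO N lam S c o b.2.2 (unf [s, b.1, b.2.1])) A →
    Rec8.sw (Zg (2 ^ (kc + 4)) S1 (Bk j) (Ak kc)) (fun g => ∑' (o : Option (List Bool)) (o' : Option (List Bool)),
      if CO N lam S c o o' g then wO o * wO o' else 0) ≤
      ENNReal.ofReal (K * (4 ^ (kc - j') * A) * 2 ^ (kc - j)) * (y * y) := by
  obtain ⟨K, hK, h⟩ := good_sum
  refine ⟨K, hK, fun kc j e' j' N lam A y S1 S c hj hje he hA hS1 hwin hy hEZ => ?_⟩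
  refine le_trans (Rec8.sw_mono' fun g hg => ?_) (h kc j e' j' N (lam + 20) A y S1 (CO N lam S c) hj hje he hA hS1 hwin hy hEZ)
  refine ENNReal.tsum_le_tsum fun o => ENNReal.tsum_le_tsum fun o' => ?_
  split_ifs with hC
  · exact ends_le hg.1 o o' hC
  · exact le_rfl

open Classical in
/-- a union of classes -/
lemma sw_parts {A B : Set (List Bool)} {Z : ℕ → Set (List Bool)} {i1 : ℕ} (G : List Bool → ℝ≥0∞)
    (h : ∀ g ∈ A, g ∈ B ∨ ∃ r < i1, g ∈ Z r) :
    Rec8.sw A G ≤ Rec8.sw (A ∩ B) G + ∑ r ∈ range i1, Rec8.sw (Z r) G := by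
  simp only [Rec8.sw_ind]
  rw [← Summable.tsum_finsetSum (fun _ _ => ENNReal.summable), ← ENNReal.tsum_add]
  refine ENNReal.tsum_le_tsum fun g => ?_
  by_cases hA : g ∈ A
  · rw [if_pos hA]
    rcases h g hA with h1 | ⟨r, hr, h1⟩
    · rw [if_pos (show g ∈ A ∩ B from ⟨hA, h1⟩)]
      exact le_self_add
    · refine le_trans ?_ le_add_self
      refine le_trans ?_ (Finset.single_le_sum (f := fun r => if g ∈ Z r then wE g * G g else 0) (fun _ _ => zero_le)
        (mem_range.2 hr))
      simp only [if_pos h1]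
      exact le_rfl
  · rw [if_neg hA]
    exact zero_le

end LW

end EN

end HexObs
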