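import Pool.Agent.EN.LowBlk
import Pool.Agent.NTA.RunX

/-!
EN (the end point at exactly n letters): the whole sum over the leaf of one block and two free ends is small.
-/

set_option autoImplicit false

namespace HexObs

namespace EN

namespace LW

open Finset TS SDN SDN.CN NTm NTW NTA

open scoped ENNReal

/-- the norm of the end functional -/
lemma end_norm : ∃ Ky : ℝ, 1 ≤ Ky ∧ ∀ K kc N lam : ℕ, 1 ≤ kc → kc + 6 ≤ K → K ≤ kc + 9 → N ≤ 2 ^ (K + 2) →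
    2 ^ (kc + 4) < N → DmJ kc (ENNReal.ofReal Ky * Xb K) (fun t => 1 + ENl (2 ^ (kc + 4)) N lam t) := by
  obtain ⟨Kf, hKf, hf⟩ := fin_long
  obtain ⟨Cx, hCx, hx⟩ := Xb_pow
  refine ⟨Kf * 512 * Cx ^ 5, one_le_mul_of_one_le_of_one_le (by linarith) (one_le_pow₀ hCx),
    fun K kc N lam hk h1 h2 hN hN' => ?_⟩
  obtain ⟨lam', hQ⟩ := QL_exists (kc + 9)
  have h3 := hf (kc + 4) N (kc + 9) lam lam' (by omega) hN' (by omega)
    (hN.trans (Nat.pow_le_pow_right (by norm_num) (by omega))) hQ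
  rw [show kc + 4 - 4 = kc by omega] at h3
  refine h3.mono ?_
  have hU := Ub_pos kc
  have e1 : Ub (kc + 9) / Ub kc ≤ 512 := by
    rw [div_le_iff₀ hU]
    have := SDN.Ub_add kc 9
    norm_num at this
    linarith
  have e2 : bl (lam + lam' + 22) (kc + 9 + 2) ≤ ENNReal.ofReal (Cx ^ 5) * Xb K := by
    refine (bl_le_Xb _ _).trans ?_
    refine le_trans (Xb_mono (show kc + 9 + 2 ≤ K + 5 by omega)) (hx K 5)
  calc ENNReal.ofReal (Kf * (Ub (kc + 9) / Ub kc)) * bl (lam + lam' + 22) (kc + 9 + 2)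
      ≤ ENNReal.ofReal (Kf * 512) * (ENNReal.ofReal (Cx ^ 5) * Xb K) := by
        refine mul_le_mul' (ENNReal.ofReal_le_ofReal ?_) e2
        exact mul_le_mul_of_nonneg_left e1 (by linarith)
    _ = _ := by
        rw [← mul_assoc, ← ENNReal.ofReal_mul (by linarith)]

open Classical in
/-- **the sum over the leaf of a block** -/
theorem block {m : ℕ → ℝ} {a1 : ℝ} (hm : ∀ k, 0 < m k) (hup : MUp m) (hC : C1 m) (h1 : 1 / 2 < a1) (h2 : a1 ≤ 3 / 5)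
    (hI : BrL.IndB2 a1) (hAL : ALat m) {ε : ℝ} (hε : 0 < ε) : ∃ (κ : ℝ) (k0 : ℕ), 0 < κ ∧
    ∀ (kc K N lam n : ℕ) (S : Set (List Bool)) (c : Fin 16), k0 ≤ kc → kc + 6 ≤ K → K ≤ kc + 9 → N ≤ 2 ^ (K + 2) →
    2 ^ (kc + 4) < N →
    (∀ t ∈ S, t.length = n ∧ ∀ dir : Bool, |((lvl dir (vx oo up t t.length) : ℤ) : ℝ)| ≤ κ * 2 ^ kc) →
    Rec8.sw (Bk kc) (fun g => ∑' (o : Option (List Bool)) (o' : Option (List Bool)),
      if CO N lam S c o o' g then wO o * wO o' else 0) ≤ ENNReal.ofReal (ε * (Ub kc / m kc)) * Xb K ^ 2 := by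
  obtain ⟨Ky, hKy, hend⟩ := end_norm
  obtain ⟨Kg, hKg, hgood⟩ := good_part
  obtain ⟨s1, s2, c2, hs1, hs12, hrest⟩ := ex_rest hm hup hC h1 h2 hI
  obtain ⟨ε1, hε1⟩ : ∃ ε1 : ℝ, ε1 = ε / (2 * 21 * Ky ^ 2) := ⟨_, rfl⟩
  have hε1p : 0 < ε1 := by rw [hε1]; positivity
  obtain ⟨i1, D, k1, hD, hrest⟩ := hrest ε1 hε1p
  obtain ⟨W, hW⟩ : ∃ W : ℝ, W = 2 * (i1 + 1) * Kg * 4 ^ (s2 * D + 4) * 2 ^ i1 * Ky ^ 2 := ⟨_, rfl⟩
  have hWp : 0 < W := by rw [hW]; positivity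
  obtain ⟨ε2, hε2⟩ : ∃ ε2 : ℝ, ε2 = ε / W := ⟨_, rfl⟩
  have hε2p : 0 < ε2 := by rw [hε2]; positivity
  obtain ⟨y0, hy0⟩ : ∃ y0 : ℝ, y0 = 1 / 2 ^ (c2 * D) := ⟨_, rfl⟩
  have hy0p : 0 < y0 := by rw [hy0]; positivity
  have hy01 : y0 ≤ 1 := by
    rw [hy0, div_le_one (by positivity)]
    exact one_le_pow₀ (by norm_num)
  obtain ⟨κ, k2, hκ, hez⟩ := ezj_of hAL hy0p hy01 hε2p
  refine ⟨κ, k1 + k2 + 1, hκ, fun kc K N lam n S c hk hkK hKk hN hN' hS => ?_⟩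
  obtain ⟨hDk, Sb, hSb, hcov⟩ := hrest kc (by omega)
  have hU := Ub_pos kc
  have hmk := hm kc
  obtain ⟨y, hy⟩ : ∃ y, y = ENNReal.ofReal Ky * Xb K := ⟨_, rfl⟩
  have hyD : DmJ kc y (fun t => 1 + ENl (2 ^ (kc + 4)) N (lam + 20) t) := by
    rw [hy]
    exact hend K kc N (lam + 20) (by omega) hkK hKk hN hN'
  obtain ⟨e', he'⟩ : ∃ e', e' = kc - (s1 * D + 3) := ⟨_, rfl⟩
  obtain ⟨j', hj'⟩ : ∃ j', j' = kc - (s2 * D + 4) := ⟨_, rfl⟩
  have hsD : s1 * D ≤ s2 * D := Nat.mul_le_mul_right _ hs12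
  obtain ⟨S1, hS1⟩ : ∃ S1, S1 = {s | s ∈ Ak kc ∧ s ∈ Gd m s1 s2 c2 D kc} := ⟨_, rfl⟩
  have hS1A : S1 ⊆ Ak kc := by
    rw [hS1]
    exact fun s hs => hs.1
  have hwin : Win e' j' S1 := by
    rw [hS1, he', hj']
    exact win_good
  have hmid : S1 ⊆ LQ.Mid (2 ^ e') (m kc / 2 ^ (c2 * D)) := by
    rw [hS1, he']
    exact fun s hs => hs.2.2
  have hEZ : EZJ (2 ^ (kc + 4)) (2 ^ (kc + 8)) e' S1 (fun (o : Option (List Bool)) (b : Ct) (s : List Bool) =>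
      CO N lam S c o b.2.2 (unf [s, b.1, b.2.1])) (ε2 * (Ub kc / m kc)) := by
    refine hez kc (by omega) (2 ^ (kc + 4)) N (2 ^ (kc + 8)) lam e' n (m kc / 2 ^ (c2 * D)) S S1 c ?_ hmid hS
    rw [hy0]
    exact le_of_eq (by ring)
  obtain ⟨G, hG⟩ : ∃ G : List Bool → ℝ≥0∞, G = fun g => ∑' (o : Option (List Bool)) (o' : Option (List Bool)),
      if CO N lam S c o o' g then wO o * wO o' else 0 := ⟨_, rfl⟩
  obtain ⟨Z, hZ⟩ : ∃ Z : ℕ → Set (List Bool), Z = fun r => if r ≤ kc then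
      Zg (2 ^ (kc + 4)) S1 (Bk (kc - r)) (Ak kc) else ∅ := ⟨_, rfl⟩
  have hpart := sw_parts (A := Bk kc) (B := Sb) (Z := Z) (i1 := i1) G (by
    intro g hg
    rcases hcov g hg with h3 | ⟨j, hj, hj1, h3⟩
    · exact Or.inl h3
    · refine Or.inr ⟨kc - j, by omega, ?_⟩
      rw [hZ]
      simp only
      rw [if_pos (by omega), show kc - (kc - j) = j by omega, hS1]
      exact h3)
  have hbad := bad_part (kc := kc) (N := N) (lam := lam) (n := n) (S := S) (Sb := Sb) (c := c) hSb hyD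
    (fun t ht => (hS t ht).1)
  rw [← hG] at hbad ⊢
  have hone : ∀ r ∈ range i1, Rec8.sw (Z r) G ≤
      ENNReal.ofReal (Kg * (4 ^ (s2 * D + 4) * (ε2 * (Ub kc / m kc))) * 2 ^ i1) * (y * y) := by
    intro r hr
    rw [mem_range] at hr
    rw [hZ]
    simp only
    by_cases hrk : r ≤ kc
    · rw [if_pos hrk]
      have h4 := hgood kc (kc - r) e' j' N lam (ε2 * (Ub kc / m kc)) y S1 S c (Nat.sub_le _ _) (by omega) (by omega)
        (by positivity) hS1A hwin hyD hEZ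
      rw [hG]
      refine h4.trans (mul_le_mul_left (ENNReal.ofReal_le_ofReal ?_) _)
      rw [show kc - j' = s2 * D + 4 by omega, show kc - (kc - r) = r by omega]
      have h5 : (2 : ℝ) ^ r ≤ 2 ^ i1 := pow_le_pow_right₀ (by norm_num) hr.le
      gcongr
    · rw [if_neg hrk]
      unfold Rec8.sw
      rw [tsum_empty]
      exact zero_le
  refine hpart.trans ((add_le_add hbad (Finset.sum_le_sum hone)).trans ?_)
  rw [Finset.sum_const, Finset.card_range, nsmul_eq_mul]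
  have hyy : y * y = ENNReal.ofReal (Ky ^ 2) * Xb K ^ 2 := by
    rw [hy, pow_two Ky, ENNReal.ofReal_mul (by linarith)]
    ring
  have hi1 : (i1 : ℝ≥0∞) = ENNReal.ofReal (i1 : ℝ) := (ENNReal.ofReal_natCast i1).symm
  have h21 : (21 : ℝ≥0∞) = ENNReal.ofReal 21 := by
    rw [show (21 : ℝ) = ((21 : ℕ) : ℝ) by norm_num, ENNReal.ofReal_natCast]
    norm_num
  rw [hyy, hi1, h21]
  have hR : 0 ≤ Ub kc / m kc := by positivity
  calc ENNReal.ofReal 21 * (ENNReal.ofReal (ε1 / m kc * Ub kc) * (ENNReal.ofReal (Ky ^ 2) * Xb K ^ 2)) +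
        ENNReal.ofReal i1 * (ENNReal.ofReal (Kg * (4 ^ (s2 * D + 4) * (ε2 * (Ub kc / m kc))) * 2 ^ i1) *
          (ENNReal.ofReal (Ky ^ 2) * Xb K ^ 2))
      = (ENNReal.ofReal 21 * ENNReal.ofReal (ε1 / m kc * Ub kc) * ENNReal.ofReal (Ky ^ 2) +
        ENNReal.ofReal i1 * ENNReal.ofReal (Kg * (4 ^ (s2 * D + 4) * (ε2 * (Ub kc / m kc))) * 2 ^ i1) *
          ENNReal.ofReal (Ky ^ 2)) * Xb K ^ 2 := by ring
    _ = ENNReal.ofReal (21 * (ε1 / m kc * Ub kc) * Ky ^ 2 +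
        i1 * (Kg * (4 ^ (s2 * D + 4) * (ε2 * (Ub kc / m kc))) * 2 ^ i1) * Ky ^ 2) * Xb K ^ 2 := by
        rw [← ENNReal.ofReal_mul (by norm_num), ← ENNReal.ofReal_mul (by positivity),
          ← ENNReal.ofReal_mul (Nat.cast_nonneg _), ← ENNReal.ofReal_mul (by positivity),
          ← ENNReal.ofReal_add (by positivity) (by positivity)]
    _ ≤ _ := by
        refine mul_le_mul_left (ENNReal.ofReal_le_ofReal ?_) _
        have q1 : 21 * (ε1 / m kc * Ub kc) * Ky ^ 2 = ε / 2 * (Ub kc / m kc) := by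
          rw [hε1]
          field_simp
        have q2 : (i1 : ℝ) * (Kg * (4 ^ (s2 * D + 4) * (ε2 * (Ub kc / m kc))) * 2 ^ i1) * Ky ^ 2 ≤
            ε / 2 * (Ub kc / m kc) := by
          have q3 : (i1 : ℝ) * (Kg * 4 ^ (s2 * D + 4) * 2 ^ i1 * Ky ^ 2) * ε2 ≤ ε / 2 := by
            rw [hε2, ← mul_div_assoc, div_le_iff₀ hWp, hW]
            have q4 : 0 ≤ Kg * 4 ^ (s2 * D + 4) * 2 ^ i1 * Ky ^ 2 * ε := by positivity
            nlinarith [q4]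
          calc (i1 : ℝ) * (Kg * (4 ^ (s2 * D + 4) * (ε2 * (Ub kc / m kc))) * 2 ^ i1) * Ky ^ 2 =
                (i1 : ℝ) * (Kg * 4 ^ (s2 * D + 4) * 2 ^ i1 * Ky ^ 2) * ε2 * (Ub kc / m kc) := by ring
            _ ≤ ε / 2 * (Ub kc / m kc) := mul_le_mul_of_nonneg_right q3 hR
        linarith

end LW

end EN

end HexObs
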