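import Pool.Agent.EN.LowEz

/-!
EN (the end point at exactly n letters, with a centre): the end point and the number of letters leave a small weight for the
free middle part of the first leaf.
-/

set_option autoImplicit false

namespace HexObs

namespace EN

namespace LC

open Finset TS SDN SDN.CN NTm NTW NTA LQ LW

open scoped ENNReal

lemma lvl_sub' (dir : Bool) (v w : Pt) : lvl dir (v - w) = lvl dir v - lvl dir w := by
  have h := lvl_add dir (v - w) w
  rw [sub_add_cancel] at h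
  linarith

/-- **the end point determines the lateral position of the bridge in the middle**, with a centre -/
theorem pos_midC (A B : List Bool) (c : Pt) : ∃ x : ℤ, ∀ Z ∈ BU, ∀ R : ℝ,
    (∀ dir : Bool, |((lvl dir (vx oo up (A ++ (Z ++ B)) (A ++ (Z ++ B)).length) - lvl dir c : ℤ) : ℝ)| ≤ R) →
      |((latE Z - x : ℤ) : ℝ)| ≤ R := by
  obtain ⟨P, hP⟩ : ∃ P, P = vx oo up A A.length := ⟨_, rfl⟩
  obtain ⟨u, hu⟩ : ∃ u, u = rotTo up (dx up A A.length) := ⟨_, rfl⟩
  obtain ⟨hud, hue⟩ := frame_dir (PZ.dx_mem A A.length)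
  rw [← hu] at hud hue
  obtain ⟨Q, hQ⟩ : ∃ Q, Q = P + mulE u (vx oo up B B.length) - c := ⟨_, rfl⟩
  refine ⟨cross up (mulE (conjE u) Q), fun Z hZ R hR => ?_⟩
  obtain ⟨h, hZ⟩ := hZ
  have hZd : dx up Z Z.length = up := (mem_Brd.1 hZ).2.2.1
  have e1 : vx oo up (A ++ (Z ++ B)) (A ++ (Z ++ B)).length = P + mulE u (vx oo up (Z ++ B) (Z.length + B.length)) := by
    rw [← vx_frameN, ← hue, hP]
    have h1 : vx oo up (A ++ (Z ++ B)) A.length = vx oo up A A.length := vx_append (by omega)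
    have h2 : dx up (A ++ (Z ++ B)) A.length = dx up A A.length := dx_append le_rfl
    rw [← h1, ← h2]
    have h3 := vx_dropN oo up (A ++ (Z ++ B)) A.length (Z.length + B.length)
    rw [List.drop_left] at h3
    rw [h3, List.length_append, List.length_append]
  have e2 : vx oo up (Z ++ B) (Z.length + B.length) = vx oo up Z Z.length + vx oo up B B.length := vx_cat hZd _
  have e3 : mulE (conjE u) (vx oo up (A ++ (Z ++ B)) (A ++ (Z ++ B)).length - c) =
      mulE (conjE u) Q + vx oo up Z Z.length := by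
    have h5 : vx oo up (A ++ (Z ++ B)) (A ++ (Z ++ B)).length - c = Q + mulE u (vx oo up Z Z.length) := by
      rw [e1, e2, mulE_add, hQ]
      abel
    have h4 : mulE (conjE u) (mulE u (vx oo up Z Z.length)) = vx oo up Z Z.length := by
      rw [mulE_assoc, mulE_comm (conjE u) u, mulE_conjE, mem_dirs.1 hud, mulE_one]
    rw [h5, mulE_add, h4]
  have e4 := PZ.cross_le hud (p := vx oo up (A ++ (Z ++ B)) (A ++ (Z ++ B)).length - c) (R := R)
    (fun dir => by rw [lvl_sub']; exact hR dir)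
  rw [e3] at e4
  have e5 : cross up (mulE (conjE u) Q + vx oo up Z Z.length) = -(latE Z - cross up (mulE (conjE u) Q)) := by
    unfold latE lat
    simp only [cross, Prod.fst_add, Prod.snd_add]
    ring
  rw [e5] at e4
  push_cast at e4 ⊢
  rwa [abs_neg] at e4

/-- **the free middle part of s1 has little weight, given the continuations, the letters and the end point** -/
theorem ezj_c {m : ℕ → ℝ} (hAL : ALat m) {y ε : ℝ} (hy0 : 0 < y) (hy1 : y ≤ 1) (hε : 0 < ε) :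
    ∃ (κ : ℝ) (k0 : ℕ), 0 < κ ∧ ∀ k : ℕ, k0 ≤ k → ∀ (D N N' lam e n : ℕ) (x : ℝ) (S S1 : Set (List Bool)) (c : Fin 16) (z0 : Pt),
      y * m k ≤ x → S1 ⊆ LQ.Mid (2 ^ e) x →
      (∀ t ∈ S, t.length = n ∧ ∀ dir : Bool, |((lvl dir (vx oo up t t.length) - lvl dir z0 : ℤ) : ℝ)| ≤ κ * 2 ^ k) →
      EZJ D N' e S1 (fun (o : Option (List Bool)) (b : Ct) (s : List Bool) =>
        CO N lam S c o b.2.2 (unf [s, b.1, b.2.1])) (ε * (Ub k / m k)) := by
  obtain ⟨κ, k0, hκ, h⟩ := hAL y ε hy0 hy1 hε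
  refine ⟨κ, k0, hκ, fun k hk D N N' lam e n x S S1 c z0 hx hS1 hS => ?_⟩
  intro M hM P1 hP1 P2 hP2 Q hQ h1 h2 o b
  obtain ⟨l, s2, o'⟩ := b
  have hMP := BU_app hM (IU_BU hP1)
  have hPQ := BU_app (IU_BU hP2) hQ
  have hMne : M ++ P1 ≠ [] := by
    obtain ⟨r, hr⟩ := hP1
    have := hr.2.1
    intro h3
    exact this (List.append_eq_nil_iff.1 h3).2
  have hTne : P2 ++ Q ≠ [] := by
    obtain ⟨r, hr⟩ := hP2
    have := hr.2.1
    intro h3
    exact this (List.append_eq_nil_iff.1 h3).1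
  obtain ⟨A, B, hAB⟩ := PZ.asm3_mid c o o' hMne hTne l s2
  obtain ⟨x0, hx0⟩ := pos_midC A B z0
  obtain ⟨b0, hb0⟩ : ∃ b0, b0 = n - A.length - B.length := ⟨_, rfl⟩
  -- the words with the required properties
  have key : ∀ Z ∈ BU, CO N lam S c o o' (unf [M ++ (P1 ++ (Z ++ (P2 ++ Q))), l, s2]) →
      M ++ (P1 ++ (Z ++ (P2 ++ Q))) ∈ S1 → y * m k ≤ Z.length ∧ Z.length = b0 ∧
        |((latE Z - x0 : ℤ) : ℝ)| ≤ κ * 2 ^ k := by
    intro Z hZ hC hZ1
    have h3 := hC.2.2.1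
    have e1 : M ++ (P1 ++ (Z ++ (P2 ++ Q))) = (M ++ P1) ++ (Z ++ (P2 ++ Q)) := by rw [List.append_assoc]
    have e2 : Rp.asmF c o [unf [M ++ (P1 ++ (Z ++ (P2 ++ Q))), l, s2]] o' = A ++ (Z ++ B) := by
      rw [e1]
      exact hAB Z
    rw [e2] at h3
    obtain ⟨h4, h5⟩ := hS _ h3
    refine ⟨hx.trans (hS1 hZ1 (M ++ P1) Z (P2 ++ Q) hMP hZ hPQ e1 ?_ ?_), ?_, hx0 Z hZ _ h5⟩
    · rw [hgt_app hM (IU_BU hP1)]
      exact h1
    · rw [hgt_app (IU_BU hP2) hQ]
      exact h2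
    · rw [List.length_append, List.length_append] at h4
      omega
  by_cases hb : y * m k ≤ (b0 : ℝ)
  · refine (ENNReal.tsum_le_tsum fun z => gf_mono ?_).trans ((sum_brd fun Z => Z.length = b0 ∧
      |((latE Z - x0 : ℤ) : ℝ)| ≤ κ * 2 ^ k).trans (h k hk b0 x0 hb))
    rintro Z ⟨g1, g2, g3, -⟩
    obtain ⟨-, g5, g6⟩ := key Z ⟨z, g1⟩ g2 g3
    exact ⟨g1, g5, g6⟩
  · refine sum_none fun Z hZ => ?_
    rintro ⟨g2, g3, -⟩
    obtain ⟨g4, g5, -⟩ := key Z hZ g2 g3
    rw [g5] at g4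
    exact hb g4

end LC

end EN

end HexObs
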