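import Pool.Agent.EN.FactsX

/-!
EN (the end point at exactly n letters): the classes of the walks whose end point is near the start.
-/

set_option autoImplicit false

namespace HexObs

namespace EN

namespace LW

open Finset TS SDN NTW NTA

open scoped ENNReal

/-- words of vertical range about 2 ^ K whose end point is near the start -/
def LY (κ : ℝ) (K n : ℕ) : Set (List Bool) := {t | t ∈ SA ∧ t.length = n ∧
  (∀ i, i ≤ t.length → |lev t i| ≤ 3 * 2 ^ K + 5) ∧ (∃ i, i ≤ t.length ∧ 3 * 2 ^ (K - 1) ≤ |lev t i| + 6) ∧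
  ∀ dir : Bool, |((lvl dir (vx oo up t t.length) : ℤ) : ℝ)| ≤ κ * 2 ^ K}

/-- words of the box of the scale K, out of the box of the scale K - 1 in the direction dir, whose end point is near the
start -/
def LD (dir : Bool) (κ : ℝ) (K n : ℕ) : Set (List Bool) := {t | t ∈ WL K ∧ t.length = n ∧
  (∃ i, i ≤ t.length ∧ 2 ^ (K - 1) < |row dir (vx oo up t i)|) ∧
  ∀ d : Bool, |((lvl d (vx oo up t t.length) : ℤ) : ℝ)| ≤ κ * 2 ^ K}

/-- the bound of the layers by the vertical range -/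
def LYs (m : ℕ → ℝ) : Prop := ∀ ε : ℝ, 0 < ε → ∃ (κ : ℝ) (K0 : ℕ), 0 < κ ∧ ∀ K n : ℕ, K0 ≤ K →
  gf (LY κ K n) ≤ ENNReal.ofReal ε * nuX m K

/-- the bound of the layers in the direction dir -/
def LDs (dir : Bool) (m : ℕ → ℝ) : Prop := ∀ ε : ℝ, 0 < ε → ∃ (κ : ℝ) (K0 : ℕ), 0 < κ ∧ ∀ K n : ℕ, K0 ≤ K →
  gf (LD dir κ K n) ≤ ENNReal.ofReal ε * nuX m K

/-- the direction false is the vertical range -/
lemma LD_sub_LY {κ : ℝ} {K n : ℕ} : LD false κ K n ⊆ LY κ K n := by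
  rintro t ⟨ht, hn, ⟨i, hi, hx⟩, he⟩
  refine ⟨ht.1, hn, fun j hj => ?_, ⟨i, hi, ?_⟩, he⟩
  · have h1 := abs_lvl_WL ht hj false
    have h2 : |lev t j| ≤ 3 * 2 ^ K + 2 := h1
    omega
  · have h1 : row false (vx oo up t i) = lev t i / 3 := rfl
    rw [h1] at hx
    have h2 := le_abs_self (lev t i)
    have h3 := neg_le_abs (lev t i)
    generalize (2 : ℤ) ^ (K - 1) = X at *
    rcases lt_abs.1 hx with h4 | h4 <;> omega

lemma LDs_false {m : ℕ → ℝ} (h : LYs m) : LDs false m := by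
  intro ε hε
  obtain ⟨κ, K0, hκ, h⟩ := h ε hε
  exact ⟨κ, K0, hκ, fun K n hK => (gf_mono LD_sub_LY).trans (h K n hK)⟩

end LW

end EN

end HexObs
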