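import Pool.Agent.EN.LowDefs
import Pool.Agent.NTA.RunDir
import Pool.Agent.NTA.TailEns

/-!
EN (the end point at exactly n letters): the layers in the direction true from the layers by the vertical range.
-/

set_option autoImplicit false

namespace HexObs

namespace EN

namespace LW

open Finset TS SDN NTW NTA

open scoped ENNReal

/-- a double exponential against powers -/
lemma decay {x A B κ ε : ℝ} (hx : 0 < x) (hx1 : x < 1) (hA : 0 ≤ A) (hB : 0 ≤ B) (hκ : 0 < κ) (hε : 0 < ε) :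
    ∃ K0 : ℕ, ∀ K q : ℕ, K0 ≤ K → κ * 2 ^ K ≤ q → x ^ q * (B * A ^ K) ≤ ε := by
  obtain ⟨L, hL⟩ : ∃ L : ℕ, x ^ L * A ≤ 1 / 2 := by
    have h1 : Filter.Tendsto (fun n : ℕ => x ^ n * A) Filter.atTop (nhds (0 * A)) :=
      (tendsto_pow_atTop_nhds_zero_of_lt_one hx.le hx1).mul_const A
    rw [zero_mul] at h1
    exact (h1.eventually_le_const (show (0 : ℝ) < 1 / 2 by norm_num)).exists
  have h2 : Filter.Tendsto (fun n : ℕ => (n : ℝ) ^ 1 / 2 ^ n) Filter.atTop (nhds 0) :=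
    tendsto_pow_const_div_const_pow_of_one_lt 1 (by norm_num)
  have h3 : ∀ᶠ n : ℕ in Filter.atTop, (n : ℝ) ^ 1 / 2 ^ n ≤ κ / (L + 1) :=
    h2.eventually_le_const (by positivity)
  have h4 : Filter.Tendsto (fun n : ℕ => (1 / 2 : ℝ) ^ n * B) Filter.atTop (nhds (0 * B)) :=
    (tendsto_pow_atTop_nhds_zero_of_lt_one (by norm_num) (by norm_num)).mul_const B
  rw [zero_mul] at h4
  have h5 : ∀ᶠ n : ℕ in Filter.atTop, (1 / 2 : ℝ) ^ n * B ≤ ε := h4.eventually_le_const hε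
  obtain ⟨K0, hK0⟩ := Filter.eventually_atTop.1 (h3.and h5)
  refine ⟨K0, fun K q hK hq => ?_⟩
  obtain ⟨h6, h7⟩ := hK0 K hK
  rw [pow_one, div_le_div_iff₀ (by positivity) (by positivity)] at h6
  have h8 : L * K ≤ q := by
    have : ((L * K : ℕ) : ℝ) ≤ q := by
      push_cast
      have : (0 : ℝ) ≤ K := Nat.cast_nonneg K
      nlinarith
    exact_mod_cast this
  calc x ^ q * (B * A ^ K) ≤ x ^ (L * K) * (B * A ^ K) :=
        mul_le_mul_of_nonneg_right (pow_le_pow_of_le_one hx.le hx1.le h8) (by positivity)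
    _ = (x ^ L * A) ^ K * B := by
        rw [pow_mul, mul_pow]
        ring
    _ ≤ (1 / 2) ^ K * B := mul_le_mul_of_nonneg_right (pow_le_pow_left₀ (by positivity) hL K) hB
    _ ≤ ε := h7

/-- words with an initial zigzag, long enough or in a class with a given number of letters -/
lemma gf_zz2 {n q1 : ℕ} {E : Set (List Bool)} {F : ℕ → Set (List Bool)} {B G : ℝ≥0∞} (hF : ∀ n', gf (F n') ≤ B)
    (hE : gf E ≤ G) {T : Set (List Bool)}
    (hT : ∀ t ∈ T, ∃ q, ∃ s, t = DirA.Qz q ++ s ∧ (s ∈ F (n - q) ∨ (q1 ≤ q ∧ s ∈ E))) :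
    gf T ≤ ENNReal.ofReal DirA.CD * B + ENNReal.ofReal (xc ^ q1) * (ENNReal.ofReal DirA.CD * G) := by
  have hQ : ∀ q : ℕ, gf ({DirA.Qz q} : Set (List Bool)) = ENNReal.ofReal (xc ^ q) := by
    intro q
    have := gf_finset {DirA.Qz q}
    rw [Finset.coe_singleton, Finset.sum_singleton, DirA.Qz_length] at this
    exact this
  have h1 : T ⊆ (⋃ q : ℕ, {t | ∃ s ∈ F (n - q), t = DirA.Qz q ++ s}) ∪
      ⋃ j : ℕ, {t | ∃ s ∈ E, t = DirA.Qz (q1 + j) ++ s} := by
    intro t ht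
    obtain ⟨q, s, h1, h2 | ⟨h2, h3⟩⟩ := hT t ht
    · exact Or.inl (Set.mem_iUnion.2 ⟨q, s, h2, h1⟩)
    · exact Or.inr (Set.mem_iUnion.2 ⟨q - q1, s, h3, by rw [Nat.add_sub_cancel' h2]; exact h1⟩)
  refine (gf_mono h1).trans ((gf_union_le _ _).trans (add_le_add ?_ ?_))
  · refine (ENNReal.tsum_iUnion_le_tsum wE _).trans ?_
    have h2 : ∀ q : ℕ, gf {t | ∃ s ∈ F (n - q), t = DirA.Qz q ++ s} ≤ ENNReal.ofReal (xc ^ q) * B := by
      intro q
      rw [← hQ q]
      refine (gf_le_mul (R := F (n - q)) fun t ht => ?_).trans (mul_le_mul_right (hF _) _)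
      obtain ⟨s, hs, h4⟩ := ht
      exact ⟨DirA.Qz q, rfl, s, hs, h4⟩
    refine (ENNReal.tsum_le_tsum h2).trans ?_
    rw [ENNReal.tsum_mul_right]
    exact mul_le_mul_left (le_of_eq DirA.tsum_xc) _
  · refine (ENNReal.tsum_iUnion_le_tsum wE _).trans ?_
    have h2 : ∀ j : ℕ, gf {t | ∃ s ∈ E, t = DirA.Qz (q1 + j) ++ s} ≤
        ENNReal.ofReal (xc ^ q1) * (ENNReal.ofReal (xc ^ j) * G) := by
      intro j
      rw [← mul_assoc, ← ENNReal.ofReal_mul (pow_nonneg xc_pos.le _), ← pow_add, ← hQ]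
      refine (gf_le_mul (R := E) fun t ht => ?_).trans (mul_le_mul_right hE _)
      obtain ⟨s, hs, h4⟩ := ht
      exact ⟨DirA.Qz (q1 + j), rfl, s, hs, h4⟩
    refine (ENNReal.tsum_le_tsum h2).trans ?_
    rw [ENNReal.tsum_mul_left, ENNReal.tsum_mul_right]
    exact mul_le_mul_right (mul_le_mul_left (le_of_eq DirA.tsum_xc) _) _

/-- the word behind the initial zigzag -/
lemma true_drop {κ κ' : ℝ} {K n q1 : ℕ} (hK : 3 ≤ K) (hκ : 4 * κ ≤ κ') (hq : (8 : ℝ) * q1 ≤ κ' * 2 ^ K + 8) {t : List Bool}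
    (ht : t ∈ LD true κ K n) : ∃ q, ∃ s, t = DirA.Qz q ++ s ∧ (s ∈ LY κ' K (n - q) ∨ (q1 ≤ q ∧ s ∈ WL (K + 3))) := by
  classical
  obtain ⟨hW, hn, ⟨i, hi, hx⟩, he⟩ := ht
  have hK4 : (4 : ℤ) ≤ 2 ^ (K - 1) := by
    have h1 : (2 : ℤ) ^ 2 ≤ 2 ^ (K - 1) := pow_le_pow_right₀ (by norm_num) (by omega)
    norm_num at h1
    omega
  have hx2 : 3 * 2 ^ (K - 1) + 1 ≤ |lvl true (vx oo up t i)| := by
    unfold row at hx
    have h2 := le_abs_self (lvl true (vx oo up t i))
    have h3 := neg_le_abs (lvl true (vx oo up t i))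
    generalize (2 : ℤ) ^ (K - 1) = X at *
    rcases lt_abs.1 hx with h4 | h4 <;> omega
  have hex : ∃ q, q ≤ t.length ∧ DirA.vert (dx up t q) := by
    by_contra hc
    push Not at hc
    have h1 : ∀ j, j < t.length → ¬ DirA.vert (dx up t j) := fun j hj => hc j hj.le
    have h2 := DirA.zz_lvl h1 i hi
    rw [h2] at hx2
    split_ifs at hx2
    · rw [abs_zero] at hx2
      omega
    · rw [abs_neg, abs_one] at hx2
      omega
  obtain ⟨hq0, hv⟩ := Nat.find_spec hex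
  have hmin : ∀ j, j < Nat.find hex → ¬ DirA.vert (dx up t j) := fun j hj h => Nat.find_min hex hj ⟨by omega, h⟩
  set q := Nat.find hex
  have hWd := RD.drop_WL hW hq0 hv
  obtain ⟨σ, hσ, h1, h2, -⟩ := RD.drop_dir hq0 hv
  have hz := DirA.zz_lvl hmin
  have hzq : |lvl true (vx oo up t q)| ≤ 1 := by
    rw [hz q le_rfl]
    split_ifs
    · rw [abs_zero]
      norm_num
    · rw [abs_neg, abs_one]
  have hls : (t.drop q).length = n - q := by rw [List.length_drop, hn]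
  refine ⟨q, t.drop q, by rw [← DirA.take_eq hq0 hmin hv, List.take_append_drop], ?_⟩
  rcases Nat.lt_or_ge q q1 with hq1 | hq1
  swap
  · exact Or.inr ⟨hq1, hWd⟩
  left
  have hs1 : |σ| = 1 := by
    rcases hσ with h | h <;> rw [h] <;> norm_num
  have hlev : ∀ j, |lev (t.drop q) j| = |lvl true (vx oo up t (q + j)) - lvl true (vx oo up t q)| := by
    intro j
    rw [h1 j, add_sub_cancel_left, abs_mul, hs1, one_mul]
  refine ⟨hWd.1, hls, fun j hj => ?_, ?_, fun d => ?_⟩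
  · rw [hls] at hj
    rw [hlev j]
    have a1 := abs_lvl_WL hW (show q + j ≤ t.length by omega) true
    have a2 := abs_sub (lvl true (vx oo up t (q + j))) (lvl true (vx oo up t q))
    omega
  · have hqi : q ≤ i := by
      by_contra hc
      rw [hz i (by omega)] at hx2
      split_ifs at hx2
      · rw [abs_zero] at hx2
        omega
      · rw [abs_neg, abs_one] at hx2
        omega
    refine ⟨i - q, by rw [hls]; omega, ?_⟩
    rw [hlev, Nat.add_sub_cancel' hqi]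
    have a2 := abs_sub_abs_le_abs_sub (lvl true (vx oo up t i)) (lvl true (vx oo up t q))
    omega
  · rw [hls]
    have hqn : q + (n - q) = n := by omega
    have b1 := he true
    have b2 := he false
    rw [hn] at b1 b2
    have c1 : |((lvl true (vx oo up t q) : ℤ) : ℝ)| ≤ 2 * q := by exact_mod_cast lvl_lip true t q
    have c2 : |((lvl false (vx oo up t q) : ℤ) : ℝ)| ≤ 2 * q := by exact_mod_cast lvl_lip false t q
    have d1 := h2 (n - q)
    rw [hqn] at d1
    have d2 := hlev (n - q)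
    rw [hqn] at d2
    have e1 := abs_sub (((lvl true (vx oo up t n) : ℤ) : ℝ)) ((lvl true (vx oo up t q) : ℤ) : ℝ)
    have e2 := abs_sub (((lvl false (vx oo up t n) : ℤ) : ℝ)) ((lvl false (vx oo up t q) : ℤ) : ℝ)
    have hq2 : (q : ℝ) + 1 ≤ q1 := by exact_mod_cast hq1
    have hfin : 2 * (κ * 2 ^ K) + 4 * q ≤ κ' * 2 ^ K := by
      have f1 : 4 * κ * 2 ^ K ≤ κ' * 2 ^ K := mul_le_mul_of_nonneg_right hκ (by positivity)
      linarith
    cases d
    · have g1 : |((lvl false (vx oo up (t.drop q) (n - q)) : ℤ) : ℝ)| =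
          |(((lvl true (vx oo up t n) : ℤ) : ℝ)) - ((lvl true (vx oo up t q) : ℤ) : ℝ)| := by
        have : |lvl false (vx oo up (t.drop q) (n - q))| = |lvl true (vx oo up t n) - lvl true (vx oo up t q)| := d2
        exact_mod_cast this
      rw [g1]
      have h0 : (0 : ℝ) ≤ q := Nat.cast_nonneg q
      have h00 : 0 ≤ κ * 2 ^ K := (abs_nonneg _).trans b1
      linarith
    · have g1 : |((lvl true (vx oo up (t.drop q) (n - q)) : ℤ) : ℝ)| ≤
          |(((lvl true (vx oo up t n) : ℤ) : ℝ)) - ((lvl true (vx oo up t q) : ℤ) : ℝ)| +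
            |(((lvl false (vx oo up t n) : ℤ) : ℝ)) - ((lvl false (vx oo up t q) : ℤ) : ℝ)| := by
        exact_mod_cast d1
      linarith

/-- **the layers in the direction true** -/
theorem LDs_true {m : ℕ → ℝ} (hm : MLow m) (hu : MUp m) (h : LYs m) : LDs true m := by
  intro ε hε
  have hCD := DirA.CD_ge
  have hCDp : 0 < DirA.CD := by linarith
  obtain ⟨κ', K1, hκ', h1⟩ := h (ε / (2 * DirA.CD)) (by positivity)
  obtain ⟨Ct, hCt, htot⟩ := tot_WL
  obtain ⟨D, hD, hDX⟩ := Xb_pow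
  obtain ⟨Cm, hCm, hmu⟩ := hu
  have hm0 := hm.pos 0
  obtain ⟨Q, hQ⟩ : ∃ Q : ℝ, Q = DirA.CD * (Ct * (8 * D ^ 6)) := ⟨_, rfl⟩
  have hQp : 0 < Q := by rw [hQ]; positivity
  obtain ⟨K2, hdec⟩ := decay (x := xc) (A := Cm) (B := Q * m 0) (κ := κ' / 8) (ε := ε / 2) xc_pos DirA.xc_lt (by linarith)
    (by positivity) (by positivity) (by positivity)
  refine ⟨κ' / 4, max (max K1 K2) 3, by positivity, fun K n hK => ?_⟩
  have hK1 : K1 ≤ K := (le_max_left _ _).trans ((le_max_left _ _).trans hK)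
  have hK2 : K2 ≤ K := (le_max_right _ _).trans ((le_max_left _ _).trans hK)
  have hK3 : 3 ≤ K := (le_max_right _ _).trans hK
  obtain ⟨q1, hq1⟩ : ∃ q1 : ℕ, q1 = ⌈κ' / 8 * 2 ^ K⌉₊ := ⟨_, rfl⟩
  have hq1a : κ' / 8 * 2 ^ K ≤ q1 := by
    rw [hq1]
    exact Nat.le_ceil _
  have hq1b : (q1 : ℝ) ≤ κ' / 8 * 2 ^ K + 1 := by
    rw [hq1]
    exact (Nat.ceil_lt_add_one (by positivity)).le
  have hmK := hm.pos K
  have hUK := Ub_pos K
  have hWL : gf (WL (K + 3)) ≤ ENNReal.ofReal (Ct * (8 * D ^ 6) * m K) * nuX m K := by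
    refine (htot (K + 3)).trans ?_
    have hU : Ub (K + 3) ≤ 8 * Ub K := by
      have a1 := Ub_succ K
      have a2 := Ub_succ (K + 1)
      have a3 := Ub_succ (K + 2)
      rw [show K + 3 = K + 2 + 1 by omega]
      linarith
    unfold nuX
    calc ENNReal.ofReal Ct * (ENNReal.ofReal (Ub (K + 3)) * Xb (K + 3) ^ 2)
        ≤ ENNReal.ofReal Ct * (ENNReal.ofReal (8 * Ub K) * (ENNReal.ofReal (D ^ 3) * Xb K) ^ 2) := by
          refine mul_le_mul_right (mul_le_mul' (ENNReal.ofReal_le_ofReal hU) (pow_le_pow_left' (hDX K 3) 2)) _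
      _ = ENNReal.ofReal (Ct * (8 * D ^ 6) * m K) * (ENNReal.ofReal (Ub K / m K) * Xb K ^ 2) := by
          rw [mul_pow, ← ENNReal.ofReal_pow (by positivity), ← mul_assoc, ← mul_assoc, ← mul_assoc,
            ← ENNReal.ofReal_mul (by positivity), ← ENNReal.ofReal_mul (by positivity), ← ENNReal.ofReal_mul (by positivity)]
          congr 2
          field_simp
  refine (gf_zz2 (n := n) (q1 := q1) (fun n' => h1 K n' hK1) hWL fun t ht =>
    true_drop hK3 (by linarith) (by linarith) ht).trans ?_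
  have hmK2 : m K ≤ Cm ^ K * m 0 := by
    have : ∀ j : ℕ, m j ≤ Cm ^ j * m 0 := by
      intro j
      induction j with
      | zero => simp
      | succ j ih =>
        calc m (j + 1) ≤ Cm * m j := hmu j
          _ ≤ Cm * (Cm ^ j * m 0) := mul_le_mul_of_nonneg_left ih (by linarith)
          _ = _ := by ring
    exact this K
  have h4 : xc ^ q1 * (DirA.CD * (Ct * (8 * D ^ 6) * m K)) ≤ ε / 2 := by
    refine le_trans ?_ (hdec K q1 hK2 hq1a)
    have hx := xc_pos
    have hD0 : 0 < D := by linarith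
    have hCt0 : 0 < Ct := by linarith
    calc xc ^ q1 * (DirA.CD * (Ct * (8 * D ^ 6) * m K)) = xc ^ q1 * (Q * m K) := by
          rw [hQ]
          ring
      _ ≤ xc ^ q1 * (Q * (Cm ^ K * m 0)) := by gcongr
      _ = _ := by ring
  rw [← mul_assoc, ← ENNReal.ofReal_mul hCDp.le, ← mul_assoc, ← mul_assoc, ← ENNReal.ofReal_mul (pow_nonneg xc_pos.le _),
    ← ENNReal.ofReal_mul (by have := xc_pos; positivity), ← add_mul,
    ← ENNReal.ofReal_add (by positivity) (by have := xc_pos; positivity)]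
  refine mul_le_mul_left (ENNReal.ofReal_le_ofReal ?_) _
  have h5 : DirA.CD * (ε / (2 * DirA.CD)) = ε / 2 := by
    field_simp
  rw [h5, mul_assoc]
  linarith

end LW

end EN

end HexObs
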