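import Pool.Agent.EN.OutEnd
import Pool.Agent.EN.ExEnd

/-!
EN (the end point at exactly n letters): one free end as an index, its functional PO, the sum over the free ends, the grades.
-/

set_option autoImplicit false

namespace HexObs

namespace EN

namespace LW

open Finset TS SDN SDN.CN NTm NTW NTA

open scoped ENNReal

open Classical in
/-- the weight of the free end o behind t -/
noncomputable def PO (D N lam : ℕ) (o : Option (List Bool)) (t : List Bool) : ℝ≥0∞ :=
  match o with
  | none => 1
  | some W => if W ∈ SSt N ∧ RT D LFold t W ∧ t.length + W.length ≤ lam then wE W else 0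

variable {D N lam : ℕ}

lemma herD_PO (hD : 1 ≤ D) (o : Option (List Bool)) : HerD D (PO D N lam o) := by
  classical
  cases o with
  | none => exact ⟨fun _ _ _ => le_rfl, fun _ _ _ _ => le_rfl⟩
  | some W =>
    refine ⟨fun s hs t => ?_, fun s t ht _ => ?_⟩
    · show (if W ∈ SSt N ∧ RT D LFold (s ++ t) W ∧ (s ++ t).length + W.length ≤ lam then wE W else 0) ≤
        (if W ∈ SSt N ∧ RT D LFold t W ∧ t.length + W.length ≤ lam then wE W else 0)
      by_cases h : W ∈ SSt N ∧ RT D LFold (s ++ t) W ∧ (s ++ t).length + W.length ≤ lam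
      · rw [if_pos h, if_pos]
        refine ⟨h.1, RT_her hs h.2.1, ?_⟩
        have := h.2.2
        rw [List.length_append] at this
        omega
      · rw [if_neg h]
        exact zero_le
    · show (if W ∈ SSt N ∧ RT D LFold (s ++ t) W ∧ (s ++ t).length + W.length ≤ lam then wE W else 0) ≤
        (if W ∈ SSt N ∧ RT D LFold t W ∧ t.length + W.length ≤ lam then wE W else 0)
      by_cases h : W ∈ SSt N ∧ RT D LFold (s ++ t) W ∧ (s ++ t).length + W.length ≤ lam
      · rw [if_pos h, if_pos]
        obtain ⟨Z, h1, h2, h3⟩ := h.2.1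
        rw [← List.append_assoc] at h2 h3
        refine ⟨h.1, RT_of ht (LFold_suf ht h2 hD h3), ?_⟩
        have := h.2.2
        rw [List.length_append] at this
        omega
      · rw [if_neg h]
        exact zero_le

lemma flp_PO (hD : 1 ≤ D) (o : Option (List Bool)) : Flp D (PO D N lam o) := by
  classical
  cases o with
  | none => exact fun _ _ _ _ _ => le_rfl
  | some W =>
    intro s t c hc _
    show (if W ∈ SSt N ∧ RT D LFold (s ++ (!c) :: t) W ∧ (s ++ (!c) :: t).length + W.length ≤ lam then wE W else 0) ≤
        (if W ∈ SSt N ∧ RT D LFold (c :: t) W ∧ (c :: t).length + W.length ≤ lam then wE W else 0)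
    by_cases h : W ∈ SSt N ∧ RT D LFold (s ++ (!c) :: t) W ∧ (s ++ (!c) :: t).length + W.length ≤ lam
    · rw [if_pos h, if_pos]
      obtain ⟨Z, h1, h2, h3⟩ := h.2.1
      rw [← List.append_assoc] at h3
      refine ⟨h.1, RT_of hc (LFold_flip hc hD h3), ?_⟩
      have := h.2.2
      rw [List.length_append, List.length_cons] at this
      rw [List.length_cons]
      omega
    · rw [if_neg h]
      exact zero_le

/-- the free ends with c letters -/
lemma sum_grade (c : ℕ) (t : List Bool) :
    ∑' o : Option (List Bool), (if (o.getD []).length = c then PO D N lam o t else 0) = EX.Pg D N lam c t := by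
  classical
  rw [tsum_option]
  unfold EX.Pg EX.ENg
  congr 1
  · show (if ([] : List Bool).length = c then (1 : ℝ≥0∞) else 0) = _
    rw [List.length_nil]
    by_cases h : c = 0
    · rw [if_pos h, if_pos h.symm]
    · rw [if_neg h, if_neg fun h' => h h'.symm]
  · rw [← Rec8.sw_one, Rec8.sw_ind]
    refine tsum_congr fun W => ?_
    show (if W.length = c then (if W ∈ SSt N ∧ RT D LFold t W ∧ t.length + W.length ≤ lam then wE W else 0) else 0) = _
    by_cases h1 : W ∈ SSt N ∧ RT D LFold t W ∧ t.length + W.length ≤ lam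
    · by_cases h2 : W.length = c
      · rw [if_pos h2, if_pos h1, if_pos (show W ∈ {W | W ∈ SSt N ∧ RT D LFold t W ∧ t.length + W.length ≤ lam ∧
          W.length = c} from ⟨h1.1, h1.2.1, h1.2.2, h2⟩), mul_one]
      · rw [if_neg h2, if_neg (show W ∉ {W | W ∈ SSt N ∧ RT D LFold t W ∧ t.length + W.length ≤ lam ∧
          W.length = c} from fun h => h2 h.2.2.2)]
    · rw [if_neg h1, if_neg (show W ∉ {W | W ∈ SSt N ∧ RT D LFold t W ∧ t.length + W.length ≤ lam ∧
          W.length = c} from fun h => h1 ⟨h.1, h.2.1, h.2.2.1⟩)]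
      split_ifs <;> rfl

/-- all free ends -/
lemma sum_PO (t : List Bool) : ∑' o : Option (List Bool), PO D N lam o t = 1 + ENl D N lam t := by
  classical
  rw [tsum_option]
  congr 1
  unfold ENl
  rw [← Rec8.sw_one, Rec8.sw_ind]
  refine tsum_congr fun W => ?_
  show (if W ∈ SSt N ∧ RT D LFold t W ∧ t.length + W.length ≤ lam then wE W else 0) = _
  by_cases h1 : W ∈ SSt N ∧ RT D LFold t W ∧ t.length + W.length ≤ lam
  · rw [if_pos h1, if_pos (show W ∈ {W | W ∈ SSt N ∧ RT D LFold t W ∧ t.length + W.length ≤ lam} from h1), mul_one]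
  · rw [if_neg h1, if_neg (show W ∉ {W | W ∈ SSt N ∧ RT D LFold t W ∧ t.length + W.length ≤ lam} from h1)]

lemma le_PO {g : List Bool} (hg : g ∈ HB D) {o : Option (List Bool)}
    (h : ∀ W ∈ o, W ∈ SSt N ∧ LFold g W ∧ g.length + W.length ≤ lam) : wO o ≤ PO D N lam o g := by
  classical
  cases o with
  | none => exact le_rfl
  | some W =>
    obtain ⟨h1, h2, h3⟩ := h W rfl
    show wE W ≤ (if W ∈ SSt N ∧ RT D LFold g W ∧ g.length + W.length ≤ lam then wE W else 0)
    rw [if_pos ⟨h1, RT_of hg h2, h3⟩]

open Classical in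
/-- two free ends, a given number of letters in all -/
lemma sum_two (M : ℕ) (s t : List Bool) (a : ℕ) :
    ∑' (o : Option (List Bool)) (o' : Option (List Bool)), (if (o.getD []).length + (a + 1) + (o'.getD []).length = M then
      PO D N lam o s * PO D N lam o' t else 0) ≤
    ∑ c ∈ range (M + 1), EX.Pg D N lam c s *
      (if a + 1 ≤ M - c then EX.Pg D N lam (M - c - (a + 1)) t else 0) := by
  have h1 : ∀ o : Option (List Bool), (∑' o' : Option (List Bool), (if (o.getD []).length + (a + 1) + (o'.getD []).length = M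
      then PO D N lam o s * PO D N lam o' t else 0)) ≤
      ∑ c ∈ range (M + 1), (if (o.getD []).length = c then PO D N lam o s else 0) *
        (if a + 1 ≤ M - c then EX.Pg D N lam (M - c - (a + 1)) t else 0) := by
    intro o
    by_cases h2 : (o.getD []).length + (a + 1) ≤ M
    · refine le_trans ?_ (Finset.single_le_sum (f := fun c => (if (o.getD []).length = c then PO D N lam o s else 0) *
        (if a + 1 ≤ M - c then EX.Pg D N lam (M - c - (a + 1)) t else 0)) (fun _ _ => zero_le)
        (mem_range.2 (show (o.getD []).length < M + 1 by omega)))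
      simp only [if_true]
      rw [if_pos (by omega), ← sum_grade, ← ENNReal.tsum_mul_left]
      refine ENNReal.tsum_le_tsum fun o' => ?_
      by_cases h3 : (o.getD []).length + (a + 1) + (o'.getD []).length = M
      · rw [if_pos h3, if_pos (by omega)]
      · rw [if_neg h3]
        exact zero_le
    · refine le_trans (le_of_eq (ENNReal.tsum_eq_zero.2 fun o' => if_neg fun h => h2 (by omega))) zero_le
  refine (ENNReal.tsum_le_tsum h1).trans (le_of_eq ?_)
  rw [Summable.tsum_finsetSum (fun _ _ => ENNReal.summable)]
  refine Finset.sum_congr rfl fun c _ => ?_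
  rw [ENNReal.tsum_mul_right, sum_grade]

end LW

end EN

end HexObs
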