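import Pool.Agent.EN.LatU
import Pool.Agent.EN.PosZ

/-!
EN (LOWX): the summation over the middle bridge Z of the words A i ++ (Z ++ B i) with exactly n letters that end near the
origin.
-/

set_option autoImplicit false

namespace HexObs

namespace EN

open Finset TS SDN

open scoped ENNReal

/-- **the sum over the middle bridge**: v i is the weight of the rest -/
theorem sum_mid {m : ℕ → ℝ} (hAL : ALat m) {y ε : ℝ} (hy : 0 < y) (hy1 : y ≤ 1) (hε : 0 < ε) :
    ∃ (κ : ℝ) (k0 : ℕ), 0 < κ ∧ ∀ k : ℕ, k0 ≤ k → ∀ (ι : Type) (n : ℕ) (T : Set (List Bool)) (A B : ι → List Bool)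
      (v : ι → ℝ≥0∞), (∀ t ∈ T, t.length = n ∧ (∀ dir : Bool, |((lvl dir (vx oo up t n) : ℤ) : ℝ)| ≤ κ * 2 ^ k) ∧
        ∃ i, ∃ Z ∈ BU, y * m k ≤ (Z.length : ℝ) ∧ t = A i ++ (Z ++ B i) ∧ wE t ≤ v i * wE Z) →
      gf T ≤ (∑' i, v i) * ENNReal.ofReal (ε * (Ub k / m k)) := by
  classical
  obtain ⟨κ, k0, hκ, h⟩ := hAL y ε hy hy1 hε
  refine ⟨κ, k0, hκ, fun k hk ι n T A B v hT => ?_⟩
  choose x hx using fun i => PZ.pos_midR (A i) (B i)
  obtain ⟨S, hS⟩ : ∃ S : ι → Set (List Bool), S = fun i => {Z | Z ∈ BU ∧ y * m k ≤ (Z.length : ℝ) ∧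
    Z.length = n - (A i).length - (B i).length ∧ |((latE Z - x i : ℤ) : ℝ)| ≤ κ * 2 ^ k} := ⟨_, rfl⟩
  have h1 : gf T ≤ ∑' z : ι × List Bool, v z.1 * (if z.2 ∈ S z.1 then wE z.2 * 1 else 0) := by
    rw [← Rec8.sw_one]
    refine Rec8.sw_cover T _ _ (fun z : ι × List Bool => A z.1 ++ (z.2 ++ B z.1)) fun t ht => ?_
    obtain ⟨hn, hlv, i, Z, hZ, hZl, htE, hw⟩ := hT t ht
    refine ⟨(i, Z), htE.symm, ?_⟩
    have hZS : Z ∈ S i := by
      rw [hS]
      refine ⟨hZ, hZl, ?_, ?_⟩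
      · have := hn
        rw [htE, List.length_append, List.length_append] at this
        omega
      · refine hx i Z hZ (κ * 2 ^ k) fun dir => ?_
        have := hlv dir
        rw [← htE, hn]
        exact this
    show wE t * 1 ≤ v i * (if Z ∈ S i then wE Z * 1 else 0)
    rw [if_pos hZS, mul_one, mul_one]
    exact hw
  refine h1.trans ?_
  rw [ENNReal.tsum_prod', ← ENNReal.tsum_mul_right]
  refine ENNReal.tsum_le_tsum fun i => ?_
  have h4 : (∑' b : List Bool, (if b ∈ S i then wE b * 1 else 0)) ≤ ENNReal.ofReal (ε * (Ub k / m k)) := by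
    rw [← Rec8.sw_ind (S i) (fun _ => 1), Rec8.sw_one]
    rcases le_or_gt (y * m k) (((n - (A i).length - (B i).length : ℕ)) : ℝ) with h2 | h2
    · refine (gf_mono ?_).trans (h k hk _ (x i) h2)
      intro Z hZ
      rw [hS] at hZ
      exact ⟨hZ.1, hZ.2.2.1, hZ.2.2.2⟩
    · have h3 : S i = (∅ : Set (List Bool)) := by
        rw [Set.eq_empty_iff_forall_notMem]
        intro Z hZ
        rw [hS] at hZ
        obtain ⟨-, a1, a2, -⟩ := hZ
        rw [a2] at a1
        exact absurd a1 (not_le.2 h2)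
      rw [h3, JumpVaux.gf_empty]
      exact zero_le
  have h5 : (∑' b : List Bool, v i * (if b ∈ S i then wE b * 1 else 0)) ≤ v i * ENNReal.ofReal (ε * (Ub k / m k)) := by
    rw [ENNReal.tsum_mul_left]
    exact mul_le_mul_right h4 _
  exact h5

end EN

end HexObs
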