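import Pool.Agent.EN.LowDefs
import Pool.Agent.EN.LowCov
import Pool.Agent.EN.LowBlock
import Pool.Agent.NTA.TailInd

/-!
EN (the end point at exactly n letters): the layer of the words of vertical range about 2 ^ K.
-/

set_option autoImplicit false

namespace HexObs

namespace EN

namespace LW

open Finset TS SDN SDN.CN NTm NTW NTA

open scoped ENNReal

/-- **the layer of the words of vertical range about 2 ^ K** -/
theorem LYs_of {m : ℕ → ℝ} {a1 : ℝ} (hm : ∀ k, 0 < m k) (hup : MUp m) (hC : C1 m) (h1 : 1 / 2 < a1) (h2 : a1 ≤ 3 / 5)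
    (hI : BrL.IndB2 a1) (hAL : ALat m) : LYs m := by
  classical
  intro ε hε
  obtain ⟨Cm, hCm, hmu⟩ := TI.mup_pow hup
  obtain ⟨K1, hK1, hcov⟩ := cover_one
  obtain ⟨ε1, hε1⟩ : ∃ ε1 : ℝ, ε1 = ε / (64 * K1 * Cm ^ 9) := ⟨_, rfl⟩
  have hCm0 : 0 < Cm := by linarith
  have hK10 : 0 < K1 := by linarith
  have hε1p : 0 < ε1 := by rw [hε1]; positivity
  obtain ⟨κ, k0, hκ, hblk⟩ := block hm hup hC h1 h2 hI hAL hε1p
  refine ⟨κ / 2 ^ 9, k0 + 20, by positivity, fun K n hK => ?_⟩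
  obtain ⟨N, hN⟩ : ∃ N, N = 2 ^ (K + 1) + 4 := ⟨_, rfl⟩
  obtain ⟨S, hS⟩ : ∃ S, S = LY (κ / 2 ^ 9) K n := ⟨_, rfl⟩
  obtain ⟨P, hP⟩ : ∃ P : ℕ, P = 2 ^ (K - 2) := ⟨_, rfl⟩
  have hP8 : 64 ≤ P := by
    rw [hP]
    calc 64 = 2 ^ 6 := by norm_num
      _ ≤ 2 ^ (K - 2) := Nat.pow_le_pow_right (by norm_num) (by omega)
  have e1 : 2 ^ (K - 1) = 2 * P := by rw [hP, ← pow_succ']; congr 1; omega
  have e2 : 2 ^ K = 4 * P := by rw [show K = (K - 1) + 1 by omega, pow_succ, e1]; ring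
  have e3 : 2 ^ (K + 1) = 8 * P := by rw [pow_succ, e2]; ring
  have e4 : 2 ^ (K + 2) = 16 * P := by rw [pow_succ, e3]; ring
  have z1 : (2 : ℤ) ^ (K - 1) = 2 * P := by exact_mod_cast e1
  have z2 : (2 : ℤ) ^ K = 4 * P := by exact_mod_cast e2
  rw [← hS]
  have hcv := hcov S N n (3 * 2 ^ (K - 1) - 6) (by rw [z1]; omega) (by
    intro t ht
    rw [hS] at ht
    obtain ⟨t1, t2, t3, ⟨i, hi, t4⟩, -⟩ := ht
    rw [z2] at t3
    rw [z1] at t4
    refine ⟨t1, t2.le, fun a a' ha ha' => ?_, ?_⟩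
    · have q1 := abs_le.1 (t3 a ha)
      have q2 := abs_le.1 (t3 a' ha')
      rw [hN, e3]
      push_cast
      omega
    · have h0 : lev t 0 = 0 := by
        show lvl false oo = 0
        decide
      rw [z1]
      rcases abs_cases (lev t i) with ⟨q1, -⟩ | ⟨q1, -⟩
      · exact ⟨i, 0, hi, Nat.zero_le _, by omega⟩
      · exact ⟨0, i, Nat.zero_le _, hi, by omega⟩)
  refine hcv.trans ?_
  have hU := Ub_pos K
  have hmK := hm K
  have hone : ∀ c : Fin 16, Rec8.sw {g | ∃ h : ℕ, 1 ≤ h ∧ g ∈ Brd h ∧ 3 * 2 ^ (K - 1) - 6 ≤ 3 * (h : ℤ) + 8 ∧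
      3 * (h : ℤ) ≤ 3 * N + 8} (fun g => ∑' (o : Option (List Bool)) (o' : Option (List Bool)),
        if CO N n S c o o' g then wO o * wO o' else 0) ≤
      ENNReal.ofReal (4 * (ε1 * Cm ^ 9 * (Ub K / m K))) * Xb K ^ 2 := by
    intro c
    have hpt := sw_parts (A := {g | ∃ h : ℕ, 1 ≤ h ∧ g ∈ Brd h ∧ 3 * 2 ^ (K - 1) - 6 ≤ 3 * (h : ℤ) + 8 ∧
      3 * (h : ℤ) ≤ 3 * N + 8}) (B := ∅) (Z := fun r => Bk (K - 9 + r)) (i1 := 4)
      (fun g => ∑' (o : Option (List Bool)) (o' : Option (List Bool)),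
        if CO N n S c o o' g then wO o * wO o' else 0) (by
      rintro g ⟨h, hh1, hg, hh2, hh3⟩
      right
      rw [z1] at hh2
      rw [hN, e3] at hh3
      push_cast at hh3
      have hlo : P ≤ h := by omega
      have hhi : h ≤ 16 * P := by omega
      have hb : ∀ r, 2 ^ (K - 9 + r + 7) = 2 ^ r * P := by
        intro r
        rw [hP, ← pow_add]
        congr 1
        omega
      have hb' : ∀ r, 2 ^ (K - 9 + r + 8) = 2 * 2 ^ r * P := by
        intro r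
        rw [show K - 9 + r + 8 = K - 9 + r + 7 + 1 by ring, pow_succ, hb]
        ring
      have hmem : ∀ r, 2 ^ r * P ≤ h → h ≤ 2 * 2 ^ r * P → g ∈ Bk (K - 9 + r) := by
        intro r q1 q2
        exact ⟨h, by rw [hb]; exact q1, by rw [hb']; exact q2, hg⟩
      rcases Nat.lt_or_ge (2 * P) h with q1 | q1
      · rcases Nat.lt_or_ge (4 * P) h with q2 | q2
        · rcases Nat.lt_or_ge (8 * P) h with q3 | q3
          · exact ⟨3, by norm_num, hmem 3 (by omega) (by omega)⟩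
          · exact ⟨2, by norm_num, hmem 2 (by omega) (by omega)⟩
        · exact ⟨1, by norm_num, hmem 1 (by omega) (by omega)⟩
      · exact ⟨0, by norm_num, hmem 0 (by omega) (by omega)⟩)
    refine hpt.trans ?_
    have h0 : Rec8.sw ({g | ∃ h : ℕ, 1 ≤ h ∧ g ∈ Brd h ∧ 3 * 2 ^ (K - 1) - 6 ≤ 3 * (h : ℤ) + 8 ∧
      3 * (h : ℤ) ≤ 3 * N + 8} ∩ ∅) (fun g => ∑' (o : Option (List Bool)) (o' : Option (List Bool)),
        if CO N n S c o o' g then wO o * wO o' else 0) = 0 := by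
      rw [Set.inter_empty]
      unfold Rec8.sw
      rw [tsum_empty]
    rw [h0, zero_add]
    have hr : ∀ r ∈ range 4, Rec8.sw (Bk (K - 9 + r)) (fun g => ∑' (o : Option (List Bool)) (o' : Option (List Bool)),
        if CO N n S c o o' g then wO o * wO o' else 0) ≤ ENNReal.ofReal (ε1 * Cm ^ 9 * (Ub K / m K)) * Xb K ^ 2 := by
      intro r hr
      rw [mem_range] at hr
      refine (hblk (K - 9 + r) K N n n S c (by omega) (by omega) (by omega) (by rw [hN, e3, e4]; omega) ?_ ?_).trans ?_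
      · have : 2 ^ (K - 9 + r + 4) ≤ 2 ^ (K - 2) := Nat.pow_le_pow_right (by norm_num) (by omega)
        rw [← hP] at this
        rw [hN, e3]
        omega
      · intro t ht
        rw [hS] at ht
        refine ⟨ht.2.1, fun dir => (ht.2.2.2.2 dir).trans ?_⟩
        have q1 : (2 : ℝ) ^ K ≤ 2 ^ 9 * 2 ^ (K - 9 + r) := by
          rw [← pow_add]
          exact pow_le_pow_right₀ (by norm_num) (by omega)
        calc κ / 2 ^ 9 * 2 ^ K ≤ κ / 2 ^ 9 * (2 ^ 9 * 2 ^ (K - 9 + r)) := by gcongr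
          _ = κ * 2 ^ (K - 9 + r) := by field_simp
      · refine mul_le_mul_left (ENNReal.ofReal_le_ofReal ?_) _
        have hmk := hm (K - 9 + r)
        have hUk := Ub_pos (K - 9 + r)
        have q1 : Ub (K - 9 + r) ≤ Ub K := Ub_mono (by omega)
        have q2 : m K ≤ Cm ^ 9 * m (K - 9 + r) := by
          have := hmu (K - 9 + r) (9 - r)
          rw [show K - 9 + r + (9 - r) = K by omega] at this
          refine this.trans (mul_le_mul_of_nonneg_right (pow_le_pow_right₀ hCm (by omega)) hmk.le)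
        have q3 : Ub (K - 9 + r) / m (K - 9 + r) ≤ Cm ^ 9 * (Ub K / m K) := by
          rw [← mul_div_assoc, div_le_div_iff₀ hmk hmK]
          calc Ub (K - 9 + r) * m K ≤ Ub K * (Cm ^ 9 * m (K - 9 + r)) := by gcongr
            _ = Cm ^ 9 * Ub K * m (K - 9 + r) := by ring
        calc ε1 * (Ub (K - 9 + r) / m (K - 9 + r)) ≤ ε1 * (Cm ^ 9 * (Ub K / m K)) := by gcongr
          _ = ε1 * Cm ^ 9 * (Ub K / m K) := by ring
    refine (Finset.sum_le_sum hr).trans (le_of_eq ?_)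
    have h4 : ((4 : ℕ) : ℝ≥0∞) = ENNReal.ofReal 4 := by norm_num
    rw [Finset.sum_const, Finset.card_range, nsmul_eq_mul, h4, ← mul_assoc, ← ENNReal.ofReal_mul (by norm_num)]
  refine (mul_le_mul' le_rfl (Finset.sum_le_sum fun c _ => hone c)).trans (le_of_eq ?_)
  rw [Finset.sum_const, Finset.card_univ, Fintype.card_fin, nsmul_eq_mul]
  unfold nuX
  have h16 : ((16 : ℕ) : ℝ≥0∞) = ENNReal.ofReal 16 := by norm_num
  rw [h16, ← mul_assoc (ENNReal.ofReal 16), ← ENNReal.ofReal_mul (by norm_num), ← mul_assoc,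
    ← ENNReal.ofReal_mul hK10.le, ← mul_assoc (ENNReal.ofReal ε), ← ENNReal.ofReal_mul hε.le]
  congr 2
  rw [hε1]
  field_simp
  ring

end LW

end EN

end HexObs
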