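import Pool.Agent.EN.LowLayer
import Pool.Agent.EN.LatM
import Pool.Agent.EN.GBM
import Pool.Agent.EN.FactsZ

/-!
EN: the layers of the end point at exactly n letters, for the mean length of the bridges.
-/

set_option autoImplicit false

namespace HexObs

namespace EN

open Finset TS SDN NTW NTA

open scoped ENNReal

/-- **the layers of the vertical range, no hypothesis** -/
theorem lys_M : LW.LYs (fun k => PW.mZ (2 ^ k)) := by
  obtain ⟨a1, h1, h2, hI⟩ := indB2_M
  exact LW.LYs_of (fun k => PW.mZ_pos Nat.one_le_two_pow) mup_M c1_M h1 h2 hI aLat_M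

end EN

end HexObs
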