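import Pool.Agent.EN.FreeJ
import Pool.Agent.EN.LowEnd
import Pool.Agent.EN.ExStep

/-!
EN (the end point at exactly n letters): the sum over one leaf g = unf [s1, l, s2] with s1 in a window class and two free
ends, restricted by a relation which leaves a small weight for the free middle part of s1.
-/

set_option autoImplicit false

namespace HexObs

namespace EN

namespace LW

open Finset TS SDN SDN.CN NTm NTW NTA

open scoped ENNReal

/-- the continuations behind s1: the leaves l, s2 and the free end o' -/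
abbrev Ct := List Bool × (List Bool × Option (List Bool))

open Classical in
/-- the weight of the continuation b behind s -/
noncomputable def FB (D D1 N lam : ℕ) (L S2 : Set (List Bool)) (b : Ct) (s : List Bool) : ℝ≥0∞ :=
  if (b.1 ∈ L ∧ RT D1 LFold s b.1) ∧ (b.2.1 ∈ S2 ∧ RT D1 LFold b.1 b.2.1) then
    wE b.1 * (wE b.2.1 * PO D N lam b.2.2 b.2.1) else 0

lemma hered_FB (D D1 N lam : ℕ) (L S2 : Set (List Bool)) (b : Ct) : Hered (FB D D1 N lam L S2 b) := by
  classical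
  intro s hs t
  unfold FB
  by_cases h : (b.1 ∈ L ∧ RT D1 LFold (s ++ t) b.1) ∧ (b.2.1 ∈ S2 ∧ RT D1 LFold b.1 b.2.1)
  · rw [if_pos h, if_pos ⟨⟨h.1.1, RT_her hs h.1.2⟩, h.2⟩]
  · rw [if_neg h]
    exact zero_le

/-- all continuations -/
lemma sum_FB (D D1 N lam : ℕ) (L S2 : Set (List Bool)) (s : List Bool) :
    ∑' b : Ct, FB D D1 N lam L S2 b s = vA D1 L (vA D1 S2 (fun t => 1 + ENl D N lam t)) s := by
  classical
  rw [ENNReal.tsum_prod']
  unfold vA
  rw [Rec8.sw_ind]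
  refine tsum_congr fun l => ?_
  rw [ENNReal.tsum_prod']
  by_cases h1 : l ∈ L ∧ RT D1 LFold s l
  · rw [if_pos (show l ∈ {g' | g' ∈ L ∧ RT D1 LFold s g'} from h1), Rec8.sw_ind, ← ENNReal.tsum_mul_left]
    refine tsum_congr fun s2 => ?_
    unfold FB
    simp only
    by_cases h2 : s2 ∈ S2 ∧ RT D1 LFold l s2
    · simp only [if_pos (And.intro h1 h2)]
      rw [if_pos (show s2 ∈ {g' | g' ∈ S2 ∧ RT D1 LFold l g'} from h2), ENNReal.tsum_mul_left, ENNReal.tsum_mul_left, sum_PO]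
    · have h3 : ¬ ((l ∈ L ∧ RT D1 LFold s l) ∧ (s2 ∈ S2 ∧ RT D1 LFold l s2)) := fun h => h2 h.2
      simp only [if_neg h3, tsum_zero]
      rw [if_neg (show s2 ∉ {g' | g' ∈ S2 ∧ RT D1 LFold l g'} from h2), mul_zero]
  · rw [if_neg (show l ∉ {g' | g' ∈ L ∧ RT D1 LFold s g'} from h1)]
    refine ENNReal.tsum_eq_zero.2 fun s2 => ENNReal.tsum_eq_zero.2 fun o' => ?_
    unfold FB
    exact if_neg fun h => h1 h.1

open Classical in
/-- the decomposition of the leaf -/
theorem zg_rel {D D1 N lam : ℕ} {S1 L S2 : Set (List Bool)} (hD1 : 1 ≤ D1) (hDD : D1 ≤ D) (h1 : S1 ⊆ HB D) (h2 : L ⊆ HB D1)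
    (h3 : S2 ⊆ HB D) (T : Option (List Bool) → Option (List Bool) → List Bool → Prop) :
    Rec8.sw (Zg D S1 L S2) (fun g => ∑' (o : Option (List Bool)) (o' : Option (List Bool)),
      if T o o' g then PO D N lam o (rev g) * PO D N lam o' g else 0) ≤
    Rec8.sw S1 (fun s => ∑' (o : Option (List Bool)) (b : Ct), if T o b.2.2 (unf [s, b.1, b.2.1]) then
      PO D N lam o (rev s) * FB D D1 N lam L S2 b s else 0) := by
  have hD : 1 ≤ D := hD1.trans hDD
  obtain ⟨H, hH⟩ : ∃ H : List Bool × (List Bool × List Bool) → ℝ≥0∞, H = fun p =>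
      if p.1 ∈ S1 ∧ (p.2.1 ∈ L ∧ LFold p.1 p.2.1) ∧ (p.2.2 ∈ S2 ∧ LFold p.2.1 p.2.2) then
        wE p.1 * (wE p.2.1 * (wE p.2.2 * ∑' (o : Option (List Bool)) (o' : Option (List Bool)),
          if T o o' (unf [p.1, p.2.1, p.2.2]) then PO D N lam o (rev p.1) * PO D N lam o' p.2.2 else 0))
      else 0 := ⟨_, rfl⟩
  have Hv : ∀ a b c, H (a, (b, c)) = if a ∈ S1 ∧ (b ∈ L ∧ LFold a b) ∧ (c ∈ S2 ∧ LFold b c) then
        wE a * (wE b * (wE c * ∑' (o : Option (List Bool)) (o' : Option (List Bool)),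
          if T o o' (unf [a, b, c]) then PO D N lam o (rev a) * PO D N lam o' c else 0))
      else 0 := fun a b c => by rw [hH]
  refine (Rec8.sw_cover _ _ H (fun p : List Bool × (List Bool × List Bool) => unf [p.1, p.2.1, p.2.2]) ?_).trans ?_
  · rintro g ⟨hgD, s1, a1, l, a2, s2, a3, f1, f2, hunf⟩
    have b1 := h1 a1
    have b2 := h2 a2
    have b3 := h3 a3
    have n1 := HB_ne hD b1
    have n2 := HB_ne hD1 b2
    have n3 := HB_ne hD b3
    refine ⟨(s1, (l, s2)), hunf, ?_⟩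
    rw [Hv, if_pos ⟨a1, ⟨a2, f1⟩, ⟨a3, f2⟩⟩]
    have c1 : wE g ≤ wE s1 * (wE l * wE s2) := by
      rw [← hunf]
      exact wE_unf3 n1 n2 n3
    have c2 : ∀ o, PO D N lam o (rev g) ≤ PO D N lam o (rev s1) := by
      intro o
      have := flp_zig hD (flp_PO (N := N) (lam := lam) hD o) s1 b1 l s2 (by rw [hunf]; exact hgD)
      rwa [hunf] at this
    have c3 : ∀ o', PO D N lam o' g ≤ PO D N lam o' s2 := by
      intro o'
      obtain ⟨s, hs⟩ := unf3_suf s1 l s2
      rw [hunf] at hs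
      have := (herD_PO (N := N) (lam := lam) hD o').suf s s2 b3 (hs ▸ hgD)
      rwa [← hs] at this
    calc wE g * ∑' (o : Option (List Bool)) (o' : Option (List Bool)),
          (if T o o' g then PO D N lam o (rev g) * PO D N lam o' g else 0)
        ≤ (wE s1 * (wE l * wE s2)) * ∑' (o : Option (List Bool)) (o' : Option (List Bool)),
          (if T o o' (unf [s1, l, s2]) then PO D N lam o (rev s1) * PO D N lam o' s2 else 0) := by
          refine mul_le_mul' c1 (ENNReal.tsum_le_tsum fun o => ENNReal.tsum_le_tsum fun o' => ?_)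
          rw [hunf]
          split_ifs
          · exact mul_le_mul' (c2 o) (c3 o')
          · exact le_rfl
      _ = _ := by ring
  · rw [ENNReal.tsum_prod', Rec8.sw_ind]
    refine ENNReal.tsum_le_tsum fun s1 => ?_
    rw [ENNReal.tsum_prod']
    by_cases c1 : s1 ∈ S1
    swap
    · rw [if_neg c1]
      refine le_of_eq (ENNReal.tsum_eq_zero.2 fun l => ENNReal.tsum_eq_zero.2 fun s2 => ?_)
      rw [Hv]
      exact if_neg fun h => c1 h.1
    rw [if_pos c1]
    -- the right side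
    have e1 : ∑' (o : Option (List Bool)) (b : Ct), (if T o b.2.2 (unf [s1, b.1, b.2.1]) then
        PO D N lam o (rev s1) * FB D D1 N lam L S2 b s1 else 0) =
        ∑' (l : List Bool) (s2 : List Bool) (o : Option (List Bool)) (o' : Option (List Bool)),
          (if T o o' (unf [s1, l, s2]) then PO D N lam o (rev s1) * FB D D1 N lam L S2 (l, (s2, o')) s1 else 0) := by
      have e2 : ∀ o : Option (List Bool), ∑' (b : Ct), (if T o b.2.2 (unf [s1, b.1, b.2.1]) then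
          PO D N lam o (rev s1) * FB D D1 N lam L S2 b s1 else 0) = ∑' (l : List Bool) (s2 : List Bool)
          (o' : Option (List Bool)), (if T o o' (unf [s1, l, s2]) then
          PO D N lam o (rev s1) * FB D D1 N lam L S2 (l, (s2, o')) s1 else 0) := by
        intro o
        rw [ENNReal.tsum_prod']
        exact tsum_congr fun l => by rw [ENNReal.tsum_prod']
      simp only [e2]
      rw [ENNReal.tsum_comm]
      exact tsum_congr fun l => ENNReal.tsum_comm
    rw [e1, ← ENNReal.tsum_mul_left]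
    refine ENNReal.tsum_le_tsum fun l => ?_
    rw [← ENNReal.tsum_mul_left]
    refine ENNReal.tsum_le_tsum fun s2 => ?_
    rw [Hv]
    by_cases c2 : (l ∈ L ∧ LFold s1 l) ∧ (s2 ∈ S2 ∧ LFold l s2)
    swap
    · rw [if_neg fun h => c2 h.2]
      exact zero_le
    rw [if_pos ⟨c1, c2⟩]
    refine mul_le_mul_right (le_of_eq ?_) _
    rw [← ENNReal.tsum_mul_left, ← ENNReal.tsum_mul_left]
    refine tsum_congr fun o => ?_
    rw [← ENNReal.tsum_mul_left, ← ENNReal.tsum_mul_left]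
    refine tsum_congr fun o' => ?_
    have e3 : FB D D1 N lam L S2 (l, (s2, o')) s1 = wE l * (wE s2 * PO D N lam o' s2) := by
      unfold FB
      exact if_pos ⟨⟨c2.1.1, RT_of (HB_anti hDD (h1 c1)) c2.1.2⟩, ⟨c2.2.1, RT_of (h2 c2.1.1) c2.2.2⟩⟩
    rw [e3]
    by_cases h : T o o' (unf [s1, l, s2])
    · rw [if_pos h, if_pos h]
      ring
    · rw [if_neg h, if_neg h, mul_zero, mul_zero]

open Classical in
/-- **the sum over a leaf with a good part s1 and two free ends in a relation** -/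
theorem good_sum : ∃ K : ℝ, 1 ≤ K ∧ ∀ (kc j e' j' N lam : ℕ) (A : ℝ) (y : ℝ≥0∞) (S1 : Set (List Bool))
    (T : Option (List Bool) → Option (List Bool) → List Bool → Prop), j ≤ kc → j' + 1 ≤ e' → e' ≤ kc → 0 ≤ A →
    S1 ⊆ Ak kc → Win e' j' S1 → DmJ kc y (fun t => 1 + ENl (2 ^ (kc + 4)) N lam t) →
    EZJ (2 ^ (kc + 4)) (2 ^ (kc + 8)) e' S1 (fun (o : Option (List Bool)) (b : Ct) (s : List Bool) =>
      T o b.2.2 (unf [s, b.1, b.2.1])) A →
    Rec8.sw (Zg (2 ^ (kc + 4)) S1 (Bk j) (Ak kc)) (fun g => ∑' (o : Option (List Bool)) (o' : Option (List Bool)),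
      if T o o' g then PO (2 ^ (kc + 4)) N lam o (rev g) * PO (2 ^ (kc + 4)) N lam o' g else 0) ≤
      ENNReal.ofReal (K * (4 ^ (kc - j') * A) * 2 ^ (kc - j)) * (y * y) := by
  obtain ⟨C, δ, h⟩ := inp_exists
  obtain ⟨K1, hK1, hfree⟩ := free_j (ssA h)
  obtain ⟨Ka, hKa, ha⟩ := LQ.SmD_all
  obtain ⟨Kl, hKl, hl⟩ := all_low
  obtain ⟨K, hK, hdx⟩ := DomJ_xT h
  refine ⟨K1 * (K * (Ka * Kl)), one_le_mul_of_one_le_of_one_le hK1 (one_le_mul_of_one_le_of_one_le hK
    (one_le_mul_of_one_le_of_one_le hKa hKl)), fun kc j e' j' N lam A y S1 T hj hje he hA0 hS1 hwin hy hEZ => ?_⟩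
  have hD1 : 1 ≤ 2 ^ (j + 4) := Nat.one_le_two_pow
  have hD : 1 ≤ 2 ^ (kc + 4) := Nat.one_le_two_pow
  have hDD : 2 ^ (j + 4) ≤ 2 ^ (kc + 4) := Nat.pow_le_pow_right (by norm_num) (by omega)
  have h1 : S1 ⊆ HB (2 ^ (kc + 4)) := fun g hg => Ak_HB kc (hS1 hg)
  refine (zg_rel (N := N) (lam := lam) hD1 hDD h1 (Bk_HB j) (Ak_HB kc) T).trans ?_
  -- the functional behind s1
  have hx : DomJ kc (ENNReal.ofReal (K * (Ka * (Kl * 2 ^ (kc - j)))) * y)
      (fun t => ∑' b : Ct, FB (2 ^ (kc + 4)) (2 ^ (j + 4)) N lam (Bk j) (Ak kc) b t) := by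
    simp only [sum_FB]
    have g1 := hl j kc y _ hj hy
    have g2 := (ha j).near _ _ (DmJ_dm j (vA (2 ^ (j + 4)) (Ak kc) (fun t => 1 + ENl (2 ^ (kc + 4)) N lam t))
      (NTm.herD_vA hD1 _ _))
    have g3 : xT (2 ^ (j + 4)) j (vA (2 ^ (j + 4)) (Bk j) (vA (2 ^ (j + 4)) (Ak kc)
        (fun t => 1 + ENl (2 ^ (kc + 4)) N lam t))) ≤ ENNReal.ofReal Ka * (ENNReal.ofReal (Kl * 2 ^ (kc - j)) * y) := by
      refine le_trans (xT_mono fun t => ?_) (g2.trans (mul_le_mul_right g1 _))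
      exact Rec8.sw_mono (fun g hg => ⟨Bk_Ak j hg.1, hg.2⟩) fun _ _ => le_rfl
    have g4 : Hered (vA (2 ^ (j + 4)) (Bk j) (vA (2 ^ (j + 4)) (Ak kc) (fun t => 1 + ENl (2 ^ (kc + 4)) N lam t))) :=
      (NTm.herD_vA hD1 _ _).her
    refine (hdx (2 ^ (j + 4)) j kc _ g4 le_rfl hj).mono ?_
    refine (mul_le_mul_right g3 _).trans (le_of_eq ?_)
    rw [← mul_assoc, ← mul_assoc, ← ENNReal.ofReal_mul (by linarith), ← ENNReal.ofReal_mul (by positivity)]
    congr 2
    ring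
  have hyS : DomJ kc y (fun t => ∑' o, PO (2 ^ (kc + 4)) N lam o t) := by
    simp only [sum_PO]
    exact hy.2
  refine (hfree kc e' j' (2 ^ (kc + 8)) A y _ (PO (2 ^ (kc + 4)) N lam)
    (FB (2 ^ (kc + 4)) (2 ^ (j + 4)) N lam (Bk j) (Ak kc)) S1
    (fun (o : Option (List Bool)) (b : Ct) (s : List Bool) => T o b.2.2 (unf [s, b.1, b.2.1]))
    (fun o => (herD_PO hD o).her) hyS (fun b => hered_FB _ _ _ _ _ _ b) hx hje he hS1 hEZ hwin).trans (le_of_eq ?_)
  have e1 : ENNReal.ofReal (K1 * (4 ^ (kc - j') * A)) * (y * (ENNReal.ofReal (K * (Ka * (Kl * 2 ^ (kc - j)))) * y)) =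
      (ENNReal.ofReal (K1 * (4 ^ (kc - j') * A)) * ENNReal.ofReal (K * (Ka * (Kl * 2 ^ (kc - j))))) * (y * y) := by ring
  rw [e1, ← ENNReal.ofReal_mul (by positivity)]
  congr 2
  ring

end LW

end EN

end HexObs
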