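import Pool.Agent.EN.LowM
import Pool.Agent.EN.LowAsm
import Pool.Agent.EN.LowDir

/-!
EN (every number of letters): few walks end near the start, for the mean length of the bridges, no hypothesis.
-/

set_option autoImplicit false

namespace HexObs

namespace EN

open Finset TS SDN NTW NTA

open scoped ENNReal

/-- **few walks with exactly n letters end near the start, every n, no hypothesis** -/
theorem lowX_M : LowX (fun k => PW.mZ (2 ^ k)) :=
  lowX_of mlow_M mup_M espw_M (sbx_of mlow_M mup_M extM) (LW.LDs_false lys_M) (LW.LDs_true mlow_M mup_M lys_M)

end EN

end HexObs
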