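import Pool.Agent.NTA.GeoRun
import Pool.Agent.NTA.RunDir
import Pool.Agent.NTW.Geo2

/-!
EN (outer mark, EX1S): the ranges of the monotone chain through a run are nested: if the walk has a large range, then the
first piece, the last piece or a leaf of the run is tall.
-/

set_option autoImplicit false

namespace HexObs

namespace EN

open Finset TS SDN NTW NTA

open scoped ENNReal

namespace OG

variable {t : List Bool} {r u p d : ℕ} {E : ℕ → ℕ}

lemma sg_cases (u q k : ℕ) (x : ℤ) (h : q ≤ k) :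
    (Even (k - q) → Tight.sg (u + q) x = Tight.sg (u + k) x) ∧
      (¬ Even (k - q) → Tight.sg (u + q) x = -Tight.sg (u + k) x) := by
  obtain ⟨s, rfl⟩ : ∃ s, k = q + s := ⟨k - q, by omega⟩
  rw [Nat.add_sub_cancel_left, ← add_assoc]
  constructor
  · intro hs
    refine NTm.sg_par ?_ x
    rw [Nat.even_add (m := u + q)]
    exact ⟨fun h => ⟨fun _ => hs, fun _ => h⟩, fun h => h.2 hs⟩
  · intro hs
    have h1 := Tight.sg_succ (u + q) x
    have h2 : Tight.sg (u + q + 1) x = Tight.sg (u + q + s) x := by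
      refine NTm.sg_par ?_ x
      rw [Nat.even_add_one, Nat.even_add (m := u + q)]
      constructor
      · intro h3
        exact ⟨fun h4 => absurd h4 h3, fun h4 => absurd h4 hs⟩
      · intro h3 h4
        exact hs (h3.1 h4)
    omega

/-- a piece lies between its ends -/
lemma piece_btw (hF : FoldG t r u E) {q i : ℕ} (hq : q < r) (h1 : E q ≤ i) (h2 : i ≤ E (q + 1)) :
    Tight.sg (u + q) (lev t (E q)) ≤ Tight.sg (u + q) (lev t i) ∧
      Tight.sg (u + q) (lev t i) ≤ Tight.sg (u + q) (lev t (E (q + 1))) := by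
  refine ⟨?_, hF.hi q hq i h1 h2⟩
  rcases Nat.eq_zero_or_pos q with h0 | h0
  · subst h0
    rw [add_zero]
    exact hF.lo0 i h1 h2
  · rcases Nat.eq_or_lt_of_le h1 with h3 | h3
    · rw [h3]
    · exact (hF.lo q h0 hq i h3 h2).le

lemma find_piece {a b i : ℕ} (hab : a < b) (h1 : E a ≤ i) (h2 : i ≤ E b) :
    ∃ q, a ≤ q ∧ q < b ∧ E q ≤ i ∧ i ≤ E (q + 1) := by
  induction b, (show a + 1 ≤ b from hab) using Nat.le_induction with
  | base => exact ⟨a, le_rfl, by omega, h1, h2⟩
  | succ b hb ih =>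
    rcases Nat.lt_or_ge i (E b) with h3 | h3
    · obtain ⟨q, q1, q2, q3, q4⟩ := ih (by omega) h3.le
      exact ⟨q, q1, by omega, q3, q4⟩
    · exact ⟨b, by omega, by omega, h3, h2⟩

/-- the left pieces lie in the first one -/
lemma left_in (hF : FoldG t r u E) (hpr : p ≤ r) (hdec : ∀ q, q + 1 < p → RG t u E (q + 1) ≤ RG t u E q) :
    ∀ q, q < p → (Tight.sg u (lev t (E 0)) ≤ Tight.sg u (lev t (E q)) ∧
      Tight.sg u (lev t (E q)) ≤ Tight.sg u (lev t (E 1))) ∧
      (Tight.sg u (lev t (E 0)) ≤ Tight.sg u (lev t (E (q + 1))) ∧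
      Tight.sg u (lev t (E (q + 1))) ≤ Tight.sg u (lev t (E 1))) := by
  intro q
  induction q with
  | zero =>
    intro hq
    have h1 := hF.gap 0 (by omega)
    rw [add_zero, zero_add] at h1
    refine ⟨⟨le_rfl, by omega⟩, ?_⟩
    rw [zero_add]
    exact ⟨by omega, le_rfl⟩
  | succ q ih =>
    intro hq
    obtain ⟨⟨a1, a2⟩, a3, a4⟩ := ih (by omega)
    refine ⟨⟨a3, a4⟩, ?_⟩
    have h1 := hdec q hq
    have h2 := hF.gap (q + 1) (by omega)
    have h3 := hF.gap q (by omega)
    unfold RG at h1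
    have e1 := fun x => sg_cases u 0 q x (Nat.zero_le q)
    have e2 := fun x => sg_cases u 0 (q + 1) x (Nat.zero_le _)
    simp only [Nat.sub_zero, add_zero] at e1 e2
    by_cases hp : Even q
    · have hp' : ¬ Even (q + 1) := by
        rw [Nat.even_add_one]
        exact fun h => h hp
      have f1 := (e1 (lev t (E q))).1 hp
      have f2 := (e1 (lev t (E (q + 1)))).1 hp
      have f3 := (e2 (lev t (E (q + 1)))).2 hp'
      have f4 := (e2 (lev t (E (q + 1 + 1)))).2 hp'
      omega
    · have hp' : Even (q + 1) := by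
        rw [Nat.even_add_one]
        exact hp
      have f1 := (e1 (lev t (E q))).2 hp
      have f2 := (e1 (lev t (E (q + 1)))).2 hp
      have f3 := (e2 (lev t (E (q + 1)))).1 hp'
      have f4 := (e2 (lev t (E (q + 1 + 1)))).1 hp'
      omega

/-- the walk before the run lies in the first piece -/
lemma left_all (hF : FoldG t r u E) (hp : 1 ≤ p) (hpr : p ≤ r)
    (hdec : ∀ q, q + 1 < p → RG t u E (q + 1) ≤ RG t u E q)
    (hend : ∀ i, i < E 0 → Tight.sg u (lev t i) - Tight.sg u (lev t (E 0)) ≤ RG t u E 0) {i : ℕ} (hi : i ≤ E p) :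
    Tight.sg u (lev t (E 0)) ≤ Tight.sg u (lev t i) ∧ Tight.sg u (lev t i) ≤ Tight.sg u (lev t (E 1)) := by
  rcases Nat.lt_or_ge i (E 0) with h0 | h0
  · have h1 := hF.beg i h0
    have h2 := hend i h0
    unfold RG at h2
    rw [add_zero, zero_add] at h2
    omega
  · obtain ⟨q, -, q2, q3, q4⟩ := find_piece (E := E) (a := 0) (b := p) (by omega) h0 hi
    obtain ⟨⟨a1, a2⟩, a3, a4⟩ := left_in hF hpr hdec q q2
    obtain ⟨b1, b2⟩ := piece_btw hF (show q < r by omega) q3 q4
    have e1 := fun x => sg_cases u 0 q x (Nat.zero_le q)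
    simp only [Nat.sub_zero, add_zero] at e1
    by_cases hq : Even q
    · have f1 := (e1 (lev t (E q))).1 hq
      have f2 := (e1 (lev t (E (q + 1)))).1 hq
      have f3 := (e1 (lev t i)).1 hq
      omega
    · have f1 := (e1 (lev t (E q))).2 hq
      have f2 := (e1 (lev t (E (q + 1)))).2 hq
      have f3 := (e1 (lev t i)).2 hq
      omega

/-- the right pieces lie in the last one -/
lemma right_in {a : ℕ} (hF : FoldG t r u E) (hinc : ∀ q, a ≤ q → q + 1 < r → RG t u E q ≤ RG t u E (q + 1)) :
    ∀ s, a + s < r → (Tight.sg (u + (r - 1)) (lev t (E (r - 1))) ≤ Tight.sg (u + (r - 1)) (lev t (E (r - 1 - s))) ∧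
      Tight.sg (u + (r - 1)) (lev t (E (r - 1 - s))) ≤ Tight.sg (u + (r - 1)) (lev t (E r))) ∧
      (Tight.sg (u + (r - 1)) (lev t (E (r - 1))) ≤ Tight.sg (u + (r - 1)) (lev t (E (r - 1 - s + 1))) ∧
      Tight.sg (u + (r - 1)) (lev t (E (r - 1 - s + 1))) ≤ Tight.sg (u + (r - 1)) (lev t (E r))) := by
  intro s
  induction s with
  | zero =>
    intro hs
    have h1 := hF.gap (r - 1) (by omega)
    rw [show r - 1 + 1 = r by omega] at h1
    rw [Nat.sub_zero, show r - 1 + 1 = r by omega]
    exact ⟨⟨le_rfl, by omega⟩, by omega, le_rfl⟩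
  | succ s ih =>
    intro hs
    obtain ⟨⟨a1, a2⟩, -⟩ := ih (by omega)
    obtain ⟨q, hq⟩ : ∃ q, q = r - 1 - (s + 1) := ⟨_, rfl⟩
    have hq1 : r - 1 - s = q + 1 := by omega
    rw [hq1] at a1 a2
    rw [← hq]
    refine ⟨?_, a1, a2⟩
    have h1 := hinc q (by omega) (by omega)
    have h2 := hF.gap (q + 1) (by omega)
    have h3 := hF.gap q (by omega)
    -- the piece number q + 1 lies in the last piece
    obtain ⟨-, c1, c2⟩ := ih (by omega)
    rw [hq1] at c1 c2
    unfold RG at h1
    have e1 := fun x => sg_cases u q (r - 1) x (by omega)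
    have e2 := fun x => sg_cases u (q + 1) (r - 1) x (by omega)
    by_cases hp : Even (r - 1 - q)
    · have hp' : ¬ Even (r - 1 - (q + 1)) := by
        intro h
        have : Even (r - 1 - (q + 1) + 1) := by
          rwa [show r - 1 - (q + 1) + 1 = r - 1 - q by omega]
        rw [Nat.even_add_one] at this
        exact this h
      have f1 := (e1 (lev t (E q))).1 hp
      have f2 := (e1 (lev t (E (q + 1)))).1 hp
      have f3 := (e2 (lev t (E (q + 1)))).2 hp'
      have f4 := (e2 (lev t (E (q + 1 + 1)))).2 hp'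
      omega
    · have hp' : Even (r - 1 - (q + 1)) := by
        have : ¬ Even (r - 1 - (q + 1) + 1) := by
          rwa [show r - 1 - (q + 1) + 1 = r - 1 - q by omega]
        rw [Nat.even_add_one, not_not] at this
        exact this
      have f1 := (e1 (lev t (E q))).2 hp
      have f2 := (e1 (lev t (E (q + 1)))).2 hp
      have f3 := (e2 (lev t (E (q + 1)))).1 hp'
      have f4 := (e2 (lev t (E (q + 1 + 1)))).1 hp'
      omega

/-- the walk behind the run lies in the last piece -/
lemma right_all {a : ℕ} (hF : FoldG t r u E) (ha : a < r)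
    (hinc : ∀ q, a ≤ q → q + 1 < r → RG t u E q ≤ RG t u E (q + 1))
    (hend : ∀ i, E r < i → i ≤ t.length → Tight.sg (u + (r - 1)) (lev t (E r)) - Tight.sg (u + (r - 1)) (lev t i) ≤
      RG t u E (r - 1)) {i : ℕ} (hi : E a ≤ i) (hit : i ≤ t.length) :
    Tight.sg (u + (r - 1)) (lev t (E (r - 1))) ≤ Tight.sg (u + (r - 1)) (lev t i) ∧
      Tight.sg (u + (r - 1)) (lev t i) ≤ Tight.sg (u + (r - 1)) (lev t (E r)) := by
  rcases Nat.lt_or_ge (E r) i with h0 | h0
  · have h1 := hF.fin i h0 hit
    have h2 := hend i h0 hit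
    unfold RG at h2
    rw [show r - 1 + 1 = r by omega] at h2
    omega
  · obtain ⟨q, q1, q2, q3, q4⟩ := find_piece (E := E) ha hi h0
    obtain ⟨⟨a1, a2⟩, a3, a4⟩ := right_in hF hinc (r - 1 - q) (by omega)
    rw [show r - 1 - (r - 1 - q) = q by omega] at a1 a2 a3 a4
    obtain ⟨b1, b2⟩ := piece_btw hF q2 q3 q4
    have e1 := fun x => sg_cases u q (r - 1) x (by omega)
    by_cases hq : Even (r - 1 - q)
    · have f1 := (e1 (lev t (E q))).1 hq
      have f2 := (e1 (lev t (E (q + 1)))).1 hq
      have f3 := (e1 (lev t i)).1 hq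
      omega
    · have f1 := (e1 (lev t (E q))).2 hq
      have f2 := (e1 (lev t (E (q + 1)))).2 hq
      have f3 := (e1 (lev t i)).2 hq
      omega

/-- the pieces of the run -/
lemma mid_all (hF : FoldG t r u E) {X : ℤ} (hX0 : 0 ≤ X) (s : ℕ) (hs : p + s ≤ r)
    (hX : ∀ q, p ≤ q → q < p + s → RG t u E q ≤ X) :
    ∀ i j, E p ≤ i → i ≤ E (p + s) → E p ≤ j → j ≤ E (p + s) → lev t i - lev t j ≤ s * X := by
  induction s with
  | zero =>
    intro i j h1 h2 h3 h4
    rw [add_zero] at h2 h4
    have : i = j := by omega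
    rw [this]
    push_cast
    omega
  | succ s ih =>
    have ih' := ih (by omega) (fun q h1 h2 => hX q h1 (by omega))
    have hmono : E p ≤ E (p + s) := GeoA.FoldG_mono hF (by omega) (by omega)
    have hpc : ∀ i j, E (p + s) ≤ i → i ≤ E (p + (s + 1)) → E (p + s) ≤ j → j ≤ E (p + (s + 1)) →
        lev t i - lev t j ≤ X := by
      intro i j h1 h2 h3 h4
      obtain ⟨b1, b2⟩ := piece_btw hF (show p + s < r by omega) h1 h2
      obtain ⟨b3, b4⟩ := piece_btw hF (show p + s < r by omega) h3 h4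
      have b5 := hX (p + s) (by omega) (by omega)
      unfold RG at b5
      unfold Tight.sg at b1 b2 b3 b4 b5
      split_ifs at b1 b2 b3 b4 b5 <;> omega
    intro i j h1 h2 h3 h4
    have hX1 : ((s + 1 : ℕ) : ℤ) * X = s * X + X := by
      push_cast
      ring
    rw [hX1]
    have hsX : 0 ≤ (s : ℤ) * X := mul_nonneg (by omega) hX0
    have hmono2 : E (p + s) ≤ E (p + (s + 1)) := GeoA.FoldG_mono hF (by omega) (by omega)
    rcases Nat.lt_or_ge (E (p + s)) i with h5 | h5
    · rcases Nat.lt_or_ge (E (p + s)) j with h6 | h6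
      · have := hpc i j h5.le h2 h6.le h4
        omega
      · have c1 := hpc i (E (p + s)) h5.le h2 le_rfl hmono2
        have c2 := ih' (E (p + s)) j hmono le_rfl h3 h6
        omega
    · rcases Nat.lt_or_ge (E (p + s)) j with h6 | h6
      · have c1 := hpc (E (p + s)) j le_rfl hmono2 h6.le h4
        have c2 := ih' i (E (p + s)) h1 h5 hmono le_rfl
        omega
      · have := ih' i j h1 h5 h3 h6
        omega

/-- **the range of the walk is at most the sum of the ranges of the first piece, the last piece and the run** -/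
theorem range_le (hF : FoldG t r u E) (hp : 1 ≤ p) (hpr : p + d + 1 < r)
    (hdec : ∀ q, q + 1 < p → RG t u E (q + 1) ≤ RG t u E q)
    (hinc : ∀ q, p + d < q → q + 1 < r → RG t u E q ≤ RG t u E (q + 1))
    (hend0 : ∀ i, i < E 0 → Tight.sg u (lev t i) - Tight.sg u (lev t (E 0)) ≤ RG t u E 0)
    (hend1 : ∀ i, E r < i → i ≤ t.length → Tight.sg (u + (r - 1)) (lev t (E r)) - Tight.sg (u + (r - 1)) (lev t i) ≤
      RG t u E (r - 1)) {X : ℤ} (hX0 : 0 ≤ X) (h0 : RG t u E 0 ≤ X) (h1 : RG t u E (r - 1) ≤ X)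
    (hX : ∀ q, p ≤ q → q < p + (d + 1) → RG t u E q ≤ X) {i j : ℕ} (hi : i ≤ t.length) (hj : j ≤ t.length) :
    lev t i - lev t j ≤ ((d + 1 : ℕ) : ℤ) * X + 2 * X := by
  have hE01 : E p ≤ E (p + (d + 1)) := GeoA.FoldG_mono hF (by omega) (by omega)
  have hEt : E (p + (d + 1)) ≤ t.length := (GeoA.FoldG_mono hF (show p + (d + 1) ≤ r by omega) le_rfl).trans hF.le
  have L : ∀ i j, i ≤ E p → j ≤ E p → lev t i - lev t j ≤ X := by
    intro i j h2 h3
    have a1 := left_all hF hp (by omega) hdec hend0 h2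
    have a2 := left_all hF hp (by omega) hdec hend0 h3
    unfold RG at h0
    rw [add_zero, zero_add] at h0
    unfold Tight.sg at a1 a2 h0
    split_ifs at a1 a2 h0 <;> omega
  have Rr : ∀ i j, E (p + (d + 1)) ≤ i → i ≤ t.length → E (p + (d + 1)) ≤ j → j ≤ t.length → lev t i - lev t j ≤ X := by
    intro i j h2 h3 h4 h5
    have a1 := right_all (a := p + (d + 1)) hF (by omega) (fun q h6 h7 => hinc q (by omega) h7) hend1 h2 h3
    have a2 := right_all (a := p + (d + 1)) hF (by omega) (fun q h6 h7 => hinc q (by omega) h7) hend1 h4 h5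
    unfold RG at h1
    rw [show r - 1 + 1 = r by omega] at h1
    unfold Tight.sg at a1 a2 h1
    split_ifs at a1 a2 h1 <;> omega
  have M := mid_all hF hX0 (d + 1) (by omega) hX
  have hdX : 0 ≤ ((d + 1 : ℕ) : ℤ) * X := mul_nonneg (by omega) hX0
  rcases Nat.lt_or_ge (E p) i with a | a
  · rcases Nat.lt_or_ge (E (p + (d + 1))) i with b | b
    · -- i behind the run
      rcases Nat.lt_or_ge (E p) j with c | c
      · rcases Nat.lt_or_ge (E (p + (d + 1))) j with e | e
        · have := Rr i j b.le hi e.le hj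
          omega
        · have c1 := Rr i (E (p + (d + 1))) b.le hi le_rfl hEt
          have c2 := M (E (p + (d + 1))) j hE01 le_rfl c.le e
          omega
      · have c1 := Rr i (E (p + (d + 1))) b.le hi le_rfl hEt
        have c2 := M (E (p + (d + 1))) (E p) hE01 le_rfl le_rfl hE01
        have c3 := L (E p) j le_rfl c
        omega
    · -- i in the run
      rcases Nat.lt_or_ge (E p) j with c | c
      · rcases Nat.lt_or_ge (E (p + (d + 1))) j with e | e
        · have c1 := Rr (E (p + (d + 1))) j le_rfl hEt e.le hj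
          have c2 := M i (E (p + (d + 1))) a.le b hE01 le_rfl
          omega
        · have := M i j a.le b c.le e
          omega
      · have c2 := M i (E p) a.le b le_rfl hE01
        have c3 := L (E p) j le_rfl c
        omega
  · rcases Nat.lt_or_ge (E p) j with c | c
    · rcases Nat.lt_or_ge (E (p + (d + 1))) j with e | e
      · have c1 := L i (E p) a le_rfl
        have c2 := M (E p) (E (p + (d + 1))) le_rfl hE01 hE01 le_rfl
        have c3 := Rr (E (p + (d + 1))) j le_rfl hEt e.le hj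
        omega
      · have c1 := L i (E p) a le_rfl
        have c2 := M (E p) j le_rfl hE01 c.le e
        omega
    · have := L i j a c
      omega

end OG

end EN

end HexObs
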