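import Pool.Agent.EN.ExSum

/-!
EN (every n): the sum over the monotone chains with a marked run, the number of letters fixed, general ends.
-/

set_option autoImplicit false

namespace HexObs

namespace EN

namespace OU

open Finset TS SDN SDN.CN NTm NTW NTA EX

open scoped ENNReal

/-- a run in R beginning with g, a right part with the property P -/
def MidP (R : Set (List (List Bool))) (P : List (List Bool) → List Bool → (ℕ → ℝ≥0∞) → Prop)
    (g : List Bool) (gs : List (List Bool)) (e : ℕ → ℝ≥0∞) : Prop :=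
  ∃ ms rs, gs = ms ++ rs ∧ (g :: ms) ∈ R ∧ P rs ((g :: ms).getLastD []) e

/-- windows number < i in decreasing order, a run in R, a right part with the property P -/
def DecP (W : ℕ → Set (List Bool)) (R : Set (List (List Bool)))
    (P : List (List Bool) → List Bool → (ℕ → ℝ≥0∞) → Prop) : List (List Bool) → ℕ → (ℕ → ℝ≥0∞) → Prop
  | [], _, _ => False
  | g :: gs, i, e => MidP R P g gs e ∨ ∃ i', i' < i ∧ g ∈ W i' ∧ DecP W R P gs (i' + 1) e

/-- the whole chain, the run is at its beginning -/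
def TotA (R : Set (List (List Bool))) (P : List (List Bool) → List Bool → (ℕ → ℝ≥0∞) → Prop)
    (Ψ : ℕ → List Bool → ℝ≥0∞) : List (List Bool) → (ℕ → ℝ≥0∞) → (ℕ → ℝ≥0∞) → Prop
  | [], _, _ => False
  | g :: gs, a, e => (∀ c, a c ≤ Ψ c (rev g)) ∧ MidP R P g gs e

/-- the whole chain, the run is not at its beginning -/
def TotB (W : ℕ → Set (List Bool)) (n : ℕ) (R : Set (List (List Bool)))
    (P : List (List Bool) → List Bool → (ℕ → ℝ≥0∞) → Prop) (A : Set (List Bool)) (Ψ : ℕ → ℕ → List Bool → ℝ≥0∞) :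
    List (List Bool) → (ℕ → ℝ≥0∞) → (ℕ → ℝ≥0∞) → Prop
  | [], _, _ => False
  | g :: gs, a, e => ∃ i, i < n ∧ g ∈ W i ∧ g ∈ A ∧ (∀ c, a c ≤ Ψ i c (rev g)) ∧ DecP W R P gs (i + 1) e

/-- F bounds the right parts with the property P behind a leaf of height at least D -/
def RB (D : ℕ) (P : List (List Bool) → List Bool → (ℕ → ℝ≥0∞) → Prop) (F : ℕ → List Bool → ℝ≥0∞) : Prop :=
  open Classical in ∀ (g : List Bool) (e : List (List Bool) → ℕ → ℝ≥0∞) (N : ℕ), g ∈ HB D →
    (∑' gs : List (List Bool), if (g :: gs).IsChain LFold ∧ P gs g (e gs) then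
      SDN.wl gs * shf (e gs) (ll gs) N else 0) ≤ F N g

variable {kc J n : ℕ} {W : ℕ → Set (List Bool)} {kp : ℕ → ℕ} {R : Set (List (List Bool))}
  {P : List (List Bool) → List Bool → (ℕ → ℝ≥0∞) → Prop} {F : ℕ → List Bool → ℝ≥0∞}

open Classical in
/-- the runs and right parts behind g -/
lemma mid_leP (hP : RB (2 ^ (kc + 4)) P F) (hR : ∀ gs ∈ R, ∀ g ∈ gs, g ∈ HB (2 ^ (kc + 4))) (g : List Bool)
    (e : List (List Bool) → ℕ → ℝ≥0∞) (N : ℕ) :
    (∑' gs : List (List Bool), if (g :: gs).IsChain LFold ∧ MidP R P g gs (e gs) then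
      SDN.wl gs * shf (e gs) (ll gs) N else 0) ≤ runG R F N g := by
  refine (RF.tsum_app (H := fun ms rs => if ((g :: ms) ∈ R ∧ (g :: ms).IsChain LFold) ∧
    (((g :: ms).getLastD [] :: rs).IsChain LFold ∧ P rs ((g :: ms).getLastD []) (e (ms ++ rs))) then
    SDN.wl ms * (SDN.wl rs * shf (e (ms ++ rs)) (ll ms + ll rs) N) else 0) ?_).trans ?_
  · intro gs
    by_cases h : (g :: gs).IsChain LFold ∧ MidP R P g gs (e gs)
    · right
      obtain ⟨h1, ms, rs, rfl, h2, h4⟩ := h
      obtain ⟨c1, c2⟩ := RF.chain_split h1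
      refine ⟨ms, rs, rfl, ?_⟩
      rw [if_pos ⟨h1, ms, rs, rfl, h2, h4⟩, if_pos ⟨⟨h2, c1⟩, c2, h4⟩, RF.wl_append, ll_append, mul_assoc]
    · left
      rw [if_neg h]
  · rw [runG_eq]
    refine ENNReal.tsum_le_tsum fun ms => ?_
    by_cases h : (g :: ms) ∈ R ∧ (g :: ms).IsChain LFold
    · rw [if_pos h]
      have hlast : (g :: ms).getLastD [] ∈ HB (2 ^ (kc + 4)) := by
        refine hR _ h.1 _ ?_
        rw [List.getLastD_eq_getLast?, List.getLast?_eq_getLast_of_ne_nil (List.cons_ne_nil _ _), Option.getD_some]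
        exact List.getLast_mem _
      have h1 := sum_shf (fun N' => hP ((g :: ms).getLastD []) (fun rs => e (ms ++ rs)) N' hlast) (ll ms) N
      refine le_trans (le_of_eq ?_) (mul_le_mul_right h1 _)
      rw [← ENNReal.tsum_mul_left]
      refine tsum_congr fun rs => ?_
      by_cases h2 : ((g :: ms).getLastD [] :: rs).IsChain LFold ∧ P rs ((g :: ms).getLastD []) (e (ms ++ rs))
      · rw [if_pos ⟨h, h2⟩, if_pos h2]
      · rw [if_neg fun h3 => h2 h3.2, if_neg h2, mul_zero]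
    · rw [if_neg h]
      apply le_of_eq
      rw [ENNReal.tsum_eq_zero]
      intro rs
      rw [if_neg fun h3 => h h3.1]

lemma mid_HBP (hR : ∀ gs ∈ R, ∀ g ∈ gs, g ∈ HB (2 ^ (kc + 4))) {g : List Bool} {gs : List (List Bool)}
    {e : ℕ → ℝ≥0∞} (h : MidP R P g gs e) : g ∈ HB (2 ^ (kc + 4)) := by
  obtain ⟨ms, rs, -, h2, -⟩ := h
  exact hR _ h2 g List.mem_cons_self

open Classical in
/-- left chains, a run in R and right parts behind the leaf g -/
lemma TL_leP (hW : Wnd kc J n W kp) (hP : RB (2 ^ (kc + 4)) P F) (hR : ∀ gs ∈ R, ∀ g ∈ gs, g ∈ HB (2 ^ (kc + 4)))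
    (M' : ℕ) :
    ∀ (i : ℕ) (g : List Bool) (e : List (List Bool) → ℕ → ℝ≥0∞) (N : ℕ), i < n → g ∈ HB (2 ^ (kp i + 4)) →
    (∑' gs : List (List Bool), if gs.length ≤ M' + 1 ∧ (g :: gs).IsChain LFold ∧ DecP W R P gs (i + 1) (e gs) then
      SDN.wl gs * shf (e gs) (ll gs) N else 0) ≤ FL W kp (Gm kc R F) M' i g := by
  have hmono : ∀ (i i' : ℕ) (g : List Bool), i' ≤ i → g ∈ HB (2 ^ (kp i + 4)) → g ∈ HB (2 ^ (kp i' + 4)) := by
    rintro i i' g hi ⟨h, a1, a2⟩
    exact ⟨h, (Nat.pow_le_pow_right (by norm_num) (Nat.add_le_add_right (hW.mono i' i hi) 4)).trans a1, a2⟩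
  have hmid : ∀ (g' : List Bool) (e : List (List Bool) → ℕ → ℝ≥0∞) (N : ℕ),
      (∑' gs : List (List Bool), if (g' :: gs).IsChain LFold ∧ MidP R P g' gs (e (g' :: gs)) then
        SDN.wl gs * shf (e (g' :: gs)) (ll (g' :: gs)) N else 0) ≤ sh (runG R F) N g' := by
    intro g' e N
    simp only [ll_cons]
    exact sum_shf (fun N' => mid_leP hP hR g' (fun gs => e (g' :: gs)) N') (g'.length + 1) N
  induction M' with
  | zero =>
    intro i g e N hi hg
    have hg0 : g ∈ HB (2 ^ (kc + 4)) := by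
      have := hmono i 0 g (Nat.zero_le i) hg
      rwa [hW.zero] at this
    refine (CCh.tsum_list _ ?_).trans ?_
    · rw [if_neg]
      rintro ⟨-, -, h⟩
      exact h
    · refine (QF.sum_consW (range 1) (fun _ => {g' | g' ∈ HB (2 ^ (kc + 4)) ∧ RT (2 ^ (kc + 4)) LFold g g'})
        (fun _ => sh (runG R F) N) (fun gs => shf (e gs) (ll gs) N)
        (fun gs => gs.length ≤ 0 + 1 ∧ (g :: gs).IsChain LFold ∧ DecP W R P gs (i + 1) (e gs))
        (fun _ g' gs => (g' :: gs).IsChain LFold ∧ MidP R P g' gs (e (g' :: gs))) ?_ ?_).trans ?_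
      · rintro g' gs ⟨h1, h2, h3⟩
        rw [List.isChain_cons_cons] at h2
        rw [List.length_cons] at h1
        have h0 : gs = [] := List.length_eq_zero_iff.1 (by omega)
        rcases h3 with h4 | ⟨i', h4, h5, h6⟩
        · exact ⟨0, Finset.mem_range.2 (by omega), ⟨mid_HBP hR h4, RT_of hg0 h2.1⟩, h2.2, h4⟩
        · rw [h0] at h6
          exact h6.elim
      · rintro _ _ g' -
        exact hmid g' e N
      · rw [Finset.sum_range_one]
        exact GF.sw_le_Gm R _ N g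
  | succ M' ih =>
    intro i g e N hi hg
    have hg0 : g ∈ HB (2 ^ (kc + 4)) := by
      have := hmono i 0 g (Nat.zero_le i) hg
      rwa [hW.zero] at this
    refine (CCh.tsum_list _ ?_).trans ?_
    · rw [if_neg]
      rintro ⟨-, -, h⟩
      exact h
    · refine (QF.sum_consW (range (i + 1 + 1)) (fun j => if j = 0 then
          {g' | g' ∈ HB (2 ^ (kc + 4)) ∧ RT (2 ^ (kc + 4)) LFold g g'} else
          {g' | g' ∈ W (j - 1) ∧ RT (2 ^ (kp (j - 1) + 4)) LFold g g'})
        (fun j => if j = 0 then sh (runG R F) N else FL W kp (Gm kc R F) M' (j - 1)) (fun gs => shf (e gs) (ll gs) N)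
        (fun gs => gs.length ≤ M' + 1 + 1 ∧ (g :: gs).IsChain LFold ∧ DecP W R P gs (i + 1) (e gs))
        (fun j g' gs => if j = 0 then (g' :: gs).IsChain LFold ∧ MidP R P g' gs (e (g' :: gs)) else
          gs.length ≤ M' + 1 ∧ (g' :: gs).IsChain LFold ∧ DecP W R P gs (j - 1 + 1) (e (g' :: gs))) ?_ ?_).trans ?_
      · rintro g' gs ⟨h1, h2, h3⟩
        rw [List.isChain_cons_cons] at h2
        rw [List.length_cons] at h1
        rcases h3 with h4 | ⟨i', h4, h5, h6⟩
        · refine ⟨0, Finset.mem_range.2 (by omega), ?_, ?_⟩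
          · rw [if_pos rfl]
            exact ⟨mid_HBP hR h4, RT_of hg0 h2.1⟩
          · rw [if_pos rfl]
            exact ⟨h2.2, h4⟩
        · refine ⟨i' + 1, Finset.mem_range.2 (by omega), ?_, ?_⟩
          · rw [if_neg (by omega), Nat.add_sub_cancel]
            exact ⟨h5, RT_of (hmono i i' g (by omega) hg) h2.1⟩
          · rw [if_neg (by omega), Nat.add_sub_cancel]
            exact ⟨by omega, h2.2, h6⟩
      · rintro j hj g' h5
        rcases Nat.eq_zero_or_pos j with h0 | h0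
        · rw [if_pos h0] at h5 ⊢
          simp only [if_pos h0]
          exact hmid g' e N
        · rw [if_neg (by omega)] at h5 ⊢
          simp only [if_neg (show j ≠ 0 by omega), ll_cons]
          have hjn : j - 1 < n := by
            have := Finset.mem_range.1 hj
            omega
          obtain ⟨h, a1, a2, a3⟩ := hW.sub (j - 1) hjn h5.1
          exact sum_shf_le (fun N' => ih (j - 1) g' (fun gs => e (g' :: gs)) N' hjn ⟨h, a1, a3⟩) (g'.length + 1) N
      · rw [Finset.sum_range_succ', if_pos rfl, if_pos rfl, add_comm]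
        refine add_le_add (GF.sw_le_Gm R _ N g) (le_of_eq (Finset.sum_congr rfl fun j _ => ?_))
        rw [if_neg (Nat.succ_ne_zero j), if_neg (Nat.succ_ne_zero j), Nat.add_sub_cancel]
        rfl

open Classical in
/-- **the sum over the chains that begin with the run** -/
theorem massA (hP : RB (2 ^ (kc + 4)) P F) (hR : ∀ gs ∈ R, ∀ g ∈ gs, g ∈ HB (2 ^ (kc + 4))) (Ψ : ℕ → List Bool → ℝ≥0∞)
    (M : ℕ) (w0 w1 : List (List Bool) → ℕ → ℝ≥0∞) (h0 : ∀ g gs, w0 (g :: gs) = w0 [g]) (N : ℕ) :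
    (∑' gs : List (List Bool), if gs.length ≤ M ∧ gs.IsChain LFold ∧ TotA R P Ψ gs (w0 gs) (w1 gs) then
      SDN.wl gs * (∑ c ∈ range (N + 1), w0 gs c * shf (w1 gs) (ll gs) (N - c)) else 0) ≤
      Rec8.sw (HB (2 ^ (kc + 4))) (fun g => ∑ c ∈ range (N + 1), Ψ c (rev g) * sh (runG R F) (N - c) g) := by
  refine (CCh.tsum_list _ ?_).trans ?_
  · rw [if_neg]
    rintro ⟨-, -, h⟩
    exact h
  · refine (QF.sum_consW (range 1) (fun _ => HB (2 ^ (kc + 4)))
      (fun _ => fun g => ∑ c ∈ range (N + 1), Ψ c (rev g) * sh (runG R F) (N - c) g)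
      (fun gs => ∑ c ∈ range (N + 1), w0 gs c * shf (w1 gs) (ll gs) (N - c))
      (fun gs => gs.length ≤ M ∧ gs.IsChain LFold ∧ TotA R P Ψ gs (w0 gs) (w1 gs))
      (fun _ g' gs => (∀ c, w0 [g'] c ≤ Ψ c (rev g')) ∧ (g' :: gs).IsChain LFold ∧
          MidP R P g' gs (w1 (g' :: gs))) ?_ ?_).trans ?_
    · rintro g' gs ⟨-, h2, h7, h4⟩
      rw [h0] at h7
      exact ⟨0, Finset.mem_range.2 (by omega), mid_HBP hR h4, h7, h2, h4⟩
    · rintro _ - g' -
      by_cases hw : ∀ c, w0 [g'] c ≤ Ψ c (rev g')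
      · have h1 : ∀ gs : List (List Bool), (if (∀ c, w0 [g'] c ≤ Ψ c (rev g')) ∧ (g' :: gs).IsChain LFold ∧
            MidP R P g' gs (w1 (g' :: gs)) then SDN.wl gs *
            (∑ c ∈ range (N + 1), w0 (g' :: gs) c * shf (w1 (g' :: gs)) (ll (g' :: gs)) (N - c)) else 0) =
            ∑ c ∈ range (N + 1), w0 [g'] c * (if (g' :: gs).IsChain LFold ∧
              MidP R P g' gs (w1 (g' :: gs)) then SDN.wl gs *
              shf (w1 (g' :: gs)) (g'.length + 1 + ll gs) (N - c) else 0) := by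
          intro gs
          by_cases hc : (g' :: gs).IsChain LFold ∧ MidP R P g' gs (w1 (g' :: gs))
          · rw [if_pos ⟨hw, hc⟩, h0, Finset.mul_sum]
            refine Finset.sum_congr rfl fun c _ => ?_
            rw [if_pos hc, ll_cons]
            ring
          · rw [if_neg fun h => hc h.2]
            symm
            apply Finset.sum_eq_zero
            intro c _
            rw [if_neg hc, mul_zero]
        simp only [h1]
        rw [Summable.tsum_finsetSum (fun _ _ => ENNReal.summable)]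
        refine Finset.sum_le_sum fun c _ => ?_
        rw [ENNReal.tsum_mul_left]
        exact mul_le_mul' (hw c) (sum_shf (fun N' => mid_leP hP hR g' (fun gs => w1 (g' :: gs)) N')
          (g'.length + 1) (N - c))
      · refine le_trans (le_of_eq ?_) zero_le
        rw [ENNReal.tsum_eq_zero]
        intro gs
        rw [if_neg fun h => hw h.1]
    · rw [Finset.sum_range_one]

open Classical in
/-- **the sum over the chains that do not begin with the run** -/
theorem massB (hW : Wnd kc J n W kp) (hP : RB (2 ^ (kc + 4)) P F) (hR : ∀ gs ∈ R, ∀ g ∈ gs, g ∈ HB (2 ^ (kc + 4)))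
    (A : Set (List Bool)) (Ψ : ℕ → ℕ → List Bool → ℝ≥0∞) (M : ℕ) (w0 w1 : List (List Bool) → ℕ → ℝ≥0∞)
    (h0 : ∀ g gs, w0 (g :: gs) = w0 [g]) (N : ℕ) :
    (∑' gs : List (List Bool), if gs.length ≤ M ∧ gs.IsChain LFold ∧ TotB W n R P A Ψ gs (w0 gs) (w1 gs) then
      SDN.wl gs * (∑ c ∈ range (N + 1), w0 gs c * shf (w1 gs) (ll gs) (N - c)) else 0) ≤
      ∑ i ∈ range n, Rec8.sw (W i ∩ A) (fun g => tot (Ψ i) (rev g) * FL W kp (Gm kc R F) M i g) := by
  refine (CCh.tsum_list _ ?_).trans ?_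
  · rw [if_neg]
    rintro ⟨-, -, h⟩
    exact h
  · refine QF.sum_consW (range n) (fun j => W j ∩ A)
      (fun j => fun g => tot (Ψ j) (rev g) * FL W kp (Gm kc R F) M j g)
      (fun gs => ∑ c ∈ range (N + 1), w0 gs c * shf (w1 gs) (ll gs) (N - c))
      (fun gs => gs.length ≤ M ∧ gs.IsChain LFold ∧ TotB W n R P A Ψ gs (w0 gs) (w1 gs))
      (fun j g' gs => (∀ c, w0 [g'] c ≤ Ψ j c (rev g')) ∧ gs.length ≤ M + 1 ∧ (g' :: gs).IsChain LFold ∧
          DecP W R P gs (j + 1) (w1 (g' :: gs))) ?_ ?_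
    · rintro g' gs ⟨h1, h2, i', h4, h5, h8, h7, h6⟩
      rw [List.length_cons] at h1
      rw [h0] at h7
      exact ⟨i', Finset.mem_range.2 h4, ⟨h5, h8⟩, h7, by omega, h2, h6⟩
    · rintro j hj g' ⟨h5, -⟩
      have hjn : j < n := Finset.mem_range.1 hj
      obtain ⟨h, a1, a2, a3⟩ := hW.sub j hjn h5
      by_cases hw : ∀ c, w0 [g'] c ≤ Ψ j c (rev g')
      · have h1 : ∀ gs : List (List Bool), (if (∀ c, w0 [g'] c ≤ Ψ j c (rev g')) ∧ gs.length ≤ M + 1 ∧
            (g' :: gs).IsChain LFold ∧ DecP W R P gs (j + 1) (w1 (g' :: gs)) then SDN.wl gs *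
            (∑ c ∈ range (N + 1), w0 (g' :: gs) c * shf (w1 (g' :: gs)) (ll (g' :: gs)) (N - c)) else 0) =
            ∑ c ∈ range (N + 1), w0 [g'] c * (if gs.length ≤ M + 1 ∧ (g' :: gs).IsChain LFold ∧
              DecP W R P gs (j + 1) (w1 (g' :: gs)) then SDN.wl gs *
              shf (w1 (g' :: gs)) (g'.length + 1 + ll gs) (N - c) else 0) := by
          intro gs
          by_cases hc : gs.length ≤ M + 1 ∧ (g' :: gs).IsChain LFold ∧ DecP W R P gs (j + 1) (w1 (g' :: gs))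
          · rw [if_pos ⟨hw, hc⟩, h0, Finset.mul_sum]
            refine Finset.sum_congr rfl fun c _ => ?_
            rw [if_pos hc, ll_cons]
            ring
          · rw [if_neg fun h => hc h.2]
            symm
            apply Finset.sum_eq_zero
            intro c _
            rw [if_neg hc, mul_zero]
        simp only [h1]
        rw [Summable.tsum_finsetSum (fun _ _ => ENNReal.summable)]
        have h2 : ∀ c ∈ range (N + 1), (∑' gs : List (List Bool), w0 [g'] c * (if gs.length ≤ M + 1 ∧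
            (g' :: gs).IsChain LFold ∧ DecP W R P gs (j + 1) (w1 (g' :: gs)) then SDN.wl gs *
            shf (w1 (g' :: gs)) (g'.length + 1 + ll gs) (N - c) else 0)) ≤
            Ψ j c (rev g') * FL W kp (Gm kc R F) M j g' := by
          intro c _
          rw [ENNReal.tsum_mul_left]
          exact mul_le_mul' (hw c) (sum_shf_le (fun N' => TL_leP hW hP hR M j g'
            (fun gs => w1 (g' :: gs)) N' hjn ⟨h, a1, a3⟩) (g'.length + 1) (N - c))
        refine (Finset.sum_le_sum h2).trans ?_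
        rw [← Finset.sum_mul]
        exact mul_le_mul_left (ENNReal.sum_le_tsum _) _
      · refine le_trans (le_of_eq ?_) zero_le
        rw [ENNReal.tsum_eq_zero]
        intro gs
        rw [if_neg fun h => hw h.1]

/-! ### right parts -/

/-- at most M pieces, any ends -/
def PI (W : ℕ → Set (List Bool)) (n M : ℕ) (Φ : ℕ → ℕ → List Bool → ℝ≥0∞) (rs : List (List Bool)) (g : List Bool)
    (e : ℕ → ℝ≥0∞) : Prop := rs.length ≤ M ∧ IncG W n Φ rs 0 g e

/-- at least one piece, the last one in A -/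
def PS (W : ℕ → Set (List Bool)) (n M : ℕ) (A : Set (List Bool)) (Φ : ℕ → ℕ → List Bool → ℝ≥0∞)
    (rs : List (List Bool)) (g : List Bool) (e : ℕ → ℝ≥0∞) : Prop :=
  rs ≠ [] ∧ rs.getLastD [] ∈ A ∧ rs.length ≤ M ∧ IncG W n Φ rs 0 g e

open Classical in
/-- the functional restricted to A -/
noncomputable def rsF (A : Set (List Bool)) (Φ : ℕ → ℕ → List Bool → ℝ≥0∞) (i c : ℕ) (g : List Bool) : ℝ≥0∞ :=
  if g ∈ A then Φ i c g else 0

lemma rb_PI (hW : Wnd kc J n W kp) (M : ℕ) (Φ : ℕ → ℕ → List Bool → ℝ≥0∞) :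
    RB (2 ^ (kc + 4)) (PI W n M Φ) (Fg W kp n Φ M 0) := by
  classical
  intro g e N hg
  refine le_trans (le_of_eq ?_) (GF.TR_leG (Φ := Φ) hW M 0 g e N (by rw [hW.zero]; exact hg))
  refine tsum_congr fun gs => ?_
  have h : ((g :: gs).IsChain LFold ∧ PI W n M Φ gs g (e gs)) ↔
      (gs.length ≤ M ∧ (g :: gs).IsChain LFold ∧ IncG W n Φ gs 0 g (e gs)) := by
    unfold PI
    tauto
  simp only [h]

/-- the last piece of a right part is in A -/
lemma inc_last {Φ : ℕ → ℕ → List Bool → ℝ≥0∞} {A : Set (List Bool)} {e : ℕ → ℝ≥0∞} :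
    ∀ (rs : List (List Bool)) (i : ℕ) (g : List Bool), rs ≠ [] → rs.getLastD [] ∈ A → IncG W n Φ rs i g e →
      IncG W n (rsF A Φ) rs i g e := by
  intro rs
  induction rs with
  | nil => intro i g h _ _; exact absurd rfl h
  | cons x rs ih =>
    rintro i g - h2 ⟨i', h3, h4, h5, h6⟩
    refine ⟨i', h3, h4, h5, ?_⟩
    rcases rs with _ | ⟨y, rs⟩
    · have h7 : x ∈ A := h2
      intro c
      refine (h6 c).trans (le_of_eq ?_)
      unfold rsF
      rw [if_pos h7]
    · exact ih i' x (List.cons_ne_nil _ _) h2 h6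

open Classical in
lemma TR_nil {Φ : ℕ → ℕ → List Bool → ℝ≥0∞} (hW : Wnd kc J n W kp) (M : ℕ) (i : ℕ) (g : List Bool)
    (e : List (List Bool) → ℕ → ℝ≥0∞) (N : ℕ) (hg : g ∈ HB (2 ^ (kp i + 4))) :
    (∑' gs : List (List Bool), if gs ≠ [] ∧ gs.length ≤ M ∧ (g :: gs).IsChain LFold ∧ IncG W n Φ gs i g (e gs) then
      SDN.wl gs * shf (e gs) (ll gs) N else 0) ≤ Rg W kp n Φ M i N g := by
  refine (CCh.tsum_list _ (by rw [if_neg]; exact fun h => h.1 rfl)).trans ?_
  cases M with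
  | zero =>
    refine le_of_eq ?_
    show _ = 0
    rw [ENNReal.tsum_eq_zero]
    intro g'
    rw [ENNReal.tsum_eq_zero]
    intro gs
    rw [if_neg]
    rintro ⟨-, h, -⟩
    rw [List.length_cons] at h
    omega
  | succ M =>
    refine QF.sum_consW (Ico i n) (fun i' => {g' | g' ∈ W i' ∧ RT (2 ^ (kp i + 4)) LFold g g'})
        (fun i' s => shf (fun c => Φ i' c s + Rg W kp n Φ M i' c s) (s.length + 1) N)
        (fun gs => shf (e gs) (ll gs) N)
        (fun gs => gs ≠ [] ∧ gs.length ≤ M + 1 ∧ (g :: gs).IsChain LFold ∧ IncG W n Φ gs i g (e gs))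
        (fun i' g' gs => gs.length ≤ M ∧ (g' :: gs).IsChain LFold ∧ IncG W n Φ gs i' g' (e (g' :: gs))) ?_ ?_
    · rintro g' gs ⟨-, h1, h2, i', h3, h4, h5, h6⟩
      rw [List.isChain_cons_cons] at h2
      rw [List.length_cons] at h1
      exact ⟨i', Finset.mem_Ico.2 ⟨h3, h4⟩, ⟨h5, RT_of hg h2.1⟩, by omega, h2.2, h6⟩
    · rintro i' hi' g' ⟨h5, -⟩
      obtain ⟨h, a1, a2, a3⟩ := hW.sub i' (Finset.mem_Ico.1 hi').2 h5
      simp only [ll_cons]
      exact sum_shf (fun N' => GF.TR_leG hW M i' g' (fun gs => e (g' :: gs)) N' ⟨h, a1, a3⟩) (g'.length + 1) N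

lemma rb_PS (hW : Wnd kc J n W kp) (M : ℕ) (A : Set (List Bool)) (Φ : ℕ → ℕ → List Bool → ℝ≥0∞) :
    RB (2 ^ (kc + 4)) (PS W n M A Φ) (Rg W kp n (rsF A Φ) M 0) := by
  classical
  intro g e N hg
  refine le_trans (ENNReal.tsum_le_tsum fun gs => ?_)
    (TR_nil (Φ := rsF A Φ) hW M 0 g e N (by rw [hW.zero]; exact hg))
  by_cases h : (g :: gs).IsChain LFold ∧ PS W n M A Φ gs g (e gs)
  · rw [if_pos h, if_pos ⟨h.2.1, h.2.2.2.1, h.1, inc_last gs 0 g h.2.1 h.2.2.1 h.2.2.2.2⟩]
  · rw [if_neg h]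
    exact zero_le

end OU

end EN

end HexObs
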