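import Pool.Agent.NTW.RepU
import Pool.Agent.NTW.Rep2

/-!
EN: the representation with two free ends, with the explicit word asmF.
-/

set_option autoImplicit false

namespace HexObs

namespace NTW

open Finset TS SDN

namespace Rp

/-- the representation with the explicit word -/
theorem rep_asm_of (hS : StartR) (hEQ : EndQ) (t : List Bool) (m u : ℕ) (e : ℕ → ℕ) (N0 N1 : ℕ) (ht : t ∈ SA) (hm : 1 ≤ m)
    (h : FoldG t m u e)
    (h0 : ∀ i, i < e 0 → Tight.sg u (lev t i) - Tight.sg u (lev t (e 0)) ≤ 3 * N0)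
    (h1 : ∀ i, e m < i → i ≤ t.length →
      Tight.sg (u + (m - 1)) (lev t (e m)) - Tight.sg (u + (m - 1)) (lev t i) ≤ 3 * N1) :
    ∃ (c : Fin 16) (o o' : Option (List Bool)) (gs : List (List Bool)), RepG t m u e gs ∧
      (∀ W ∈ o, W ∈ SSt N0 ∧ LFold (rev (gs.headD [])) W) ∧ (∀ W ∈ o', W ∈ SSt N1 ∧ LFold (gs.getLastD []) W) ∧
      t = asmF c o gs o' ∧ (o.getD []).length + (unf gs).length + (o'.getD []).length ≤ t.length + 10 ∧
      t.length ≤ (o.getD []).length + (unf gs).length + (o'.getD []).length + 10 ∧ DispR t m u o gs o' := by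
  have h01 : e (0 + 1) = e 1 := rfl
  have hlt := h.lt 0 hm
  have hle1 := e_le h (j := 0 + 1) (by omega)
  -- the common end of the two cases
  have key : ∀ (s : ℕ) (q : List Bool) (o : Option (List Bool)), Stt t u e 0 s q →
      (∀ W ∈ o, W ∈ SSt N0) →
      (∀ W ∈ o, ∀ (g : List Bool) (k : ℕ), g ∈ Brd k → 1 ≤ k → s + g.length ≤ t.length →
        (∀ i, i ≤ g.length → vx oo up g i = vx oo up q i) → LFold (rev g) W) →
      (o = none → t = q) → (∀ W ∈ o, t = rev W ++ (!q.headD true) :: (!q.headD true) :: q.tail) →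
      |Tight.sg u (lev t (e 0)) + lvW o| ≤ 6 →
      (o.getD []).length + q.length ≤ t.length + 3 → t.length ≤ (o.getD []).length + q.length + 3 →
      |lev q (e (0 + 1) - s) - (Tight.sg u (lev t (e (0 + 1))) - Tight.sg u (lev t (e 0)))| ≤ 2 →
      ∃ (c : Fin 16) (o o' : Option (List Bool)) (gs : List (List Bool)), RepG t m u e gs ∧
        (∀ W ∈ o, W ∈ SSt N0 ∧ LFold (rev (gs.headD [])) W) ∧ (∀ W ∈ o', W ∈ SSt N1 ∧ LFold (gs.getLastD []) W) ∧
        t = asmF c o gs o' ∧ (o.getD []).length + (unf gs).length + (o'.getD []).length ≤ t.length + 10 ∧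
        t.length ≤ (o.getD []).length + (unf gs).length + (o'.getD []).length + 10 ∧ DispR t m u o gs o' := by
    intro s q o S k1 k2 k3 k4 k5 k6 k7 k8
    obtain ⟨g, gs, o', x, y, b1, b2, b3, b4, b5, b6, b7, b8, b9, b10, b11, b12⟩ :=
      tail_rep hEQ ht h h1 (m - 1) 0 s q (by omega) S
    have hql := S.fr.1
    have r1 : (g :: gs).length = m := by
      clear b12
      rw [List.length_cons]
      omega
    have r2 : (o.getD []).length + (unf (g :: gs)).length + (o'.getD []).length ≤ t.length + 10 := by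
      clear b12
      omega
    have r3 : t.length ≤ (o.getD []).length + (unf (g :: gs)).length + (o'.getD []).length + 10 := by
      clear b12
      omega
    obtain ⟨c, hc1, hc2⟩ := code x y
    refine ⟨c, o, o', g :: gs, ⟨r1, b2, b3, ?_, ?_⟩, ?_, b6, ?_, r2, r3, ?_⟩
    · intro l hl
      have := b4 l hl
      rwa [Nat.zero_add] at this
    · intro l hl c1 c2
      have := b5 l hl (by omega) (by omega)
      rwa [Nat.zero_add] at this
    · intro W hW
      obtain ⟨k, a1, a2⟩ := b3 g (by simp)
      exact ⟨k1 W hW, k2 W hW g k a2 a1 b10 b11⟩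
    · cases o with
      | none =>
        show t = endF _ _ o' (unf (g :: gs))
        rw [hc1, hc2, ← b7]
        exact k3 rfl
      | some W =>
        show t = rev W ++ (!(endF _ _ o' (unf (g :: gs))).headD true) :: (!(endF _ _ o' (unf (g :: gs))).headD true) ::
          (endF _ _ o' (unf (g :: gs))).tail
        rw [hc1, hc2, ← b7]
        exact k4 W rfl
    · clear hc1 hc2
      intro hm1 w hw hh hB
      obtain ⟨M, d1, d2, d3⟩ := b12 (by omega)
      have hgs : gs = [] := List.length_eq_zero_iff.1 (by omega)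
      rw [hgs, List.mem_singleton] at hw
      rw [hw] at hB
      have hMh := Brd_height d1 hB
      subst hMh
      have hs3 := S.s3
      have e1 := S.fr.lev (i := q.length) (by omega) le_rfl
      have e2 := S.fr.lev (i := e (0 + 1) - s) (by omega) (by omega)
      rw [hql, add_zero] at e1
      rw [show s + (e (0 + 1) - s) = e (0 + 1) by omega, add_zero] at e2
      rw [abs_le] at k5 k8 d2 d3 ⊢
      constructor <;> omega
  rcases Nat.eq_zero_or_pos (e 0) with he | he
  · have S := stt_zero h hm he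
    have hF := S.fr.lev (i := e (0 + 1)) (by omega) (by omega)
    rw [Nat.zero_add, Nat.zero_add, add_zero, lev_one] at hF
    have hF1 := S.fr.lev (i := 1) le_rfl (by omega)
    refine key 0 t none S (by simp) (by simp) (fun _ => rfl) (by simp) ?_ (by simp) (by simp) ?_
    · rw [he, lev_zero]
      unfold Tight.sg lvW
      split_ifs <;> simp
    · rw [Nat.sub_zero, he, lev_zero, hF]
      have hlo1 := h.lo0 1 (by omega) (by omega)
      rw [he, lev_zero, lev_one] at hlo1
      have hodd : ¬ Even u := by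
        intro hev
        unfold Tight.sg at hlo1
        rw [if_pos hev, if_pos hev] at hlo1
        omega
      unfold Tight.sg
      rw [if_neg hodd, if_neg hodd, if_neg hodd]
      simp
  · obtain ⟨c0, W0, a1, a2, a3, a4, a5, a6⟩ := hS ht hm h h0 he
    have S := stt_pos h hm he a3
    have hF := S.fr.lev (i := e (0 + 1) - (e 0 - 1)) (by omega) (by have := a3.1; omega)
    rw [show e 0 - 1 + (e (0 + 1) - (e 0 - 1)) = e (0 + 1) by omega, show e 0 - 1 + 1 = e 0 by omega, add_zero] at hF
    refine key (e 0 - 1) (c0 :: t.drop (e 0)) (some W0) S ?_ ?_ (fun hh => by simp at hh) ?_ ?_ ?_ ?_ ?_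
    · intro W hW
      rw [Option.mem_some_iff] at hW
      rw [← hW]
      exact a4
    · intro W hW g k g1 g2 g3 g4
      rw [Option.mem_some_iff] at hW
      rw [← hW]
      exact a6 g k g1 g2 g3 g4
    · intro W hW
      rw [Option.mem_some_iff] at hW
      rw [← hW]
      exact a1
    · have hz : Tight.sg u (lev t 0) = 0 := by
        rw [lev_zero]
        unfold Tight.sg
        split_ifs <;> simp
      rw [hz] at a5
      show |Tight.sg u (lev t (e 0)) + lev W0 W0.length| ≤ 6
      rw [abs_le] at a5 ⊢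
      constructor <;> omega
    · have := a3.1
      show W0.length + _ ≤ _
      omega
    · have := a3.1
      show _ ≤ W0.length + _ + 3
      omega
    · rw [hF, abs_le]
      constructor <;> omega

/-- the representation of a self-avoiding word, explicit word -/
theorem rep_asm (t : List Bool) (m u : ℕ) (e : ℕ → ℕ) (N0 N1 : ℕ) (ht : t ∈ SA) (hm : 1 ≤ m)
    (h : FoldG t m u e)
    (h0 : ∀ i, i < e 0 → Tight.sg u (lev t i) - Tight.sg u (lev t (e 0)) ≤ 3 * N0)
    (h1 : ∀ i, e m < i → i ≤ t.length →
      Tight.sg (u + (m - 1)) (lev t (e m)) - Tight.sg (u + (m - 1)) (lev t i) ≤ 3 * N1) :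
    ∃ (c : Fin 16) (o o' : Option (List Bool)) (gs : List (List Bool)), RepG t m u e gs ∧
      (∀ W ∈ o, W ∈ SSt N0 ∧ LFold (rev (gs.headD [])) W) ∧ (∀ W ∈ o', W ∈ SSt N1 ∧ LFold (gs.getLastD []) W) ∧
      t = asmF c o gs o' ∧ (o.getD []).length + (unf gs).length + (o'.getD []).length ≤ t.length + 10 ∧
      t.length ≤ (o.getD []).length + (unf gs).length + (o'.getD []).length + 10 ∧ DispR t m u o gs o' :=
  rep_asm_of (fun ht hm h h0 he => Rp.start_rep ht hm h h0 he) 
    (fun hE hEq hinj h1 h3 hfin => Rp.end_q hE hEq hinj h1 h3 hfin) t m u e N0 N1 ht hm h h0 h1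

end Rp

end NTW

end HexObs
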