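import Pool.Agent.EN.FactsX
import Pool.Agent.EN.Sizes

/-!
EN (every number of letters): the spatial tail of the whole walk, in the form needed for the sizes, from the exact spatial
tail and the pointwise upper bound.
-/

set_option autoImplicit false

namespace NTSZ

/-- the tail of the sizes from the exact spatial tail and the pointwise upper bound -/
theorem tailJ_of {m : ℕ → ℝ} (hS : HexObs.EN.ESPw m) (hP : HexObs.EN.AllX m) : TailJ m :=
  HexObs.EN.tail_x hS hP 5

end NTSZ
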