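import Pool.Agent.EN.FactsZ
import Pool.Agent.EN.TailJ
import Pool.Agent.VF.SharpZ
import Pool.Agent.VF.MeanZ

/-!
EN (every number of letters): the sizes of the uniform n-step walk (end-to-end distance, radius of gyration, distance of a
monomer from the ends) are of the order n ^ (3 / 2) up to constants, for every n; no hypothesis.
-/

set_option autoImplicit false

namespace NTSZ

open Pool.Agent.MS

/-- **the three sizes are of the exact order n ^ (3 / 2), every n, no hypothesis** -/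
theorem sizes_M : ∃ c C : ℝ, 0 < c ∧ ∀ n : ℕ, 1 ≤ n →
    (c * (n : ℝ) ^ (3 / 2 : ℝ) ≤ ResSizes.mean n ResSizes.Re ∧
      ResSizes.mean n ResSizes.Re ≤ C * (n : ℝ) ^ (3 / 2 : ℝ)) ∧
    (c * (n : ℝ) ^ (3 / 2 : ℝ) ≤ ResSizes.mean n ResSizes.Rg ∧
      ResSizes.mean n ResSizes.Rg ≤ C * (n : ℝ) ^ (3 / 2 : ℝ)) ∧
    (c * (n : ℝ) ^ (3 / 2 : ℝ) ≤ ResSizes.mean n ResSizes.Rm ∧
      ResSizes.mean n ResSizes.Rm ≤ C * (n : ℝ) ^ (3 / 2 : ℝ)) := by
  obtain ⟨C, _, h⟩ := VF.mUp VF.sharpZ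
  exact sizes_ex (VF.mLow VF.sharpZ) ⟨C, h⟩ HexObs.EN.factsX_M
    (tailJ_of HexObs.EN.espw_M HexObs.EN.allX_M)

end NTSZ

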