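import Pool.Agent.EN.TailP
import Pool.Agent.EN.SizesZ
import Pool.Agent.NTA.FinXAll

/-!
EN (every number of steps), the tail of the displacement L n ^ (3 / 4): lower side exp (- C L ^ 4) for every number of
steps and for every weak limit, no hypothesis; upper side from the words.
-/

set_option autoImplicit false

namespace NTSZ

open Finset MeasureTheory Filter Topology

open Pool.Agent.NTS.Res

open NTSF

open scoped ENNReal Classical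

theorem mLow_M : ∃ c : ℝ, 0 < c ∧ ∀ k : ℕ, c * (2 : ℝ) ^ (4 / 3 * (k : ℝ)) ≤ MZ k := VF.mLow VF.sharpZ

theorem mUp_M : ∃ C : ℝ, ∀ k : ℕ, MZ k ≤ C * (2 : ℝ) ^ (4 / 3 * (k : ℝ)) := by
  obtain ⟨C, _, h⟩ := VF.mUp VF.sharpZ
  exact ⟨C, h⟩

/-- the growth of the mean length -/
theorem grow_M : ∃ c : ℝ, 0 < c ∧ ∀ k j : ℕ, c * 2 ^ (4 / 3 * (j : ℝ)) * MZ k ≤ MZ (k + j) := by
  obtain ⟨c, hc, h1⟩ := VF.mLow VF.sharpZ
  obtain ⟨C, hC, h2⟩ := VF.mUp VF.sharpZ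
  refine ⟨c / C, by positivity, fun k j => ?_⟩
  have h3 : (2 : ℝ) ^ (4 / 3 * ((k + j : ℕ) : ℝ)) = 2 ^ (4 / 3 * (j : ℝ)) * 2 ^ (4 / 3 * (k : ℝ)) := by
    rw [← Real.rpow_add (by norm_num)]
    congr 1
    push_cast
    ring
  calc c / C * 2 ^ (4 / 3 * (j : ℝ)) * MZ k ≤ c / C * 2 ^ (4 / 3 * (j : ℝ)) * (C * 2 ^ (4 / 3 * (k : ℝ))) :=
        mul_le_mul_of_nonneg_left (h2 k) (by positivity)
    _ = c * (2 : ℝ) ^ (4 / 3 * ((k + j : ℕ) : ℝ)) := by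
        rw [h3]
        field_simp
    _ ≤ MZ (k + j) := h1 (k + j)

/-- **lower side, words, no hypothesis** -/
theorem farLow_M : FarLowP MZ :=
  HexObs.EN.FL.far_low HexObs.NTA.mlow_M HexObs.NTA.mup_M HexObs.NTA.tb_M HexObs.EN.ht_M HexObs.EN.indB_M grow_M

/-- **the lower side of the tail, the end point, every n, no hypothesis** -/
theorem fishLow_M : HexObs.NTW.FishLowX MZ := fishLow_of farLow_M

/-- **lower side, every number of steps, no hypothesis** -/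
theorem tailLow_M : ∃ c C : ℝ, 0 < c ∧ 0 < C ∧ ∀ n : ℕ, 1 ≤ n → ∀ L : ℝ, 1 ≤ L → L ≤ c * (n : ℝ) ^ (1 / 4 : ℝ) →
    Real.exp (-(C * L ^ 4)) * ((saw n).card : ℝ) ≤
      (((saw n).filter fun s => L * (n : ℝ) ^ (3 / 4 : ℝ) ≤ ‖pos s n‖).card : ℝ) :=
  tail_low mLow_M mUp_M HexObs.EN.allX_M farLow_M

/-- upper side, every number of steps -/
theorem tailUp_M (hU : HexObs.NTW.FishX MZ) : ∃ c C : ℝ, 0 < c ∧ 0 < C ∧ ∀ n : ℕ, 1 ≤ n → ∀ L : ℝ, 0 ≤ L →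
    (((saw n).filter fun s => ∃ j, j ≤ n ∧ L * (n : ℝ) ^ (3 / 4 : ℝ) ≤ ‖pos s j‖).card : ℝ) ≤
      C * Real.exp (-(c * L ^ 4)) * ((saw n).card : ℝ) :=
  tail_up mLow_M mUp_M HexObs.EN.factsX_M (farUp_of hU)

/-- **lower side for the weak limits, no hypothesis** -/
theorem limitLow_M : ∃ C : ℝ, 0 < C ∧ ∀ (φ : ℕ → ℕ) (ν : Measure C(unitInterval, ℂ)), Tendsto φ atTop atTop →
    IsProbabilityMeasure ν → LawTo φ ν → ∀ L : ℝ, 1 ≤ L →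
      ENNReal.ofReal (Real.exp (-(C * L ^ 4))) ≤ ν {γ : C(unitInterval, ℂ) | L ≤ ‖γ 1‖} := by
  obtain ⟨c, C, hc, hC, h⟩ := tailLow_M
  obtain ⟨cs, Cs, hcs, hsz, -⟩ := finE
  have hCs : 0 ≤ Cs := by
    obtain ⟨h1, h2⟩ := hsz 1 le_rfl
    rw [Nat.cast_one, Real.one_rpow] at h1 h2
    linarith
  exact ⟨C * (Cs + 1) ^ 4, by positivity, fun φ ν hφ hν hlim L hL => limit_low hcs hsz hφ hν hlim hc h hL⟩

/-- upper side for the weak limits -/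
theorem limitUp_M (hU : HexObs.NTW.FishX MZ) : ∃ c C : ℝ, 0 < c ∧ 0 < C ∧ ∀ (φ : ℕ → ℕ) (ν : Measure C(unitInterval, ℂ)),
    Tendsto φ atTop atTop → IsProbabilityMeasure ν → LawTo φ ν → ∀ L : ℝ, 0 ≤ L →
      ν {γ : C(unitInterval, ℂ) | ∃ u, L ≤ ‖γ u‖} ≤ ENNReal.ofReal (C * Real.exp (-(c * L ^ 4))) := by
  obtain ⟨c, C, hc, hC, h⟩ := tailUp_M hU
  obtain ⟨cs, Cs, hcs, hsz, -⟩ := finE
  exact ⟨c * (cs / 2) ^ 4, C, by positivity, hC, fun φ ν hφ hν hlim L hL => limit_up hcs hsz hφ hν hlim h hL⟩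

end NTSZ

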