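import Pool.Agent.EN.Comp
import Pool.Agent.NTW.KernU

/-!
EN, one leaf as a zig-zag: the leaves unf [s1, l, s2] with s1 and s2 tall and l a leaf of a lower scale. The exact norm of this
class is the product of the norm of s1, the exact norm of l (or: the exact norm of s1 and the norm of l) and the norm of s2
behind a leaf of the scale of l.
-/

set_option autoImplicit false

namespace HexObs

namespace EN

open Finset TS SDN NTW NTA

open SDN.CN (wE_unf3)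

open scoped ENNReal

/-- the leaves with the parts s1, l, s2 -/
def Zg (D : ℕ) (S1 L S2 : Set (List Bool)) : Set (List Bool) :=
  {g | g ∈ HB D ∧ ∃ s1 ∈ S1, ∃ l ∈ L, ∃ s2 ∈ S2, LFold s1 l ∧ LFold l s2 ∧ unf [s1, l, s2] = g}

lemma HB_ne {D : ℕ} (hD : 1 ≤ D) {g : List Bool} (h : g ∈ HB D) : g ≠ [] := by
  obtain ⟨n, hn, hg⟩ := h
  exact Brd_ne_nil hg (by omega)

lemma HB_anti {D D' : ℕ} (h : D ≤ D') {g : List Bool} (hg : g ∈ HB D') : g ∈ HB D := by
  obtain ⟨n, hn, hg⟩ := hg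
  exact ⟨n, h.trans hn, hg⟩

lemma herD_up {D D' : ℕ} (h : D ≤ D') {Φ : List Bool → ℝ≥0∞} (hΦ : HerD D Φ) : HerD D' Φ :=
  ⟨hΦ.her, fun s t ht hst => hΦ.suf s t (HB_anti h ht) (HB_anti h hst)⟩

lemma unf3_suf (a b c : List Bool) : ∃ s, unf [a, b, c] = s ++ c := by
  refine ⟨a.dropLast ++ (!lst a) :: (!lst a) :: (b.dropLast ++ [(!lst b), (!lst b)]), ?_⟩
  show a.dropLast ++ (!lst a) :: (!lst a) :: (b.dropLast ++ (!lst b) :: (!lst b) :: c) = _
  simp [List.append_assoc]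

lemma unf3_len {a b c : List Bool} (h1 : a ≠ []) (h2 : b ≠ []) (h3 : c ≠ []) :
    (unf [a, b, c]).length + 1 = (a.length + 1) + ((b.length + 1) + (c.length + 1)) := by
  have hl := unf_length (us := [a, b, c]) (by
    intro g hg
    simp only [List.mem_cons, List.not_mem_nil, or_false] at hg
    rcases hg with rfl | rfl | rfl
    · exact h1
    · exact h2
    · exact h3) (by simp)
  simp only [List.map_cons, List.map_nil, List.sum_cons, List.sum_nil, List.length_cons, List.length_nil] at hl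
  omega

lemma sh_pos {F : ℕ → List Bool → ℝ≥0∞} {N : ℕ} {g : List Bool} (h : g.length + 1 ≤ N) :
    sh F N g = F (N - (g.length + 1)) g := by
  unfold sh
  exact if_pos h

lemma sh_neg {F : ℕ → List Bool → ℝ≥0∞} {N : ℕ} {g : List Bool} (h : ¬ g.length + 1 ≤ N) : sh F N g = 0 := by
  unfold sh
  exact if_neg h

variable {D D1 : ℕ} {S1 L S2 : Set (List Bool)}

open Classical in
/-- **the sum over the leaves unf [s1, l, s2]**: the sum over s1 of the graded functional of l and s2 -/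
theorem zg_core (hD1 : 1 ≤ D1) (hDD : D1 ≤ D) (h1 : S1 ⊆ HB D) (h2 : L ⊆ HB D1) (h3 : S2 ⊆ HB D)
    {F : ℕ → List Bool → ℝ≥0∞} (hF : GH D F) (N : ℕ) {Q : List Bool → Prop} {q : List Bool → ℝ≥0∞}
    (hq : ∀ x ∈ HB D, ∀ z w, unf [x, z, w] ∈ HB D → q (unf [x, z, w]) ≤ q x)
    (hQ : ∀ x ∈ HB D, ∀ z w, Q (unf [x, z, w]) → Q x) :
    Rec8.sw {g | g ∈ Zg D S1 L S2 ∧ Q g} (fun g => q g * sh F N g) ≤
      Rec8.sw {s | s ∈ S1 ∧ Q s} (fun s => q s * sh (vG D1 L (vG D1 S2 F)) N s) := by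
  have hD : 1 ≤ D := hD1.trans hDD
  obtain ⟨H, hH⟩ : ∃ H : List Bool × (List Bool × List Bool) → ℝ≥0∞, H = fun p =>
      if (p.1 ∈ S1 ∧ Q p.1) ∧ (p.2.1 ∈ L ∧ LFold p.1 p.2.1) ∧ (p.2.2 ∈ S2 ∧ LFold p.2.1 p.2.2) ∧
        (p.1.length + 1) + ((p.2.1.length + 1) + (p.2.2.length + 1)) ≤ N then
        wE p.1 * (q p.1 * (wE p.2.1 * (wE p.2.2 * F (N - ((p.1.length + 1) + ((p.2.1.length + 1) + (p.2.2.length + 1)))) p.2.2)))
      else 0 := ⟨_, rfl⟩
  have Hv : ∀ a b c, H (a, (b, c)) = if (a ∈ S1 ∧ Q a) ∧ (b ∈ L ∧ LFold a b) ∧ (c ∈ S2 ∧ LFold b c) ∧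
        (a.length + 1) + ((b.length + 1) + (c.length + 1)) ≤ N then
        wE a * (q a * (wE b * (wE c * F (N - ((a.length + 1) + ((b.length + 1) + (c.length + 1)))) c)))
      else 0 := fun a b c => by rw [hH]
  refine (Rec8.sw_cover _ _ H (fun p : List Bool × (List Bool × List Bool) => unf [p.1, p.2.1, p.2.2]) ?_).trans ?_
  · rintro g ⟨hg, hQg⟩
    obtain ⟨hgD, s1, a1, l, a2, s2, a3, f1, f2, hunf⟩ := hg
    have b1 := h1 a1
    have b2 := h2 a2
    have b3 := h3 a3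
    have n1 := HB_ne hD b1
    have n2 := HB_ne hD1 b2
    have n3 := HB_ne hD b3
    refine ⟨(s1, (l, s2)), hunf, ?_⟩
    have hlen := unf3_len n1 n2 n3
    rw [hunf] at hlen
    rw [Hv]
    by_cases hN : g.length + 1 ≤ N
    · rw [if_pos ⟨⟨a1, hQ s1 b1 l s2 (by rw [hunf]; exact hQg)⟩, ⟨a2, f1⟩, ⟨a3, f2⟩, by rw [← hlen]; exact hN⟩, sh_pos hN,
        ← hlen]
      have c1 : wE g ≤ wE s1 * (wE l * wE s2) := by
        rw [← hunf]
        exact wE_unf3 n1 n2 n3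
      have c2 : q g ≤ q s1 := by
        have := hq s1 b1 l s2 (by rw [hunf]; exact hgD)
        rwa [hunf] at this
      have c3 : F (N - (g.length + 1)) g ≤ F (N - (g.length + 1)) s2 := by
        obtain ⟨s, hs⟩ := unf3_suf s1 l s2
        rw [hunf] at hs
        have := (hF (N - (g.length + 1))).suf s s2 b3 (hs ▸ hgD)
        rwa [← hs] at this
      calc wE g * (q g * F (N - (g.length + 1)) g)
          ≤ (wE s1 * (wE l * wE s2)) * (q s1 * F (N - (g.length + 1)) s2) := mul_le_mul' c1 (mul_le_mul' c2 c3)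
        _ = _ := by ring
    · rw [sh_neg hN, mul_zero, mul_zero]
      exact zero_le
  · rw [ENNReal.tsum_prod', Rec8.sw_ind]
    refine ENNReal.tsum_le_tsum fun s1 => ?_
    rw [ENNReal.tsum_prod']
    by_cases c1 : s1 ∈ S1 ∧ Q s1
    swap
    · rw [if_neg (show ¬ s1 ∈ {s | s ∈ S1 ∧ Q s} from c1)]
      refine le_of_eq (ENNReal.tsum_eq_zero.2 fun l => ENNReal.tsum_eq_zero.2 fun s2 => ?_)
      rw [Hv]
      exact if_neg fun h => c1 h.1
    rw [if_pos (show s1 ∈ {s | s ∈ S1 ∧ Q s} from c1)]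
    by_cases m1 : s1.length + 1 ≤ N
    swap
    · refine le_trans (le_of_eq (ENNReal.tsum_eq_zero.2 fun l => ENNReal.tsum_eq_zero.2 fun s2 => ?_)) zero_le
      rw [Hv]
      refine if_neg fun h => m1 ?_
      have h4 : (s1.length + 1) + ((l.length + 1) + (s2.length + 1)) ≤ N := h.2.2.2
      omega
    have e1 : sh (vG D1 L (vG D1 S2 F)) N s1 =
        Rec8.sw {g' | g' ∈ L ∧ RT D1 LFold s1 g'} (sh (vG D1 S2 F) (N - (s1.length + 1))) := by
      rw [sh_pos m1]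
      rfl
    rw [e1, Rec8.sw_ind, ← ENNReal.tsum_mul_left, ← ENNReal.tsum_mul_left]
    refine ENNReal.tsum_le_tsum fun l => ?_
    by_cases c2 : l ∈ L ∧ LFold s1 l
    swap
    · refine le_trans (le_of_eq (ENNReal.tsum_eq_zero.2 fun s2 => ?_)) zero_le
      rw [Hv]
      exact if_neg fun h => c2 h.2.1
    rw [if_pos (show l ∈ {g' | g' ∈ L ∧ RT D1 LFold s1 g'} from ⟨c2.1, RT_of (HB_anti hDD (h1 c1.1)) c2.2⟩)]
    by_cases m2 : l.length + 1 ≤ N - (s1.length + 1)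
    swap
    · refine le_trans (le_of_eq (ENNReal.tsum_eq_zero.2 fun s2 => ?_)) zero_le
      rw [Hv]
      refine if_neg fun h => m2 ?_
      have h4 : (s1.length + 1) + ((l.length + 1) + (s2.length + 1)) ≤ N := h.2.2.2
      omega
    have e2 : sh (vG D1 S2 F) (N - (s1.length + 1)) l =
        Rec8.sw {g' | g' ∈ S2 ∧ RT D1 LFold l g'} (sh F (N - (s1.length + 1) - (l.length + 1))) := by
      rw [sh_pos m2]
      rfl
    rw [e2, Rec8.sw_ind, ← ENNReal.tsum_mul_left, ← ENNReal.tsum_mul_left, ← ENNReal.tsum_mul_left]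
    refine ENNReal.tsum_le_tsum fun s2 => ?_
    rw [Hv]
    by_cases c3 : (s2 ∈ S2 ∧ LFold l s2) ∧ (s1.length + 1) + ((l.length + 1) + (s2.length + 1)) ≤ N
    swap
    · refine le_trans (le_of_eq (if_neg fun h => c3 ⟨h.2.2.1, h.2.2.2⟩)) zero_le
    have m3 : s2.length + 1 ≤ N - (s1.length + 1) - (l.length + 1) := by
      have := c3.2
      omega
    refine le_of_eq ?_
    rw [if_pos ⟨c1, c2, c3.1, c3.2⟩,
      if_pos (show s2 ∈ {g' | g' ∈ S2 ∧ RT D1 LFold l g'} from ⟨c3.1.1, RT_of (h2 c2.1) c3.1.2⟩), sh_pos m3,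
      show N - ((s1.length + 1) + ((l.length + 1) + (s2.length + 1))) =
        N - (s1.length + 1) - (l.length + 1) - (s2.length + 1) by omega]

lemma RT_fst {D : ℕ} (hD : 1 ≤ D) {t x z w : List Bool} (hx : x ∈ HB D) (h : RT D LFold t (unf [x, z, w])) :
    RT D LFold t x := by
  obtain ⟨Z, h1, h2, h3⟩ := h
  exact ⟨Z, h1, h2, LFold_fst (HB_ne hD hx) h3⟩

/-- the left functionals with the property Flp do not decrease when the end of a zig-zag is dropped -/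
lemma flp_zig {D : ℕ} (hD1 : 1 ≤ D) {Ψ : List Bool → ℝ≥0∞} (hf : Flp D Ψ) :
    ∀ x ∈ HB D, ∀ z w, unf [x, z, w] ∈ HB D → Ψ (rev (unf [x, z, w])) ≤ Ψ (rev x) := by
  intro x hx z w hg
  have hne : x ≠ [] := HB_ne hD1 hx
  obtain ⟨x', hx'⟩ : ∃ x', x' = x.dropLast := ⟨_, rfl⟩
  have hx2 : x = x' ++ [lst x] := by
    have h5 : lst x = x.getLast hne := by
      unfold lst
      rw [List.getLastD_eq_getLast?, List.getLast?_eq_some_getLast hne]
      rfl
    rw [h5, hx']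
    exact (List.dropLast_append_getLast hne).symm
  obtain ⟨c, hc⟩ : ∃ c, c = !lst x := ⟨_, rfl⟩
  have h3 : rev x = c :: rev x' := by
    conv_lhs => rw [hx2]
    rw [rev_concat', ← hc]
  have h4 : ∃ s, rev (unf [x, z, w]) = s ++ (!c) :: rev x' := by
    refine ⟨rev ((!lst x) :: unf [z, w]), ?_⟩
    have h5 : unf [x, z, w] = (x' ++ [!lst x]) ++ ((!lst x) :: unf [z, w]) := by
      rw [List.append_assoc, List.singleton_append, hx']
      rfl
    rw [h5, rev_append, rev_concat', hc]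
  obtain ⟨s, hs⟩ := h4
  rw [hs, h3]
  refine hf s (rev x') c ?_ ?_
  · rw [← h3]
    obtain ⟨n, hn, hB⟩ := hx
    exact ⟨n, hn, Brd_rev hB⟩
  · rw [← hs]
    obtain ⟨n, hn, hB⟩ := hg
    exact ⟨n, hn, Brd_rev hB⟩

/-- behind a leaf t -/
theorem vG_zg (hD1 : 1 ≤ D1) (hDD : D1 ≤ D) (h1 : S1 ⊆ HB D) (h2 : L ⊆ HB D1) (h3 : S2 ⊆ HB D)
    {F : ℕ → List Bool → ℝ≥0∞} (hF : GH D F) (N : ℕ) (t : List Bool) :
    vG D (Zg D S1 L S2) F N t ≤ vG D S1 (vG D1 L (vG D1 S2 F)) N t := by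
  have h := zg_core hD1 hDD h1 h2 h3 hF N (Q := fun g => RT D LFold t g) (q := fun _ => 1)
    (fun _ _ _ _ _ => le_rfl) (fun x hx z w => RT_fst (hD1.trans hDD) hx)
  simp only [one_mul] at h
  exact h

/-- between two functionals -/
theorem free_zg (hD1 : 1 ≤ D1) (hDD : D1 ≤ D) (h1 : S1 ⊆ HB D) (h2 : L ⊆ HB D1) (h3 : S2 ⊆ HB D)
    {F P : ℕ → List Bool → ℝ≥0∞} (hF : GH D F) (hP : ∀ c, Flp D (P c)) (N : ℕ) :
    Rec8.sw (Zg D S1 L S2) (fun g => ∑ c ∈ range (N + 1), P c (rev g) * sh F (N - c) g) ≤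
      Rec8.sw S1 (fun s => ∑ c ∈ range (N + 1), P c (rev s) * sh (vG D1 L (vG D1 S2 F)) (N - c) s) := by
  rw [Rec8.sw_sum, Rec8.sw_sum]
  refine Finset.sum_le_sum fun c _ => ?_
  have h := zg_core hD1 hDD h1 h2 h3 hF (N - c) (Q := fun _ => True) (q := fun g => P c (rev g))
    (flp_zig (hD1.trans hDD) (hP c)) (fun _ _ _ _ _ => trivial)
  simpa only [and_true, Set.ofPred_mem_eq] using h

end EN

end HexObs
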