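import Pool.Agent.EN.ZgComp
import Pool.Agent.NTA.LongQ

/-!
EN: the exact norm of the class of the zig-zags unf [s1, l, s2], two forms: the letters are smoothed by l or by s1.
-/

set_option autoImplicit false

namespace HexObs

namespace EN

open Finset TS SDN NTW NTA

open scoped ENNReal

/-- **smoothing by l** -/
theorem comp_zg : ∃ K : ℝ, 1 ≤ K ∧ ∀ (kc j : ℕ) (S1 L S2 : Set (List Bool)) (d1 e d2 : ℝ), j ≤ kc →
    S1 ⊆ HB (2 ^ (kc + 4)) → L ⊆ HB (2 ^ (j + 4)) → S2 ⊆ HB (2 ^ (kc + 4)) → 0 ≤ d1 → 0 ≤ e → 0 ≤ d2 →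
    SmD DmJ kc S1 d1 →
    (∀ (x : ℝ≥0∞) (F : ℕ → List Bool → ℝ≥0∞), GH (2 ^ (j + 4)) F → DmJ j x (tot F) →
      xT (2 ^ (j + 4)) j (fun t => ⨆ N, vG (2 ^ (j + 4)) L F N t) ≤ ENNReal.ofReal e * x) →
    (∀ (x : ℝ≥0∞) (Φ : List Bool → ℝ≥0∞), DmJ kc x Φ →
      xT (2 ^ (j + 4)) j (vA (2 ^ (j + 4)) S2 Φ) ≤ ENNReal.ofReal d2 * x) →
    SmDX DmJ kc (Zg (2 ^ (kc + 4)) S1 L S2) (K * d1 * e * d2) := by
  obtain ⟨C, δ, h⟩ := inp_exists
  obtain ⟨K, hK, hdx⟩ := DomJ_xT h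
  refine ⟨K, hK, fun kc j S1 L S2 d1 e d2 hj hS1 hL hS2 hd1 he hd2 h1 h2 h3 => ?_⟩
  have hD1 : 1 ≤ 2 ^ (j + 4) := Nat.one_le_two_pow
  have hDD : 2 ^ (j + 4) ≤ 2 ^ (kc + 4) := Nat.pow_le_pow_right (by norm_num) (by omega)
  have hU := Ub_pos kc
  -- the functional of l and s2
  have key : ∀ (x : ℝ≥0∞) (F : ℕ → List Bool → ℝ≥0∞), GH (2 ^ (kc + 4)) F → DmJ kc x (tot F) →
      DmJ kc (ENNReal.ofReal (K * e * d2) * x)
        (fun t => ⨆ N, vG (2 ^ (j + 4)) L (vG (2 ^ (j + 4)) S2 F) N t) := by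
    intro x F hF hx
    have hY : GH (2 ^ (j + 4)) (vG (2 ^ (j + 4)) S2 F) := herD_vG hD1 _ _
    have hYt : tot (vG (2 ^ (j + 4)) S2 F) = vA (2 ^ (j + 4)) S2 (tot F) := funext fun t => tot_vG _ _ _ _
    have h4 := h2 _ _ hY (DmJ_dm j _ (herD_tot hY))
    have h5 : xT (2 ^ (j + 4)) j (tot (vG (2 ^ (j + 4)) S2 F)) ≤ ENNReal.ofReal d2 * x := by
      rw [hYt]
      exact h3 x _ hx
    have hH : HerD (2 ^ (j + 4)) (fun t => ⨆ N, vG (2 ^ (j + 4)) L (vG (2 ^ (j + 4)) S2 F) N t) :=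
      herD_iSup fun N => herD_vG hD1 _ _ N
    refine ⟨herD_up hDD hH, (hdx (2 ^ (j + 4)) j kc _ hH.her le_rfl hj).mono ?_⟩
    calc ENNReal.ofReal K * xT (2 ^ (j + 4)) j (fun t => ⨆ N, vG (2 ^ (j + 4)) L (vG (2 ^ (j + 4)) S2 F) N t)
        ≤ ENNReal.ofReal K * (ENNReal.ofReal e * (ENNReal.ofReal d2 * x)) :=
          mul_le_mul_right (h4.trans (mul_le_mul_right h5 _)) _
      _ = _ := by
          rw [ENNReal.ofReal_mul (by positivity), ENNReal.ofReal_mul (by linarith)]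
          ring
  refine ⟨fun x F hF hx => ?_, fun y x P F hP hPf hF hy hx N => ?_⟩
  · have h6 := h1.near _ _ (key x F hF hx)
    refine le_trans (xT_mono fun t => iSup_le fun N => ?_) (h6.trans (le_of_eq ?_))
    · refine (vG_zg hD1 hDD hS1 hL hS2 hF N t).trans ?_
      refine Rec8.sw_mono' fun s _ => ?_
      exact sh_le (fun n => le_iSup (fun n => vG (2 ^ (j + 4)) L (vG (2 ^ (j + 4)) S2 F) n s) n) N
    · rw [← mul_assoc, ← ENNReal.ofReal_mul hd1]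
      congr 2
      ring
  · have h6 := h1.free y _ (tot P) _ hy (flp_tot hPf) (key x F hF hx)
    refine (free_zg hD1 hDD hS1 hL hS2 hF hPf N).trans (le_trans (Rec8.sw_mono' fun s _ => ?_) (h6.trans (le_of_eq ?_)))
    · calc ∑ c ∈ range (N + 1), P c (rev s) * sh (vG (2 ^ (j + 4)) L (vG (2 ^ (j + 4)) S2 F)) (N - c) s
          ≤ ∑ c ∈ range (N + 1), P c (rev s) * (⨆ n, vG (2 ^ (j + 4)) L (vG (2 ^ (j + 4)) S2 F) n s) :=
            Finset.sum_le_sum fun c _ => mul_le_mul_right (sh_le (fun n =>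
              le_iSup (fun n => vG (2 ^ (j + 4)) L (vG (2 ^ (j + 4)) S2 F) n s) n) (N - c)) _
        _ = (∑ c ∈ range (N + 1), P c (rev s)) * (⨆ n, vG (2 ^ (j + 4)) L (vG (2 ^ (j + 4)) S2 F) n s) := by
            rw [Finset.sum_mul]
        _ ≤ _ := mul_le_mul_left (ENNReal.sum_le_tsum _) _
    · have e1 : ENNReal.ofReal (d1 * Ub kc) * (y * (ENNReal.ofReal (K * e * d2) * x)) =
          (ENNReal.ofReal (d1 * Ub kc) * ENNReal.ofReal (K * e * d2)) * (y * x) := by ring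
      rw [e1, ← ENNReal.ofReal_mul (by positivity)]
      congr 2
      ring

/-- **smoothing by s1** -/
theorem comp_good : ∃ K : ℝ, 1 ≤ K ∧ ∀ (kc j : ℕ) (S1 L S2 : Set (List Bool)) (a e d2 : ℝ), j ≤ kc →
    S1 ⊆ HB (2 ^ (kc + 4)) → L ⊆ HB (2 ^ (j + 4)) → S2 ⊆ HB (2 ^ (kc + 4)) → 0 ≤ a → 0 ≤ e → 0 ≤ d2 →
    SmDX DmJ kc S1 a →
    (∀ (x : ℝ≥0∞) (Φ : List Bool → ℝ≥0∞), DmJ j x Φ →
      xT (2 ^ (j + 4)) j (vA (2 ^ (j + 4)) L Φ) ≤ ENNReal.ofReal e * x) →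
    (∀ (x : ℝ≥0∞) (Φ : List Bool → ℝ≥0∞), DmJ kc x Φ →
      xT (2 ^ (j + 4)) j (vA (2 ^ (j + 4)) S2 Φ) ≤ ENNReal.ofReal d2 * x) →
    SmDX DmJ kc (Zg (2 ^ (kc + 4)) S1 L S2) (K * a * e * d2) := by
  obtain ⟨C, δ, h⟩ := inp_exists
  obtain ⟨K, hK, hdx⟩ := DomJ_xT h
  refine ⟨K, hK, fun kc j S1 L S2 a e d2 hj hS1 hL hS2 ha he hd2 h1 h2 h3 => ?_⟩
  have hD1 : 1 ≤ 2 ^ (j + 4) := Nat.one_le_two_pow
  have hDD : 2 ^ (j + 4) ≤ 2 ^ (kc + 4) := Nat.pow_le_pow_right (by norm_num) (by omega)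
  have hU := Ub_pos kc
  have hGH : ∀ F : ℕ → List Bool → ℝ≥0∞, GH (2 ^ (kc + 4)) (vG (2 ^ (j + 4)) L (vG (2 ^ (j + 4)) S2 F)) :=
    fun F c => herD_up hDD (herD_vG hD1 _ _ c)
  have key : ∀ (x : ℝ≥0∞) (F : ℕ → List Bool → ℝ≥0∞), DmJ kc x (tot F) →
      DmJ kc (ENNReal.ofReal (K * e * d2) * x) (tot (vG (2 ^ (j + 4)) L (vG (2 ^ (j + 4)) S2 F))) := by
    intro x F hx
    have hYt : tot (vG (2 ^ (j + 4)) S2 F) = vA (2 ^ (j + 4)) S2 (tot F) := funext fun t => tot_vG _ _ _ _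
    have hXt : tot (vG (2 ^ (j + 4)) L (vG (2 ^ (j + 4)) S2 F)) =
        vA (2 ^ (j + 4)) L (tot (vG (2 ^ (j + 4)) S2 F)) := funext fun t => tot_vG _ _ _ _
    have hY : GH (2 ^ (j + 4)) (vG (2 ^ (j + 4)) S2 F) := herD_vG hD1 _ _
    have h4 := h2 _ _ (DmJ_dm j _ (herD_tot hY))
    have h5 : xT (2 ^ (j + 4)) j (tot (vG (2 ^ (j + 4)) S2 F)) ≤ ENNReal.ofReal d2 * x := by
      rw [hYt]
      exact h3 x _ hx
    rw [← hXt] at h4
    have hH := herD_tot (herD_vG hD1 L (vG (2 ^ (j + 4)) S2 F))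
    refine ⟨herD_up hDD hH, (hdx (2 ^ (j + 4)) j kc _ hH.her le_rfl hj).mono ?_⟩
    calc ENNReal.ofReal K * xT (2 ^ (j + 4)) j (tot (vG (2 ^ (j + 4)) L (vG (2 ^ (j + 4)) S2 F)))
        ≤ ENNReal.ofReal K * (ENNReal.ofReal e * (ENNReal.ofReal d2 * x)) :=
          mul_le_mul_right (h4.trans (mul_le_mul_right h5 _)) _
      _ = _ := by
          rw [ENNReal.ofReal_mul (by positivity), ENNReal.ofReal_mul (by linarith)]
          ring
  refine ⟨fun x F hF hx => ?_, fun y x P F hP hPf hF hy hx N => ?_⟩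
  · have h6 := h1.near _ _ (hGH F) (key x F hx)
    refine le_trans (xT_mono fun t => iSup_mono fun N => vG_zg hD1 hDD hS1 hL hS2 hF N t) (h6.trans (le_of_eq ?_))
    rw [← mul_assoc, ← ENNReal.ofReal_mul ha]
    congr 2
    ring
  · have h6 := h1.free y _ P _ hP hPf (hGH F) hy (key x F hx) N
    refine (free_zg hD1 hDD hS1 hL hS2 hF hPf N).trans (h6.trans (le_of_eq ?_))
    have e1 : ENNReal.ofReal (a * Ub kc) * (y * (ENNReal.ofReal (K * e * d2) * x)) =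
        (ENNReal.ofReal (a * Ub kc) * ENNReal.ofReal (K * e * d2)) * (y * x) := by ring
    rw [e1, ← ENNReal.ofReal_mul (by positivity)]
    congr 2
    ring

/-! ### algebra of SmDX -/

section

variable {Dm : ℕ → ℝ≥0∞ → (List Bool → ℝ≥0∞) → Prop} {kc : ℕ} {S S' : Set (List Bool)} {δ δ' : ℝ}

lemma smDX_up (h : δ ≤ δ') (hS : SmDX Dm kc S δ) : SmDX Dm kc S δ' := by
  refine ⟨fun x F h1 h2 => (hS.near x F h1 h2).trans ?_, fun y x P F h1 h2 h3 h4 h5 N =>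
    (hS.free y x P F h1 h2 h3 h4 h5 N).trans ?_⟩
  · exact mul_le_mul_left (ENNReal.ofReal_le_ofReal h) _
  · refine mul_le_mul_left (ENNReal.ofReal_le_ofReal ?_) _
    exact mul_le_mul_of_nonneg_right h (Ub_pos kc).le

lemma vG_union (D : ℕ) (F : ℕ → List Bool → ℝ≥0∞) (N : ℕ) (t : List Bool) :
    vG D (S ∪ S') F N t ≤ vG D S F N t + vG D S' F N t := by
  refine TN5b_sw_union ?_ _
  rintro g ⟨h1 | h1, h2⟩
  · exact Or.inl ⟨h1, h2⟩
  · exact Or.inr ⟨h1, h2⟩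

lemma smDX_mono (h : S' ⊆ S) (hS : SmDX Dm kc S δ) : SmDX Dm kc S' δ := by
  refine ⟨fun x F h1 h2 => le_trans (xT_mono fun t => iSup_mono fun N => ?_) (hS.near x F h1 h2),
    fun y x P F h1 h2 h3 h4 h5 N => le_trans ?_ (hS.free y x P F h1 h2 h3 h4 h5 N)⟩
  · exact Rec8.sw_mono (fun g hg => ⟨h hg.1, hg.2⟩) fun _ _ => le_rfl
  · exact Rec8.sw_mono h fun _ _ => le_rfl

lemma smDX_union (h0 : 0 ≤ δ) (h0' : 0 ≤ δ') (h : SmDX Dm kc S δ) (h' : SmDX Dm kc S' δ') :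
    SmDX Dm kc (S ∪ S') (δ + δ') := by
  refine ⟨fun x F h1 h2 => ?_, fun y x P F h1 h2 h3 h4 h5 N => ?_⟩
  · have h6 : ∀ t, (⨆ N, vG (2 ^ (kc + 4)) (S ∪ S') F N t) ≤
        (⨆ N, vG (2 ^ (kc + 4)) S F N t) + ⨆ N, vG (2 ^ (kc + 4)) S' F N t := by
      intro t
      refine iSup_le fun N => (vG_union _ F N t).trans (add_le_add ?_ ?_)
      · exact le_iSup (fun N => vG (2 ^ (kc + 4)) S F N t) N
      · exact le_iSup (fun N => vG (2 ^ (kc + 4)) S' F N t) N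
    refine (xT_mono h6).trans ((xT_add _ _ _ _).trans ?_)
    rw [ENNReal.ofReal_add h0 h0', add_mul]
    exact add_le_add (h.near x F h1 h2) (h'.near x F h1 h2)
  · refine (TN5b_sw_union (B := S) (C := S') (fun g hg => hg) _).trans ?_
    have hU := (Ub_pos kc).le
    rw [add_mul, ENNReal.ofReal_add (by positivity) (by positivity), add_mul]
    exact add_le_add (h.free y x P F h1 h2 h3 h4 h5 N) (h'.free y x P F h1 h2 h3 h4 h5 N)

/-- a class of small norm is a class of small exact norm -/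
lemma smDX_of_smD (hS : SmD Dm kc S δ) : SmDX Dm kc S δ := by
  refine ⟨fun x F h1 h2 => ?_, fun y x P F h1 h2 h3 h4 h5 N => ?_⟩
  · refine le_trans (xT_mono fun t => iSup_le fun N => ?_) (hS.near x _ h2)
    exact Rec8.sw_mono' fun s _ => sh_le (fun n => le_tot F n s) N
  · refine le_trans (Rec8.sw_mono' fun s _ => ?_) (hS.free y x (tot P) (tot F) h4 (flp_tot h2) h5)
    calc ∑ c ∈ range (N + 1), P c (rev s) * sh F (N - c) s ≤ ∑ c ∈ range (N + 1), P c (rev s) * tot F s :=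
          Finset.sum_le_sum fun c _ => mul_le_mul_right (sh_le (fun n => le_tot F n s) _) _
      _ = (∑ c ∈ range (N + 1), P c (rev s)) * tot F s := by rw [Finset.sum_mul]
      _ ≤ _ := mul_le_mul_left (ENNReal.sum_le_tsum _) _

lemma smDX_sum (n : ℕ) (C : ℕ → Set (List Bool)) (d : ℕ → ℝ) (hd : ∀ i < n, 0 ≤ d i)
    (h : ∀ i < n, SmDX Dm kc (C i) (d i)) : SmDX Dm kc {g | ∃ i < n, g ∈ C i} (∑ i ∈ range n, d i) := by
  induction n with
  | zero =>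
    have : {g : List Bool | ∃ i < 0, g ∈ C i} = ∅ := by
      ext g
      constructor
      · rintro ⟨i, hi, -⟩
        omega
      · exact fun h => absurd h (Set.notMem_empty g)
    rw [this]
    exact smDX_of_smD LQ.SmD_empty
  | succ n ih =>
    rw [Finset.sum_range_succ]
    refine smDX_mono ?_ (smDX_union (Finset.sum_nonneg fun i hi => hd i (by rw [Finset.mem_range] at hi; omega))
      (hd n (by omega)) (ih (fun i hi => hd i (by omega)) fun i hi => h i (by omega)) (h n (by omega)))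
    rintro g ⟨i, hi, hg⟩
    rcases Nat.lt_or_ge i n with h1 | h1
    · exact Or.inl ⟨i, h1, hg⟩
    · have : i = n := by omega
      exact Or.inr (this ▸ hg)

end

end EN

end HexObs
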